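import Mathlib

set_option autoImplicit false

/-! Characteristic polynomial of G(n,1/2), part L0: this file joins several modules to save build time. -/

section S_Defs

/-! MP_a758cf_pr (irreducibility of the characteristic polynomial of G(n,1/2)), project IR of helper64.
Common definitions. Everything is a finite average over the bits `b : Edge n → Bool`. -/

set_option autoImplicit false

namespace Pool.H64.IR

open Finset Polynomial

/-- pairs `i < j` of vertices -/
abbrev Edge (n : ℕ) := {e : Fin n × Fin n // e.1 < e.2}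

/-- the symmetric matrix with zero diagonal and off-diagonal entries `0/1` given by the bits `b` -/
def adj {n : ℕ} (R : Type) [Zero R] [One R] (b : Edge n → Bool) : Matrix (Fin n) (Fin n) R :=
  Matrix.of fun i j =>
    if h : i < j then (if b ⟨(i, j), h⟩ then 1 else 0)
    else if h : j < i then (if b ⟨(j, i), h⟩ then 1 else 0) else 0

/-- average of a real function over a finite type -/
noncomputable def avg {α : Type} [Fintype α] (f : α → ℝ) : ℝ := (∑ a, f a) / Fintype.card α

open Classical in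
/-- indicator of a proposition, as a real number -/
noncomputable def ind (P : Prop) : ℝ := if P then 1 else 0

/-- probability -/
noncomputable def pr {α : Type} [Fintype α] (P : α → Prop) : ℝ := avg fun a => ind (P a)

lemma ind_true {P : Prop} (h : P) : ind P = 1 := by unfold ind; exact if_pos h
lemma ind_false {P : Prop} (h : ¬ P) : ind P = 0 := by unfold ind; exact if_neg h
lemma ind_nonneg (P : Prop) : 0 ≤ ind P := by unfold ind; split_ifs <;> norm_num
lemma ind_le_one (P : Prop) : ind P ≤ 1 := by unfold ind; split_ifs <;> norm_num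
lemma ind_mono {P Q : Prop} (h : P → Q) : ind P ≤ ind Q := by
  by_cases hP : P
  · rw [ind_true hP, ind_true (h hP)]
  · rw [ind_false hP]; exact ind_nonneg Q
lemma ind_and (P Q : Prop) : ind (P ∧ Q) = ind P * ind Q := by
  by_cases hP : P <;> by_cases hQ : Q <;> simp [ind, hP, hQ]
lemma ind_or_le (P Q : Prop) : ind (P ∨ Q) ≤ ind P + ind Q := by
  by_cases hP : P <;> by_cases hQ : Q <;> simp [ind, hP, hQ]
lemma ind_not (P : Prop) : ind (¬ P) = 1 - ind P := by
  by_cases hP : P <;> simp [ind, hP]
lemma ind_congr {P Q : Prop} (h : P ↔ Q) : ind P = ind Q := by rw [propext h]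
lemma ind_exists_le {α : Type} (s : Finset α) (P : α → Prop) : ind (∃ a ∈ s, P a) ≤ ∑ a ∈ s, ind (P a) := by
  by_cases h : ∃ a ∈ s, P a
  · obtain ⟨a, ha, hPa⟩ := h
    rw [ind_true ⟨a, ha, hPa⟩]
    calc (1 : ℝ) = ind (P a) := (ind_true hPa).symm
      _ ≤ ∑ a ∈ s, ind (P a) := Finset.single_le_sum (fun a _ => ind_nonneg (P a)) ha
  · rw [ind_false h]; exact Finset.sum_nonneg (fun a _ => ind_nonneg _)

section avg
variable {α : Type} [Fintype α]

lemma avg_mono {f g : α → ℝ} (h : ∀ a, f a ≤ g a) : avg f ≤ avg g := by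
  unfold avg
  exact div_le_div_of_nonneg_right (Finset.sum_le_sum fun a _ => h a) (Nat.cast_nonneg _)
lemma avg_nonneg {f : α → ℝ} (h : ∀ a, 0 ≤ f a) : 0 ≤ avg f :=
  div_nonneg (Finset.sum_nonneg fun a _ => h a) (Nat.cast_nonneg _)
lemma avg_add (f g : α → ℝ) : avg (fun a => f a + g a) = avg f + avg g := by
  unfold avg; rw [Finset.sum_add_distrib, add_div]
lemma avg_sub (f g : α → ℝ) : avg (fun a => f a - g a) = avg f - avg g := by
  unfold avg; rw [Finset.sum_sub_distrib, sub_div]
lemma avg_const_mul (c : ℝ) (f : α → ℝ) : avg (fun a => c * f a) = c * avg f := by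
  unfold avg; rw [← Finset.mul_sum, mul_div_assoc]
lemma avg_mul_const (c : ℝ) (f : α → ℝ) : avg (fun a => f a * c) = avg f * c := by
  unfold avg; rw [← Finset.sum_mul]; ring
lemma avg_const [Nonempty α] (c : ℝ) : avg (fun _ : α => c) = c := by
  unfold avg; rw [Finset.sum_const, Finset.card_univ, nsmul_eq_mul]
  have : (Fintype.card α : ℝ) ≠ 0 := by exact_mod_cast Fintype.card_ne_zero
  field_simp
lemma avg_sum {β : Type} (s : Finset β) (f : β → α → ℝ) :
    avg (fun a => ∑ x ∈ s, f x a) = ∑ x ∈ s, avg (f x) := by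
  unfold avg; rw [Finset.sum_comm, Finset.sum_div]
lemma abs_avg_le (f : α → ℝ) : |avg f| ≤ avg fun a => |f a| := by
  unfold avg
  rw [abs_div, abs_of_nonneg (Nat.cast_nonneg (α := ℝ) (Fintype.card α))]
  exact div_le_div_of_nonneg_right (Finset.abs_sum_le_sum_abs _ _) (Nat.cast_nonneg _)
lemma pr_nonneg (P : α → Prop) : 0 ≤ pr P := avg_nonneg fun a => ind_nonneg _
lemma pr_le_one (P : α → Prop) : pr P ≤ 1 := by
  rcases isEmpty_or_nonempty α with h | h
  · unfold pr avg; simp
  · calc pr P ≤ avg (fun _ : α => (1 : ℝ)) := avg_mono fun a => ind_le_one _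
      _ = 1 := avg_const 1
lemma pr_mono {P Q : α → Prop} (h : ∀ a, P a → Q a) : pr P ≤ pr Q := avg_mono fun a => ind_mono (h a)
lemma pr_or_le (P Q : α → Prop) : pr (fun a => P a ∨ Q a) ≤ pr P + pr Q := by
  unfold pr; rw [← avg_add]; exact avg_mono fun a => ind_or_le _ _
lemma pr_exists_le {β : Type} (s : Finset β) (P : β → α → Prop) :
    pr (fun a => ∃ x ∈ s, P x a) ≤ ∑ x ∈ s, pr (P x) := by
  unfold pr; rw [← avg_sum]; exact avg_mono fun a => ind_exists_le s _
/-- Markov -/
lemma pr_markov (P : α → Prop) (f : α → ℝ) (hf : ∀ a, 0 ≤ f a) (c : ℝ) (hc : 0 < c) (h : ∀ a, P a → c ≤ f a) :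
    pr P ≤ avg f / c := by
  rw [le_div_iff₀ hc]; unfold pr; rw [← avg_mul_const]
  refine avg_mono fun a => ?_
  by_cases hP : P a
  · rw [ind_true hP, one_mul]; exact h a hP
  · rw [ind_false hP, zero_mul]; exact hf a
lemma pr_eq_card (P : α → Prop) : pr P = (Nat.card {a // P a} : ℝ) / Nat.card α := by
  classical
  unfold pr avg ind
  rw [Finset.sum_boole, Nat.card_eq_fintype_card, Nat.card_eq_fintype_card, Fintype.card_subtype]
end avg

/-- number of off-diagonal pairs `i<j` with nonzero entry -/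
def wt {n : ℕ} {F : Type} [Zero F] [DecidableEq F] (M : Matrix (Fin n) (Fin n) F) : ℕ :=
  (univ.filter fun e : Edge n => M e.1.1 e.1.2 ≠ 0).card

section counts
variable {n : ℕ} {κ : Type} [Fintype κ] [DecidableEq κ] {p : ℕ} [Fact p.Prime]

/-- the columns of `V` are linearly independent -/
def FullRank (V : Matrix (Fin n) κ (ZMod p)) : Prop :=
  LinearIndependent (ZMod p) (fun a : κ => fun i : Fin n => V i a)

/-- number of `V` with linearly independent columns and `A V = V C` -/
noncomputable def XC (C : Matrix κ κ (ZMod p)) (A : Matrix (Fin n) (Fin n) (ZMod p)) : ℝ :=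
  ∑ V : Matrix (Fin n) κ (ZMod p), ind (FullRank V ∧ A * V = V * C)

/-- number of symmetric `S` with `S C` symmetric -/
noncomputable def HC (C : Matrix κ κ (ZMod p)) : ℝ :=
  ∑ S : Matrix κ κ (ZMod p), ind (S.IsSymm ∧ (S * C).IsSymm)

/-- `NC C M` = number of full rank `V` (n x k) with `Vᵀ V C` symmetric and `M = V Yᵀ + Y Vᵀ` for some `Y` -/
noncomputable def NC (C : Matrix κ κ (ZMod p)) (M : Matrix (Fin n) (Fin n) (ZMod p)) : ℝ :=
  ∑ V : Matrix (Fin n) κ (ZMod p),
    ind (FullRank V ∧ (V.transpose * V * C).IsSymm ∧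
      ∃ Y : Matrix (Fin n) κ (ZMod p), V * Y.transpose + Y * V.transpose = M)

/-- companion matrix of a (monic) polynomial: columns `e_{j+1}`, last column `-coefficients` -/
def comp (f : (ZMod p)[X]) : Matrix (Fin f.natDegree) (Fin f.natDegree) (ZMod p) :=
  Matrix.of fun i j => if (j : ℕ) + 1 = f.natDegree then - f.coeff i else if (i : ℕ) = j + 1 then 1 else 0

/-- the annihilator of the vector `z` in `(ZMod p)[X]` (acting through `A`) is the ideal `(f)` -/
def IsAnn (A : Matrix (Fin n) (Fin n) (ZMod p)) (z : Fin n → ZMod p) (f : (ZMod p)[X]) : Prop :=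
  ∀ g : (ZMod p)[X], (Polynomial.aeval A g).mulVec z = 0 ↔ f ∣ g

/-- number of vectors with annihilator `(f)` -/
noncomputable def X1 (f : (ZMod p)[X]) (A : Matrix (Fin n) (Fin n) (ZMod p)) : ℝ :=
  ∑ z : Fin n → ZMod p, ind (IsAnn A z f)

/-- number of vectors killed by `f(A)` -/
noncomputable def kerc (f : (ZMod p)[X]) (A : Matrix (Fin n) (Fin n) (ZMod p)) : ℝ :=
  ∑ z : Fin n → ZMod p, ind ((Polynomial.aeval A f).mulVec z = 0)

/-- indicator of `f ∣ charpoly A` -/
noncomputable def BB (f : (ZMod p)[X]) (A : Matrix (Fin n) (Fin n) (ZMod p)) : ℝ := ind (f ∣ A.charpoly)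

/-- the model probability of `f ∣ charpoly` for `f` irreducible -/
noncomputable def beta (f : (ZMod p)[X]) : ℝ := 1 / ((p : ℝ) ^ f.natDegree - 1)

end counts

end Pool.H64.IR

end S_Defs
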