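import Mathlib
import Pool.Agent.H64.IRL.L0

set_option autoImplicit false

/-! Characteristic polynomial of G(n,1/2), part L1: this file joins several modules to save build time. -/

section S_BRG

/-! MODULE BRG (project MP_a758cf_pr, IR; overview: team-store H64_a758cf.md)
Simple graphs on Fin n correspond to bits on the pairs i < j; adjacency matrix = adj. And the reduction: a rational divisor of the characteristic polynomial gives monic divisors of the same
degree modulo every prime (Gauss lemma: IsIntegrallyClosed.eq_map_mul_C_of_dvd or Polynomial.IsPrimitive...; charpoly of adj over ℚ, ZMod p is the image of the charpoly over ℤ: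
Matrix.charpoly_map; the monic integer factor stays monic of the same degree mod p).
-/

set_option autoImplicit false

namespace Pool.H64.IR

open Finset Polynomial

/-- the graph given by the bits -/
def BRG_graph {n : ℕ} (b : Edge n → Bool) : SimpleGraph (Fin n) where
  Adj i j := (∃ h : i < j, b ⟨(i, j), h⟩ = true) ∨ (∃ h : j < i, b ⟨(j, i), h⟩ = true)
  symm := ⟨fun i j h => Or.symm h⟩
  loopless := ⟨fun i h => by
    rcases h with ⟨h, -⟩ | ⟨h, -⟩ <;> exact lt_irrefl _ h⟩

theorem brg (n : ℕ) : ∃ e : (Edge n → Bool) ≃ SimpleGraph (Fin n), ∀ (b : Edge n → Bool) (R : Type) [Zero R] [One R]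
    [DecidableRel (e b).Adj], (e b).adjMatrix R = adj R b := by
  classical
  refine ⟨{ toFun := BRG_graph
            invFun := fun G e => decide (G.Adj e.1.1 e.1.2)
            left_inv := ?_
            right_inv := ?_ }, ?_⟩
  · intro b
    funext e
    obtain ⟨⟨i, j⟩, h⟩ := e
    have h' : i < j := h
    have h2 : ¬ j < i := not_lt.2 h'.le
    have h3 : (BRG_graph b).Adj i j ↔ b ⟨(i, j), h'⟩ = true := by
      constructor
      · rintro (⟨_, h4⟩ | ⟨h4, -⟩)
        · exact h4
        · exact absurd h4 h2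
      · intro h4; exact Or.inl ⟨h', h4⟩
    show decide ((BRG_graph b).Adj i j) = _
    by_cases h4 : b ⟨(i, j), h'⟩ = true
    · exact (decide_eq_true (h3.2 h4)).trans h4.symm
    · exact (decide_eq_false (fun h5 => h4 (h3.1 h5))).trans (Bool.eq_false_iff.2 h4).symm
  · intro G
    ext i j
    show ((∃ h : i < j, decide (G.Adj i j) = true) ∨ (∃ h : j < i, decide (G.Adj j i) = true)) ↔ G.Adj i j
    constructor
    · rintro (⟨_, h⟩ | ⟨_, h⟩)
      · exact of_decide_eq_true h
      · exact (of_decide_eq_true h).symm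
    · intro h
      rcases lt_trichotomy i j with h1 | h1 | h1
      · exact Or.inl ⟨h1, decide_eq_true h⟩
      · subst h1; exact absurd h (G.irrefl)
      · exact Or.inr ⟨h1, decide_eq_true h.symm⟩
  · intro b R _ _ _
    ext i j
    rw [SimpleGraph.adjMatrix_apply]
    have hR : adj R b i j = if h : i < j then (if b ⟨(i, j), h⟩ then 1 else 0) else if h : j < i then (if b ⟨(j, i), h⟩ then 1 else 0) else 0 := rfl
    rw [hR]
    by_cases h1 : i < j
    · have h2 : ¬ j < i := not_lt.2 h1.le
      rw [dif_pos h1]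
      refine if_congr ?_ rfl rfl
      show ((∃ h : i < j, b ⟨(i, j), h⟩ = true) ∨ (∃ h : j < i, b ⟨(j, i), h⟩ = true)) ↔ _
      constructor
      · rintro (⟨_, h4⟩ | ⟨h4, -⟩)
        · exact h4
        · exact absurd h4 h2
      · intro h4; exact Or.inl ⟨h1, h4⟩
    · rw [dif_neg h1]
      by_cases h2 : j < i
      · rw [dif_pos h2]
        refine if_congr ?_ rfl rfl
        show ((∃ h : i < j, b ⟨(i, j), h⟩ = true) ∨ (∃ h : j < i, b ⟨(j, i), h⟩ = true)) ↔ _
        constructor
        · rintro (⟨h4, _⟩ | ⟨_, h4⟩)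
          · exact absurd h4 h1
          · exact h4
        · intro h4; exact Or.inr ⟨h2, h4⟩
      · rw [dif_neg h2, if_neg]
        rintro (⟨h4, -⟩ | ⟨h4, -⟩)
        · exact h1 h4
        · exact h2 h4

lemma BRG_map {n : ℕ} (b : Edge n → Bool) (R : Type) [CommRing R] :
    (adj ℤ b).charpoly.map (Int.castRingHom R) = (adj R b).charpoly := by
  rw [← Matrix.charpoly_map]
  congr 1
  ext i j
  show (Int.castRingHom R) (if h : i < j then (if b ⟨(i, j), h⟩ then 1 else 0) else if h : j < i then (if b ⟨(j, i), h⟩ then 1 else 0) else 0) =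
    if h : i < j then (if b ⟨(i, j), h⟩ then 1 else 0) else if h : j < i then (if b ⟨(j, i), h⟩ then 1 else 0) else 0
  split_ifs <;> simp

theorem red_int {n : ℕ} (b : Edge n → Bool) (g : ℚ[X]) (hg : g ∣ (adj ℚ b).charpoly) :
    ∃ f : ℤ[X], f.Monic ∧ f.natDegree = g.natDegree ∧ f ∣ (adj ℤ b).charpoly := by
  have hmon : (adj ℤ b).charpoly.Monic := Matrix.charpoly_monic _
  have hg0 : g ≠ 0 := ne_zero_of_dvd_ne_zero (Matrix.charpoly_monic _).ne_zero hg
  have h1 : (adj ℤ b).charpoly.map (algebraMap ℤ ℚ) = (adj ℚ b).charpoly := BRG_map b ℚ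
  rw [← h1] at hg
  obtain ⟨f, hf⟩ := IsIntegrallyClosed.eq_map_mul_C_of_dvd ℚ hmon hg
  have hfm : f.Monic := by
    have h2 : (f.map (algebraMap ℤ ℚ)).leadingCoeff * g.leadingCoeff = g.leadingCoeff := by
      conv_rhs => rw [← hf]
      rw [Polynomial.leadingCoeff_mul, Polynomial.leadingCoeff_C]
    have h3 : (f.map (algebraMap ℤ ℚ)).leadingCoeff = 1 := by
      have h4 : g.leadingCoeff ≠ 0 := Polynomial.leadingCoeff_ne_zero.2 hg0
      exact mul_right_cancel₀ h4 (by rw [h2, one_mul])
    rw [Polynomial.leadingCoeff_map_of_injective (RingHom.injective_int (algebraMap ℤ ℚ))] at h3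
    have : ((f.leadingCoeff : ℤ) : ℚ) = 1 := h3
    exact_mod_cast this
  refine ⟨f, hfm, ?_, ?_⟩
  · rw [← hf, Polynomial.natDegree_mul_C (Polynomial.leadingCoeff_ne_zero.2 hg0)]
    rw [Polynomial.natDegree_map_eq_of_injective (RingHom.injective_int (algebraMap ℤ ℚ))]
  · -- f divides
    have h5 : f.map (algebraMap ℤ ℚ) ∣ (adj ℤ b).charpoly.map (algebraMap ℤ ℚ) := by
      refine dvd_trans ?_ hg
      exact ⟨C g.leadingCoeff, hf.symm⟩
    exact (Polynomial.map_dvd_map _ (RingHom.injective_int (algebraMap ℤ ℚ)) hfm).1 h5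

theorem red {n : ℕ} (b : Edge n → Bool) (g : ℚ[X]) (hg : g ∣ (adj ℚ b).charpoly) (p : ℕ) [Fact p.Prime] :
    ∃ f : (ZMod p)[X], f.Monic ∧ f.natDegree = g.natDegree ∧ f ∣ (adj (ZMod p) b).charpoly := by
  obtain ⟨f, hf1, hf2, hf3⟩ := red_int b g hg
  refine ⟨f.map (Int.castRingHom (ZMod p)), hf1.map _, ?_, ?_⟩
  · rw [hf1.natDegree_map, hf2]
  · rw [← BRG_map b (ZMod p)]
    exact Polynomial.map_dvd _ hf3

end Pool.H64.IR

end S_BRG

section S_FIN

/-! MODULE FIN (project MP_a758cf_pr, IR): probabilities over the bits are fractions of graphs. -/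

set_option autoImplicit false

namespace Pool.H64.IR

open Finset Polynomial
open scoped Classical in
/-- The fraction of graphs with a property of the rational characteristic polynomial is the probability over the bits. -/
theorem fin_card (n : ℕ) (P : ℚ[X] → Prop) :
    (Nat.card {G : SimpleGraph (Fin n) // P (G.adjMatrix ℚ).charpoly} : ℝ) / (Nat.card (SimpleGraph (Fin n)) : ℝ) =
      pr (fun b : Edge n → Bool => P (adj ℚ b).charpoly) := by
  obtain ⟨e, he⟩ := brg n
  rw [pr_eq_card]
  have h1 : Nat.card (SimpleGraph (Fin n)) = Nat.card (Edge n → Bool) := Nat.card_congr e.symm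
  have h2 : Nat.card {G : SimpleGraph (Fin n) // P (G.adjMatrix ℚ).charpoly} =
      Nat.card {b : Edge n → Bool // P (adj ℚ b).charpoly} := by
    symm
    refine Nat.card_congr (e.subtypeEquiv ?_)
    intro b
    rw [he b ℚ]
  rw [h1, h2]

end Pool.H64.IR

end S_FIN

section S_GS

/-! MODULE GS (project MP_a758cf_pr, IR; overview: team-store H64_a758cf.md)
Quadratic Gauss sums over ZMod p, p an odd prime.
gs_one: |sum|^2 = sum_{x,y} e(t(x^2-y^2)+u(x-y)); put x = y+h: = sum_h e(t h^2 + u h) sum_y e(2 t h y) = p (only h=0 survives since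
2t /= 0 and stdAddChar is primitive: sums of a nontrivial additive character vanish, AddChar.sum_eq_zero_of_ne_one /
ZMod.isPrimitive_stdAddChar). conj of e(x) is e(-x), norm of e(x) is 1.
gs_vec: the sum factors as a product over the n coordinates (Finset.prod_univ_sum / Fintype.piFinset_univ, AddChar.map_sum_eq_prod).
-/

set_option autoImplicit false

namespace Pool.H64.IR

open Finset Polynomial

theorem gs_one {p : ℕ} [Fact p.Prime] (hp : p ≠ 2) (t u : ZMod p) (ht : t ≠ 0) :
    ‖∑ x : ZMod p, ZMod.stdAddChar (t * x ^ 2 + u * x)‖ = Real.sqrt p := by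
  classical
  have hpr : (ZMod.stdAddChar (N := p)).IsPrimitive := ZMod.isPrimitive_stdAddChar p
  have h2 : (2 : ZMod p) ≠ 0 := by
    intro h
    have h' : ((2 : ℕ) : ZMod p) = 0 := by exact_mod_cast h
    rw [ZMod.natCast_eq_zero_iff] at h'
    have hp2 : 2 ≤ p := (Fact.out : p.Prime).two_le
    have := Nat.le_of_dvd (by norm_num) h'
    omega
  have key : (∑ x : ZMod p, ZMod.stdAddChar (t * x ^ 2 + u * x)) *
      (starRingEnd ℂ) (∑ x : ZMod p, ZMod.stdAddChar (t * x ^ 2 + u * x)) = (p : ℂ) := by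
    rw [map_sum, Finset.sum_mul_sum]
    have h1 : ∀ x y : ZMod p, (ZMod.stdAddChar (t * x ^ 2 + u * x) : ℂ) *
        (starRingEnd ℂ) (ZMod.stdAddChar (t * y ^ 2 + u * y)) =
        ZMod.stdAddChar ((t * x ^ 2 + u * x) - (t * y ^ 2 + u * y)) := by
      intro x y
      rw [← AddChar.map_neg_eq_conj, ← AddChar.map_add_eq_mul, sub_eq_add_neg]
    simp_rw [h1]
    rw [Finset.sum_comm]
    have h3 : ∀ y : ZMod p, ∑ x : ZMod p,
        (ZMod.stdAddChar ((t * x ^ 2 + u * x) - (t * y ^ 2 + u * y)) : ℂ) =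
        ∑ h : ZMod p, ZMod.stdAddChar (t * h ^ 2 + u * h) * ZMod.stdAddChar (y * (2 * t * h)) := by
      intro y
      rw [← Equiv.sum_comp (Equiv.addRight y)]
      refine Finset.sum_congr rfl fun h _ => ?_
      rw [← AddChar.map_add_eq_mul]
      congr 1
      simp only [Equiv.coe_addRight]
      ring
    simp_rw [h3]
    rw [Finset.sum_comm]
    simp_rw [← Finset.mul_sum, AddChar.sum_mulShift _ hpr]
    rw [Finset.sum_eq_single 0]
    · simp [ZMod.card]
    · intro h _ hh
      have : 2 * t * h ≠ 0 := mul_ne_zero (mul_ne_zero h2 ht) hh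
      simp [this]
    · simp
  rw [Complex.mul_conj, Complex.normSq_eq_norm_sq] at key
  have key' : ‖∑ x : ZMod p, (ZMod.stdAddChar (t * x ^ 2 + u * x) : ℂ)‖ ^ 2 = (p : ℝ) := by
    exact_mod_cast key
  rw [← key', Real.sqrt_sq (norm_nonneg _)]

/-- an additive character turns finite sums into products -/
theorem addChar_sum {A : Type} [AddCommMonoid A] {ι : Type} (ψ : AddChar A ℂ) (s : Finset ι) (f : ι → A) :
    ψ (∑ i ∈ s, f i) = ∏ i ∈ s, ψ (f i) := by
  classical
  induction s using Finset.induction_on with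
  | empty => simp
  | insert a s ha ih =>
    rw [Finset.sum_insert ha, Finset.prod_insert ha, AddChar.map_add_eq_mul, ih]

theorem gs_vec {p : ℕ} [Fact p.Prime] (hp : p ≠ 2) (n : ℕ) (t : ZMod p) (u : Fin n → ZMod p) (ht : t ≠ 0) :
    ‖∑ v : Fin n → ZMod p, ZMod.stdAddChar (t * dotProduct v v + dotProduct u v)‖ = Real.sqrt p ^ n := by
  classical
  have h1 : ∀ v : Fin n → ZMod p, (ZMod.stdAddChar (t * dotProduct v v + dotProduct u v) : ℂ) =
      ∏ i, ZMod.stdAddChar (t * (v i) ^ 2 + u i * v i) := by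
    intro v
    rw [← addChar_sum]
    congr 1
    simp only [dotProduct, Finset.mul_sum, ← Finset.sum_add_distrib]
    refine Finset.sum_congr rfl fun i _ => ?_
    ring
  simp_rw [h1]
  have h2 := (Finset.prod_univ_sum (fun _ : Fin n => (Finset.univ : Finset (ZMod p)))
    (fun (i : Fin n) (x : ZMod p) => (ZMod.stdAddChar (t * x ^ 2 + u i * x) : ℂ))).symm
  rw [Fintype.piFinset_univ] at h2
  rw [h2, norm_prod]
  rw [Finset.prod_congr rfl (fun i _ => gs_one hp t (u i) ht)]
  simp

end Pool.H64.IR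

end S_GS

section S_G1

/-! MODULE G1 (project MP_a758cf_pr, IR; overview: team-store H64_a758cf.md)
One step of the Gram count. w_1..w_j linearly independent in F^n (F = ZMod p), s in F^j, t in F, 2 j <= n.
N = #{v : v.w_a = s_a for all a, v.v = t, v not in span w} satisfies |N - p^n/p^(j+1)| <= 2 sqrt(p)^n.
Proof. N' = #{v : v.w_a = s_a, v.v = t} = p^-(j+1) sum_{t0 in F} sum_{c in F^j} sum_v e(t0 (v.v - t) + sum_a c_a (v.w_a - s_a)).
Terms with t0 = 0 sum to p^-(j+1) * p^j * #{v : v.w_a = s_a} * ... = p^-(j+1) p^n (only c = 0 survives because sum_a c_a w_a /= 0 for c /= 0,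
so sum_v e(v . sum_a c_a w_a) = 0). Terms with t0 /= 0: absolute value sqrt(p)^n each (gs_vec), there are (p-1) p^j of them, total
<= p^-(j+1) (p-1) p^j sqrt(p)^n <= sqrt(p)^n. Finally the v in span w are at most p^j <= sqrt(p)^n many (2 j <= n).
LinearIndependent (Fin.snoc w v) iff w independent and v not in span (range w): linearIndependent_fin_snoc.
-/

set_option autoImplicit false

namespace Pool.H64.IR

open Finset Polynomial

/-- orthogonality for one variable -/
theorem g1_orth {p : ℕ} [Fact p.Prime] (b : ZMod p) :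
    ∑ x : ZMod p, (ZMod.stdAddChar (x * b) : ℂ) = (p : ℂ) * ((ind (b = 0) : ℝ) : ℂ) := by
  classical
  rw [AddChar.sum_mulShift b (ZMod.isPrimitive_stdAddChar p)]
  by_cases h : b = 0
  · rw [ind_true h, if_pos h, ZMod.card]; simp
  · rw [ind_false h, if_neg h]; simp

/-- orthogonality for several variables -/
theorem g1_orth_vec {p : ℕ} [Fact p.Prime] {ι : Type} [Fintype ι] [DecidableEq ι] (b : ι → ZMod p) :
    ∑ c : ι → ZMod p, (ZMod.stdAddChar (∑ a, c a * b a) : ℂ) =
      (p : ℂ) ^ Fintype.card ι * ((ind (∀ a, b a = 0) : ℝ) : ℂ) := by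
  classical
  have h1 : ∀ c : ι → ZMod p, (ZMod.stdAddChar (∑ a, c a * b a) : ℂ) =
      ∏ a, ZMod.stdAddChar (c a * b a) := fun c => addChar_sum _ _ _
  simp_rw [h1]
  have h2 := (Finset.prod_univ_sum (fun _ : ι => (Finset.univ : Finset (ZMod p)))
    (fun (a : ι) (x : ZMod p) => (ZMod.stdAddChar (x * b a) : ℂ))).symm
  rw [Fintype.piFinset_univ] at h2
  rw [h2]
  simp_rw [g1_orth]
  rw [Finset.prod_mul_distrib, Finset.prod_const, Finset.card_univ]
  congr 1
  by_cases h : ∀ a, b a = 0
  · rw [ind_true h]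
    rw [Finset.prod_congr rfl (fun a _ => by rw [ind_true (h a)])]
    simp
  · rw [ind_false h]
    obtain ⟨a, ha⟩ := not_forall.1 h
    rw [Finset.prod_eq_zero (Finset.mem_univ a)]
    · simp
    · rw [ind_false ha]; simp

/-- the Gram count without the condition of independence -/
theorem g1_count {p : ℕ} [Fact p.Prime] (hp : p ≠ 2) (n j : ℕ) (w : Fin j → Fin n → ZMod p)
    (hw : LinearIndependent (ZMod p) w) (s : Fin j → ZMod p) (t : ZMod p) :
    |(∑ v : Fin n → ZMod p, ind ((∀ a, dotProduct (w a) v = s a) ∧ dotProduct v v = t)) -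
        (p : ℝ) ^ n / (p : ℝ) ^ (j + 1)| ≤ Real.sqrt p ^ n := by
  classical
  have hp0 : 0 < p := (Fact.out : p.Prime).pos
  have hpR : (0 : ℝ) < p := by exact_mod_cast hp0
  set e : AddChar (ZMod p) ℂ := ZMod.stdAddChar with he
  set N : ℝ := ∑ v : Fin n → ZMod p, ind ((∀ a, dotProduct (w a) v = s a) ∧ dotProduct v v = t)
    with hN
  set T : ZMod p → (Fin j → ZMod p) → ℂ := fun t0 c =>
    ∑ v : Fin n → ZMod p, e (t0 * (dotProduct v v - t) + ∑ a, c a * (dotProduct (w a) v - s a))
    with hT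
  have hsum : ∑ t0 : ZMod p, ∑ c : Fin j → ZMod p, T t0 c = (p : ℂ) ^ (j + 1) * (N : ℂ) := by
    have h1 : ∀ v : Fin n → ZMod p, ∑ t0 : ZMod p, ∑ c : Fin j → ZMod p,
        e (t0 * (dotProduct v v - t) + ∑ a, c a * (dotProduct (w a) v - s a)) =
        (p : ℂ) ^ (j + 1) *
          ((ind ((∀ a, dotProduct (w a) v = s a) ∧ dotProduct v v = t) : ℝ) : ℂ) := by
      intro v
      simp_rw [AddChar.map_add_eq_mul, ← Finset.mul_sum, ← Finset.sum_mul]
      rw [he, g1_orth, g1_orth_vec, Fintype.card_fin, ind_and]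
      have e1 : ind (dotProduct v v - t = 0) = ind (dotProduct v v = t) := ind_congr sub_eq_zero
      have e2 : ind (∀ a, dotProduct (w a) v - s a = 0) = ind (∀ a, dotProduct (w a) v = s a) :=
        ind_congr (forall_congr' fun a => sub_eq_zero)
      rw [e1, e2]
      push_cast
      ring
    simp only [hT]
    rw [Finset.sum_congr rfl (fun t0 _ => Finset.sum_comm), Finset.sum_comm, hN]
    push_cast
    rw [Finset.mul_sum]
    exact Finset.sum_congr rfl fun v _ => h1 v
  have hT0 : ∀ c : Fin j → ZMod p, T 0 c = if c = 0 then (p : ℂ) ^ n else 0 := by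
    intro c
    simp only [hT]
    by_cases hc : c = 0
    · rw [if_pos hc, hc]
      simp [ZMod.card]
    · rw [if_neg hc]
      have h1 : ∀ v : Fin n → ZMod p, e (0 * (dotProduct v v - t) +
          ∑ a, c a * (dotProduct (w a) v - s a)) =
          e (∑ i, v i * (∑ a, c a * w a i)) * e (-∑ a, c a * s a) := by
        intro v
        rw [← AddChar.map_add_eq_mul]
        congr 1
        have h5 : ∑ i, v i * (∑ a, c a * w a i) = ∑ a, c a * dotProduct (w a) v := by
          simp only [dotProduct, Finset.mul_sum]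
          rw [Finset.sum_comm]
          refine Finset.sum_congr rfl fun a _ => Finset.sum_congr rfl fun i _ => ?_
          ring
        rw [h5]
        simp only [mul_sub, Finset.sum_sub_distrib]
        ring
      simp_rw [h1]
      rw [← Finset.sum_mul, he, g1_orth_vec]
      have h2 : ¬ ∀ i : Fin n, (∑ a, c a * w a i) = 0 := by
        intro h
        apply hc
        have h3 := Fintype.linearIndependent_iff.1 hw c (by
          funext i
          simpa [Finset.sum_apply] using h i)
        funext a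
        exact h3 a
      rw [ind_false h2]
      simp
  have hT1 : ∀ t0 : ZMod p, t0 ≠ 0 → ∀ c : Fin j → ZMod p, ‖T t0 c‖ = Real.sqrt p ^ n := by
    intro t0 ht0 c
    simp only [hT]
    have h1 : ∀ v : Fin n → ZMod p, e (t0 * (dotProduct v v - t) +
          ∑ a, c a * (dotProduct (w a) v - s a)) =
          e (t0 * dotProduct v v + dotProduct (fun i => ∑ a, c a * w a i) v) *
            e (-(t0 * t) - ∑ a, c a * s a) := by
      intro v
      rw [← AddChar.map_add_eq_mul]
      congr 1
      have : dotProduct (fun i => ∑ a, c a * w a i) v = ∑ a, c a * dotProduct (w a) v := by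
        simp only [dotProduct, Finset.mul_sum, Finset.sum_mul]
        rw [Finset.sum_comm]
        refine Finset.sum_congr rfl fun i _ => Finset.sum_congr rfl fun a _ => ?_
        ring
      rw [this]
      simp only [mul_sub, Finset.sum_sub_distrib]
      ring
    simp_rw [h1]
    rw [← Finset.sum_mul, norm_mul, he, gs_vec hp n t0 _ ht0, AddChar.norm_apply, mul_one]
  have hsplit : (p : ℂ) ^ (j + 1) * (N : ℂ) - (p : ℂ) ^ n =
      ∑ t0 ∈ Finset.univ.erase (0 : ZMod p), ∑ c : Fin j → ZMod p, T t0 c := by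
    rw [← hsum, ← Finset.add_sum_erase _ _ (Finset.mem_univ (0 : ZMod p))]
    have : ∑ c : Fin j → ZMod p, T 0 c = (p : ℂ) ^ n := by
      simp_rw [hT0]
      rw [Finset.sum_ite_eq' Finset.univ (0 : Fin j → ZMod p)]
      simp
    rw [this]
    ring
  have hbound : ‖(p : ℂ) ^ (j + 1) * (N : ℂ) - (p : ℂ) ^ n‖ ≤ (p : ℝ) ^ (j + 1) * Real.sqrt p ^ n := by
    rw [hsplit]
    refine (norm_sum_le _ _).trans ?_
    have h1 : ∀ t0 ∈ Finset.univ.erase (0 : ZMod p), ‖∑ c : Fin j → ZMod p, T t0 c‖ ≤
        (p : ℝ) ^ j * Real.sqrt p ^ n := by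
      intro t0 ht0
      refine (norm_sum_le _ _).trans ?_
      rw [Finset.sum_congr rfl (fun c _ => hT1 t0 (Finset.ne_of_mem_erase ht0) c)]
      simp [ZMod.card]
    refine (Finset.sum_le_sum h1).trans ?_
    rw [Finset.sum_const, nsmul_eq_mul]
    have h2 : ((Finset.univ.erase (0 : ZMod p)).card : ℝ) ≤ p := by
      have : (Finset.univ.erase (0 : ZMod p)).card ≤ p := by
        rw [Finset.card_erase_of_mem (Finset.mem_univ _), Finset.card_univ, ZMod.card]
        omega
      exact_mod_cast this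
    calc ((Finset.univ.erase (0 : ZMod p)).card : ℝ) * ((p : ℝ) ^ j * Real.sqrt p ^ n)
        ≤ p * ((p : ℝ) ^ j * Real.sqrt p ^ n) := by
          refine mul_le_mul_of_nonneg_right h2 ?_
          positivity
      _ = _ := by ring
  have hreal : |(p : ℝ) ^ (j + 1) * N - (p : ℝ) ^ n| ≤ (p : ℝ) ^ (j + 1) * Real.sqrt p ^ n := by
    have : ‖(p : ℂ) ^ (j + 1) * (N : ℂ) - (p : ℂ) ^ n‖ = |(p : ℝ) ^ (j + 1) * N - (p : ℝ) ^ n| := by
      rw [← Complex.ofReal_natCast, ← Complex.ofReal_pow, ← Complex.ofReal_pow, ← Complex.ofReal_mul,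
        ← Complex.ofReal_sub, Complex.norm_real, Real.norm_eq_abs]
    rw [← this]
    exact hbound
  have hpj : (0 : ℝ) < (p : ℝ) ^ (j + 1) := pow_pos hpR _
  have heq : N - (p : ℝ) ^ n / (p : ℝ) ^ (j + 1) =
      ((p : ℝ) ^ (j + 1) * N - (p : ℝ) ^ n) / (p : ℝ) ^ (j + 1) := by
    field_simp
  rw [heq, abs_div, abs_of_pos hpj, div_le_iff₀ hpj]
  calc _ ≤ _ := hreal
    _ = _ := mul_comm _ _

theorem g1_step {p : ℕ} [Fact p.Prime] (hp : p ≠ 2) (n j : ℕ) (hj : 2 * j ≤ n) (w : Fin j → Fin n → ZMod p)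
    (hw : LinearIndependent (ZMod p) w) (s : Fin j → ZMod p) (t : ZMod p) :
    |(∑ v : Fin n → ZMod p, ind (LinearIndependent (ZMod p) (Fin.snoc (α := fun _ => Fin n → ZMod p) w v) ∧
        (∀ a, dotProduct (w a) v = s a) ∧ dotProduct v v = t)) - (p : ℝ) ^ n / (p : ℝ) ^ (j + 1)|
      ≤ 2 * Real.sqrt p ^ n := by
  classical
  have hp0 : 0 < p := (Fact.out : p.Prime).pos
  have hpR : (1 : ℝ) ≤ p := by exact_mod_cast hp0
  have h1 := g1_count hp n j w hw s t
  set N1 : ℝ := ∑ v : Fin n → ZMod p, ind ((∀ a, dotProduct (w a) v = s a) ∧ dotProduct v v = t)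
    with hN1
  set N0 : ℝ := ∑ v : Fin n → ZMod p, ind (LinearIndependent (ZMod p)
      (Fin.snoc (α := fun _ => Fin n → ZMod p) w v) ∧
        (∀ a, dotProduct (w a) v = s a) ∧ dotProduct v v = t) with hN0
  have hle : N0 ≤ N1 := Finset.sum_le_sum fun v _ => ind_mono fun h => h.2
  have hge : N1 - N0 ≤ Real.sqrt p ^ n := by
    have h2 : N1 - N0 ≤ ∑ v : Fin n → ZMod p, ind (v ∈ Submodule.span (ZMod p) (Set.range w)) := by
      rw [hN1, hN0, ← Finset.sum_sub_distrib]
      refine Finset.sum_le_sum fun v _ => ?_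
      by_cases hv : v ∈ Submodule.span (ZMod p) (Set.range w)
      · rw [ind_true hv]
        have a1 := ind_le_one ((∀ a, dotProduct (w a) v = s a) ∧ dotProduct v v = t)
        have a2 := ind_nonneg (LinearIndependent (ZMod p)
          (Fin.snoc (α := fun _ => Fin n → ZMod p) w v) ∧
          (∀ a, dotProduct (w a) v = s a) ∧ dotProduct v v = t)
        linarith
      · have h3 : LinearIndependent (ZMod p) (Fin.snoc (α := fun _ => Fin n → ZMod p) w v) :=
          linearIndependent_finSnoc.2 ⟨hw, hv⟩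
        have h4 : ind (LinearIndependent (ZMod p) (Fin.snoc (α := fun _ => Fin n → ZMod p) w v) ∧
          (∀ a, dotProduct (w a) v = s a) ∧ dotProduct v v = t) =
          ind ((∀ a, dotProduct (w a) v = s a) ∧ dotProduct v v = t) :=
          ind_congr ⟨fun h => h.2, fun h => ⟨h3, h⟩⟩
        rw [h4, sub_self]
        exact ind_nonneg _
    refine h2.trans ?_
    have h3 : (∑ v : Fin n → ZMod p, ind (v ∈ Submodule.span (ZMod p) (Set.range w))) =
        (p : ℝ) ^ j := by
      unfold ind
      rw [Finset.sum_boole]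
      have h4 : (Finset.univ.filter fun v : Fin n → ZMod p =>
          v ∈ Submodule.span (ZMod p) (Set.range w)).card =
          Fintype.card (Submodule.span (ZMod p) (Set.range w)) := by
        rw [← Fintype.card_coe]
        exact Fintype.card_congr (Equiv.subtypeEquivRight (by simp))
      rw [h4, Module.card_eq_pow_finrank (K := ZMod p), ZMod.card, finrank_span_eq_card hw,
        Fintype.card_fin]
      push_cast
      rfl
    rw [h3]
    have h5 : (p : ℝ) ^ j = Real.sqrt p ^ (2 * j) := by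
      rw [pow_mul, Real.sq_sqrt (by positivity)]
    rw [h5]
    exact pow_le_pow_right₀ (by rw [Real.one_le_sqrt]; exact hpR) hj
  rw [abs_le] at h1 ⊢
  have hs : 0 ≤ Real.sqrt p ^ n := by positivity
  constructor <;> linarith [h1.1, h1.2]

end Pool.H64.IR

end S_G1

section S_G3

/-! MODULE G3 (project MP_a758cf_pr, IR; overview: team-store H64_a758cf.md)
Counting linearly independent k-tuples of vectors with prescribed Gram matrix, by induction with g1_step
(Fin.snoc: Fin (k+1) -> X is equivalent to (Fin k -> X) x X, Fin.snocEquiv or Fin.consEquiv-like sums: Fin.snocEquiv, Fintype.sum_equiv,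
Fintype.sum_prod_type). eps p n k = 2 sqrt(p)^n p^k / p^n. For j < k: p^n/p^(j+1) + 2 sqrt(p)^n <= (1+eps) p^n/p^(j+1) and
p^n/p^(j+1) - 2 sqrt(p)^n >= (1-eps) p^n/p^(j+1).
g3_upper: the first s vectors are only required to lie in U (at most card U choices each), the others satisfy the Gram conditions with the
previous ones: the factor for the vector number j (s <= j < k) is (1+eps) p^n/p^(j+1); product over j=s..k-1 of p^n/p^(j+1) is
p^(n(k-s)) p^(s(s+1)/2)/p^(k(k+1)/2). (Induct on k with s fixed; for k = s bound by card U ^ s.)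
g3_lower: same for all k vectors, lower bound, needs S symmetric.
-/

set_option autoImplicit false

namespace Pool.H64.IR

open Finset Polynomial

noncomputable def eps (p n k : ℕ) : ℝ := 2 * Real.sqrt p ^ n * (p : ℝ) ^ k / (p : ℝ) ^ n

lemma eps_nonneg (p n k : ℕ) : 0 ≤ eps p n k := by unfold eps; positivity

lemma g3_sum_snoc {X : Type} [Fintype X] (m : ℕ) (f : (Fin (m + 1) → X) → ℝ) :
    ∑ v : Fin (m + 1) → X, f v =
      ∑ v : Fin m → X, ∑ x : X, f (Fin.snoc (α := fun _ => X) v x) := by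
  rw [← (Fin.snocEquiv (fun _ : Fin (m + 1) => X)).sum_comp f, Fintype.sum_prod_type,
    Finset.sum_comm]
  rfl

lemma g3_li_castSucc {p : ℕ} [Fact p.Prime] {n m : ℕ} {v : Fin m → Fin n → ZMod p}
    {x : Fin n → ZMod p}
    (h : LinearIndependent (ZMod p) (Fin.snoc (α := fun _ => Fin n → ZMod p) v x)) :
    LinearIndependent (ZMod p) v := by
  have h1 := h.comp Fin.castSucc (Fin.castSucc_injective m)
  have h2 : (Fin.snoc (α := fun _ => Fin n → ZMod p) v x) ∘ Fin.castSucc = v := by
    funext a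
    simp
  rwa [h2] at h1

/-- the real estimates for one step -/
lemma g3_step_up {p : ℕ} [Fact p.Prime] {n k m : ℕ} (hm : m < k) :
    (p : ℝ) ^ n / (p : ℝ) ^ (m + 1) + 2 * Real.sqrt p ^ n ≤
      (1 + eps p n k) * ((p : ℝ) ^ n / (p : ℝ) ^ (m + 1)) := by
  have hp1 : (1 : ℝ) ≤ (p : ℝ) := by exact_mod_cast (Fact.out : p.Prime).one_le
  have hp0 : (0 : ℝ) < (p : ℝ) := by linarith
  have h1 : eps p n k * ((p : ℝ) ^ n / (p : ℝ) ^ (m + 1)) =
      2 * Real.sqrt p ^ n * (p : ℝ) ^ (k - (m + 1)) := by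
    unfold eps
    have h2 : (p : ℝ) ^ k = (p : ℝ) ^ (k - (m + 1)) * (p : ℝ) ^ (m + 1) := by
      rw [← pow_add]
      congr 1
      omega
    rw [h2]
    field_simp
  have h3 : (1 : ℝ) ≤ (p : ℝ) ^ (k - (m + 1)) := one_le_pow₀ hp1
  have h4 : 0 ≤ 2 * Real.sqrt p ^ n := by positivity
  rw [add_mul, one_mul, h1]
  nlinarith

lemma g3_step_lo {p : ℕ} [Fact p.Prime] {n k m : ℕ} (hm : m < k) :
    (1 - eps p n k) * ((p : ℝ) ^ n / (p : ℝ) ^ (m + 1)) ≤
      (p : ℝ) ^ n / (p : ℝ) ^ (m + 1) - 2 * Real.sqrt p ^ n := by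
  have h := g3_step_up (p := p) (n := n) hm
  have h1 : (1 - eps p n k) * ((p : ℝ) ^ n / (p : ℝ) ^ (m + 1)) =
      2 * ((p : ℝ) ^ n / (p : ℝ) ^ (m + 1)) -
        (1 + eps p n k) * ((p : ℝ) ^ n / (p : ℝ) ^ (m + 1)) := by ring
  rw [h1]
  linarith

lemma g3_exp (m : ℕ) : (m + 1) * (m + 1 + 1) / 2 = m * (m + 1) / 2 + (m + 1) := by
  have h : (m + 1) * (m + 1 + 1) = m * (m + 1) + 2 * (m + 1) := by ring
  rw [h, Nat.add_mul_div_left _ _ (by norm_num)]

theorem g3_upper_aux {p : ℕ} [Fact p.Prime] (hp : p ≠ 2) (n k s : ℕ) (hk : 4 * k ≤ n)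
    (U : Submodule (ZMod p) (Fin n → ZMod p)) (m : ℕ) (hsm : s ≤ m) : m ≤ k →
    ∀ S : Matrix (Fin m) (Fin m) (ZMod p),
    (∑ v : Fin m → Fin n → ZMod p, ind (LinearIndependent (ZMod p) v ∧
        (∀ a b, dotProduct (v a) (v b) = S a b) ∧ ∀ a : Fin m, (a : ℕ) < s → v a ∈ U)) ≤
      (Nat.card U : ℝ) ^ s * (1 + eps p n k) ^ m * ((p : ℝ) ^ n) ^ (m - s) *
        (p : ℝ) ^ (s * (s + 1) / 2) / (p : ℝ) ^ (m * (m + 1) / 2) := by
  have hp0 : (0 : ℝ) < (p : ℝ) := by exact_mod_cast (Fact.out : p.Prime).pos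
  have he := eps_nonneg p n k
  induction m, hsm using Nat.le_induction with
  | base =>
    intro _ S
    rw [Nat.sub_self, pow_zero, mul_one, mul_div_assoc, div_self (by positivity), mul_one]
    have h1 : (∑ v : Fin s → Fin n → ZMod p, ind (LinearIndependent (ZMod p) v ∧
        (∀ a b, dotProduct (v a) (v b) = S a b) ∧ ∀ a : Fin s, (a : ℕ) < s → v a ∈ U)) ≤
        ∑ v : Fin s → Fin n → ZMod p, ind (∀ a : Fin s, v a ∈ U) :=
      Finset.sum_le_sum fun v _ => ind_mono fun h a => h.2.2 a a.2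
    have h2 : (∑ v : Fin s → Fin n → ZMod p, ind (∀ a : Fin s, v a ∈ U)) =
        (Nat.card U : ℝ) ^ s := by
      classical
      have h3 : (Finset.univ.filter fun v : Fin s → Fin n → ZMod p => ∀ a, v a ∈ U) =
          Fintype.piFinset fun _ : Fin s => Finset.univ.filter fun x : Fin n → ZMod p => x ∈ U := by
        ext v
        simp
      have h4 : (Finset.univ.filter fun x : Fin n → ZMod p => x ∈ U).card = Nat.card U := by
        rw [Nat.card_eq_fintype_card, Fintype.card_subtype]
      have h5 : (Finset.univ.filter fun v : Fin s → Fin n → ZMod p => ∀ a, v a ∈ U).card =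
          Nat.card U ^ s := by
        rw [h3, Fintype.card_piFinset, Finset.prod_const, h4, Finset.card_univ, Fintype.card_fin]
      have h6 : (∑ v : Fin s → Fin n → ZMod p, ind (∀ a : Fin s, v a ∈ U)) =
          ∑ v ∈ Finset.univ.filter (fun v : Fin s → Fin n → ZMod p => ∀ a, v a ∈ U), (1 : ℝ) := by
        rw [Finset.sum_filter]
        refine Finset.sum_congr rfl fun v _ => ?_
        by_cases h : ∀ a, v a ∈ U
        · rw [ind_true h, if_pos h]
        · rw [ind_false h, if_neg h]
      rw [h6, Finset.sum_const, h5, nsmul_eq_mul, mul_one]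
      push_cast
      rfl
    refine h1.trans (h2.le.trans ?_)
    have h7 : (1 : ℝ) ≤ (1 + eps p n k) ^ s := one_le_pow₀ (by linarith)
    have h8 : (0 : ℝ) ≤ (Nat.card U : ℝ) ^ s := by positivity
    nlinarith
  | succ m hsm ih =>
    intro hmk S
    have ih' := ih (by omega) (S.submatrix Fin.castSucc Fin.castSucc)
    rw [g3_sum_snoc]
    have hstep : ∀ v : Fin m → Fin n → ZMod p,
        (∑ x : Fin n → ZMod p, ind (LinearIndependent (ZMod p)
            (Fin.snoc (α := fun _ => Fin n → ZMod p) v x) ∧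
          (∀ a b, dotProduct (Fin.snoc (α := fun _ => Fin n → ZMod p) v x a)
            (Fin.snoc (α := fun _ => Fin n → ZMod p) v x b) = S a b) ∧
          ∀ a : Fin (m + 1), (a : ℕ) < s → Fin.snoc (α := fun _ => Fin n → ZMod p) v x a ∈ U)) ≤
        ind (LinearIndependent (ZMod p) v ∧ (∀ a b, dotProduct (v a) (v b) =
          S.submatrix Fin.castSucc Fin.castSucc a b) ∧ ∀ a : Fin m, (a : ℕ) < s → v a ∈ U) *
          ((1 + eps p n k) * ((p : ℝ) ^ n / (p : ℝ) ^ (m + 1))) := by
      intro v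
      by_cases hv : LinearIndependent (ZMod p) v ∧ (∀ a b, dotProduct (v a) (v b) =
          S.submatrix Fin.castSucc Fin.castSucc a b) ∧ ∀ a : Fin m, (a : ℕ) < s → v a ∈ U
      · rw [ind_true hv, one_mul]
        have h1 := g1_step hp n m (by omega) v hv.1 (fun a => S (Fin.castSucc a) (Fin.last m))
          (S (Fin.last m) (Fin.last m))
        have h2 := (abs_le.1 h1).2
        have h3 : (∑ x : Fin n → ZMod p, ind (LinearIndependent (ZMod p)
            (Fin.snoc (α := fun _ => Fin n → ZMod p) v x) ∧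
          (∀ a b, dotProduct (Fin.snoc (α := fun _ => Fin n → ZMod p) v x a)
            (Fin.snoc (α := fun _ => Fin n → ZMod p) v x b) = S a b) ∧
          ∀ a : Fin (m + 1), (a : ℕ) < s → Fin.snoc (α := fun _ => Fin n → ZMod p) v x a ∈ U)) ≤
          ∑ x : Fin n → ZMod p, ind (LinearIndependent (ZMod p)
            (Fin.snoc (α := fun _ => Fin n → ZMod p) v x) ∧
            (∀ a, dotProduct (v a) x = S (Fin.castSucc a) (Fin.last m)) ∧
            dotProduct x x = S (Fin.last m) (Fin.last m)) := by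
          refine Finset.sum_le_sum fun x _ => ind_mono fun h => ⟨h.1, fun a => ?_, ?_⟩
          · have := h.2.1 (Fin.castSucc a) (Fin.last m)
            simpa using this
          · have := h.2.1 (Fin.last m) (Fin.last m)
            simpa using this
        have h4 := g3_step_up (p := p) (n := n) (show m < k by omega)
        linarith
      · rw [ind_false hv, zero_mul]
        apply le_of_eq
        apply Finset.sum_eq_zero
        intro x _
        apply ind_false
        intro h
        apply hv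
        refine ⟨g3_li_castSucc h.1, fun a b => ?_, fun a ha => ?_⟩
        · have := h.2.1 (Fin.castSucc a) (Fin.castSucc b)
          simpa using this
        · have := h.2.2 (Fin.castSucc a) (by simpa using ha)
          simpa using this
    refine (Finset.sum_le_sum fun v _ => hstep v).trans ?_
    rw [← Finset.sum_mul]
    refine (mul_le_mul_of_nonneg_right ih' (by positivity)).trans (le_of_eq ?_)
    rw [g3_exp m, show m + 1 - s = (m - s) + 1 by omega, pow_succ ((p : ℝ) ^ n) (m - s),
      pow_succ (1 + eps p n k) m, pow_add (p : ℝ) (m * (m + 1) / 2) (m + 1)]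
    field_simp

theorem g3_upper {p : ℕ} [Fact p.Prime] (hp : p ≠ 2) (n k s : ℕ) (hs : s ≤ k) (hk : 4 * k ≤ n)
    (U : Submodule (ZMod p) (Fin n → ZMod p)) (S : Matrix (Fin k) (Fin k) (ZMod p)) :
    (∑ v : Fin k → Fin n → ZMod p, ind (LinearIndependent (ZMod p) v ∧ (∀ a b, dotProduct (v a) (v b) = S a b) ∧
        ∀ a : Fin k, (a : ℕ) < s → v a ∈ U)) ≤
      (Nat.card U : ℝ) ^ s * (1 + eps p n k) ^ k * ((p : ℝ) ^ n) ^ (k - s) * (p : ℝ) ^ (s * (s + 1) / 2)
        / (p : ℝ) ^ (k * (k + 1) / 2) :=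
  g3_upper_aux hp n k s hk U k hs le_rfl S

theorem g3_lower_aux {p : ℕ} [Fact p.Prime] (hp : p ≠ 2) (n k : ℕ) (hk : 4 * k ≤ n)
    (he : eps p n k ≤ 1) (m : ℕ) : m ≤ k →
    ∀ S : Matrix (Fin m) (Fin m) (ZMod p), S.IsSymm →
    (1 - eps p n k) ^ m * ((p : ℝ) ^ n) ^ m / (p : ℝ) ^ (m * (m + 1) / 2) ≤
    (∑ v : Fin m → Fin n → ZMod p, ind (LinearIndependent (ZMod p) v ∧
        (∀ a b, dotProduct (v a) (v b) = S a b))) := by
  have hp0 : (0 : ℝ) < (p : ℝ) := by exact_mod_cast (Fact.out : p.Prime).pos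
  have he' : 0 ≤ 1 - eps p n k := by linarith
  induction m with
  | zero =>
    intro _ S _
    have h1 : (∑ v : Fin 0 → Fin n → ZMod p, ind (LinearIndependent (ZMod p) v ∧
        (∀ a b, dotProduct (v a) (v b) = S a b))) = 1 := by
      rw [Fintype.sum_unique]
      apply ind_true
      exact ⟨linearIndependent_empty_type, fun a => a.elim0⟩
    rw [h1]
    simp
  | succ m ih =>
    intro hmk S hS
    have ih' := ih (by omega) (S.submatrix Fin.castSucc Fin.castSucc) (hS.submatrix _)
    rw [g3_sum_snoc]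
    have hstep : ∀ v : Fin m → Fin n → ZMod p,
        ind (LinearIndependent (ZMod p) v ∧ (∀ a b, dotProduct (v a) (v b) =
          S.submatrix Fin.castSucc Fin.castSucc a b)) *
          ((1 - eps p n k) * ((p : ℝ) ^ n / (p : ℝ) ^ (m + 1))) ≤
        (∑ x : Fin n → ZMod p, ind (LinearIndependent (ZMod p)
            (Fin.snoc (α := fun _ => Fin n → ZMod p) v x) ∧
          (∀ a b, dotProduct (Fin.snoc (α := fun _ => Fin n → ZMod p) v x a)
            (Fin.snoc (α := fun _ => Fin n → ZMod p) v x b) = S a b))) := by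
      intro v
      by_cases hv : LinearIndependent (ZMod p) v ∧ (∀ a b, dotProduct (v a) (v b) =
          S.submatrix Fin.castSucc Fin.castSucc a b)
      · rw [ind_true hv, one_mul]
        have h1 := g1_step hp n m (by omega) v hv.1 (fun a => S (Fin.castSucc a) (Fin.last m))
          (S (Fin.last m) (Fin.last m))
        have h2 := (abs_le.1 h1).1
        have h3 : ∑ x : Fin n → ZMod p, ind (LinearIndependent (ZMod p)
            (Fin.snoc (α := fun _ => Fin n → ZMod p) v x) ∧
            (∀ a, dotProduct (v a) x = S (Fin.castSucc a) (Fin.last m)) ∧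
            dotProduct x x = S (Fin.last m) (Fin.last m)) ≤
          (∑ x : Fin n → ZMod p, ind (LinearIndependent (ZMod p)
            (Fin.snoc (α := fun _ => Fin n → ZMod p) v x) ∧
          (∀ a b, dotProduct (Fin.snoc (α := fun _ => Fin n → ZMod p) v x a)
            (Fin.snoc (α := fun _ => Fin n → ZMod p) v x b) = S a b))) := by
          refine Finset.sum_le_sum fun x _ => ind_mono fun h => ⟨h.1, fun a b => ?_⟩
          refine Fin.lastCases ?_ (fun a => ?_) a
          · refine Fin.lastCases ?_ (fun b => ?_) b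
            · simpa using h.2.2
            · have h5 := h.2.1 b
              rw [dotProduct_comm] at h5
              have h6 : S (Fin.last m) (Fin.castSucc b) = S (Fin.castSucc b) (Fin.last m) :=
                hS.apply _ _
              simpa [h6] using h5
          · refine Fin.lastCases ?_ (fun b => ?_) b
            · simpa using h.2.1 a
            · simpa using hv.2 a b
        have h4 := g3_step_lo (p := p) (n := n) (show m < k by omega)
        linarith
      · rw [ind_false hv, zero_mul]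
        exact Finset.sum_nonneg fun x _ => ind_nonneg _
    refine le_trans ?_ (Finset.sum_le_sum fun v _ => hstep v)
    rw [← Finset.sum_mul]
    refine le_trans (le_of_eq ?_) (mul_le_mul_of_nonneg_right ih' (by positivity))
    rw [g3_exp m, pow_succ ((p : ℝ) ^ n) m,
      pow_succ (1 - eps p n k) m, pow_add (p : ℝ) (m * (m + 1) / 2) (m + 1)]
    field_simp

theorem g3_lower {p : ℕ} [Fact p.Prime] (hp : p ≠ 2) (n k : ℕ) (hk : 4 * k ≤ n) (he : eps p n k ≤ 1)
    (S : Matrix (Fin k) (Fin k) (ZMod p)) (hS : S.IsSymm) :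
    (1 - eps p n k) ^ k * ((p : ℝ) ^ n) ^ k / (p : ℝ) ^ (k * (k + 1) / 2) ≤
      ∑ v : Fin k → Fin n → ZMod p, ind (LinearIndependent (ZMod p) v ∧ (∀ a b, dotProduct (v a) (v b) = S a b)) :=
  g3_lower_aux hp n k hk he k le_rfl S hS

end Pool.H64.IR

end S_G3

section S_NM1

/-! MODULE NM1 (project MP_a758cf_pr, IR; overview: team-store H64_a758cf.md)
Linear algebra. M = V Yᵀ + Y Vᵀ (symmetric, V,Y n x k), W = span of the columns of V. Then rank M <= 2 dim (W inf Im M).
Proof: choose a matrix P with range P = ker Vᵀ. Then rank M = rank(Pᵀ M) + dim(ker Pᵀ inf Im M), ker Pᵀ = W by a dimension count, and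
rank(Pᵀ M) = rank(M P), M P = V Yᵀ P has its range in W inf Im M.
-/

set_option autoImplicit false

namespace Pool.H64.IR

open Finset Polynomial

private lemma nm1_map_inf {F V W : Type} [Field F] [AddCommGroup V] [Module F V]
    [Module.Finite F V] [AddCommGroup W] [Module F W] (A : V →ₗ[F] W) (q : Submodule F V) :
    Module.finrank F (q.map A) + Module.finrank F ↥(LinearMap.ker A ⊓ q) = Module.finrank F q := by
  have h := LinearMap.finrank_range_add_finrank_ker (A.domRestrict q)
  rw [LinearMap.range_domRestrict, LinearMap.ker_domRestrict] at h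
  rw [← h]
  congr 1
  have h1 : Submodule.comap q.subtype (LinearMap.ker A) =
      Submodule.comap q.subtype (LinearMap.ker A ⊓ q) := by
    ext x
    simp
  rw [h1]
  exact ((Submodule.comapSubtypeEquivOfLe (inf_le_right : LinearMap.ker A ⊓ q ≤ q)).finrank_eq).symm

theorem nm1 {p : ℕ} [Fact p.Prime] {n : ℕ} {κ : Type} [Fintype κ] [DecidableEq κ]
    (V Y : Matrix (Fin n) κ (ZMod p)) (M : Matrix (Fin n) (Fin n) (ZMod p))
    (hM : V * Y.transpose + Y * V.transpose = M) :
    M.rank ≤ 2 * Module.finrank (ZMod p)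
      ↥(Submodule.span (ZMod p) (Set.range fun a : κ => fun i : Fin n => V i a) ⊓ LinearMap.range M.mulVecLin) := by
  classical
  have hW : Submodule.span (ZMod p) (Set.range fun a : κ => fun i : Fin n => V i a) =
      LinearMap.range V.mulVecLin := by
    rw [Matrix.range_mulVecLin]
    rfl
  rw [hW]
  have hMs : M.transpose = M := by
    rw [← hM, Matrix.transpose_add, Matrix.transpose_mul, Matrix.transpose_mul,
      Matrix.transpose_transpose, Matrix.transpose_transpose, add_comm]
  -- the matrix `P`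
  obtain ⟨g, hg⟩ := (LinearMap.ker V.transpose.mulVecLin).subtype.exists_leftInverse_of_injective
    (Submodule.ker_subtype _)
  set P : Matrix (Fin n) (Fin n) (ZMod p) :=
    LinearMap.toMatrix' ((LinearMap.ker V.transpose.mulVecLin).subtype ∘ₗ g) with hP
  have hPlin : P.mulVecLin = (LinearMap.ker V.transpose.mulVecLin).subtype ∘ₗ g := by
    rw [← Matrix.toLin'_apply', hP, Matrix.toLin'_toMatrix']
  have hPrange : LinearMap.range P.mulVecLin = LinearMap.ker V.transpose.mulVecLin := by
    rw [hPlin]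
    apply le_antisymm
    · rintro _ ⟨x, rfl⟩
      exact (g x).2
    · intro x hx
      refine ⟨x, ?_⟩
      have h1 := LinearMap.congr_fun hg ⟨x, hx⟩
      simp only [LinearMap.comp_apply, Submodule.subtype_apply, LinearMap.id_apply] at h1 ⊢
      rw [h1]
  have hVP : V.transpose * P = 0 := by
    have h1 : (V.transpose * P).mulVecLin = 0 := by
      rw [Matrix.mulVecLin_mul]
      ext x : 1
      refine LinearMap.ext fun y => ?_
      have h2 : P.mulVecLin (LinearMap.single (ZMod p) (fun _ => ZMod p) x y) ∈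
          LinearMap.ker V.transpose.mulVecLin := by
        rw [← hPrange]
        exact ⟨_, rfl⟩
      exact h2
    have h2 : Matrix.toLin' (V.transpose * P) = 0 := by rw [Matrix.toLin'_apply', h1]
    exact (LinearEquiv.map_eq_zero_iff _).1 h2
  have hPV : P.transpose * V = 0 := by
    rw [← Matrix.transpose_transpose V, ← Matrix.transpose_mul, hVP, Matrix.transpose_zero]
  -- the kernel of `Pᵀ`
  have hker : LinearMap.ker P.transpose.mulVecLin = LinearMap.range V.mulVecLin := by
    symm
    apply Submodule.eq_of_le_of_finrank_eq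
    · rintro _ ⟨x, rfl⟩
      rw [LinearMap.mem_ker, Matrix.mulVecLin_apply, Matrix.mulVecLin_apply, Matrix.mulVec_mulVec,
        hPV, Matrix.zero_mulVec]
    · have h1 := LinearMap.finrank_range_add_finrank_ker P.transpose.mulVecLin
      have h2 := LinearMap.finrank_range_add_finrank_ker V.transpose.mulVecLin
      have h3 : Module.finrank (ZMod p) (LinearMap.range P.transpose.mulVecLin) =
          Module.finrank (ZMod p) (LinearMap.range P.mulVecLin) := Matrix.rank_transpose P
      have h4 : Module.finrank (ZMod p) (LinearMap.range V.transpose.mulVecLin) =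
          Module.finrank (ZMod p) (LinearMap.range V.mulVecLin) := Matrix.rank_transpose V
      rw [h3, hPrange] at h1
      rw [h4] at h2
      omega
  have e1 := nm1_map_inf P.transpose.mulVecLin (LinearMap.range M.mulVecLin)
  rw [← LinearMap.range_comp, ← Matrix.mulVecLin_mul, hker] at e1
  change (P.transpose * M).rank + _ = M.rank at e1
  have e2 : (P.transpose * M).rank = (M * P).rank := by
    rw [← Matrix.rank_transpose (M * P), Matrix.transpose_mul, hMs]
  have e3 : (M * P).rank ≤ Module.finrank (ZMod p)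
      ↥(LinearMap.range V.mulVecLin ⊓ LinearMap.range M.mulVecLin) := by
    refine Submodule.finrank_mono (le_inf ?_ ?_)
    · have h1 : M * P = V * (Y.transpose * P) := by
        rw [← hM, Matrix.add_mul, Matrix.mul_assoc Y, hVP, Matrix.mul_zero, add_zero, Matrix.mul_assoc]
      rw [h1, Matrix.mulVecLin_mul]
      exact LinearMap.range_comp_le_range _ _
    · rw [Matrix.mulVecLin_mul]
      exact LinearMap.range_comp_le_range _ _
  omega

end Pool.H64.IR

end S_NM1

section S_NM2

/-! MODULE NM2 (project MP_a758cf_pr, IR; overview: team-store H64_a758cf.md)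
Counting with a subspace. #{V : full rank, (VᵀVC) symmetric, dim(col V inf U) >= s} <= p^(ks) * HC C * (card U)^s * (1+eps)^k *
p^(n(k-s)) p^(s(s+1)/2)/p^(k(k+1)/2).
Proof. If dim (col V inf U) >= s choose s linearly independent vectors in it; they are V u_1..V u_s with u_a in F^k linearly independent
(V injective). So the count is at most sum over Uc : Matrix (Fin k) (Fin s) with independent columns (at most p^(ks)) of
#{V full rank, sym condition, V Uc has all columns in U}. Extend Uc to an invertible g : Matrix (Fin k) (Fin k) whose first s columns are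
those of Uc; V' = V g runs over full rank matrices with first s columns in U and V'ᵀ V' = gᵀ (Vᵀ V) g; sum over S = Vᵀ V in the set
counted by HC C (S symmetric, S C symmetric) and apply g3_upper to gᵀ S g.
-/

set_option autoImplicit false

namespace Pool.H64.IR

open Finset Polynomial

/-- extension of an independent family of vectors of `F^k` to a basis -/
lemma nm2_extend {p : ℕ} [Fact p.Prime] {k s : ℕ} (u : Fin s → Fin k → ZMod p)
    (hu : LinearIndependent (ZMod p) u) (m : ℕ) (hsm : s ≤ m) : m ≤ k →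
    ∃ w : Fin m → Fin k → ZMod p, LinearIndependent (ZMod p) w ∧
      ∀ a : Fin s, w (Fin.castLE hsm a) = u a := by
  induction m, hsm using Nat.le_induction with
  | base => intro _; exact ⟨u, hu, fun a => rfl⟩
  | succ m hsm ih =>
    intro hmk
    obtain ⟨w, hw, hwu⟩ := ih (by omega)
    have hne : Submodule.span (ZMod p) (Set.range w) ≠ ⊤ := by
      intro htop
      have h1 : Module.finrank (ZMod p) (Submodule.span (ZMod p) (Set.range w)) = m := by
        rw [finrank_span_eq_card hw, Fintype.card_fin]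
      rw [htop, finrank_top, Module.finrank_fintype_fun_eq_card, Fintype.card_fin] at h1
      omega
    obtain ⟨x, -, hx⟩ := SetLike.exists_of_lt (lt_top_iff_ne_top.2 hne)
    refine ⟨Fin.snoc (α := fun _ => Fin k → ZMod p) w x, linearIndependent_finSnoc.2 ⟨hw, hx⟩,
      fun a => ?_⟩
    have h2 : Fin.castLE (Nat.le_succ_of_le hsm) a = Fin.castSucc (Fin.castLE hsm a) := rfl
    rw [h2, Fin.snoc_castSucc]
    exact hwu a

lemma nm2_fullRank {p : ℕ} [Fact p.Prime] {n k : ℕ} (V : Matrix (Fin n) (Fin k) (ZMod p)) :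
    FullRank V ↔ Function.Injective V.mulVecLin := by
  unfold FullRank
  have h1 : (fun a : Fin k => fun i : Fin n => V i a) = V.col := rfl
  rw [h1, ← Matrix.mulVec_injective_iff]
  rfl

lemma nm2_col {p : ℕ} [Fact p.Prime] {n k : ℕ} (V : Matrix (Fin n) (Fin k) (ZMod p))
    (g : Matrix (Fin k) (Fin k) (ZMod p)) (a : Fin k) :
    (fun i => (V * g) i a) = V.mulVecLin (fun j => g j a) := by
  funext i
  rw [Matrix.mulVecLin_apply]
  rfl

/-- change of variables -/
lemma nm2_sum_mul {p : ℕ} [Fact p.Prime] {n k : ℕ} (g : Matrix (Fin k) (Fin k) (ZMod p))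
    (hg : IsUnit g) (f : Matrix (Fin n) (Fin k) (ZMod p) → ℝ) :
    ∑ V : Matrix (Fin n) (Fin k) (ZMod p), f (V * g) = ∑ V, f V := by
  have hdet : IsUnit g.det := (Matrix.isUnit_iff_isUnit_det g).1 hg
  let e : Matrix (Fin n) (Fin k) (ZMod p) ≃ Matrix (Fin n) (Fin k) (ZMod p) :=
    { toFun := fun V => V * g
      invFun := fun V => V * g⁻¹
      left_inv := fun V => by
        show V * g * g⁻¹ = V
        rw [Matrix.mul_assoc, Matrix.mul_nonsing_inv _ hdet, Matrix.mul_one]
      right_inv := fun V => by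
        show V * g⁻¹ * g = V
        rw [Matrix.mul_assoc, Matrix.nonsing_inv_mul _ hdet, Matrix.mul_one] }
  exact e.sum_comp f

/-- transposition of the variables -/
lemma nm2_sum_transpose {p : ℕ} [Fact p.Prime] {n k : ℕ}
    (f : (Fin k → Fin n → ZMod p) → ℝ) :
    ∑ V : Matrix (Fin n) (Fin k) (ZMod p), f (fun a i => V i a) = ∑ v, f v := by
  let e : Matrix (Fin n) (Fin k) (ZMod p) ≃ (Fin k → Fin n → ZMod p) :=
    { toFun := fun V a i => V i a
      invFun := fun v => Matrix.of fun i a => v a i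
      left_inv := fun V => rfl
      right_inv := fun v => rfl }
  exact e.sum_comp f

/-- the count for one family `u` -/
lemma nm2_one {p : ℕ} [Fact p.Prime] (hp : p ≠ 2) (n k s : ℕ) (hs : s ≤ k) (hk : 4 * k ≤ n)
    (U : Submodule (ZMod p) (Fin n → ZMod p)) (C : Matrix (Fin k) (Fin k) (ZMod p))
    (u : Fin s → Fin k → ZMod p) (hu : LinearIndependent (ZMod p) u) :
    (∑ V : Matrix (Fin n) (Fin k) (ZMod p), ind (FullRank V ∧ (V.transpose * V * C).IsSymm ∧
        ∀ a, V.mulVecLin (u a) ∈ U)) ≤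
      HC C * ((Nat.card U : ℝ) ^ s * (1 + eps p n k) ^ k * ((p : ℝ) ^ n) ^ (k - s)
        * (p : ℝ) ^ (s * (s + 1) / 2) / (p : ℝ) ^ (k * (k + 1) / 2)) := by
  classical
  obtain ⟨w, hw, hwu⟩ := nm2_extend u hu k hs le_rfl
  obtain ⟨g, hgdef⟩ : ∃ g : Matrix (Fin k) (Fin k) (ZMod p), ∀ i j, g i j = w j i :=
    ⟨Matrix.of fun i j => w j i, fun _ _ => rfl⟩
  have hgcol : ∀ j, (fun i => g i j) = w j := fun j => funext fun i => hgdef i j
  have hg : IsUnit g := by
    rw [← Matrix.linearIndependent_cols_iff_isUnit]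
    have : g.col = w := by
      funext j
      exact hgcol j
    rw [this]
    exact hw
  -- sum over the Gram matrices
  have h1 : ∀ V : Matrix (Fin n) (Fin k) (ZMod p),
      ind (FullRank V ∧ (V.transpose * V * C).IsSymm ∧ ∀ a, V.mulVecLin (u a) ∈ U) ≤
        ∑ S : Matrix (Fin k) (Fin k) (ZMod p), ind (S.IsSymm ∧ (S * C).IsSymm) *
          ind (FullRank (V * g) ∧ ((V * g).transpose * (V * g) = g.transpose * S * g) ∧
            ∀ a : Fin k, (a : ℕ) < s → (fun i => (V * g) i a) ∈ U) := by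
    intro V
    by_cases hV : FullRank V ∧ (V.transpose * V * C).IsSymm ∧ ∀ a, V.mulVecLin (u a) ∈ U
    · obtain ⟨hV1, hV2, hV3⟩ := hV
      refine le_trans ?_ (Finset.single_le_sum (f := fun S : Matrix (Fin k) (Fin k) (ZMod p) =>
        ind (S.IsSymm ∧ (S * C).IsSymm) *
          ind (FullRank (V * g) ∧ ((V * g).transpose * (V * g) = g.transpose * S * g) ∧
            ∀ a : Fin k, (a : ℕ) < s → (fun i => (V * g) i a) ∈ U))
        (fun S _ => mul_nonneg (ind_nonneg _) (ind_nonneg _)) (Finset.mem_univ (V.transpose * V)))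
      have e1 : ind ((V.transpose * V).IsSymm ∧ (V.transpose * V * C).IsSymm) = 1 := by
        apply ind_true
        refine ⟨?_, hV2⟩
        unfold Matrix.IsSymm
        rw [Matrix.transpose_mul, Matrix.transpose_transpose]
      have e2 : ind (FullRank (V * g) ∧
          ((V * g).transpose * (V * g) = g.transpose * (V.transpose * V) * g) ∧
            ∀ a : Fin k, (a : ℕ) < s → (fun i => (V * g) i a) ∈ U) = 1 := by
        apply ind_true
        refine ⟨?_, ?_, ?_⟩
        · rw [nm2_fullRank, Matrix.mulVecLin_mul]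
          have h2 : Function.Injective g.mulVecLin := by
            have := (Matrix.mulVec_injective_iff_isUnit (A := g)).2 hg
            exact this
          exact ((nm2_fullRank V).1 hV1).comp h2
        · rw [Matrix.transpose_mul]
          simp only [Matrix.mul_assoc]
        · intro a ha
          rw [nm2_col, hgcol]
          have h2 := hwu ⟨a, ha⟩
          have h3 : Fin.castLE hs ⟨(a : ℕ), ha⟩ = a := rfl
          rw [h3] at h2
          rw [h2]
          exact hV3 _
      rw [ind_true ⟨hV1, hV2, hV3⟩, e1, e2, one_mul]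
    · rw [ind_false hV]
      exact Finset.sum_nonneg fun S _ => mul_nonneg (ind_nonneg _) (ind_nonneg _)
  refine (Finset.sum_le_sum fun V _ => h1 V).trans ?_
  rw [Finset.sum_comm]
  unfold HC
  rw [Finset.sum_mul]
  refine Finset.sum_le_sum fun S _ => ?_
  rw [← Finset.mul_sum]
  apply mul_le_mul_of_nonneg_left _ (ind_nonneg _)
  rw [nm2_sum_mul g hg (fun V => ind (FullRank V ∧ (V.transpose * V = g.transpose * S * g) ∧
            ∀ a : Fin k, (a : ℕ) < s → (fun i => V i a) ∈ U))]
  refine le_trans (le_of_eq ?_) (g3_upper hp n k s hs hk U (g.transpose * S * g))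
  rw [← nm2_sum_transpose]
  refine Finset.sum_congr rfl fun V _ => ind_congr ?_
  refine and_congr Iff.rfl (and_congr ?_ Iff.rfl)
  constructor
  · intro h a b
    rw [← h]
    rfl
  · intro h
    ext a b
    exact h a b

theorem nm2 {p : ℕ} [Fact p.Prime] (hp : p ≠ 2) (n k s : ℕ) (hs : s ≤ k) (hk : 4 * k ≤ n)
    (U : Submodule (ZMod p) (Fin n → ZMod p)) (C : Matrix (Fin k) (Fin k) (ZMod p)) :
    (∑ V : Matrix (Fin n) (Fin k) (ZMod p), ind (FullRank V ∧ (V.transpose * V * C).IsSymm ∧
        s ≤ Module.finrank (ZMod p)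
          ↥(Submodule.span (ZMod p) (Set.range fun a : Fin k => fun i : Fin n => V i a) ⊓ U))) ≤
      (p : ℝ) ^ (k * s) * HC C * ((Nat.card U : ℝ) ^ s * (1 + eps p n k) ^ k * ((p : ℝ) ^ n) ^ (k - s)
        * (p : ℝ) ^ (s * (s + 1) / 2) / (p : ℝ) ^ (k * (k + 1) / 2)) := by
  classical
  have he := eps_nonneg p n k
  have hHC : 0 ≤ HC C := Finset.sum_nonneg fun _ _ => ind_nonneg _
  -- choice of the vectors
  have h1 : ∀ V : Matrix (Fin n) (Fin k) (ZMod p),
      ind (FullRank V ∧ (V.transpose * V * C).IsSymm ∧ s ≤ Module.finrank (ZMod p)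
          ↥(Submodule.span (ZMod p) (Set.range fun a : Fin k => fun i : Fin n => V i a) ⊓ U)) ≤
        ∑ u : Fin s → Fin k → ZMod p, ind (LinearIndependent (ZMod p) u) *
          ind (FullRank V ∧ (V.transpose * V * C).IsSymm ∧ ∀ a, V.mulVecLin (u a) ∈ U) := by
    intro V
    by_cases hV : FullRank V ∧ (V.transpose * V * C).IsSymm ∧ s ≤ Module.finrank (ZMod p)
          ↥(Submodule.span (ZMod p) (Set.range fun a : Fin k => fun i : Fin n => V i a) ⊓ U)
    · obtain ⟨hV1, hV2, hV3⟩ := hV
      obtain ⟨x, hx⟩ := exists_linearIndependent_of_le_finrank hV3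
      have hrange : Submodule.span (ZMod p) (Set.range fun a : Fin k => fun i : Fin n => V i a) =
          LinearMap.range V.mulVecLin := (Matrix.range_mulVecLin V).symm
      have h2 : ∀ a, ∃ y : Fin k → ZMod p, V.mulVecLin y = (x a : Fin n → ZMod p) := by
        intro a
        have h3 : (x a : Fin n → ZMod p) ∈
          Submodule.span (ZMod p) (Set.range fun a : Fin k => fun i : Fin n => V i a) := (x a).2.1
        have h4 := hrange.le h3
        exact h4
      choose u hu using h2
      have hx' : LinearIndependent (ZMod p) (fun a => (x a : Fin n → ZMod p)) :=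
        hx.map' (Submodule.subtype _) (Submodule.ker_subtype _)
      have hu' : LinearIndependent (ZMod p) u := by
        apply LinearIndependent.of_comp V.mulVecLin
        have h3 : (V.mulVecLin ∘ u) = fun a => (x a : Fin n → ZMod p) := funext hu
        rw [h3]
        exact hx'
      refine le_trans ?_ (Finset.single_le_sum (f := fun u : Fin s → Fin k → ZMod p =>
        ind (LinearIndependent (ZMod p) u) *
          ind (FullRank V ∧ (V.transpose * V * C).IsSymm ∧ ∀ a, V.mulVecLin (u a) ∈ U))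
        (fun u _ => mul_nonneg (ind_nonneg _) (ind_nonneg _)) (Finset.mem_univ u))
      have e1 : ind (FullRank V ∧ (V.transpose * V * C).IsSymm ∧ ∀ a, V.mulVecLin (u a) ∈ U) = 1 := by
        apply ind_true
        refine ⟨hV1, hV2, fun a => ?_⟩
        rw [hu a]
        exact (x a).2.2
      rw [ind_true ⟨hV1, hV2, hV3⟩, ind_true hu', e1, one_mul]
    · rw [ind_false hV]
      exact Finset.sum_nonneg fun u _ => mul_nonneg (ind_nonneg _) (ind_nonneg _)
  refine (Finset.sum_le_sum fun V _ => h1 V).trans ?_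
  rw [Finset.sum_comm]
  have h2 : ∀ u : Fin s → Fin k → ZMod p,
      (∑ V : Matrix (Fin n) (Fin k) (ZMod p), ind (LinearIndependent (ZMod p) u) *
          ind (FullRank V ∧ (V.transpose * V * C).IsSymm ∧ ∀ a, V.mulVecLin (u a) ∈ U)) ≤
      HC C * ((Nat.card U : ℝ) ^ s * (1 + eps p n k) ^ k * ((p : ℝ) ^ n) ^ (k - s)
        * (p : ℝ) ^ (s * (s + 1) / 2) / (p : ℝ) ^ (k * (k + 1) / 2)) := by
    intro u
    rw [← Finset.mul_sum]
    by_cases hu : LinearIndependent (ZMod p) u
    · rw [ind_true hu, one_mul]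
      exact nm2_one hp n k s hs hk U C u hu
    · rw [ind_false hu, zero_mul]
      exact mul_nonneg hHC (by positivity)
  refine (Finset.sum_le_sum fun u _ => h2 u).trans (le_of_eq ?_)
  rw [Finset.sum_const, Finset.card_univ, Fintype.card_fun, Fintype.card_fun, ZMod.card,
    Fintype.card_fin, Fintype.card_fin, nsmul_eq_mul, ← pow_mul]
  push_cast
  ring

end Pool.H64.IR

end S_NM2

section S_NM3

/-! MODULE NM3 (project MP_a758cf_pr, IR; overview: team-store H64_a758cf.md)
Bounds for NC C M.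
nc_zero_lower / nc_zero_upper: M = 0 (Y = 0 is allowed): sum over S in the set of HC C of the number of full rank V with VᵀV = S;
g3_lower, g3_upper with s = 0 (columns of V as a tuple of vectors: Matrix (Fin n) (Fin k) is equivalent to Fin k -> Fin n -> F by transposing).
nc_symm: if M is not symmetric then NC C M = 0.  nc_big: if 2 k < rank M then NC C M = 0 (nm1: rank M <= 2 dim (col V inf ..) <= 2k).
nc_le: r = rank M >= 1, s = (r+1)/2 <= k. By nm1 dim(col V inf Im M) >= s, apply nm2 with U = range of M (card U = p^r), and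
k s + r s + s(s+1)/2 <= 4 k s because r <= 2 s, s <= k; p^(n(k-s)) = p^(nk)/p^(ns).
-/

set_option autoImplicit false

namespace Pool.H64.IR

open Finset Polynomial

/-- number of independent tuples with given Gram matrix -/
noncomputable def nm3N {p : ℕ} [Fact p.Prime] (n k : ℕ) (S : Matrix (Fin k) (Fin k) (ZMod p)) : ℝ :=
  ∑ v : Fin k → Fin n → ZMod p, ind (LinearIndependent (ZMod p) v ∧ (∀ a b, dotProduct (v a) (v b) = S a b))

theorem nm3_gram {p : ℕ} [Fact p.Prime] {n k : ℕ} (V : Matrix (Fin n) (Fin k) (ZMod p)) (a b : Fin k) :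
    (V.transpose * V) a b = dotProduct (fun i => V i a) (fun i => V i b) := by
  simp [Matrix.mul_apply, dotProduct]

theorem nm3_transp {p : ℕ} [Fact p.Prime] (n k : ℕ) (S : Matrix (Fin k) (Fin k) (ZMod p)) :
    ∑ V : Matrix (Fin n) (Fin k) (ZMod p), ind (FullRank V ∧ V.transpose * V = S) = nm3N n k S := by
  unfold nm3N
  let e : Matrix (Fin n) (Fin k) (ZMod p) ≃ (Fin k → Fin n → ZMod p) :=
    ⟨fun V a i => V i a, fun v => Matrix.of fun i a => v a i, fun V => rfl, fun v => rfl⟩
  refine Fintype.sum_equiv e _ _ fun V => ind_congr ?_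
  refine and_congr Iff.rfl ?_
  constructor
  · rintro h a b
    rw [← h, nm3_gram]
    rfl
  · intro h
    ext a b
    rw [nm3_gram]
    exact h a b

theorem nm3_key {p : ℕ} [Fact p.Prime] {n k : ℕ} (C : Matrix (Fin k) (Fin k) (ZMod p)) :
    NC C (0 : Matrix (Fin n) (Fin n) (ZMod p)) =
      ∑ S : Matrix (Fin k) (Fin k) (ZMod p), ind (S.IsSymm ∧ (S * C).IsSymm) * nm3N n k S := by
  classical
  have h1 : ∀ V : Matrix (Fin n) (Fin k) (ZMod p),
      ind (FullRank V ∧ (V.transpose * V * C).IsSymm ∧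
        ∃ Y : Matrix (Fin n) (Fin k) (ZMod p), V * Y.transpose + Y * V.transpose = 0) =
      ∑ S : Matrix (Fin k) (Fin k) (ZMod p), ind (S.IsSymm ∧ (S * C).IsSymm) *
        ind (FullRank V ∧ V.transpose * V = S) := by
    intro V
    rw [Finset.sum_eq_single (V.transpose * V)]
    · rw [← ind_and]
      apply ind_congr
      constructor
      · rintro ⟨h1, h2, _⟩
        refine ⟨⟨?_, h2⟩, h1, rfl⟩
        unfold Matrix.IsSymm
        rw [Matrix.transpose_mul, Matrix.transpose_transpose]
      · rintro ⟨⟨_, h2⟩, h1, _⟩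
        exact ⟨h1, h2, 0, by simp⟩
    · intro S _ hS
      rw [ind_false (P := FullRank V ∧ V.transpose * V = S) (fun h => hS h.2.symm), mul_zero]
    · intro h
      exact absurd (Finset.mem_univ _) h
  unfold NC
  simp_rw [h1]
  rw [Finset.sum_comm]
  refine Finset.sum_congr rfl fun S _ => ?_
  rw [← Finset.mul_sum, nm3_transp]

theorem nc_zero_lower {p : ℕ} [Fact p.Prime] (hp : p ≠ 2) (n k : ℕ) (hk : 4 * k ≤ n) (he : eps p n k ≤ 1)
    (C : Matrix (Fin k) (Fin k) (ZMod p)) :
    (1 - eps p n k) ^ k * HC C * (((p : ℝ) ^ n) ^ k / (p : ℝ) ^ (k * (k + 1) / 2)) ≤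
      NC C (0 : Matrix (Fin n) (Fin n) (ZMod p)) := by
  rw [nm3_key]
  have h0 : (1 - eps p n k) ^ k * HC C * (((p : ℝ) ^ n) ^ k / (p : ℝ) ^ (k * (k + 1) / 2)) =
      ∑ S : Matrix (Fin k) (Fin k) (ZMod p), ind (S.IsSymm ∧ (S * C).IsSymm) *
        ((1 - eps p n k) ^ k * ((p : ℝ) ^ n) ^ k / (p : ℝ) ^ (k * (k + 1) / 2)) := by
    rw [← Finset.sum_mul]
    unfold HC
    ring
  rw [h0]
  refine Finset.sum_le_sum fun S _ => ?_
  by_cases h : S.IsSymm ∧ (S * C).IsSymm
  · exact mul_le_mul_of_nonneg_left (g3_lower hp n k hk he S h.1) (ind_nonneg _)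
  · rw [ind_false h, zero_mul, zero_mul]

theorem nc_zero_upper {p : ℕ} [Fact p.Prime] (hp : p ≠ 2) (n k : ℕ) (hk : 4 * k ≤ n)
    (C : Matrix (Fin k) (Fin k) (ZMod p)) :
    NC C (0 : Matrix (Fin n) (Fin n) (ZMod p)) ≤
      (1 + eps p n k) ^ k * HC C * (((p : ℝ) ^ n) ^ k / (p : ℝ) ^ (k * (k + 1) / 2)) := by
  rw [nm3_key]
  have h0 : (1 + eps p n k) ^ k * HC C * (((p : ℝ) ^ n) ^ k / (p : ℝ) ^ (k * (k + 1) / 2)) =
      ∑ S : Matrix (Fin k) (Fin k) (ZMod p), ind (S.IsSymm ∧ (S * C).IsSymm) *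
        ((1 + eps p n k) ^ k * ((p : ℝ) ^ n) ^ k / (p : ℝ) ^ (k * (k + 1) / 2)) := by
    rw [← Finset.sum_mul]
    unfold HC
    ring
  rw [h0]
  refine Finset.sum_le_sum fun S _ => ?_
  refine mul_le_mul_of_nonneg_left ?_ (ind_nonneg _)
  have h1 := g3_upper hp n k 0 (Nat.zero_le k) hk ⊥ S
  have h2 : nm3N n k S = ∑ v : Fin k → Fin n → ZMod p, ind (LinearIndependent (ZMod p) v ∧
      (∀ a b, dotProduct (v a) (v b) = S a b) ∧ ∀ a : Fin k, (a : ℕ) < 0 →
        v a ∈ (⊥ : Submodule (ZMod p) (Fin n → ZMod p))) := by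
    unfold nm3N
    refine Finset.sum_congr rfl fun v _ => ind_congr ?_
    constructor
    · rintro ⟨h1, h2⟩
      exact ⟨h1, h2, fun a ha => absurd ha (Nat.not_lt_zero _)⟩
    · rintro ⟨h1, h2, _⟩
      exact ⟨h1, h2⟩
  rw [h2]
  refine h1.trans (le_of_eq ?_)
  simp

theorem nc_symm {p : ℕ} [Fact p.Prime] {n k : ℕ} (C : Matrix (Fin k) (Fin k) (ZMod p))
    (M : Matrix (Fin n) (Fin n) (ZMod p)) (hM : ¬ M.IsSymm) : NC C M = 0 := by
  unfold NC
  refine Finset.sum_eq_zero fun V _ => ind_false ?_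
  rintro ⟨_, _, Y, hY⟩
  apply hM
  rw [← hY]
  unfold Matrix.IsSymm
  rw [Matrix.transpose_add, Matrix.transpose_mul, Matrix.transpose_mul, Matrix.transpose_transpose,
    Matrix.transpose_transpose, add_comm]

theorem nc_big {p : ℕ} [Fact p.Prime] {n k : ℕ} (C : Matrix (Fin k) (Fin k) (ZMod p))
    (M : Matrix (Fin n) (Fin n) (ZMod p)) (hM : 2 * k < M.rank) : NC C M = 0 := by
  unfold NC
  refine Finset.sum_eq_zero fun V _ => ind_false ?_
  rintro ⟨_, _, Y, hY⟩
  have h1 := nm1 V Y M hY
  have h2 : Module.finrank (ZMod p)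
      ↥(Submodule.span (ZMod p) (Set.range fun a : Fin k => fun i : Fin n => V i a) ⊓
        LinearMap.range M.mulVecLin) ≤ k := by
    refine (Submodule.finrank_mono inf_le_left).trans ?_
    have h3 := finrank_range_le_card (R := ZMod p) (fun a : Fin k => fun i : Fin n => V i a)
    rwa [Fintype.card_fin] at h3
  omega

theorem nc_le {p : ℕ} [Fact p.Prime] (hp : p ≠ 2) (n k : ℕ) (hk : 4 * k ≤ n)
    (C : Matrix (Fin k) (Fin k) (ZMod p)) (M : Matrix (Fin n) (Fin n) (ZMod p)) (hM : 1 ≤ M.rank) (hM2 : M.rank ≤ 2 * k) :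
    NC C M ≤ (1 + eps p n k) ^ k * HC C * (((p : ℝ) ^ n) ^ k / (p : ℝ) ^ (k * (k + 1) / 2))
      * ((p : ℝ) ^ (4 * k * ((M.rank + 1) / 2)) / ((p : ℝ) ^ n) ^ ((M.rank + 1) / 2)) := by
  obtain ⟨s, hs⟩ : ∃ s, s = (M.rank + 1) / 2 := ⟨_, rfl⟩
  rw [← hs]
  have hsk : s ≤ k := by omega
  have hrs : M.rank ≤ 2 * s := by omega
  have hp1 : (1 : ℝ) ≤ p := by exact_mod_cast (Fact.out : p.Prime).one_le
  have hp0 : (0 : ℝ) < p := by linarith
  have h1 := nm2 hp n k s hsk hk (LinearMap.range M.mulVecLin) C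
  have h2 : NC C M ≤ ∑ V : Matrix (Fin n) (Fin k) (ZMod p), ind (FullRank V ∧ (V.transpose * V * C).IsSymm ∧
        s ≤ Module.finrank (ZMod p)
          ↥(Submodule.span (ZMod p) (Set.range fun a : Fin k => fun i : Fin n => V i a) ⊓
            LinearMap.range M.mulVecLin)) := by
    unfold NC
    refine Finset.sum_le_sum fun V _ => ind_mono ?_
    rintro ⟨h3, h4, Y, hY⟩
    refine ⟨h3, h4, ?_⟩
    have h5 := nm1 V Y M hY
    omega
  refine (h2.trans h1).trans ?_
  have hcard : (Nat.card (LinearMap.range M.mulVecLin) : ℝ) = (p : ℝ) ^ M.rank := by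
    have h3 : Nat.card (LinearMap.range M.mulVecLin) = p ^ M.rank := by
      rw [Nat.card_eq_fintype_card, Module.card_eq_pow_finrank (K := ZMod p), ZMod.card]
      rfl
    rw [h3]; push_cast; rfl
  rw [hcard]
  have he : k * s + M.rank * s + s * (s + 1) / 2 ≤ 4 * k * s := by
    have h3 : M.rank * s ≤ 2 * s * s := Nat.mul_le_mul_right s hrs
    have h4 : s * s ≤ k * s := Nat.mul_le_mul_right s hsk
    have h5 : s * (s + 1) / 2 ≤ s * s := by
      apply Nat.div_le_of_le_mul
      rcases Nat.eq_zero_or_pos s with h | h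
      · subst h; simp
      · nlinarith
    nlinarith
  have hpow : (p : ℝ) ^ (k * s) * ((p : ℝ) ^ M.rank) ^ s * (p : ℝ) ^ (s * (s + 1) / 2) ≤
      (p : ℝ) ^ (4 * k * s) := by
    rw [← pow_mul, ← pow_add, ← pow_add]
    exact pow_le_pow_right₀ hp1 he
  have hpn : 0 < (p : ℝ) ^ n := by positivity
  have hsplit : ((p : ℝ) ^ n) ^ (k - s) = ((p : ℝ) ^ n) ^ k / ((p : ℝ) ^ n) ^ s := by
    rw [eq_div_iff (by positivity), ← pow_add, Nat.sub_add_cancel hsk]
  rw [hsplit]
  have hHC : 0 ≤ HC C := Finset.sum_nonneg fun S _ => ind_nonneg _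
  have hE : 0 ≤ (1 + eps p n k) ^ k := by
    have := eps_nonneg p n k
    positivity
  have hfac : 0 ≤ (1 + eps p n k) ^ k * HC C * (((p : ℝ) ^ n) ^ k / (p : ℝ) ^ (k * (k + 1) / 2)) /
      ((p : ℝ) ^ n) ^ s := by positivity
  calc (p : ℝ) ^ (k * s) * HC C * (((p : ℝ) ^ M.rank) ^ s * (1 + eps p n k) ^ k *
          (((p : ℝ) ^ n) ^ k / ((p : ℝ) ^ n) ^ s) * (p : ℝ) ^ (s * (s + 1) / 2) /
            (p : ℝ) ^ (k * (k + 1) / 2))
      = ((1 + eps p n k) ^ k * HC C * (((p : ℝ) ^ n) ^ k / (p : ℝ) ^ (k * (k + 1) / 2)) /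
          ((p : ℝ) ^ n) ^ s) *
        ((p : ℝ) ^ (k * s) * ((p : ℝ) ^ M.rank) ^ s * (p : ℝ) ^ (s * (s + 1) / 2)) := by ring
    _ ≤ ((1 + eps p n k) ^ k * HC C * (((p : ℝ) ^ n) ^ k / (p : ℝ) ^ (k * (k + 1) / 2)) /
          ((p : ℝ) ^ n) ^ s) * (p : ℝ) ^ (4 * k * s) := mul_le_mul_of_nonneg_left hpow hfac
    _ = _ := by ring

end Pool.H64.IR

end S_NM3
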