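import Mathlib
import Pool.Agent.H64.IRL.L0

set_option autoImplicit false

/-! Characteristic polynomial of G(n,1/2), part L2: this file joins several modules to save build time. -/

section S_RK1

/-! MODULE RK1 (project MP_a758cf_pr, IR; overview: team-store H64_a758cf.md)
Block rank inequality: rank M >= rank (rows in L) + rank (columns in L) - rank (M_LL); for symmetric M the first two are equal.
Proof: for linear maps a (restriction to coordinates in L, surjective), f = M, c (extension by zero): Frobenius inequality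
rank(a f c) + rank f >= rank(a f) + rank(f c). [Proof of Frobenius: on the space range f / range (f c) the map induced by a surjects onto
range(a f)/range(a f c), so rank(a f) - rank(a f c) <= rank f - rank(f c).] And M_{L,all} and M_{all,L} are transposes of each other, rank_transpose.
-/

set_option autoImplicit false

namespace Pool.H64.IR

open Finset Polynomial

private lemma rk1_map_inf {F V W : Type} [Field F] [AddCommGroup V] [Module F V]
    [Module.Finite F V] [AddCommGroup W] [Module F W] (A : V →ₗ[F] W) (q : Submodule F V) :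
    Module.finrank F (q.map A) + Module.finrank F ↥(LinearMap.ker A ⊓ q) = Module.finrank F q := by
  have h := LinearMap.finrank_range_add_finrank_ker (A.domRestrict q)
  rw [LinearMap.range_domRestrict, LinearMap.ker_domRestrict] at h
  rw [← h]
  congr 1
  have h1 : Submodule.comap q.subtype (LinearMap.ker A) =
      Submodule.comap q.subtype (LinearMap.ker A ⊓ q) := by
    ext x
    simp
  rw [h1]
  exact ((Submodule.comapSubtypeEquivOfLe (inf_le_right : LinearMap.ker A ⊓ q ≤ q)).finrank_eq).symm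

theorem rk1 {F : Type} [Field F] {ν : Type} [Fintype ν] [DecidableEq ν] (M : Matrix ν ν F) (hM : M.IsSymm)
    (L : ν → Prop) [DecidablePred L] :
    2 * (M.submatrix (fun i : {i // L i} => i.1) id).rank ≤
      M.rank + (M.submatrix (fun i : {i // L i} => i.1) (fun i : {i // L i} => i.1)).rank := by
  classical
  set a : Matrix {i // L i} ν F := (1 : Matrix ν ν F).submatrix (fun i : {i // L i} => i.1) id with ha
  have h1 : M.submatrix (fun i : {i // L i} => i.1) id = a * M := by
    rw [ha]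
    ext i j
    simp [Matrix.mul_apply, Matrix.one_apply]
  have h2 : M.submatrix (fun i : {i // L i} => i.1) (fun i : {i // L i} => i.1) =
      a * (M * a.transpose) := by
    rw [ha]
    ext i j
    simp [Matrix.mul_apply, Matrix.one_apply]
  have h3 : (M * a.transpose).rank = (a * M).rank := by
    rw [← Matrix.rank_transpose (a * M), Matrix.transpose_mul, hM.eq]
  have e1 := rk1_map_inf a.mulVecLin (LinearMap.range M.mulVecLin)
  have e2 := rk1_map_inf a.mulVecLin (LinearMap.range (M * a.transpose).mulVecLin)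
  rw [← LinearMap.range_comp, ← Matrix.mulVecLin_mul] at e1 e2
  have hle : LinearMap.range (M * a.transpose).mulVecLin ≤ LinearMap.range M.mulVecLin := by
    rw [Matrix.mulVecLin_mul]
    exact LinearMap.range_comp_le_range _ _
  have e3 : Module.finrank F ↥(LinearMap.ker a.mulVecLin ⊓ LinearMap.range (M * a.transpose).mulVecLin) ≤
      Module.finrank F ↥(LinearMap.ker a.mulVecLin ⊓ LinearMap.range M.mulVecLin) :=
    Submodule.finrank_mono (inf_le_inf_left _ hle)
  rw [h1, h2]
  change (a * M).rank + _ = M.rank at e1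
  change (a * (M * a.transpose)).rank + _ = (M * a.transpose).rank at e2
  rw [h3] at e2
  omega

end Pool.H64.IR

end S_RK1

section S_RK2

/-! MODULE RK2 (project MP_a758cf_pr, IR; overview: team-store H64_a758cf.md)
Counting symmetric matrices of rank r all of whose rows lie in a set R.
Claim: for each symmetric M of rank r there is B (r rows, i.e. an injective function Fin r -> ν, or a finset of size r) such that the rows in B form a basis of the row space; then
M is determined by B and the rows in B: M_BB is nonsingular (M has rank r, rows B span the row space, by symmetry columns B span the column space,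
so rank M_BB = r), each row is M_i = sum_{b in B} x_b M_b and x is determined by M_iB = x M_BB where M_iB = (M_Bi)ᵀ is known.
So M |-> (B, rows in B) is injective on the set and the number is at most (card ν)^r (card R)^r  (r = 0: only M = 0, both sides fine).
-/

set_option autoImplicit false

namespace Pool.H64.IR

open Finset Polynomial

/-- `r` rows spanning the row space -/
lemma rk2_basis {F : Type} [Field F] {ν : Type} [Fintype ν] (M : Matrix ν ν F) {r : ℕ}
    (hr : M.rank = r) : ∃ B : Fin r → ν, ∀ i, M i ∈ Submodule.span F (Set.range fun a => M (B a)) := by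
  subst hr
  rw [Matrix.rank_eq_finrank_span_row]
  obtain ⟨f, hf1, hf2, -⟩ := Submodule.exists_fun_fin_finrank_span_eq F (Set.range M.row)
  choose B hB using hf1
  refine ⟨B, fun i => ?_⟩
  have h1 : (fun a => M (B a)) = f := funext fun a => hB a
  rw [h1, hf2]
  exact Submodule.subset_span ⟨i, rfl⟩

lemma rk2_zero {F : Type} [Field F] {ν : Type} [Fintype ν] {r : ℕ} (M : Matrix ν ν F)
    (hM : M.IsSymm) (B : Fin r → ν)
    (hB : ∀ i, M i ∈ Submodule.span F (Set.range fun a => M (B a))) (w : ν → F)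
    (hw : w ∈ Submodule.span F (Set.range fun a => M (B a))) (h0 : ∀ b, w (B b) = 0) : w = 0 := by
  rw [Submodule.mem_span_range_iff_exists_fun] at hw
  obtain ⟨c, rfl⟩ := hw
  ext i
  have h1 := hB i
  rw [Submodule.mem_span_range_iff_exists_fun] at h1
  obtain ⟨d, hd⟩ := h1
  have h2 : (∑ a, c a • M (B a)) i = ∑ a, c a * M i (B a) := by
    rw [Finset.sum_apply]
    refine Finset.sum_congr rfl fun a _ => ?_
    rw [Pi.smul_apply, smul_eq_mul, hM.apply i (B a)]
  have h3 : ∀ a, M i (B a) = ∑ b, d b * M (B b) (B a) := by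
    intro a
    rw [← hd, Finset.sum_apply]
    rfl
  have h4 : ∀ b, ∑ a, c a * M (B b) (B a) = 0 := by
    intro b
    have h5 := h0 b
    rw [Finset.sum_apply] at h5
    rw [← h5]
    refine Finset.sum_congr rfl fun a _ => ?_
    rw [Pi.smul_apply, smul_eq_mul, hM.apply (B b) (B a)]
  rw [h2]
  have h5 : ∑ a, c a * M i (B a) = ∑ b, d b * ∑ a, c a * M (B b) (B a) := by
    have h6 : ∀ a, c a * M i (B a) = ∑ b, d b * (c a * M (B b) (B a)) := by
      intro a
      rw [h3 a, Finset.mul_sum]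
      exact Finset.sum_congr rfl fun b _ => by ring
    rw [Finset.sum_congr rfl fun a _ => h6 a, Finset.sum_comm]
    exact Finset.sum_congr rfl fun b _ => by rw [Finset.mul_sum]
  rw [h5]
  simp [h4]

lemma rk2_inj {F : Type} [Field F] {ν : Type} [Fintype ν] {r : ℕ} (M M' : Matrix ν ν F)
    (hM : M.IsSymm) (hM' : M'.IsSymm) (B : Fin r → ν)
    (hB : ∀ i, M i ∈ Submodule.span F (Set.range fun a => M (B a)))
    (hB' : ∀ i, M' i ∈ Submodule.span F (Set.range fun a => M' (B a)))
    (h : ∀ a, M (B a) = M' (B a)) : M = M' := by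
  have h1 : (fun a => M' (B a)) = fun a => M (B a) := funext fun a => (h a).symm
  have h2 : ∀ i, M i - M' i = 0 := by
    intro i
    refine rk2_zero M hM B hB _ (Submodule.sub_mem _ (hB i) ?_) fun b => ?_
    · rw [← h1]; exact hB' i
    · rw [Pi.sub_apply, ← hM.apply i (B b), ← hM'.apply i (B b), h b, sub_self]
  ext i j
  exact congrFun (sub_eq_zero.1 (h2 i)) j

theorem rk2 {F : Type} [Field F] [Fintype F] [DecidableEq F] {ν : Type} [Fintype ν] [DecidableEq ν] (R : Finset (ν → F)) (r : ℕ) :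
    (∑ M : Matrix ν ν F, ind (M.IsSymm ∧ M.rank = r ∧ ∀ i, M i ∈ R)) ≤ (Fintype.card ν : ℝ) ^ r * (R.card : ℝ) ^ r := by
  classical
  set S : Finset (Matrix ν ν F) := univ.filter fun M => M.IsSymm ∧ M.rank = r ∧ ∀ i, M i ∈ R with hS
  have h1 : (∑ M : Matrix ν ν F, ind (M.IsSymm ∧ M.rank = r ∧ ∀ i, M i ∈ R)) = (S.card : ℝ) := by
    rw [hS, Finset.card_filter, Nat.cast_sum]
    refine Finset.sum_congr rfl fun M _ => ?_
    by_cases h : M.IsSymm ∧ M.rank = r ∧ ∀ i, M i ∈ R
    · rw [ind_true h, if_pos h, Nat.cast_one]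
    · rw [ind_false h, if_neg h, Nat.cast_zero]
  rw [h1]
  rcases isEmpty_or_nonempty (Fin r → ν) with hE | hE
  · have hS0 : S = ∅ := by
      rw [hS, Finset.filter_eq_empty_iff]
      rintro M - ⟨-, hM, -⟩
      obtain ⟨B, -⟩ := rk2_basis M hM
      exact hE.elim B
    rw [hS0, Finset.card_empty, Nat.cast_zero]
    positivity
  have h2 : ∀ M : Matrix ν ν F, ∃ B : Fin r → ν, M.rank = r →
      ∀ i, M i ∈ Submodule.span F (Set.range fun a => M (B a)) := by
    intro M
    by_cases h : M.rank = r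
    · obtain ⟨B, hB⟩ := rk2_basis M h
      exact ⟨B, fun _ => hB⟩
    · exact ⟨hE.some, fun h' => absurd h' h⟩
  choose B hB using h2
  have h3 : S.card ≤ ((Fintype.piFinset fun _ : Fin r => (univ : Finset ν)) ×ˢ
      (Fintype.piFinset fun _ : Fin r => R)).card := by
    refine Finset.card_le_card_of_injOn (fun M => (B M, fun a => M (B M a))) ?_ ?_
    · intro M hM
      rw [Finset.mem_coe, hS, Finset.mem_filter] at hM
      rw [Finset.mem_coe, Finset.mem_product, Fintype.mem_piFinset, Fintype.mem_piFinset]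
      exact ⟨fun _ => Finset.mem_univ _, fun a => hM.2.2.2 _⟩
    · intro M hM M' hM' h
      rw [Finset.mem_coe, hS, Finset.mem_filter] at hM hM'
      have h4 : B M = B M' := congrArg Prod.fst h
      have h5 : (fun a => M (B M a)) = fun a => M' (B M' a) := congrArg Prod.snd h
      have h6 := hB M hM.2.2.1
      have h7 := hB M' hM'.2.2.1
      rw [← h4] at h5 h7
      exact rk2_inj M M' hM.2.1 hM'.2.1 (B M) h6 h7 fun a => congrFun h5 a
  have h4 : (S.card : ℝ) ≤ ((((Fintype.piFinset fun _ : Fin r => (univ : Finset ν)) ×ˢ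
      (Fintype.piFinset fun _ : Fin r => R)).card : ℕ) : ℝ) := by exact_mod_cast h3
  refine h4.trans (le_of_eq ?_)
  rw [Finset.card_product, Fintype.card_piFinset_const, Fintype.card_piFinset_const,
    Finset.card_univ]
  push_cast
  ring

end Pool.H64.IR

end S_RK2

section S_COLS

/-! MODULE COLS (project MP_a758cf_pr, IR; overview: team-store H64_a758cf.md)
Weighted count of column blocks. C0 a subspace of F^L (given as the column space of P : L x L), Q : L x H matrix with rank [P Q] - rank P = a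
(fromCols P Q). Weight c1^(number of nonzero entries of Q), 0 < c1 < 1. Then
sum_Q ind(rank (fromCols P Q) = rank P + a) c1^nnz(Q) <= (card H)^a * ((1 + (q-1) c1)^(card L))^a * (q^(rank P + a))^(card H).
Proof: choose a columns h_1..h_a in H (injection Fin a -> H, at most (card H)^a) which together with the columns of P generate all columns; the entries of
these a columns are free with weight: sum over one column of c1^nnz = (1+(q-1)c1)^(card L); every other column lies in the span of dimension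
rank P + a, q^(rank P + a) choices each, weight <= 1. (Injectivity: Q is determined by the choice of columns, their entries, and the other columns.)
-/

set_option autoImplicit false

namespace Pool.H64.IR

open Finset Polynomial

/-- choice of generating columns -/
theorem cols_choice {F E H : Type} [Field F] [AddCommGroup E] [Module F E] [FiniteDimensional F E]
    (v : H → E) (a : ℕ) : ∀ (W0 : Submodule F E),
      Module.finrank F (W0 ⊔ Submodule.span F (Set.range v) : Submodule F E) = Module.finrank F W0 + a →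
      ∃ s : Fin a → H, Function.Injective s ∧ (∀ i, v (s i) ∉ W0) ∧
        ∀ h, v h ∈ W0 ⊔ Submodule.span F (Set.range (fun i => v (s i))) := by
  induction a with
  | zero =>
    intro W0 h0
    refine ⟨fun i => i.elim0, fun i => i.elim0, fun i => i.elim0, fun h => ?_⟩
    have h1 : W0 = W0 ⊔ Submodule.span F (Set.range v) :=
      Submodule.eq_of_le_of_finrank_le le_sup_left (by rw [h0, Nat.add_zero])
    have h2 : v h ∈ W0 := by
      rw [h1]
      exact (le_sup_right : _ ≤ W0 ⊔ Submodule.span F (Set.range v)) (Submodule.subset_span ⟨h, rfl⟩)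
    exact (le_sup_left : W0 ≤ _) h2
  | succ a ih =>
    intro W0 h0
    obtain ⟨h1, hh1⟩ : ∃ h, v h ∉ W0 := by
      by_contra hcon
      push Not at hcon
      have h2 : W0 ⊔ Submodule.span F (Set.range v) = W0 := by
        rw [sup_eq_left, Submodule.span_le]
        rintro _ ⟨h, rfl⟩
        exact hcon h
      rw [h2] at h0
      omega
    set W1 : Submodule F E := W0 ⊔ Submodule.span F {v h1} with hW1
    have hv1 : v h1 ∈ W1 := (le_sup_right : _ ≤ W1) (Submodule.mem_span_singleton_self _)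
    have hle : W0 ≤ W1 := le_sup_left
    have hlt : W0 < W1 := lt_of_le_of_ne hle (fun h => hh1 (h ▸ hv1))
    have hf1 : Module.finrank F W1 = Module.finrank F W0 + 1 := by
      have e1 := Submodule.finrank_lt_finrank_of_lt hlt
      have e2 : Module.finrank F W1 ≤ Module.finrank F W0 + 1 := by
        refine (Submodule.finrank_add_le_finrank_add_finrank _ _).trans ?_
        exact Nat.add_le_add_left (finrank_span_singleton (fun h => hh1 (by rw [h]; exact W0.zero_mem))).le _
      omega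
    have hsup : W1 ⊔ Submodule.span F (Set.range v) = W0 ⊔ Submodule.span F (Set.range v) := by
      rw [hW1, sup_assoc]
      congr 1
      rw [sup_eq_right, Submodule.span_le, Set.singleton_subset_iff]
      exact Submodule.subset_span ⟨h1, rfl⟩
    obtain ⟨s, hs1, hs2, hs3⟩ := ih W1 (by rw [hsup, h0, hf1]; ring)
    refine ⟨Fin.cons h1 s, ?_, ?_, ?_⟩
    · rw [Fin.cons_injective_iff]
      refine ⟨?_, hs1⟩
      rintro ⟨i, hi⟩
      exact hs2 i (hi ▸ hv1)
    · intro i
      refine Fin.cases ?_ (fun j => ?_) i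
      · simpa using hh1
      · simp only [Fin.cons_succ]
        exact fun h => hs2 j (hle h)
    · intro h
      refine (?_ : W1 ⊔ Submodule.span F (Set.range (fun i => v (s i))) ≤ _) (hs3 h)
      rw [hW1, sup_assoc]
      refine sup_le_sup_left ?_ _
      rw [sup_le_iff, Submodule.span_le, Submodule.span_le]
      constructor
      · rw [Set.singleton_subset_iff]
        exact Submodule.subset_span ⟨0, by simp⟩
      · rintro _ ⟨i, rfl⟩
        exact Submodule.subset_span ⟨i.succ, by simp⟩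

theorem cols_sum_ind {α : Type} [Fintype α] (P : α → Prop) :
    ∑ a, ind (P a) = (Nat.card {a // P a} : ℝ) := by
  classical
  unfold ind
  rw [Finset.sum_boole, Nat.card_eq_fintype_card, Fintype.card_subtype]

theorem cols_count_W {F : Type} [Field F] [Fintype F] {L H : Type} [Fintype L] [DecidableEq L]
    [Fintype H] [DecidableEq H] [DecidableEq F] (W : Submodule F (L → F)) :
    ∑ Q : Matrix L H F, ind (∀ h, Q.col h ∈ W) =
      ((Fintype.card F : ℝ) ^ (Module.finrank F W)) ^ Fintype.card H := by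
  classical
  have e : {Q : Matrix L H F // ∀ h, Q.col h ∈ W} ≃ (H → W) :=
    { toFun := fun Q h => ⟨Q.1.col h, Q.2 h⟩
      invFun := fun f => ⟨Matrix.of fun l h => (f h).1 l, fun h => (f h).2⟩
      left_inv := fun Q => rfl
      right_inv := fun f => rfl }
  rw [cols_sum_ind (fun Q : Matrix L H F => ∀ h, Q.col h ∈ W), Nat.card_congr e,
    Nat.card_fun, Module.natCard_eq_pow_finrank (K := F) (V := W), Nat.card_eq_fintype_card,
    Nat.card_eq_fintype_card]
  push_cast
  rfl

theorem cols_weight {F : Type} [Field F] [Fintype F] [DecidableEq F] {L : Type} [Fintype L] [DecidableEq L]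
    (c1 : ℝ) :
    ∑ v : L → F, c1 ^ (univ.filter fun l : L => v l ≠ 0).card =
      (1 + ((Fintype.card F : ℝ) - 1) * c1) ^ Fintype.card L := by
  have h1 : ∀ v : L → F, c1 ^ (univ.filter fun l : L => v l ≠ 0).card =
      ∏ l : L, (if v l ≠ 0 then c1 else 1) := by
    intro v
    rw [Finset.prod_ite, Finset.prod_const, Finset.prod_const_one, mul_one]
  simp only [h1]
  have h2 := (Finset.prod_univ_sum (fun _ : L => (univ : Finset F))
    (fun _ x => if x ≠ 0 then c1 else (1 : ℝ))).symm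
  rw [Fintype.piFinset_univ] at h2
  rw [h2, Finset.prod_const, Finset.card_univ]
  congr 1
  have h3 : ∀ x : F, (if x ≠ 0 then c1 else (1 : ℝ)) = c1 + (if x = 0 then 1 - c1 else 0) := by
    intro x
    by_cases hx : x = 0 <;> simp [hx]
  simp only [h3]
  rw [Finset.sum_add_distrib, Finset.sum_const, Finset.sum_ite_eq' univ (0 : F), Finset.card_univ]
  simp
  ring

theorem cols_count {F : Type} [Field F] [Fintype F] [DecidableEq F] {L H : Type} [Fintype L] [DecidableEq L] [Fintype H] [DecidableEq H]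
    (c1 : ℝ) (h0 : 0 < c1) (h1 : c1 < 1) (P : Matrix L L F) (a : ℕ) :
    (∑ Q : Matrix L H F, ind ((Matrix.fromCols P Q).rank = P.rank + a) *
        c1 ^ (univ.filter fun x : L × H => Q x.1 x.2 ≠ 0).card) ≤
      (Fintype.card H : ℝ) ^ a * ((1 + ((Fintype.card F : ℝ) - 1) * c1) ^ Fintype.card L) ^ a *
        ((Fintype.card F : ℝ) ^ (P.rank + a)) ^ Fintype.card H := by
  classical
  set W0 : Submodule F (L → F) := Submodule.span F (Set.range P.col) with hW0
  have hP : P.rank = Module.finrank F W0 := P.rank_eq_finrank_span_cols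
  have hPQ : ∀ Q : Matrix L H F, (Matrix.fromCols P Q).rank =
      Module.finrank F (W0 ⊔ Submodule.span F (Set.range Q.col) : Submodule F (L → F)) := by
    intro Q
    rw [Matrix.rank_eq_finrank_span_cols]
    have : Set.range (Matrix.fromCols P Q).col = Set.range P.col ∪ Set.range Q.col := by
      ext v
      constructor
      · rintro ⟨(i | i), rfl⟩
        · left; exact ⟨i, rfl⟩
        · right; exact ⟨i, rfl⟩
      · rintro (⟨i, rfl⟩ | ⟨i, rfl⟩)
        · exact ⟨Sum.inl i, rfl⟩
        · exact ⟨Sum.inr i, rfl⟩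
    rw [this, Submodule.span_union]
  set W : (Fin a → L → F) → Submodule F (L → F) := fun U => W0 ⊔ Submodule.span F (Set.range U) with hW
  have hWr : ∀ U, Module.finrank F (W U) ≤ P.rank + a := by
    intro U
    rw [hP]
    refine (Submodule.finrank_add_le_finrank_add_finrank _ _).trans (Nat.add_le_add_left ?_ _)
    have := finrank_range_le_card (R := F) U
    rw [Fintype.card_fin] at this
    exact this
  set wt1 : (L → F) → ℝ := fun v => c1 ^ (univ.filter fun l : L => v l ≠ 0).card with hwt1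
  have hwt0 : ∀ v, 0 ≤ wt1 v := fun v => by positivity
  -- the main pointwise estimate
  have key : ∀ Q : Matrix L H F, ind ((Matrix.fromCols P Q).rank = P.rank + a) *
        c1 ^ (univ.filter fun x : L × H => Q x.1 x.2 ≠ 0).card ≤
      ∑ U : Fin a → L → F, ind (∀ h, Q.col h ∈ W U) * ∏ i, wt1 (U i) := by
    intro Q
    have hnn : ∀ U : Fin a → L → F, 0 ≤ ind (∀ h, Q.col h ∈ W U) * ∏ i, wt1 (U i) :=
      fun U => mul_nonneg (ind_nonneg _) (Finset.prod_nonneg (fun i _ => hwt0 _))
    by_cases h : (Matrix.fromCols P Q).rank = P.rank + a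
    · rw [ind_true h, one_mul]
      rw [hPQ, hP] at h
      obtain ⟨s, hs1, -, hs3⟩ := cols_choice Q.col a W0 h
      refine le_trans ?_ (Finset.single_le_sum (fun U _ => hnn U)
        (Finset.mem_univ (fun i => Q.col (s i))))
      rw [ind_true (fun h => hs3 h), one_mul]
      simp only [hwt1]
      rw [Finset.prod_pow_eq_pow_sum]
      refine pow_le_pow_of_le_one h0.le h1.le ?_
      have e1 : ∑ i, (univ.filter fun l : L => Q.col (s i) l ≠ 0).card =
          ((univ : Finset (Fin a)).biUnion (fun i => (univ.filter fun l : L => Q.col (s i) l ≠ 0).image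
            (fun l => (l, s i)))).card := by
        rw [Finset.card_biUnion]
        · refine Finset.sum_congr rfl (fun i _ => ?_)
          rw [Finset.card_image_of_injective]
          intro l l' hll
          exact (Prod.mk.inj hll).1
        · intro i _ j _ hij
          refine Finset.disjoint_left.2 ?_
          intro x hx hx'
          rw [Finset.mem_image] at hx hx'
          obtain ⟨l, _, rfl⟩ := hx
          obtain ⟨l', _, hl'⟩ := hx'
          exact hij (hs1 (Prod.mk.inj hl').2.symm)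
      rw [e1]
      refine Finset.card_le_card ?_
      intro x hx
      rw [Finset.mem_biUnion] at hx
      obtain ⟨i, _, hi⟩ := hx
      rw [Finset.mem_image] at hi
      obtain ⟨l, hl, rfl⟩ := hi
      rw [Finset.mem_filter] at hl ⊢
      exact ⟨Finset.mem_univ _, hl.2⟩
    · rw [ind_false h, zero_mul]
      exact Finset.sum_nonneg (fun U _ => hnn U)
  have hq1 : (1 : ℝ) ≤ Fintype.card F := by
    exact_mod_cast Fintype.card_pos
  have hX : (0 : ℝ) ≤ 1 + ((Fintype.card F : ℝ) - 1) * c1 := by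
    have : 0 ≤ ((Fintype.card F : ℝ) - 1) * c1 := mul_nonneg (by linarith) h0.le
    linarith
  have main : (∑ Q : Matrix L H F, ind ((Matrix.fromCols P Q).rank = P.rank + a) *
        c1 ^ (univ.filter fun x : L × H => Q x.1 x.2 ≠ 0).card) ≤
      ((1 + ((Fintype.card F : ℝ) - 1) * c1) ^ Fintype.card L) ^ a *
        ((Fintype.card F : ℝ) ^ (P.rank + a)) ^ Fintype.card H := by
    refine (Finset.sum_le_sum (fun Q _ => key Q)).trans ?_
    rw [Finset.sum_comm]
    have e2 : ∀ U : Fin a → L → F, ∑ Q : Matrix L H F, ind (∀ h, Q.col h ∈ W U) * ∏ i, wt1 (U i) ≤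
        (∏ i, wt1 (U i)) * ((Fintype.card F : ℝ) ^ (P.rank + a)) ^ Fintype.card H := by
      intro U
      rw [← Finset.sum_mul, cols_count_W, mul_comm]
      refine mul_le_mul_of_nonneg_left ?_ (Finset.prod_nonneg (fun i _ => hwt0 _))
      exact pow_le_pow_left₀ (by positivity) (pow_le_pow_right₀ hq1 (hWr U)) _
    refine (Finset.sum_le_sum (fun U _ => e2 U)).trans ?_
    rw [← Finset.sum_mul, ← cols_weight (F := F) (L := L) c1, Fintype.sum_pow]
  rcases Nat.eq_zero_or_pos (Fintype.card H) with hH | hH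
  · rcases Nat.eq_zero_or_pos a with ha | ha
    · subst ha
      simpa using main
    · -- no columns: the left side vanishes
      have hE : IsEmpty H := Fintype.card_eq_zero_iff.1 hH
      have : ∀ Q : Matrix L H F, ind ((Matrix.fromCols P Q).rank = P.rank + a) *
        c1 ^ (univ.filter fun x : L × H => Q x.1 x.2 ≠ 0).card = 0 := by
        intro Q
        rw [ind_false, zero_mul]
        rw [hPQ, hP, Set.range_eq_empty, Submodule.span_empty, sup_bot_eq]
        omega
      rw [Finset.sum_congr rfl (fun Q _ => this Q), Finset.sum_const_zero]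
      positivity
  · refine main.trans ?_
    rw [mul_assoc]
    refine le_mul_of_one_le_left (by positivity) ?_
    exact one_le_pow₀ (by exact_mod_cast hH)

end Pool.H64.IR

end S_COLS

section S_LGT

/-! MODULE LGT (project MP_a758cf_pr, IR; overview: team-store H64_a758cf.md)
Light vectors: for every e > 0 there are d > 0 and n0 such that for n >= n0 the number of vectors in F^n (q = card F) with at most d n + 1 nonzero entries
is at most exp(e n). Also: the number of subsets of Fin n of size <= d n is at most exp(e n).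
Proof: count <= sum_{j <= dn+1} binom(n,j) q^j <= (x-trick) for 0<x<=1: sum_{j<=m} binom(n,j) q^j <= x^(-m) (1+x q)^n <= exp(m log(1/x) + x q n); choose
x with x q <= e/4, then d with d log(1/x) <= e/4 and n0 with log(1/x) <= (e/4) n0.
-/

set_option autoImplicit false

namespace Pool.H64.IR

open Finset Polynomial

private lemma lgt_s (q e : ℝ) (hq : 0 ≤ q) (he : 0 < e) : ∃ s : ℝ, 0 < s ∧ q * Real.exp (-s) ≤ e / 4 := by
  refine ⟨max 1 (4 * q / e), lt_of_lt_of_le one_pos (le_max_left _ _), ?_⟩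
  set s : ℝ := max 1 (4 * q / e) with hs
  have h1 : s + 1 ≤ Real.exp s := Real.add_one_le_exp s
  have h2 : 4 * q / e ≤ s := le_max_right _ _
  rw [div_le_iff₀ he] at h2
  rw [Real.exp_neg, ← div_eq_mul_inv, div_le_iff₀ (Real.exp_pos s)]
  nlinarith

private lemma lgt_ind (w m s : ℝ) (hs : 0 < s) : ind (w ≤ m) ≤ Real.exp (s * m) * Real.exp (-s * w) := by
  rw [← Real.exp_add]
  by_cases h : w ≤ m
  · rw [ind_true h]
    refine Real.one_le_exp ?_
    nlinarith
  · rw [ind_false h]
    exact (Real.exp_pos _).le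

private lemma lgt_pow (x : ℝ) (hx : 0 ≤ x) (N n : ℕ) (hN : N ≤ n) : (1 + x) ^ N ≤ Real.exp (x * n) := by
  have h1 : 1 + x ≤ Real.exp x := by
    have := Real.add_one_le_exp x
    linarith
  calc (1 + x) ^ N ≤ (Real.exp x) ^ N := pow_le_pow_left₀ (by linarith) h1 N
    _ = Real.exp (x * N) := by rw [← Real.exp_nat_mul, mul_comm]
    _ ≤ Real.exp (x * n) := by
      refine Real.exp_le_exp.2 ?_
      have : (N : ℝ) ≤ n := by exact_mod_cast hN
      nlinarith

theorem lgt_vec (F : Type) [Field F] [Fintype F] [DecidableEq F] (e : ℝ) (he : 0 < e) :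
    ∃ d : ℝ, 0 < d ∧ ∃ n0 : ℕ, ∀ n : ℕ, n0 ≤ n → ∀ (ν : Type) [Fintype ν] [DecidableEq ν], Fintype.card ν ≤ n →
      (∑ v : ν → F, ind (((univ.filter fun i => v i ≠ 0).card : ℝ) ≤ d * n + 1)) ≤ Real.exp (e * n) := by
  classical
  obtain ⟨s, hs, hse⟩ := lgt_s (Fintype.card F) e (Nat.cast_nonneg _) he
  obtain ⟨n0, hn0⟩ := exists_nat_ge (4 * s / e)
  rw [div_le_iff₀ he] at hn0
  refine ⟨e / (4 * s), by positivity, n0, ?_⟩
  intro n hn ν _ _ hν
  set m : ℝ := e / (4 * s) * n + 1 with hm
  have h1 : (∑ v : ν → F, ind (((univ.filter fun i => v i ≠ 0).card : ℝ) ≤ m)) ≤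
      ∑ v : ν → F, Real.exp (s * m) * ∏ i, (if v i ≠ 0 then Real.exp (-s) else 1) := by
    refine Finset.sum_le_sum fun v _ => ?_
    refine (lgt_ind _ m s hs).trans (le_of_eq ?_)
    congr 1
    rw [Finset.prod_ite, Finset.prod_const, Finset.prod_const, one_pow, mul_one, ← Real.exp_nat_mul,
      mul_comm]
  refine h1.trans ?_
  rw [← Finset.mul_sum]
  have h2 : ∑ v : ν → F, ∏ i, (if v i ≠ 0 then Real.exp (-s) else 1) =
      (∑ y : F, (if y ≠ 0 then Real.exp (-s) else 1)) ^ Fintype.card ν := by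
    rw [← Finset.card_univ, ← Finset.prod_const, Finset.prod_univ_sum, Fintype.piFinset_univ]
  have h3 : ∑ y : F, (if y ≠ 0 then Real.exp (-s) else 1) ≤ 1 + Fintype.card F * Real.exp (-s) := by
    have h4 : ∀ y : F, (if y ≠ 0 then Real.exp (-s) else 1) ≤ Real.exp (-s) + if y = 0 then 1 else 0 := by
      intro y
      have := (Real.exp_pos (-s)).le
      by_cases hy : y = 0
      · rw [if_neg (by simpa using hy), if_pos hy]; linarith
      · rw [if_pos hy, if_neg hy]; linarith
    refine (Finset.sum_le_sum fun y _ => h4 y).trans (le_of_eq ?_)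
    rw [Finset.sum_add_distrib, Finset.sum_const, Finset.card_univ, nsmul_eq_mul,
      Finset.sum_ite_eq' univ (0 : F), if_pos (Finset.mem_univ _)]
    ring
  have h5 : (∑ y : F, (if y ≠ 0 then Real.exp (-s) else 1)) ^ Fintype.card ν ≤
      Real.exp (Fintype.card F * Real.exp (-s) * n) := by
    refine (pow_le_pow_left₀ ?_ h3 _).trans ?_
    · refine Finset.sum_nonneg fun y _ => ?_
      split_ifs
      · exact (Real.exp_pos _).le
      · exact zero_le_one
    · exact lgt_pow _ (by positivity) _ _ hν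
  rw [h2]
  refine (mul_le_mul_of_nonneg_left h5 (Real.exp_pos _).le).trans ?_
  rw [← Real.exp_add]
  refine Real.exp_le_exp.2 ?_
  have hn' : (n0 : ℝ) ≤ n := by exact_mod_cast hn
  have h6 : s * m = e / 4 * n + s := by
    rw [hm]
    field_simp
  rw [h6]
  have hn0' : (0 : ℝ) ≤ n := Nat.cast_nonneg n
  have h7 : (Fintype.card F : ℝ) * Real.exp (-s) * n ≤ e / 4 * n :=
    mul_le_mul_of_nonneg_right hse hn0'
  nlinarith

theorem lgt_set (e : ℝ) (he : 0 < e) :
    ∃ d : ℝ, 0 < d ∧ ∃ n0 : ℕ, ∀ n : ℕ, n0 ≤ n →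
      (∑ s : Finset (Fin n), ind ((s.card : ℝ) ≤ d * n)) ≤ Real.exp (e * n) := by
  classical
  obtain ⟨t, ht, hte⟩ := lgt_s 1 e zero_le_one he
  refine ⟨e / (4 * t), by positivity, 0, ?_⟩
  intro n _
  have h1 : (∑ s : Finset (Fin n), ind ((s.card : ℝ) ≤ e / (4 * t) * n)) ≤
      ∑ s : Finset (Fin n), Real.exp (t * (e / (4 * t) * n)) * ∏ i ∈ s, Real.exp (-t) := by
    refine Finset.sum_le_sum fun s _ => ?_
    refine (lgt_ind _ _ t ht).trans (le_of_eq ?_)
    congr 1
    rw [Finset.prod_const, ← Real.exp_nat_mul, mul_comm]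
  refine h1.trans ?_
  rw [← Finset.mul_sum]
  have h2 : ∑ s : Finset (Fin n), ∏ i ∈ s, Real.exp (-t) = (1 + Real.exp (-t)) ^ n := by
    have h3 := Finset.prod_one_add (s := (univ : Finset (Fin n))) (f := fun _ => Real.exp (-t))
    rw [Finset.prod_const, Finset.card_univ, Fintype.card_fin, Finset.powerset_univ] at h3
    exact h3.symm
  rw [h2]
  refine (mul_le_mul_of_nonneg_left (lgt_pow _ (Real.exp_pos _).le n n le_rfl) (Real.exp_pos _).le).trans ?_
  rw [← Real.exp_add]
  refine Real.exp_le_exp.2 ?_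
  have h6 : t * (e / (4 * t) * n) = e / 4 * n := by
    field_simp
  rw [h6]
  have hn0' : (0 : ℝ) ≤ n := Nat.cast_nonneg n
  rw [one_mul] at hte
  have h7 : Real.exp (-t) * n ≤ e / 4 * n := mul_le_mul_of_nonneg_right hte hn0'
  nlinarith

end Pool.H64.IR

end S_LGT

section S_SG5

/-! MODULE SG5 (project MP_a758cf_pr, IR; overview: team-store H64_a758cf.md)
Case (b) of the low-rank sum for a fixed set H of rows (complement L = {i // i notin H}), d real, all rows i in L are light: at most d n nonzero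
off-diagonal entries (so at most d n + 1 nonzero entries). g = number of light vectors, any real bound g >= 1 for the number of vectors in F^L with
at most d n + 1 nonzero entries. kp = 1 + (q-1) c1 (>= 1). Let h = card H.
Claim: sum over symmetric M of rank r, light outside H, of c1^(wt M) <= (r+1)^3 (n^r g^r) n^r kp^(n r/2) q^(r h) (n^r q^(r h)), written with
kp^(n * r / 2) as a real power.
Proof: M <-> (P,Q,S) = (M_LL, M_LH, M_HH), S symmetric (block decomposition). c1^(wt M) <= c1^(nnz Q) because the L x H entries are distinct unordered pairs. Let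
r2 = rank P, a = rank(fromCols P Q) - r2, so r2 + 2a <= r by rk1. P: at most n^r2 g^r2 (rk2 with ν = L, R = light vectors). Q: cols_count
<= n^a (kp^(card L))^a (q^(r2+a))^h <= n^r kp^(n r/2) q^(r h). S: rank S <= r (submatrix), symmetric; number <= sum_{r' <= r} n^r' (q^h)^r' <=
(r+1) n^r q^(r h) (rk2 with R = all). Number of pairs (r2,a) is at most (r+1)^2. All bounds are monotone (n >= 1 since r >= 1).
-/

set_option autoImplicit false
set_option linter.unusedSectionVars false

namespace Pool.H64.IR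

open Finset Polynomial

section sg5aux

variable {F : Type} [Field F] [Fintype F] [DecidableEq F]

/-- the rank of a submatrix (arbitrary row and column maps) is at most the rank -/
theorem sg5_rank_sub {m n m' n' : Type} [Fintype m] [Fintype n] [Fintype m'] [Fintype n']
    [DecidableEq m] [DecidableEq n] (A : Matrix m n F) (f : m' → m) (g : n' → n) :
    (A.submatrix f g).rank ≤ A.rank := by
  have h : A.submatrix f g =
      (1 : Matrix m m F).submatrix f id * A * (1 : Matrix n n F).submatrix id g := by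
    ext i j
    simp [Matrix.mul_apply, Matrix.submatrix_apply, Matrix.one_apply]
  rw [h]
  exact (Matrix.rank_mul_le_left _ _).trans (Matrix.rank_mul_le_right _ _)

variable {n : ℕ} (H : Finset (Fin n))

/-- the blocks -/
def sg5P (M : Matrix (Fin n) (Fin n) F) : Matrix {i : Fin n // i ∉ H} {i : Fin n // i ∉ H} F :=
  M.submatrix (fun i => i.1) (fun i => i.1)

def sg5Q (M : Matrix (Fin n) (Fin n) F) : Matrix {i : Fin n // i ∉ H} {i : Fin n // i ∈ H} F :=
  M.submatrix (fun i => i.1) (fun i => i.1)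

def sg5S (M : Matrix (Fin n) (Fin n) F) : Matrix {i : Fin n // i ∈ H} {i : Fin n // i ∈ H} F :=
  M.submatrix (fun i => i.1) (fun i => i.1)

theorem sg5_inj {M N : Matrix (Fin n) (Fin n) F} (hM : M.IsSymm) (hN : N.IsSymm)
    (hP : sg5P H M = sg5P H N) (hQ : sg5Q H M = sg5Q H N) (hS : sg5S H M = sg5S H N) : M = N := by
  ext i j
  by_cases hi : i ∈ H
  · by_cases hj : j ∈ H
    · exact congrFun (congrFun hS ⟨i, hi⟩) ⟨j, hj⟩
    · rw [← hM.apply i j, ← hN.apply i j]
      exact congrFun (congrFun hQ ⟨j, hj⟩) ⟨i, hi⟩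
  · by_cases hj : j ∈ H
    · exact congrFun (congrFun hQ ⟨i, hi⟩) ⟨j, hj⟩
    · exact congrFun (congrFun hP ⟨i, hi⟩) ⟨j, hj⟩

/-- the number of nonzero entries of `Q` is at most `wt M` -/
theorem sg5_wt {M : Matrix (Fin n) (Fin n) F} (hM : M.IsSymm) :
    (univ.filter fun x : {i : Fin n // i ∉ H} × {i : Fin n // i ∈ H} => sg5Q H M x.1 x.2 ≠ 0).card ≤
      wt M := by
  unfold wt
  have hne : ∀ x : {i : Fin n // i ∉ H} × {i : Fin n // i ∈ H}, x.1.1 ≠ x.2.1 := by
    intro x h
    exact x.1.2 (h ▸ x.2.2)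
  let φ : {i : Fin n // i ∉ H} × {i : Fin n // i ∈ H} → Edge n := fun x =>
    if h : x.1.1 < x.2.1 then ⟨(x.1.1, x.2.1), h⟩
    else ⟨(x.2.1, x.1.1), lt_of_le_of_ne (not_lt.1 h) (hne x).symm⟩
  refine Finset.card_le_card_of_injOn φ ?_ ?_
  · intro x hx
    rw [Finset.mem_coe, Finset.mem_filter] at hx
    rw [Finset.mem_coe, Finset.mem_filter]
    refine ⟨mem_univ _, ?_⟩
    have hx' : M x.1.1 x.2.1 ≠ 0 := hx.2
    by_cases h : x.1.1 < x.2.1
    · simp only [φ, dif_pos h]
      exact hx'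
    · simp only [φ, dif_neg h]
      rw [hM.apply]
      exact hx'
  · intro x hx y hy hxy
    by_cases h : x.1.1 < x.2.1
    · by_cases h' : y.1.1 < y.2.1
      · simp only [φ, dif_pos h, dif_pos h', Subtype.mk.injEq, Prod.mk.injEq] at hxy
        exact Prod.ext (Subtype.ext hxy.1) (Subtype.ext hxy.2)
      · simp only [φ, dif_pos h, dif_neg h', Subtype.mk.injEq, Prod.mk.injEq] at hxy
        exact absurd (hxy.1 ▸ y.2.2) x.1.2
    · by_cases h' : y.1.1 < y.2.1
      · simp only [φ, dif_neg h, dif_pos h', Subtype.mk.injEq, Prod.mk.injEq] at hxy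
        exact absurd (hxy.1 ▸ x.2.2) y.1.2
      · simp only [φ, dif_neg h, dif_neg h', Subtype.mk.injEq, Prod.mk.injEq] at hxy
        exact Prod.ext (Subtype.ext hxy.2) (Subtype.ext hxy.1)

/-- the block rank inequality -/
theorem sg5_rank {M : Matrix (Fin n) (Fin n) F} (hM : M.IsSymm) :
    2 * (Matrix.fromCols (sg5P H M) (sg5Q H M)).rank ≤ M.rank + (sg5P H M).rank := by
  have h1 := rk1 M hM (fun i => i ∉ H)
  have h2 : (Matrix.fromCols (sg5P H M) (sg5Q H M)).rank ≤
      (M.submatrix (fun i : {i // i ∉ H} => i.1) id).rank := by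
    have h3 : Matrix.fromCols (sg5P H M) (sg5Q H M) =
        (M.submatrix (fun i : {i // i ∉ H} => i.1) id).submatrix id
          (Sum.elim (fun i : {i // i ∉ H} => i.1) (fun i : {i // i ∈ H} => i.1)) := by
      ext i j
      rcases j with j | j <;> rfl
    rw [h3]
    exact sg5_rank_sub _ _ _
  have h4 : (sg5P H M).rank =
      (M.submatrix (fun i : {i // i ∉ H} => i.1) (fun i : {i // i ∉ H} => i.1)).rank := rfl
  rw [h4]
  refine le_trans (Nat.mul_le_mul_left 2 h2) h1

theorem sg5_rankP {M : Matrix (Fin n) (Fin n) F} :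
    (sg5P H M).rank ≤ (Matrix.fromCols (sg5P H M) (sg5Q H M)).rank := by
  have h3 : sg5P H M = (Matrix.fromCols (sg5P H M) (sg5Q H M)).submatrix id Sum.inl := by
    ext i j
    rfl
  conv_lhs => rw [h3]
  exact sg5_rank_sub _ _ _

/-- the light vectors -/
noncomputable def sg5R (d : ℝ) : Finset ({i : Fin n // i ∉ H} → F) :=
  univ.filter fun v => ((univ.filter fun i => v i ≠ 0).card : ℝ) ≤ d * n + 1

theorem sg5_light {M : Matrix (Fin n) (Fin n) F} (d : ℝ)
    (h : ∀ i, i ∉ H → ((univ.filter fun j => j ≠ i ∧ M i j ≠ 0).card : ℝ) ≤ d * n)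
    (i : {i : Fin n // i ∉ H}) : sg5P H M i ∈ sg5R (F := F) H d := by
  unfold sg5R
  rw [Finset.mem_filter]
  refine ⟨mem_univ _, ?_⟩
  have h1 := h i.1 i.2
  have h2 : (univ.filter fun j : {i : Fin n // i ∉ H} => sg5P H M i j ≠ 0).card ≤
      (univ.filter fun j => j ≠ i.1 ∧ M i.1 j ≠ 0).card + 1 := by
    have h3 : ((univ.filter fun j : {i : Fin n // i ∉ H} => sg5P H M i j ≠ 0).map
        (Function.Embedding.subtype _)) ⊆
        insert i.1 (univ.filter fun j => j ≠ i.1 ∧ M i.1 j ≠ 0) := by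
      intro j hj
      rw [Finset.mem_map] at hj
      obtain ⟨k, hk, rfl⟩ := hj
      rw [Finset.mem_filter] at hk
      rw [Finset.mem_insert, Finset.mem_filter]
      by_cases hki : k.1 = i.1
      · left
        exact hki
      · right
        exact ⟨mem_univ _, hki, hk.2⟩
    have h4 := Finset.card_le_card h3
    rw [Finset.card_map] at h4
    exact h4.trans (Finset.card_insert_le _ _)
  have h5 : ((univ.filter fun j : {i : Fin n // i ∉ H} => sg5P H M i j ≠ 0).card : ℝ) ≤
      ((univ.filter fun j => j ≠ i.1 ∧ M i.1 j ≠ 0).card : ℝ) + 1 := by exact_mod_cast h2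
  linarith

/-- the three factors -/
noncomputable def sg5FP (d : ℝ) (r2 : ℕ)
    (P : Matrix {i : Fin n // i ∉ H} {i : Fin n // i ∉ H} F) : ℝ :=
  ind (P.IsSymm ∧ P.rank = r2 ∧ ∀ i, P i ∈ sg5R (F := F) H d)

noncomputable def sg5FQ (c1 : ℝ) (a : ℕ)
    (P : Matrix {i : Fin n // i ∉ H} {i : Fin n // i ∉ H} F)
    (Q : Matrix {i : Fin n // i ∉ H} {i : Fin n // i ∈ H} F) : ℝ :=
  ind ((Matrix.fromCols P Q).rank = P.rank + a) *
    c1 ^ (univ.filter fun x : {i : Fin n // i ∉ H} × {i : Fin n // i ∈ H} => Q x.1 x.2 ≠ 0).card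

noncomputable def sg5FS (r : ℕ) (S : Matrix {i : Fin n // i ∈ H} {i : Fin n // i ∈ H} F) : ℝ :=
  ∑ r' ∈ range (r + 1), ind (S.IsSymm ∧ S.rank = r' ∧ ∀ i, S i ∈ (univ : Finset _))

noncomputable def sg5G (c1 d : ℝ) (r : ℕ)
    (t : Matrix {i : Fin n // i ∉ H} {i : Fin n // i ∉ H} F ×
      Matrix {i : Fin n // i ∉ H} {i : Fin n // i ∈ H} F ×
      Matrix {i : Fin n // i ∈ H} {i : Fin n // i ∈ H} F) : ℝ :=
  ∑ x ∈ (range (r + 1) ×ˢ range (r + 1)).filter (fun x => x.1 + 2 * x.2 ≤ r),
    sg5FP H d x.1 t.1 * (sg5FQ H c1 x.2 t.1 t.2.1 * sg5FS H r t.2.2)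

theorem sg5_FS_nonneg (r : ℕ) (S : Matrix {i : Fin n // i ∈ H} {i : Fin n // i ∈ H} F) :
    0 ≤ sg5FS H r S := Finset.sum_nonneg fun _ _ => ind_nonneg _

theorem sg5_FQ_nonneg (c1 : ℝ) (h0 : 0 < c1) (a : ℕ)
    (P : Matrix {i : Fin n // i ∉ H} {i : Fin n // i ∉ H} F)
    (Q : Matrix {i : Fin n // i ∉ H} {i : Fin n // i ∈ H} F) : 0 ≤ sg5FQ H c1 a P Q :=
  mul_nonneg (ind_nonneg _) (pow_nonneg h0.le _)

theorem sg5_G_nonneg (c1 d : ℝ) (h0 : 0 < c1) (r : ℕ) (t) : 0 ≤ sg5G (F := F) H c1 d r t :=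
  Finset.sum_nonneg fun _ _ => mul_nonneg (ind_nonneg _)
    (mul_nonneg (sg5_FQ_nonneg H c1 h0 _ _ _) (sg5_FS_nonneg H _ _))

/-- pointwise bound -/
theorem sg5_point (c1 d : ℝ) (h0 : 0 < c1) (h1 : c1 < 1) (r : ℕ)
    {M : Matrix (Fin n) (Fin n) F} (hM : M.IsSymm) (hr : M.rank = r)
    (h : ∀ i, i ∉ H → ((univ.filter fun j => j ≠ i ∧ M i j ≠ 0).card : ℝ) ≤ d * n) :
    c1 ^ wt M ≤ sg5G H c1 d r (sg5P H M, sg5Q H M, sg5S H M) := by
  have hrk := sg5_rank H hM
  have hrP := sg5_rankP (F := F) H (M := M)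
  rw [hr] at hrk
  obtain ⟨a, ha⟩ : ∃ a, (Matrix.fromCols (sg5P H M) (sg5Q H M)).rank = (sg5P H M).rank + a :=
    ⟨_, (Nat.add_sub_of_le hrP).symm⟩
  have hra : (sg5P H M).rank + 2 * a ≤ r := by omega
  have hmem : ((sg5P H M).rank, a) ∈
      (range (r + 1) ×ˢ range (r + 1)).filter (fun x => x.1 + 2 * x.2 ≤ r) := by
    rw [Finset.mem_filter, Finset.mem_product, Finset.mem_range, Finset.mem_range]
    refine ⟨⟨?_, ?_⟩, hra⟩
    · show (sg5P H M).rank < r + 1
      omega
    · show a < r + 1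
      omega
  unfold sg5G
  refine le_trans ?_ (Finset.single_le_sum (f := fun x : ℕ × ℕ =>
    sg5FP H d x.1 (sg5P H M) * (sg5FQ H c1 x.2 (sg5P H M) (sg5Q H M) * sg5FS H r (sg5S H M)))
    (fun _ _ => mul_nonneg (ind_nonneg _)
    (mul_nonneg (sg5_FQ_nonneg H c1 h0 _ _ _) (sg5_FS_nonneg H _ _))) hmem)
  have hFP : sg5FP H d (sg5P H M).rank (sg5P H M) = 1 := by
    refine ind_true ⟨?_, rfl, fun i => sg5_light H d h i⟩
    ext i j
    exact hM.apply _ _
  have hFS : 1 ≤ sg5FS H r (sg5S H M) := by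
    unfold sg5FS
    have hSr : (sg5S H M).rank ≤ r := by
      rw [← hr]
      exact sg5_rank_sub _ _ _
    have hmem' : (sg5S H M).rank ∈ range (r + 1) := Finset.mem_range.2 (by omega)
    refine le_trans ?_ (Finset.single_le_sum (f := fun r' =>
      ind ((sg5S H M).IsSymm ∧ (sg5S H M).rank = r' ∧ ∀ i, sg5S H M i ∈ (univ : Finset _)))
      (fun _ _ => ind_nonneg _) hmem')
    refine le_of_eq (ind_true ⟨?_, rfl, fun i => mem_univ _⟩).symm
    ext i j
    exact hM.apply _ _
  have hFQ : c1 ^ wt M ≤ sg5FQ H c1 a (sg5P H M) (sg5Q H M) := by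
    unfold sg5FQ
    rw [ind_true ha, one_mul]
    exact pow_le_pow_of_le_one h0.le h1.le (sg5_wt H hM)
  show c1 ^ wt M ≤ sg5FP H d (sg5P H M).rank (sg5P H M) *
    (sg5FQ H c1 a (sg5P H M) (sg5Q H M) * sg5FS H r (sg5S H M))
  rw [hFP, one_mul]
  calc c1 ^ wt M ≤ sg5FQ H c1 a (sg5P H M) (sg5Q H M) := hFQ
    _ = sg5FQ H c1 a (sg5P H M) (sg5Q H M) * 1 := (mul_one _).symm
    _ ≤ _ := mul_le_mul_of_nonneg_left hFS (sg5_FQ_nonneg H c1 h0 _ _ _)

/-- from matrices to triples of blocks -/
theorem sg5_sum (c1 d : ℝ) (h0 : 0 < c1) (h1 : c1 < 1) (r : ℕ) :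
    (∑ M : Matrix (Fin n) (Fin n) F, ind (M.IsSymm ∧ M.rank = r ∧
        ∀ i, i ∉ H → ((univ.filter fun j => j ≠ i ∧ M i j ≠ 0).card : ℝ) ≤ d * n) * c1 ^ wt M) ≤
      ∑ t, sg5G (F := F) H c1 d r t := by
  classical
  let cond : Matrix (Fin n) (Fin n) F → Prop := fun M => M.IsSymm ∧ M.rank = r ∧
        ∀ i, i ∉ H → ((univ.filter fun j => j ≠ i ∧ M i j ≠ 0).card : ℝ) ≤ d * n
  let Φ : Matrix (Fin n) (Fin n) F → Matrix {i : Fin n // i ∉ H} {i : Fin n // i ∉ H} F ×
      Matrix {i : Fin n // i ∉ H} {i : Fin n // i ∈ H} F ×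
      Matrix {i : Fin n // i ∈ H} {i : Fin n // i ∈ H} F := fun M => (sg5P H M, sg5Q H M, sg5S H M)
  have hΦ : Set.InjOn Φ (univ.filter cond : Finset (Matrix (Fin n) (Fin n) F)) := by
    intro M hM N hN hMN
    rw [Finset.mem_coe, Finset.mem_filter] at hM hN
    have e1 : sg5P H M = sg5P H N := congrArg Prod.fst hMN
    have e2 : sg5Q H M = sg5Q H N := congrArg (fun t => t.2.1) hMN
    have e3 : sg5S H M = sg5S H N := congrArg (fun t => t.2.2) hMN
    exact sg5_inj H hM.2.1 hN.2.1 e1 e2 e3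
  calc (∑ M : Matrix (Fin n) (Fin n) F, ind (cond M) * c1 ^ wt M)
      = ∑ M ∈ univ.filter cond, c1 ^ wt M := by
        rw [Finset.sum_filter]
        refine Finset.sum_congr rfl fun M _ => ?_
        by_cases hM : cond M
        · rw [ind_true hM, one_mul, if_pos hM]
        · rw [ind_false hM, zero_mul, if_neg hM]
    _ ≤ ∑ M ∈ univ.filter cond, sg5G H c1 d r (Φ M) := by
        refine Finset.sum_le_sum fun M hM => ?_
        rw [Finset.mem_filter] at hM
        exact sg5_point H c1 d h0 h1 r hM.2.1 hM.2.2.1 hM.2.2.2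
    _ = ∑ t ∈ (univ.filter cond).image Φ, sg5G H c1 d r t := (Finset.sum_image hΦ).symm
    _ ≤ ∑ t, sg5G (F := F) H c1 d r t :=
        Finset.sum_le_sum_of_subset_of_nonneg (Finset.subset_univ _)
          (fun t _ _ => sg5_G_nonneg H c1 d h0 r t)

/-- the sum over `P` -/
theorem sg5_sumP (d g : ℝ) (hg1 : 1 ≤ g) (hn : 1 ≤ n) (r r2 : ℕ) (hr2 : r2 ≤ r)
    (hg : ∑ v : {i : Fin n // i ∉ H} → F,
      ind (((univ.filter fun i => v i ≠ 0).card : ℝ) ≤ d * n + 1) ≤ g) :
    (∑ P : Matrix {i : Fin n // i ∉ H} {i : Fin n // i ∉ H} F, sg5FP H d r2 P) ≤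
      (n : ℝ) ^ r * g ^ r := by
  have h1 := rk2 (F := F) (ν := {i : Fin n // i ∉ H}) (sg5R H d) r2
  have hcard : ((Fintype.card {i : Fin n // i ∉ H} : ℕ) : ℝ) ≤ n := by
    have : Fintype.card {i : Fin n // i ∉ H} ≤ n := by
      have := Fintype.card_subtype_le (fun i : Fin n => i ∉ H)
      rwa [Fintype.card_fin] at this
    exact_mod_cast this
  have hR : ((sg5R (F := F) H d).card : ℝ) ≤ g := by
    refine le_trans (le_of_eq ?_) hg
    unfold sg5R ind
    classical
    rw [Finset.card_filter]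
    push_cast
    refine Finset.sum_congr rfl fun v _ => ?_
    split_ifs <;> rfl
  have hn' : (1 : ℝ) ≤ n := by exact_mod_cast hn
  refine h1.trans (mul_le_mul ?_ ?_ (pow_nonneg (Nat.cast_nonneg _) _)
    (pow_nonneg (by linarith) _))
  · exact (pow_le_pow_left₀ (Nat.cast_nonneg _) hcard _).trans (pow_le_pow_right₀ hn' hr2)
  · exact (pow_le_pow_left₀ (Nat.cast_nonneg _) hR _).trans (pow_le_pow_right₀ hg1 hr2)

/-- the sum over `S` -/
theorem sg5_sumS (hn : 1 ≤ n) (r : ℕ) :
    (∑ S : Matrix {i : Fin n // i ∈ H} {i : Fin n // i ∈ H} F, sg5FS H r S) ≤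
      ((r : ℝ) + 1) * ((n : ℝ) ^ r * (Fintype.card F : ℝ) ^ (r * H.card)) := by
  unfold sg5FS
  rw [Finset.sum_comm]
  have hn' : (1 : ℝ) ≤ n := by exact_mod_cast hn
  have hcH : Fintype.card {i : Fin n // i ∈ H} = H.card := Fintype.card_coe H
  have hHn : ((H.card : ℕ) : ℝ) ≤ n := by
    have := Finset.card_le_univ H
    rw [Fintype.card_fin] at this
    exact_mod_cast this
  have hF1 : (1 : ℝ) ≤ Fintype.card F := by
    exact_mod_cast Fintype.card_pos (α := F)
  have hterm : ∀ r' ∈ range (r + 1), (∑ S : Matrix {i : Fin n // i ∈ H} {i : Fin n // i ∈ H} F,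
      ind (S.IsSymm ∧ S.rank = r' ∧ ∀ i, S i ∈ (univ : Finset _))) ≤
      (n : ℝ) ^ r * (Fintype.card F : ℝ) ^ (r * H.card) := by
    intro r' hr'
    rw [Finset.mem_range] at hr'
    have h1 := rk2 (F := F) (ν := {i : Fin n // i ∈ H}) univ r'
    refine h1.trans ?_
    rw [Finset.card_univ, Fintype.card_fun, hcH]
    refine mul_le_mul ?_ ?_ (pow_nonneg (Nat.cast_nonneg _) _) (pow_nonneg (by linarith) _)
    · exact (pow_le_pow_left₀ (Nat.cast_nonneg _) hHn _).trans (pow_le_pow_right₀ hn' (by omega))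
    · push_cast
      rw [← pow_mul, mul_comm r H.card]
      exact pow_le_pow_right₀ hF1 (Nat.mul_le_mul_left _ (by omega))
  refine (Finset.sum_le_sum hterm).trans ?_
  rw [Finset.sum_const, Finset.card_range, nsmul_eq_mul]
  push_cast
  exact le_refl _

/-- the sum over `Q` -/
theorem sg5_sumQ (c1 : ℝ) (h0 : 0 < c1) (h1 : c1 < 1) (hn : 1 ≤ n) (r r2 a : ℕ)
    (hra : r2 + 2 * a ≤ r)
    (P : Matrix {i : Fin n // i ∉ H} {i : Fin n // i ∉ H} F) (hP : P.rank = r2) :
    (∑ Q : Matrix {i : Fin n // i ∉ H} {i : Fin n // i ∈ H} F, sg5FQ H c1 a P Q) ≤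
      (n : ℝ) ^ r * ((1 + ((Fintype.card F : ℝ) - 1) * c1) ^ ((n : ℝ) * r / 2)) *
        (Fintype.card F : ℝ) ^ (r * H.card) := by
  have h2 := cols_count (F := F) (L := {i : Fin n // i ∉ H}) (H := {i : Fin n // i ∈ H})
    c1 h0 h1 P a
  have hn' : (1 : ℝ) ≤ n := by exact_mod_cast hn
  have hcH : Fintype.card {i : Fin n // i ∈ H} = H.card := Fintype.card_coe H
  have hHn : ((H.card : ℕ) : ℝ) ≤ n := by
    have := Finset.card_le_univ H
    rw [Fintype.card_fin] at this
    exact_mod_cast this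
  have hcard : Fintype.card {i : Fin n // i ∉ H} ≤ n := by
    have := Fintype.card_subtype_le (fun i : Fin n => i ∉ H)
    rwa [Fintype.card_fin] at this
  have hF1 : (1 : ℝ) ≤ Fintype.card F := by
    exact_mod_cast Fintype.card_pos (α := F)
  have hk1 : 1 ≤ 1 + ((Fintype.card F : ℝ) - 1) * c1 := by
    have : 0 ≤ ((Fintype.card F : ℝ) - 1) * c1 := mul_nonneg (by linarith) h0.le
    linarith
  refine h2.trans ?_
  rw [hcH, hP]
  refine mul_le_mul (mul_le_mul ?_ ?_ ?_ ?_) ?_ ?_ ?_
  · exact (pow_le_pow_left₀ (Nat.cast_nonneg _) hHn _).trans (pow_le_pow_right₀ hn' (by omega))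
  · rw [← pow_mul, ← Real.rpow_natCast]
    refine Real.rpow_le_rpow_of_exponent_le hk1 ?_
    have h3 : ((Fintype.card {i : Fin n // i ∉ H} : ℕ) : ℝ) ≤ n := by exact_mod_cast hcard
    have h4 : (2 : ℝ) * a ≤ r := by
      have : 2 * a ≤ r := by omega
      exact_mod_cast this
    push_cast
    have h5 : ((Fintype.card {i : Fin n // i ∉ H} : ℕ) : ℝ) * (a : ℝ) ≤ n * a :=
      mul_le_mul_of_nonneg_right h3 (Nat.cast_nonneg _)
    have h6 : (n : ℝ) * a ≤ n * r / 2 := by
      have : (n : ℝ) * (2 * a) ≤ n * r := mul_le_mul_of_nonneg_left h4 (Nat.cast_nonneg _)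
      linarith
    linarith
  · exact pow_nonneg (pow_nonneg (by linarith) _) _
  · exact pow_nonneg (by linarith) _
  · rw [← pow_mul]
    refine pow_le_pow_right₀ hF1 (Nat.mul_le_mul_right _ (by omega))
  · exact pow_nonneg (pow_nonneg (by linarith) _) _
  · exact mul_nonneg (pow_nonneg (by linarith) _) (Real.rpow_nonneg (by linarith) _)

end sg5aux

theorem sg5 {F : Type} [Field F] [Fintype F] [DecidableEq F] (n r : ℕ) (hr : 1 ≤ r) (c1 d g : ℝ) (h0 : 0 < c1) (h1 : c1 < 1)
    (H : Finset (Fin n)) (hg1 : 1 ≤ g)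
    (hg : ∑ v : {i : Fin n // i ∉ H} → F, ind (((univ.filter fun i => v i ≠ 0).card : ℝ) ≤ d * n + 1) ≤ g) :
    (∑ M : Matrix (Fin n) (Fin n) F, ind (M.IsSymm ∧ M.rank = r ∧
        ∀ i, i ∉ H → ((univ.filter fun j => j ≠ i ∧ M i j ≠ 0).card : ℝ) ≤ d * n) * c1 ^ wt M) ≤
      ((r : ℝ) + 1) ^ 3 * ((n : ℝ) ^ r * g ^ r) * (n : ℝ) ^ r *
        ((1 + ((Fintype.card F : ℝ) - 1) * c1) ^ ((n : ℝ) * r / 2)) *
        (Fintype.card F : ℝ) ^ (r * H.card) * ((n : ℝ) ^ r * (Fintype.card F : ℝ) ^ (r * H.card)) := by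
  have hF1 : (1 : ℝ) ≤ Fintype.card F := by
    exact_mod_cast Fintype.card_pos (α := F)
  have hk1 : 1 ≤ 1 + ((Fintype.card F : ℝ) - 1) * c1 := by
    have : 0 ≤ ((Fintype.card F : ℝ) - 1) * c1 := mul_nonneg (by linarith) h0.le
    linarith
  rcases Nat.eq_zero_or_pos n with hn | hn
  · -- no matrix of positive rank
    have hzero : (∑ M : Matrix (Fin n) (Fin n) F, ind (M.IsSymm ∧ M.rank = r ∧
        ∀ i, i ∉ H → ((univ.filter fun j => j ≠ i ∧ M i j ≠ 0).card : ℝ) ≤ d * n) * c1 ^ wt M) = 0 := by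
      refine Finset.sum_eq_zero fun M _ => ?_
      rw [ind_false, zero_mul]
      rintro ⟨-, h, -⟩
      have := Matrix.rank_le_width M
      omega
    rw [hzero]
    refine mul_nonneg (mul_nonneg (mul_nonneg (mul_nonneg (mul_nonneg ?_ ?_) ?_) ?_) ?_) ?_
    · positivity
    · exact mul_nonneg (by positivity) (pow_nonneg (by linarith) _)
    · positivity
    · exact Real.rpow_nonneg (by linarith) _
    · positivity
    · positivity
  · refine (sg5_sum H c1 d h0 h1 r).trans ?_
    set A : ℝ := (n : ℝ) ^ r * g ^ r with hA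
    set B : ℝ := (n : ℝ) ^ r * ((1 + ((Fintype.card F : ℝ) - 1) * c1) ^ ((n : ℝ) * r / 2)) *
        (Fintype.card F : ℝ) ^ (r * H.card) with hB
    set D : ℝ := (n : ℝ) ^ r * (Fintype.card F : ℝ) ^ (r * H.card) with hD
    have hA0 : 0 ≤ A := mul_nonneg (by positivity) (pow_nonneg (by linarith) _)
    have hB0 : 0 ≤ B := mul_nonneg (mul_nonneg (by positivity) (Real.rpow_nonneg (by linarith) _))
      (by positivity)
    have hD0 : 0 ≤ D := by positivity
    have hS := sg5_sumS (F := F) H hn r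
    have hS0 : 0 ≤ ∑ S : Matrix {i : Fin n // i ∈ H} {i : Fin n // i ∈ H} F, sg5FS H r S :=
      Finset.sum_nonneg fun S _ => sg5_FS_nonneg H r S
    have hterm : ∀ x ∈ (range (r + 1) ×ˢ range (r + 1)).filter (fun x => x.1 + 2 * x.2 ≤ r),
        (∑ t : Matrix {i : Fin n // i ∉ H} {i : Fin n // i ∉ H} F ×
          Matrix {i : Fin n // i ∉ H} {i : Fin n // i ∈ H} F ×
          Matrix {i : Fin n // i ∈ H} {i : Fin n // i ∈ H} F,
          sg5FP H d x.1 t.1 * (sg5FQ H c1 x.2 t.1 t.2.1 * sg5FS H r t.2.2)) ≤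
        A * (B * (((r : ℝ) + 1) * D)) := by
      intro x hx
      rw [Finset.mem_filter] at hx
      rw [Fintype.sum_prod_type]
      have hinner : ∀ P : Matrix {i : Fin n // i ∉ H} {i : Fin n // i ∉ H} F,
          (∑ t : Matrix {i : Fin n // i ∉ H} {i : Fin n // i ∈ H} F ×
            Matrix {i : Fin n // i ∈ H} {i : Fin n // i ∈ H} F,
            sg5FP H d x.1 P * (sg5FQ H c1 x.2 P t.1 * sg5FS H r t.2)) ≤
          sg5FP H d x.1 P * (B * (((r : ℝ) + 1) * D)) := by
        intro P
        rw [← Finset.mul_sum, Fintype.sum_prod_type]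
        have h2 : (∑ Q : Matrix {i : Fin n // i ∉ H} {i : Fin n // i ∈ H} F,
            ∑ S : Matrix {i : Fin n // i ∈ H} {i : Fin n // i ∈ H} F,
              sg5FQ H c1 x.2 P Q * sg5FS H r S) =
            (∑ Q : Matrix {i : Fin n // i ∉ H} {i : Fin n // i ∈ H} F, sg5FQ H c1 x.2 P Q) *
              ∑ S : Matrix {i : Fin n // i ∈ H} {i : Fin n // i ∈ H} F, sg5FS H r S := by
          rw [Finset.sum_mul_sum]
        rw [h2]
        by_cases hP : P.IsSymm ∧ P.rank = x.1 ∧ ∀ i, P i ∈ sg5R (F := F) H d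
        · refine mul_le_mul_of_nonneg_left ?_ (ind_nonneg _)
          exact mul_le_mul (sg5_sumQ H c1 h0 h1 hn r x.1 x.2 hx.2 P hP.2.1) hS hS0 hB0
        · have : sg5FP H d x.1 P = 0 := ind_false hP
          rw [this, zero_mul, zero_mul]
      refine (Finset.sum_le_sum fun P _ => hinner P).trans ?_
      rw [← Finset.sum_mul]
      refine mul_le_mul_of_nonneg_right ?_ ?_
      · exact sg5_sumP H d g hg1 hn r x.1 (by omega) hg
      · exact mul_nonneg hB0 (mul_nonneg (by positivity) hD0)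
    unfold sg5G
    rw [Finset.sum_comm]
    refine (Finset.sum_le_sum hterm).trans ?_
    rw [Finset.sum_const, nsmul_eq_mul]
    have hcardle : (((range (r + 1) ×ˢ range (r + 1)).filter
        (fun x => x.1 + 2 * x.2 ≤ r)).card : ℝ) ≤ ((r : ℝ) + 1) ^ 2 := by
      have h3 := Finset.card_filter_le (range (r + 1) ×ˢ range (r + 1))
        (fun x => x.1 + 2 * x.2 ≤ r)
      rw [Finset.card_product, Finset.card_range] at h3
      have h4 : (((range (r + 1) ×ˢ range (r + 1)).filter
        (fun x => x.1 + 2 * x.2 ≤ r)).card : ℝ) ≤ (((r + 1) * (r + 1) : ℕ) : ℝ) := by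
        exact_mod_cast h3
      refine h4.trans (le_of_eq ?_)
      push_cast
      ring
    refine (mul_le_mul_of_nonneg_right hcardle
      (mul_nonneg hA0 (mul_nonneg hB0 (mul_nonneg (by positivity) hD0)))).trans (le_of_eq ?_)
    rw [hB]
    ring

end Pool.H64.IR

end S_SG5

section S_SG6

/-! MODULE SG6 (project MP_a758cf_pr, IR; overview: team-store H64_a758cf.md)
Lemma Sigma (weighted number of symmetric matrices of low rank). q = card F, kp = 1+(q-1)c1, so 1 < kp < q.
Choose tau > 0 with kp = q^(1-3 tau) or any tau with kp <= q^(1-3tau) (tau = (1 - log_q kp)/3). All further losses must be <= q^(tau n r).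
Parameters: e = small (e <= tau log q/16), d from lgt_vec(e), eta <= 1 from lgt_set(e) and eta <= tau/16; theta <= 1 small, see (a).
heavy(M) = {i : number of nonzero off-diagonal entries of row i > d n}.
(a) card heavy >= eta n (more precisely > eta n): wt M >= (eta n)(d n)/2 (each off-diagonal nonzero pair is counted in at most two rows), number of symmetric M of
rank r <= n^r q^(n r) (rk2); total <= n^r q^(nr) c1^(eta d n^2/2) <= 1/2 q^((1-tau) n r/2) as soon as r <= theta n with theta log q * 2 <= eta d log(1/c1)/4 and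
n large.  (b) card heavy <= eta n: sum over H = heavy(M) (at most exp(e n) <= exp(e n r) sets, lgt_set) of sg5 with g = exp(e n):
<= exp(e n r) (r+1)^3 n^(3r) exp(e n r) q^((1-3tau) n r/2) q^(2 eta n r) <= 1/2 q^((1-tau) n r/2) for n large (r <= n).
-/

set_option autoImplicit false

namespace Pool.H64.IR

open Finset Polynomial

lemma sg6_wt {n : ℕ} {F : Type} [Zero F] [DecidableEq F] (M : Matrix (Fin n) (Fin n) F)
    (hM : M.IsSymm) (S : Finset (Fin n)) :
    ∑ i ∈ S, (univ.filter fun j => j ≠ i ∧ M i j ≠ 0).card ≤ 2 * wt M := by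
  have h1 : ∑ i ∈ S, (univ.filter fun j => j ≠ i ∧ M i j ≠ 0).card ≤
      ((univ : Finset (Fin n × Fin n)).filter fun x => x.2 ≠ x.1 ∧ M x.1 x.2 ≠ 0).card := by
    rw [← Finset.card_sigma]
    refine Finset.card_le_card_of_injOn (fun x => (x.1, x.2)) ?_ ?_
    · intro x hx
      rw [Finset.mem_coe, Finset.mem_sigma, Finset.mem_filter] at hx
      exact Finset.mem_coe.2 (Finset.mem_filter.2 ⟨Finset.mem_univ _, hx.2.2⟩)
    · rintro ⟨a, b⟩ _ ⟨c, d⟩ _ h
      simpa using h
  have h2 : ((univ : Finset (Fin n × Fin n)).filter fun x => x.2 ≠ x.1 ∧ M x.1 x.2 ≠ 0) ⊆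
      ((univ.filter fun e : Edge n => M e.1.1 e.1.2 ≠ 0).image fun e => (e.1.1, e.1.2)) ∪
      ((univ.filter fun e : Edge n => M e.1.1 e.1.2 ≠ 0).image fun e => (e.1.2, e.1.1)) := by
    rintro ⟨i, j⟩ hx
    rw [Finset.mem_filter] at hx
    obtain ⟨-, hne, hM0⟩ := hx
    rw [Finset.mem_union, Finset.mem_image, Finset.mem_image]
    rcases lt_or_gt_of_ne hne with h | h
    · right
      refine ⟨⟨(j, i), h⟩, Finset.mem_filter.2 ⟨Finset.mem_univ _, ?_⟩, rfl⟩
      show M j i ≠ 0
      have h3 : M j i = M i j := hM.apply i j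
      rw [h3]
      exact hM0
    · left
      exact ⟨⟨(i, j), h⟩, Finset.mem_filter.2 ⟨Finset.mem_univ _, hM0⟩, rfl⟩
  have h3 := Finset.card_le_card h2
  have h4 := Finset.card_union_le
    ((univ.filter fun e : Edge n => M e.1.1 e.1.2 ≠ 0).image fun e => (e.1.1, e.1.2))
    ((univ.filter fun e : Edge n => M e.1.1 e.1.2 ≠ 0).image fun e => (e.1.2, e.1.1))
  have h5 : ((univ.filter fun e : Edge n => M e.1.1 e.1.2 ≠ 0).image
      fun e => (e.1.1, e.1.2)).card ≤ wt M := Finset.card_image_le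
  have h6 : ((univ.filter fun e : Edge n => M e.1.1 e.1.2 ≠ 0).image
      fun e => (e.1.2, e.1.1)).card ≤ wt M := Finset.card_image_le
  omega

lemma sg6_heavy {n : ℕ} {F : Type} [Zero F] [DecidableEq F] (M : Matrix (Fin n) (Fin n) F)
    (hM : M.IsSymm) (c1 d eta : ℝ) (h0 : 0 < c1) (h1 : c1 < 1) (hd : 0 < d) (heta : 0 < eta)
    (S : Finset (Fin n))
    (hS : ∀ i ∈ S, d * n ≤ ((univ.filter fun j => j ≠ i ∧ M i j ≠ 0).card : ℝ))
    (hc : eta * n ≤ (S.card : ℝ)) :
    c1 ^ wt M ≤ Real.exp (-(4 * (-Real.log c1 * eta * d / 8) * (n : ℝ) ^ 2)) := by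
  have h2 : (S.card : ℝ) * (d * n) ≤ 2 * (wt M : ℝ) := by
    have h3 : ((∑ i ∈ S, (univ.filter fun j => j ≠ i ∧ M i j ≠ 0).card : ℕ) : ℝ) ≤
        ((2 * wt M : ℕ) : ℝ) := by exact_mod_cast sg6_wt M hM S
    push_cast at h3
    refine le_trans ?_ h3
    rw [← nsmul_eq_mul, ← Finset.sum_const]
    exact Finset.sum_le_sum hS
  have h4 : eta * n * (d * n) ≤ (S.card : ℝ) * (d * n) :=
    mul_le_mul_of_nonneg_right hc (by positivity)
  have hlog : Real.log c1 < 0 := Real.log_neg h0 h1
  have h5 : c1 ^ wt M = Real.exp ((wt M : ℝ) * Real.log c1) := by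
    rw [Real.exp_nat_mul, Real.exp_log h0]
  rw [h5]
  refine Real.exp_le_exp.2 ?_
  have h6 : eta * n * (d * n) / 2 ≤ (wt M : ℝ) := by linarith
  have h7 := mul_le_mul_of_nonpos_right h6 hlog.le
  refine h7.trans (le_of_eq ?_)
  ring

lemma sg6_log (a b : ℝ) (ha : 0 < a) : ∃ N : ℕ, ∀ n : ℕ, N ≤ n → b + Real.log n ≤ a * n := by
  refine ⟨max 1 ⌈2 * (b - 1 + Real.log (2 / a)) / a⌉₊, fun n hn => ?_⟩
  have h1 : 1 ≤ n := (le_max_left _ _).trans hn
  have hn0 : (0 : ℝ) < n := by exact_mod_cast h1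
  have h2 : 2 * (b - 1 + Real.log (2 / a)) / a ≤ n :=
    (Nat.le_ceil _).trans (by exact_mod_cast (le_max_right _ _).trans hn)
  rw [div_le_iff₀ ha] at h2
  have h3 : Real.log n = Real.log (a * n / 2) + Real.log (2 / a) := by
    rw [← Real.log_mul (by positivity) (by positivity)]
    congr 1
    field_simp
  have h4 := Real.log_le_sub_one_of_pos (show (0 : ℝ) < a * n / 2 by positivity)
  linarith

/-- a natural power as an exponential -/
lemma sg6_pow {x : ℝ} (hx : 0 < x) (k : ℕ) : x ^ k = Real.exp (k * Real.log x) := by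
  rw [Real.exp_nat_mul, Real.exp_log hx]

lemma sg6_bound_a {n r : ℕ} {q K theta tau : ℝ} (hn : 1 ≤ n) (hr : 1 ≤ r) (hq : 1 < q)
    (hK : 0 < K) (htau : tau < 1) (hth : 0 < theta) (hth1 : theta ≤ 1)
    (hthK : theta * Real.log q ≤ K) (hrn : (r : ℝ) ≤ theta * n)
    (hlog : Real.log 2 + Real.log n ≤ K * n) :
    (n : ℝ) ^ r * (q ^ n) ^ r * Real.exp (-(4 * K * (n : ℝ) ^ 2)) ≤
      Real.exp ((1 - tau) * n * r / 2 * Real.log q) / 2 := by
  have hn0 : (0 : ℝ) < n := by exact_mod_cast hn
  have hn1 : (1 : ℝ) ≤ n := by exact_mod_cast hn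
  have hr1 : (1 : ℝ) ≤ r := by exact_mod_cast hr
  have hLq : 0 < Real.log q := Real.log_pos hq
  have hlogn : 0 ≤ Real.log n := Real.log_nonneg hn1
  have hlog2 : 0 < Real.log 2 := Real.log_pos (by norm_num)
  rw [sg6_pow hn0, ← pow_mul, sg6_pow (by linarith : 0 < q)]
  have h2 : Real.exp ((1 - tau) * n * r / 2 * Real.log q) / 2 =
      Real.exp ((1 - tau) * n * r / 2 * Real.log q - Real.log 2) := by
    rw [Real.exp_sub, Real.exp_log (by norm_num)]
  rw [h2, ← Real.exp_add, ← Real.exp_add]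
  refine Real.exp_le_exp.2 ?_
  push_cast
  have hrn' : (r : ℝ) ≤ n := hrn.trans (by nlinarith)
  have a1 : (r : ℝ) * Real.log n ≤ K * n ^ 2 - Real.log 2 := by
    have b1 : (r : ℝ) * (Real.log 2 + Real.log n) ≤ n * (K * n) := by
      refine mul_le_mul hrn' hlog (by positivity) hn0.le
    have b2 : 1 * Real.log 2 ≤ r * Real.log 2 := mul_le_mul_of_nonneg_right hr1 hlog2.le
    nlinarith
  have a2 : (n : ℝ) * r * Real.log q ≤ K * n ^ 2 := by
    have b1 : (r : ℝ) * (n * Real.log q) ≤ theta * n * (n * Real.log q) :=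
      mul_le_mul_of_nonneg_right hrn (by positivity)
    have b2 : theta * Real.log q * n ^ 2 ≤ K * n ^ 2 :=
      mul_le_mul_of_nonneg_right hthK (by positivity)
    nlinarith
  have a3 : 0 ≤ (1 - tau) * n * r / 2 * Real.log q := by
    have : 0 ≤ 1 - tau := by linarith
    positivity
  have a4 : 0 ≤ K * (n : ℝ) ^ 2 := by positivity
  linarith

lemma sg6_bound_b {n r h : ℕ} {q kp e eta tau : ℝ} (hn : 1 ≤ n) (hr : 1 ≤ r) (hq : 1 < q)
    (hkp : 1 < kp) (hkq : Real.log kp = (1 - 3 * tau) * Real.log q) (hh : (h : ℝ) ≤ eta * n)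
    (he : e = tau * Real.log q / 8) (heta : eta ≤ tau / 8) (he0 : 0 < e)
    (hlog : 4 + 3 * Real.log n ≤ tau * Real.log q / 2 * n) :
    Real.exp (e * n) * (((r : ℝ) + 1) ^ 3 * ((n : ℝ) ^ r * (Real.exp (e * n)) ^ r) * (n : ℝ) ^ r *
        (kp ^ ((n : ℝ) * r / 2)) * q ^ (r * h) * ((n : ℝ) ^ r * q ^ (r * h))) ≤
      Real.exp ((1 - tau) * n * r / 2 * Real.log q) / 2 := by
  have hn0 : (0 : ℝ) < n := by exact_mod_cast hn
  have hr1 : (1 : ℝ) ≤ r := by exact_mod_cast hr
  have hLq : 0 < Real.log q := Real.log_pos hq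
  have hq0 : 0 < q := by linarith
  have hr10 : (0 : ℝ) < (r : ℝ) + 1 := by linarith
  have h2 : Real.exp ((1 - tau) * n * r / 2 * Real.log q) / 2 =
      Real.exp ((1 - tau) * n * r / 2 * Real.log q - Real.log 2) := by
    rw [Real.exp_sub, Real.exp_log (by norm_num)]
  rw [h2, sg6_pow hn0, sg6_pow hr10, sg6_pow hq0, Real.rpow_def_of_pos (by linarith : 0 < kp),
    ← Real.exp_nat_mul]
  simp only [← Real.exp_add]
  refine Real.exp_le_exp.2 ?_
  push_cast
  rw [hkq]
  have a1 : Real.log ((r : ℝ) + 1) ≤ r := by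
    have := Real.log_le_sub_one_of_pos hr10
    linarith
  have a2 : Real.log 2 ≤ 1 := by
    have := Real.log_le_sub_one_of_pos (show (0 : ℝ) < 2 by norm_num)
    linarith
  have a3 : (r : ℝ) * h * Real.log q ≤ r * (eta * n) * Real.log q := by
    have : (r : ℝ) * h ≤ r * (eta * n) := mul_le_mul_of_nonneg_left hh (by positivity)
    exact mul_le_mul_of_nonneg_right this hLq.le
  have a4 : (r : ℝ) * (eta * n) * Real.log q ≤ r * (tau / 8 * n) * Real.log q := by
    have b1 : eta * (n : ℝ) ≤ tau / 8 * n := mul_le_mul_of_nonneg_right heta hn0.le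
    have : (r : ℝ) * (eta * n) ≤ r * (tau / 8 * n) := mul_le_mul_of_nonneg_left b1 (by positivity)
    exact mul_le_mul_of_nonneg_right this hLq.le
  have a5 : (r : ℝ) * (4 + 3 * Real.log n) ≤ r * (tau * Real.log q / 2 * n) :=
    mul_le_mul_of_nonneg_left hlog (by positivity)
  have a6 : e * n ≤ r * (e * n) := le_mul_of_one_le_left (by positivity) hr1
  have a7 : (r : ℝ) * (e * n) = r * (tau * Real.log q / 8 * n) := by rw [he]
  nlinarith

theorem sigma {F : Type} [Field F] [Fintype F] [DecidableEq F] (c1 : ℝ) (h0 : 0 < c1) (h1 : c1 < 1) :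
    ∃ tau : ℝ, 0 < tau ∧ tau < 1 ∧ ∃ theta : ℝ, 0 < theta ∧ ∃ n0 : ℕ, ∀ n r : ℕ, n0 ≤ n → 1 ≤ r → (r : ℝ) ≤ theta * n →
      (∑ M : Matrix (Fin n) (Fin n) F, ind (M.IsSymm ∧ M.rank = r) * c1 ^ wt M) ≤
        (Fintype.card F : ℝ) ^ ((1 - tau) * n * r / 2) := by
  have hq : (1 : ℝ) < Fintype.card F := by exact_mod_cast Fintype.one_lt_card
  obtain ⟨q, hqdef⟩ : ∃ q : ℝ, q = Fintype.card F := ⟨_, rfl⟩
  rw [← hqdef] at hq
  have hkp1 : 1 < 1 + (q - 1) * c1 := by
    have : 0 < (q - 1) * c1 := mul_pos (by linarith) h0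
    linarith
  have hkpq : 1 + (q - 1) * c1 < q := by
    have : (q - 1) * c1 < (q - 1) * 1 := mul_lt_mul_of_pos_left h1 (by linarith)
    linarith
  have hLq : 0 < Real.log q := Real.log_pos hq
  have hLk : 0 < Real.log (1 + (q - 1) * c1) := Real.log_pos hkp1
  have hLkq : Real.log (1 + (q - 1) * c1) < Real.log q := Real.log_lt_log (by linarith) hkpq
  obtain ⟨tau, htau⟩ : ∃ tau : ℝ, tau = (1 - Real.log (1 + (q - 1) * c1) / Real.log q) / 3 :=
    ⟨_, rfl⟩
  have hkt : Real.log (1 + (q - 1) * c1) = (1 - 3 * tau) * Real.log q := by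
    rw [htau]
    field_simp
    ring
  have htau0 : 0 < tau := by
    rw [htau]
    have : Real.log (1 + (q - 1) * c1) / Real.log q < 1 := by
      rw [div_lt_one hLq]; exact hLkq
    linarith
  have htau1 : tau < 1 := by
    rw [htau]
    have : 0 < Real.log (1 + (q - 1) * c1) / Real.log q := by positivity
    linarith
  obtain ⟨e, he⟩ : ∃ e : ℝ, e = tau * Real.log q / 8 := ⟨_, rfl⟩
  have he0 : 0 < e := by rw [he]; positivity
  obtain ⟨d, hd, n1, hvec⟩ := lgt_vec F e he0
  obtain ⟨eta', heta', n2, hset⟩ := lgt_set e he0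
  obtain ⟨eta, heta, heta1, heta2⟩ : ∃ eta : ℝ, 0 < eta ∧ eta ≤ eta' ∧ eta ≤ tau / 8 :=
    ⟨min eta' (tau / 8), lt_min heta' (by positivity), min_le_left _ _, min_le_right _ _⟩
  have hlogc : Real.log c1 < 0 := Real.log_neg h0 h1
  obtain ⟨K, hK⟩ : ∃ K : ℝ, K = -Real.log c1 * eta * d / 8 := ⟨_, rfl⟩
  have hK0 : 0 < K := by
    rw [hK]
    have : 0 < -Real.log c1 := by linarith
    positivity
  obtain ⟨theta, hth, hth1, hth2⟩ : ∃ theta : ℝ, 0 < theta ∧ theta ≤ 1 ∧ theta * Real.log q ≤ K := by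
    refine ⟨min 1 (K / Real.log q), lt_min one_pos (by positivity), min_le_left _ _, ?_⟩
    rw [← le_div_iff₀ hLq]
    exact min_le_right _ _
  obtain ⟨n3, hn3⟩ := sg6_log K (Real.log 2) hK0
  obtain ⟨n4, hn4⟩ := sg6_log (tau * Real.log q / 6) (4 / 3) (by positivity)
  refine ⟨tau, htau0, htau1, theta, hth, max (max n1 n2) (max n3 n4), ?_⟩
  intro n r hn hr hrn
  have m1 : n1 ≤ n := ((le_max_left _ _).trans (le_max_left _ _)).trans hn
  have m2 : n2 ≤ n := ((le_max_right _ _).trans (le_max_left _ _)).trans hn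
  have m3 := hn3 n (((le_max_left _ _).trans (le_max_right _ _)).trans hn)
  have m4 := hn4 n (((le_max_right _ _).trans (le_max_right _ _)).trans hn)
  have hn1 : 1 ≤ n := by
    rcases Nat.eq_zero_or_pos n with h | h
    · subst h
      have : (1 : ℝ) ≤ r := by exact_mod_cast hr
      norm_num at hrn
      linarith
    · exact h
  -- pointwise bound
  have hpt : ∀ M : Matrix (Fin n) (Fin n) F, ind (M.IsSymm ∧ M.rank = r) * c1 ^ wt M ≤
      ind (M.IsSymm ∧ M.rank = r ∧ ∀ i, M i ∈ (univ : Finset (Fin n → F))) *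
        Real.exp (-(4 * K * (n : ℝ) ^ 2)) +
      ∑ H : Finset (Fin n), ind ((H.card : ℝ) ≤ eta * n) *
        (ind (M.IsSymm ∧ M.rank = r ∧
          ∀ i, i ∉ H → ((univ.filter fun j => j ≠ i ∧ M i j ≠ 0).card : ℝ) ≤ d * n) *
          c1 ^ wt M) := by
    intro M
    have hpos : ∀ H : Finset (Fin n), 0 ≤ ind ((H.card : ℝ) ≤ eta * n) *
        (ind (M.IsSymm ∧ M.rank = r ∧
          ∀ i, i ∉ H → ((univ.filter fun j => j ≠ i ∧ M i j ≠ 0).card : ℝ) ≤ d * n) *
          c1 ^ wt M) := fun H =>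
      mul_nonneg (ind_nonneg _) (mul_nonneg (ind_nonneg _) (by positivity))
    by_cases hM : M.IsSymm ∧ M.rank = r
    · rw [ind_true hM, one_mul]
      set S : Finset (Fin n) := univ.filter
        (fun i => ¬ (((univ.filter fun j => j ≠ i ∧ M i j ≠ 0).card : ℝ) ≤ d * n)) with hS
      by_cases hc : (S.card : ℝ) ≤ eta * n
      · have h2 : c1 ^ wt M ≤ ∑ H : Finset (Fin n), ind ((H.card : ℝ) ≤ eta * n) *
            (ind (M.IsSymm ∧ M.rank = r ∧
              ∀ i, i ∉ H → ((univ.filter fun j => j ≠ i ∧ M i j ≠ 0).card : ℝ) ≤ d * n) *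
              c1 ^ wt M) := by
          refine le_trans (le_of_eq ?_) (Finset.single_le_sum (fun H _ => hpos H)
            (Finset.mem_univ S))
          rw [ind_true hc, ind_true, one_mul, one_mul]
          refine ⟨hM.1, hM.2, fun i hi => ?_⟩
          by_contra h3
          exact hi (Finset.mem_filter.2 ⟨Finset.mem_univ _, h3⟩)
        have h3 : 0 ≤ ind (M.IsSymm ∧ M.rank = r ∧ ∀ i, M i ∈ (univ : Finset (Fin n → F))) *
            Real.exp (-(4 * K * (n : ℝ) ^ 2)) := mul_nonneg (ind_nonneg _) (Real.exp_pos _).le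
        linarith
      · have h2 : c1 ^ wt M ≤ Real.exp (-(4 * K * (n : ℝ) ^ 2)) := by
          rw [hK]
          refine sg6_heavy M hM.1 c1 d eta h0 h1 hd heta S (fun i hi => ?_) (not_le.1 hc).le
          exact (not_le.1 (Finset.mem_filter.1 hi).2).le
        rw [ind_true (⟨hM.1, hM.2, fun i => Finset.mem_univ _⟩ :
          M.IsSymm ∧ M.rank = r ∧ ∀ i, M i ∈ (univ : Finset (Fin n → F))), one_mul]
        have h3 := Finset.sum_nonneg (s := (univ : Finset (Finset (Fin n)))) (fun H _ => hpos H)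
        linarith
    · rw [ind_false hM, zero_mul]
      exact add_nonneg (mul_nonneg (ind_nonneg _) (Real.exp_pos _).le)
        (Finset.sum_nonneg fun H _ => hpos H)
  have hsum := Finset.sum_le_sum (s := (univ : Finset (Matrix (Fin n) (Fin n) F)))
    (fun M _ => hpt M)
  rw [Finset.sum_add_distrib, ← Finset.sum_mul, Finset.sum_comm] at hsum
  refine hsum.trans ?_
  have hR : q ^ ((1 - tau) * n * r / 2) = Real.exp ((1 - tau) * n * r / 2 * Real.log q) := by
    rw [Real.rpow_def_of_pos (by linarith)]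
    congr 1
    ring
  rw [← hqdef, hR]
  -- part (a)
  have hA : (∑ M : Matrix (Fin n) (Fin n) F,
      ind (M.IsSymm ∧ M.rank = r ∧ ∀ i, M i ∈ (univ : Finset (Fin n → F)))) *
        Real.exp (-(4 * K * (n : ℝ) ^ 2)) ≤
      Real.exp ((1 - tau) * n * r / 2 * Real.log q) / 2 := by
    have h2 := rk2 (F := F) (ν := Fin n) univ r
    rw [Fintype.card_fin, Finset.card_univ, Fintype.card_fun, Fintype.card_fin] at h2
    push_cast at h2
    rw [← hqdef] at h2
    exact (mul_le_mul_of_nonneg_right h2 (Real.exp_pos _).le).trans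
      (sg6_bound_a hn1 hr hq hK0 htau1 hth hth1 hth2 hrn m3)
  -- part (b)
  have hB : ∑ H : Finset (Fin n), ∑ M : Matrix (Fin n) (Fin n) F,
      ind ((H.card : ℝ) ≤ eta * n) *
        (ind (M.IsSymm ∧ M.rank = r ∧
          ∀ i, i ∉ H → ((univ.filter fun j => j ≠ i ∧ M i j ≠ 0).card : ℝ) ≤ d * n) *
          c1 ^ wt M) ≤
      Real.exp ((1 - tau) * n * r / 2 * Real.log q) / 2 := by
    have h2 : ∀ H : Finset (Fin n), ∑ M : Matrix (Fin n) (Fin n) F,
      ind ((H.card : ℝ) ≤ eta * n) *
        (ind (M.IsSymm ∧ M.rank = r ∧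
          ∀ i, i ∉ H → ((univ.filter fun j => j ≠ i ∧ M i j ≠ 0).card : ℝ) ≤ d * n) *
          c1 ^ wt M) ≤ ind ((H.card : ℝ) ≤ eta * n) *
        ((Real.exp ((1 - tau) * n * r / 2 * Real.log q) / 2) / Real.exp (e * n)) := by
      intro H
      rw [← Finset.mul_sum]
      by_cases hH : (H.card : ℝ) ≤ eta * n
      · refine mul_le_mul_of_nonneg_left ?_ (ind_nonneg _)
        have hg1 : 1 ≤ Real.exp (e * n) := Real.one_le_exp (by positivity)
        have hcardν : Fintype.card {i : Fin n // i ∉ H} ≤ n := by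
          refine (Fintype.card_subtype_le _).trans ?_
          rw [Fintype.card_fin]
        have h3 := sg5 (F := F) n r hr c1 d (Real.exp (e * n)) h0 h1 H hg1
          (hvec n m1 {i : Fin n // i ∉ H} hcardν)
        rw [← hqdef] at h3
        refine h3.trans ?_
        rw [le_div_iff₀ (Real.exp_pos _), mul_comm]
        refine sg6_bound_b hn1 hr hq hkp1 hkt hH he heta2 he0 ?_
        linarith
      · rw [ind_false hH, zero_mul, zero_mul]
    refine (Finset.sum_le_sum fun H _ => h2 H).trans ?_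
    rw [← Finset.sum_mul]
    have h3 : ∑ H : Finset (Fin n), ind ((H.card : ℝ) ≤ eta * n) ≤ Real.exp (e * n) := by
      refine le_trans (Finset.sum_le_sum fun H _ => ?_) (hset n m2)
      refine ind_mono fun h => h.trans ?_
      exact mul_le_mul_of_nonneg_right heta1 (Nat.cast_nonneg _)
    have h4 : 0 ≤ Real.exp ((1 - tau) * n * r / 2 * Real.log q) / 2 / Real.exp (e * n) := by
      positivity
    refine (mul_le_mul_of_nonneg_right h3 h4).trans (le_of_eq ?_)
    field_simp
  linarith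

end Pool.H64.IR

end S_SG6
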