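import Mathlib
import Pool.Agent.H64.IRL.L0

set_option autoImplicit false

/-! Characteristic polynomial of G(n,1/2), part L3: this file joins several modules to save build time. -/

section S_FOU

/-! MODULE FOU (project MP_a758cf_pr, IR; overview: team-store H64_a758cf.md)
Fix V : Matrix (Fin n) (Fin k) (ZMod p) of full rank, p odd prime. For a matrix M put
TT V C M = sum over Y (n x k) with V Yᵀ + Y Vᵀ = M of e(- trace(Yᵀ V C)).
fou_zero: {Y : V Yᵀ + Y Vᵀ = 0} = {V B : B + Bᵀ = 0}, B |-> V B injective. (Choose a left inverse U of V, U V = 1; from V Yᵀ = - Y Vᵀ multiply on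
the right by Uᵀ: Y = - V (Yᵀ Uᵀ) = V B; then V (Bᵀ + B) Vᵀ = 0 gives B + Bᵀ = 0.) So the sum is sum_{B skew} e(- trace(Bᵀ G)), G = Vᵀ V C
(trace((V B)ᵀ V C) = trace(Bᵀ Vᵀ V C)). For p odd a skew B has zero diagonal and is determined freely by the entries above the diagonal: number
p^(k(k-1)/2), and trace(Bᵀ G) = sum_{a<b} B_ab (G_ab - G_ba) is a nonzero linear form unless G is symmetric, so the sum is
p^(k(k-1)/2) if G symmetric and 0 otherwise.
fou_norm: if Y0 is one solution of V Y0ᵀ + Y0 Vᵀ = M then Y |-> Y + Y0 gives TT V C M = e(-trace(Y0ᵀ V C)) TT V C 0; if none, TT = 0.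
-/

set_option autoImplicit false

namespace Pool.H64.IR

open Finset Polynomial

/-- the exponential sum over the solutions `Y` of `V Yᵀ + Y Vᵀ = M` -/
noncomputable def TT {p : ℕ} [Fact p.Prime] {n k : ℕ} (V : Matrix (Fin n) (Fin k) (ZMod p))
    (C : Matrix (Fin k) (Fin k) (ZMod p)) (M : Matrix (Fin n) (Fin n) (ZMod p)) : ℂ :=
  ∑ Y : Matrix (Fin n) (Fin k) (ZMod p), ((ind (V * Y.transpose + Y * V.transpose = M) : ℝ) : ℂ) *
    ZMod.stdAddChar (- Matrix.trace (Y.transpose * V * C))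

theorem fou_leftInv {p : ℕ} [Fact p.Prime] {n k : ℕ} (V : Matrix (Fin n) (Fin k) (ZMod p))
    (hV : FullRank V) : ∃ U : Matrix (Fin k) (Fin n) (ZMod p), U * V = 1 := by
  have h1 : Function.Injective V.mulVec := Matrix.mulVec_injective_iff.2 hV
  have h2 : LinearMap.ker (Matrix.toLin' V) = ⊥ := LinearMap.ker_eq_bot.2 (by
    intro x y hxy
    exact h1 (by simpa [Matrix.toLin'_apply] using hxy))
  obtain ⟨g, hg⟩ := (Matrix.toLin' V).exists_leftInverse_of_injective h2
  refine ⟨LinearMap.toMatrix' g, ?_⟩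
  have h3 : LinearMap.toMatrix' (g ∘ₗ Matrix.toLin' V) = 1 := by
    rw [hg, LinearMap.toMatrix'_id]
  rwa [LinearMap.toMatrix'_comp, LinearMap.toMatrix'_toLin'] at h3

theorem fou_card (k : ℕ) : Fintype.card (Edge k) = k * (k - 1) / 2 := by
  rw [← Finset.sum_range_id, ← Fin.sum_univ_eq_sum_range (fun i => i) k]
  have e : Edge k ≃ Σ j : Fin k, {i : Fin k // i < j} :=
    { toFun := fun e => ⟨e.1.2, e.1.1, e.2⟩
      invFun := fun s => ⟨(s.2.1, s.1), s.2.2⟩
      left_inv := fun _ => rfl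
      right_inv := fun _ => rfl }
  rw [Fintype.card_congr e, Fintype.card_sigma]
  refine Finset.sum_congr rfl fun j _ => ?_
  rw [Fintype.card_subtype, ← Fin.card_Iio j]
  congr 1
  ext i
  simp

/-- the skew matrix with given entries above the diagonal -/
def fouSk {p : ℕ} {k : ℕ} (w : Edge k → ZMod p) : Matrix (Fin k) (Fin k) (ZMod p) :=
  Matrix.of fun i j =>
    if h : i < j then w ⟨(i, j), h⟩ else if h : j < i then - w ⟨(j, i), h⟩ else 0

theorem fouSk_skew {p : ℕ} {k : ℕ} (w : Edge k → ZMod p) : fouSk w + (fouSk w).transpose = 0 := by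
  ext i j
  simp only [fouSk, Matrix.add_apply, Matrix.transpose_apply, Matrix.of_apply, Matrix.zero_apply]
  rcases lt_trichotomy i j with h | h | h
  · rw [dif_pos h, dif_neg (not_lt.2 h.le), dif_pos h, add_neg_cancel]
  · subst h
    simp
  · rw [dif_neg (not_lt.2 h.le), dif_pos h, dif_pos h, neg_add_cancel]

theorem fouSk_inj {p : ℕ} {k : ℕ} : Function.Injective (fouSk (p := p) (k := k)) := by
  intro w w' h
  funext ⟨⟨i, j⟩, hij⟩
  have h1 := congrFun (congrFun h i) j
  simp only [fouSk, Matrix.of_apply] at h1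
  have hij' : i < j := hij
  rwa [dif_pos hij', dif_pos hij'] at h1

theorem fouSk_surj {p : ℕ} [Fact p.Prime] (hp : p ≠ 2) {k : ℕ} (B : Matrix (Fin k) (Fin k) (ZMod p))
    (hB : B + B.transpose = 0) : ∃ w, fouSk w = B := by
  have h2 : (2 : ZMod p) ≠ 0 := by
    intro h
    have h3 : ((2 : ℕ) : ZMod p) = 0 := by exact_mod_cast h
    rw [ZMod.natCast_eq_zero_iff] at h3
    exact hp ((Nat.prime_dvd_prime_iff_eq (Fact.out) Nat.prime_two).1 h3)
  refine ⟨fun e => B e.1.1 e.1.2, ?_⟩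
  ext i j
  simp only [fouSk, Matrix.of_apply]
  have h1 : B i j + B j i = 0 := by
    have := congrFun (congrFun hB i) j
    simpa using this
  rcases lt_trichotomy i j with h | h | h
  · rw [dif_pos h]
  · subst h
    rw [dif_neg (lt_irrefl _), dif_neg (lt_irrefl _)]
    have h3 : (2 : ZMod p) * B i i = 0 := by rw [two_mul]; exact h1
    exact ((mul_eq_zero.1 h3).resolve_left h2).symm
  · rw [dif_neg (not_lt.2 h.le), dif_pos h]
    exact (eq_neg_of_add_eq_zero_left h1).symm

theorem fouSk_trace {p : ℕ} {k : ℕ} (w : Edge k → ZMod p) (G : Matrix (Fin k) (Fin k) (ZMod p)) :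
    Matrix.trace ((fouSk w).transpose * G) =
      ∑ e : Edge k, w e * (G e.1.1 e.1.2 - G e.1.2 e.1.1) := by
  have h1 : Matrix.trace ((fouSk w).transpose * G) =
      ∑ q : Fin k × Fin k, fouSk w q.1 q.2 * G q.1 q.2 := by
    rw [Matrix.trace, Fintype.sum_prod_type_right]
    refine Finset.sum_congr rfl fun j _ => ?_
    rw [Matrix.diag_apply, Matrix.mul_apply]
    rfl
  have h2 : ∑ q : Fin k × Fin k, fouSk w q.1 q.2 * G q.1 q.2 =
      ∑ q ∈ univ.filter (fun q : Fin k × Fin k => q.1 < q.2), fouSk w q.1 q.2 * G q.1 q.2 +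
      ∑ q ∈ univ.filter (fun q : Fin k × Fin k => q.2 < q.1), fouSk w q.1 q.2 * G q.1 q.2 := by
    rw [← Finset.sum_filter_add_sum_filter_not univ (fun q : Fin k × Fin k => q.1 < q.2)]
    congr 1
    symm
    refine Finset.sum_subset ?_ ?_
    · intro q hq
      simp only [Finset.mem_filter, Finset.mem_univ, true_and] at hq ⊢
      exact not_lt.2 hq.le
    · intro q hq hq'
      simp only [Finset.mem_filter, Finset.mem_univ, true_and] at hq hq'
      simp only [fouSk, Matrix.of_apply]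
      rw [dif_neg hq, dif_neg hq', zero_mul]
  have h3 : ∑ q ∈ univ.filter (fun q : Fin k × Fin k => q.1 < q.2), fouSk w q.1 q.2 * G q.1 q.2 =
      ∑ e : Edge k, w e * G e.1.1 e.1.2 := by
    rw [Finset.sum_subtype _ (p := fun q : Fin k × Fin k => q.1 < q.2) (fun q => by simp)]
    refine Finset.sum_congr rfl fun e _ => ?_
    have h4 : fouSk w e.1.1 e.1.2 = w e := by
      simp only [fouSk, Matrix.of_apply]
      rw [dif_pos e.2]
    rw [h4]
  have h5 : ∑ q ∈ univ.filter (fun q : Fin k × Fin k => q.2 < q.1), fouSk w q.1 q.2 * G q.1 q.2 =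
      ∑ e : Edge k, - (w e * G e.1.2 e.1.1) := by
    have h6 : ∑ q ∈ univ.filter (fun q : Fin k × Fin k => q.2 < q.1), fouSk w q.1 q.2 * G q.1 q.2 =
        ∑ q ∈ univ.filter (fun q : Fin k × Fin k => q.1 < q.2), fouSk w q.2 q.1 * G q.2 q.1 := by
      refine Finset.sum_nbij' Prod.swap Prod.swap ?_ ?_ ?_ ?_ ?_
      · intro q hq
        simpa using hq
      · intro q hq
        simpa using hq
      · intro q _; exact Prod.swap_swap q
      · intro q _; exact Prod.swap_swap q
      · intro q _; rfl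
    rw [h6, Finset.sum_subtype _ (p := fun q : Fin k × Fin k => q.1 < q.2) (fun q => by simp)]
    refine Finset.sum_congr rfl fun e _ => ?_
    have h4 : fouSk w e.1.2 e.1.1 = - w e := by
      have he : e.1.1 < e.1.2 := e.2
      simp only [fouSk, Matrix.of_apply]
      rw [dif_neg (not_lt.2 he.le), dif_pos he]
    rw [h4, neg_mul]
  rw [h1, h2, h3, h5, ← Finset.sum_add_distrib]
  refine Finset.sum_congr rfl fun e _ => ?_
  ring

theorem fou_char {p : ℕ} [Fact p.Prime] {ι : Type*} (s : Finset ι) (f : ι → ZMod p) :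
    (ZMod.stdAddChar (∑ i ∈ s, f i) : ℂ) = ∏ i ∈ s, ZMod.stdAddChar (f i) := by
  classical
  induction s using Finset.induction_on with
  | empty => simp
  | insert a s ha ih => rw [Finset.sum_insert ha, Finset.prod_insert ha, AddChar.map_add_eq_mul, ih]

theorem fouSk_sum {p : ℕ} [Fact p.Prime] {k : ℕ} (G : Matrix (Fin k) (Fin k) (ZMod p)) :
    ∑ w : Edge k → ZMod p, ZMod.stdAddChar (- Matrix.trace ((fouSk w).transpose * G)) =
      (((p : ℝ) ^ (k * (k - 1) / 2) * ind (G.IsSymm) : ℝ) : ℂ) := by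
  have h1 : ∀ w : Edge k → ZMod p, (ZMod.stdAddChar (- Matrix.trace ((fouSk w).transpose * G)) : ℂ) =
      ∏ e : Edge k, ZMod.stdAddChar (w e * (G e.1.2 e.1.1 - G e.1.1 e.1.2)) := by
    intro w
    rw [fouSk_trace, ← Finset.sum_neg_distrib, fou_char]
    refine Finset.prod_congr rfl fun e _ => ?_
    congr 1
    ring
  rw [Finset.sum_congr rfl fun w _ => h1 w]
  have h2 := Finset.prod_univ_sum (fun _ => (univ : Finset (ZMod p)))
    (fun (e : Edge k) (t : ZMod p) =>
      (ZMod.stdAddChar (t * (G e.1.2 e.1.1 - G e.1.1 e.1.2)) : ℂ))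
  rw [Fintype.piFinset_univ] at h2
  rw [← h2]
  have h3 : ∀ e : Edge k, ∑ t : ZMod p,
      (ZMod.stdAddChar (t * (G e.1.2 e.1.1 - G e.1.1 e.1.2)) : ℂ) =
      if G e.1.2 e.1.1 - G e.1.1 e.1.2 = 0 then (p : ℂ) else 0 := by
    intro e
    rw [AddChar.sum_mulShift _ (ZMod.isPrimitive_stdAddChar p), ZMod.card]
    split_ifs <;> simp
  rw [Finset.prod_congr rfl fun e _ => h3 e, Finset.prod_ite_zero, Finset.prod_const,
    Finset.card_univ, fou_card]
  by_cases hG : G.IsSymm
  · rw [ind_true hG, if_pos, mul_one]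
    · push_cast; rfl
    · intro e _
      rw [hG.apply, sub_self]
  · rw [ind_false hG, if_neg, mul_zero, Complex.ofReal_zero]
    intro h4
    apply hG
    ext i j
    rw [Matrix.transpose_apply]
    rcases lt_trichotomy i j with h | h | h
    · exact sub_eq_zero.1 (h4 ⟨(i, j), h⟩ (Finset.mem_univ _))
    · rw [h]
    · exact (sub_eq_zero.1 (h4 ⟨(j, i), h⟩ (Finset.mem_univ _))).symm

theorem fou_zero {p : ℕ} [Fact p.Prime] (hp : p ≠ 2) {n k : ℕ} (V : Matrix (Fin n) (Fin k) (ZMod p))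
    (hV : FullRank V) (C : Matrix (Fin k) (Fin k) (ZMod p)) :
    TT V C 0 = (((p : ℝ) ^ (k * (k - 1) / 2) * ind ((V.transpose * V * C).IsSymm) : ℝ) : ℂ) := by
  classical
  obtain ⟨U, hU⟩ := fou_leftInv V hV
  have hU' : V.transpose * U.transpose = 1 := by
    rw [← Matrix.transpose_mul, hU, Matrix.transpose_one]
  rw [← fouSk_sum, TT]
  have h1 : ∀ Y : Matrix (Fin n) (Fin k) (ZMod p),
      ((ind (V * Y.transpose + Y * V.transpose = 0) : ℝ) : ℂ) *
        ZMod.stdAddChar (- Matrix.trace (Y.transpose * V * C)) =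
      if V * Y.transpose + Y * V.transpose = 0 then
        (ZMod.stdAddChar (- Matrix.trace (Y.transpose * V * C)) : ℂ) else 0 := by
    intro Y
    by_cases h : V * Y.transpose + Y * V.transpose = 0
    · rw [ind_true h, if_pos h, Complex.ofReal_one, one_mul]
    · rw [ind_false h, if_neg h, Complex.ofReal_zero, zero_mul]
  rw [Finset.sum_congr rfl fun Y _ => h1 Y, ← Finset.sum_filter]
  symm
  refine Finset.sum_bij (fun w _ => V * fouSk w) ?_ ?_ ?_ ?_
  · intro w _
    rw [Finset.mem_filter]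
    refine ⟨Finset.mem_univ _, ?_⟩
    have h2 := fouSk_skew w
    calc V * (V * fouSk w).transpose + V * fouSk w * V.transpose
        = V * (fouSk w + (fouSk w).transpose) * V.transpose := by
          rw [Matrix.transpose_mul, Matrix.mul_add, Matrix.add_mul, add_comm, Matrix.mul_assoc V _ _]
          simp only [Matrix.mul_assoc]
      _ = 0 := by rw [h2, Matrix.mul_zero, Matrix.zero_mul]
  · intro w _ w' _ h
    apply fouSk_inj
    have h2 : U * (V * fouSk w) = U * (V * fouSk w') := by rw [h]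
    rwa [← Matrix.mul_assoc, ← Matrix.mul_assoc, hU, Matrix.one_mul, Matrix.one_mul] at h2
  · intro Y hY
    rw [Finset.mem_filter] at hY
    have h2 := hY.2
    have h3 : Y = V * (- (Y.transpose * U.transpose)) := by
      have h4 : (V * Y.transpose + Y * V.transpose) * U.transpose = 0 := by
        rw [h2, Matrix.zero_mul]
      rw [Matrix.add_mul, Matrix.mul_assoc Y, hU', Matrix.mul_one, Matrix.mul_assoc] at h4
      rw [Matrix.mul_neg]
      exact eq_neg_of_add_eq_zero_right h4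
    set B := - (Y.transpose * U.transpose) with hB
    have h5 : V * (B.transpose + B) * V.transpose = 0 := by
      rw [Matrix.mul_add, Matrix.add_mul, Matrix.mul_assoc V, ← Matrix.transpose_mul, ← h3]
      exact h2
    have h6 : B.transpose + B = 0 := by
      have h7 : U * (V * (B.transpose + B) * V.transpose) * U.transpose = 0 := by
        rw [h5, Matrix.mul_zero, Matrix.zero_mul]
      rwa [← Matrix.mul_assoc, ← Matrix.mul_assoc, hU, Matrix.one_mul, Matrix.mul_assoc, hU',
        Matrix.mul_one] at h7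
    obtain ⟨w, hw⟩ := fouSk_surj hp B (by rw [add_comm]; exact h6)
    exact ⟨w, Finset.mem_univ _, by rw [hw]; exact h3.symm⟩
  · intro w _
    rw [Matrix.transpose_mul]
    simp only [Matrix.mul_assoc]

theorem fou_norm {p : ℕ} [Fact p.Prime] (hp : p ≠ 2) {n k : ℕ} (V : Matrix (Fin n) (Fin k) (ZMod p))
    (hV : FullRank V) (C : Matrix (Fin k) (Fin k) (ZMod p)) (M : Matrix (Fin n) (Fin n) (ZMod p)) :
    ‖TT V C M‖ ≤ (p : ℝ) ^ (k * (k - 1) / 2) *
      ind ((V.transpose * V * C).IsSymm ∧ ∃ Y : Matrix (Fin n) (Fin k) (ZMod p), V * Y.transpose + Y * V.transpose = M) := by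
  by_cases h : ∃ Y : Matrix (Fin n) (Fin k) (ZMod p), V * Y.transpose + Y * V.transpose = M
  · obtain ⟨Y0, hY0⟩ := h
    have h1 : TT V C M = ZMod.stdAddChar (- Matrix.trace (Y0.transpose * V * C)) * TT V C 0 := by
      rw [TT, TT, Finset.mul_sum, ← Equiv.sum_comp (Equiv.addRight Y0)]
      refine Finset.sum_congr rfl fun Y _ => ?_
      have h2 : (V * ((Equiv.addRight Y0) Y).transpose + ((Equiv.addRight Y0) Y) * V.transpose = M) ↔
          (V * Y.transpose + Y * V.transpose = 0) := by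
        rw [Equiv.coe_addRight, Matrix.transpose_add, Matrix.mul_add, Matrix.add_mul, ← hY0]
        constructor
        · intro h3
          have h4 : (V * Y.transpose + V * Y0.transpose + (Y * V.transpose + Y0 * V.transpose)) -
            (V * Y0.transpose + Y0 * V.transpose) = 0 := sub_eq_zero.2 h3
          rw [← h4]
          abel
        · intro h3
          have h4 : (V * Y.transpose + V * Y0.transpose + (Y * V.transpose + Y0 * V.transpose)) =
            (V * Y.transpose + Y * V.transpose) + (V * Y0.transpose + Y0 * V.transpose) := by abel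
          rw [h4, h3, zero_add]
      have h3 : - Matrix.trace (((Equiv.addRight Y0) Y).transpose * V * C) =
          - Matrix.trace (Y0.transpose * V * C) + - Matrix.trace (Y.transpose * V * C) := by
        rw [Equiv.coe_addRight, Matrix.transpose_add, Matrix.add_mul, Matrix.add_mul,
          Matrix.trace_add]
        ring
      rw [ind_congr h2, h3, AddChar.map_add_eq_mul]
      ring
    rw [h1, norm_mul, fou_zero hp V hV C, Complex.norm_real, Real.norm_of_nonneg
      (mul_nonneg (by positivity) (ind_nonneg _))]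
    have h5 : ‖(ZMod.stdAddChar (- Matrix.trace (Y0.transpose * V * C)) : ℂ)‖ = 1 := by
      simp
    rw [h5, one_mul]
    refine mul_le_mul_of_nonneg_left ?_ (by positivity)
    exact ind_mono fun h6 => ⟨h6, Y0, hY0⟩
  · have h1 : TT V C M = 0 := by
      rw [TT]
      refine Finset.sum_eq_zero fun Y _ => ?_
      rw [ind_false (fun h2 => h ⟨Y, h2⟩), Complex.ofReal_zero, zero_mul]
    rw [h1, norm_zero]
    exact mul_nonneg (by positivity) (ind_nonneg _)

end Pool.H64.IR

end S_FOU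

section S_EBX

/-! MODULE EBX (project MP_a758cf_pr, IR; overview: team-store H64_a758cf.md)
ebx: expectation over the bits factors over the edges (Finset.prod_univ_sum with Bool-valued functions, or induction):
sum_b prod_i e_i(sum_{e} b_e M_i(e)) = sum_b prod_e prod_i e_i(b_e M_i(e)) = prod_e (1 + prod_i e_i(M_i(e))); card (Edge n -> Bool) = 2^card (Edge n).
tr_adj: for A = adj b (zero diagonal, symmetric): trace(Yᵀ (A V)) = sum_{i,j} A_ij (sum_a Y_ia V_ja) = sum_{i<j} A_ij ((V Yᵀ)_ij + (Y Vᵀ)_ij)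
(pair (i,j) and (j,i); (V Yᵀ)_ij = sum_a V_ia Y_ja, (Y Vᵀ)_ij = sum_a Y_ia V_ja).
-/

set_option autoImplicit false

namespace Pool.H64.IR

open Finset Polynomial

theorem ebx_map_sum {α A : Type} [AddCommMonoid A] (ψ : AddChar A ℂ) (s : Finset α) (f : α → A) :
    ψ (∑ e ∈ s, f e) = ∏ e ∈ s, ψ (f e) := by
  classical
  induction s using Finset.induction_on with
  | empty => simp
  | insert a s ha ih => rw [Finset.sum_insert ha, Finset.prod_insert ha, AddChar.map_add_eq_mul, ih]

theorem ebx {ι : Type} [Fintype ι] (p : ι → ℕ) [∀ i, Fact (p i).Prime] (n : ℕ)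
    (M : ∀ i, Matrix (Fin n) (Fin n) (ZMod (p i))) :
    (∑ b : Edge n → Bool, ∏ i, ZMod.stdAddChar (∑ e : Edge n, if b e then M i e.1.1 e.1.2 else 0)) /
        (Fintype.card (Edge n → Bool) : ℂ) =
      ∏ e : Edge n, ((1 + ∏ i, (ZMod.stdAddChar (M i e.1.1 e.1.2) : ℂ)) / 2) := by
  classical
  have h1 : ∀ b : Edge n → Bool,
      ∏ i, (ZMod.stdAddChar (∑ e : Edge n, if b e then M i e.1.1 e.1.2 else 0) : ℂ) =
      ∏ e : Edge n, (if b e = true then ∏ i, (ZMod.stdAddChar (M i e.1.1 e.1.2) : ℂ) else 1) := by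
    intro b
    have h2 : ∀ i, (ZMod.stdAddChar (∑ e : Edge n, if b e then M i e.1.1 e.1.2 else 0) : ℂ) =
        ∏ e : Edge n, (ZMod.stdAddChar (if b e then M i e.1.1 e.1.2 else 0) : ℂ) :=
      fun i => ebx_map_sum _ _ _
    simp_rw [h2]
    rw [Finset.prod_comm]
    refine Finset.prod_congr rfl fun e _ => ?_
    by_cases h : b e = true
    · simp [h]
    · simp [h]
  simp_rw [h1]
  have h3 := (Fintype.prod_sum (fun (e : Edge n) (c : Bool) =>
    (if c = true then ∏ i, (ZMod.stdAddChar (M i e.1.1 e.1.2) : ℂ) else 1))).symm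
  rw [h3, Finset.prod_div_distrib, Finset.prod_const, Finset.card_univ]
  congr 1
  · refine Finset.prod_congr rfl fun e _ => ?_
    simp [add_comm]
  · rw [Fintype.card_fun, Fintype.card_bool]
    push_cast
    rfl

theorem tr_adj {p : ℕ} [Fact p.Prime] {n k : ℕ} (b : Edge n → Bool) (V Y : Matrix (Fin n) (Fin k) (ZMod p)) :
    Matrix.trace (Y.transpose * (adj (ZMod p) b * V)) =
      ∑ e : Edge n, if b e then (V * Y.transpose + Y * V.transpose) e.1.1 e.1.2 else 0 := by
  classical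
  set F : Fin n × Fin n → ZMod p := fun x => if h : x.1 < x.2 then (if b ⟨x, h⟩ then 1 else 0) else 0 with hF
  set G : Matrix (Fin n) (Fin n) (ZMod p) := Y * V.transpose with hG
  have hadj : ∀ i j, adj (ZMod p) b i j = F (i, j) + F (j, i) := by
    intro i j
    rw [hF]
    unfold adj
    simp only [Matrix.of_apply]
    rcases lt_trichotomy i j with h | h | h
    · rw [dif_pos h, dif_pos h, dif_neg (not_lt.2 h.le), add_zero]
    · subst h
      simp
    · rw [dif_neg (not_lt.2 h.le), dif_pos h, dif_neg (not_lt.2 h.le), zero_add]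
  have hVY : ∀ i j, (V * Y.transpose) i j = G j i := by
    intro i j
    rw [hG, Matrix.mul_apply, Matrix.mul_apply]
    refine Finset.sum_congr rfl fun a _ => ?_
    rw [Matrix.transpose_apply, Matrix.transpose_apply, mul_comm]
  have hR : (∑ e : Edge n, if b e then (V * Y.transpose + Y * V.transpose) e.1.1 e.1.2 else 0) =
      ∑ x : Fin n × Fin n, F x * (G x.2 x.1 + G x.1 x.2) := by
    have h1 : ∑ x : Fin n × Fin n, F x * (G x.2 x.1 + G x.1 x.2) =
        ∑ x ∈ univ.filter (fun x : Fin n × Fin n => x.1 < x.2), F x * (G x.2 x.1 + G x.1 x.2) := by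
      rw [Finset.sum_filter]
      refine Finset.sum_congr rfl fun x _ => ?_
      split_ifs with h
      · rfl
      · rw [hF]
        simp only
        rw [dif_neg h, zero_mul]
    rw [h1, Finset.sum_subtype (univ.filter (fun x : Fin n × Fin n => x.1 < x.2)) (p := fun x => x.1 < x.2)
      (fun x => by simp)]
    refine Finset.sum_congr rfl fun e _ => ?_
    rw [hF]
    simp only
    rw [dif_pos e.2, Matrix.add_apply, hVY]
    by_cases h : b e = true
    · simp [h, hG]
    · simp [h]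
  rw [hR]
  have hL : Matrix.trace (Y.transpose * (adj (ZMod p) b * V)) =
      ∑ x : Fin n × Fin n, (F x + F x.swap) * G x.1 x.2 := by
    rw [← Matrix.mul_assoc, Matrix.trace_mul_comm, ← Matrix.mul_assoc, Matrix.trace_mul_comm, Matrix.trace,
      Fintype.sum_prod_type]
    refine Finset.sum_congr rfl fun i _ => ?_
    rw [Matrix.diag_apply, Matrix.mul_apply]
    refine Finset.sum_congr rfl fun j _ => ?_
    rw [hVY, hadj]
    simp only [Prod.swap_prod_mk]
  rw [hL]
  simp only [add_mul, mul_add, Finset.sum_add_distrib]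
  rw [add_comm]
  congr 1
  exact Equiv.sum_comp (Equiv.prodComm (Fin n) (Fin n)) (fun x => F x * G x.2 x.1)

end Pool.H64.IR

end S_EBX

section S_WTC

/-! MODULE WTC (project MP_a758cf_pr, IR; overview: team-store H64_a758cf.md)
Let p_i be distinct odd primes. For a tuple m_i in ZMod p_i, zeta = prod_i e_i(m_i) is a root of unity, and zeta = 1 iff all m_i = 0
(distinct primes: zeta^(prod_{j /= i} p_j) = e_i(unit * m_i)). So |1+zeta|/2 < 1 unless all m_i = 0. There are finitely many tuples, so there is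
c0 < 1 with |1+zeta|/2 <= c0 for all nonzero tuples. With c1 = max(c0,1/2)^(1/t), t = card ι (t >= 1; if ι is empty take c1 = 1/2): for each edge e,
|1+zeta_e|/2 <= prod_i c1^[M_i(e) /= 0] (if some M_i(e) /= 0 the right side is >= c1^t >= c0). Product over the edges gives the claim, since
wt (M i) is the number of edges with M_i(e) /= 0. (The primes being odd is not used.)
-/

set_option autoImplicit false

namespace Pool.H64.IR

open Finset Polynomial

theorem wtc_ne_one {ι : Type} [Fintype ι] (p : ι → ℕ) [∀ i, Fact (p i).Prime] (hinj : Function.Injective p)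
    (m : ∀ i, ZMod (p i)) (j : ι) (hj : m j ≠ 0) : ∏ i, (ZMod.stdAddChar (m i) : ℂ) ≠ 1 := by
  classical
  intro h
  set N : ℕ := ∏ i ∈ univ.erase j, p i with hN
  have h1 : (∏ i, (ZMod.stdAddChar (m i) : ℂ)) ^ N = 1 := by rw [h, one_pow]
  rw [← Finset.prod_pow, ← Finset.mul_prod_erase univ _ (Finset.mem_univ j)] at h1
  have h2 : ∏ i ∈ univ.erase j, (ZMod.stdAddChar (m i) : ℂ) ^ N = 1 := by
    refine Finset.prod_eq_one fun i hi => ?_
    rw [← AddChar.map_nsmul_eq_pow]
    have : (N : ℕ) • m i = 0 := by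
      rw [nsmul_eq_mul]
      have : ((N : ℕ) : ZMod (p i)) = 0 := by
        rw [ZMod.natCast_eq_zero_iff]
        exact Finset.dvd_prod_of_mem _ hi
      rw [this, zero_mul]
    rw [this]
    simp
  rw [h2, mul_one, ← AddChar.map_nsmul_eq_pow] at h1
  have h3 : (ZMod.stdAddChar (0 : ZMod (p j)) : ℂ) = 1 := by simp
  rw [← h3] at h1
  have h4 := ZMod.injective_stdAddChar h1
  rw [nsmul_eq_mul, mul_eq_zero] at h4
  rcases h4 with h4 | h4
  · rw [ZMod.natCast_eq_zero_iff, hN] at h4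
    rw [Prime.dvd_finsetProd_iff (Nat.Prime.prime Fact.out)] at h4
    obtain ⟨i, hi, hd⟩ := h4
    have := (Nat.prime_dvd_prime_iff_eq (Fact.out : (p j).Prime) (Fact.out : (p i).Prime)).1 hd
    exact (Finset.mem_erase.1 hi).1 (hinj this).symm
  · exact hj h4

theorem wtc_norm {ι : Type} [Fintype ι] (p : ι → ℕ) [∀ i, Fact (p i).Prime]
    (m : ∀ i, ZMod (p i)) : ‖∏ i, (ZMod.stdAddChar (m i) : ℂ)‖ = 1 := by
  rw [norm_prod]
  exact Finset.prod_eq_one fun i _ => AddChar.norm_apply _ _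

theorem wtc_lt {ι : Type} [Fintype ι] (p : ι → ℕ) [∀ i, Fact (p i).Prime] (hinj : Function.Injective p)
    (m : ∀ i, ZMod (p i)) (hm : m ≠ 0) : ‖(1 + ∏ i, (ZMod.stdAddChar (m i) : ℂ)) / 2‖ < 1 := by
  obtain ⟨j, hj⟩ : ∃ j, m j ≠ 0 := by
    by_contra hno
    push Not at hno
    exact hm (funext hno)
  set z : ℂ := ∏ i, (ZMod.stdAddChar (m i) : ℂ) with hz
  have h1 : ‖z‖ = 1 := wtc_norm p m
  have h2 : z ≠ 1 := wtc_ne_one p hinj m j hj
  have h3 := parallelogram_law_with_norm ℝ (1 : ℂ) z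
  rw [h1, norm_one] at h3
  have h4 : 0 < ‖1 - z‖ := norm_pos_iff.2 (sub_ne_zero.2 (Ne.symm h2))
  have h5 : ‖1 + z‖ < 2 := by
    nlinarith [norm_nonneg (1 + z)]
  rw [norm_div]
  have : ‖(2 : ℂ)‖ = 2 := by simp
  rw [this]
  linarith

theorem wtc_sup {ι : Type} [Fintype ι] (p : ι → ℕ) [∀ i, Fact (p i).Prime] (hinj : Function.Injective p) :
    ∃ c : ℝ, 0 < c ∧ c < 1 ∧ ∀ m : ∀ i, ZMod (p i), m ≠ 0 →
      ‖(1 + ∏ i, (ZMod.stdAddChar (m i) : ℂ)) / 2‖ ≤ c := by
  classical
  rcases (univ.filter fun m : ∀ i, ZMod (p i) => m ≠ 0).eq_empty_or_nonempty with h | h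
  · refine ⟨1 / 2, by norm_num, by norm_num, fun m hm => ?_⟩
    exfalso
    have : m ∈ (univ.filter fun m : ∀ i, ZMod (p i) => m ≠ 0) := Finset.mem_filter.2 ⟨Finset.mem_univ _, hm⟩
    rw [h] at this
    simp at this
  · obtain ⟨m0, hm0, hmax⟩ := Finset.exists_max_image _
      (fun m : ∀ i, ZMod (p i) => ‖(1 + ∏ i, (ZMod.stdAddChar (m i) : ℂ)) / 2‖) h
    refine ⟨max (1 / 2) ‖(1 + ∏ i, (ZMod.stdAddChar (m0 i) : ℂ)) / 2‖, ?_, ?_, fun m hm => ?_⟩
    · exact lt_of_lt_of_le (by norm_num) (le_max_left _ _)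
    · exact max_lt (by norm_num) (wtc_lt p hinj m0 (Finset.mem_filter.1 hm0).2)
    · exact le_trans (hmax m (Finset.mem_filter.2 ⟨Finset.mem_univ _, hm⟩)) (le_max_right _ _)

theorem wtc {ι : Type} [Fintype ι] (p : ι → ℕ) [∀ i, Fact (p i).Prime] (hinj : Function.Injective p) :
    ∃ c1 : ℝ, 0 < c1 ∧ c1 < 1 ∧ ∀ (n : ℕ) (M : ∀ i, Matrix (Fin n) (Fin n) (ZMod (p i))),
      ‖∏ e : Edge n, ((1 + ∏ i, (ZMod.stdAddChar (M i e.1.1 e.1.2) : ℂ)) / 2)‖ ≤ ∏ i, c1 ^ wt (M i) := by
  classical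
  obtain ⟨c, hc0, hc1, hc⟩ := wtc_sup p hinj
  set t : ℕ := Fintype.card ι with ht
  set c1 : ℝ := 1 - (1 - c) / (t + 1) with hc1'
  have ht1 : (0 : ℝ) < t + 1 := by positivity
  have hx0 : 0 < (1 - c) / (t + 1) := div_pos (by linarith) ht1
  have hx1 : (1 - c) / (t + 1) ≤ 1 - c := by
    rw [div_le_iff₀ ht1]
    have : (0 : ℝ) ≤ t := Nat.cast_nonneg _
    nlinarith
  have h1pos : 0 < c1 := by rw [hc1']; linarith
  have h1lt : c1 < 1 := by rw [hc1']; linarith
  have hpow : c ≤ c1 ^ t := by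
    have h2 := one_add_mul_le_pow (a := -((1 - c) / (t + 1))) (by linarith) t
    have h3 : (1 : ℝ) + t * -((1 - c) / (t + 1)) = 1 - (1 - c) * (t / (t + 1)) := by
      field_simp
      ring
    have h4 : (t : ℝ) / (t + 1) ≤ 1 := by
      rw [div_le_one ht1]; linarith
    have h5 : c1 = 1 + -((1 - c) / (t + 1)) := by rw [hc1']; ring
    rw [h5]
    refine le_trans ?_ h2
    rw [h3]
    nlinarith
  refine ⟨c1, h1pos, h1lt, fun n M => ?_⟩
  rw [norm_prod]
  have hedge : ∀ e : Edge n, ‖(1 + ∏ i, (ZMod.stdAddChar (M i e.1.1 e.1.2) : ℂ)) / 2‖ ≤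
      ∏ i, (if M i e.1.1 e.1.2 ≠ 0 then c1 else 1) := by
    intro e
    by_cases h : (fun i => M i e.1.1 e.1.2 : ∀ i, ZMod (p i)) = 0
    · have h2 : ∀ i, M i e.1.1 e.1.2 = 0 := fun i => congrFun h i
      simp only [h2]
      simp
    · refine (hc _ h).trans (hpow.trans ?_)
      rw [ht, ← Finset.card_univ, ← Finset.prod_const]
      refine Finset.prod_le_prod (fun i _ => h1pos.le) fun i _ => ?_
      split_ifs
      · exact le_refl _
      · exact h1lt.le
  refine (Finset.prod_le_prod (fun e _ => norm_nonneg _) fun e _ => hedge e).trans (le_of_eq ?_)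
  rw [Finset.prod_comm]
  refine Finset.prod_congr rfl fun i _ => ?_
  rw [Finset.prod_ite, Finset.prod_const, Finset.prod_const_one, mul_one]
  rfl

end Pool.H64.IR

end S_WTC

section S_MAIN1

/-! MODULE MAIN1 (project MP_a758cf_pr, IR; overview: team-store H64_a758cf.md)
Main Fourier inequality. D_i = p_i^(n k_i)/p_i^(k_i(k_i-1)/2).
Proof. avg prod_i XC (C_i) = sum over families (V_i), V_i of full rank, of avg_b prod_i 1[A V_i = V_i C_i], and
1[A V = V C] = p^(-nk) sum_Y e(trace(Yᵀ(A V - V C))) (sum of additive characters over Matrix (Fin n) (Fin k) (ZMod p)). By tr_adj and ebx,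
avg_b prod_i 1[..] = prod_i p_i^(-n k_i) sum_{(Y_i)} prod_i e_i(-trace(Y_iᵀ V_i C_i)) W(M), M_i = V_i Y_iᵀ + Y_i V_iᵀ,
W(M) = prod_edges (1+prod_i e_i(M_i(e)))/2 (depends on Y only through M; W(0) = 1). Group by M:
= prod_i p_i^(-nk_i) sum_{(M_i)} W(M) prod_i TT V_i C_i M_i. The term M = 0 is prod_i p_i^(-nk_i) p_i^(k_i(k_i-1)/2) ind(sym) (fou_zero), total over V:
prod_i NC (C_i) 0 / D_i. The other terms are bounded by fou_norm and wtc: |W(M)| <= prod_i c1^wt(M_i), so their total is at most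
sum_{M /= 0} prod_i c1^wt(M_i) NC (C_i) (M_i)/D_i = prod_i (sum_M c1^wt(M) NC (C_i) M/D_i) - prod_i NC (C_i) 0/D_i  (wt 0 = 0).
-/

set_option autoImplicit false

namespace Pool.H64.IR

open Finset Polynomial

/-- orthogonality of the trace characters -/
theorem main1_sum {p : ℕ} [Fact p.Prime] {n k : ℕ} (X : Matrix (Fin n) (Fin k) (ZMod p)) :
    ∑ Y : Matrix (Fin n) (Fin k) (ZMod p), (ZMod.stdAddChar (Matrix.trace (Y.transpose * X)) : ℂ) =
      ((((p : ℝ) ^ n) ^ k * ind (X = 0) : ℝ) : ℂ) := by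
  classical
  set f : Matrix (Fin n) (Fin k) (ZMod p) →+ ZMod p :=
    { toFun := fun Y => Matrix.trace (Y.transpose * X)
      map_zero' := by simp
      map_add' := by intro Y Z; simp [Matrix.add_mul] } with hf
  set ψ : AddChar (Matrix (Fin n) (Fin k) (ZMod p)) ℂ := (ZMod.stdAddChar (N := p)).compAddMonoidHom f with hψ
  have h1 : ∀ Y, (ZMod.stdAddChar (Matrix.trace (Y.transpose * X)) : ℂ) = ψ Y := fun Y => rfl
  simp_rw [h1]
  rw [AddChar.sum_eq_ite]
  by_cases hX : X = 0
  · have h2 : ψ = 0 := by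
      ext Y
      rw [← h1, hX]
      simp
    rw [if_pos h2, ind_true hX, mul_one]
    have hc : Fintype.card (Matrix (Fin n) (Fin k) (ZMod p)) = (p ^ n) ^ k := by
      rw [← Nat.card_eq_fintype_card]
      change Nat.card (Fin n → Fin k → ZMod p) = _
      rw [Nat.card_fun, Nat.card_fun, Nat.card_eq_fintype_card, Nat.card_eq_fintype_card,
        Nat.card_eq_fintype_card, ZMod.card, Fintype.card_fin, Fintype.card_fin, ← pow_mul, ← pow_mul,
        mul_comm]
    rw [hc]
    push_cast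
    rfl
  · have h2 : ψ ≠ 0 := by
      intro h
      apply hX
      ext i a
      by_contra hne
      rw [Matrix.zero_apply] at hne
      have h3 : ψ (Matrix.single i a (X i a)⁻¹) = 1 := by rw [h]; rfl
      rw [← h1] at h3
      have h4 : Matrix.trace ((Matrix.single i a (X i a)⁻¹).transpose * X) = 1 := by
        rw [Matrix.transpose_single, Matrix.trace_single_mul]
        simp [hne]
      rw [h4] at h3
      have h5 : (ZMod.stdAddChar (0 : ZMod p) : ℂ) = 1 := by simp
      rw [← h5] at h3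
      have := ZMod.injective_stdAddChar h3
      exact one_ne_zero this
    rw [if_neg h2, ind_false hX]
    simp

theorem main1_ind {p : ℕ} [Fact p.Prime] {n k : ℕ} (A : Matrix (Fin n) (Fin n) (ZMod p))
    (V : Matrix (Fin n) (Fin k) (ZMod p)) (C : Matrix (Fin k) (Fin k) (ZMod p)) :
    ((ind (A * V = V * C) : ℝ) : ℂ) = (((((p : ℝ) ^ n) ^ k)⁻¹ : ℝ) : ℂ) *
      ∑ Y : Matrix (Fin n) (Fin k) (ZMod p),
        ((ZMod.stdAddChar (Matrix.trace (Y.transpose * (A * V))) : ℂ) *
          ZMod.stdAddChar (- Matrix.trace (Y.transpose * V * C))) := by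
  have h1 := main1_sum (A * V - V * C)
  have h2 : ∀ Y : Matrix (Fin n) (Fin k) (ZMod p),
      (ZMod.stdAddChar (Matrix.trace (Y.transpose * (A * V))) : ℂ) *
          ZMod.stdAddChar (- Matrix.trace (Y.transpose * V * C)) =
      ZMod.stdAddChar (Matrix.trace (Y.transpose * (A * V - V * C))) := by
    intro Y
    rw [← AddChar.map_add_eq_mul]
    congr 1
    rw [Matrix.mul_sub, Matrix.trace_sub, Matrix.mul_assoc Y.transpose V C]
    ring
  simp_rw [h2]
  rw [h1]
  have h3 : (p : ℝ) ≠ 0 := by exact_mod_cast (Fact.out : p.Prime).ne_zero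
  rw [← Complex.ofReal_mul]
  congr 1
  have h4 : ind (A * V - V * C = 0) = ind (A * V = V * C) := ind_congr sub_eq_zero
  rw [h4]
  field_simp

theorem main1_prod_ind {ι : Type} [Fintype ι] (P : ι → Prop) : ∏ i, ind (P i) = ind (∀ i, P i) := by
  by_cases h : ∀ i, P i
  · rw [ind_true h]
    exact Finset.prod_eq_one fun i _ => ind_true (h i)
  · rw [ind_false h]
    push Not at h
    obtain ⟨i, hi⟩ := h
    exact Finset.prod_eq_zero (Finset.mem_univ i) (ind_false hi)

/-- the edge product -/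
noncomputable def main1_W {ι : Type} [Fintype ι] (p : ι → ℕ) [∀ i, Fact (p i).Prime] (n : ℕ)
    (M : ∀ i, Matrix (Fin n) (Fin n) (ZMod (p i))) : ℂ :=
  ∏ e : Edge n, ((1 + ∏ i, (ZMod.stdAddChar (M i e.1.1 e.1.2) : ℂ)) / 2)

theorem main1_E {ι : Type} [Fintype ι] (p : ι → ℕ) [∀ i, Fact (p i).Prime] (n : ℕ) (k : ι → ℕ)
    (C : ∀ i, Matrix (Fin (k i)) (Fin (k i)) (ZMod (p i)))
    (V : ∀ i, Matrix (Fin n) (Fin (k i)) (ZMod (p i))) [DecidableEq ι] :
    ((avg (fun b : Edge n → Bool => ∏ i, ind (adj (ZMod (p i)) b * V i = V i * C i)) : ℝ) : ℂ) =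
      (∏ i, (((((p i : ℝ) ^ n) ^ (k i))⁻¹ : ℝ) : ℂ)) *
        ∑ M : ∀ i, Matrix (Fin n) (Fin n) (ZMod (p i)), main1_W p n M * ∏ i, TT (V i) (C i) (M i) := by
  classical
  -- left side
  have hL : ((avg (fun b : Edge n → Bool => ∏ i, ind (adj (ZMod (p i)) b * V i = V i * C i)) : ℝ) : ℂ) =
      (∏ i, (((((p i : ℝ) ^ n) ^ (k i))⁻¹ : ℝ) : ℂ)) *
        ∑ Y : ∀ i, Matrix (Fin n) (Fin (k i)) (ZMod (p i)),
          (∏ i, (ZMod.stdAddChar (- Matrix.trace ((Y i).transpose * V i * C i)) : ℂ)) *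
            main1_W p n (fun i => V i * (Y i).transpose + Y i * (V i).transpose) := by
    unfold avg
    rw [Complex.ofReal_div, Complex.ofReal_sum]
    have h1 : ∀ b : Edge n → Bool,
        (((∏ i, ind (adj (ZMod (p i)) b * V i = V i * C i) : ℝ)) : ℂ) =
        (∏ i, (((((p i : ℝ) ^ n) ^ (k i))⁻¹ : ℝ) : ℂ)) *
        ∑ Y : ∀ i, Matrix (Fin n) (Fin (k i)) (ZMod (p i)),
          (∏ i, (ZMod.stdAddChar (- Matrix.trace ((Y i).transpose * V i * C i)) : ℂ)) *
            ∏ i, (ZMod.stdAddChar (∑ e : Edge n, if b e then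
              (V i * (Y i).transpose + Y i * (V i).transpose) e.1.1 e.1.2 else 0) : ℂ) := by
      intro b
      rw [Complex.ofReal_prod]
      simp_rw [main1_ind]
      rw [Finset.prod_mul_distrib, Fintype.prod_sum]
      congr 1
      refine Finset.sum_congr rfl fun Y _ => ?_
      rw [← Finset.prod_mul_distrib]
      refine Finset.prod_congr rfl fun i _ => ?_
      rw [tr_adj, mul_comm]
    simp_rw [h1]
    rw [← Finset.mul_sum, mul_div_assoc]
    congr 1
    rw [Finset.sum_comm, Finset.sum_div]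
    refine Finset.sum_congr rfl fun Y _ => ?_
    rw [← Finset.mul_sum, mul_div_assoc]
    congr 1
    have := ebx p n (fun i => V i * (Y i).transpose + Y i * (V i).transpose)
    unfold main1_W
    rw [← this]
    simp
  rw [hL]
  congr 1
  -- right side
  have h2 : ∀ M : ∀ i, Matrix (Fin n) (Fin n) (ZMod (p i)), ∏ i, TT (V i) (C i) (M i) =
      ∑ Y : ∀ i, Matrix (Fin n) (Fin (k i)) (ZMod (p i)),
        (((ind (M = fun i => V i * (Y i).transpose + Y i * (V i).transpose) : ℝ)) : ℂ) *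
        ∏ i, (ZMod.stdAddChar (- Matrix.trace ((Y i).transpose * V i * C i)) : ℂ) := by
    intro M
    unfold TT
    rw [Fintype.prod_sum]
    refine Finset.sum_congr rfl fun Y _ => ?_
    rw [Finset.prod_mul_distrib, ← Complex.ofReal_prod, main1_prod_ind]
    congr 2
    refine ind_congr ?_
    rw [funext_iff]
    exact forall_congr' fun i => eq_comm
  simp_rw [h2, Finset.mul_sum]
  rw [Finset.sum_comm]
  refine Finset.sum_congr rfl fun Y _ => ?_
  rw [Finset.sum_eq_single (fun i => V i * (Y i).transpose + Y i * (V i).transpose)]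
  · rw [ind_true rfl]
    push_cast
    ring
  · intro M _ hM
    rw [ind_false hM]
    simp
  · intro h
    exact absurd (Finset.mem_univ _) h

theorem main1 {ι : Type} [Fintype ι] (p : ι → ℕ) [∀ i, Fact (p i).Prime] (hp : ∀ i, p i ≠ 2)
    (hinj : Function.Injective p) :
    ∃ c1 : ℝ, 0 < c1 ∧ c1 < 1 ∧ ∀ (n : ℕ) (k : ι → ℕ) (C : ∀ i, Matrix (Fin (k i)) (Fin (k i)) (ZMod (p i))),
      |avg (fun b : Edge n → Bool => ∏ i, XC (C i) (adj (ZMod (p i)) b)) -
          ∏ i, (NC (C i) (0 : Matrix (Fin n) (Fin n) (ZMod (p i))) /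
            (((p i : ℝ) ^ n) ^ (k i) / (p i : ℝ) ^ (k i * (k i - 1) / 2)))| ≤
        (∏ i, ∑ M : Matrix (Fin n) (Fin n) (ZMod (p i)), c1 ^ wt M * (NC (C i) M /
            (((p i : ℝ) ^ n) ^ (k i) / (p i : ℝ) ^ (k i * (k i - 1) / 2)))) -
          ∏ i, (NC (C i) (0 : Matrix (Fin n) (Fin n) (ZMod (p i))) /
            (((p i : ℝ) ^ n) ^ (k i) / (p i : ℝ) ^ (k i * (k i - 1) / 2))) := by
  classical
  obtain ⟨c1, h0, h1, hW⟩ := wtc p hinj
  refine ⟨c1, h0, h1, fun n k C => ?_⟩
  have hpos : ∀ i, (0 : ℝ) < (p i : ℝ) := fun i => by exact_mod_cast (Fact.out : (p i).Prime).pos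
  set D : ι → ℝ := fun i => (((p i : ℝ) ^ n) ^ (k i) / (p i : ℝ) ^ (k i * (k i - 1) / 2)) with hD
  have hDpos : ∀ i, 0 < D i := fun i => div_pos (pow_pos (pow_pos (hpos i) _) _) (pow_pos (hpos i) _)
  -- the indicator attached to V and M
  set J : (∀ i, Matrix (Fin n) (Fin (k i)) (ZMod (p i))) → (∀ i, Matrix (Fin n) (Fin n) (ZMod (p i))) → ℝ :=
    fun V M => ∏ i, ind (((V i).transpose * V i * C i).IsSymm ∧
      ∃ Y : Matrix (Fin n) (Fin (k i)) (ZMod (p i)), V i * Y.transpose + Y * (V i).transpose = M i) with hJ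
  set FR : (∀ i, Matrix (Fin n) (Fin (k i)) (ZMod (p i))) → ℝ := fun V => ∏ i, ind (FullRank (V i)) with hFR
  set E : (∀ i, Matrix (Fin n) (Fin (k i)) (ZMod (p i))) → ℝ := fun V =>
    avg (fun b : Edge n → Bool => ∏ i, ind (adj (ZMod (p i)) b * V i = V i * C i)) with hE
  have hFR0 : ∀ V, 0 ≤ FR V := fun V => Finset.prod_nonneg fun i _ => ind_nonneg _
  have hA : avg (fun b : Edge n → Bool => ∏ i, XC (C i) (adj (ZMod (p i)) b)) = ∑ V, FR V * E V := by
    have h2 : ∀ b : Edge n → Bool, ∏ i, XC (C i) (adj (ZMod (p i)) b) =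
        ∑ V : ∀ i, Matrix (Fin n) (Fin (k i)) (ZMod (p i)),
          FR V * ∏ i, ind (adj (ZMod (p i)) b * V i = V i * C i) := by
      intro b
      unfold XC
      rw [Fintype.prod_sum]
      refine Finset.sum_congr rfl fun V _ => ?_
      rw [hFR]
      simp only
      rw [← Finset.prod_mul_distrib]
      exact Finset.prod_congr rfl fun i _ => ind_and _ _
    simp_rw [h2]
    rw [avg_sum]
    exact Finset.sum_congr rfl fun V _ => avg_const_mul _ _
  have hN : ∀ M : ∀ i, Matrix (Fin n) (Fin n) (ZMod (p i)), ∏ i, (NC (C i) (M i) / D i) =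
      ∑ V, FR V * (J V M * ∏ i, (D i)⁻¹) := by
    intro M
    rw [Finset.prod_div_distrib, div_eq_mul_inv, Finset.prod_inv_distrib]
    unfold NC
    rw [Fintype.prod_sum, Finset.sum_mul]
    refine Finset.sum_congr rfl fun V _ => ?_
    rw [← mul_assoc, hFR, hJ]
    simp only
    rw [← Finset.prod_mul_distrib]
    congr 1
    exact Finset.prod_congr rfl fun i _ => ind_and _ _
  -- pointwise bound
  have hB : ∀ V, FR V * |E V - J V 0 * ∏ i, (D i)⁻¹| ≤
      ∑ M ∈ univ.erase (0 : ∀ i, Matrix (Fin n) (Fin n) (ZMod (p i))),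
        (∏ i, c1 ^ wt (M i)) * (FR V * (J V M * ∏ i, (D i)⁻¹)) := by
    intro V
    by_cases hV : ∀ i, FullRank (V i)
    swap
    · have : FR V = 0 := by
        rw [hFR]; simp only; rw [main1_prod_ind, ind_false hV]
      rw [this]
      simp
    have hF1 : FR V = 1 := by
      rw [hFR]; simp only; rw [main1_prod_ind, ind_true hV]
    rw [hF1, one_mul]
    simp_rw [one_mul]
    set q : ℝ := ∏ i, (((p i : ℝ) ^ n) ^ (k i))⁻¹ with hq
    have hq0 : 0 ≤ q := Finset.prod_nonneg fun i _ => by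
      have := hpos i; positivity
    have hqD : ∏ i, (D i)⁻¹ = q * ∏ i, (p i : ℝ) ^ (k i * (k i - 1) / 2) := by
      rw [hq, ← Finset.prod_mul_distrib]
      refine Finset.prod_congr rfl fun i _ => ?_
      rw [hD]
      simp only
      rw [inv_div, div_eq_mul_inv, mul_comm]
    have hEV := main1_E p n k C V
    have hTT0 : ∏ i, TT (V i) (C i) 0 =
        ((J V 0 * ∏ i, (p i : ℝ) ^ (k i * (k i - 1) / 2) : ℝ) : ℂ) := by
      have h3 : ∀ i, TT (V i) (C i) 0 = (((p i : ℝ) ^ (k i * (k i - 1) / 2) *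
          ind (((V i).transpose * V i * C i).IsSymm) : ℝ) : ℂ) := fun i => fou_zero (hp i) (V i) (hV i) (C i)
      simp_rw [h3]
      rw [← Complex.ofReal_prod, Finset.prod_mul_distrib, mul_comm]
      congr 2
      rw [hJ]
      refine Finset.prod_congr rfl fun i _ => ind_congr ?_
      constructor
      · intro h
        exact ⟨h, 0, by simp⟩
      · intro h
        exact h.1
    have hW0 : main1_W p n 0 = 1 := by
      unfold main1_W
      refine Finset.prod_eq_one fun e _ => ?_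
      have : ∏ i, (ZMod.stdAddChar ((0 : ∀ i, Matrix (Fin n) (Fin n) (ZMod (p i))) i e.1.1 e.1.2) : ℂ) = 1 := by
        refine Finset.prod_eq_one fun i _ => ?_
        simp
      rw [this]
      norm_num
    have h4 : ((E V - J V 0 * ∏ i, (D i)⁻¹ : ℝ) : ℂ) = (q : ℂ) *
        ∑ M ∈ univ.erase (0 : ∀ i, Matrix (Fin n) (Fin n) (ZMod (p i))),
          main1_W p n M * ∏ i, TT (V i) (C i) (M i) := by
      rw [Complex.ofReal_sub, hE]
      simp only
      rw [hEV, ← Finset.add_sum_erase _ _ (Finset.mem_univ (0 : ∀ i, Matrix (Fin n) (Fin n) (ZMod (p i)))),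
        hW0, one_mul, hqD]
      have h5 : ∏ i, TT (V i) (C i) ((0 : ∀ i, Matrix (Fin n) (Fin n) (ZMod (p i))) i) =
        ∏ i, TT (V i) (C i) 0 := rfl
      rw [h5, hTT0, hq]
      push_cast
      ring
    have h6 : |E V - J V 0 * ∏ i, (D i)⁻¹| = ‖((E V - J V 0 * ∏ i, (D i)⁻¹ : ℝ) : ℂ)‖ := by
      rw [Complex.norm_real, Real.norm_eq_abs]
    rw [h6, h4, norm_mul, Complex.norm_real, Real.norm_of_nonneg hq0]
    calc q * ‖∑ M ∈ univ.erase (0 : ∀ i, Matrix (Fin n) (Fin n) (ZMod (p i))),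
          main1_W p n M * ∏ i, TT (V i) (C i) (M i)‖
        ≤ q * ∑ M ∈ univ.erase (0 : ∀ i, Matrix (Fin n) (Fin n) (ZMod (p i))),
          ‖main1_W p n M * ∏ i, TT (V i) (C i) (M i)‖ :=
            mul_le_mul_of_nonneg_left (norm_sum_le _ _) hq0
      _ ≤ q * ∑ M ∈ univ.erase (0 : ∀ i, Matrix (Fin n) (Fin n) (ZMod (p i))),
          (∏ i, c1 ^ wt (M i)) * (J V M * ∏ i, (p i : ℝ) ^ (k i * (k i - 1) / 2)) := by
            refine mul_le_mul_of_nonneg_left (Finset.sum_le_sum fun M _ => ?_) hq0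
            rw [norm_mul]
            refine mul_le_mul (hW n M) ?_ (norm_nonneg _) (Finset.prod_nonneg fun i _ => pow_nonneg h0.le _)
            rw [norm_prod, mul_comm, hJ]
            simp only
            rw [← Finset.prod_mul_distrib]
            refine Finset.prod_le_prod (fun i _ => norm_nonneg _) fun i _ => ?_
            exact fou_norm (hp i) (V i) (hV i) (C i) (M i)
      _ = _ := by
            rw [hqD, Finset.mul_sum]
            refine Finset.sum_congr rfl fun M _ => ?_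
            ring
  -- assembly
  have h7 : avg (fun b : Edge n → Bool => ∏ i, XC (C i) (adj (ZMod (p i)) b)) -
      ∏ i, (NC (C i) (0 : Matrix (Fin n) (Fin n) (ZMod (p i))) / D i) =
      ∑ V, FR V * (E V - J V 0 * ∏ i, (D i)⁻¹) := by
    rw [hA]
    have := hN 0
    have h8 : ∏ i, (NC (C i) ((0 : ∀ i, Matrix (Fin n) (Fin n) (ZMod (p i))) i) / D i) =
      ∏ i, (NC (C i) (0 : Matrix (Fin n) (Fin n) (ZMod (p i))) / D i) := rfl
    rw [← h8, this, ← Finset.sum_sub_distrib]
    exact Finset.sum_congr rfl fun V _ => by ring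
  have h9 : (∏ i, ∑ M : Matrix (Fin n) (Fin n) (ZMod (p i)), c1 ^ wt M * (NC (C i) M / D i)) -
      ∏ i, (NC (C i) (0 : Matrix (Fin n) (Fin n) (ZMod (p i))) / D i) =
      ∑ M ∈ univ.erase (0 : ∀ i, Matrix (Fin n) (Fin n) (ZMod (p i))),
        (∏ i, c1 ^ wt (M i)) * ∏ i, (NC (C i) (M i) / D i) := by
    rw [Fintype.prod_sum, ← Finset.add_sum_erase _ _ (Finset.mem_univ (0 : ∀ i, Matrix (Fin n) (Fin n) (ZMod (p i))))]
    have h10 : ∏ i, (c1 ^ wt ((0 : ∀ i, Matrix (Fin n) (Fin n) (ZMod (p i))) i) *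
        (NC (C i) ((0 : ∀ i, Matrix (Fin n) (Fin n) (ZMod (p i))) i) / D i)) =
        ∏ i, (NC (C i) (0 : Matrix (Fin n) (Fin n) (ZMod (p i))) / D i) := by
      refine Finset.prod_congr rfl fun i _ => ?_
      have : wt ((0 : ∀ i, Matrix (Fin n) (Fin n) (ZMod (p i))) i) = 0 := by
        unfold wt
        simp
      rw [this, pow_zero, one_mul]
      rfl
    rw [h10, add_sub_cancel_left]
    refine Finset.sum_congr rfl fun M _ => ?_
    rw [Finset.prod_mul_distrib]
  rw [h7]
  calc |∑ V, FR V * (E V - J V 0 * ∏ i, (D i)⁻¹)|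
      ≤ ∑ V, |FR V * (E V - J V 0 * ∏ i, (D i)⁻¹)| := Finset.abs_sum_le_sum_abs _ _
    _ = ∑ V, FR V * |E V - J V 0 * ∏ i, (D i)⁻¹| := by
        refine Finset.sum_congr rfl fun V _ => ?_
        rw [abs_mul, abs_of_nonneg (hFR0 V)]
    _ ≤ ∑ V, ∑ M ∈ univ.erase (0 : ∀ i, Matrix (Fin n) (Fin n) (ZMod (p i))),
        (∏ i, c1 ^ wt (M i)) * (FR V * (J V M * ∏ i, (D i)⁻¹)) := Finset.sum_le_sum fun V _ => hB V
    _ = ∑ M ∈ univ.erase (0 : ∀ i, Matrix (Fin n) (Fin n) (ZMod (p i))),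
        (∏ i, c1 ^ wt (M i)) * ∏ i, (NC (C i) (M i) / D i) := by
        rw [Finset.sum_comm]
        refine Finset.sum_congr rfl fun M _ => ?_
        rw [← Finset.mul_sum, ← hN]
    _ = _ := h9.symm

end Pool.H64.IR

end S_MAIN1
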