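import Mathlib
import Pool.Agent.H64.IRL.L0

set_option autoImplicit false

/-! Characteristic polynomial of G(n,1/2), part L4: this file joins several modules to save build time. -/

section S_KER

/-! MODULE KER (project MP_a758cf_pr, IR; overview: team-store H64_a758cf.md)
For a monic irreducible polynomial g over F = ZMod p and a square matrix A: ker g(A) is a vector space over the field F[X]/(g) (q = p^(deg g) elements), so
kerc g A = q^m; and m >= 1 iff g | charpoly A. (If g | charpoly A: in the field K = AdjoinRoot g the root x is an eigenvalue of A; or: if ker g(A) = 0 then g(A) is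
invertible, minpoly A is then coprime to g [otherwise minpoly = g h, h(A) = 0], and the irreducible factors of charpoly and minpoly agree.
A direct way: det(g(A)) = resultant = 0; or: charpoly has the root x in K, so det(x - A) = 0 over K, so there is v /= 0 in K^n with A v = x v; apply an
F-linear functional of K not vanishing on some coordinate to get z in F^n nonzero with g(A) z = 0. Conversely z /= 0 with g(A) z = 0 : charpoly(A) z = 0, so
gcd(charpoly, g)(A) z = 0, gcd is 1 or g.)
-/

set_option autoImplicit false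

namespace Pool.H64.IR

open Finset Polynomial

/-- a finite `F[X]`-module killed by `g` is a vector space over `F[X]/(g)` -/
private theorem ker_card_abs {p : ℕ} [Fact p.Prime] (g : (ZMod p)[X]) (hi : Irreducible g)
    (M : Type) [AddCommGroup M] [Module (ZMod p)[X] M] [Finite M] :
    ∃ m : ℕ, Nat.card (Submodule.torsionBy (ZMod p)[X] M g) = (p ^ g.natDegree) ^ m := by
  haveI : Fact (Irreducible g) := ⟨hi⟩
  haveI hmax : (Ideal.span {g} : Ideal (ZMod p)[X]).IsMaximal :=
    PrincipalIdealRing.isMaximal_of_irreducible hi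
  letI : Field ((ZMod p)[X] ⧸ (Ideal.span {g} : Ideal (ZMod p)[X])) := Ideal.Quotient.field _
  have hcardK : Nat.card ((ZMod p)[X] ⧸ (Ideal.span {g} : Ideal (ZMod p)[X])) = p ^ g.natDegree := by
    have h1 : Module.finrank (ZMod p) ((ZMod p)[X] ⧸ (Ideal.span {g} : Ideal (ZMod p)[X])) =
      g.natDegree := finrank_quotient_span_eq_natDegree
    have h2 : Module.Finite (ZMod p) ((ZMod p)[X] ⧸ (Ideal.span {g} : Ideal (ZMod p)[X])) := by
      refine Module.finite_of_finrank_pos ?_
      rw [h1]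
      exact hi.natDegree_pos
    rw [Module.natCard_eq_pow_finrank (K := ZMod p), h1, Nat.card_zmod]
  refine ⟨Module.finrank ((ZMod p)[X] ⧸ (Ideal.span {g} : Ideal (ZMod p)[X]))
    (Submodule.torsionBy (ZMod p)[X] M g), ?_⟩
  rw [← hcardK]
  haveI : Module.Finite ((ZMod p)[X] ⧸ (Ideal.span {g} : Ideal (ZMod p)[X]))
    (Submodule.torsionBy (ZMod p)[X] M g) := Module.Finite.of_finite
  exact Module.natCard_eq_pow_finrank

/-- the cardinality of the kernel -/
private theorem ker_card {p : ℕ} [Fact p.Prime] {n : ℕ} (g : (ZMod p)[X]) (hi : Irreducible g)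
    (A : Matrix (Fin n) (Fin n) (ZMod p)) :
    ∃ m : ℕ, Nat.card {z : Fin n → ZMod p // (Polynomial.aeval A g).mulVec z = 0} =
      (p ^ g.natDegree) ^ m := by
  classical
  have hfin : Finite (Module.AEval' (Matrix.toLin' A)) := by
    change Finite (Fin n → ZMod p)
    infer_instance
  obtain ⟨m, hm⟩ := ker_card_abs g hi (Module.AEval' (Matrix.toLin' A))
  refine ⟨m, ?_⟩
  rw [← hm]
  refine Nat.card_congr ?_
  refine (Module.AEval'.of (Matrix.toLin' A)).toEquiv.subtypeEquiv fun z => ?_
  change _ ↔ Module.AEval'.of (Matrix.toLin' A) z ∈ Submodule.torsionBy (ZMod p)[X] _ g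
  rw [Submodule.mem_torsionBy_iff]
  have h5 : g • Module.AEval'.of (Matrix.toLin' A) z =
      Module.AEval'.of (Matrix.toLin' A) (aeval (Matrix.toLin' A) g z) :=
    (Module.AEval.of_aeval_smul (R := ZMod p) (M := Fin n → ZMod p) (Matrix.toLin' A) g z).symm
  rw [h5, LinearEquiv.map_eq_zero_iff]
  have h6 : aeval (Matrix.toLin' A) g = Matrix.toLin' (aeval A g) := by
    change aeval (Matrix.toLinAlgEquiv' A) g = Matrix.toLinAlgEquiv' (aeval A g)
    exact Polynomial.aeval_algHom_apply (Matrix.toLinAlgEquiv' :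
      Matrix (Fin n) (Fin n) (ZMod p) ≃ₐ[ZMod p] _).toAlgHom A g
  rw [h6, Matrix.toLin'_apply]

/-- the kernel is non-trivial iff `g ∣ charpoly` -/
private theorem ker_iff {p : ℕ} [Fact p.Prime] {n : ℕ} (g : (ZMod p)[X]) (hi : Irreducible g)
    (A : Matrix (Fin n) (Fin n) (ZMod p)) :
    (∃ z : Fin n → ZMod p, z ≠ 0 ∧ (Polynomial.aeval A g).mulVec z = 0) ↔ g ∣ A.charpoly := by
  classical
  constructor
  · rintro ⟨z, hz, hgz⟩
    by_contra hnd
    have hcop : IsCoprime g A.charpoly := (hi.coprime_iff_not_dvd).2 hnd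
    obtain ⟨a, b, hab⟩ := hcop
    have h1 : aeval A (a * g + b * A.charpoly) = 1 := by rw [hab, map_one]
    rw [map_add, map_mul, map_mul, Matrix.aeval_self_charpoly, mul_zero, add_zero] at h1
    have h2 : (aeval A a * aeval A g).mulVec z = z := by rw [h1, Matrix.one_mulVec]
    rw [← Matrix.mulVec_mulVec, hgz, Matrix.mulVec_zero] at h2
    exact hz h2.symm
  · intro hd
    haveI : Fact (Irreducible g) := ⟨hi⟩
    let K := AdjoinRoot g
    let α : K := AdjoinRoot.root g
    let B : Matrix (Fin n) (Fin n) K := A.map (algebraMap (ZMod p) K)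
    have hα : (B.charpoly).eval α = 0 := by
      obtain ⟨q, hq⟩ := hd
      have h1 : B.charpoly = A.charpoly.map (algebraMap (ZMod p) K) :=
        Matrix.charpoly_map A (algebraMap (ZMod p) K)
      rw [h1, hq, Polynomial.map_mul, eval_mul]
      have h2 : (g.map (algebraMap (ZMod p) K)).eval α = 0 := by
        rw [Polynomial.eval_map_algebraMap, AdjoinRoot.aeval_eq, AdjoinRoot.mk_self]
      rw [h2, zero_mul]
    rw [Matrix.eval_charpoly] at hα
    obtain ⟨v, hv0, hv⟩ := Matrix.exists_mulVec_eq_zero_iff.2 hα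
    rw [Matrix.sub_mulVec, sub_eq_zero] at hv
    have hv' : B.mulVec v = α • v := by
      rw [← hv]
      ext i
      rw [Matrix.scalar_apply, Matrix.mulVec_diagonal]
      rfl
    -- `g(B) v = 0`
    have h3 : (aeval B g).mulVec v = 0 := by
      have h4 : ∀ f : (ZMod p)[X], (aeval B f).mulVec v = (aeval α f) • v := by
        intro f
        induction f using Polynomial.induction_on' with
        | add f1 f2 h1 h2 =>
          rw [map_add, map_add, Matrix.add_mulVec, h1, h2, add_smul]
        | monomial k c =>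
          rw [aeval_monomial, aeval_monomial]
          have h5 : ∀ k : ℕ, (B ^ k).mulVec v = α ^ k • v := by
            intro k
            induction k with
            | zero => simp
            | succ k ih =>
              rw [pow_succ, ← Matrix.mulVec_mulVec, hv', Matrix.mulVec_smul, ih, smul_smul,
                pow_succ']
          rw [← Matrix.mulVec_mulVec, h5, ← smul_smul]
          rw [Algebra.algebraMap_eq_smul_one, Matrix.smul_mulVec, Matrix.one_mulVec,
            algebraMap_smul]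
      rw [h4 g, AdjoinRoot.aeval_eq, AdjoinRoot.mk_self, zero_smul]
    have h4 : (aeval B g).det = 0 := Matrix.exists_mulVec_eq_zero_iff.1 ⟨v, hv0, h3⟩
    have h5 : aeval B g = (aeval A g).map (algebraMap (ZMod p) K) := by
      have h6 := Polynomial.aeval_algHom_apply
        ((Algebra.ofId (ZMod p) K).mapMatrix (m := Fin n)) A g
      exact h6
    have h6 : (aeval A g).det = 0 := by
      have h7 : algebraMap (ZMod p) K (aeval A g).det = 0 := by
        rw [RingHom.map_det]
        rw [h5] at h4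
        exact h4
      exact (map_eq_zero_iff _ (algebraMap (ZMod p) K).injective).1 h7
    obtain ⟨z, hz0, hz⟩ := Matrix.exists_mulVec_eq_zero_iff.2 h6
    exact ⟨z, hz0, hz⟩

theorem ker_pow {p : ℕ} [Fact p.Prime] {n : ℕ} (g : (ZMod p)[X]) (hg : g.Monic) (hi : Irreducible g)
    (A : Matrix (Fin n) (Fin n) (ZMod p)) :
    ∃ m : ℕ, kerc g A = ((p : ℝ) ^ g.natDegree) ^ m ∧ (m = 0 ↔ ¬ g ∣ A.charpoly) := by
  classical
  obtain ⟨m, hm⟩ := ker_card g hi A
  have hk : kerc g A = (Nat.card {z : Fin n → ZMod p // (Polynomial.aeval A g).mulVec z = 0} : ℝ) := by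
    have h0 : kerc g A = ∑ z : Fin n → ZMod p,
        (if (Polynomial.aeval A g).mulVec z = 0 then (1 : ℝ) else 0) := by
      unfold kerc
      refine Finset.sum_congr rfl fun z _ => ?_
      by_cases hz : (Polynomial.aeval A g).mulVec z = 0
      · rw [ind_true hz, if_pos hz]
      · rw [ind_false hz, if_neg hz]
    rw [h0, Finset.sum_boole, Nat.card_eq_fintype_card, Fintype.card_subtype]
  refine ⟨m, ?_, ?_⟩
  · rw [hk, hm]
    push_cast
    rfl
  · have hp1 : 1 < p ^ g.natDegree := Nat.one_lt_pow hi.natDegree_pos.ne' (Fact.out : p.Prime).one_lt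
    rw [← ker_iff g hi A]
    constructor
    · rintro rfl ⟨z, hz, hgz⟩
      rw [pow_zero, Nat.card_eq_one_iff_unique] at hm
      obtain ⟨hss, -⟩ := hm
      have h1 := hss.elim (⟨z, hgz⟩ : {z : Fin n → ZMod p // (Polynomial.aeval A g).mulVec z = 0})
        ⟨0, Matrix.mulVec_zero _⟩
      exact hz (congrArg Subtype.val h1)
    · intro h
      by_contra hm0
      have h1 : 1 < (p ^ g.natDegree) ^ m := Nat.one_lt_pow hm0 hp1
      rw [← hm] at h1
      have h2 := (Finite.one_lt_card_iff_nontrivial).1 h1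
      obtain ⟨z, hz⟩ := exists_ne (⟨0, Matrix.mulVec_zero _⟩ :
        {z : Fin n → ZMod p // (Polynomial.aeval A g).mulVec z = 0})
      exact h ⟨z.1, fun h0 => hz (Subtype.ext h0), z.2⟩

end Pool.H64.IR

end S_KER

section S_PRM1

/-! MODULE PRM1 (project MP_a758cf_pr, IR; overview: team-store H64_a758cf.md)
Primary decomposition: s a finite set of monic irreducible polynomials, f = prod s. The vectors with annihilator (f) are the sums of nonzero z_g in ker g(A), g in s
(unique decomposition, the ideals (g) are pairwise comaximal: f | h iff all g | h; z = sum z_g, h(A) z = 0 iff h(A) z_g = 0 for all g iff g | h for all g).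
So X1 f A = prod_{g in s} (kerc g A - 1). (Induction on s: X1 (g f') A = X1 g A * X1 f' A for coprime g,f'; X1 g A = kerc g A - 1 for irreducible g.)
-/

set_option autoImplicit false

namespace Pool.H64.IR

open Finset Polynomial

theorem prm1_card {n p : ℕ} [Fact p.Prime] (P : (Fin n → ZMod p) → Prop) :
    ∑ z : Fin n → ZMod p, ind (P z) = (Nat.card {z // P z} : ℝ) := by
  classical
  unfold ind
  rw [Finset.sum_boole, Nat.card_eq_fintype_card, Fintype.card_subtype]

theorem prm1_act {n p : ℕ} [Fact p.Prime] (A : Matrix (Fin n) (Fin n) (ZMod p))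
    (a b : (ZMod p)[X]) (z : Fin n → ZMod p) :
    (aeval A (a * b)).mulVec z = (aeval A a).mulVec ((aeval A b).mulVec z) := by
  rw [map_mul, Matrix.mulVec_mulVec]

theorem prm1_left {n p : ℕ} [Fact p.Prime] (A : Matrix (Fin n) (Fin n) (ZMod p))
    {f g a b : (ZMod p)[X]} (hg : g ≠ 0) (hab : a * f + b * g = 1) {z : Fin n → ZMod p}
    (hz : IsAnn A z (f * g)) : IsAnn A ((aeval A (b * g)).mulVec z) f := by
  intro h
  rw [← prm1_act, hz]
  have h1 : h * (b * g) = (h * b) * g := by ring
  rw [h1, mul_dvd_mul_iff_right hg]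
  have h2 : IsCoprime f b := ⟨a, g, by rw [← hab]; ring⟩
  exact ⟨fun h3 => h2.dvd_of_dvd_mul_right h3, fun h3 => h3.mul_right b⟩

theorem x1_mul {p : ℕ} [Fact p.Prime] {n : ℕ} (f g : (ZMod p)[X]) (hf : f.Monic) (hg : g.Monic) (h : IsCoprime f g)
    (A : Matrix (Fin n) (Fin n) (ZMod p)) : X1 (f * g) A = X1 f A * X1 g A := by
  have hfg := h
  obtain ⟨a, b, hab⟩ := h
  have hba : b * g + a * f = 1 := by rw [← hab]; ring
  unfold X1
  rw [prm1_card, prm1_card, prm1_card, ← Nat.cast_mul, ← Nat.card_prod]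
  congr 1
  have hkill : ∀ {u : Fin n → ZMod p} {f : (ZMod p)[X]}, IsAnn A u f → ∀ c : (ZMod p)[X],
      (aeval A (c * f)).mulVec u = 0 := fun hu c => (hu _).2 (dvd_mul_left _ _)
  have hone : ∀ z : Fin n → ZMod p, (aeval A (b * g)).mulVec z + (aeval A (a * f)).mulVec z = z := by
    intro z
    rw [← Matrix.add_mulVec, ← map_add, hba, map_one, Matrix.one_mulVec]
  refine Nat.card_congr
    { toFun := fun z => (⟨(aeval A (b * g)).mulVec z.1, prm1_left A hg.ne_zero hab z.2⟩,
        ⟨(aeval A (a * f)).mulVec z.1, prm1_left A hf.ne_zero hba (fun h => (z.2 h).trans (by rw [mul_comm f g]))⟩)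
      invFun := fun q => ⟨q.1.1 + q.2.1, ?_⟩
      left_inv := ?_
      right_inv := ?_ }
  · intro h
    rw [Matrix.mulVec_add]
    constructor
    · intro h1
      refine IsCoprime.mul_dvd hfg ?_ ?_
      · have h2 : (aeval A (g * h)).mulVec q.1.1 = 0 := by
          have h3 : (aeval A g).mulVec ((aeval A h).mulVec q.1.1 + (aeval A h).mulVec q.2.1) = 0 := by
            rw [h1, Matrix.mulVec_zero]
          rw [Matrix.mulVec_add, ← prm1_act, ← prm1_act] at h3
          have h4 : (aeval A (g * h)).mulVec q.2.1 = 0 := by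
            rw [mul_comm]; exact hkill q.2.2 h
          rwa [h4, add_zero] at h3
        exact hfg.dvd_of_dvd_mul_left ((q.1.2 _).1 h2)
      · have h2 : (aeval A (f * h)).mulVec q.2.1 = 0 := by
          have h3 : (aeval A f).mulVec ((aeval A h).mulVec q.1.1 + (aeval A h).mulVec q.2.1) = 0 := by
            rw [h1, Matrix.mulVec_zero]
          rw [Matrix.mulVec_add, ← prm1_act, ← prm1_act] at h3
          have h4 : (aeval A (f * h)).mulVec q.1.1 = 0 := by
            rw [mul_comm]; exact hkill q.1.2 h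
          rwa [h4, zero_add] at h3
        exact hfg.symm.dvd_of_dvd_mul_left ((q.2.2 _).1 h2)
    · intro h1
      rw [(q.1.2 h).2 (dvd_of_mul_right_dvd h1), (q.2.2 h).2 (dvd_of_mul_left_dvd h1), add_zero]
  · intro z
    exact Subtype.ext (hone z.1)
  · rintro ⟨u, v⟩
    have hu : (aeval A (a * f)).mulVec u.1 = 0 := hkill u.2 a
    have hv : (aeval A (b * g)).mulVec v.1 = 0 := hkill v.2 b
    have hu' := hone u.1
    rw [hu, add_zero] at hu'
    have hv' := hone v.1
    rw [hv, zero_add] at hv'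
    refine Prod.ext (Subtype.ext ?_) (Subtype.ext ?_)
    · change (aeval A (b * g)).mulVec (u.1 + v.1) = u.1
      rw [Matrix.mulVec_add, hv, add_zero, hu']
    · change (aeval A (a * f)).mulVec (u.1 + v.1) = v.1
      rw [Matrix.mulVec_add, hu, zero_add, hv']

theorem prm1_irr {p : ℕ} [Fact p.Prime] {n : ℕ} (g : (ZMod p)[X]) (hi : Irreducible g)
    (A : Matrix (Fin n) (Fin n) (ZMod p)) : X1 g A = kerc g A - 1 := by
  classical
  have h1 : ∀ z : Fin n → ZMod p, ind ((aeval A g).mulVec z = 0) =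
      ind (IsAnn A z g) + (if z = 0 then (1 : ℝ) else 0) := by
    intro z
    by_cases hz : z = 0
    · have h2 : ¬ IsAnn A z g := by
        intro h3
        have h4 := (h3 1).1 (by rw [hz, Matrix.mulVec_zero])
        exact hi.not_isUnit (isUnit_of_dvd_one h4)
      rw [ind_false h2, if_pos hz, ind_true (by rw [hz, Matrix.mulVec_zero]), zero_add]
    · rw [if_neg hz, add_zero]
      refine ind_congr ⟨fun h2 h => ⟨fun h3 => ?_, ?_⟩, fun h2 => (h2 g).2 dvd_rfl⟩
      · by_contra h4
        obtain ⟨a, b, hab⟩ := (hi.coprime_iff_not_dvd).2 h4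
        apply hz
        have h5 : (aeval A (a * g + b * h)).mulVec z = z := by
          rw [hab, map_one, Matrix.one_mulVec]
        rw [← h5, map_add, Matrix.add_mulVec, prm1_act, prm1_act, h2, h3, Matrix.mulVec_zero,
          Matrix.mulVec_zero, add_zero]
      · rintro ⟨c, rfl⟩
        rw [mul_comm, prm1_act, h2, Matrix.mulVec_zero]
  unfold X1 kerc
  rw [Finset.sum_congr rfl fun z _ => h1 z, Finset.sum_add_distrib]
  simp

theorem prm1_one {p : ℕ} [Fact p.Prime] {n : ℕ} (A : Matrix (Fin n) (Fin n) (ZMod p)) :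
    X1 (1 : (ZMod p)[X]) A = 1 := by
  classical
  have h1 : ∀ z : Fin n → ZMod p, ind (IsAnn A z 1) = (if z = 0 then (1 : ℝ) else 0) := by
    intro z
    by_cases hz : z = 0
    · rw [if_pos hz, ind_true]
      intro h
      rw [hz, Matrix.mulVec_zero]
      simp
    · rw [if_neg hz, ind_false]
      intro h
      apply hz
      have := (h 1).2 dvd_rfl
      rwa [map_one, Matrix.one_mulVec] at this
  unfold X1
  rw [Finset.sum_congr rfl fun z _ => h1 z]
  simp

theorem x1_prod {p : ℕ} [Fact p.Prime] {n : ℕ} (s : Finset (ZMod p)[X]) (hs : ∀ g ∈ s, g.Monic ∧ Irreducible g)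
    (A : Matrix (Fin n) (Fin n) (ZMod p)) : X1 (∏ g ∈ s, g) A = ∏ g ∈ s, (kerc g A - 1) := by
  classical
  induction s using Finset.induction_on with
  | empty => rw [Finset.prod_empty, Finset.prod_empty, prm1_one]
  | insert g s hgs ih =>
    have hg := hs g (Finset.mem_insert_self _ _)
    have hs' : ∀ f ∈ s, f.Monic ∧ Irreducible f := fun f hf => hs f (Finset.mem_insert_of_mem hf)
    rw [Finset.prod_insert hgs, Finset.prod_insert hgs, ← ih hs', ← prm1_irr g hg.2 A]
    refine x1_mul _ _ hg.1 (monic_prod_of_monic _ _ fun f hf => (hs' f hf).1) ?_ A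
    refine IsCoprime.prod_right fun f hf => ?_
    rw [hg.2.coprime_iff_not_dvd]
    intro hd
    have h1 : Associated g f := hg.2.associated_of_dvd (hs' f hf).2 hd
    have h2 := eq_of_monic_of_associated hg.1 (hs' f hf).1 h1
    exact hgs (h2 ▸ hf)

end Pool.H64.IR

end S_PRM1

section S_CMP1

/-! MODULE CMP1 (project MP_a758cf_pr, IR; overview: team-store H64_a758cf.md)
XC (comp f) A = X1 f A for monic f (degree k, also k = 0).
V = V (comp f) relation: column j+1 of V is A times column j (j+1 < k), and A v_{k-1} = - sum_i f_i v_i, so with z = column 0: v_j = A^j z and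
f(A) z = 0; full rank says z, Az, .., A^{k-1} z independent, i.e. no nonzero polynomial of degree < k kills z; together with f(A) z = 0, f monic:
g(A) z = 0 iff f | g (divide g by f). Bijection V <-> z. (For k = 0: f = 1, V is the empty matrix, z = 0 is the only vector with annihilator (1).)
-/

set_option autoImplicit false

namespace Pool.H64.IR

open Finset Polynomial

private lemma cmp1_aeval {F : Type} [Field F] {n : ℕ} (A : Matrix (Fin n) (Fin n) F)
    (z : Fin n → F) (g : F[X]) (N : ℕ) (hN : ∀ i, N ≤ i → g.coeff i = 0) :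
    (Polynomial.aeval A g).mulVec z = ∑ c : Fin N, g.coeff c • (A ^ (c : ℕ)).mulVec z := by
  have h1 : Polynomial.aeval A g = ∑ c ∈ Finset.range N, g.coeff c • A ^ c := by
    rw [Polynomial.aeval_def, Polynomial.eval₂_eq_sum, Polynomial.sum_over_range' _ _ (max N (g.natDegree + 1))]
    · rw [← Finset.sum_subset (Finset.range_subset_range.2 (le_max_left N (g.natDegree + 1)))]
      · refine Finset.sum_congr rfl fun c _ => ?_
        rw [Algebra.smul_def]
      · intro x _ hx
        rw [Finset.mem_range, not_lt] at hx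
        rw [hN x hx, map_zero, zero_mul]
    · exact lt_of_lt_of_le (Nat.lt_succ_self _) (le_max_right _ _)
    · intro i
      rw [map_zero, zero_mul]
  rw [h1, Finset.sum_range, Matrix.sum_mulVec]
  refine Finset.sum_congr rfl fun c _ => ?_
  rw [Matrix.smul_mulVec]

/-- linear independence of `z, A z, .., A^(k-1) z` -/
private lemma cmp1_li {F : Type} [Field F] {n k : ℕ} (A : Matrix (Fin n) (Fin n) F) (z : Fin n → F)
    (f : F[X]) (hk : f.natDegree = k) (hf : f.Monic) (hfz : (Polynomial.aeval A f).mulVec z = 0) :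
    (∀ g : F[X], (Polynomial.aeval A g).mulVec z = 0 ↔ f ∣ g) ↔
      LinearIndependent F (fun a : Fin k => (A ^ (a : ℕ)).mulVec z) := by
  classical
  rw [Fintype.linearIndependent_iff]
  constructor
  · intro h c hc
    set g : F[X] := ∑ a : Fin k, Polynomial.monomial (a : ℕ) (c a) with hg
    have hcoeff : ∀ a : Fin k, g.coeff a = c a := by
      intro a
      rw [hg, Polynomial.finset_sum_coeff, Finset.sum_eq_single a]
      · rw [Polynomial.coeff_monomial, if_pos rfl]
      · intro b _ hb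
        rw [Polynomial.coeff_monomial, if_neg]
        intro h
        exact hb (Fin.ext h)
      · intro h
        exact absurd (Finset.mem_univ _) h
    have hcoeff' : ∀ i, k ≤ i → g.coeff i = 0 := by
      intro i hi
      rw [hg, Polynomial.finset_sum_coeff]
      refine Finset.sum_eq_zero fun b _ => ?_
      rw [Polynomial.coeff_monomial, if_neg]
      have := b.2
      omega
    have h1 : (Polynomial.aeval A g).mulVec z = 0 := by
      rw [cmp1_aeval A z g k hcoeff', ← hc]
      refine Finset.sum_congr rfl fun a _ => ?_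
      rw [hcoeff]
    have h2 := (h g).1 h1
    have h3 : g = 0 := by
      refine Polynomial.eq_zero_of_dvd_of_degree_lt h2 ?_
      rw [Polynomial.degree_eq_natDegree hf.ne_zero, hk]
      exact (Polynomial.degree_lt_iff_coeff_zero g k).2 hcoeff'
    intro a
    rw [← hcoeff a, h3, Polynomial.coeff_zero]
  · intro h g
    constructor
    · intro hgz
      have h1 : (Polynomial.aeval A (g %ₘ f)).mulVec z = 0 := by
        have h2 : g = f * (g /ₘ f) + g %ₘ f := by
          rw [add_comm]
          exact (Polynomial.modByMonic_add_div g f).symm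
        have h3 : (Polynomial.aeval A (f * (g /ₘ f))).mulVec z = 0 := by
          rw [mul_comm, map_mul, ← Matrix.mulVec_mulVec, hfz, Matrix.mulVec_zero]
        rw [h2, map_add, Matrix.add_mulVec, h3, zero_add] at hgz
        exact hgz
      have hdeg : ∀ i, k ≤ i → (g %ₘ f).coeff i = 0 := by
        have h4 := Polynomial.degree_modByMonic_lt g hf
        rw [Polynomial.degree_eq_natDegree hf.ne_zero, hk] at h4
        exact (Polynomial.degree_lt_iff_coeff_zero _ k).1 h4
      rw [cmp1_aeval A z _ k hdeg] at h1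
      have h5 := h _ h1
      rw [← Polynomial.modByMonic_eq_zero_iff_dvd hf]
      ext i
      rw [Polynomial.coeff_zero]
      rcases Nat.lt_or_ge i k with h6 | h6
      · exact h5 ⟨i, h6⟩
      · exact hdeg i h6
    · rintro ⟨g, rfl⟩
      rw [mul_comm, map_mul, ← Matrix.mulVec_mulVec, hfz, Matrix.mulVec_zero]

private lemma cmp1_as_sum {F : Type} [Field F] {n k : ℕ} (A : Matrix (Fin n) (Fin n) F) (z : Fin n → F)
    (f : F[X]) (hk : f.natDegree = k) (hf : f.Monic) :
    (Polynomial.aeval A f).mulVec z =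
      (A ^ k).mulVec z + ∑ c : Fin k, f.coeff c • (A ^ (c : ℕ)).mulVec z := by
  rw [cmp1_aeval A z f (k + 1), Fin.sum_univ_castSucc, add_comm]
  · congr 1
    rw [Fin.val_last]
    have h1 : f.coeff k = 1 := by rw [← hk]; exact hf.coeff_natDegree
    rw [h1, one_smul]
  · intro i hi
    exact Polynomial.coeff_eq_zero_of_natDegree_lt (by omega)

/-- the relation `A V = V C` column by column -/
private lemma cmp1_rel {F : Type} [Field F] {n k : ℕ} (A : Matrix (Fin n) (Fin n) F)
    (f : F[X]) (C : Matrix (Fin k) (Fin k) F)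
    (hC : ∀ i j : Fin k, C i j = if (j : ℕ) + 1 = k then - f.coeff i else if (i : ℕ) = j + 1 then 1 else 0)
    (V : Matrix (Fin n) (Fin k) F) :
    (A * V = V * C) ↔ (∀ (j : ℕ) (hj : j + 1 < k),
        A.mulVec (fun i => V i ⟨j, by omega⟩) = fun i => V i ⟨j + 1, hj⟩) ∧
      (∀ (j : ℕ) (hj : j + 1 = k), A.mulVec (fun i => V i ⟨j, by omega⟩) =
        - ∑ c : Fin k, f.coeff c • fun i => V i c) := by
  have hcol1 : ∀ (j : ℕ) (hj : j + 1 < k) (i : Fin n), (V * C) i ⟨j, by omega⟩ = V i ⟨j + 1, hj⟩ := by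
    intro j hj i
    rw [Matrix.mul_apply, Finset.sum_eq_single (⟨j + 1, hj⟩ : Fin k)]
    · rw [hC, if_neg (by simpa using hj.ne), if_pos rfl, mul_one]
    · intro c _ hc
      rw [hC, if_neg (by simpa using hj.ne), if_neg, mul_zero]
      intro h
      exact hc (Fin.ext h)
    · intro h
      exact absurd (Finset.mem_univ _) h
  have hcol2 : ∀ (j : ℕ) (hj : j + 1 = k) (i : Fin n), (V * C) i ⟨j, by omega⟩ =
      (- ∑ c : Fin k, f.coeff c • fun i => V i c) i := by
    intro j hj i
    rw [Matrix.mul_apply, Pi.neg_apply, Finset.sum_apply, ← Finset.sum_neg_distrib]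
    refine Finset.sum_congr rfl fun c _ => ?_
    rw [hC, if_pos (by simpa using hj), Pi.smul_apply, smul_eq_mul]
    ring
  constructor
  · intro h
    constructor
    · intro j hj
      ext i
      rw [← hcol1 j hj i, ← h]
      rfl
    · intro j hj
      ext i
      rw [← hcol2 j hj i, ← h]
      rfl
  · rintro ⟨h1, h2⟩
    ext i j
    obtain ⟨j, hj⟩ := j
    rcases Nat.lt_or_ge (j + 1) k with h3 | h3
    · rw [hcol1 j h3 i]
      exact congrFun (h1 j h3) i
    · have h4 : j + 1 = k := by omega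
      rw [hcol2 j h4 i]
      exact congrFun (h2 j h4) i

private lemma cmp1_gen {F : Type} [Field F] [Fintype F] {n k : ℕ} (A : Matrix (Fin n) (Fin n) F)
    (f : F[X]) (hk : f.natDegree = k) (hf : f.Monic) (C : Matrix (Fin k) (Fin k) F)
    (hC : ∀ i j : Fin k, C i j = if (j : ℕ) + 1 = k then - f.coeff i else if (i : ℕ) = j + 1 then 1 else 0) :
    Nat.card {z : Fin n → F // ∀ g : F[X], (Polynomial.aeval A g).mulVec z = 0 ↔ f ∣ g} =
    Nat.card {V : Matrix (Fin n) (Fin k) F //
      LinearIndependent F (fun a : Fin k => fun i : Fin n => V i a) ∧ A * V = V * C} := by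
  classical
  have hz0 : ∀ z : {z : Fin n → F // ∀ g : F[X], (Polynomial.aeval A g).mulVec z = 0 ↔ f ∣ g},
      (Polynomial.aeval A f).mulVec z.1 = 0 := fun z => (z.2 f).2 dvd_rfl
  refine Nat.card_eq_of_bijective (fun z => ⟨Matrix.of fun i a => (A ^ (a : ℕ)).mulVec z.1 i, ?_, ?_⟩) ⟨?_, ?_⟩
  · exact (cmp1_li A z.1 f hk hf (hz0 z)).1 z.2
  · refine (cmp1_rel A f C hC _).2 ?_
    constructor
    · intro j hj
      change A.mulVec ((A ^ j).mulVec z.1) = (A ^ (j + 1)).mulVec z.1
      rw [Matrix.mulVec_mulVec, pow_succ']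
    · intro j hj
      change A.mulVec ((A ^ j).mulVec z.1) = - ∑ c : Fin k, f.coeff c • (A ^ (c : ℕ)).mulVec z.1
      rw [Matrix.mulVec_mulVec, ← pow_succ', hj]
      have h1 := hz0 z
      rw [cmp1_as_sum A z.1 f hk hf] at h1
      exact eq_neg_of_add_eq_zero_left h1
  · intro z w h
    have h1 : ∀ (i : Fin n) (a : Fin k), (A ^ (a : ℕ)).mulVec z.1 i = (A ^ (a : ℕ)).mulVec w.1 i := by
      intro i a
      exact congrFun (congrFun (congrArg Subtype.val h) i) a
    rcases Nat.eq_zero_or_pos k with h0 | h0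
    · have hf1 : f = 1 := by
        rw [← hf.natDegree_eq_zero, hk, h0]
      have h2 : ∀ z : {z : Fin n → F // ∀ g : F[X], (Polynomial.aeval A g).mulVec z = 0 ↔ f ∣ g},
          z.1 = 0 := by
        intro z
        have h3 := (z.2 1).2 (by rw [hf1])
        rw [map_one, Matrix.one_mulVec] at h3
        exact h3
      apply Subtype.ext
      rw [h2 z, h2 w]
    · apply Subtype.ext
      ext i
      have h2 := h1 i ⟨0, h0⟩
      simpa using h2
  · rintro ⟨V, hV1, hV2⟩
    rw [cmp1_rel A f C hC] at hV2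
    obtain ⟨hr1, hr2⟩ := hV2
    rcases Nat.eq_zero_or_pos k with h0 | h0
    · have hf1 : f = 1 := by
        rw [← hf.natDegree_eq_zero, hk, h0]
      refine ⟨⟨0, ?_⟩, ?_⟩
      · intro g
        rw [Matrix.mulVec_zero, hf1]
        simp
      · apply Subtype.ext
        ext i a
        have := a.2
        omega
    · set z : Fin n → F := fun i => V i ⟨0, h0⟩ with hz
      have hcol : ∀ (a : ℕ) (ha : a < k), (A ^ a).mulVec z = fun i => V i ⟨a, ha⟩ := by
        intro a
        induction a with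
        | zero => intro ha; rw [pow_zero, Matrix.one_mulVec]
        | succ a ih =>
          intro ha
          rw [pow_succ', ← Matrix.mulVec_mulVec, ih (by omega), hr1 a ha]
      have hfz : (Polynomial.aeval A f).mulVec z = 0 := by
        rw [cmp1_as_sum A z f hk hf]
        obtain ⟨j, rfl⟩ : ∃ j, k = j + 1 := ⟨k - 1, by omega⟩
        rw [pow_succ', ← Matrix.mulVec_mulVec, hcol j (by omega), hr2 j rfl, neg_add_eq_zero]
        refine Finset.sum_congr rfl fun c _ => ?_
        rw [hcol c.1 c.2]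
      have hli : LinearIndependent F (fun a : Fin k => (A ^ (a : ℕ)).mulVec z) := by
        have h1 : (fun a : Fin k => (A ^ (a : ℕ)).mulVec z) = fun a : Fin k => fun i => V i a := by
          ext a i
          rw [hcol a.1 a.2]
        rw [h1]
        exact hV1
      refine ⟨⟨z, (cmp1_li A z f hk hf hfz).2 hli⟩, ?_⟩
      apply Subtype.ext
      ext i a
      exact congrFun (hcol a.1 a.2) i

theorem cmp1 {p : ℕ} [Fact p.Prime] {n : ℕ} (f : (ZMod p)[X]) (hf : f.Monic) (A : Matrix (Fin n) (Fin n) (ZMod p)) :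
    XC (comp f) A = X1 f A := by
  classical
  have h := cmp1_gen A f rfl hf (comp f) (by
    intro i j
    unfold comp
    rw [Matrix.of_apply])
  have h1 : XC (comp f) A = ∑ V : Matrix (Fin n) (Fin f.natDegree) (ZMod p),
      (if (LinearIndependent (ZMod p) (fun a : Fin f.natDegree => fun i : Fin n => V i a) ∧
        A * V = V * comp f) then (1 : ℝ) else 0) := by
    unfold XC FullRank
    refine Finset.sum_congr rfl fun S _ => ?_
    split_ifs with h2
    · exact ind_true h2
    · exact ind_false h2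
  have h2 : X1 f A = ∑ z : Fin n → ZMod p,
      (if (∀ g : (ZMod p)[X], (Polynomial.aeval A g).mulVec z = 0 ↔ f ∣ g) then (1 : ℝ) else 0) := by
    unfold X1 IsAnn
    refine Finset.sum_congr rfl fun S _ => ?_
    split_ifs with h2
    · exact ind_true h2
    · exact ind_false h2
  rw [h1, h2, Finset.sum_boole, Finset.sum_boole]
  rw [Nat.card_eq_fintype_card, Fintype.card_subtype, Nat.card_eq_fintype_card,
    Fintype.card_subtype] at h
  exact_mod_cast h.symm

end Pool.H64.IR

end S_CMP1

section S_CMP2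

/-! MODULE CMP2 (project MP_a758cf_pr, IR; overview: team-store H64_a758cf.md)
Two blocks. s a finite set of monic irreducibles, g in s, f = prod s. Then XC (fromBlocks (comp f) 0 0 (comp g)) A = X1 f A * (kerc g A - q), q = p^(deg g).
Proof. V = [V1 V2] with V1 <-> z (as in CMP1), V2 <-> w, V full rank iff ann(z) = (f), ann(w) = (g) and the spans W_z = F[A]z, W_w = F[A] w meet in 0. Since
F[A] w is a simple F[X]-module (g irreducible), this says w in ker g(A), w not in W_z. For z with annihilator (f), W_z inf ker g(A) = F[A] (f/g)(A) z has q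
elements. So for each z the number of w is kerc g A - q.
-/

set_option autoImplicit false

namespace Pool.H64.IR

open Finset Polynomial

section cmp2
variable {p : ℕ} [Fact p.Prime] {n : ℕ}

/-- action of polynomials on vectors -/
noncomputable def cmp2_act (A : Matrix (Fin n) (Fin n) (ZMod p)) (h : (ZMod p)[X]) (z : Fin n → ZMod p) :
    Fin n → ZMod p := (Polynomial.aeval A h).mulVec z

lemma cmp2_act_mul (A : Matrix (Fin n) (Fin n) (ZMod p)) (h k : (ZMod p)[X]) (z : Fin n → ZMod p) :
    cmp2_act A (h * k) z = cmp2_act A h (cmp2_act A k z) := by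
  simp [cmp2_act, Matrix.mulVec_mulVec]

lemma cmp2_act_add (A : Matrix (Fin n) (Fin n) (ZMod p)) (h k : (ZMod p)[X]) (z : Fin n → ZMod p) :
    cmp2_act A (h + k) z = cmp2_act A h z + cmp2_act A k z := by
  simp [cmp2_act, Matrix.add_mulVec]

lemma cmp2_act_sub (A : Matrix (Fin n) (Fin n) (ZMod p)) (h k : (ZMod p)[X]) (z : Fin n → ZMod p) :
    cmp2_act A (h - k) z = cmp2_act A h z - cmp2_act A k z := by
  simp [cmp2_act, Matrix.sub_mulVec]

lemma cmp2_act_one (A : Matrix (Fin n) (Fin n) (ZMod p)) (z : Fin n → ZMod p) :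
    cmp2_act A 1 z = z := by
  simp [cmp2_act]

lemma cmp2_act_zero (A : Matrix (Fin n) (Fin n) (ZMod p)) (z : Fin n → ZMod p) :
    cmp2_act A 0 z = 0 := by
  simp [cmp2_act]

lemma cmp2_act_vzero (A : Matrix (Fin n) (Fin n) (ZMod p)) (h : (ZMod p)[X]) :
    cmp2_act A h (0 : Fin n → ZMod p) = 0 := by
  simp [cmp2_act]

/-- polynomial with given coefficients -/
noncomputable def cmp2_pol {k : ℕ} (c : Fin k → ZMod p) : (ZMod p)[X] := ∑ j : Fin k, C (c j) * X ^ (j : ℕ)

lemma cmp2_pol_coeff {k : ℕ} (c : Fin k → ZMod p) (j : Fin k) : (cmp2_pol c).coeff j = c j := by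
  unfold cmp2_pol
  rw [finsetSum_coeff]
  simp only [coeff_C_mul, coeff_X_pow]
  rw [Finset.sum_eq_single j]
  · simp
  · intro b _ hb
    rw [if_neg, mul_zero]
    intro h
    exact hb (Fin.ext h.symm)
  · intro h; exact absurd (Finset.mem_univ j) h

lemma cmp2_pol_degree {k : ℕ} (c : Fin k → ZMod p) : (cmp2_pol c).degree < k := by
  unfold cmp2_pol
  rw [← Polynomial.mem_degreeLT]
  refine Submodule.sum_mem _ fun j _ => ?_
  rw [Polynomial.mem_degreeLT]
  exact lt_of_le_of_lt (degree_C_mul_X_pow_le _ _) (by exact_mod_cast j.2)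

lemma cmp2_pol_exists {k : ℕ} (h : (ZMod p)[X]) (hd : h.degree < k) :
    ∃ c : Fin k → ZMod p, cmp2_pol c = h := by
  refine ⟨fun j => h.coeff j, ?_⟩
  ext m
  by_cases hm : m < k
  · exact cmp2_pol_coeff _ ⟨m, hm⟩
  · rw [coeff_eq_zero_of_degree_lt (lt_of_lt_of_le hd (by exact_mod_cast not_lt.1 hm)),
      coeff_eq_zero_of_degree_lt (lt_of_lt_of_le (cmp2_pol_degree _) (by exact_mod_cast not_lt.1 hm))]

lemma cmp2_pol_zero {k : ℕ} (c : Fin k → ZMod p) (h : cmp2_pol c = 0) : c = 0 := by
  funext j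
  rw [← cmp2_pol_coeff c j, h]
  simp

lemma cmp2_pol_inj {k : ℕ} (c d : Fin k → ZMod p) (h : cmp2_pol c = cmp2_pol d) : c = d := by
  funext j
  rw [← cmp2_pol_coeff c j, h, cmp2_pol_coeff]

lemma cmp2_act_pol {k : ℕ} (A : Matrix (Fin n) (Fin n) (ZMod p)) (c : Fin k → ZMod p) (z : Fin n → ZMod p) :
    cmp2_act A (cmp2_pol c) z = ∑ j : Fin k, c j • (A ^ (j : ℕ)).mulVec z := by
  unfold cmp2_act cmp2_pol
  rw [map_sum, Matrix.sum_mulVec]
  refine Finset.sum_congr rfl fun j _ => ?_
  rw [map_mul, aeval_C, map_pow, aeval_X, Algebra.algebraMap_eq_smul_one, smul_mul_assoc, one_mul,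
    Matrix.smul_mulVec]

/-- Krylov matrix -/
def cmp2_phi (A : Matrix (Fin n) (Fin n) (ZMod p)) (k : ℕ) (z : Fin n → ZMod p) : Matrix (Fin n) (Fin k) (ZMod p) :=
  Matrix.of fun i j => ((A ^ (j : ℕ)).mulVec z) i

lemma cmp2_comm (f : (ZMod p)[X]) (hf : f.Monic) (hk : 0 < f.natDegree)
    (A : Matrix (Fin n) (Fin n) (ZMod p)) (V : Matrix (Fin n) (Fin f.natDegree) (ZMod p)) :
    A * V = V * comp f ↔ (V = cmp2_phi A f.natDegree (fun i => V i ⟨0, hk⟩) ∧
      cmp2_act A f (fun i => V i ⟨0, hk⟩) = 0) := by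
  have hfs : f = cmp2_pol (fun j : Fin f.natDegree => f.coeff j) + X ^ f.natDegree := by
    ext m
    rw [coeff_add, coeff_X_pow]
    rcases lt_trichotomy m f.natDegree with h | h | h
    · rw [if_neg h.ne, add_zero]
      exact (cmp2_pol_coeff (fun j : Fin f.natDegree => f.coeff j) ⟨m, h⟩).symm
    · subst h
      rw [if_pos rfl, coeff_eq_zero_of_degree_lt (cmp2_pol_degree _), zero_add]
      exact hf
    · rw [if_neg h.ne', add_zero, coeff_eq_zero_of_natDegree_lt h,
        coeff_eq_zero_of_degree_lt (lt_trans (cmp2_pol_degree _) (by exact_mod_cast h))]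
  have hact : ∀ z : Fin n → ZMod p, cmp2_act A f z =
      (∑ j : Fin f.natDegree, f.coeff j • (A ^ (j : ℕ)).mulVec z) + (A ^ f.natDegree).mulVec z := by
    intro z
    conv_lhs => rw [hfs]
    rw [cmp2_act_add, cmp2_act_pol]
    congr 1
    simp [cmp2_act]
  have hlast : ∀ (W : Matrix (Fin n) (Fin f.natDegree) (ZMod p)) (i : Fin n) (j : Fin f.natDegree),
      (j : ℕ) + 1 = f.natDegree → (W * comp f) i j = - ∑ m : Fin f.natDegree, f.coeff m * W i m := by
    intro W i j hj
    rw [Matrix.mul_apply, ← Finset.sum_neg_distrib]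
    refine Finset.sum_congr rfl fun m _ => ?_
    simp only [comp, Matrix.of_apply]
    rw [if_pos hj]; ring
  have hmid : ∀ (W : Matrix (Fin n) (Fin f.natDegree) (ZMod p)) (i : Fin n) (j : Fin f.natDegree)
      (hj : (j : ℕ) + 1 < f.natDegree), (W * comp f) i j = W i ⟨j + 1, hj⟩ := by
    intro W i j hj
    rw [Matrix.mul_apply, Finset.sum_eq_single ⟨j + 1, hj⟩]
    · simp only [comp, Matrix.of_apply]
      rw [if_neg hj.ne, if_pos trivial, mul_one]
    · intro b _ hb
      simp only [comp, Matrix.of_apply]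
      rw [if_neg hj.ne, if_neg, mul_zero]
      intro h
      exact hb (Fin.ext h)
    · intro h; exact absurd (Finset.mem_univ _) h
  constructor
  · intro h
    have hcol : ∀ (m : ℕ) (hm : m < f.natDegree), (fun i => V i ⟨m, hm⟩) =
        (A ^ m).mulVec (fun i => V i ⟨0, hk⟩) := by
      intro m
      induction m with
      | zero => intro hm; simp
      | succ m ih =>
        intro hm
        have hm' : m < f.natDegree := by omega
        rw [pow_succ', ← Matrix.mulVec_mulVec, ← ih hm']
        funext i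
        have := congrFun (congrFun h i) ⟨m, hm'⟩
        rw [hmid V i ⟨m, hm'⟩ hm] at this
        rw [← this]
        rfl
    have hV : V = cmp2_phi A f.natDegree (fun i => V i ⟨0, hk⟩) := by
      ext i j
      exact congrFun (hcol j j.2) i
    refine ⟨hV, ?_⟩
    rw [hact]
    funext i
    have hj : f.natDegree - 1 < f.natDegree := by omega
    have h1 := congrFun (congrFun h i) ⟨f.natDegree - 1, hj⟩
    rw [hlast V i _ (by simp; omega)] at h1
    have h2 : (A * V) i ⟨f.natDegree - 1, hj⟩ = ((A ^ f.natDegree).mulVec (fun i => V i ⟨0, hk⟩)) i := by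
      have : A ^ f.natDegree = A * A ^ (f.natDegree - 1) := by
        rw [← pow_succ']; congr 1; omega
      rw [this, ← Matrix.mulVec_mulVec, ← hcol _ hj]
      rfl
    rw [h2] at h1
    simp only [Pi.add_apply, Finset.sum_apply, Pi.smul_apply, smul_eq_mul, Pi.zero_apply]
    rw [h1]
    have h3 : ∀ m : Fin f.natDegree, ((A ^ (m : ℕ)).mulVec (fun i => V i ⟨0, hk⟩)) i = V i m := by
      intro m
      rw [← hcol m m.2]
    simp only [h3]
    ring
  · rintro ⟨hV, h0⟩
    have hcol : ∀ (m : ℕ) (hm : m < f.natDegree), (fun i => V i ⟨m, hm⟩) =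
        (A ^ m).mulVec (fun i => V i ⟨0, hk⟩) := by
      intro m hm
      funext i
      exact congrFun (congrFun hV i) ⟨m, hm⟩
    have h2 : ∀ (i : Fin n) (j : Fin f.natDegree), (A * V) i j =
        ((A ^ ((j : ℕ) + 1)).mulVec (fun i => V i ⟨0, hk⟩)) i := by
      intro i j
      rw [pow_succ', ← Matrix.mulVec_mulVec, ← hcol _ j.2]
      rfl
    ext i j
    rw [h2]
    by_cases hj : (j : ℕ) + 1 < f.natDegree
    · rw [hmid V i j hj, ← hcol _ hj]
    · have hj' : (j : ℕ) + 1 = f.natDegree := by have := j.2; omega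
      rw [hlast V i j hj', hj']
      rw [hact] at h0
      have h4 := congrFun h0 i
      simp only [Pi.add_apply, Finset.sum_apply, Pi.smul_apply, smul_eq_mul, Pi.zero_apply] at h4
      have h3 : ∀ m : Fin f.natDegree, ((A ^ (m : ℕ)).mulVec (fun i => V i ⟨0, hk⟩)) i = V i m := by
        intro m
        rw [← hcol m m.2]
      simp only [h3] at h4
      linear_combination h4

lemma cmp2_phi_zero (A : Matrix (Fin n) (Fin n) (ZMod p)) (k : ℕ) (hk : 0 < k) (z : Fin n → ZMod p) :
    (fun i => cmp2_phi A k z i ⟨0, hk⟩) = z := by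
  funext i
  simp [cmp2_phi]

lemma cmp2_full (A : Matrix (Fin n) (Fin n) (ZMod p)) (k l : ℕ) (z w : Fin n → ZMod p) :
    FullRank (Matrix.fromCols (cmp2_phi A k z) (cmp2_phi A l w)) ↔
      ∀ (c : Fin k → ZMod p) (d : Fin l → ZMod p), cmp2_act A (cmp2_pol c) z + cmp2_act A (cmp2_pol d) w = 0 →
        c = 0 ∧ d = 0 := by
  unfold FullRank
  rw [Fintype.linearIndependent_iff]
  have key : ∀ e : Fin k ⊕ Fin l → ZMod p, (∑ a, e a • (fun i : Fin n =>
      Matrix.fromCols (cmp2_phi A k z) (cmp2_phi A l w) i a)) =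
      cmp2_act A (cmp2_pol (fun j => e (Sum.inl j))) z + cmp2_act A (cmp2_pol (fun j => e (Sum.inr j))) w := by
    intro e
    rw [Fintype.sum_sum_type, cmp2_act_pol, cmp2_act_pol]
    rfl
  constructor
  · intro h c d hcd
    have := h (Sum.elim c d) (by rw [key]; exact hcd)
    exact ⟨funext fun j => this (Sum.inl j), funext fun j => this (Sum.inr j)⟩
  · intro h e he
    rw [key] at he
    obtain ⟨h1, h2⟩ := h _ _ he
    rintro (j | j)
    · exact congrFun h1 j
    · exact congrFun h2 j

/-- the cyclic subspace -/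
def cmp2_W (A : Matrix (Fin n) (Fin n) (ZMod p)) (z w : Fin n → ZMod p) : Prop :=
  ∃ h : (ZMod p)[X], cmp2_act A h z = w

lemma cmp2_full_iff (A : Matrix (Fin n) (Fin n) (ZMod p)) (f g : (ZMod p)[X]) (hf : f.Monic) (hg : g.Monic)
    (hgi : Irreducible g) (hl : 0 < g.natDegree) (z w : Fin n → ZMod p)
    (hz : cmp2_act A f z = 0) (hw : cmp2_act A g w = 0) :
    FullRank (Matrix.fromCols (cmp2_phi A f.natDegree z) (cmp2_phi A g.natDegree w)) ↔
      (IsAnn A z f ∧ ¬ cmp2_W A z w) := by
  rw [cmp2_full]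
  have hmod : ∀ h : (ZMod p)[X], cmp2_act A h z = cmp2_act A (h %ₘ f) z := by
    intro h
    conv_lhs => rw [← modByMonic_add_div h f]
    rw [cmp2_act_add, mul_comm f, cmp2_act_mul, hz, cmp2_act_vzero, add_zero]
  have hdeg : ∀ h : (ZMod p)[X], (h %ₘ f).degree < (f.natDegree : ℕ) := by
    intro h
    rw [← degree_eq_natDegree hf.ne_zero]
    exact degree_modByMonic_lt h hf
  constructor
  · intro H
    constructor
    · intro h
      constructor
      · intro h0
        change cmp2_act A h z = 0 at h0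
        rw [hmod] at h0
        obtain ⟨c, hc⟩ := cmp2_pol_exists (k := f.natDegree) (h %ₘ f) (hdeg h)
        have := (H c 0 (by
          have hz0 : cmp2_pol (0 : Fin g.natDegree → ZMod p) = 0 := by simp [cmp2_pol]
          rw [hc, h0, hz0, cmp2_act_zero, add_zero])).1
        rw [this] at hc
        have hz0 : cmp2_pol (0 : Fin f.natDegree → ZMod p) = 0 := by simp [cmp2_pol]
        rw [hz0] at hc
        exact (modByMonic_eq_zero_iff_dvd hf).1 hc.symm
      · rintro ⟨u, rfl⟩
        change cmp2_act A (f * u) z = 0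
        rw [mul_comm, cmp2_act_mul, hz, cmp2_act_vzero]
    · rintro ⟨h, hh⟩
      rw [hmod] at hh
      obtain ⟨c, hc⟩ := cmp2_pol_exists (k := f.natDegree) (h %ₘ f) (hdeg h)
      obtain ⟨d, hd⟩ := cmp2_pol_exists (k := g.natDegree) (-1 : (ZMod p)[X]) (by
        rw [degree_neg, degree_one]; exact_mod_cast hl)
      have := (H c d (by
        rw [hc, hd, hh, ← zero_sub (1 : (ZMod p)[X]), cmp2_act_sub, cmp2_act_zero, cmp2_act_one]; simp)).2
      rw [this] at hd
      have hz0 : cmp2_pol (0 : Fin g.natDegree → ZMod p) = 0 := by simp [cmp2_pol]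
      rw [hz0] at hd
      exact one_ne_zero (neg_eq_zero.1 hd.symm)
  · rintro ⟨hann, hW⟩ c d hcd
    have hd : cmp2_pol d = 0 := by
      by_contra hne
      have hnd : ¬ g ∣ cmp2_pol d := by
        intro hdiv
        have h1 := degree_le_of_dvd hdiv hne
        have h2 := cmp2_pol_degree d
        rw [degree_eq_natDegree hg.ne_zero] at h1
        exact absurd h2 (not_lt.2 h1)
      have hcop : IsCoprime g (cmp2_pol d) := (hgi.coprime_iff_not_dvd).2 hnd
      obtain ⟨u, v, huv⟩ := hcop
      apply hW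
      refine ⟨-(v * cmp2_pol c), ?_⟩
      have h3 : cmp2_act A (u * g + v * cmp2_pol d) w = w := by rw [huv, cmp2_act_one]
      rw [cmp2_act_add, cmp2_act_mul, hw, cmp2_act_vzero, zero_add, cmp2_act_mul] at h3
      have h4 : cmp2_act A (cmp2_pol d) w = - cmp2_act A (cmp2_pol c) z := by
        rw [add_comm] at hcd
        exact eq_neg_of_add_eq_zero_left hcd
      rw [← h3, h4, ← zero_sub (v * cmp2_pol c), cmp2_act_sub, cmp2_act_zero, cmp2_act_mul,
        ← zero_sub (cmp2_act A (cmp2_pol c) z)]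
      simp only [cmp2_act, zero_sub, Matrix.mulVec_neg]
    rw [hd, cmp2_act_zero, add_zero] at hcd
    refine ⟨?_, cmp2_pol_zero d hd⟩
    have h5 : f ∣ cmp2_pol c := (hann _).1 hcd
    apply cmp2_pol_zero
    by_contra hne
    have h1 := degree_le_of_dvd h5 hne
    have h2 := cmp2_pol_degree c
    rw [degree_eq_natDegree hf.ne_zero] at h1
    exact absurd h2 (not_lt.2 h1)

lemma cmp2_ann_zero {A : Matrix (Fin n) (Fin n) (ZMod p)} {f : (ZMod p)[X]} {z : Fin n → ZMod p}
    (h : IsAnn A z f) : cmp2_act A f z = 0 := (h f).2 dvd_rfl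

lemma cmp2_sum_card {α : Type} [Fintype α] (P : α → Prop) [DecidablePred P] :
    ∑ a, ind (P a) = ((Finset.univ.filter P).card : ℝ) := by
  rw [Finset.card_filter]
  push_cast
  refine Finset.sum_congr rfl fun a _ => ?_
  unfold ind
  by_cases h : P a <;> simp [h]

/-- the intersection with ker g has q elements -/
lemma cmp2_count (A : Matrix (Fin n) (Fin n) (ZMod p)) (f g f' : (ZMod p)[X]) (hg : g.Monic)
    (hfg : f = g * f') (hf : f.Monic) (z : Fin n → ZMod p) (hz : IsAnn A z f) :
    ∑ w : Fin n → ZMod p, ind (cmp2_act A g w = 0 ∧ cmp2_W A z w) = (p : ℝ) ^ g.natDegree := by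
  classical
  rw [cmp2_sum_card]
  have hf0 : f' ≠ 0 := by
    rintro rfl
    rw [mul_zero] at hfg
    exact hf.ne_zero hfg
  have hcard : (Finset.univ.filter (fun w : Fin n → ZMod p => cmp2_act A g w = 0 ∧ cmp2_W A z w)).card =
      (Finset.univ : Finset (Fin g.natDegree → ZMod p)).card := by
    symm
    apply Finset.card_bij (fun c _ => cmp2_act A (f' * cmp2_pol c) z)
    · intro c _
      rw [Finset.mem_filter]
      refine ⟨Finset.mem_univ _, ?_, ⟨_, rfl⟩⟩
      rw [← cmp2_act_mul, ← mul_assoc, ← hfg, mul_comm, cmp2_act_mul, cmp2_ann_zero hz, cmp2_act_vzero]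
    · intro c _ d _ hcd
      have h1 : cmp2_act A (f' * cmp2_pol c - f' * cmp2_pol d) z = 0 := by
        rw [cmp2_act_sub, hcd, sub_self]
      have h2 := (hz _).1 h1
      rw [← mul_sub, hfg, mul_comm g] at h2
      have h3 : g ∣ cmp2_pol c - cmp2_pol d := (mul_dvd_mul_iff_left hf0).1 h2
      apply cmp2_pol_inj
      by_contra hne
      have hne' := sub_ne_zero.2 hne
      have h4 := degree_le_of_dvd h3 hne'
      have h5 : (cmp2_pol c - cmp2_pol d).degree < (g.natDegree : ℕ) :=
        lt_of_le_of_lt (degree_sub_le _ _) (max_lt (cmp2_pol_degree c) (cmp2_pol_degree d))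
      rw [degree_eq_natDegree hg.ne_zero] at h4
      exact absurd h5 (not_lt.2 h4)
    · intro w hw
      rw [Finset.mem_filter] at hw
      obtain ⟨_, hw0, h, rfl⟩ := hw
      rw [← cmp2_act_mul] at hw0
      have h1 := (hz _).1 hw0
      rw [hfg] at h1
      obtain ⟨h'', rfl⟩ := (mul_dvd_mul_iff_left hg.ne_zero).1 h1
      obtain ⟨c, hc⟩ := cmp2_pol_exists (k := g.natDegree) (h'' %ₘ g) (by
        rw [← degree_eq_natDegree hg.ne_zero]
        exact degree_modByMonic_lt _ hg)
      refine ⟨c, Finset.mem_univ _, ?_⟩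
      rw [hc]
      conv_rhs => rw [← modByMonic_add_div h'' g]
      rw [mul_add, cmp2_act_add, ← mul_assoc f' g, mul_comm f' g, ← hfg, mul_comm f, cmp2_act_mul A _ f,
        cmp2_ann_zero hz, cmp2_act_vzero, add_zero]
  rw [hcard, Finset.card_univ, Fintype.card_fun, ZMod.card, Fintype.card_fin]
  push_cast
  rfl

lemma cmp2_main (A : Matrix (Fin n) (Fin n) (ZMod p)) (f g f' : (ZMod p)[X]) (hf : f.Monic) (hg : g.Monic)
    (hgi : Irreducible g) (hfg : f = g * f') :
    XC (Matrix.fromBlocks (comp f) 0 0 (comp g)) A = X1 f A * (kerc g A - (p : ℝ) ^ g.natDegree) := by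
  classical
  have hl : 0 < g.natDegree := hgi.natDegree_pos
  have hk : 0 < f.natDegree := by
    have hf0 : f' ≠ 0 := by
      rintro rfl
      rw [mul_zero] at hfg
      exact hf.ne_zero hfg
    rw [hfg, natDegree_mul hg.ne_zero hf0]
    omega
  -- the right side as a double sum
  have hR : X1 f A * (kerc g A - (p : ℝ) ^ g.natDegree) =
      ∑ x : (Fin n → ZMod p) × (Fin n → ZMod p),
        ind (IsAnn A x.1 f ∧ (cmp2_act A g x.2 = 0 ∧ ¬ cmp2_W A x.1 x.2)) := by
    unfold X1
    rw [Fintype.sum_prod_type, Finset.sum_mul]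
    refine Finset.sum_congr rfl fun z _ => ?_
    by_cases hz : IsAnn A z f
    · rw [ind_true hz, one_mul, ← cmp2_count A f g f' hg hfg hf z hz]
      unfold kerc
      rw [← Finset.sum_sub_distrib]
      refine Finset.sum_congr rfl fun w _ => ?_
      have e0 : ((Polynomial.aeval A g).mulVec w = 0) = (cmp2_act A g w = 0) := rfl
      simp only [e0]
      by_cases h1 : cmp2_act A g w = 0 <;> by_cases h2 : cmp2_W A z w <;> simp [ind, hz, h1, h2]
    · rw [ind_false hz, zero_mul]
      symm
      refine Finset.sum_eq_zero fun w _ => ind_false ?_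
      rintro ⟨h, _⟩
      exact hz h
  rw [hR]
  unfold XC
  rw [cmp2_sum_card, cmp2_sum_card]
  norm_cast
  symm
  apply Finset.card_bij (fun x _ => Matrix.fromCols (cmp2_phi A f.natDegree x.1) (cmp2_phi A g.natDegree x.2))
  · rintro ⟨z, w⟩ h
    rw [Finset.mem_filter] at h ⊢
    obtain ⟨_, h1, h2, h3⟩ := h
    refine ⟨Finset.mem_univ _, ?_, ?_⟩
    · exact (cmp2_full_iff A f g hf hg hgi hl z w (cmp2_ann_zero h1) h2).2 ⟨h1, h3⟩
    · rw [Matrix.mul_fromCols, Matrix.fromCols_mul_fromBlocks, Matrix.mul_zero, Matrix.mul_zero, add_zero,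
        zero_add]
      congr 1
      · rw [cmp2_comm f hf hk]
        rw [cmp2_phi_zero]
        exact ⟨rfl, cmp2_ann_zero h1⟩
      · rw [cmp2_comm g hg hl]
        rw [cmp2_phi_zero]
        exact ⟨rfl, h2⟩
  · rintro ⟨z, w⟩ _ ⟨z', w'⟩ _ he
    simp only [Matrix.fromCols_ext_iff] at he
    obtain ⟨h1, h2⟩ := he
    have e1 := cmp2_phi_zero A f.natDegree hk z
    have e2 := cmp2_phi_zero A g.natDegree hl w
    rw [h1, cmp2_phi_zero] at e1
    rw [h2, cmp2_phi_zero] at e2
    rw [e1, e2]
  · intro V hV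
    rw [Finset.mem_filter] at hV
    obtain ⟨_, hfull, hcomm⟩ := hV
    obtain ⟨V1, V2, rfl⟩ : ∃ V1 V2, V = Matrix.fromCols V1 V2 :=
      ⟨V.toCols₁, V.toCols₂, (Matrix.fromCols_toCols V).symm⟩
    rw [Matrix.mul_fromCols, Matrix.fromCols_mul_fromBlocks, Matrix.mul_zero, Matrix.mul_zero, add_zero,
      zero_add, Matrix.fromCols_ext_iff] at hcomm
    obtain ⟨hc1, hc2⟩ := hcomm
    rw [cmp2_comm f hf hk] at hc1
    rw [cmp2_comm g hg hl] at hc2
    have hfull' := hfull
    rw [hc1.1, hc2.1, cmp2_full_iff A f g hf hg hgi hl _ _ hc1.2 hc2.2] at hfull'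
    refine ⟨(fun i => V1 i ⟨0, hk⟩, fun i => V2 i ⟨0, hl⟩), ?_, ?_⟩
    · rw [Finset.mem_filter]
      exact ⟨Finset.mem_univ _, hfull'.1, hc2.2, hfull'.2⟩
    · simp only
      rw [← hc1.1, ← hc2.1]

end cmp2

theorem cmp2 {p : ℕ} [Fact p.Prime] {n : ℕ} (s : Finset (ZMod p)[X]) (hs : ∀ g ∈ s, g.Monic ∧ Irreducible g)
    (g : (ZMod p)[X]) (hg : g ∈ s) (A : Matrix (Fin n) (Fin n) (ZMod p)) :
    XC (Matrix.fromBlocks (comp (∏ h ∈ s, h)) 0 0 (comp g)) A =
      X1 (∏ h ∈ s, h) A * (kerc g A - (p : ℝ) ^ g.natDegree) := by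
  classical
  refine cmp2_main A (∏ h ∈ s, h) g (∏ h ∈ s.erase g, h) ?_ (hs g hg).1 (hs g hg).2
    (Finset.mul_prod_erase s _ hg).symm
  exact monic_prod_of_monic _ _ fun h hh => (hs h hh).1

end Pool.H64.IR

end S_CMP2

section S_HCM1

/-! MODULE HCM1 (project MP_a758cf_pr, IR; overview: team-store H64_a758cf.md)
HC (comp f) = p^(deg f) for monic f. S symmetric with S C symmetric, C = comp f, k = deg f: (S C)_{a,b} = S_{a,b+1} for b+1 < k, and
(S C)_{a,k-1} = - sum_c f_c S_{a,c}. Symmetry of S C for a,b < k-1: S_{a,b+1} = S_{b,a+1} = S_{a+1,b}: S_{ab} = s_{a+b} is Hankel, and the last column says that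
s_0, s_1, .., s_{2k-2} satisfies the linear recurrence with characteristic polynomial f. Hence S <-> first row (s_0..s_{k-1}) is a bijection with F^k:
injective by the recurrence row_{a+1} = row_a C (indeed Cᵀ S = S C means row_{a+1}(S) = (row_a S) C for a+1<k); surjective: given the first row
r, define S_{ab} = (r C^a)_b = r C^a e_b; since C^b e_0 = e_b, S_{ab} = r C^{a+b} e_0 is symmetric, and (S C)_{ab} = r C^{a+b+1} e_0 too.
-/

set_option autoImplicit false

namespace Pool.H64.IR

open Finset Polynomial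

private lemma hcm1_key {F : Type} [Field F] {k : ℕ} (C : Matrix (Fin (k + 1)) (Fin (k + 1)) F)
    (hC : ∀ i j : Fin (k + 1), (j : ℕ) + 1 < k + 1 → C i j = if (i : ℕ) = j + 1 then 1 else 0) :
    ∀ (b : ℕ) (hb : b < k + 1) (u : Fin (k + 1) → F), (Matrix.vecMul u (C ^ b)) 0 = u ⟨b, hb⟩ := by
  intro b
  induction b with
  | zero =>
    intro hb u
    rw [pow_zero, Matrix.vecMul_one]
    rfl
  | succ b ih =>
    intro hb u
    rw [pow_succ', ← Matrix.vecMul_vecMul, ih (by omega)]
    have h1 : Matrix.vecMul u C ⟨b, by omega⟩ = ∑ i, u i * C i ⟨b, by omega⟩ := rfl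
    rw [h1, Finset.sum_eq_single (⟨b + 1, hb⟩ : Fin (k + 1))]
    · rw [hC _ _ hb, if_pos rfl, mul_one]
    · intro i _ hi
      rw [hC _ _ hb, if_neg, mul_zero]
      intro h
      exact hi (Fin.ext h)
    · intro h
      exact absurd (Finset.mem_univ _) h

private lemma hcm1_card {F : Type} [Field F] [Fintype F] {k : ℕ}
    (C : Matrix (Fin (k + 1)) (Fin (k + 1)) F)
    (hC : ∀ i j : Fin (k + 1), (j : ℕ) + 1 < k + 1 → C i j = if (i : ℕ) = j + 1 then 1 else 0) :
    Nat.card {S : Matrix (Fin (k + 1)) (Fin (k + 1)) F // S.IsSymm ∧ (S * C).IsSymm} =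
      Fintype.card F ^ (k + 1) := by
  classical
  have key := hcm1_key C hC
  have hbij : Function.Bijective
      (fun S : {S : Matrix (Fin (k + 1)) (Fin (k + 1)) F // S.IsSymm ∧ (S * C).IsSymm} =>
        fun j : Fin (k + 1) => S.1 0 j) := by
    constructor
    · intro S T hST
      -- rows are determined
      have hrow : ∀ (S : {S : Matrix (Fin (k + 1)) (Fin (k + 1)) F // S.IsSymm ∧ (S * C).IsSymm})
          (a : ℕ) (ha : a + 1 < k + 1),
          (fun b => S.1 ⟨a + 1, ha⟩ b) = Matrix.vecMul (fun b => S.1 ⟨a, by omega⟩ b) C := by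
        intro S a ha
        ext b
        have h1 : Matrix.vecMul (fun b => S.1 ⟨a, by omega⟩ b) C b = (S.1 * C) ⟨a, by omega⟩ b := rfl
        have h2 : (S.1 * C) ⟨a, by omega⟩ b = (S.1 * C) b ⟨a, by omega⟩ := S.2.2.apply _ _
        have h3 : (S.1 * C) b ⟨a, by omega⟩ = S.1 b ⟨a + 1, ha⟩ := by
          rw [Matrix.mul_apply, Finset.sum_eq_single (⟨a + 1, ha⟩ : Fin (k + 1))]
          · rw [hC _ _ ha, if_pos rfl, mul_one]
          · intro i _ hi
            rw [hC _ _ ha, if_neg, mul_zero]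
            intro h
            exact hi (Fin.ext h)
          · intro h
            exact absurd (Finset.mem_univ _) h
        rw [h1, h2, h3]
        exact S.2.1.apply _ _
      have hall : ∀ (a : ℕ) (ha : a < k + 1), (fun b => S.1 ⟨a, ha⟩ b) = fun b => T.1 ⟨a, ha⟩ b := by
        intro a
        induction a with
        | zero => intro ha; exact hST
        | succ a ih =>
          intro ha
          rw [hrow S a ha, hrow T a ha, ih (by omega)]
      apply Subtype.ext
      ext a b
      exact congrFun (hall a.1 a.2) b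
    · intro r
      refine ⟨⟨Matrix.of fun a b => Matrix.vecMul r (C ^ ((a : ℕ) + b)) 0, ?_, ?_⟩, ?_⟩
      · ext a b
        rw [Matrix.transpose_apply, Matrix.of_apply, Matrix.of_apply, add_comm (b : ℕ) (a : ℕ)]
      · have h1 : ∀ a b : Fin (k + 1),
            ((Matrix.of fun a b : Fin (k + 1) => Matrix.vecMul r (C ^ ((a : ℕ) + b)) 0) * C) a b =
              Matrix.vecMul r (C ^ ((a : ℕ) + b + 1)) 0 := by
          intro a b
          have h2 : ∀ c : Fin (k + 1), Matrix.vecMul r (C ^ ((a : ℕ) + c)) 0 =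
              Matrix.vecMul r (C ^ (a : ℕ)) c := by
            intro c
            rw [pow_add, ← Matrix.vecMul_vecMul, key c.1 c.2]
          have h3 : Matrix.vecMul r (C ^ ((a : ℕ) + b + 1)) 0 =
              Matrix.vecMul (Matrix.vecMul r (C ^ (a : ℕ))) C b := by
            rw [show (a : ℕ) + b + 1 = (a : ℕ) + 1 + b by ring, pow_add, ← Matrix.vecMul_vecMul,
              key b.1 b.2, pow_succ, ← Matrix.vecMul_vecMul]
          rw [h3, Matrix.mul_apply]
          refine Finset.sum_congr rfl fun c _ => ?_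
          rw [Matrix.of_apply, h2]
        ext a b
        rw [Matrix.transpose_apply, h1, h1, add_comm (a : ℕ) (b : ℕ)]
      · ext j
        change Matrix.vecMul r (C ^ (((0 : Fin (k + 1)) : ℕ) + j)) 0 = r j
        rw [Fin.val_zero, zero_add, key j.1 j.2]
  rw [Nat.card_congr (Equiv.ofBijective _ hbij), Nat.card_eq_fintype_card, Fintype.card_fun,
    Fintype.card_fin]

private lemma hcm1_gen {F : Type} [Field F] [Fintype F] (k : ℕ) (C : Matrix (Fin k) (Fin k) F)
    (hC : ∀ i j : Fin k, (j : ℕ) + 1 < k → C i j = if (i : ℕ) = j + 1 then 1 else 0) :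
    Nat.card {S : Matrix (Fin k) (Fin k) F // S.IsSymm ∧ (S * C).IsSymm} = Fintype.card F ^ k := by
  cases k with
  | zero =>
    rw [pow_zero, Nat.card_eq_one_iff_unique]
    refine ⟨⟨fun S T => Subtype.ext (Subsingleton.elim _ _)⟩, ⟨⟨0, ?_, ?_⟩⟩⟩
    · exact Subsingleton.elim _ _
    · exact Subsingleton.elim _ _
  | succ k => exact hcm1_card C hC

theorem hcm1 {p : ℕ} [Fact p.Prime] (f : (ZMod p)[X]) (hf : f.Monic) : HC (comp f) = (p : ℝ) ^ f.natDegree := by
  classical
  have h := hcm1_gen f.natDegree (comp f) (by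
    intro i j hj
    unfold comp
    rw [Matrix.of_apply, if_neg (by omega)])
  have h0 : HC (comp f) = ∑ S : Matrix (Fin f.natDegree) (Fin f.natDegree) (ZMod p),
      (if (S.IsSymm ∧ (S * comp f).IsSymm) then (1 : ℝ) else 0) := by
    unfold HC
    refine Finset.sum_congr rfl fun S _ => ?_
    by_cases hS : S.IsSymm ∧ (S * comp f).IsSymm
    · rw [ind_true hS, if_pos hS]
    · rw [ind_false hS, if_neg hS]
  rw [h0, Finset.sum_boole]
  rw [Nat.card_eq_fintype_card, Fintype.card_subtype, ZMod.card] at h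
  rw [h]
  push_cast
  rfl

end Pool.H64.IR

end S_HCM1

section S_HCM2

/-! MODULE HCM2 (project MP_a758cf_pr, IR; overview: team-store H64_a758cf.md)
Upper bound for two blocks. S = [S11 S12; S21 S22] symmetric with S C symmetric, C = fromBlocks (comp f) 0 0 (comp g): S11, S22 as in HCM1 (determined
by their first rows: row_{a+1} = row_a C), and S12 (comp g) = (comp f)ᵀ S12, whose rows satisfy row_{a+1}(S12) = row_a(S12) (comp g), so S12 is determined by its first
row (deg g entries). Total number <= p^(deg f) p^(deg g) p^(deg g).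
-/

set_option autoImplicit false

namespace Pool.H64.IR

open Finset Polynomial

/-- first row (or zero if there is none) -/
private def hcm2Row {F : Type} [Field F] {k l : ℕ} (S : Matrix (Fin k) (Fin l) F) : Fin l → F :=
  fun b => if h : 0 < k then S ⟨0, h⟩ b else 0

private lemma hcm2_row_ext {F : Type} [Field F] {k l : ℕ} (C : Matrix (Fin k) (Fin k) F)
    (hC : ∀ i j : Fin k, (j : ℕ) + 1 < k → C i j = if (i : ℕ) = j + 1 then 1 else 0)
    (D : Matrix (Fin l) (Fin l) F) (S T : Matrix (Fin k) (Fin l) F)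
    (hS : S * D = C.transpose * S) (hT : T * D = C.transpose * T)
    (h0 : hcm2Row S = hcm2Row T) : S = T := by
  have hrow : ∀ (S : Matrix (Fin k) (Fin l) F), S * D = C.transpose * S →
      ∀ (a : ℕ) (ha : a + 1 < k), (fun b => S ⟨a + 1, ha⟩ b) = Matrix.vecMul (fun b => S ⟨a, by omega⟩ b) D := by
    intro S hS a ha
    ext b
    have h1 : Matrix.vecMul (fun b => S ⟨a, by omega⟩ b) D b = (S * D) ⟨a, by omega⟩ b := rfl
    rw [h1, hS, Matrix.mul_apply, Finset.sum_eq_single (⟨a + 1, ha⟩ : Fin k)]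
    · rw [Matrix.transpose_apply, hC _ _ ha, if_pos rfl, one_mul]
    · intro i _ hi
      rw [Matrix.transpose_apply, hC _ _ ha, if_neg, zero_mul]
      intro h
      exact hi (Fin.ext h)
    · intro h
      exact absurd (Finset.mem_univ _) h
  have hall : ∀ (a : ℕ) (ha : a < k), (fun b => S ⟨a, ha⟩ b) = fun b => T ⟨a, ha⟩ b := by
    intro a
    induction a with
    | zero =>
      intro ha
      ext b
      have h1 := congrFun h0 b
      unfold hcm2Row at h1
      rw [dif_pos ha, dif_pos ha] at h1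
      exact h1
    | succ a ih =>
      intro ha
      rw [hrow S hS a ha, hrow T hT a ha, ih (by omega)]
  ext a b
  exact congrFun (hall a.1 a.2) b

private lemma hcm2_card {F : Type} [Field F] [Fintype F] {k l : ℕ} (C : Matrix (Fin k) (Fin k) F)
    (hC : ∀ i j : Fin k, (j : ℕ) + 1 < k → C i j = if (i : ℕ) = j + 1 then 1 else 0)
    (D : Matrix (Fin l) (Fin l) F)
    (hD : ∀ i j : Fin l, (j : ℕ) + 1 < l → D i j = if (i : ℕ) = j + 1 then 1 else 0) :
    Nat.card {S : Matrix (Fin k ⊕ Fin l) (Fin k ⊕ Fin l) F // S.IsSymm ∧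
      (S * Matrix.fromBlocks C 0 0 D).IsSymm} ≤ Fintype.card F ^ (k + 2 * l) := by
  classical
  have key : ∀ S : {S : Matrix (Fin k ⊕ Fin l) (Fin k ⊕ Fin l) F // S.IsSymm ∧
      (S * Matrix.fromBlocks C 0 0 D).IsSymm},
      (S.1.toBlocks₁₁ * C = C.transpose * S.1.toBlocks₁₁ ∧
        S.1.toBlocks₁₂ * D = C.transpose * S.1.toBlocks₁₂) ∧
        S.1.toBlocks₂₂ * D = D.transpose * S.1.toBlocks₂₂ := by
    rintro ⟨S, hS1, hS2⟩
    have h1 : S * Matrix.fromBlocks C 0 0 D = (Matrix.fromBlocks C 0 0 D).transpose * S := by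
      have h2 := hS2.eq
      rw [Matrix.transpose_mul, hS1.eq] at h2
      exact h2.symm
    rw [← Matrix.fromBlocks_toBlocks S, Matrix.fromBlocks_transpose, Matrix.fromBlocks_multiply,
      Matrix.fromBlocks_multiply, Matrix.fromBlocks_inj] at h1
    simp only [Matrix.mul_zero, Matrix.transpose_zero, Matrix.zero_mul, add_zero, zero_add] at h1
    exact ⟨⟨h1.1, h1.2.1⟩, h1.2.2.2⟩
  have hinj : Function.Injective
      (fun S : {S : Matrix (Fin k ⊕ Fin l) (Fin k ⊕ Fin l) F // S.IsSymm ∧
        (S * Matrix.fromBlocks C 0 0 D).IsSymm} =>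
        ((hcm2Row S.1.toBlocks₁₁, hcm2Row S.1.toBlocks₁₂, hcm2Row S.1.toBlocks₂₂) :
          (Fin k → F) × (Fin l → F) × (Fin l → F))) := by
    intro S T h
    simp only [Prod.mk.injEq] at h
    obtain ⟨⟨s1, s2⟩, s3⟩ := key S
    obtain ⟨⟨t1, t2⟩, t3⟩ := key T
    have e1 := hcm2_row_ext C hC C _ _ s1 t1 h.1
    have e2 := hcm2_row_ext C hC D _ _ s2 t2 h.2.1
    have e3 := hcm2_row_ext D hD D _ _ s3 t3 h.2.2
    have e4 : S.1.toBlocks₂₁ = T.1.toBlocks₂₁ := by
      have e5 : ∀ S : {S : Matrix (Fin k ⊕ Fin l) (Fin k ⊕ Fin l) F // S.IsSymm ∧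
        (S * Matrix.fromBlocks C 0 0 D).IsSymm}, S.1.toBlocks₂₁ = S.1.toBlocks₁₂.transpose := by
        intro S
        ext i j
        exact S.2.1.apply _ _
      rw [e5, e5, e2]
    apply Subtype.ext
    rw [← Matrix.fromBlocks_toBlocks S.1, ← Matrix.fromBlocks_toBlocks T.1, e1, e2, e3, e4]
  have h1 := Nat.card_le_card_of_injective _ hinj
  refine h1.trans (le_of_eq ?_)
  rw [Nat.card_prod, Nat.card_prod, Nat.card_eq_fintype_card, Nat.card_eq_fintype_card,
    Fintype.card_fun, Fintype.card_fun, Fintype.card_fin, Fintype.card_fin]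
  ring

theorem hcm2 {p : ℕ} [Fact p.Prime] (f g : (ZMod p)[X]) (hf : f.Monic) (hg : g.Monic) :
    HC (Matrix.fromBlocks (comp f) 0 0 (comp g)) ≤ (p : ℝ) ^ (f.natDegree + 2 * g.natDegree) := by
  classical
  have h := hcm2_card (comp f) (by
    intro i j hj
    unfold comp
    rw [Matrix.of_apply, if_neg (by omega)]) (comp g) (by
    intro i j hj
    unfold comp
    rw [Matrix.of_apply, if_neg (by omega)])
  have h0 : HC (Matrix.fromBlocks (comp f) 0 0 (comp g)) =
      ∑ S : Matrix (Fin f.natDegree ⊕ Fin g.natDegree) (Fin f.natDegree ⊕ Fin g.natDegree) (ZMod p),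
      (if (S.IsSymm ∧ (S * Matrix.fromBlocks (comp f) 0 0 (comp g)).IsSymm) then (1 : ℝ) else 0) := by
    unfold HC
    refine Finset.sum_congr rfl fun S _ => ?_
    by_cases hS : S.IsSymm ∧ (S * Matrix.fromBlocks (comp f) 0 0 (comp g)).IsSymm
    · rw [ind_true hS, if_pos hS]
    · rw [ind_false hS, if_neg hS]
  rw [h0, Finset.sum_boole]
  rw [Nat.card_eq_fintype_card, Fintype.card_subtype, ZMod.card] at h
  exact_mod_cast h

end Pool.H64.IR

end S_HCM2

section S_ZBM

/-! MODULE ZBM (project MP_a758cf_pr, IR; overview: team-store H64_a758cf.md)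
ZZ g A = (kerc g A - 1)/(q-1), q = p^(deg g) >= 2. With kerc = q^m: m = 0: ZZ = 0 = BB. m = 1: ZZ = 1 = BB. m >= 2: BB = 1 <= ZZ and
ZZ - BB = ZZ - 1 <= ZZ (kerc - q)/(q (q-1)) because (kerc - q)/(q-1) = ZZ - 1 >= q.
-/

set_option autoImplicit false

namespace Pool.H64.IR

open Finset Polynomial

/-- number of lines (over the field F[X]/(g)) in ker g(A) -/
noncomputable def ZZ {p : ℕ} [Fact p.Prime] {n : ℕ} (g : (ZMod p)[X]) (A : Matrix (Fin n) (Fin n) (ZMod p)) : ℝ :=
  (kerc g A - 1) / ((p : ℝ) ^ g.natDegree - 1)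

private theorem zbm_q {p : ℕ} [Fact p.Prime] (g : (ZMod p)[X]) (hi : Irreducible g) :
    (2 : ℝ) ≤ (p : ℝ) ^ g.natDegree := by
  have h1 : (2 : ℝ) ≤ (p : ℝ) := by exact_mod_cast (Fact.out : p.Prime).two_le
  calc (2 : ℝ) ≤ (p : ℝ) := h1
    _ = (p : ℝ) ^ 1 := (pow_one _).symm
    _ ≤ (p : ℝ) ^ g.natDegree := pow_le_pow_right₀ (by linarith) hi.natDegree_pos

theorem zz_nonneg {p : ℕ} [Fact p.Prime] {n : ℕ} (g : (ZMod p)[X]) (hg : g.Monic) (hi : Irreducible g)
    (A : Matrix (Fin n) (Fin n) (ZMod p)) : 0 ≤ ZZ g A := by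
  obtain ⟨m, hm, -⟩ := ker_pow g hg hi A
  have hq := zbm_q g hi
  unfold ZZ
  rw [hm]
  have h1 : (1 : ℝ) ≤ ((p : ℝ) ^ g.natDegree) ^ m := one_le_pow₀ (by linarith)
  exact div_nonneg (by linarith) (by linarith)

theorem bb_le_zz {p : ℕ} [Fact p.Prime] {n : ℕ} (g : (ZMod p)[X]) (hg : g.Monic) (hi : Irreducible g)
    (A : Matrix (Fin n) (Fin n) (ZMod p)) : BB g A ≤ ZZ g A := by
  obtain ⟨m, hm, hm0⟩ := ker_pow g hg hi A
  have hq := zbm_q g hi
  rcases Nat.eq_zero_or_pos m with h | h
  · have h1 : BB g A = 0 := ind_false (hm0.1 h)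
    rw [h1]
    exact zz_nonneg g hg hi A
  · unfold ZZ
    rw [hm, le_div_iff₀ (by linarith)]
    have h1 : (p : ℝ) ^ g.natDegree ≤ ((p : ℝ) ^ g.natDegree) ^ m := by
      calc (p : ℝ) ^ g.natDegree = ((p : ℝ) ^ g.natDegree) ^ 1 := (pow_one _).symm
        _ ≤ _ := pow_le_pow_right₀ (by linarith) h
    have h2 : BB g A ≤ 1 := ind_le_one _
    nlinarith

theorem zz_sub_bb {p : ℕ} [Fact p.Prime] {n : ℕ} (g : (ZMod p)[X]) (hg : g.Monic) (hi : Irreducible g)
    (A : Matrix (Fin n) (Fin n) (ZMod p)) :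
    ZZ g A - BB g A ≤ ZZ g A * (kerc g A - (p : ℝ) ^ g.natDegree) / ((p : ℝ) ^ g.natDegree * ((p : ℝ) ^ g.natDegree - 1)) := by
  obtain ⟨m, hm, hm0⟩ := ker_pow g hg hi A
  have hq := zbm_q g hi
  rcases Nat.eq_zero_or_pos m with h | h
  · have h1 : BB g A = 0 := ind_false (hm0.1 h)
    have h2 : ZZ g A = 0 := by
      unfold ZZ
      rw [hm, h, pow_zero, sub_self, zero_div]
    rw [h1, h2]
    simp
  · have h1 : BB g A = 1 := by
      refine ind_true ?_
      by_contra hnd
      exact absurd (hm0.2 hnd) h.ne'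
    unfold ZZ
    rw [h1, hm]
    set q : ℝ := (p : ℝ) ^ g.natDegree with hqdef
    have hq1 : 0 < q - 1 := by linarith
    have hq0 : 0 < q := by linarith
    have e1 : (q ^ m - 1) / (q - 1) - 1 = (q ^ m - q) / (q - 1) := by
      field_simp
      ring
    have e2 : (q ^ m - 1) / (q - 1) * (q ^ m - q) / (q * (q - 1)) =
        (q ^ m - q) / (q - 1) * ((q ^ m - 1) / (q * (q - 1))) := by
      field_simp
    rw [e1, e2]
    rcases Nat.lt_or_ge 1 m with h3 | h3
    · have h4 : q ^ 2 ≤ q ^ m := pow_le_pow_right₀ (by linarith) h3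
      have h5 : 0 ≤ (q ^ m - q) / (q - 1) := div_nonneg (by nlinarith) hq1.le
      have h6 : 1 ≤ (q ^ m - 1) / (q * (q - 1)) := by
        rw [le_div_iff₀ (by positivity)]
        nlinarith
      nlinarith
    · have h4 : m = 1 := by omega
      rw [h4, pow_one, sub_self, zero_div, zero_mul]

theorem zz_kerc_nonneg {p : ℕ} [Fact p.Prime] {n : ℕ} (g : (ZMod p)[X]) (hg : g.Monic) (hi : Irreducible g)
    (A : Matrix (Fin n) (Fin n) (ZMod p)) : 0 ≤ ZZ g A * (kerc g A - (p : ℝ) ^ g.natDegree) := by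
  obtain ⟨m, hm, hm0⟩ := ker_pow g hg hi A
  have hq := zbm_q g hi
  rcases Nat.eq_zero_or_pos m with h | h
  · have h2 : ZZ g A = 0 := by
      unfold ZZ
      rw [hm, h, pow_zero, sub_self, zero_div]
    rw [h2, zero_mul]
  · refine mul_nonneg (zz_nonneg g hg hi A) ?_
    have h1 : (p : ℝ) ^ g.natDegree ≤ ((p : ℝ) ^ g.natDegree) ^ m := by
      calc (p : ℝ) ^ g.natDegree = ((p : ℝ) ^ g.natDegree) ^ 1 := (pow_one _).symm
        _ ≤ _ := pow_le_pow_right₀ (by linarith) h
    rw [hm]
    linarith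

end Pool.H64.IR

end S_ZBM
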