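import Mathlib
import Pool.Agent.H64.IRL.L0

set_option autoImplicit false

/-! Characteristic polynomial of G(n,1/2), part L5: this file joins several modules to save build time. -/

section S_POL

/-! MODULE POL (project MP_a758cf_pr, IR; overview: team-store H64_a758cf.md)
Finite sets of polynomials over ZMod p. Mon p m: monic of degree m (p^m of them). Irr p m: the irreducible ones. Smo p K m: those all of whose monic irreducible factors have
degree <= K. RR p K k: monic irreducibles g with K < deg g <= k.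
-/

set_option autoImplicit false

namespace Pool.H64.IR

open Finset Polynomial

/-- monic polynomials of degree m over ZMod p -/
noncomputable def Mon (p m : ℕ) [Fact p.Prime] : Finset (ZMod p)[X] :=
  (Finset.univ : Finset (Fin m → ZMod p)).image (fun c => X ^ m + ∑ i : Fin m, C (c i) * X ^ (i : ℕ))

private theorem pol_deg {p m : ℕ} [Fact p.Prime] (c : Fin m → ZMod p) :
    (∑ i : Fin m, C (c i) * X ^ (i : ℕ) : (ZMod p)[X]).degree < (m : WithBot ℕ) := by
  exact Polynomial.degree_sum_fin_lt c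

private theorem pol_coeff {p m : ℕ} [Fact p.Prime] (c : Fin m → ZMod p) (j : Fin m) :
    (X ^ m + ∑ i : Fin m, C (c i) * X ^ (i : ℕ) : (ZMod p)[X]).coeff j = c j := by
  rw [Polynomial.coeff_add, Polynomial.finsetSum_coeff, Polynomial.coeff_X_pow,
    if_neg (Nat.ne_of_lt j.2), zero_add]
  simp only [Polynomial.coeff_C_mul, Polynomial.coeff_X_pow]
  rw [Finset.sum_eq_single j]
  · simp
  · intro b _ hb
    rw [if_neg (fun h => hb (Fin.ext h.symm)), mul_zero]
  · intro h; exact absurd (Finset.mem_univ _) h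

theorem mem_mon {p m : ℕ} [Fact p.Prime] (f : (ZMod p)[X]) : f ∈ Mon p m ↔ f.Monic ∧ f.natDegree = m := by
  unfold Mon
  simp only [Finset.mem_image, Finset.mem_univ, true_and]
  constructor
  · rintro ⟨c, rfl⟩
    have hd := pol_deg c
    refine ⟨Polynomial.monic_X_pow_add hd, ?_⟩
    rw [Polynomial.natDegree_add_eq_left_of_degree_lt (by rw [Polynomial.degree_X_pow]; exact hd),
      Polynomial.natDegree_X_pow]
  · rintro ⟨hm, hd⟩
    refine ⟨fun i => f.coeff i, ?_⟩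
    conv_rhs => rw [hm.as_sum, hd]
    rw [Finset.sum_range (fun i => C (f.coeff i) * X ^ i)]

theorem card_mon (p m : ℕ) [Fact p.Prime] : (Mon p m).card = p ^ m := by
  unfold Mon
  rw [Finset.card_image_of_injective]
  · rw [Finset.card_univ, Fintype.card_fun, ZMod.card, Fintype.card_fin]
  · intro c d h
    funext j
    have h2 := congrArg (fun q : (ZMod p)[X] => q.coeff j) h
    simp only at h2
    rw [pol_coeff, pol_coeff] at h2
    exact h2

open Classical in
/-- monic irreducible polynomials of degree m -/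
noncomputable def Irr (p m : ℕ) [Fact p.Prime] : Finset (ZMod p)[X] := (Mon p m).filter fun f => Irreducible f

theorem mem_irr {p m : ℕ} [Fact p.Prime] (f : (ZMod p)[X]) : f ∈ Irr p m ↔ f.Monic ∧ Irreducible f ∧ f.natDegree = m := by
  classical
  unfold Irr
  rw [Finset.mem_filter, mem_mon]
  tauto

open Classical in
/-- monic polynomials of degree m all of whose irreducible factors have degree at most K -/
noncomputable def Smo (p K m : ℕ) [Fact p.Prime] : Finset (ZMod p)[X] :=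
  (Mon p m).filter fun f => ∀ g : (ZMod p)[X], Irreducible g → g ∣ f → g.natDegree ≤ K

theorem mem_smo {p K m : ℕ} [Fact p.Prime] (f : (ZMod p)[X]) :
    f ∈ Smo p K m ↔ f.Monic ∧ f.natDegree = m ∧ ∀ g : (ZMod p)[X], Irreducible g → g ∣ f → g.natDegree ≤ K := by
  classical
  unfold Smo
  rw [Finset.mem_filter, mem_mon]
  tauto

/-- monic irreducible polynomials with K < degree <= k -/
noncomputable def RR (p K k : ℕ) [Fact p.Prime] : Finset (ZMod p)[X] := (Finset.Ioc K k).biUnion fun m => Irr p m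

theorem mem_rr {p K k : ℕ} [Fact p.Prime] (f : (ZMod p)[X]) :
    f ∈ RR p K k ↔ f.Monic ∧ Irreducible f ∧ K < f.natDegree ∧ f.natDegree ≤ k := by
  unfold RR
  simp only [Finset.mem_biUnion, Finset.mem_Ioc, mem_irr]
  constructor
  · rintro ⟨a, ⟨h1, h2⟩, h3, h4, h5⟩
    subst h5
    exact ⟨h3, h4, h1, h2⟩
  · rintro ⟨h1, h2, h3, h4⟩
    exact ⟨f.natDegree, ⟨h3, h4⟩, h1, h2, rfl⟩

theorem sum_rr {p K k : ℕ} [Fact p.Prime] (φ : (ZMod p)[X] → ℝ) :
    ∑ f ∈ RR p K k, φ f = ∑ m ∈ Finset.Ioc K k, ∑ f ∈ Irr p m, φ f := by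
  unfold RR
  rw [Finset.sum_biUnion]
  intro a _ b _ hab
  rw [Function.onFun, Finset.disjoint_left]
  intro f hf hg
  rw [mem_irr] at hf hg
  exact hab (hf.2.2.symm.trans hg.2.2)

end Pool.H64.IR

end S_POL

section S_BNF

/-! MODULE BNF (project MP_a758cf_pr, IR; overview: team-store H64_a758cf.md)
Bonferroni inequalities for products: s finite, x_a in [0,1], J even:
prod_{a in s} (1 - x_a) <= T_J := sum_{G subset s, card G <= J} (-1)^(card G) prod_{a in G} x_a <= prod (1 - x_a) + (sum x_a)^(J+1)/(J+1)!;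
J odd: T_J <= prod (1-x_a) and prod(1-x_a) - (sum x_a)^(J+1)/(J+1)! <= T_J.
Proof: induction on s for the one-sided inequalities (for s insert a: T_J(s') = T_J(s) - x_a T_{J-1}(s); with R_J = (-1)^J (T_J - prod(1-x)) >= 0:
R_J(s') = (1 - x_a) R_J(s)+ x_a (R_J(s) + R_{J-1}(s)) and T_J - T_{J-1} = (-1)^J e_J(x) so R_J + R_{J-1} = e_J >= 0), then R_J <= R_J + R_{J+1} = e_{J+1}(x) <= (sum x)^(J+1)/(J+1)!.
esymm bound: e_j(x) <= (sum x)^j/j! for x >= 0 (Finset.sum over powersetCard; e.g. via prod/multinomial or induction).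
-/

set_option autoImplicit false

namespace Pool.H64.IR

open Finset Polynomial

theorem bnf_aux_pow (S x : ℝ) (hS : 0 ≤ S) (hx : 0 ≤ x) (j : ℕ) :
    S ^ (j + 1) + (j + 1) * S ^ j * x ≤ (S + x) ^ (j + 1) := by
  induction j with
  | zero => simp
  | succ j ih =>
    have h1 : (S + x) * (S ^ (j + 1) + (j + 1) * S ^ j * x) ≤ (S + x) * (S + x) ^ (j + 1) :=
      mul_le_mul_of_nonneg_left ih (by positivity)
    have h2 : 0 ≤ ((j : ℝ) + 1) * S ^ j * x * x := by positivity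
    push_cast
    calc S ^ (j + 1 + 1) + ((j : ℝ) + 1 + 1) * S ^ (j + 1) * x
        ≤ (S + x) * (S ^ (j + 1) + (j + 1) * S ^ j * x) := by
          have : (S + x) * (S ^ (j + 1) + (j + 1) * S ^ j * x) =
            S ^ (j + 1 + 1) + ((j : ℝ) + 1 + 1) * S ^ (j + 1) * x + ((j : ℝ) + 1) * S ^ j * x * x := by ring
          rw [this]
          linarith
      _ ≤ (S + x) * (S + x) ^ (j + 1) := h1
      _ = (S + x) ^ (j + 1 + 1) := by ring

theorem bnf_esymm_insert {α : Type} [DecidableEq α] (s : Finset α) (a : α) (ha : a ∉ s) (x : α → ℝ) (j : ℕ) :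
    ∑ G ∈ (insert a s).powersetCard (j + 1), ∏ b ∈ G, x b =
      ∑ G ∈ s.powersetCard (j + 1), ∏ b ∈ G, x b + x a * ∑ G ∈ s.powersetCard j, ∏ b ∈ G, x b := by
  rw [Finset.powersetCard_succ_insert ha, Finset.sum_union]
  · congr 1
    rw [Finset.sum_image, Finset.mul_sum]
    · refine Finset.sum_congr rfl fun G hG => ?_
      rw [Finset.prod_insert]
      intro h
      exact ha ((Finset.mem_powersetCard.1 hG).1 h)
    · intro G hG G' hG' h
      have h1 : a ∉ G := fun h => ha ((Finset.mem_powersetCard.1 hG).1 h)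
      have h2 : a ∉ G' := fun h => ha ((Finset.mem_powersetCard.1 hG').1 h)
      have h3 := congrArg (fun t => Finset.erase t a) h
      simpa [Finset.erase_insert h1, Finset.erase_insert h2] using h3
  · rw [Finset.disjoint_left]
    intro G hG hG'
    obtain ⟨G', -, rfl⟩ := Finset.mem_image.1 hG'
    exact ha ((Finset.mem_powersetCard.1 hG).1 (Finset.mem_insert_self a G'))

theorem esymm_le {α : Type} [DecidableEq α] (s : Finset α) (x : α → ℝ) (hx : ∀ a ∈ s, 0 ≤ x a) (j : ℕ) :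
    ∑ G ∈ s.powersetCard j, ∏ a ∈ G, x a ≤ (∑ a ∈ s, x a) ^ j / (Nat.factorial j) := by
  induction s using Finset.induction_on generalizing j with
  | empty =>
    cases j with
    | zero => simp
    | succ j =>
      have h0 : (∅ : Finset α).powersetCard (j + 1) = ∅ := by
        rw [Finset.powersetCard_eq_empty]; simp
      rw [h0]
      simp
  | insert a s ha ih =>
    have hx' : ∀ b ∈ s, 0 ≤ x b := fun b hb => hx b (Finset.mem_insert_of_mem hb)
    have hxa : 0 ≤ x a := hx a (Finset.mem_insert_self a s)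
    have hS : 0 ≤ ∑ b ∈ s, x b := Finset.sum_nonneg hx'
    cases j with
    | zero => simp
    | succ j =>
      rw [bnf_esymm_insert s a ha x j, Finset.sum_insert ha]
      have h1 := ih hx' (j + 1)
      have h2 := ih hx' j
      have h3 := bnf_aux_pow (∑ b ∈ s, x b) (x a) hS hxa j
      have h4 : (0 : ℝ) < (Nat.factorial (j + 1) : ℝ) := by exact_mod_cast Nat.factorial_pos _
      have h5 : (0 : ℝ) < (Nat.factorial j : ℝ) := by exact_mod_cast Nat.factorial_pos _
      calc ∑ G ∈ s.powersetCard (j + 1), ∏ b ∈ G, x b + x a * ∑ G ∈ s.powersetCard j, ∏ b ∈ G, x b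
          ≤ (∑ b ∈ s, x b) ^ (j + 1) / (Nat.factorial (j + 1)) + x a * ((∑ b ∈ s, x b) ^ j / (Nat.factorial j)) :=
            add_le_add h1 (mul_le_mul_of_nonneg_left h2 hxa)
        _ = ((∑ b ∈ s, x b) ^ (j + 1) + ((j : ℝ) + 1) * (∑ b ∈ s, x b) ^ j * x a) / (Nat.factorial (j + 1)) := by
            rw [Nat.factorial_succ]
            push_cast
            field_simp
        _ ≤ (∑ b ∈ s, x b + x a) ^ (j + 1) / (Nat.factorial (j + 1)) :=
            div_le_div_of_nonneg_right h3 h4.le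
        _ = _ := by rw [add_comm]

/-- truncated alternating sum -/
noncomputable def bnf_T {α : Type} [DecidableEq α] (s : Finset α) (x : α → ℝ) (J : ℕ) : ℝ :=
  ∑ G ∈ s.powerset.filter (fun G => G.card ≤ J), (-1 : ℝ) ^ G.card * ∏ a ∈ G, x a

theorem bnf_T_succ {α : Type} [DecidableEq α] (s : Finset α) (x : α → ℝ) (J : ℕ) :
    bnf_T s x (J + 1) = bnf_T s x J + (-1) ^ (J + 1) * ∑ G ∈ s.powersetCard (J + 1), ∏ a ∈ G, x a := by
  unfold bnf_T
  have h1 : s.powerset.filter (fun G => G.card ≤ J + 1) =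
      s.powerset.filter (fun G => G.card ≤ J) ∪ s.powersetCard (J + 1) := by
    ext G
    simp only [Finset.mem_filter, Finset.mem_powerset, Finset.mem_union, Finset.mem_powersetCard]
    constructor
    · rintro ⟨h1, h2⟩
      rcases Nat.lt_or_ge J G.card with h | h
      · exact Or.inr ⟨h1, by omega⟩
      · exact Or.inl ⟨h1, h⟩
    · rintro (⟨h1, h2⟩ | ⟨h1, h2⟩)
      · exact ⟨h1, by omega⟩
      · exact ⟨h1, by omega⟩
  rw [h1, Finset.sum_union]
  · congr 1
    rw [Finset.mul_sum]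
    refine Finset.sum_congr rfl fun G hG => ?_
    rw [(Finset.mem_powersetCard.1 hG).2]
  · rw [Finset.disjoint_left]
    intro G hG hG'
    have h2 := (Finset.mem_filter.1 hG).2
    have h3 := (Finset.mem_powersetCard.1 hG').2
    omega

theorem bnf_T_zero {α : Type} [DecidableEq α] (s : Finset α) (x : α → ℝ) : bnf_T s x 0 = 1 := by
  unfold bnf_T
  have h1 : s.powerset.filter (fun G => G.card ≤ 0) = {∅} := by
    ext G
    simp only [Finset.mem_filter, Finset.mem_powerset, Finset.mem_singleton, Nat.le_zero,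
      Finset.card_eq_zero]
    constructor
    · exact fun h => h.2
    · intro h
      subst h
      exact ⟨Finset.empty_subset _, rfl⟩
  rw [h1]
  simp

theorem bnf_T_insert {α : Type} [DecidableEq α] (s : Finset α) (a : α) (ha : a ∉ s) (x : α → ℝ) (J : ℕ) :
    bnf_T (insert a s) x (J + 1) = bnf_T s x (J + 1) - x a * bnf_T s x J := by
  induction J with
  | zero =>
    rw [bnf_T_succ, bnf_T_succ, bnf_T_zero, bnf_T_zero, bnf_esymm_insert s a ha x 0]
    simp
    ring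
  | succ J ih =>
    rw [bnf_T_succ, ih, bnf_T_succ s x (J + 1), bnf_T_succ s x J, bnf_esymm_insert s a ha x (J + 1)]
    ring

/-- signed remainder is nonnegative -/
theorem bnf_R_nonneg {α : Type} [DecidableEq α] (s : Finset α) (x : α → ℝ) (hx : ∀ a ∈ s, 0 ≤ x a ∧ x a ≤ 1) (J : ℕ) :
    0 ≤ (-1) ^ J * (bnf_T s x J - ∏ a ∈ s, (1 - x a)) := by
  induction s using Finset.induction_on generalizing J with
  | empty =>
    have : bnf_T (∅ : Finset α) x J = 1 := by
      induction J with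
      | zero => exact bnf_T_zero _ _
      | succ J ih =>
        have h0 : (∅ : Finset α).powersetCard (J + 1) = ∅ := by
          rw [Finset.powersetCard_eq_empty]; simp
        rw [bnf_T_succ, ih, h0]
        simp
    rw [this]
    simp
  | insert a s ha ih =>
    have hx' : ∀ b ∈ s, 0 ≤ x b ∧ x b ≤ 1 := fun b hb => hx b (Finset.mem_insert_of_mem hb)
    have hxa := hx a (Finset.mem_insert_self a s)
    cases J with
    | zero =>
      rw [bnf_T_zero, pow_zero, one_mul, sub_nonneg]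
      refine Finset.prod_le_one (fun b hb => ?_) (fun b hb => ?_)
      · have := hx b hb; linarith [this.2]
      · have := hx b hb; linarith [this.1]
    | succ J =>
      rw [bnf_T_insert s a ha, Finset.prod_insert ha]
      have h1 := ih hx' (J + 1)
      have h2 := mul_nonneg hxa.1 (ih hx' J)
      have h3 : (-1 : ℝ) ^ (J + 1) * (bnf_T s x (J + 1) - x a * bnf_T s x J - (1 - x a) * ∏ b ∈ s, (1 - x b)) =
        (-1 : ℝ) ^ (J + 1) * (bnf_T s x (J + 1) - ∏ b ∈ s, (1 - x b)) +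
          x a * ((-1) ^ J * (bnf_T s x J - ∏ b ∈ s, (1 - x b))) := by
        rw [pow_succ]; ring
      rw [h3]
      linarith

theorem bnf_R_le {α : Type} [DecidableEq α] (s : Finset α) (x : α → ℝ) (hx : ∀ a ∈ s, 0 ≤ x a ∧ x a ≤ 1) (J : ℕ) :
    (-1) ^ J * (bnf_T s x J - ∏ a ∈ s, (1 - x a)) ≤ (∑ a ∈ s, x a) ^ (J + 1) / (Nat.factorial (J + 1)) := by
  have h1 := bnf_R_nonneg s x hx (J + 1)
  have h2 := esymm_le s x (fun a ha => (hx a ha).1) (J + 1)
  rw [bnf_T_succ] at h1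
  have h3 : (-1 : ℝ) ^ (J + 1) * (bnf_T s x J + (-1) ^ (J + 1) * ∑ G ∈ s.powersetCard (J + 1), ∏ a ∈ G, x a -
      ∏ a ∈ s, (1 - x a)) = ∑ G ∈ s.powersetCard (J + 1), ∏ a ∈ G, x a -
        (-1) ^ J * (bnf_T s x J - ∏ a ∈ s, (1 - x a)) := by
    have h4 : (-1 : ℝ) ^ (J + 1) * (-1) ^ (J + 1) = 1 := by
      rw [← mul_pow]; simp
    have h5 : (-1 : ℝ) ^ (J + 1) = - (-1) ^ J := by rw [pow_succ]; ring
    rw [mul_sub, mul_add, ← mul_assoc, h4, h5]
    ring
  rw [h3] at h1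
  linarith

theorem bnf_even_lower {α : Type} [DecidableEq α] (s : Finset α) (x : α → ℝ) (hx : ∀ a ∈ s, 0 ≤ x a ∧ x a ≤ 1) (J : ℕ) (hJ : Even J) :
    ∏ a ∈ s, (1 - x a) ≤ ∑ G ∈ s.powerset.filter (fun G => G.card ≤ J), (-1 : ℝ) ^ G.card * ∏ a ∈ G, x a := by
  have h := bnf_R_nonneg s x hx J
  rw [hJ.neg_one_pow, one_mul] at h
  unfold bnf_T at h
  linarith

theorem bnf_even_upper {α : Type} [DecidableEq α] (s : Finset α) (x : α → ℝ) (hx : ∀ a ∈ s, 0 ≤ x a ∧ x a ≤ 1) (J : ℕ) (hJ : Even J) :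
    ∑ G ∈ s.powerset.filter (fun G => G.card ≤ J), (-1 : ℝ) ^ G.card * ∏ a ∈ G, x a ≤
      ∏ a ∈ s, (1 - x a) + (∑ a ∈ s, x a) ^ (J + 1) / (Nat.factorial (J + 1)) := by
  have h := bnf_R_le s x hx J
  rw [hJ.neg_one_pow, one_mul] at h
  unfold bnf_T at h
  linarith

theorem bnf_odd_upper {α : Type} [DecidableEq α] (s : Finset α) (x : α → ℝ) (hx : ∀ a ∈ s, 0 ≤ x a ∧ x a ≤ 1) (J : ℕ) (hJ : Odd J) :
    ∑ G ∈ s.powerset.filter (fun G => G.card ≤ J), (-1 : ℝ) ^ G.card * ∏ a ∈ G, x a ≤ ∏ a ∈ s, (1 - x a) := by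
  have h := bnf_R_nonneg s x hx J
  rw [hJ.neg_one_pow] at h
  unfold bnf_T at h
  linarith

theorem bnf_odd_lower {α : Type} [DecidableEq α] (s : Finset α) (x : α → ℝ) (hx : ∀ a ∈ s, 0 ≤ x a ∧ x a ≤ 1) (J : ℕ) (hJ : Odd J) :
    ∏ a ∈ s, (1 - x a) - (∑ a ∈ s, x a) ^ (J + 1) / (Nat.factorial (J + 1)) ≤
      ∑ G ∈ s.powerset.filter (fun G => G.card ≤ J), (-1 : ℝ) ^ G.card * ∏ a ∈ G, x a := by
  have h := bnf_R_le s x hx J
  rw [hJ.neg_one_pow] at h
  unfold bnf_T at h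
  linarith

end Pool.H64.IR

end S_BNF

section S_DET

/-! MODULE DET (project MP_a758cf_pr, IR; overview: team-store H64_a758cf.md)
The deterministic sieve inequality. Q = RR p K y, functionals of x : polynomials -> R.
If charpoly A has a monic divisor f of degree k: write f = f_s f_r (f_s the product of the prime factors of degree <= K). Either deg f_s >= D (first bad event, S = f_s), or
f_r has degree in [k-D, k], prime factors of degree in (K,k]; either some of them has multiplicity >= 2 (second bad event) or f_r = prod s, s in FF, BB g = 1 for g in s. Let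
omega = #{g in Q : g | charpoly A}. If omega > M then OmF >= binom(omega,J')/binom(M,J') >= 1. If omega <= M: every term of PhiF is >= 0 because by bnf_even_lower (x_g = BB g/2 in [0,1])
the inner sum is >= prod_{g in Q \ s} (1 - BB g/2) >= 0; the term of s is >= 2^M 2^(-card(s inf Q)) 2^(-#{g in Q \ s, BB g = 1}) = 2^(M-omega) >= 1.
-/

set_option autoImplicit false

namespace Pool.H64.IR

open Finset Polynomial

/-- charpoly of A has a monic divisor of degree k -/
def HasDeg {p n : ℕ} [Fact p.Prime] (k : ℕ) (A : Matrix (Fin n) (Fin n) (ZMod p)) : Prop :=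
  ∃ f : (ZMod p)[X], f.Monic ∧ f.natDegree = k ∧ f ∣ A.charpoly

/-- charpoly of A has a monic K-smooth divisor of degree at least D -/
def BadS {p n : ℕ} [Fact p.Prime] (K D : ℕ) (A : Matrix (Fin n) (Fin n) (ZMod p)) : Prop :=
  ∃ S : (ZMod p)[X], S.Monic ∧ (∀ g : (ZMod p)[X], Irreducible g → g ∣ S → g.natDegree ≤ K) ∧ D ≤ S.natDegree ∧ S ∣ A.charpoly

open Classical in
noncomputable def FF (p K k D : ℕ) [Fact p.Prime] : Finset (Finset (ZMod p)[X]) :=
  (RR p K k).powerset.filter fun s => k ≤ (∑ g ∈ s, g.natDegree) + D ∧ ∑ g ∈ s, g.natDegree ≤ k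

open Classical in
noncomputable def PhiF (p K y k D M J : ℕ) [Fact p.Prime] (u : ℝ) (x : (ZMod p)[X] → ℝ) : ℝ :=
  ∑ s ∈ FF p K k D, ((1 / 2 : ℝ) ^ (s.filter fun g => g.natDegree ≤ y).card * 2 ^ M) * (∏ g ∈ s, x g) *
    ∑ G ∈ ((RR p K y) \ s).powerset.filter (fun G => G.card ≤ J), u ^ G.card * ∏ g ∈ G, x g

open Classical in
noncomputable def OmF (p K y M J' : ℕ) [Fact p.Prime] (x : (ZMod p)[X] → ℝ) : ℝ :=
  (∑ G ∈ (RR p K y).powersetCard J', ∏ g ∈ G, x g) / (Nat.choose M J' : ℝ)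

theorem det_BB_cases {p n : ℕ} [Fact p.Prime] (g : (ZMod p)[X]) (A : Matrix (Fin n) (Fin n) (ZMod p)) :
    BB g A = 0 ∨ BB g A = 1 := by
  by_cases h : g ∣ A.charpoly
  · right; exact ind_true h
  · left; exact ind_false h

theorem det_half {α : Type} (T : Finset α) (x : α → ℝ) (G : Finset α) :
    (-1 / 2 : ℝ) ^ G.card * ∏ a ∈ G, x a = (-1 : ℝ) ^ G.card * ∏ a ∈ G, (x a / 2) := by
  rw [Finset.prod_div_distrib, Finset.prod_const, div_pow]
  ring

theorem det_inner {α : Type} (T : Finset α) (x : α → ℝ) (hx : ∀ a ∈ T, x a = 0 ∨ x a = 1) (J : ℕ)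
    (hJ : Even J) : ∏ a ∈ T, (1 - x a / 2) ≤
      ∑ G ∈ T.powerset.filter (fun G => G.card ≤ J), (-1 / 2 : ℝ) ^ G.card * ∏ a ∈ G, x a := by
  classical
  have h := bnf_even_lower T (fun a => x a / 2) (fun a ha => by
    rcases hx a ha with h | h <;> rw [h] <;> norm_num) J hJ
  refine h.trans (le_of_eq ?_)
  exact Finset.sum_congr rfl fun G _ => (det_half T x G).symm

theorem det_prod_nonneg {α : Type} (T : Finset α) (x : α → ℝ) (hx : ∀ a ∈ T, x a = 0 ∨ x a = 1) :
    0 ≤ ∏ a ∈ T, (1 - x a / 2) := by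
  refine Finset.prod_nonneg fun a ha => ?_
  rcases hx a ha with h | h <;> rw [h] <;> norm_num

open Classical in
theorem det_prod_eq {α : Type} (T : Finset α) (P : α → Prop) (x : α → ℝ)
    (hx : ∀ a ∈ T, x a = ind (P a)) :
    ∏ a ∈ T, (1 - x a / 2) = (1 / 2 : ℝ) ^ (T.filter P).card := by
  have h1 : ∏ a ∈ T, (1 - x a / 2) = ∏ a ∈ T, (if P a then (1 / 2 : ℝ) else 1) := by
    refine Finset.prod_congr rfl fun a ha => ?_
    rw [hx a ha]
    by_cases h : P a
    · rw [ind_true h, if_pos h]; norm_num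
    · rw [ind_false h, if_neg h]; norm_num
  rw [h1, Finset.prod_ite, Finset.prod_const, Finset.prod_const_one, mul_one]

theorem phi_nonneg {p n : ℕ} [Fact p.Prime] (K y k D M J : ℕ) (hJ : Even J) (A : Matrix (Fin n) (Fin n) (ZMod p)) :
    0 ≤ PhiF p K y k D M J (-1 / 2) (fun g => BB g A) := by
  unfold PhiF
  refine Finset.sum_nonneg fun s _ => ?_
  refine mul_nonneg (mul_nonneg (mul_nonneg (by positivity) (by positivity)) ?_) ?_
  · exact Finset.prod_nonneg fun g _ => ind_nonneg _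
  · refine le_trans ?_ (det_inner _ (fun g => BB g A) (fun g _ => det_BB_cases g A) J hJ)
    exact det_prod_nonneg _ _ (fun g _ => det_BB_cases g A)

theorem om_nonneg {p n : ℕ} [Fact p.Prime] (K y M J' : ℕ) (A : Matrix (Fin n) (Fin n) (ZMod p)) :
    0 ≤ OmF p K y M J' (fun g => BB g A) := by
  unfold OmF
  refine div_nonneg (Finset.sum_nonneg fun G _ => ?_) (Nat.cast_nonneg _)
  exact Finset.prod_nonneg fun g _ => ind_nonneg _

open Classical in
theorem det_factor {p : ℕ} [Fact p.Prime] {f : (ZMod p)[X]} (hf : f.Monic) (K : ℕ) :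
    ∃ (S : (ZMod p)[X]) (m : Multiset (ZMod p)[X]), f = S * m.prod ∧ S.Monic ∧
      (∀ g : (ZMod p)[X], Irreducible g → g ∣ S → g.natDegree ≤ K) ∧
      (∀ g ∈ m, g.Monic ∧ Irreducible g ∧ K < g.natDegree) := by
  obtain ⟨ms, hms⟩ : ∃ ms : Multiset (ZMod p)[X], ms = UniqueFactorizationMonoid.normalizedFactors f := ⟨_, rfl⟩
  have hmem : ∀ g ∈ ms, Irreducible g ∧ g.Monic := by
    intro g hg
    rw [hms, Polynomial.mem_normalizedFactors_iff hf.ne_zero] at hg
    exact ⟨hg.1, hg.2.1⟩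
  have hprod : ms.prod = f := by
    have h := Polynomial.leadingCoeff_mul_prod_normalizedFactors f
    rw [hf.leadingCoeff, C_1, one_mul] at h
    rw [hms]; exact h
  refine ⟨(ms.filter fun g => g.natDegree ≤ K).prod, ms.filter fun g => ¬ g.natDegree ≤ K, ?_, ?_, ?_, ?_⟩
  · rw [← Multiset.prod_add, Multiset.filter_add_not, hprod]
  · have h := Polynomial.monic_multiset_prod_of_monic (ms.filter fun g => g.natDegree ≤ K) id
      (fun g hg => (hmem g (Multiset.mem_of_mem_filter hg)).2)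
    rwa [Multiset.map_id] at h
  · intro g hg hgS
    obtain ⟨a, ha, hga⟩ := (hg.prime).exists_mem_multiset_dvd hgS
    rw [Multiset.mem_filter] at ha
    exact (Polynomial.natDegree_le_of_dvd hga (hmem a ha.1).2.ne_zero).trans ha.2
  · intro g hg
    rw [Multiset.mem_filter] at hg
    exact ⟨(hmem g hg.1).2, (hmem g hg.1).1, lt_of_not_ge hg.2⟩

theorem det_om {p n : ℕ} [Fact p.Prime] (K y M J' : ℕ) (hJ' : J' ≤ M)
    (A : Matrix (Fin n) (Fin n) (ZMod p)) (O : Finset (ZMod p)[X])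
    (hO : ∀ g, g ∈ O ↔ g ∈ RR p K y ∧ g ∣ A.charpoly) (hM : M ≤ O.card) :
    1 ≤ OmF p K y M J' (fun g => BB g A) := by
  classical
  unfold OmF
  have hc : (0 : ℝ) < (Nat.choose M J' : ℝ) := by exact_mod_cast Nat.choose_pos hJ'
  rw [one_le_div hc]
  have h1 : ((O.powersetCard J').card : ℝ) ≤ ∑ G ∈ (RR p K y).powersetCard J', ∏ g ∈ G, BB g A := by
    have h2 : O.powersetCard J' ⊆ (RR p K y).powersetCard J' :=
      Finset.powersetCard_mono (fun g hg => ((hO g).1 hg).1)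
    have h3 : ((O.powersetCard J').card : ℝ) = ∑ G ∈ O.powersetCard J', ∏ g ∈ G, BB g A := by
      rw [Finset.card_eq_sum_ones, Nat.cast_sum, Nat.cast_one]
      refine Finset.sum_congr rfl fun G hG => ?_
      rw [Finset.mem_powersetCard] at hG
      symm
      refine Finset.prod_eq_one fun g hg => ?_
      exact ind_true ((hO g).1 (hG.1 hg)).2
    rw [h3]
    exact Finset.sum_le_sum_of_subset_of_nonneg h2 (fun G _ _ => Finset.prod_nonneg fun g _ => ind_nonneg _)
  refine le_trans ?_ h1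
  rw [Finset.card_powersetCard]
  exact_mod_cast Nat.choose_le_choose J' hM

open Classical in
theorem det_phi {p n : ℕ} [Fact p.Prime] (K y k D M J : ℕ) (hyk : y ≤ k) (hJ : Even J)
    (A : Matrix (Fin n) (Fin n) (ZMod p)) (O : Finset (ZMod p)[X])
    (hO : ∀ g, g ∈ O ↔ g ∈ RR p K y ∧ g ∣ A.charpoly) (hM : O.card ≤ M)
    (s : Finset (ZMod p)[X]) (hs : s ∈ FF p K k D) (hdvd : ∀ g ∈ s, g ∣ A.charpoly) :
    1 ≤ PhiF p K y k D M J (-1 / 2) (fun g => BB g A) := by
  have hsR : ∀ g ∈ s, g ∈ RR p K k := by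
    intro g hg
    unfold FF at hs
    rw [Finset.mem_filter, Finset.mem_powerset] at hs
    exact hs.1 hg
  have h0 : ∀ t ∈ FF p K k D, 0 ≤ ((1 / 2 : ℝ) ^ (t.filter fun g => g.natDegree ≤ y).card * 2 ^ M) *
      (∏ g ∈ t, BB g A) * ∑ G ∈ ((RR p K y) \ t).powerset.filter (fun G => G.card ≤ J),
        (-1 / 2 : ℝ) ^ G.card * ∏ g ∈ G, BB g A := by
    intro t _
    refine mul_nonneg (mul_nonneg (mul_nonneg (by positivity) (by positivity)) ?_) ?_
    · exact Finset.prod_nonneg fun g _ => ind_nonneg _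
    · refine le_trans ?_ (det_inner _ (fun g => BB g A) (fun g _ => det_BB_cases g A) J hJ)
      exact det_prod_nonneg _ _ (fun g _ => det_BB_cases g A)
  have h1 := Finset.single_le_sum h0 hs
  unfold PhiF
  refine le_trans ?_ h1
  have h2 : ∏ g ∈ s, BB g A = 1 := Finset.prod_eq_one fun g hg => ind_true (hdvd g hg)
  have h3 := det_inner ((RR p K y) \ s) (fun g => BB g A) (fun g _ => det_BB_cases g A) J hJ
  rw [det_prod_eq ((RR p K y) \ s) (fun g => g ∣ A.charpoly) (fun g => BB g A) (fun g _ => rfl)] at h3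
  rw [h2, mul_one]
  have h4 : (s.filter fun g => g.natDegree ≤ y).card +
      (((RR p K y) \ s).filter fun g => g ∣ A.charpoly).card ≤ M := by
    refine le_trans ?_ hM
    rw [← Finset.card_union_of_disjoint]
    · apply Finset.card_le_card
      intro g hg
      rw [Finset.mem_union, Finset.mem_filter, Finset.mem_filter, Finset.mem_sdiff] at hg
      rw [hO]
      rcases hg with hg | hg
      · refine ⟨?_, hdvd g hg.1⟩
        have h5 := (mem_rr g).1 (hsR g hg.1)
        exact (mem_rr g).2 ⟨h5.1, h5.2.1, h5.2.2.1, hg.2⟩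
      · exact ⟨hg.1.1, hg.2⟩
    · rw [Finset.disjoint_left]
      intro g hg hg'
      rw [Finset.mem_filter] at hg
      rw [Finset.mem_filter, Finset.mem_sdiff] at hg'
      exact hg'.1.2 hg.1
  have h5 : (1 : ℝ) ≤ (1 / 2 : ℝ) ^ (s.filter fun g => g.natDegree ≤ y).card * 2 ^ M *
      (1 / 2 : ℝ) ^ (((RR p K y) \ s).filter fun g => g ∣ A.charpoly).card := by
    have h6 : (1 / 2 : ℝ) ^ M ≤ (1 / 2 : ℝ) ^ (s.filter fun g => g.natDegree ≤ y).card *
        (1 / 2 : ℝ) ^ (((RR p K y) \ s).filter fun g => g ∣ A.charpoly).card := by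
      rw [← pow_add]
      exact pow_le_pow_of_le_one (by norm_num) (by norm_num) h4
    have h7 : (1 / 2 : ℝ) ^ M * 2 ^ M = 1 := by
      rw [← mul_pow]; norm_num
    calc (1 : ℝ) = (1 / 2 : ℝ) ^ M * 2 ^ M := h7.symm
      _ ≤ ((1 / 2 : ℝ) ^ (s.filter fun g => g.natDegree ≤ y).card *
        (1 / 2 : ℝ) ^ (((RR p K y) \ s).filter fun g => g ∣ A.charpoly).card) * 2 ^ M :=
          mul_le_mul_of_nonneg_right h6 (by positivity)
      _ = _ := by ring
  refine h5.trans ?_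
  exact mul_le_mul_of_nonneg_left h3 (by positivity)

theorem det_sieve {p n : ℕ} [Fact p.Prime] (K y k D M J J' : ℕ) (hy : K ≤ y) (hyk : y ≤ k) (hJ : Even J) (hJ' : J' ≤ M)
    (A : Matrix (Fin n) (Fin n) (ZMod p)) :
    ind (HasDeg k A) ≤ ind (BadS K D A) + ind (∃ g ∈ RR p K k, g ^ 2 ∣ A.charpoly) +
      (PhiF p K y k D M J (-1 / 2) (fun g => BB g A) + OmF p K y M J' (fun g => BB g A)) := by
  classical
  have hphi := phi_nonneg K y k D M J hJ A
  have hom := om_nonneg K y M J' A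
  have hb1 := ind_nonneg (BadS K D A)
  have hb2 := ind_nonneg (∃ g ∈ RR p K k, g ^ 2 ∣ A.charpoly)
  by_cases hH : HasDeg k A
  swap
  · rw [ind_false hH]; linarith
  rw [ind_true hH]
  obtain ⟨f, hf, hfk, hfA⟩ := hH
  obtain ⟨S, m, hfS, hS, hSK, hm⟩ := det_factor hf K
  have hmprod : m.prod.Monic := by
    have h := Polynomial.monic_multiset_prod_of_monic m id (fun g hg => (hm g hg).1)
    rwa [Multiset.map_id] at h
  have hdeg : k = S.natDegree + m.prod.natDegree := by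
    rw [← hfk, hfS, hS.natDegree_mul hmprod]
  have hSf : S ∣ A.charpoly := (Dvd.intro _ hfS.symm).trans hfA
  have hmf : m.prod ∣ f := Dvd.intro_left _ hfS.symm
  by_cases hD : D ≤ S.natDegree
  · rw [ind_true (P := BadS K D A) ⟨S, hS, hSK, hD, hSf⟩]; linarith
  push Not at hD
  have hmR : ∀ g ∈ m, g ∈ RR p K k := by
    intro g hg
    obtain ⟨h1, h2, h3⟩ := hm g hg
    refine (mem_rr g).2 ⟨h1, h2, h3, ?_⟩
    have h4 : g ∣ f := (Multiset.dvd_prod hg).trans hmf
    rw [← hfk]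
    exact Polynomial.natDegree_le_of_dvd h4 hf.ne_zero
  by_cases hnd : m.Nodup
  swap
  · rw [Multiset.nodup_iff_le] at hnd
    push Not at hnd
    obtain ⟨g, hg⟩ := hnd
    have hgm : g ∈ m := Multiset.mem_of_le hg (by simp)
    have hg2 : g ^ 2 ∣ A.charpoly := by
      have h1 : (g ::ₘ g ::ₘ 0).prod ∣ m.prod := Multiset.prod_dvd_prod_of_le hg
      have h2 : (g ::ₘ g ::ₘ 0).prod = g ^ 2 := by simp [sq]
      rw [h2] at h1
      exact (h1.trans hmf).trans hfA
    rw [ind_true (P := ∃ g ∈ RR p K k, g ^ 2 ∣ A.charpoly) ⟨g, hmR g hgm, hg2⟩]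
    linarith
  -- square free case
  obtain ⟨s, hs⟩ : ∃ s : Finset (ZMod p)[X], s.val = m := ⟨⟨m, hnd⟩, rfl⟩
  have hsm : ∀ g, g ∈ s ↔ g ∈ m := by
    intro g
    rw [← hs]
    exact Iff.rfl
  have hsum : ∑ g ∈ s, g.natDegree = m.prod.natDegree := by
    have h := Polynomial.natDegree_multiset_prod_of_monic m (fun g hg => (hm g hg).1)
    rw [h, ← hs]
    rfl
  have hsF : s ∈ FF p K k D := by
    unfold FF
    rw [Finset.mem_filter, Finset.mem_powerset]
    refine ⟨fun g hg => hmR g ((hsm g).1 hg), ?_, ?_⟩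
    · rw [hsum]; omega
    · rw [hsum]; omega
  have hdvd : ∀ g ∈ s, g ∣ A.charpoly := fun g hg =>
    ((Multiset.dvd_prod ((hsm g).1 hg)).trans hmf).trans hfA
  obtain ⟨O, hO⟩ : ∃ O : Finset (ZMod p)[X], ∀ g, g ∈ O ↔ g ∈ RR p K y ∧ g ∣ A.charpoly :=
    ⟨(RR p K y).filter fun g => g ∣ A.charpoly, fun g => by rw [Finset.mem_filter]⟩
  rcases le_total M O.card with hMO | hMO
  · have := det_om K y M J' hJ' A O hO hMO
    linarith
  · have := det_phi K y k D M J hyk hJ A O hO hMO s hsF hdvd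
    linarith

end Pool.H64.IR

end S_DET

section S_PAR

/-! MODULE PAR (project MP_a758cf_pr, IR; overview: team-store H64_a758cf.md)
Parameters as functions of k: pK = floor(k^(1/100)), pY = floor(k^(9/10)), pL = log(pY/pK), pM = floor(4/3 pL), pJ' = floor(pL/6), pJ = 2 ceil(10 log k). Elementary asymptotics
(all statements are for k >= some k0). pL ~ 0.89 log k.
-/

set_option autoImplicit false

namespace Pool.H64.IR

open Finset Polynomial

noncomputable def pK (k : ℕ) : ℕ := ⌊(k : ℝ) ^ (1 / 100 : ℝ)⌋₊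
noncomputable def pY (k : ℕ) : ℕ := ⌊(k : ℝ) ^ (9 / 10 : ℝ)⌋₊
noncomputable def pL (k : ℕ) : ℝ := Real.log ((pY k : ℝ) / pK k)
noncomputable def pM (k : ℕ) : ℕ := ⌊4 / 3 * pL k⌋₊
noncomputable def pJ1 (k : ℕ) : ℕ := ⌊pL k / 6⌋₊
noncomputable def pJ (k : ℕ) : ℕ := 2 * ⌈10 * Real.log k⌉₊

open Filter Topology in
theorem par_log_le (a b s : ℝ) (hs : 0 < s) :
    ∀ᶠ x : ℝ in atTop, a * Real.log x + b ≤ x ^ s := by
  have h1 : (fun x : ℝ => a * Real.log x) =o[atTop] fun x => x ^ s :=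
    (isLittleO_log_rpow_atTop hs).const_mul_left a
  have h2 : (fun _ : ℝ => b) =o[atTop] fun x : ℝ => x ^ s := by
    refine Asymptotics.isLittleO_const_left.2 (Or.inr ?_)
    exact tendsto_norm_atTop_atTop.comp (tendsto_rpow_atTop hs)
  have h3 := (h1.add h2).bound one_pos
  filter_upwards [h3, eventually_gt_atTop (0 : ℝ)] with x hx hx0
  rw [one_mul, Real.norm_eq_abs, Real.norm_eq_abs, abs_of_pos (Real.rpow_pos_of_pos hx0 s)] at hx
  exact (le_abs_self _).trans hx

theorem par_floor (y : ℝ) (hy : 2 ≤ y) : y / 2 ≤ (⌊y⌋₊ : ℝ) ∧ (⌊y⌋₊ : ℝ) ≤ y := by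
  constructor
  · have := Nat.lt_floor_add_one y
    linarith
  · exact Nat.floor_le (by linarith)

open Filter Topology in
theorem par_ev : ∀ᶠ x : ℝ in atTop, 1 ≤ x ∧ 2 ≤ x ^ (1 / 100 : ℝ) ∧ 2 ≤ x ^ (9 / 10 : ℝ) ∧
    2 ≤ x ^ (1 / 10 : ℝ) ∧ 2 ≤ x ^ (97 / 100 : ℝ) ∧ 20 * Real.log x + 2 ≤ x ^ (1 / 10 : ℝ) ∧
    200 ≤ Real.log x := by
  filter_upwards [eventually_ge_atTop (1 : ℝ), par_log_le 0 2 (1 / 100) (by norm_num),
    par_log_le 0 2 (9 / 10) (by norm_num), par_log_le 0 2 (1 / 10) (by norm_num),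
    par_log_le 0 2 (97 / 100) (by norm_num), par_log_le 20 2 (1 / 10) (by norm_num),
    Real.tendsto_log_atTop.eventually (eventually_ge_atTop 200)] with x h0 h1 h2 h3 h4 h5 h6
  rw [zero_mul, zero_add] at h1 h2 h3 h4
  exact ⟨h0, h1, h2, h3, h4, h5, h6⟩

theorem par_basic : ∃ k0 : ℕ, ∀ k : ℕ, k0 ≤ k →
    1 ≤ pK k ∧ pK k ≤ pY k ∧ pY k + (pK k) ^ 3 ≤ k ∧ pJ1 k ≤ pM k ∧ Even (pJ k) ∧ pJ k * pY k ≤ k ∧ 1 ≤ pL k ∧
      88 / 100 * Real.log k ≤ pL k ∧ pL k ≤ 90 / 100 * Real.log k ∧ (pK k : ℝ) ^ 3 + pK k ≤ k := by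
  have hev : ∀ᶠ k : ℕ in Filter.atTop, 1 ≤ (k : ℝ) ∧ 2 ≤ (k : ℝ) ^ (1 / 100 : ℝ) ∧
      2 ≤ (k : ℝ) ^ (9 / 10 : ℝ) ∧
      2 ≤ (k : ℝ) ^ (1 / 10 : ℝ) ∧ 2 ≤ (k : ℝ) ^ (97 / 100 : ℝ) ∧
      20 * Real.log k + 2 ≤ (k : ℝ) ^ (1 / 10 : ℝ) ∧ 200 ≤ Real.log k :=
    tendsto_natCast_atTop_atTop.eventually par_ev
  obtain ⟨k0, hk0⟩ := Filter.eventually_atTop.1 hev
  refine ⟨k0, fun k hk => ?_⟩
  obtain ⟨h0, h1, h2, h3, h4, h5, h6⟩ := hk0 k hk
  set x : ℝ := (k : ℝ) with hx
  have hx0 : 0 < x := by linarith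
  obtain ⟨hK1, hK2⟩ := par_floor _ h1
  obtain ⟨hY1, hY2⟩ := par_floor _ h2
  have eK : (pK k : ℝ) = (⌊x ^ (1 / 100 : ℝ)⌋₊ : ℝ) := rfl
  have eY : (pY k : ℝ) = (⌊x ^ (9 / 10 : ℝ)⌋₊ : ℝ) := rfl
  rw [← eK] at hK1 hK2
  rw [← eY] at hY1 hY2
  have hKpos : (1 : ℝ) ≤ pK k := by linarith
  have hYpos : (1 : ℝ) ≤ pY k := by linarith
  have hK3 : (pK k : ℝ) ^ 3 ≤ x ^ (3 / 100 : ℝ) := by
    calc (pK k : ℝ) ^ 3 ≤ (x ^ (1 / 100 : ℝ)) ^ 3 := pow_le_pow_left₀ (by linarith) hK2 3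
      _ = x ^ (3 / 100 : ℝ) := by
        rw [← Real.rpow_natCast, ← Real.rpow_mul hx0.le]
        norm_num
  have hx3 : x ^ (3 / 100 : ℝ) ≤ x / 2 := by
    have h7 : x ^ (3 / 100 : ℝ) * x ^ (97 / 100 : ℝ) = x := by
      rw [← Real.rpow_add hx0]
      norm_num
    have h8 : 0 < x ^ (3 / 100 : ℝ) := Real.rpow_pos_of_pos hx0 _
    nlinarith
  have hx9 : x ^ (9 / 10 : ℝ) * x ^ (1 / 10 : ℝ) = x := by
    rw [← Real.rpow_add hx0]
    norm_num
  have h9pos : 0 < x ^ (9 / 10 : ℝ) := Real.rpow_pos_of_pos hx0 _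
  have hx9' : x ^ (9 / 10 : ℝ) ≤ x / 2 := by nlinarith
  have hx1 : x ^ (1 / 100 : ℝ) ≤ x ^ (3 / 100 : ℝ) :=
    Real.rpow_le_rpow_of_exponent_le h0 (by norm_num)
  have hKY : pK k ≤ pY k := by
    refine Nat.floor_le_floor ?_
    exact Real.rpow_le_rpow_of_exponent_le h0 (by norm_num)
  have hlog2 : Real.log 2 ≤ 1 := by
    have := Real.log_two_lt_d9
    linarith
  have hlog89 : Real.log (x ^ (89 / 100 : ℝ)) = 89 / 100 * Real.log x := Real.log_rpow hx0 _
  have h89 : x ^ (89 / 100 : ℝ) * x ^ (1 / 100 : ℝ) = x ^ (9 / 10 : ℝ) := by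
    rw [← Real.rpow_add hx0]
    norm_num
  have h89pos : 0 < x ^ (89 / 100 : ℝ) := Real.rpow_pos_of_pos hx0 _
  have h1pos : 0 < x ^ (1 / 100 : ℝ) := Real.rpow_pos_of_pos hx0 _
  have hLlow : 88 / 100 * Real.log x ≤ pL k := by
    have h7 : x ^ (89 / 100 : ℝ) / 2 ≤ (pY k : ℝ) / pK k := by
      rw [div_le_div_iff₀ (by norm_num) (by linarith)]
      calc x ^ (89 / 100 : ℝ) * (pK k : ℝ) ≤ x ^ (89 / 100 : ℝ) * x ^ (1 / 100 : ℝ) :=
            mul_le_mul_of_nonneg_left hK2 h89pos.le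
        _ = x ^ (9 / 10 : ℝ) := h89
        _ ≤ (pY k : ℝ) * 2 := by linarith
    have h8 := Real.log_le_log (by positivity) h7
    rw [Real.log_div h89pos.ne' (by norm_num), hlog89] at h8
    unfold pL
    linarith
  have hLup : pL k ≤ 90 / 100 * Real.log x := by
    have h7 : (pY k : ℝ) / pK k ≤ x ^ (89 / 100 : ℝ) * 2 := by
      rw [div_le_iff₀ (by linarith)]
      calc (pY k : ℝ) ≤ x ^ (9 / 10 : ℝ) := hY2
        _ = x ^ (89 / 100 : ℝ) * x ^ (1 / 100 : ℝ) := h89.symm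
        _ ≤ x ^ (89 / 100 : ℝ) * (2 * pK k) := mul_le_mul_of_nonneg_left (by linarith) h89pos.le
        _ = _ := by ring
    have h8 := Real.log_le_log (div_pos (by linarith) (by linarith)) h7
    rw [Real.log_mul h89pos.ne' (by norm_num), hlog89] at h8
    unfold pL
    linarith
  have hL1 : 1 ≤ pL k := by linarith
  refine ⟨by exact_mod_cast hKpos, hKY, ?_, ?_, ?_, ?_, hL1, hLlow, hLup, ?_⟩
  · have h7 : (pY k : ℝ) + (pK k : ℝ) ^ 3 ≤ k := by linarith
    exact_mod_cast h7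
  · refine Nat.floor_le_floor ?_
    linarith
  · exact even_two_mul _
  · have h7 : ((⌈10 * Real.log k⌉₊ : ℕ) : ℝ) < 10 * Real.log k + 1 :=
      Nat.ceil_lt_add_one (by linarith)
    have h8 : (pJ k : ℝ) ≤ 20 * Real.log x + 2 := by
      unfold pJ
      push_cast
      linarith
    have h9 : (pJ k : ℝ) * pY k ≤ x := by
      calc (pJ k : ℝ) * pY k ≤ x ^ (1 / 10 : ℝ) * x ^ (9 / 10 : ℝ) :=
            mul_le_mul (h8.trans h5) hY2 (by linarith) (by positivity)
        _ = x := by rw [mul_comm]; exact hx9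
    have h10 : ((pJ k * pY k : ℕ) : ℝ) ≤ ((k : ℕ) : ℝ) := by
      rw [Nat.cast_mul]
      exact h9
    exact Nat.cast_le.1 h10
  · linarith

open Filter Topology in
theorem par_decay (c : ℝ) : ∃ k0 : ℕ, ∀ k : ℕ, k0 ≤ k →
    (1 / 3 : ℝ) ^ (pK k) ≤ (k : ℝ) ^ (-c) ∧ Real.exp (-(pK k : ℝ)) ≤ (k : ℝ) ^ (-c) := by
  have hev : ∀ᶠ x : ℝ in atTop, 1 ≤ x ∧ 2 ≤ x ^ (1 / 100 : ℝ) ∧ 2 * c * Real.log x ≤ x ^ (1 / 100 : ℝ) := by
    filter_upwards [par_ev, par_log_le (2 * c) 0 (1 / 100) (by norm_num)] with x h1 h2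
    exact ⟨h1.1, h1.2.1, by linarith⟩
  obtain ⟨k0, hk0⟩ := eventually_atTop.1 (tendsto_natCast_atTop_atTop.eventually hev)
  refine ⟨k0, fun k hk => ?_⟩
  obtain ⟨h0, h1, h2⟩ := hk0 k hk
  obtain ⟨hK1, hK2⟩ := par_floor _ h1
  have eK : (pK k : ℝ) = (⌊(k : ℝ) ^ (1 / 100 : ℝ)⌋₊ : ℝ) := rfl
  rw [← eK] at hK1
  have hk0' : (0 : ℝ) < k := by linarith
  have hexp : Real.exp (-(pK k : ℝ)) ≤ (k : ℝ) ^ (-c) := by
    rw [Real.rpow_def_of_pos hk0']
    apply Real.exp_le_exp.2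
    linarith
  refine ⟨?_, hexp⟩
  refine le_trans ?_ hexp
  have h3 : Real.exp (-(pK k : ℝ)) = (Real.exp (-1)) ^ (pK k) := by
    rw [← Real.exp_nat_mul]
    congr 1
    ring
  rw [h3]
  refine pow_le_pow_left₀ (by norm_num) ?_ _
  rw [Real.exp_neg, one_div]
  refine inv_anti₀ (Real.exp_pos _) ?_
  have := Real.exp_one_lt_d9
  linarith

open Filter Topology in
theorem par_tendsto (K0 : ℕ) : ∃ k0 : ℕ, ∀ k : ℕ, k0 ≤ k → K0 ≤ pK k := by
  have hev : ∀ᶠ x : ℝ in atTop, (K0 : ℝ) ≤ x ^ (1 / 100 : ℝ) := by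
    filter_upwards [par_log_le 0 K0 (1 / 100) (by norm_num)] with x h1
    rw [zero_mul, zero_add] at h1
    exact h1
  obtain ⟨k0, hk0⟩ := eventually_atTop.1 (tendsto_natCast_atTop_atTop.eventually hev)
  refine ⟨k0, fun k hk => ?_⟩
  exact Nat.le_floor (hk0 k hk)

end Pool.H64.IR

end S_PAR

section S_REC

/-! MODULE REC (project MP_a758cf_pr, IR; overview: team-store H64_a758cf.md)
Counting identity. For K (take K >= m for all polynomials): m * card (Smo p K m) = sum over j = 1..m of L_j * card (Smo p K (m-j)),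
L_j = sum_{d | j, d <= K} d * card (Irr p d).
Proof: sum over f in Smo of deg f = sum over f of sum over (g irreducible, e >= 1, g^e | f) deg g; the pairs (f, g^e) with g^e | f correspond to (g, e, f' = f/g^e), f' in
Smo p K (m - e deg g). Group by j = e deg g, d = deg g.
-/

set_option autoImplicit false

namespace Pool.H64.IR

open Finset Polynomial

open UniqueFactorizationMonoid in
/-- the degree of a monic polynomial as a sum over prime powers dividing it -/
lemma rec_deg (p m : ℕ) [Fact p.Prime] (f : (ZMod p)[X]) (hf : f.Monic) (hm : f.natDegree = m) :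
    m = ∑ d ∈ Finset.Ioc 0 m, ∑ g ∈ Irr p d, ∑ e ∈ Finset.Icc 1 m,
      (open Classical in if g ^ e ∣ f then d else 0) := by
  classical
  have hf0 : f ≠ 0 := hf.ne_zero
  -- inner sums
  have h1 : ∀ d ∈ Finset.Ioc 0 m, ∀ g ∈ Irr p d, ∑ e ∈ Finset.Icc 1 m, (if g ^ e ∣ f then d else 0) =
      (normalizedFactors f).count g * g.natDegree := by
    intro d hd g hg
    obtain ⟨hg1, hg2, hg3⟩ := (mem_irr g).1 hg
    have h2 : ∀ e : ℕ, g ^ e ∣ f ↔ e ≤ (normalizedFactors f).count g := by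
      intro e
      rw [pow_dvd_iff_le_emultiplicity, emultiplicity_eq_count_normalizedFactors hg2 hf0,
        hg1.normalize_eq_self, Nat.cast_le]
    have h3 : (normalizedFactors f).count g ≤ m := by
      have h4 : g ^ (normalizedFactors f).count g ∣ f := (h2 _).2 le_rfl
      have h5 := Polynomial.natDegree_le_of_dvd h4 hf0
      rw [Polynomial.natDegree_pow, hm, hg3] at h5
      have h6 : 0 < d := (Finset.mem_Ioc.1 hd).1
      nlinarith
    rw [← Finset.sum_filter, Finset.sum_const, smul_eq_mul, hg3]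
    congr 1
    have h7 : (Finset.Icc 1 m).filter (fun e => g ^ e ∣ f) =
        Finset.Icc 1 ((normalizedFactors f).count g) := by
      ext e
      rw [Finset.mem_filter, Finset.mem_Icc, Finset.mem_Icc, h2]
      omega
    rw [h7, Nat.card_Icc]
    omega
  have h2 : ∑ d ∈ Finset.Ioc 0 m, ∑ g ∈ Irr p d, ∑ e ∈ Finset.Icc 1 m,
      (if g ^ e ∣ f then d else 0) =
      ∑ d ∈ Finset.Ioc 0 m, ∑ g ∈ Irr p d, (normalizedFactors f).count g * g.natDegree :=
    Finset.sum_congr rfl fun d hd => Finset.sum_congr rfl fun g hg => h1 d hd g hg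
  rw [h2, ← Finset.sum_biUnion]
  · have h3 : (normalizedFactors f).toFinset ⊆ (Finset.Ioc 0 m).biUnion (fun d => Irr p d) := by
      intro g hg
      rw [Multiset.mem_toFinset, Polynomial.mem_normalizedFactors_iff hf0] at hg
      rw [Finset.mem_biUnion]
      refine ⟨g.natDegree, ?_, (mem_irr g).2 ⟨hg.2.1, hg.1, rfl⟩⟩
      rw [Finset.mem_Ioc]
      refine ⟨hg.1.natDegree_pos, ?_⟩
      rw [← hm]
      exact Polynomial.natDegree_le_of_dvd hg.2.2 hf0
    rw [← Finset.sum_subset h3]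
    · have h4 : f.natDegree = ((normalizedFactors f).map natDegree).sum := by
        rw [← Polynomial.natDegree_multiset_prod _ (zero_notMem_normalizedFactors f)]
        have h5 := Polynomial.leadingCoeff_mul_prod_normalizedFactors f
        rw [hf.leadingCoeff, map_one, one_mul] at h5
        rw [h5]
      rw [← hm]
      conv_lhs => rw [h4]
      rw [Finset.sum_multiset_map_count]
      exact Finset.sum_congr rfl fun g _ => by rw [smul_eq_mul]
    · intro g _ hg
      rw [Multiset.mem_toFinset] at hg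
      rw [Multiset.count_eq_zero_of_notMem hg, zero_mul]
  · intro d _ d' _ hdd
    rw [Function.onFun, Finset.disjoint_left]
    intro g hg hg'
    exact hdd (((mem_irr g).1 hg).2.2.symm.trans ((mem_irr g).1 hg').2.2)

/-- number of multiples of `g ^ e` among the smooth polynomials -/
lemma rec_count (p K m d e : ℕ) [Fact p.Prime] (g : (ZMod p)[X]) (hg : g ∈ Irr p d) (he : 1 ≤ e) :
    ((open Classical in (Smo p K m).filter fun f => g ^ e ∣ f).card) =
      if e * d ≤ m ∧ d ≤ K then (Smo p K (m - e * d)).card else 0 := by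
  classical
  obtain ⟨hg1, hg2, hg3⟩ := (mem_irr g).1 hg
  have hge : (g ^ e).Monic := hg1.pow e
  have hged : (g ^ e).natDegree = e * d := by rw [Polynomial.natDegree_pow, hg3]
  split_ifs with h
  · symm
    refine Finset.card_bij' (fun f _ => g ^ e * f) (fun f _ => f /ₘ g ^ e) ?_ ?_ ?_ ?_
    · intro f hf
      obtain ⟨hf1, hf2, hf3⟩ := (mem_smo f).1 hf
      rw [Finset.mem_filter, mem_smo]
      refine ⟨⟨hge.mul hf1, ?_, ?_⟩, Dvd.intro _ rfl⟩
      · rw [hge.natDegree_mul hf1, hged, hf2]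
        omega
      · intro q hq hqf
        rcases (hq.prime.dvd_mul).1 hqf with h1 | h1
        · have h2 : q ∣ g := hq.prime.dvd_of_dvd_pow h1
          have h3 := Polynomial.natDegree_le_of_dvd h2 hg2.ne_zero
          omega
        · exact hf3 q hq h1
    · intro f hf
      rw [Finset.mem_filter] at hf
      obtain ⟨hf1, hf2, hf3⟩ := (mem_smo f).1 hf.1
      obtain ⟨f', rfl⟩ := hf.2
      have h1 : g ^ e * f' /ₘ g ^ e = f' := Polynomial.mul_divByMonic_cancel_left _ hge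
      rw [h1]
      have h2 : f'.Monic := hge.of_mul_monic_left hf1
      rw [mem_smo]
      refine ⟨h2, ?_, fun q hq hqf => hf3 q hq (hqf.trans (Dvd.intro_left _ rfl))⟩
      rw [hge.natDegree_mul h2, hged] at hf2
      omega
    · intro f _
      exact Polynomial.mul_divByMonic_cancel_left _ hge
    · intro f hf
      rw [Finset.mem_filter] at hf
      obtain ⟨f', rfl⟩ := hf.2
      have h1 : g ^ e * f' /ₘ g ^ e = f' := Polynomial.mul_divByMonic_cancel_left _ hge
      show g ^ e * (g ^ e * f' /ₘ g ^ e) = g ^ e * f'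
      rw [h1]
  · rw [Finset.card_eq_zero, Finset.filter_eq_empty_iff]
    intro f hf hdvd
    obtain ⟨hf1, hf2, hf3⟩ := (mem_smo f).1 hf
    refine h ⟨?_, ?_⟩
    · rw [← hged, ← hf2]
      exact Polynomial.natDegree_le_of_dvd hdvd hf1.ne_zero
    · rw [← hg3]
      exact hf3 g hg2 ((dvd_pow_self g (by omega)).trans hdvd)

theorem rec_smo (p K m : ℕ) [Fact p.Prime] :
    m * (Smo p K m).card =
      ∑ j ∈ Finset.Icc 1 m, (∑ d ∈ (Nat.divisors j).filter (· ≤ K), d * (Irr p d).card) * (Smo p K (m - j)).card := by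
  classical
  have h1 : m * (Smo p K m).card = ∑ f ∈ Smo p K m, ∑ d ∈ Finset.Ioc 0 m, ∑ g ∈ Irr p d,
      ∑ e ∈ Finset.Icc 1 m, (if g ^ e ∣ f then d else 0) := by
    rw [mul_comm, ← smul_eq_mul, ← Finset.sum_const]
    refine Finset.sum_congr rfl fun f hf => ?_
    obtain ⟨hf1, hf2, -⟩ := (mem_smo f).1 hf
    exact rec_deg p m f hf1 hf2
  have h2 : ∑ f ∈ Smo p K m, ∑ d ∈ Finset.Ioc 0 m, ∑ g ∈ Irr p d,
      ∑ e ∈ Finset.Icc 1 m, (if g ^ e ∣ f then d else 0) =
      ∑ d ∈ Finset.Ioc 0 m, ∑ g ∈ Irr p d, ∑ e ∈ Finset.Icc 1 m,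
        (if e * d ≤ m ∧ d ≤ K then (Smo p K (m - e * d)).card else 0) * d := by
    rw [Finset.sum_comm]
    refine Finset.sum_congr rfl fun d _ => ?_
    rw [Finset.sum_comm]
    refine Finset.sum_congr rfl fun g hg => ?_
    rw [Finset.sum_comm]
    refine Finset.sum_congr rfl fun e he => ?_
    rw [← Finset.sum_filter, Finset.sum_const, smul_eq_mul,
      rec_count p K m d e g hg (Finset.mem_Icc.1 he).1]
  have h3 : ∀ d ∈ Finset.Ioc 0 m, ∑ g ∈ Irr p d, ∑ e ∈ Finset.Icc 1 m,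
        (if e * d ≤ m ∧ d ≤ K then (Smo p K (m - e * d)).card else 0) * d =
      ∑ j ∈ Finset.Icc 1 m, if d ∣ j ∧ d ≤ K then d * (Irr p d).card * (Smo p K (m - j)).card
        else 0 := by
    intro d hd
    have hd0 : 0 < d := (Finset.mem_Ioc.1 hd).1
    rw [Finset.sum_const, smul_eq_mul]
    by_cases hdK : d ≤ K
    · simp only [hdK, and_true]
      rw [← Finset.sum_filter]
      have h4 : ∑ e ∈ Finset.Icc 1 m, (if e * d ≤ m then (Smo p K (m - e * d)).card else 0) * d =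
          ∑ j ∈ (Finset.Icc 1 m).filter (fun j => d ∣ j), (Smo p K (m - j)).card * d := by
        have h5 : ∑ e ∈ Finset.Icc 1 m, (if e * d ≤ m then (Smo p K (m - e * d)).card else 0) * d =
            ∑ e ∈ (Finset.Icc 1 m).filter (fun e => e * d ≤ m), (Smo p K (m - e * d)).card * d := by
          rw [Finset.sum_filter]
          refine Finset.sum_congr rfl fun e _ => ?_
          split_ifs
          · rfl
          · rw [zero_mul]
        rw [h5]
        refine Finset.sum_nbij' (fun e => e * d) (fun j => j / d) ?_ ?_ ?_ ?_ ?_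
        · intro e he
          rw [Finset.mem_filter, Finset.mem_Icc] at he
          rw [Finset.mem_filter, Finset.mem_Icc]
          refine ⟨⟨Nat.mul_pos he.1.1 hd0, he.2⟩, Dvd.intro_left _ rfl⟩
        · intro j hj
          rw [Finset.mem_filter, Finset.mem_Icc] at hj
          rw [Finset.mem_filter, Finset.mem_Icc, Nat.div_mul_cancel hj.2]
          refine ⟨⟨Nat.div_pos (Nat.le_of_dvd hj.1.1 hj.2) hd0, (Nat.div_le_self _ _).trans hj.1.2⟩,
            hj.1.2⟩
        · intro e _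
          exact Nat.mul_div_cancel _ hd0
        · intro j hj
          rw [Finset.mem_filter] at hj
          exact Nat.div_mul_cancel hj.2
        · intro e _; rfl
      rw [h4, Finset.mul_sum]
      exact Finset.sum_congr rfl fun j _ => by ring
    · simp only [hdK, and_false, if_false, zero_mul, Finset.sum_const_zero, mul_zero]
  rw [h1, h2, Finset.sum_congr rfl h3, Finset.sum_comm]
  refine Finset.sum_congr rfl fun j hj => ?_
  rw [Finset.mem_Icc] at hj
  rw [← Finset.sum_filter, Finset.sum_mul]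
  have h4 : (Finset.Ioc 0 m).filter (fun d => d ∣ j ∧ d ≤ K) =
      (Nat.divisors j).filter (· ≤ K) := by
    ext d
    rw [Finset.mem_filter, Finset.mem_filter, Finset.mem_Ioc, Nat.mem_divisors]
    constructor
    · rintro ⟨-, h5, h6⟩
      exact ⟨⟨h5, by omega⟩, h6⟩
    · rintro ⟨⟨h5, -⟩, h6⟩
      have h7 := Nat.le_of_dvd (by omega) h5
      have h8 := Nat.pos_of_dvd_of_pos h5 (by omega)
      exact ⟨⟨h8, by omega⟩, h5, h6⟩
  rw [h4]

end Pool.H64.IR

end S_REC

section S_IRC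

/-! MODULE IRC (project MP_a758cf_pr, IR; overview: team-store H64_a758cf.md)
Number of irreducible polynomials. From rec_smo with K = m large (Smo p K m = Mon p m if m <= K, card p^m): a_m = m p^m = sum_{j<=m} L_j p^(m-j), L_j = sum_{d | j} d card(Irr p d);
subtract p a_{m-1}: L_m = m p^m - (m-1) p^m = p^m. So m card (Irr p m) <= p^m and >= p^m - sum_{d | m, d < m} p^d >= p^m - 2 sqrt(p)^m
(d <= m/2, sum_{d <= m/2} p^d <= p^(m/2) p/(p-1) <= 2 sqrt(p)^m, geometric).
-/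

set_option autoImplicit false

namespace Pool.H64.IR

open Finset Polynomial

lemma irc_smo (p K j : ℕ) [Fact p.Prime] (hj : j ≤ K) : (Smo p K j).card = p ^ j := by
  rw [← card_mon p j]
  congr 1
  ext f
  rw [mem_smo, mem_mon]
  constructor
  · rintro ⟨h1, h2, -⟩
    exact ⟨h1, h2⟩
  · rintro ⟨h1, h2⟩
    refine ⟨h1, h2, fun g _ hgf => ?_⟩
    have := Polynomial.natDegree_le_of_dvd hgf h1.ne_zero
    omega

lemma irc_rec (p M : ℕ) [Fact p.Prime] :
    M * p ^ M = ∑ j ∈ Finset.Icc 1 M, (∑ d ∈ Nat.divisors j, d * (Irr p d).card) * p ^ (M - j) := by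
  have h1 := rec_smo p M M
  rw [irc_smo p M M le_rfl] at h1
  rw [h1]
  refine Finset.sum_congr rfl fun j hj => ?_
  rw [Finset.mem_Icc] at hj
  rw [irc_smo p M (M - j) (Nat.sub_le _ _)]
  congr 1
  refine Finset.sum_congr ?_ fun _ _ => rfl
  rw [Finset.filter_eq_self]
  intro d hd
  exact (Nat.divisor_le hd).trans hj.2

theorem irc_sum (p m : ℕ) [Fact p.Prime] (hm : 1 ≤ m) : ∑ d ∈ Nat.divisors m, d * (Irr p d).card = p ^ m := by
  obtain ⟨k, rfl⟩ : ∃ k, m = k + 1 := ⟨m - 1, by omega⟩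
  have h1 := irc_rec p (k + 1)
  have h2 := irc_rec p k
  rw [Finset.sum_Icc_succ_top (by omega), Nat.sub_self, pow_zero, mul_one] at h1
  have h3 : ∑ j ∈ Finset.Icc 1 k, (∑ d ∈ Nat.divisors j, d * (Irr p d).card) * p ^ (k + 1 - j) =
      p * ∑ j ∈ Finset.Icc 1 k, (∑ d ∈ Nat.divisors j, d * (Irr p d).card) * p ^ (k - j) := by
    rw [Finset.mul_sum]
    refine Finset.sum_congr rfl fun j hj => ?_
    rw [Finset.mem_Icc] at hj
    have h4 : k + 1 - j = (k - j) + 1 := by omega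
    rw [h4, pow_succ]
    ring
  rw [h3, ← h2] at h1
  have h5 : (k + 1) * p ^ (k + 1) = p * (k * p ^ k) + p ^ (k + 1) := by
    rw [pow_succ]; ring
  rw [h5] at h1
  omega

theorem irc_upper (p m : ℕ) [Fact p.Prime] : (m : ℝ) * (Irr p m).card ≤ (p : ℝ) ^ m := by
  rcases Nat.eq_zero_or_pos m with h | h
  · subst h; simp
  · have h1 := irc_sum p m h
    have h2 : m * (Irr p m).card ≤ ∑ d ∈ Nat.divisors m, d * (Irr p d).card :=
      Finset.single_le_sum (f := fun d => d * (Irr p d).card) (fun d _ => Nat.zero_le _)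
        (Nat.mem_divisors_self m (by omega))
    rw [h1] at h2
    exact_mod_cast h2

lemma irc_geom (p h : ℕ) (hp : 2 ≤ p) : ∑ d ∈ Finset.range (h + 1), p ^ d ≤ 2 * p ^ h := by
  induction h with
  | zero => simp
  | succ h ih =>
    rw [Finset.sum_range_succ, pow_succ]
    nlinarith [Nat.mul_le_mul_left (p ^ h) hp]

theorem irc_lower (p m : ℕ) [Fact p.Prime] (hm : 1 ≤ m) : (p : ℝ) ^ m - 2 * Real.sqrt p ^ m ≤ (m : ℝ) * (Irr p m).card := by
  have hp : 2 ≤ p := (Fact.out : p.Prime).two_le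
  have h1 := irc_sum p m hm
  rw [← Nat.insert_self_properDivisors (by omega : m ≠ 0), Finset.sum_insert (by
    simp [Nat.mem_properDivisors]), add_comm] at h1
  have h2 : ∑ d ∈ Nat.properDivisors m, d * (Irr p d).card ≤ 2 * p ^ (m / 2) := by
    refine le_trans ?_ (irc_geom p (m / 2) hp)
    have h3 : Nat.properDivisors m ⊆ Finset.range (m / 2 + 1) := by
      intro d hd
      rw [Nat.mem_properDivisors] at hd
      obtain ⟨⟨k, hk⟩, hlt⟩ := hd
      rw [Finset.mem_range]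
      have h4 : 2 ≤ k := by
        by_contra h5
        have h6 : k = 0 ∨ k = 1 := by omega
        rcases h6 with h6 | h6
        · subst h6; omega
        · subst h6; omega
      have h5 : d * 2 ≤ m := by rw [hk]; exact Nat.mul_le_mul_left d h4
      omega
    refine le_trans (Finset.sum_le_sum fun d _ => ?_) (Finset.sum_le_sum_of_subset h3)
    have h4 := irc_upper p d
    exact_mod_cast h4
  have h3 : (p : ℝ) ^ m = (∑ d ∈ Nat.properDivisors m, d * (Irr p d).card : ℕ) +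
      (m : ℝ) * (Irr p m).card := by
    exact_mod_cast h1.symm
  have h4 : ((∑ d ∈ Nat.properDivisors m, d * (Irr p d).card : ℕ) : ℝ) ≤ 2 * (p : ℝ) ^ (m / 2) := by
    exact_mod_cast h2
  have h5 : (p : ℝ) ^ (m / 2) ≤ Real.sqrt p ^ m := by
    have hp0 : (0 : ℝ) ≤ p := Nat.cast_nonneg _
    have h6 : Real.sqrt p ^ (2 * (m / 2)) = (p : ℝ) ^ (m / 2) := by
      rw [pow_mul, Real.sq_sqrt hp0]
    rw [← h6]
    refine pow_le_pow_right₀ ?_ (Nat.mul_div_le m 2)
    rw [Real.one_le_sqrt]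
    exact_mod_cast (by omega : 1 ≤ p)
  rw [h3]
  linarith

end Pool.H64.IR

end S_IRC

section S_LBD

/-! MODULE LBD (project MP_a758cf_pr, IR; overview: team-store H64_a758cf.md)
L = sum_{g in RR p K y} beta g, 1 <= K <= y, p >= 3: |L - log(y/K)| <= 3; and each beta g for g in RR p K k is <= 1/(p^(K+1)-1) <= 3^(-K).
sum over degree j: card(Irr p j)/(p^j-1) <= (1/j) p^j/(p^j-1) <= 1/j + (2/j) p^(-j)... and >= (1/j)(1 - 2 p^(-j/2)). sum_{K<j<=y} 1/j <= log(y/K) and >= log((y+1)/(K+1)) >=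
log(y/K) - log 2. Errors: sum_j 2 p^{-j}/j <= 1, sum_j (2/j) 3^{-j/2} = -2 log(1-1/sqrt 3) <= 1.73.
-/

set_option autoImplicit false

namespace Pool.H64.IR

open Finset Polynomial

lemma lbd_harm_upper (K y : ℕ) (hK : 1 ≤ K) (hy : K ≤ y) :
    ∑ j ∈ Finset.Ioc K y, (1 : ℝ) / j ≤ Real.log y - Real.log K := by
  induction y, hy using Nat.le_induction with
  | base => simp
  | succ y hy ih =>
    rw [Finset.sum_Ioc_succ_top hy]
    have hy0 : (0 : ℝ) < y := by exact_mod_cast (by omega : 0 < y)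
    have h1 : 1 / ((y : ℝ) + 1) ≤ Real.log ((y : ℝ) + 1) - Real.log y := by
      rw [← Real.log_div (by positivity) (by positivity)]
      have h2 := Real.one_sub_inv_le_log_of_pos (show (0 : ℝ) < ((y : ℝ) + 1) / y by positivity)
      refine le_trans (le_of_eq ?_) h2
      field_simp
      ring
    push_cast
    linarith

lemma lbd_harm_lower (K y : ℕ) (hy : K ≤ y) :
    Real.log ((y : ℝ) + 1) - Real.log ((K : ℝ) + 1) ≤ ∑ j ∈ Finset.Ioc K y, (1 : ℝ) / j := by
  induction y, hy using Nat.le_induction with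
  | base => simp
  | succ y hy ih =>
    rw [Finset.sum_Ioc_succ_top hy]
    have h1 : Real.log ((y : ℝ) + 1 + 1) - Real.log ((y : ℝ) + 1) ≤ 1 / ((y : ℝ) + 1) := by
      rw [← Real.log_div (by positivity) (by positivity)]
      have h2 := Real.log_le_sub_one_of_pos
        (show (0 : ℝ) < ((y : ℝ) + 1 + 1) / ((y : ℝ) + 1) by positivity)
      refine h2.trans (le_of_eq ?_)
      field_simp
      ring
    push_cast
    linarith

lemma lbd_geom (c : ℝ) (hc : c ≠ 1) (K y : ℕ) (hy : K ≤ y) :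
    ∑ j ∈ Finset.Ioc K y, c ^ j = (c ^ (K + 1) - c ^ (y + 1)) / (1 - c) := by
  have h1 : 1 - c ≠ 0 := fun h => hc (by linarith)
  induction y, hy using Nat.le_induction with
  | base => simp
  | succ y hy ih =>
    rw [Finset.sum_Ioc_succ_top hy, ih]
    field_simp
    ring

lemma lbd_geom_le (c : ℝ) (h0 : 0 ≤ c) (hc : c < 1) (K y : ℕ) (hy : K ≤ y) :
    ∑ j ∈ Finset.Ioc K y, c ^ j ≤ c ^ (K + 1) / (1 - c) := by
  rw [lbd_geom c hc.ne K y hy]
  refine div_le_div_of_nonneg_right ?_ (by linarith)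
  have : 0 ≤ c ^ (y + 1) := by positivity
  linarith

lemma lbd_sum {p : ℕ} [Fact p.Prime] (K y : ℕ) :
    ∑ g ∈ RR p K y, beta g = ∑ j ∈ Finset.Ioc K y, ((Irr p j).card : ℝ) / ((p : ℝ) ^ j - 1) := by
  rw [sum_rr]
  refine Finset.sum_congr rfl fun j _ => ?_
  rw [Finset.sum_congr rfl (g := fun _ => 1 / ((p : ℝ) ^ j - 1)), Finset.sum_const, nsmul_eq_mul]
  · ring
  · intro f hf
    unfold beta
    rw [((mem_irr f).1 hf).2.2]

lemma lbd_pow {p : ℕ} (hp : 3 ≤ p) (j : ℕ) : (3 : ℝ) ^ j ≤ (p : ℝ) ^ j :=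
  pow_le_pow_left₀ (by norm_num) (by exact_mod_cast hp) j

lemma lbd_term_upper {p : ℕ} [Fact p.Prime] (hp : 3 ≤ p) (j : ℕ) (hj : 1 ≤ j) :
    ((Irr p j).card : ℝ) / ((p : ℝ) ^ j - 1) ≤ 1 / j + 3 / 2 * (1 / 3 : ℝ) ^ j := by
  have hj0 : (0 : ℝ) < j := by exact_mod_cast hj
  have hj1 : (1 : ℝ) ≤ j := by exact_mod_cast hj
  have h1 := irc_upper p j
  have h2 := lbd_pow hp j
  have h3 : (3 : ℝ) ≤ 3 ^ j := by
    calc (3 : ℝ) = 3 ^ 1 := by norm_num
      _ ≤ 3 ^ j := pow_le_pow_right₀ (by norm_num) hj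
  have h4 : (0 : ℝ) < (p : ℝ) ^ j - 1 := by linarith
  rw [div_le_iff₀ h4]
  have h5 : ((Irr p j).card : ℝ) ≤ (p : ℝ) ^ j / j := by
    rw [le_div_iff₀ hj0]; linarith
  refine h5.trans ?_
  have h6 : (1 / 3 : ℝ) ^ j * 3 ^ j = 1 := by
    rw [← mul_pow]; norm_num
  have h7 : (0 : ℝ) < (1 / 3 : ℝ) ^ j := by positivity
  have h8 : (1 : ℝ) ≤ 3 / 2 * (1 / 3 : ℝ) ^ j * ((p : ℝ) ^ j - 1) := by
    have h9 : (1 / 3 : ℝ) ^ j * (2 / 3 * 3 ^ j) ≤ (1 / 3 : ℝ) ^ j * ((p : ℝ) ^ j - 1) :=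
      mul_le_mul_of_nonneg_left (by linarith) h7.le
    nlinarith
  have h10 : 1 / (j : ℝ) ≤ 1 := by rw [div_le_one hj0]; exact hj1
  have h11 : (p : ℝ) ^ j / j = 1 / j * ((p : ℝ) ^ j - 1) + 1 / j := by ring
  rw [h11]
  nlinarith

lemma lbd_term_lower {p : ℕ} [Fact p.Prime] (hp : 3 ≤ p) (j : ℕ) (hj : 1 ≤ j) :
    1 / (j : ℝ) - 2 / j * (3 / 5 : ℝ) ^ j ≤ ((Irr p j).card : ℝ) / ((p : ℝ) ^ j - 1) := by
  have hj0 : (0 : ℝ) < j := by exact_mod_cast hj
  have h1 := irc_lower p j hj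
  have h2 := lbd_pow hp j
  have h3 : (3 : ℝ) ≤ 3 ^ j := by
    calc (3 : ℝ) = 3 ^ 1 := by norm_num
      _ ≤ 3 ^ j := pow_le_pow_right₀ (by norm_num) hj
  have h4 : (0 : ℝ) < (p : ℝ) ^ j - 1 := by linarith
  have hp0 : (0 : ℝ) ≤ p := Nat.cast_nonneg _
  have hp3 : (3 : ℝ) ≤ p := by exact_mod_cast hp
  have h5 : (5 / 3 : ℝ) ≤ Real.sqrt p := by
    rw [show (5 / 3 : ℝ) = Real.sqrt ((5 / 3) ^ 2) from (Real.sqrt_sq (by norm_num)).symm]
    exact Real.sqrt_le_sqrt (by norm_num; linarith)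
  have h6 : (5 / 3 : ℝ) ^ j ≤ Real.sqrt p ^ j := pow_le_pow_left₀ (by norm_num) h5 j
  have h7 : Real.sqrt p ^ j * Real.sqrt p ^ j = (p : ℝ) ^ j := by
    rw [← mul_pow, Real.mul_self_sqrt hp0]
  have h8 : (3 / 5 : ℝ) ^ j * (5 / 3) ^ j = 1 := by
    rw [← mul_pow]; norm_num
  have h9 : (0 : ℝ) < (3 / 5 : ℝ) ^ j := by positivity
  have h10 : (0 : ℝ) < Real.sqrt p ^ j := by positivity
  -- sqrt p ^ j <= (3/5)^j p^j
  have h11 : Real.sqrt p ^ j ≤ (3 / 5 : ℝ) ^ j * (p : ℝ) ^ j := by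
    have h12 : (1 : ℝ) ≤ (3 / 5 : ℝ) ^ j * Real.sqrt p ^ j := by
      rw [← h8]; exact mul_le_mul_of_nonneg_left h6 h9.le
    calc Real.sqrt p ^ j = 1 * Real.sqrt p ^ j := by ring
      _ ≤ ((3 / 5 : ℝ) ^ j * Real.sqrt p ^ j) * Real.sqrt p ^ j :=
          mul_le_mul_of_nonneg_right h12 h10.le
      _ = (3 / 5 : ℝ) ^ j * (p : ℝ) ^ j := by rw [mul_assoc, h7]
  have h13 : ((Irr p j).card : ℝ) / (p : ℝ) ^ j ≤ ((Irr p j).card : ℝ) / ((p : ℝ) ^ j - 1) :=
    div_le_div_of_nonneg_left (Nat.cast_nonneg _) h4 (by linarith)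
  refine le_trans ?_ h13
  rw [le_div_iff₀ (by linarith)]
  have h14 : (1 / (j : ℝ) - 2 / j * (3 / 5 : ℝ) ^ j) * (p : ℝ) ^ j =
      ((p : ℝ) ^ j - 2 * ((3 / 5 : ℝ) ^ j * (p : ℝ) ^ j)) / j := by
    field_simp
  rw [h14, div_le_iff₀ hj0]
  linarith

theorem lbd {p : ℕ} [Fact p.Prime] (hp : 3 ≤ p) (K y : ℕ) (hK : 1 ≤ K) (hy : K ≤ y) :
    |(∑ g ∈ RR p K y, beta g) - Real.log ((y : ℝ) / K)| ≤ 3 := by
  have hK0 : (0 : ℝ) < K := by exact_mod_cast hK
  have hK1 : (1 : ℝ) ≤ K := by exact_mod_cast hK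
  have hy0 : (0 : ℝ) < y := by exact_mod_cast (by omega : 0 < y)
  rw [lbd_sum, Real.log_div (by positivity) (by positivity), abs_le]
  constructor
  · have h1 : ∑ j ∈ Finset.Ioc K y, (1 / (j : ℝ) - (3 / 5 : ℝ) ^ j) ≤
        ∑ j ∈ Finset.Ioc K y, ((Irr p j).card : ℝ) / ((p : ℝ) ^ j - 1) := by
      refine Finset.sum_le_sum fun j hj => ?_
      rw [Finset.mem_Ioc] at hj
      refine le_trans ?_ (lbd_term_lower hp j (by omega))
      have hj2 : (2 : ℝ) ≤ j := by exact_mod_cast (by omega : 2 ≤ j)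
      have h2 : 2 / (j : ℝ) ≤ 1 := by rw [div_le_one (by linarith)]; exact hj2
      have h3 : 2 / (j : ℝ) * (3 / 5 : ℝ) ^ j ≤ 1 * (3 / 5 : ℝ) ^ j :=
        mul_le_mul_of_nonneg_right h2 (by positivity)
      linarith
    rw [Finset.sum_sub_distrib] at h1
    have h2 := lbd_harm_lower K y hy
    have h3 := lbd_geom_le (3 / 5) (by norm_num) (by norm_num) K y hy
    have h4 : (3 / 5 : ℝ) ^ (K + 1) / (1 - 3 / 5) ≤ 9 / 10 := by
      have : (3 / 5 : ℝ) ^ (K + 1) ≤ (3 / 5) ^ 2 :=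
        pow_le_pow_of_le_one (by norm_num) (by norm_num) (by omega)
      rw [div_le_iff₀ (by norm_num)]
      linarith
    have h5 : Real.log ((K : ℝ) + 1) ≤ Real.log K + 1 := by
      have h6 : Real.log ((K : ℝ) + 1) ≤ Real.log (2 * K) :=
        Real.log_le_log (by positivity) (by linarith)
      rw [Real.log_mul (by norm_num) (by positivity)] at h6
      have h7 := Real.log_le_sub_one_of_pos (show (0 : ℝ) < 2 by norm_num)
      linarith
    have h8 : Real.log y ≤ Real.log ((y : ℝ) + 1) := Real.log_le_log hy0 (by linarith)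
    linarith
  · have h1 : ∑ j ∈ Finset.Ioc K y, ((Irr p j).card : ℝ) / ((p : ℝ) ^ j - 1) ≤
        ∑ j ∈ Finset.Ioc K y, (1 / (j : ℝ) + 3 / 2 * (1 / 3 : ℝ) ^ j) :=
      Finset.sum_le_sum fun j hj => lbd_term_upper hp j (by rw [Finset.mem_Ioc] at hj; omega)
    rw [Finset.sum_add_distrib, ← Finset.mul_sum] at h1
    have h2 := lbd_harm_upper K y hK hy
    have h3 := lbd_geom_le (1 / 3) (by norm_num) (by norm_num) K y hy
    have h4 : (1 / 3 : ℝ) ^ (K + 1) / (1 - 1 / 3) ≤ 1 := by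
      have : (1 / 3 : ℝ) ^ (K + 1) ≤ (1 / 3) ^ 1 :=
        pow_le_pow_of_le_one (by norm_num) (by norm_num) (by omega)
      rw [div_le_iff₀ (by norm_num)]
      linarith
    linarith

theorem beta_le {p : ℕ} [Fact p.Prime] (hp : 3 ≤ p) (K k : ℕ) (g : (ZMod p)[X]) (hg : g ∈ RR p K k) :
    0 < beta g ∧ beta g ≤ 1 / ((p : ℝ) ^ (K + 1) - 1) ∧ beta g ≤ (1 / 3 : ℝ) ^ K := by
  obtain ⟨-, -, h1, -⟩ := (mem_rr g).1 hg
  have hp1 : (1 : ℝ) ≤ p := by exact_mod_cast (by omega : 1 ≤ p)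
  have h2 : (p : ℝ) ^ (K + 1) ≤ (p : ℝ) ^ g.natDegree := pow_le_pow_right₀ hp1 h1
  have h3 := lbd_pow hp (K + 1)
  have h4 : (1 : ℝ) ≤ 3 ^ K := one_le_pow₀ (by norm_num)
  have h5 : (3 : ℝ) ^ (K + 1) = 3 * 3 ^ K := by rw [pow_succ]; ring
  have h6 : (0 : ℝ) < (p : ℝ) ^ (K + 1) - 1 := by linarith
  have h7 : beta g ≤ 1 / ((p : ℝ) ^ (K + 1) - 1) := by
    unfold beta
    exact one_div_le_one_div_of_le h6 (by linarith)
  refine ⟨?_, h7, h7.trans ?_⟩
  · unfold beta
    exact one_div_pos.2 (by linarith)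
  · rw [one_div_pow]
    exact one_div_le_one_div_of_le (by positivity) (by linarith)

theorem lbd0 {p : ℕ} [Fact p.Prime] (hp : 3 ≤ p) (y : ℕ) (hy : 1 ≤ y) :
    (∑ g ∈ RR p 0 y, beta g) ≤ 2 * (1 + Real.log y) := by
  rw [lbd_sum]
  have h1 : ∑ j ∈ Finset.Ioc 0 y, ((Irr p j).card : ℝ) / ((p : ℝ) ^ j - 1) ≤
      ∑ j ∈ Finset.Ioc 0 y, (1 / (j : ℝ) + 3 / 2 * (1 / 3 : ℝ) ^ j) :=
    Finset.sum_le_sum fun j hj => lbd_term_upper hp j (by rw [Finset.mem_Ioc] at hj; omega)
  rw [Finset.sum_add_distrib, ← Finset.mul_sum] at h1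
  have h2 : ∑ j ∈ Finset.Ioc 0 y, 1 / (j : ℝ) ≤ 1 + Real.log y := by
    have h3 : Finset.Ioc 0 y = insert 1 (Finset.Ioc 1 y) := by
      ext j
      simp only [Finset.mem_Ioc, Finset.mem_insert]
      omega
    rw [h3, Finset.sum_insert (by simp)]
    have h4 := lbd_harm_upper 1 y le_rfl hy
    simp only [Nat.cast_one, Real.log_one, sub_zero] at h4
    norm_num
    simpa using h4
  have h3 := lbd_geom_le (1 / 3) (by norm_num) (by norm_num) 0 y (by omega)
  have h4 : (1 / 3 : ℝ) ^ (0 + 1) / (1 - 1 / 3) = 1 / 2 := by norm_num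
  have h5 : 0 ≤ Real.log y := Real.log_nonneg (by exact_mod_cast hy)
  rw [h4] at h3
  linarith

end Pool.H64.IR

end S_LBD

section S_SMC

/-! MODULE SMC (project MP_a758cf_pr, IR; overview: team-store H64_a758cf.md)
Smooth polynomials: card (Smo p K m) <= exp(11) p^m exp(-m/K), K >= 1... With sigma_m = card(Smo p K m)/p^m, rec_smo gives m sigma_m = sum_j l_j sigma_{m-j}, l_j = L_j/p^j with
l_j <= 1 (irc_sum) and, for j > K, l_j <= p^(-j) sum_{d <= K} p^d <= 2 p^(K-j). Induction: claim sigma_i <= A e^{-i/K}, A = exp(11). If m <= e(K+3) + ... small the bound holds because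
sigma_m <= 1 <= A e^{-m/K} when m <= 11 K (note e (K+3) <= 11 K for K >= 1: 4e = 10.87..). If m > 11 K >= e (K+3): m sigma_m <= A e^{-m/K} (sum_{j<=K} e^{j/K} + sum_{j>K} 2 p^(K-j) e^{j/K})
<= A e^{-m/K} (K e + 2 e sum_{i>=1} p^{-i} e^{i/K}); for K = 1 the last sum may be large when p = 3 (e/3 = 0.906, sum 9.6), so assume K >= 2: sum_{i>=1} (e^{1/2}/3)^i = 0.55/0.45 = 1.22, total
<= e (K + 2.5) <= 11 K <= m. Done.
-/

set_option autoImplicit false

namespace Pool.H64.IR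

open Finset Polynomial

private theorem smc_L (p K j : ℕ) [Fact p.Prime] (hj : 1 ≤ j) :
    ((∑ d ∈ (Nat.divisors j).filter (· ≤ K), d * (Irr p d).card : ℕ) : ℝ) ≤ (p : ℝ) ^ j := by
  have h1 : ∑ d ∈ (Nat.divisors j).filter (· ≤ K), d * (Irr p d).card ≤ p ^ j := by
    rw [← irc_sum p j hj]
    exact Finset.sum_le_sum_of_subset (Finset.filter_subset _ _)
  exact_mod_cast h1

private theorem smc_geo (p : ℝ) (hp : 3 ≤ p) (K : ℕ) : ∑ d ∈ Finset.range (K + 1), p ^ d ≤ 2 * p ^ K := by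
  induction K with
  | zero => simp
  | succ K ih =>
    rw [Finset.sum_range_succ]
    have h : 0 < p ^ K := by positivity
    rw [pow_succ p K]
    nlinarith

private theorem smc_L2 (p K j : ℕ) [Fact p.Prime] (hp : 3 ≤ p) :
    ((∑ d ∈ (Nat.divisors j).filter (· ≤ K), d * (Irr p d).card : ℕ) : ℝ) ≤ 2 * (p : ℝ) ^ K := by
  refine le_trans ?_ (smc_geo (p : ℝ) (by exact_mod_cast hp) K)
  push_cast
  calc ∑ d ∈ (Nat.divisors j).filter (· ≤ K), ((d : ℝ) * ((Irr p d).card : ℝ))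
      ≤ ∑ d ∈ (Nat.divisors j).filter (· ≤ K), (p : ℝ) ^ d := Finset.sum_le_sum fun d _ => irc_upper p d
    _ ≤ ∑ d ∈ Finset.range (K + 1), (p : ℝ) ^ d := by
        refine Finset.sum_le_sum_of_subset_of_nonneg ?_ (fun _ _ _ => by positivity)
        intro d hd
        rw [Finset.mem_filter] at hd
        rw [Finset.mem_range]
        have := hd.2
        omega

private theorem smc_geo2 (t : ℕ) : ∑ i ∈ Finset.range t, (2 / 3 : ℝ) ^ (i + 1) ≤ 2 := by
  have h : ∀ t : ℕ, ∑ i ∈ Finset.range t, (2 / 3 : ℝ) ^ (i + 1) = 2 - 2 * (2 / 3) ^ t := by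
    intro t
    induction t with
    | zero => simp
    | succ t ih => rw [Finset.sum_range_succ, ih, pow_succ]; ring
  rw [h]
  have : 0 < (2 / 3 : ℝ) ^ t := by positivity
  linarith

private theorem smc_key (L a b c d e : ℝ) (hb : b ≠ 0) : L * (a * c * (d * e)) = a * (c * b) * d * (L / b * e) := by
  field_simp

theorem smc (p K m : ℕ) [Fact p.Prime] (hp : 3 ≤ p) (hK : 2 ≤ K) :
    ((Smo p K m).card : ℝ) ≤ Real.exp 11 * (p : ℝ) ^ m * Real.exp (-(m : ℝ) / K) := by
  have hp0 : (0 : ℝ) < p := by positivity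
  have hp3 : (3 : ℝ) ≤ p := by exact_mod_cast hp
  have hK0 : (0 : ℝ) < K := by positivity
  have hK2 : (2 : ℝ) ≤ K := by exact_mod_cast hK
  induction m using Nat.strong_induction_on with
  | _ m ih =>
  by_cases hm : m ≤ 11 * K
  · have h1 : ((Smo p K m).card : ℝ) ≤ (p : ℝ) ^ m := by
      have h2 : (Smo p K m).card ≤ p ^ m := by
        rw [← card_mon p m]
        refine Finset.card_le_card ?_
        intro f hf
        rw [mem_smo] at hf
        rw [mem_mon]
        exact ⟨hf.1, hf.2.1⟩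
      exact_mod_cast h2
    refine h1.trans ?_
    have h3 : Real.exp 11 * (p : ℝ) ^ m * Real.exp (-(m : ℝ) / K) = (p : ℝ) ^ m * Real.exp (11 + -(m : ℝ) / K) := by
      rw [Real.exp_add]; ring
    rw [h3]
    have h4 : (1 : ℝ) ≤ Real.exp (11 + -(m : ℝ) / K) := by
      rw [← Real.exp_zero]
      apply Real.exp_le_exp.2
      have h5 : (m : ℝ) ≤ 11 * K := by exact_mod_cast hm
      have h6 : (m : ℝ) / K ≤ 11 := by rw [div_le_iff₀ hK0]; exact h5
      have h7 : -(m : ℝ) / K = -((m : ℝ) / K) := by ring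
      rw [h7]; linarith
    exact le_mul_of_one_le_right (by positivity) h4
  · push Not at hm
    obtain ⟨t, rfl⟩ : ∃ t, m = K + t := ⟨m - K, by omega⟩
    set M := K + t with hM
    have hrec := rec_smo p K M
    have hrec2 : (M : ℝ) * ((Smo p K M).card : ℝ) =
        ∑ j ∈ Finset.Icc 1 M, ((∑ d ∈ (Nat.divisors j).filter (· ≤ K), d * (Irr p d).card : ℕ) : ℝ) * ((Smo p K (M - j)).card : ℝ) := by
      have := congrArg (fun x : ℕ => (x : ℝ)) hrec
      simp only [Nat.cast_mul, Nat.cast_sum] at this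
      simpa only [Nat.cast_mul, Nat.cast_sum] using this
    -- bound each term
    set A : ℝ := Real.exp 11 * (p : ℝ) ^ M * Real.exp (-(M : ℝ) / K) with hA
    have hA0 : 0 < A := by rw [hA]; positivity
    set l : ℕ → ℝ := fun j => ((∑ d ∈ (Nat.divisors j).filter (· ≤ K), d * (Irr p d).card : ℕ) : ℝ) / (p : ℝ) ^ j * Real.exp ((j : ℝ) / K) with hl
    have hterm : ∀ j ∈ Finset.Icc 1 M, ((∑ d ∈ (Nat.divisors j).filter (· ≤ K), d * (Irr p d).card : ℕ) : ℝ) * ((Smo p K (M - j)).card : ℝ) ≤ A * l j := by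
      intro j hj
      rw [Finset.mem_Icc] at hj
      have h1 := ih (M - j) (by omega)
      refine (mul_le_mul_of_nonneg_left h1 (Nat.cast_nonneg _)).trans (le_of_eq ?_)
      have h2 : (p : ℝ) ^ M = (p : ℝ) ^ (M - j) * (p : ℝ) ^ j := by rw [← pow_add]; congr 1; omega
      have h3 : Real.exp (-((M - j : ℕ) : ℝ) / K) = Real.exp (-(M : ℝ) / K) * Real.exp ((j : ℝ) / K) := by
        rw [← Real.exp_add]
        congr 1
        rw [Nat.cast_sub hj.2]
        ring
      rw [hA, hl, h2, h3]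
      have h4 : (p : ℝ) ^ j ≠ 0 := by positivity
      exact smc_key _ _ _ _ _ _ h4
    have hl1 : ∀ i ∈ Finset.range K, l (i + 1) ≤ Real.exp 1 := by
      intro i hi
      rw [Finset.mem_range] at hi
      rw [hl]
      simp only
      have h1 : ((∑ d ∈ (Nat.divisors (i + 1)).filter (· ≤ K), d * (Irr p d).card : ℕ) : ℝ) / (p : ℝ) ^ (i + 1) ≤ 1 := by
        rw [div_le_one (by positivity)]
        exact smc_L p K (i + 1) (by omega)
      have h2 : Real.exp (((i + 1 : ℕ) : ℝ) / K) ≤ Real.exp 1 := by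
        apply Real.exp_le_exp.2
        rw [div_le_one hK0]
        exact_mod_cast hi
      calc _ ≤ 1 * Real.exp 1 := mul_le_mul h1 h2 (Real.exp_pos _).le zero_le_one
        _ = Real.exp 1 := one_mul _
    have hl2 : ∀ i ∈ Finset.range t, l (K + i + 1) ≤ 2 * Real.exp 1 * (2 / 3) ^ (i + 1) := by
      intro i _
      rw [hl]
      simp only
      have h1 := smc_L2 p K (K + i + 1) hp
      have h2 : ((∑ d ∈ (Nat.divisors (K + i + 1)).filter (· ≤ K), d * (Irr p d).card : ℕ) : ℝ) / (p : ℝ) ^ (K + i + 1) ≤ 2 / 3 ^ (i + 1) := by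
        rw [div_le_div_iff₀ (by positivity) (by positivity)]
        have h3 : (p : ℝ) ^ (K + i + 1) = (p : ℝ) ^ K * (p : ℝ) ^ (i + 1) := by rw [← pow_add]; congr 1
        rw [h3]
        have h4 : (3 : ℝ) ^ (i + 1) ≤ (p : ℝ) ^ (i + 1) := pow_le_pow_left₀ (by norm_num) hp3 _
        calc _ ≤ (2 * (p : ℝ) ^ K) * (p : ℝ) ^ (i + 1) := mul_le_mul h1 h4 (by positivity) (by positivity)
          _ = _ := by ring
      have h5 : Real.exp (((K + i + 1 : ℕ) : ℝ) / K) ≤ Real.exp 1 * 2 ^ (i + 1) := by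
        have h6 : ((K + i + 1 : ℕ) : ℝ) / K = 1 + ((i + 1 : ℕ) : ℝ) * (1 / K) := by
          push_cast; field_simp; ring
        rw [h6, Real.exp_add, Real.exp_nat_mul]
        refine mul_le_mul_of_nonneg_left ?_ (Real.exp_pos _).le
        refine pow_le_pow_left₀ (Real.exp_pos _).le ?_ _
        have h7 : Real.exp (1 / K) ≤ Real.exp (1 / 2) := by
          apply Real.exp_le_exp.2
          exact one_div_le_one_div_of_le (by norm_num) hK2
        refine h7.trans ?_
        have h8 : Real.exp (1 / 2) ^ 2 = Real.exp 1 := by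
          rw [← Real.exp_nat_mul]; norm_num
        have h9 : Real.exp 1 < 2.7182818286 := Real.exp_one_lt_d9
        nlinarith [Real.exp_pos (1 / 2)]
      calc _ ≤ 2 / 3 ^ (i + 1) * (Real.exp 1 * 2 ^ (i + 1)) := mul_le_mul h2 h5 (Real.exp_pos _).le (by positivity)
        _ = _ := by rw [div_pow]; ring
    have hsum : ∑ j ∈ Finset.Icc 1 M, l j ≤ (K + 4) * Real.exp 1 := by
      have h1 : ∑ j ∈ Finset.Icc 1 M, l j = ∑ i ∈ Finset.range M, l (i + 1) := by
        rw [Finset.sum_bij (fun j _ => j - 1)]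
        · intro a ha
          rw [Finset.mem_Icc] at ha
          rw [Finset.mem_range]; omega
        · intro a ha b hb hab
          rw [Finset.mem_Icc] at ha hb
          omega
        · intro b hb
          rw [Finset.mem_range] at hb
          exact ⟨b + 1, by rw [Finset.mem_Icc]; omega, by simp⟩
        · intro a ha
          rw [Finset.mem_Icc] at ha
          congr 1
          omega
      rw [h1, hM, Finset.sum_range_add]
      have h2 : ∑ i ∈ Finset.range K, l (i + 1) ≤ K * Real.exp 1 := by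
        refine (Finset.sum_le_sum hl1).trans ?_
        rw [Finset.sum_const, Finset.card_range, nsmul_eq_mul]
      have h3 : ∑ i ∈ Finset.range t, l (K + i + 1) ≤ 4 * Real.exp 1 := by
        refine (Finset.sum_le_sum hl2).trans ?_
        rw [← Finset.mul_sum]
        have h4 := smc_geo2 t
        nlinarith [Real.exp_pos 1]
      linarith
    have hfin : (M : ℝ) * ((Smo p K M).card : ℝ) ≤ A * M := by
      rw [hrec2]
      refine (Finset.sum_le_sum hterm).trans ?_
      rw [← Finset.mul_sum]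
      refine mul_le_mul_of_nonneg_left (hsum.trans ?_) hA0.le
      have h1 : (11 : ℝ) * K < M := by exact_mod_cast hm
      have h9 : Real.exp 1 < 2.7182818286 := Real.exp_one_lt_d9
      nlinarith
    have hM0 : (0 : ℝ) < M := by
      have : 0 < M := by omega
      exact_mod_cast this
    rw [mul_comm A] at hfin
    exact le_of_mul_le_mul_left hfin hM0

end Pool.H64.IR

end S_SMC

section S_SM1

/-! MODULE SM1 (project MP_a758cf_pr, IR; overview: team-store H64_a758cf.md)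
Deterministic. If S | charpoly A, S monic, all irreducible factors of S of degree <= K, deg S >= D then p^D <= sum_{m <= D+K} sum_{f in Smo p K m} X1 f A.
Proof. There is an A-invariant subspace U of F^n with D <= dim U <= D + K, all of whose vectors are killed by polynomials with all irreducible factors of degree <= K.
[W = {z : killed by S^n (A)}: dim W >= deg S >= D. Take an A-invariant subspace U0 of W of maximal dimension among those of dimension < D... If W has dimension < D contradiction; let U0 be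
an A-invariant subspace of W with dim U0 < D maximal (0 is one); as dim W >= D there is w in W \ U0 such that the annihilator of w modulo U0 is an irreducible polynomial g | S, deg g <= K
(take any w in W \ U0, its annihilator modulo U0 divides S^n, multiply w by a cofactor); U = U0 + F[A] w has dimension dim U0 + deg g <= D - 1 + K and >= D by maximality (it is
an invariant subspace of W bigger than U0).] Every z in U has a monic annihilator f_z (generator) dividing S^n, so K-smooth, of degree <= dim U <= D + K. So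
p^D <= card U <= sum over m <= D+K, f in Smo p K m of X1 f A (z = 0 has f = 1, m = 0).
dim W >= deg S: charpoly(A) = charpoly(A|W) charpoly(A on F^n/W) and S is coprime to the second.
-/

set_option autoImplicit false

namespace Pool.H64.IR

open Finset Polynomial

section gen
variable {F V : Type} [Field F] [AddCommGroup V] [Module F V] [FiniteDimensional F V]

open Module.Basis in
private lemma sm1_charpoly_mul (W : Submodule F V) (e : V →ₗ[F] V) (he : W ≤ W.comap e) :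
    e.charpoly = (e.restrict he).charpoly * (W.mapQ W e he).charpoly := by
  let m := Module.Free.ChooseBasisIndex F W
  let bW : Module.Basis m F W := Module.Free.chooseBasis F W
  let n := Module.Free.ChooseBasisIndex F (V ⧸ W)
  let bQ : Module.Basis n F (V ⧸ W) := Module.Free.chooseBasis F (V ⧸ W)
  let b := sumQuot bW bQ
  let A : Matrix m m F := LinearMap.toMatrix bW bW (e.restrict he)
  let B : Matrix m n F := Matrix.of fun i l ↦
    ((sumQuot bW bQ).repr (e ((sumQuot bW bQ) (Sum.inr l)))) (Sum.inl i)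
  let D : Matrix n n F := LinearMap.toMatrix bQ bQ (W.mapQ W e he)
  suffices LinearMap.toMatrix b b e = Matrix.fromBlocks A B 0 D by
    rw [← LinearMap.charpoly_toMatrix e b, this, ← LinearMap.charpoly_toMatrix (e.restrict he) bW,
      ← LinearMap.charpoly_toMatrix (W.mapQ W e he) bQ, Matrix.charpoly_fromBlocks_zero₂₁]
  ext u v
  cases u with
  | inl i =>
    cases v with
    | inl k =>
      simp only [b, sumQuot_inl, Matrix.fromBlocks_apply₁₁, A, LinearMap.toMatrix_apply]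
      apply sumQuot_repr_inl_of_mem
    | inr l => simp [b, LinearMap.toMatrix_apply, Matrix.fromBlocks_apply₁₂, B]
  | inr j =>
    cases v with
    | inl k =>
      suffices W.mkQ (e (bW k)) = 0 by simp [LinearMap.toMatrix_apply, b, this]
      rw [← LinearMap.mem_ker, Submodule.ker_mkQ]
      exact he (Submodule.coe_mem (bW k))
    | inr l =>
      simp only [LinearMap.toMatrix_apply, sumQuot_repr_inr,
        Matrix.fromBlocks_apply₂₂, b, D]
      rw [← sumQuot_inr bW bQ l, W.mapQ_apply]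
      simp

private lemma sm1_root (h : V →ₗ[F] V) (g : F[X]) (hg : Irreducible g) (hd : g ∣ h.charpoly) :
    ∃ w : V, w ≠ 0 ∧ aeval h g w = 0 := by
  classical
  have : Fact (Irreducible g) := ⟨hg⟩
  let b := Module.finBasis F V
  let M := LinearMap.toMatrix b b h
  let ι := AdjoinRoot.of g
  have h1 : (M.map ι).charpoly.IsRoot (AdjoinRoot.root g) := by
    have h2 : (M.map ι).charpoly = M.charpoly.map ι := by
      exact Matrix.charpoly_map M ι
    rw [h2]
    have h3 : M.charpoly = h.charpoly := LinearMap.charpoly_toMatrix h b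
    rw [h3]
    obtain ⟨c, hc⟩ := hd
    rw [hc, Polynomial.map_mul]
    exact (AdjoinRoot.isRoot_root g).dvd (dvd_mul_right _ _)
  have h4 : Module.End.HasEigenvalue (Matrix.toLin' (M.map ι)) (AdjoinRoot.root g) := by
    rw [Module.End.hasEigenvalue_iff_isRoot_charpoly, Matrix.charpoly_toLin']
    exact h1
  obtain ⟨v, hv⟩ := h4.exists_hasEigenvector
  have h5 := Module.End.aeval_apply_of_hasEigenvector (f := Matrix.toLin' (M.map ι))
    (p := g.map ι) hv
  have h6 : (g.map ι).eval (AdjoinRoot.root g) = 0 := AdjoinRoot.isRoot_root g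
  rw [h6, zero_smul] at h5
  have h7 : aeval (Matrix.toLin' (M.map ι)) (g.map ι) = Matrix.toLin' ((aeval M g).map ι) := by
    have h8 : aeval (Matrix.toLinAlgEquiv' (M.map ι)) (g.map ι) =
        Matrix.toLinAlgEquiv' (aeval (M.map ι) (g.map ι)) := by
      exact Polynomial.aeval_algHom_apply (Matrix.toLinAlgEquiv' : _ ≃ₐ[_] _).toAlgHom _ _
    have h9 : (ι.mapMatrix (aeval M g)) = aeval (M.map ι) (g.map ι) := by
      refine Polynomial.map_aeval_eq_aeval_map (ψ := ι.mapMatrix) (φ := ι) ?_ g M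
      ext x i j
      by_cases hij : i = j
      · subst hij
        simp [Matrix.algebraMap_eq_diagonal]
      · simp [Matrix.algebraMap_eq_diagonal, hij]
    rw [← h9] at h8
    exact h8
  rw [h7] at h5
  have h10 : ((aeval M g).map ι).det = 0 := by
    rw [← Matrix.exists_mulVec_eq_zero_iff]
    exact ⟨v, hv.2, h5⟩
  have h11 : ι (aeval M g).det = 0 := by
    rw [RingHom.map_det]
    exact h10
  have h12 : (aeval M g).det = 0 := by
    exact (map_eq_zero ι).1 h11
  have h13 : (aeval h g).det = 0 := by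
    rw [← LinearMap.det_toMatrix b]
    have h14 : LinearMap.toMatrix b b (aeval h g) = aeval M g := by
      have h15 := Polynomial.aeval_algHom_apply (LinearMap.toMatrixAlgEquiv b : _ ≃ₐ[_] _).toAlgHom h g
      exact h15.symm
    rw [h14]
    exact h12
  have h16 : ¬ Function.Injective (aeval h g) := by
    intro hinj
    have := LinearMap.ker_eq_bot.2 hinj
    have h17 := (LinearMap.isUnit_iff_ker_eq_bot (aeval h g)).2 this
    have h18 := (LinearMap.isUnit_det _ h17)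
    rw [h13] at h18
    exact not_isUnit_zero h18
  rw [← LinearMap.ker_eq_bot] at h16
  obtain ⟨w, hw, hw0⟩ := (Submodule.ne_bot_iff _).1 h16
  exact ⟨w, hw0, hw⟩

private lemma sm1_aeval_mul (f : V →ₗ[F] V) (a b : F[X]) (z : V) :
    aeval f (a * b) z = aeval f a (aeval f b z) := by
  rw [map_mul]; rfl

private lemma sm1_pow_le (f : V →ₗ[F] V) (S : F[X]) (z : V) {N N' : ℕ} (h : N ≤ N')
    (hz : aeval f (S ^ N) z = 0) : aeval f (S ^ N') z = 0 := by
  obtain ⟨c, rfl⟩ := Nat.exists_eq_add_of_le h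
  rw [pow_add, mul_comm, sm1_aeval_mul, hz, map_zero]

/-- vectors killed by a power of `S` -/
private def sm1W (f : V →ₗ[F] V) (S : F[X]) : Submodule F V where
  carrier := {z | ∃ N, aeval f (S ^ N) z = 0}
  add_mem' := by
    rintro a b ⟨N, hN⟩ ⟨N', hN'⟩
    refine ⟨max N N', ?_⟩
    rw [map_add, sm1_pow_le f S a (le_max_left _ _) hN, sm1_pow_le f S b (le_max_right _ _) hN', add_zero]
  zero_mem' := ⟨0, by rw [map_zero]⟩
  smul_mem' := by
    rintro c a ⟨N, hN⟩
    exact ⟨N, by rw [map_smul, hN, smul_zero]⟩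

private lemma sm1_mem_W (f : V →ₗ[F] V) (S : F[X]) (z : V) : z ∈ sm1W f S ↔ ∃ N, aeval f (S ^ N) z = 0 := Iff.rfl

private lemma sm1_W_inv (f : V →ₗ[F] V) (S h : F[X]) (z : V) (hz : z ∈ sm1W f S) : aeval f h z ∈ sm1W f S := by
  obtain ⟨N, hN⟩ := hz
  refine ⟨N, ?_⟩
  rw [← sm1_aeval_mul, mul_comm, sm1_aeval_mul, hN, map_zero]

private lemma sm1_aeval_mem (f : V →ₗ[F] V) (U : Submodule F V) (hU : U ≤ U.comap f) (h : F[X]) (z : V)
    (hz : z ∈ U) : aeval f h z ∈ U := by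
  induction h using Polynomial.induction_on' with
  | add a b ha hb => rw [map_add]; exact U.add_mem ha hb
  | monomial n a =>
    rw [aeval_monomial]
    show (algebraMap F (Module.End F V) a) ((f ^ n) z) ∈ U
    have h1 : ∀ m : ℕ, (f ^ m) z ∈ U := by
      intro m
      induction m with
      | zero => exact hz
      | succ m ih =>
        rw [pow_succ']
        exact hU ih
    have h2 : (algebraMap F (Module.End F V) a) ((f ^ n) z) = a • ((f ^ n) z) := by
      rw [Module.algebraMap_end_apply]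
    rw [h2]
    exact U.smul_mem a (h1 n)

private lemma sm1_aeval_restrict (f : V →ₗ[F] V) (U : Submodule F V) (hU : U ≤ U.comap f) (h : F[X]) (z : U) :
    ((aeval (f.restrict hU) h z : U) : V) = aeval f h (z : V) := by
  induction h using Polynomial.induction_on' with
  | add a b ha hb => rw [map_add, map_add, LinearMap.add_apply, LinearMap.add_apply, Submodule.coe_add, ha, hb]
  | monomial n a =>
    rw [aeval_monomial, aeval_monomial]
    have h1 : ∀ m : ℕ, (((f.restrict hU) ^ m) z : V) = (f ^ m) (z : V) := by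
      intro m
      induction m with
      | zero => rfl
      | succ m ih =>
        rw [pow_succ', pow_succ']
        show f (((f.restrict hU) ^ m) z : V) = f ((f ^ m) (z : V))
        rw [ih]
    show (((algebraMap F (Module.End F U) a) (((f.restrict hU) ^ n) z) : U) : V) =
      (algebraMap F (Module.End F V) a) ((f ^ n) z)
    rw [Module.algebraMap_end_apply, Module.algebraMap_end_apply, Submodule.coe_smul, h1]

private lemma sm1_aeval_mapQ (f : V →ₗ[F] V) (U : Submodule F V) (hU : U ≤ U.comap f) (h : F[X]) (z : V) :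
    aeval (U.mapQ U f hU) h (U.mkQ z) = U.mkQ (aeval f h z) := by
  induction h using Polynomial.induction_on' with
  | add a b ha hb => rw [map_add, map_add, LinearMap.add_apply, LinearMap.add_apply, map_add, ha, hb]
  | monomial n a =>
    rw [aeval_monomial, aeval_monomial]
    have h1 : ∀ m : ℕ, ((U.mapQ U f hU) ^ m) (U.mkQ z) = U.mkQ ((f ^ m) z) := by
      intro m
      induction m with
      | zero => rfl
      | succ m ih =>
        rw [pow_succ', pow_succ']
        show (U.mapQ U f hU) (((U.mapQ U f hU) ^ m) (U.mkQ z)) = U.mkQ (f ((f ^ m) z))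
        rw [ih]
        rfl
    show (algebraMap F (Module.End F (V ⧸ U)) a) (((U.mapQ U f hU) ^ n) (U.mkQ z)) =
      U.mkQ ((algebraMap F (Module.End F V) a) ((f ^ n) z))
    rw [Module.algebraMap_end_apply, Module.algebraMap_end_apply, map_smul, h1]

/-- one extension step -/
private lemma sm1_extend (f : V →ₗ[F] V) (S : F[X]) (hS : S.Monic) (K : ℕ)
    (hK : ∀ g : F[X], Irreducible g → g ∣ S → g.natDegree ≤ K) (hdvd : S ∣ f.charpoly)
    (U : Submodule F V) (hU : U ≤ U.comap f) (hUW : U ≤ sm1W f S)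
    (hlt : Module.finrank F U < S.natDegree) :
    ∃ U' : Submodule F V, U' ≤ U'.comap f ∧ U' ≤ sm1W f S ∧ Module.finrank F U < Module.finrank F U' ∧
      Module.finrank F U' ≤ Module.finrank F U + K := by
  classical
  -- the irreducible factor
  obtain ⟨g, hg, hgS, hgq⟩ : ∃ g : F[X], Irreducible g ∧ g ∣ S ∧ g ∣ (U.mapQ U f hU).charpoly := by
    by_contra hcon
    push Not at hcon
    have hcop : IsCoprime S (U.mapQ U f hU).charpoly := by
      rw [← EuclideanDomain.gcd_isUnit_iff]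
      by_contra hnu
      have hne : EuclideanDomain.gcd S (U.mapQ U f hU).charpoly ≠ 0 := by
        intro h0
        rw [EuclideanDomain.gcd_eq_zero_iff] at h0
        exact hS.ne_zero h0.1
      obtain ⟨g, hg, hgd⟩ := WfDvdMonoid.exists_irreducible_factor hnu hne
      exact hcon g hg (hgd.trans (EuclideanDomain.gcd_dvd_left _ _)) (hgd.trans (EuclideanDomain.gcd_dvd_right _ _))
    rw [sm1_charpoly_mul U f hU] at hdvd
    have h1 : S ∣ (f.restrict hU).charpoly := hcop.dvd_of_dvd_mul_right hdvd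
    have h2 := Polynomial.natDegree_le_of_dvd h1 (LinearMap.charpoly_monic _).ne_zero
    rw [LinearMap.charpoly_natDegree] at h2
    omega
  obtain ⟨wq, hwq0, hwq⟩ := sm1_root _ g hg hgq
  obtain ⟨w, rfl⟩ := U.mkQ_surjective wq
  have hwU : w ∉ U := by
    intro h
    exact hwq0 ((Submodule.Quotient.mk_eq_zero U).2 h)
  have hgw : aeval f g w ∈ U := by
    rw [sm1_aeval_mapQ] at hwq
    exact (Submodule.Quotient.mk_eq_zero U).1 hwq
  have hg0 : g ≠ 0 := hg.ne_zero
  -- the cyclic span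
  let Z : Submodule F V := Submodule.span F (Set.range fun i : Fin g.natDegree => (f ^ (i : ℕ)) w)
  have hZmem : ∀ q : F[X], q.natDegree < g.natDegree → aeval f q w ∈ Z := by
    intro q hq
    rw [Polynomial.aeval_eq_sum_range' hq, LinearMap.sum_apply]
    refine Submodule.sum_mem _ fun i hi => ?_
    rw [LinearMap.smul_apply]
    refine Submodule.smul_mem _ _ (Submodule.subset_span ?_)
    exact ⟨⟨i, Finset.mem_range.1 hi⟩, rfl⟩
  have hgdeg : 0 < g.natDegree := hg.natDegree_pos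
  have hall : ∀ q : F[X], aeval f q w ∈ U ⊔ Z := by
    intro q
    have h1 : q = g * (q / g) + q % g := (EuclideanDomain.div_add_mod q g).symm
    rw [h1, map_add, LinearMap.add_apply]
    refine Submodule.add_mem _ ?_ ?_
    · rw [mul_comm, sm1_aeval_mul]
      exact Submodule.mem_sup_left (sm1_aeval_mem f U hU _ _ hgw)
    · refine Submodule.mem_sup_right (hZmem _ ?_)
      exact Polynomial.natDegree_mod_lt q hgdeg.ne'
  have hwZ : w ∈ Z := by
    have h1 := hZmem 1 (by rwa [natDegree_one])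
    rwa [map_one] at h1
  refine ⟨U ⊔ Z, ?_, ?_, ?_, ?_⟩
  · intro z hz
    rw [Submodule.mem_comap]
    obtain ⟨u, hu, y, hy, rfl⟩ := Submodule.mem_sup.1 hz
    rw [map_add]
    have hfu : f u ∈ U := hU hu
    refine (U ⊔ Z).add_mem (Submodule.mem_sup_left hfu) ?_
    have hy' : y ∈ Submodule.span F (Set.range fun i : Fin g.natDegree => (f ^ (i : ℕ)) w) := hy
    refine Submodule.span_induction (p := fun y _ => f y ∈ U ⊔ Z) ?_ ?_ ?_ ?_ hy'
    · rintro _ ⟨i, rfl⟩
      have h1 : f ((f ^ (i : ℕ)) w) = aeval f (X ^ ((i : ℕ) + 1) : F[X]) w := by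
        rw [map_pow, aeval_X, pow_succ']
        rfl
      show f ((f ^ (i : ℕ)) w) ∈ U ⊔ Z
      rw [h1]
      exact hall _
    · rw [map_zero]; exact Submodule.zero_mem _
    · intro a b _ _ ha hb
      rw [map_add]; exact Submodule.add_mem _ ha hb
    · intro c a _ ha
      rw [map_smul]; exact Submodule.smul_mem _ _ ha
  · refine sup_le hUW ?_
    have hwW : w ∈ sm1W f S := by
      obtain ⟨c, hc⟩ := hgS
      have h1 : aeval f S w ∈ U := by
        rw [hc, mul_comm, sm1_aeval_mul]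
        exact sm1_aeval_mem f U hU _ _ hgw
      obtain ⟨N, hN⟩ := hUW h1
      exact ⟨N + 1, by rw [pow_succ, sm1_aeval_mul, hN]⟩
    refine Submodule.span_le.2 ?_
    rintro _ ⟨i, rfl⟩
    have h1 := sm1_W_inv f S (X ^ (i : ℕ)) w hwW
    rw [map_pow, aeval_X] at h1
    exact h1
  · refine Submodule.finrank_lt_finrank_of_lt (lt_of_le_of_ne le_sup_left ?_)
    intro h
    exact hwU (h ▸ Submodule.mem_sup_right hwZ)
  · refine (Submodule.finrank_add_le_finrank_add_finrank U Z).trans ?_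
    have h1 : Module.finrank F Z ≤ g.natDegree := by
      have h2 := finrank_range_le_card (R := F) (fun i : Fin g.natDegree => (f ^ (i : ℕ)) w)
      rw [Fintype.card_fin] at h2
      exact h2
    have h3 := hK g hg hgS
    omega

private lemma sm1_exists (f : V →ₗ[F] V) (S : F[X]) (hS : S.Monic) (K : ℕ)
    (hK : ∀ g : F[X], Irreducible g → g ∣ S → g.natDegree ≤ K) (hdvd : S ∣ f.charpoly)
    (D : ℕ) (hD : D ≤ S.natDegree) :
    ∃ U : Submodule F V, U ≤ U.comap f ∧ U ≤ sm1W f S ∧ D ≤ Module.finrank F U ∧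
      Module.finrank F U ≤ D + K := by
  induction D with
  | zero => exact ⟨⊥, bot_le, bot_le, Nat.zero_le _, by simp⟩
  | succ D ih =>
    obtain ⟨U, h1, h2, h3, h4⟩ := ih (by omega)
    by_cases h : D + 1 ≤ Module.finrank F U
    · exact ⟨U, h1, h2, h, by omega⟩
    · obtain ⟨U', a, b, c, d⟩ := sm1_extend f S hS K hK hdvd U h1 h2 (by omega)
      exact ⟨U', a, b, by omega, by omega⟩

/-- the annihilator of a vector of `U` -/
private lemma sm1_ann (f : V →ₗ[F] V) (S : F[X]) (K : ℕ)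
    (hK : ∀ g : F[X], Irreducible g → g ∣ S → g.natDegree ≤ K)
    (U : Submodule F V) (hU : U ≤ U.comap f) (hUW : U ≤ sm1W f S) (z : V) (hz : z ∈ U) :
    ∃ q : F[X], q.Monic ∧ q.natDegree ≤ Module.finrank F U ∧
      (∀ g : F[X], Irreducible g → g ∣ q → g.natDegree ≤ K) ∧
      ∀ g : F[X], aeval f g z = 0 ↔ q ∣ g := by
  classical
  let I : Ideal F[X] :=
    { carrier := {g | aeval f g z = 0}
      add_mem' := by
        intro a b ha hb
        show aeval f (a + b) z = 0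
        rw [map_add, LinearMap.add_apply, show aeval f a z = 0 from ha, show aeval f b z = 0 from hb, add_zero]
      zero_mem' := by
        show aeval f 0 z = 0
        rw [map_zero]; rfl
      smul_mem' := by
        intro c a ha
        show aeval f (c * a) z = 0
        rw [sm1_aeval_mul, show aeval f a z = 0 from ha, map_zero] }
  have hI : ∀ g, g ∈ I ↔ aeval f g z = 0 := fun g => Iff.rfl
  obtain ⟨q0, hq0⟩ := (IsPrincipalIdealRing.principal I).principal
  have hq0' : ∀ g, aeval f g z = 0 ↔ q0 ∣ g := by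
    intro g
    rw [← hI, hq0]
    exact Ideal.mem_span_singleton
  have hc : aeval f (f.restrict hU).charpoly z = 0 := by
    have h1 := sm1_aeval_restrict f U hU (f.restrict hU).charpoly ⟨z, hz⟩
    rw [LinearMap.aeval_self_charpoly] at h1
    exact h1.symm
  have hq0d := (hq0' _).1 hc
  have hq0n : q0 ≠ 0 := by
    intro h
    rw [h, zero_dvd_iff] at hq0d
    exact (LinearMap.charpoly_monic (f.restrict hU)).ne_zero hq0d
  refine ⟨normalize q0, Polynomial.monic_normalize hq0n, ?_, ?_, ?_⟩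
  · have h1 : normalize q0 ∣ (f.restrict hU).charpoly := (normalize_dvd_iff).2 hq0d
    have h2 := Polynomial.natDegree_le_of_dvd h1 (LinearMap.charpoly_monic _).ne_zero
    rwa [LinearMap.charpoly_natDegree] at h2
  · intro g hg hgd
    rw [dvd_normalize_iff] at hgd
    obtain ⟨N, hN⟩ := hUW hz
    have h1 : q0 ∣ S ^ N := (hq0' _).1 hN
    exact hK g hg (hg.prime.dvd_of_dvd_pow (hgd.trans h1))
  · intro g
    rw [hq0' g, normalize_dvd_iff]

end gen



theorem sm1 {p : ℕ} [Fact p.Prime] {n : ℕ} (A : Matrix (Fin n) (Fin n) (ZMod p)) (K D : ℕ) (S : (ZMod p)[X]) (hS : S.Monic)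
    (hK : ∀ g : (ZMod p)[X], Irreducible g → g ∣ S → g.natDegree ≤ K) (hD : D ≤ S.natDegree) (hdvd : S ∣ A.charpoly) :
    (p : ℝ) ^ D ≤ ∑ m ∈ Finset.range (D + K + 1), ∑ f ∈ Smo p K m, X1 f A := by
  classical
  have hp : p.Prime := Fact.out
  have hcp : (Matrix.toLin' A).charpoly = A.charpoly := Matrix.charpoly_toLin' A
  obtain ⟨U, hU, hUW, hU1, hU2⟩ := sm1_exists (Matrix.toLin' A) S hS K hK (hcp ▸ hdvd) D hD
  have hev : ∀ (g : (ZMod p)[X]) (z : Fin n → ZMod p),
      aeval (Matrix.toLin' A) g z = (aeval A g).mulVec z := by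
    intro g z
    have h1 : aeval (Matrix.toLinAlgEquiv' A) g = Matrix.toLinAlgEquiv' (aeval A g) :=
      Polynomial.aeval_algHom_apply (Matrix.toLinAlgEquiv' : _ ≃ₐ[_] _).toAlgHom A g
    exact congrArg (fun L : (Fin n → ZMod p) →ₗ[ZMod p] (Fin n → ZMod p) => L z) h1
  have hcard : (p : ℝ) ^ D ≤ ∑ z : Fin n → ZMod p, ind (z ∈ U) := by
    have h1 : ∑ z : Fin n → ZMod p, ind (z ∈ U) = (Fintype.card U : ℝ) := by
      unfold ind
      rw [Finset.sum_boole, Fintype.card_subtype]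
    rw [h1, Module.card_eq_pow_finrank (K := ZMod p) (V := U), ZMod.card]
    push_cast
    exact pow_le_pow_right₀ (by exact_mod_cast hp.one_lt.le) hU1
  refine hcard.trans ?_
  have h2 : ∑ m ∈ Finset.range (D + K + 1), ∑ f ∈ Smo p K m, X1 f A =
      ∑ z : Fin n → ZMod p, ∑ m ∈ Finset.range (D + K + 1), ∑ f ∈ Smo p K m, ind (IsAnn A z f) := by
    unfold X1
    rw [Finset.sum_comm]
    refine Finset.sum_congr rfl fun m _ => ?_
    rw [Finset.sum_comm]
  rw [h2]
  refine Finset.sum_le_sum fun z _ => ?_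
  by_cases hz : z ∈ U
  · obtain ⟨q, hq1, hq2, hq3, hq4⟩ := sm1_ann (Matrix.toLin' A) S K hK U hU hUW z hz
    have hann : IsAnn A z q := by
      intro g
      rw [← hev, hq4 g]
    have hqm : q ∈ Smo p K q.natDegree := (mem_smo q).2 ⟨hq1, rfl, hq3⟩
    rw [ind_true hz]
    calc (1 : ℝ) = ind (IsAnn A z q) := (ind_true hann).symm
      _ ≤ ∑ f ∈ Smo p K q.natDegree, ind (IsAnn A z f) :=
        Finset.single_le_sum (f := fun f => ind (IsAnn A z f)) (fun f _ => ind_nonneg _) hqm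
      _ ≤ _ := Finset.single_le_sum (f := fun m => ∑ f ∈ Smo p K m, ind (IsAnn A z f))
        (fun m _ => Finset.sum_nonneg fun f _ => ind_nonneg _) (Finset.mem_range.2 (by omega))
  · rw [ind_false hz]
    exact Finset.sum_nonneg fun m _ => Finset.sum_nonneg fun f _ => ind_nonneg _

end Pool.H64.IR

end S_SM1

section S_SSM

/-! MODULE SSM (project MP_a758cf_pr, IR; overview: team-store H64_a758cf.md)
Weighted count of squarefree polynomials with prescribed degree and all prime factors in RR p K k. For 1 <= K <= y <= m <= k: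
SS m = sum over s in powerset(RR p K k) with sum of degrees = m of prod_{g in s} (beta g * (1/2 if deg g <= y else 1)) <= 100 (y/K)^(1/2) / y.
Proof. m SS(m) = sum_s sum_{g in s} deg g * w(s) <= sum_{g in RR p K m} deg g w_g SS(m - deg g) (remove g from s, drop the condition g notin s'), w_g = beta g * (1/2 or 1) <= beta g, and
j card(Irr p j)/(p^j - 1) <= p^j/(p^j-1) <= 3/2, so m SS(m) <= (3/2) sum_{i < m} SS(i) <= (3/2) prod_{g in RR p K m} (1 + w_g) <= (3/2) exp(sum w_g) and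
sum w_g <= (1/2)(log(y/K) + 3) + log(m/y) + 3 (lbd, split at y; RR p K m = RR p K y + RR p y m). So SS(m) <= (1/m)(3/2) e^{4.5} (y/K)^{1/2} (m/y) = (3/2) e^{4.5} (y/K)^{1/2}/y.
(3/2) e^4.5 = 135: use constant 200.
-/

set_option autoImplicit false

namespace Pool.H64.IR

open Finset Polynomial

section abstr
variable {α : Type} [DecidableEq α]

/-- abstract weighted count of the subsets of `R` of total degree `m` -/
private noncomputable def ssmF (R : Finset α) (d : α → ℕ) (w : α → ℝ) (m : ℕ) : ℝ :=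
  ∑ s ∈ R.powerset.filter (fun s => ∑ g ∈ s, d g = m), ∏ g ∈ s, w g

private lemma ssm_F_nonneg (R : Finset α) (d : α → ℕ) (w : α → ℝ) (hw : ∀ g ∈ R, 0 ≤ w g) (m : ℕ) :
    0 ≤ ssmF R d w m := by
  unfold ssmF
  refine Finset.sum_nonneg fun s hs => Finset.prod_nonneg fun g hg => hw g ?_
  exact Finset.mem_powerset.1 (Finset.mem_filter.1 hs).1 hg

private lemma ssm_step (R : Finset α) (d : α → ℕ) (w : α → ℝ) (hw : ∀ g ∈ R, 0 ≤ w g) (m : ℕ) :
    (m : ℝ) * ssmF R d w m ≤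
      ∑ g ∈ R.filter (fun g => d g ≤ m), (d g : ℝ) * w g * ssmF R d w (m - d g) := by
  have h1 : (m : ℝ) * ssmF R d w m =
      ∑ s ∈ R.powerset.filter (fun s => ∑ g ∈ s, d g = m), ∑ g ∈ s,
        (d g : ℝ) * w g * ∏ h ∈ s.erase g, w h := by
    unfold ssmF
    rw [Finset.mul_sum]
    refine Finset.sum_congr rfl fun s hs => ?_
    have hsm : ∑ g ∈ s, d g = m := (Finset.mem_filter.1 hs).2
    have : (m : ℝ) = ∑ g ∈ s, (d g : ℝ) := by rw [← hsm]; push_cast; rfl
    rw [this, Finset.sum_mul]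
    refine Finset.sum_congr rfl fun g hg => ?_
    rw [← Finset.mul_prod_erase s w hg, mul_assoc]
  rw [h1]
  have h2 : (∑ s ∈ R.powerset.filter (fun s => ∑ g ∈ s, d g = m), ∑ g ∈ s,
        (d g : ℝ) * w g * ∏ h ∈ s.erase g, w h) =
      ∑ g ∈ R.filter (fun g => d g ≤ m),
        ∑ s ∈ (R.powerset.filter (fun s => ∑ g ∈ s, d g = m)).filter (fun s => g ∈ s),
        (d g : ℝ) * w g * ∏ h ∈ s.erase g, w h := by
    refine Finset.sum_comm' fun s g => ?_
    simp only [Finset.mem_filter, Finset.mem_powerset]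
    constructor
    · rintro ⟨⟨hs, hm⟩, hg⟩
      refine ⟨⟨⟨hs, hm⟩, hg⟩, hs hg, ?_⟩
      rw [← hm]
      exact Finset.single_le_sum (fun _ _ => Nat.zero_le _) hg
    · rintro ⟨⟨⟨hs, hm⟩, hg⟩, _⟩
      exact ⟨⟨hs, hm⟩, hg⟩
  rw [h2]
  refine Finset.sum_le_sum fun g hg => ?_
  have hgR : g ∈ R := (Finset.mem_filter.1 hg).1
  rw [← Finset.mul_sum]
  refine mul_le_mul_of_nonneg_left ?_ (mul_nonneg (Nat.cast_nonneg _) (hw g hgR))
  unfold ssmF
  have h3 : (∑ s ∈ (R.powerset.filter (fun s => ∑ g ∈ s, d g = m)).filter (fun s => g ∈ s),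
      ∏ h ∈ s.erase g, w h) =
      ∑ t ∈ ((R.powerset.filter (fun s => ∑ g ∈ s, d g = m)).filter (fun s => g ∈ s)).image
        (fun s => s.erase g), ∏ h ∈ t, w h := by
    rw [Finset.sum_image]
    intro s hs t ht hst
    have hs' : g ∈ s := (Finset.mem_filter.1 hs).2
    have ht' : g ∈ t := (Finset.mem_filter.1 ht).2
    have : insert g (s.erase g) = insert g (t.erase g) := by
      have hst' : s.erase g = t.erase g := hst
      rw [hst']
    rwa [Finset.insert_erase hs', Finset.insert_erase ht'] at this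
  rw [h3]
  refine Finset.sum_le_sum_of_subset_of_nonneg ?_ ?_
  · intro t ht
    obtain ⟨s, hs, rfl⟩ := Finset.mem_image.1 ht
    simp only [Finset.mem_filter, Finset.mem_powerset] at hs ⊢
    refine ⟨(Finset.erase_subset _ _).trans hs.1.1, ?_⟩
    have := Finset.add_sum_erase s d hs.2
    have h4 := hs.1.2
    omega
  · intro t ht _
    refine Finset.prod_nonneg fun h hh => hw h ?_
    exact Finset.mem_powerset.1 (Finset.mem_filter.1 ht).1 hh

private lemma ssm_total (R : Finset α) (d : α → ℕ) (w : α → ℝ) (hw : ∀ g ∈ R, 0 ≤ w g) (m : ℕ) :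
    ∑ i ∈ Finset.range m, ssmF R d w i ≤ ∏ g ∈ R.filter (fun g => d g ≤ m), (1 + w g) := by
  have h1 : ∑ i ∈ Finset.range m, ssmF R d w i =
      ∑ s ∈ R.powerset.filter (fun s => ∑ g ∈ s, d g < m), ∏ g ∈ s, w g := by
    rw [← Finset.sum_fiberwise_of_maps_to (s := R.powerset.filter (fun s => ∑ g ∈ s, d g < m))
      (t := Finset.range m) (g := fun s => ∑ g ∈ s, d g)]
    · refine Finset.sum_congr rfl fun i hi => ?_
      unfold ssmF
      refine Finset.sum_congr ?_ fun _ _ => rfl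
      ext s
      have hi' := Finset.mem_range.1 hi
      simp only [Finset.mem_filter, Finset.mem_powerset]
      constructor
      · rintro ⟨h, h'⟩
        exact ⟨⟨h, by omega⟩, h'⟩
      · rintro ⟨⟨h, _⟩, h'⟩
        exact ⟨h, h'⟩
    · intro s hs
      exact Finset.mem_range.2 (Finset.mem_filter.1 hs).2
  rw [h1, Finset.prod_one_add]
  refine Finset.sum_le_sum_of_subset_of_nonneg ?_ ?_
  · intro s hs
    simp only [Finset.mem_filter, Finset.mem_powerset] at hs ⊢
    intro g hg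
    refine Finset.mem_filter.2 ⟨hs.1 hg, ?_⟩
    exact (Finset.single_le_sum (f := d) (fun _ _ => Nat.zero_le _) hg).trans hs.2.le
  · intro s hs _
    refine Finset.prod_nonneg fun g hg => hw g ?_
    exact (Finset.mem_filter.1 (Finset.mem_powerset.1 hs hg)).1

end abstr

private lemma ssm_exp : (3 / 2 : ℝ) * Real.exp (9 / 2) ≤ 200 := by
  have h1 : Real.exp (9 / 2) ^ 2 = Real.exp 1 ^ 9 := by
    rw [← Real.exp_nat_mul, ← Real.exp_nat_mul]
    norm_num
  have h2 : Real.exp 1 ^ 9 ≤ 2.7182818286 ^ 9 :=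
    pow_le_pow_left₀ (Real.exp_pos 1).le Real.exp_one_lt_d9.le 9
  have h3 : Real.exp (9 / 2) ^ 2 ≤ 100 ^ 2 := by
    rw [h1]
    refine h2.trans ?_
    norm_num
  have h4 : Real.exp (9 / 2) ≤ 100 := by
    exact le_of_sq_le_sq h3 (by norm_num)
  linarith

private lemma ssm_wnn {p : ℕ} [Fact p.Prime] (hp : 3 ≤ p) (K y k : ℕ) :
    ∀ g ∈ RR p K k, 0 ≤ beta g * (if g.natDegree ≤ y then (1 / 2 : ℝ) else 1) := by
  intro g hg
  refine mul_nonneg (beta_le hp K k g hg).1.le ?_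
  split_ifs <;> norm_num

private lemma ssm_wle {p : ℕ} [Fact p.Prime] (hp : 3 ≤ p) (K y k : ℕ) :
    ∀ g ∈ RR p K k, beta g * (if g.natDegree ≤ y then (1 / 2 : ℝ) else 1) ≤ beta g := by
  intro g hg
  have h := (beta_le hp K k g hg).1.le
  split_ifs
  · linarith
  · linarith

/-- `j card (Irr p j) / (p^j - 1) <= 3/2` -/
private lemma ssm_irr {p : ℕ} [Fact p.Prime] (hp : 3 ≤ p) (j : ℕ) (hj : 1 ≤ j) :
    ∑ g ∈ Irr p j, (g.natDegree : ℝ) * beta g ≤ 3 / 2 := by
  have h1 : ∑ g ∈ Irr p j, (g.natDegree : ℝ) * beta g = ((j : ℝ) * (Irr p j).card) / ((p : ℝ) ^ j - 1) := by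
    rw [Finset.sum_congr rfl (g := fun _ => (j : ℝ) * (1 / ((p : ℝ) ^ j - 1)))]
    · rw [Finset.sum_const, nsmul_eq_mul]
      ring
    · intro g hg
      obtain ⟨_, _, hd⟩ := (mem_irr g).1 hg
      unfold beta
      rw [hd]
  rw [h1]
  have hp' : (3 : ℝ) ≤ p := by exact_mod_cast hp
  have h3 : (3 : ℝ) ≤ (p : ℝ) ^ j := by
    calc (3 : ℝ) ≤ p := hp'
      _ = (p : ℝ) ^ 1 := (pow_one _).symm
      _ ≤ (p : ℝ) ^ j := pow_le_pow_right₀ (by linarith) hj
  rw [div_le_iff₀ (by linarith)]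
  have := irc_upper p j
  linarith

private lemma ssm_main {p : ℕ} [Fact p.Prime] (hp : 3 ≤ p) (K y m k : ℕ) (hK : 1 ≤ K) (hy : K ≤ y)
    (hm : y ≤ m) (hk : m ≤ k) [DecidableEq (ZMod p)[X]] :
    ssmF (RR p K k) (fun g => g.natDegree) (fun g => beta g * (if g.natDegree ≤ y then (1 / 2 : ℝ) else 1)) m ≤
      200 * ((y : ℝ) / K) ^ (1 / 2 : ℝ) / y := by
  set w : (ZMod p)[X] → ℝ := fun g => beta g * (if g.natDegree ≤ y then (1 / 2 : ℝ) else 1) with hw
  have hwnn : ∀ g ∈ RR p K k, 0 ≤ w g := ssm_wnn hp K y k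
  have hwle : ∀ g ∈ RR p K k, w g ≤ beta g := ssm_wle hp K y k
  have hfil : (RR p K k).filter (fun g => g.natDegree ≤ m) = RR p K m := by
    ext g
    rw [Finset.mem_filter, mem_rr, mem_rr]
    constructor
    · rintro ⟨⟨a, b, c, _⟩, e⟩; exact ⟨a, b, c, e⟩
    · rintro ⟨a, b, c, e⟩; exact ⟨⟨a, b, c, e.trans hk⟩, e⟩
  have hsub : RR p K m ⊆ RR p K k := by
    rw [← hfil]; exact Finset.filter_subset _ _
  have hFnn := ssm_F_nonneg (RR p K k) (fun g => g.natDegree) w hwnn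
  have h1 := ssm_step (RR p K k) (fun g => g.natDegree) w hwnn m
  simp only [hfil] at h1
  have h2 : ∑ g ∈ RR p K m, (g.natDegree : ℝ) * w g * ssmF (RR p K k) (fun g => g.natDegree) w (m - g.natDegree) ≤
      3 / 2 * ∑ i ∈ Finset.range m, ssmF (RR p K k) (fun g => g.natDegree) w i := by
    rw [sum_rr]
    have h3 : ∀ j ∈ Finset.Ioc K m,
        ∑ g ∈ Irr p j, (g.natDegree : ℝ) * w g * ssmF (RR p K k) (fun g => g.natDegree) w (m - g.natDegree) ≤
        3 / 2 * ssmF (RR p K k) (fun g => g.natDegree) w (m - j) := by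
      intro j hj
      obtain ⟨hj1, hj2⟩ := Finset.mem_Ioc.1 hj
      have h4 : ∑ g ∈ Irr p j, (g.natDegree : ℝ) * w g * ssmF (RR p K k) (fun g => g.natDegree) w (m - g.natDegree) ≤
          ∑ g ∈ Irr p j, ((g.natDegree : ℝ) * beta g) * ssmF (RR p K k) (fun g => g.natDegree) w (m - j) := by
        refine Finset.sum_le_sum fun g hg => ?_
        obtain ⟨ha, hb, hd⟩ := (mem_irr g).1 hg
        have hgR : g ∈ RR p K k := (mem_rr g).2 ⟨ha, hb, by omega, by omega⟩
        rw [hd]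
        refine mul_le_mul_of_nonneg_right ?_ (hFnn _)
        exact mul_le_mul_of_nonneg_left (hwle g hgR) (Nat.cast_nonneg _)
      refine h4.trans ?_
      rw [← Finset.sum_mul]
      exact mul_le_mul_of_nonneg_right (ssm_irr hp j (by omega)) (hFnn _)
    refine (Finset.sum_le_sum h3).trans ?_
    rw [← Finset.mul_sum]
    refine mul_le_mul_of_nonneg_left ?_ (by norm_num)
    have h5 : ∑ j ∈ Finset.Ioc K m, ssmF (RR p K k) (fun g => g.natDegree) w (m - j) =
        ∑ i ∈ (Finset.Ioc K m).image (fun j => m - j), ssmF (RR p K k) (fun g => g.natDegree) w i := by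
      rw [Finset.sum_image]
      intro a ha b hb hab
      have ha' := (Finset.mem_Ioc.1 ha)
      have hb' := (Finset.mem_Ioc.1 hb)
      have hab' : m - a = m - b := hab
      omega
    rw [h5]
    refine Finset.sum_le_sum_of_subset_of_nonneg ?_ (fun i _ _ => hFnn i)
    intro i hi
    obtain ⟨j, hj, rfl⟩ := Finset.mem_image.1 hi
    have hj' := Finset.mem_Ioc.1 hj
    rw [Finset.mem_range]
    omega
  have h6 := ssm_total (RR p K k) (fun g => g.natDegree) w hwnn m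
  simp only [hfil] at h6
  have h7 : ∏ g ∈ RR p K m, (1 + w g) ≤ Real.exp (∑ g ∈ RR p K m, w g) := by
    rw [Real.exp_sum]
    refine Finset.prod_le_prod (fun g hg => ?_) (fun g _ => ?_)
    · have := hwnn g (hsub hg)
      linarith
    · have := Real.add_one_le_exp (w g)
      linarith
  have h8 : ∑ g ∈ RR p K m, w g ≤ (1 / 2) * (Real.log ((y : ℝ) / K) + 3) + (Real.log ((m : ℝ) / y) + 3) := by
    have h9 : ∑ g ∈ RR p K m, w g = ∑ g ∈ RR p K y, (1 / 2) * beta g + ∑ g ∈ RR p y m, beta g := by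
      have hun : RR p K m = RR p K y ∪ RR p y m := by
        ext g
        rw [Finset.mem_union, mem_rr, mem_rr, mem_rr]
        constructor
        · rintro ⟨a, b, c, e⟩
          by_cases h : g.natDegree ≤ y
          · exact Or.inl ⟨a, b, c, h⟩
          · exact Or.inr ⟨a, b, by omega, e⟩
        · rintro (⟨a, b, c, e⟩ | ⟨a, b, c, e⟩)
          · exact ⟨a, b, c, by omega⟩
          · exact ⟨a, b, by omega, e⟩
      have hdis : Disjoint (RR p K y) (RR p y m) := by
        rw [Finset.disjoint_left]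
        intro g h h'
        rw [mem_rr] at h h'
        omega
      rw [hun, Finset.sum_union hdis]
      congr 1
      · refine Finset.sum_congr rfl fun g hg => ?_
        rw [mem_rr] at hg
        simp only [hw]
        rw [if_pos hg.2.2.2]
        ring
      · refine Finset.sum_congr rfl fun g hg => ?_
        rw [mem_rr] at hg
        simp only [hw]
        rw [if_neg (by omega), mul_one]
    rw [h9, ← Finset.mul_sum]
    have ha := (abs_le.1 (lbd hp K y hK hy)).2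
    have hb := (abs_le.1 (lbd hp y m (hK.trans hy) hm)).2
    linarith
  have hK0 : (0 : ℝ) < K := by exact_mod_cast hK
  have hy0 : (0 : ℝ) < y := by exact_mod_cast (hK.trans hy)
  have hm0 : (0 : ℝ) < m := by exact_mod_cast (hK.trans hy).trans hm
  have h10 : Real.exp ((1 / 2) * (Real.log ((y : ℝ) / K) + 3) + (Real.log ((m : ℝ) / y) + 3)) =
      Real.exp (9 / 2) * (((y : ℝ) / K) ^ (1 / 2 : ℝ) * ((m : ℝ) / y)) := by
    rw [Real.rpow_def_of_pos (div_pos hy0 hK0)]
    conv_rhs => rw [← Real.exp_log (div_pos hm0 hy0)]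
    rw [← Real.exp_add, ← Real.exp_add]
    congr 1
    ring
  have h11 : (m : ℝ) * ssmF (RR p K k) (fun g => g.natDegree) w m ≤
      3 / 2 * (Real.exp (9 / 2) * (((y : ℝ) / K) ^ (1 / 2 : ℝ) * ((m : ℝ) / y))) := by
    rw [← h10]
    refine h1.trans (h2.trans ?_)
    refine mul_le_mul_of_nonneg_left ?_ (by norm_num)
    exact h6.trans (h7.trans (Real.exp_le_exp.2 h8))
  have h12 : 0 ≤ ((y : ℝ) / K) ^ (1 / 2 : ℝ) := Real.rpow_nonneg (div_pos hy0 hK0).le _
  have h13 : (m : ℝ) * ssmF (RR p K k) (fun g => g.natDegree) w m ≤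
      m * (200 * ((y : ℝ) / K) ^ (1 / 2 : ℝ) / y) := by
    refine h11.trans ?_
    have h14 : 3 / 2 * (Real.exp (9 / 2) * (((y : ℝ) / K) ^ (1 / 2 : ℝ) * ((m : ℝ) / y))) =
        (3 / 2 * Real.exp (9 / 2)) * (m * (((y : ℝ) / K) ^ (1 / 2 : ℝ) / y)) := by ring
    have h15 : m * (200 * ((y : ℝ) / K) ^ (1 / 2 : ℝ) / y) =
        200 * (m * (((y : ℝ) / K) ^ (1 / 2 : ℝ) / y)) := by ring
    rw [h14, h15]
    exact mul_le_mul_of_nonneg_right ssm_exp (mul_nonneg hm0.le (div_nonneg h12 hy0.le))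
  exact le_of_mul_le_mul_left h13 hm0

open Classical in
theorem ssm {p : ℕ} [Fact p.Prime] (hp : 3 ≤ p) (K y m k : ℕ) (hK : 1 ≤ K) (hy : K ≤ y) (hm : y ≤ m) (hk : m ≤ k) :
    (∑ s ∈ (RR p K k).powerset.filter (fun s => ∑ g ∈ s, g.natDegree = m),
        ∏ g ∈ s, (beta g * (if g.natDegree ≤ y then (1 / 2 : ℝ) else 1))) ≤ 200 * ((y : ℝ) / K) ^ (1 / 2 : ℝ) / y := by
  have h := ssm_main hp K y m k hK hy hm hk
  unfold ssmF at h
  exact h

open Classical in
theorem ssm_one {p : ℕ} [Fact p.Prime] (hp : 3 ≤ p) (K m k : ℕ) (hK : 1 ≤ K) (hm : K ≤ m) (hk : m ≤ k) :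
    (∑ s ∈ (RR p K k).powerset.filter (fun s => ∑ g ∈ s, g.natDegree = m), ∏ g ∈ s, beta g) ≤ 200 := by
  have h := ssm hp K K m k hK le_rfl hm hk
  have h1 : (∑ s ∈ (RR p K k).powerset.filter (fun s => ∑ g ∈ s, g.natDegree = m),
        ∏ g ∈ s, (beta g * (if g.natDegree ≤ K then (1 / 2 : ℝ) else 1))) =
      ∑ s ∈ (RR p K k).powerset.filter (fun s => ∑ g ∈ s, g.natDegree = m), ∏ g ∈ s, beta g := by
    refine Finset.sum_congr rfl fun s hs => Finset.prod_congr rfl fun g hg => ?_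
    have hg' : g ∈ RR p K k := Finset.mem_powerset.1 (Finset.mem_filter.1 hs).1 hg
    rw [mem_rr] at hg'
    rw [if_neg (by omega), mul_one]
  rw [h1] at h
  refine h.trans ?_
  have hK1 : (1 : ℝ) ≤ K := by exact_mod_cast hK
  rw [div_self (by linarith), Real.one_rpow, mul_one, div_le_iff₀ (by linarith)]
  linarith

end Pool.H64.IR

end S_SSM

section S_NUM1

/-! MODULE NUM1 (project MP_a758cf_pr, IR; overview: team-store H64_a758cf.md)
PhiF at beta. K,y,D=K^3,M,J the parameters. For s in FF: card s <= k and all beta g <= 3^(-K).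
inner sum with u = -1/2 (x_g = beta g/2): bnf_even_upper <= prod_{g in Q \ s}(1 - beta g/2) + (L/2)^(J+1)/(J+1)! , L = sum_Q beta <= pL + 3;
prod <= exp(-(1/2) sum_{Q \ s} beta) <= exp(-L/2 + (1/2) k 3^(-K)) <= 2 exp(-L/2) <= 2 e^{3/2} (y/K)^(-1/2); the tail is <= (e L/(2(J+1)))^(J+1) <= k^(-20).
sum over s in FF of beta_s 2^(-card(s inf Q)) <= sum_{m=k-D}^{k} ssm <= (D+1) 200 (y/K)^(1/2)/y.
So PhiF <= 2^M (D+1) 200 (y/K)^(1/2)/y * (10 (y/K)^(-1/2) + k^(-20)) <= 4000 (D+1) 2^M / y <= 4000 (K^3+1) (y/K)^(0.9242)/y and K^3 <= k^0.03, (y/K)^0.9242/y <= K^(-0.92) y^(-0.0757)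
-> exponent 0.03 - 0.0092 - 0.068 < -0.04. (log 2 * 4/3 = 0.92420.)
Absolute version u = 1/2: inner sum <= prod(1+beta/2) <= exp(L/2) <= k, sum over s of beta_s <= (D+1) 200 (ssm_one): total <= k^5.
-/

set_option autoImplicit false

namespace Pool.H64.IR

open Finset Polynomial

theorem num1_ff_sum {p : ℕ} [Fact p.Prime] (K k D : ℕ) (w : Finset (ZMod p)[X] → ℝ)
    (hw : ∀ s ∈ (RR p K k).powerset, 0 ≤ w s) (B : ℝ) (hB : 0 ≤ B)
    (h : ∀ m, k ≤ m + D → m ≤ k →
      ∑ s ∈ (RR p K k).powerset.filter (fun s => ∑ g ∈ s, g.natDegree = m), w s ≤ B) :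
    ∑ s ∈ FF p K k D, w s ≤ ((D : ℝ) + 1) * B := by
  have hmaps : ∀ s ∈ FF p K k D, (∑ g ∈ s, g.natDegree) ∈ Finset.Icc (k - D) k := by
    intro s hs
    unfold FF at hs
    rw [mem_filter] at hs
    rw [mem_Icc]
    omega
  rw [← Finset.sum_fiberwise_of_maps_to hmaps]
  have h1 : ∀ m ∈ Finset.Icc (k - D) k, ∑ s ∈ (FF p K k D).filter (fun s => ∑ g ∈ s, g.natDegree = m), w s ≤ B := by
    intro m hm
    rw [mem_Icc] at hm
    refine le_trans ?_ (h m (by omega) hm.2)
    refine Finset.sum_le_sum_of_subset_of_nonneg ?_ ?_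
    · intro s hs
      rw [mem_filter] at hs ⊢
      refine ⟨?_, hs.2⟩
      have := hs.1
      unfold FF at this
      exact (mem_filter.1 this).1
    · intro s hs _
      exact hw s (mem_filter.1 hs).1
  refine (Finset.sum_le_sum h1).trans ?_
  rw [Finset.sum_const, nsmul_eq_mul]
  refine mul_le_mul_of_nonneg_right ?_ hB
  rw [Nat.card_Icc]
  have : k + 1 - (k - D) ≤ D + 1 := by omega
  exact_mod_cast this

/-- elements of `s ∈ FF` : cardinality at most `k` -/
theorem num1_card {p : ℕ} [Fact p.Prime] {K k D : ℕ} {s : Finset (ZMod p)[X]} (hs : s ∈ FF p K k D) :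
    s ⊆ RR p K k ∧ s.card ≤ k := by
  unfold FF at hs
  rw [mem_filter, mem_powerset] at hs
  refine ⟨hs.1, ?_⟩
  have h1 : s.card ≤ ∑ g ∈ s, g.natDegree := by
    rw [Finset.card_eq_sum_ones]
    refine Finset.sum_le_sum ?_
    intro g hg
    have := (mem_rr g).1 (hs.1 hg)
    omega
  omega

theorem num1_prod_le {α : Type} (s : Finset α) (x : α → ℝ) (hx : ∀ a ∈ s, 0 ≤ x a ∧ x a ≤ 1) :
    ∏ a ∈ s, (1 - x a) ≤ Real.exp (-∑ a ∈ s, x a) := by
  rw [← Finset.sum_neg_distrib, Real.exp_sum]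
  refine Finset.prod_le_prod (fun a ha => by linarith [(hx a ha).2]) ?_
  intro a _
  have := Real.add_one_le_exp (-x a)
  linarith

theorem num1_prod_le' {α : Type} (s : Finset α) (x : α → ℝ) (hx : ∀ a ∈ s, 0 ≤ x a) :
    ∏ a ∈ s, (1 + x a) ≤ Real.exp (∑ a ∈ s, x a) := by
  rw [Real.exp_sum]
  refine Finset.prod_le_prod (fun a ha => by linarith [hx a ha]) ?_
  intro a _
  have := Real.add_one_le_exp (x a)
  linarith

theorem num1_tail {x : ℝ} (hx : 0 ≤ x) (N : ℕ) : x ^ N / (Nat.factorial N) ≤ Real.exp (3 * x - N) := by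
  have h1 := Real.pow_div_factorial_le_exp (Real.exp 1 * x) (by positivity) N
  have h2 : Real.exp 1 * x ≤ 3 * x := by
    have := Real.exp_one_lt_d9
    nlinarith
  have h3 : (Real.exp 1 * x) ^ N / (Nat.factorial N) = Real.exp N * (x ^ N / (Nat.factorial N)) := by
    rw [mul_pow, mul_div_assoc]
    congr 1
    rw [← Real.exp_nat_mul, mul_one]
  rw [h3] at h1
  rw [sub_eq_add_neg, Real.exp_add, Real.exp_neg]
  rw [← div_eq_mul_inv, le_div_iff₀ (Real.exp_pos _), mul_comm]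
  exact h1.trans (Real.exp_le_exp.2 h2)

theorem num1_beta {p : ℕ} [Fact p.Prime] (hp : 3 ≤ p) {K k : ℕ} {g : (ZMod p)[X]} (hg : g ∈ RR p K k) :
    0 ≤ beta g ∧ beta g ≤ 1 := by
  obtain ⟨h1, _, h3⟩ := beta_le hp K k g hg
  refine ⟨h1.le, h3.trans ?_⟩
  exact pow_le_one₀ (by norm_num) (by norm_num)

open Classical in
theorem num1_sums {p : ℕ} [Fact p.Prime] (hp : 3 ≤ p) (K y k : ℕ) (hK : 1 ≤ K) (hy : K ≤ y)
    (hk : (k : ℝ) * (1 / 3) ^ K ≤ 1) (s : Finset (ZMod p)[X]) (hs : s ⊆ RR p K k) (hc : s.card ≤ k) :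
    Real.log ((y : ℝ) / K) - 4 ≤ ∑ g ∈ (RR p K y) \ s, beta g ∧
      ∑ g ∈ (RR p K y) \ s, beta g ≤ Real.log ((y : ℝ) / K) + 3 := by
  have h0 := abs_le.1 (lbd hp K y hK hy)
  have h1 : ∑ g ∈ (RR p K y) ∩ s, beta g + ∑ g ∈ (RR p K y) \ s, beta g = ∑ g ∈ RR p K y, beta g :=
    Finset.sum_inter_add_sum_sdiff _ _ _
  have h2 : 0 ≤ ∑ g ∈ (RR p K y) ∩ s, beta g :=
    Finset.sum_nonneg (fun g hg => (num1_beta hp (mem_inter.1 hg).1).1)
  have h3 : ∑ g ∈ (RR p K y) ∩ s, beta g ≤ 1 := by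
    calc ∑ g ∈ (RR p K y) ∩ s, beta g ≤ ∑ g ∈ s, beta g :=
          Finset.sum_le_sum_of_subset_of_nonneg inter_subset_right
            (fun g hg _ => (num1_beta hp (hs hg)).1)
      _ ≤ ∑ _g ∈ s, (1 / 3 : ℝ) ^ K := Finset.sum_le_sum (fun g hg => (beta_le hp K k g (hs hg)).2.2)
      _ = s.card * (1 / 3 : ℝ) ^ K := by rw [Finset.sum_const, nsmul_eq_mul]
      _ ≤ k * (1 / 3 : ℝ) ^ K := mul_le_mul_of_nonneg_right (by exact_mod_cast hc) (by positivity)
      _ ≤ 1 := hk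
  constructor <;> linarith [h0.1, h0.2]

open Classical in
theorem num1_inner {p : ℕ} [Fact p.Prime] (hp : 3 ≤ p) (K y k J : ℕ) (hK : 1 ≤ K) (hy : K ≤ y)
    (hJ : Even J) (hk : (k : ℝ) * (1 / 3) ^ K ≤ 1) (s : Finset (ZMod p)[X]) (hs : s ⊆ RR p K k)
    (hc : s.card ≤ k) :
    ∑ G ∈ ((RR p K y) \ s).powerset.filter (fun G => G.card ≤ J), (-1 / 2 : ℝ) ^ G.card * ∏ g ∈ G, beta g ≤
      Real.exp (-((Real.log ((y : ℝ) / K) - 4) / 2)) +
        Real.exp (3 * ((Real.log ((y : ℝ) / K) + 3) / 2) - (J + 1)) := by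
  obtain ⟨h1, h2⟩ := num1_sums hp K y k hK hy hk s hs hc
  have hx : ∀ g ∈ (RR p K y) \ s, 0 ≤ beta g / 2 ∧ beta g / 2 ≤ 1 := by
    intro g hg
    have := num1_beta hp (mem_sdiff.1 hg).1
    constructor <;> linarith [this.1, this.2]
  have e1 : ∑ G ∈ ((RR p K y) \ s).powerset.filter (fun G => G.card ≤ J), (-1 / 2 : ℝ) ^ G.card * ∏ g ∈ G, beta g
      = ∑ G ∈ ((RR p K y) \ s).powerset.filter (fun G => G.card ≤ J), (-1 : ℝ) ^ G.card * ∏ g ∈ G, (beta g / 2) := by
    refine Finset.sum_congr rfl (fun G _ => ?_)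
    rw [Finset.prod_div_distrib, Finset.prod_const, div_pow]
    ring
  have e2 : ∑ g ∈ (RR p K y) \ s, beta g / 2 = (∑ g ∈ (RR p K y) \ s, beta g) / 2 := by
    rw [Finset.sum_div]
  rw [e1]
  refine (bnf_even_upper _ _ hx J hJ).trans ?_
  refine add_le_add ?_ ?_
  · refine (num1_prod_le _ _ hx).trans (Real.exp_le_exp.2 ?_)
    rw [e2]
    linarith
  · refine (num1_tail (Finset.sum_nonneg (fun g hg => (hx g hg).1)) (J + 1)).trans (Real.exp_le_exp.2 ?_)
    rw [e2]
    push_cast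
    linarith

open Classical in
theorem num1_inner_abs {p : ℕ} [Fact p.Prime] (hp : 3 ≤ p) (K y k J : ℕ) (hK : 1 ≤ K) (hy : K ≤ y)
    (hk : (k : ℝ) * (1 / 3) ^ K ≤ 1) (s : Finset (ZMod p)[X]) (hs : s ⊆ RR p K k)
    (hc : s.card ≤ k) :
    0 ≤ ∑ G ∈ ((RR p K y) \ s).powerset.filter (fun G => G.card ≤ J), (1 / 2 : ℝ) ^ G.card * ∏ g ∈ G, beta g ∧
    ∑ G ∈ ((RR p K y) \ s).powerset.filter (fun G => G.card ≤ J), (1 / 2 : ℝ) ^ G.card * ∏ g ∈ G, beta g ≤
      Real.exp ((Real.log ((y : ℝ) / K) + 3) / 2) := by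
  obtain ⟨h1, h2⟩ := num1_sums hp K y k hK hy hk s hs hc
  have hx : ∀ g ∈ (RR p K y) \ s, 0 ≤ beta g / 2 := by
    intro g hg
    have := num1_beta hp (mem_sdiff.1 hg).1
    linarith [this.1]
  have e0 : ∀ G : Finset (ZMod p)[X], (1 / 2 : ℝ) ^ G.card * ∏ g ∈ G, beta g = ∏ g ∈ G, (beta g / 2) := by
    intro G
    rw [Finset.prod_div_distrib, Finset.prod_const, div_pow]
    ring
  have hn : ∀ G ∈ ((RR p K y) \ s).powerset, 0 ≤ ∏ g ∈ G, (beta g / 2) := by
    intro G hG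
    exact Finset.prod_nonneg (fun g hg => hx g ((mem_powerset.1 hG) hg))
  simp only [e0]
  constructor
  · exact Finset.sum_nonneg (fun G hG => hn G (mem_filter.1 hG).1)
  · refine (Finset.sum_le_sum_of_subset_of_nonneg (filter_subset _ _) (fun G hG _ => hn G hG)).trans ?_
    have e3 : ∑ G ∈ ((RR p K y) \ s).powerset, ∏ g ∈ G, (beta g / 2) = ∏ g ∈ (RR p K y) \ s, (1 + beta g / 2) := by
      rw [Finset.prod_one_add]
    rw [e3]
    refine (num1_prod_le' _ _ hx).trans (Real.exp_le_exp.2 ?_)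
    rw [← Finset.sum_div]
    linarith

open Classical in
theorem num1_w {p : ℕ} [Fact p.Prime] (s : Finset (ZMod p)[X]) (y : ℕ) :
    ∏ g ∈ s, (beta g * (if g.natDegree ≤ y then (1 / 2 : ℝ) else 1)) =
      (1 / 2 : ℝ) ^ (s.filter fun g => g.natDegree ≤ y).card * ∏ g ∈ s, beta g := by
  rw [Finset.prod_mul_distrib, Finset.prod_ite, Finset.prod_const, Finset.prod_const_one]
  ring

theorem num1_phi_bound {p : ℕ} [Fact p.Prime] (hp : 3 ≤ p) (K y k D M J : ℕ) (hK : 1 ≤ K) (hy : K ≤ y)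
    (hyk : y + D ≤ k) (hJ : Even J) (hk : (k : ℝ) * (1 / 3) ^ K ≤ 1) (I : ℝ) (hI0 : 0 ≤ I)
    (hI : Real.exp (-((Real.log ((y : ℝ) / K) - 4) / 2)) +
        Real.exp (3 * ((Real.log ((y : ℝ) / K) + 3) / 2) - (J + 1)) ≤ I) :
    PhiF p K y k D M J (-1 / 2) beta ≤
      (((D : ℝ) + 1) * (200 * ((y : ℝ) / K) ^ (1 / 2 : ℝ) / y)) * (2 ^ M * I) := by
  classical
  have hw : ∀ s ∈ (RR p K k).powerset,
      0 ≤ ∏ g ∈ s, (beta g * (if g.natDegree ≤ y then (1 / 2 : ℝ) else 1)) := by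
    intro s hs
    refine Finset.prod_nonneg (fun g hg => mul_nonneg (num1_beta hp ((mem_powerset.1 hs) hg)).1 ?_)
    split_ifs <;> norm_num
  have h1 : PhiF p K y k D M J (-1 / 2) beta ≤ ∑ s ∈ FF p K k D,
      (∏ g ∈ s, (beta g * (if g.natDegree ≤ y then (1 / 2 : ℝ) else 1))) * (2 ^ M * I) := by
    unfold PhiF
    refine Finset.sum_le_sum (fun s hs => ?_)
    obtain ⟨hs1, hs2⟩ := num1_card hs
    have h2 := (num1_inner hp K y k J hK hy hJ hk s hs1 hs2).trans hI
    have h3 : (1 / 2 : ℝ) ^ (s.filter fun g => g.natDegree ≤ y).card * 2 ^ M * ∏ g ∈ s, beta g =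
        (∏ g ∈ s, (beta g * (if g.natDegree ≤ y then (1 / 2 : ℝ) else 1))) * 2 ^ M := by
      rw [num1_w]; ring
    rw [← mul_assoc]
    calc _ = (∏ g ∈ s, (beta g * (if g.natDegree ≤ y then (1 / 2 : ℝ) else 1))) * 2 ^ M *
          ∑ G ∈ ((RR p K y) \ s).powerset.filter (fun G => G.card ≤ J), (-1 / 2 : ℝ) ^ G.card * ∏ g ∈ G, beta g := by
            rw [← h3]
      _ ≤ _ := mul_le_mul_of_nonneg_left h2 (mul_nonneg (hw s (mem_powerset.2 hs1)) (by positivity))
  refine h1.trans ?_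
  rw [← Finset.sum_mul]
  refine mul_le_mul_of_nonneg_right ?_ (by positivity)
  refine num1_ff_sum K k D _ hw _ (by positivity) ?_
  intro m hm1 hm2
  exact ssm hp K y m k hK hy (by omega) hm2

theorem num1_phi_abs_bound {p : ℕ} [Fact p.Prime] (hp : 3 ≤ p) (K y k D M J : ℕ) (hK : 1 ≤ K) (hy : K ≤ y)
    (hyk : y + D ≤ k) (hk : (k : ℝ) * (1 / 3) ^ K ≤ 1) (I : ℝ)
    (hI : Real.exp ((Real.log ((y : ℝ) / K) + 3) / 2) ≤ I) :
    PhiF p K y k D M J (1 / 2) beta ≤ (((D : ℝ) + 1) * 200) * (2 ^ M * I) := by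
  classical
  have hI0 : 0 ≤ I := (Real.exp_pos _).le.trans hI
  have hw : ∀ s ∈ (RR p K k).powerset, 0 ≤ ∏ g ∈ s, beta g := by
    intro s hs
    exact Finset.prod_nonneg (fun g hg => (num1_beta hp ((mem_powerset.1 hs) hg)).1)
  have h1 : PhiF p K y k D M J (1 / 2) beta ≤ ∑ s ∈ FF p K k D, (∏ g ∈ s, beta g) * (2 ^ M * I) := by
    unfold PhiF
    refine Finset.sum_le_sum (fun s hs => ?_)
    obtain ⟨hs1, hs2⟩ := num1_card hs
    obtain ⟨h20, h2⟩ := num1_inner_abs hp K y k J hK hy hk s hs1 hs2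
    have h4 := hw s (mem_powerset.2 hs1)
    have h5 : (1 / 2 : ℝ) ^ (s.filter fun g => g.natDegree ≤ y).card ≤ 1 :=
      pow_le_one₀ (by norm_num) (by norm_num)
    calc _ ≤ (1 * 2 ^ M * ∏ g ∈ s, beta g) *
          ∑ G ∈ ((RR p K y) \ s).powerset.filter (fun G => G.card ≤ J), (1 / 2 : ℝ) ^ G.card * ∏ g ∈ G, beta g := by
            refine mul_le_mul_of_nonneg_right ?_ h20
            gcongr
      _ ≤ (1 * 2 ^ M * ∏ g ∈ s, beta g) * I :=
            mul_le_mul_of_nonneg_left (h2.trans hI) (by positivity)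
      _ = _ := by ring
  refine h1.trans ?_
  rw [← Finset.sum_mul]
  refine mul_le_mul_of_nonneg_right ?_ (by positivity)
  refine num1_ff_sum K k D _ hw _ (by norm_num) ?_
  intro m hm1 hm2
  exact ssm_one hp K m k hK (by omega) hm2

/-- common facts on the parameters -/
theorem num1_par : ∃ k0 : ℕ, ∀ k : ℕ, k0 ≤ k →
    1 ≤ pK k ∧ pK k ≤ pY k ∧ pY k + (pK k) ^ 3 ≤ k ∧ Even (pJ k) ∧ (k : ℝ) * (1 / 3) ^ (pK k) ≤ 1 ∧
      500 ≤ Real.log k ∧ 1 ≤ pL k ∧
      88 / 100 * Real.log k ≤ pL k ∧ pL k ≤ 90 / 100 * Real.log k ∧ (pK k : ℝ) ^ 3 + pK k ≤ k ∧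
      20 * Real.log k ≤ pJ k ∧ (2 : ℝ) ^ (pM k) ≤ Real.exp (9242 / 10000 * pL k) ∧
      (pK k : ℝ) ≤ Real.exp (Real.log k / 100) := by
  obtain ⟨k1, h1⟩ := par_basic
  obtain ⟨k2, h2⟩ := par_decay 1
  refine ⟨max (max k1 k2) ⌈Real.exp 500⌉₊, ?_⟩
  intro k hk
  obtain ⟨hk12, hk3⟩ := max_le_iff.1 hk
  obtain ⟨hk1, hk2⟩ := max_le_iff.1 hk12
  obtain ⟨a1, a2, a3, a4, a5, a6, a7, a8, a9, a10⟩ := h1 k hk1
  have b1 := (h2 k hk2).1
  have hke : Real.exp 500 ≤ k := (Nat.le_ceil _).trans (by exact_mod_cast hk3)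
  have hk0 : (0 : ℝ) < k := (Real.exp_pos _).trans_le hke
  have hlog : 500 ≤ Real.log k := by
    rw [Real.le_log_iff_exp_le hk0]; exact hke
  refine ⟨a1, a2, a3, a5, ?_, hlog, a7, a8, a9, a10, ?_, ?_, ?_⟩
  · rw [Real.rpow_neg_one] at b1
    calc (k : ℝ) * (1 / 3) ^ (pK k) ≤ k * (k : ℝ)⁻¹ := mul_le_mul_of_nonneg_left b1 hk0.le
      _ = 1 := mul_inv_cancel₀ hk0.ne'
  · unfold pJ
    push_cast
    have := Nat.le_ceil (10 * Real.log k)
    linarith
  · have c1 : (pM k : ℝ) ≤ 4 / 3 * pL k := Nat.floor_le (by linarith)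
    have c2 := Real.log_two_lt_d9
    have c3 : (0 : ℝ) < Real.log 2 := Real.log_pos (by norm_num)
    calc (2 : ℝ) ^ (pM k) = Real.exp (Real.log 2 * pM k) := by
          rw [Real.exp_mul, Real.exp_log (by norm_num), Real.rpow_natCast]
      _ ≤ Real.exp (9242 / 10000 * pL k) := by
          refine Real.exp_le_exp.2 ?_
          calc Real.log 2 * pM k ≤ Real.log 2 * (4 / 3 * pL k) := mul_le_mul_of_nonneg_left c1 c3.le
            _ ≤ 9242 / 10000 * pL k := by nlinarith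
  · have c1 : (pK k : ℝ) ≤ (k : ℝ) ^ (1 / 100 : ℝ) := Nat.floor_le (by positivity)
    refine c1.trans ?_
    rw [Real.rpow_def_of_pos hk0]
    refine Real.exp_le_exp.2 ?_
    linarith

theorem num_phi : ∃ k0 : ℕ, ∀ k : ℕ, k0 ≤ k → ∀ (p : ℕ) [Fact p.Prime], 3 ≤ p →
    PhiF p (pK k) (pY k) k ((pK k) ^ 3) (pM k) (pJ k) (-1 / 2) beta ≤ (k : ℝ) ^ (-(1 / 40) : ℝ) := by
  obtain ⟨k0, h0⟩ := num1_par
  refine ⟨k0, fun k hk p _ hp => ?_⟩
  obtain ⟨h1, h2, h3, h4, h5, h6, h7, h8, h9, h10, h11, h12, h13⟩ := h0 k hk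
  have hk0 : (0 : ℝ) < k := by
    rcases Nat.eq_zero_or_pos k with h | h
    · rw [h] at h6; norm_num at h6
    · exact_mod_cast h
  have hKpos : (0 : ℝ) < pK k := by exact_mod_cast h1
  have hYpos : (0 : ℝ) < pY k := by
    have : 0 < pY k := lt_of_lt_of_le h1 h2
    exact_mod_cast this
  have hL : Real.log ((pY k : ℝ) / pK k) = pL k := rfl
  set ℓ := pL k with hℓ
  set a := Real.log k with ha
  have hI : Real.exp (-((Real.log ((pY k : ℝ) / pK k) - 4) / 2)) +
        Real.exp (3 * ((Real.log ((pY k : ℝ) / pK k) + 3) / 2) - (pJ k + 1)) ≤ 16 * Real.exp (-ℓ / 2) := by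
    rw [hL]
    have e1 : Real.exp (-((ℓ - 4) / 2)) = Real.exp 2 * Real.exp (-ℓ / 2) := by
      rw [← Real.exp_add]; congr 1; ring
    have e2 : Real.exp (3 * ((ℓ + 3) / 2) - (pJ k + 1)) ≤ Real.exp 2 * Real.exp (-ℓ / 2) := by
      rw [← Real.exp_add]
      refine Real.exp_le_exp.2 ?_
      linarith
    have e3 : Real.exp 2 ≤ 8 := by
      have h := Real.exp_one_lt_d9
      have : Real.exp 2 = Real.exp 1 * Real.exp 1 := by rw [← Real.exp_add]; norm_num
      rw [this]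
      nlinarith [Real.exp_pos 1]
    have e4 := Real.exp_pos (-ℓ / 2)
    rw [e1]
    nlinarith
  refine (num1_phi_bound hp (pK k) (pY k) k ((pK k) ^ 3) (pM k) (pJ k) h1 h2 h3 h4 h5
    (16 * Real.exp (-ℓ / 2)) (by positivity) hI).trans ?_
  have f1 : ((pY k : ℝ) / pK k) ^ (1 / 2 : ℝ) = Real.exp (ℓ / 2) := by
    rw [Real.rpow_def_of_pos (by positivity), hL]
    congr 1; ring
  have f2 : (pY k : ℝ) = pK k * Real.exp ℓ := by
    rw [← hL, Real.exp_log (by positivity)]
    field_simp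
  have f3 : (((pK k) ^ 3 : ℕ) : ℝ) + 1 ≤ 2 * (pK k : ℝ) ^ 3 := by
    push_cast
    have : (1 : ℝ) ≤ (pK k : ℝ) ^ 3 := one_le_pow₀ (by exact_mod_cast h1)
    linarith
  have f4 : (200 * ((pY k : ℝ) / pK k) ^ (1 / 2 : ℝ) / pY k) = 200 * Real.exp (-ℓ / 2) / pK k := by
    rw [f1, f2]
    have : Real.exp (-ℓ / 2) * Real.exp ℓ = Real.exp (ℓ / 2) := by
      rw [← Real.exp_add]; congr 1; ring
    rw [← this]
    field_simp
  rw [f4]
  have f5 : (pK k : ℝ) ^ 2 ≤ Real.exp (a / 50) := by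
    calc (pK k : ℝ) ^ 2 ≤ (Real.exp (a / 100)) ^ 2 := pow_le_pow_left₀ hKpos.le h13 2
      _ = Real.exp (a / 50) := by rw [← Real.exp_nat_mul]; congr 1; push_cast; ring
  have f6 : (6400 : ℝ) ≤ Real.exp (10 : ℝ) := by
    have h := Real.exp_one_gt_d9
    have e : Real.exp (10 : ℝ) = (Real.exp 1) ^ 10 := by rw [← Real.exp_nat_mul]; norm_num
    rw [e]
    calc (6400 : ℝ) ≤ (2.7 : ℝ) ^ 10 := by norm_num
      _ ≤ (Real.exp 1) ^ 10 := pow_le_pow_left₀ (by norm_num) (by linarith) 10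
  calc (((((pK k) ^ 3 : ℕ) : ℝ) + 1) * (200 * Real.exp (-ℓ / 2) / pK k)) * (2 ^ (pM k) * (16 * Real.exp (-ℓ / 2)))
      ≤ ((2 * (pK k : ℝ) ^ 3) * (200 * Real.exp (-ℓ / 2) / pK k)) *
        (Real.exp (9242 / 10000 * ℓ) * (16 * Real.exp (-ℓ / 2))) := by
        gcongr
    _ = 6400 * (pK k : ℝ) ^ 2 * (Real.exp (9242 / 10000 * ℓ) * (Real.exp (-ℓ / 2) * Real.exp (-ℓ / 2))) := by
        field_simp
        ring
    _ = 6400 * (pK k : ℝ) ^ 2 * Real.exp (-(758 / 10000) * ℓ) := by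
        rw [← Real.exp_add, ← Real.exp_add]
        congr 2
        ring
    _ ≤ Real.exp 10 * Real.exp (a / 50) * Real.exp (-(758 / 10000) * ℓ) := by
        gcongr
    _ = Real.exp (10 + a / 50 + -(758 / 10000) * ℓ) := by
        rw [Real.exp_add, Real.exp_add]
    _ ≤ Real.exp (-(1 / 40) * a) := by
        refine Real.exp_le_exp.2 ?_
        linarith
    _ = (k : ℝ) ^ (-(1 / 40) : ℝ) := by
        rw [Real.rpow_def_of_pos hk0]
        congr 1
        ring

theorem num_phi_abs : ∃ k0 : ℕ, ∀ k : ℕ, k0 ≤ k → ∀ (p : ℕ) [Fact p.Prime], 3 ≤ p →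
    PhiF p (pK k) (pY k) k ((pK k) ^ 3) (pM k) (pJ k) (1 / 2) beta ≤ (k : ℝ) ^ (5 : ℝ) := by
  obtain ⟨k0, h0⟩ := num1_par
  refine ⟨k0, fun k hk p _ hp => ?_⟩
  obtain ⟨h1, h2, h3, h4, h5, h6, h7, h8, h9, h10, h11, h12, h13⟩ := h0 k hk
  have hk0 : (0 : ℝ) < k := by
    rcases Nat.eq_zero_or_pos k with h | h
    · rw [h] at h6; norm_num at h6
    · exact_mod_cast h
  have hL : Real.log ((pY k : ℝ) / pK k) = pL k := rfl
  set ℓ := pL k with hℓ
  set a := Real.log k with ha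
  have hka : (k : ℝ) = Real.exp a := by rw [ha, Real.exp_log hk0]
  have hI : Real.exp ((Real.log ((pY k : ℝ) / pK k) + 3) / 2) ≤ k := by
    rw [hL, hka]
    refine Real.exp_le_exp.2 ?_
    linarith
  refine (num1_phi_abs_bound hp (pK k) (pY k) k ((pK k) ^ 3) (pM k) (pJ k) h1 h2 h3 h5 k hI).trans ?_
  have hK1 : (1 : ℝ) ≤ pK k := by exact_mod_cast h1
  have g1 : (((pK k) ^ 3 : ℕ) : ℝ) + 1 ≤ k := by
    push_cast
    linarith
  have g2 : (2 : ℝ) ^ (pM k) ≤ k := by
    refine h12.trans ?_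
    rw [hka]
    refine Real.exp_le_exp.2 ?_
    linarith
  have g3 : (200 : ℝ) ≤ k := by
    rw [hka]
    have := Real.add_one_le_exp a
    linarith
  have hk1 : (1 : ℝ) ≤ k := by linarith
  calc ((((pK k) ^ 3 : ℕ) : ℝ) + 1) * 200 * (2 ^ (pM k) * k) ≤ (k * k) * (k * k) := by
        gcongr
    _ = (k : ℝ) ^ 4 * 1 := by ring
    _ ≤ (k : ℝ) ^ 4 * k := by gcongr
    _ = (k : ℝ) ^ (5 : ℝ) := by
        rw [show (5 : ℝ) = ((5 : ℕ) : ℝ) by norm_num, Real.rpow_natCast]
        ring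

end Pool.H64.IR

end S_NUM1

section S_NUM2

/-! MODULE NUM2 (project MP_a758cf_pr, IR; overview: team-store H64_a758cf.md)
OmF at beta: <= (esymm_le) L^J'/J'! / binom(M,J') <= (L/(M-J'+1))^J' (binom(M,J') J'! >= (M-J'+1)^J'), L <= l + 3 (lbd), l = pL k, M - J' + 1 >= 7/6 l,
J' >= l/6 - 1: <= ((6/7)(1+3/l))^J' <= (6/7)^(l/6-1) (1+3/l)^(l/6) <= (7/6) e^(1/2) exp(-(1/6) log(7/6) l), (1/6) log(7/6) = 0.02569, l >= 0.88 log k:
exponent -0.0226; for k large <= k^(-1/50)/2. (For J' <= l/6; the base (6/7)(1+3/l) is < 1 for l > 18.)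
-/

set_option autoImplicit false

namespace Pool.H64.IR

open Finset Polynomial

theorem num2_om_le {p : ℕ} [Fact p.Prime] (K y M J' : ℕ) (hJ : J' ≤ M) (L : ℝ)
    (hb : ∀ g ∈ RR p K y, 0 ≤ beta g) (hL : ∑ g ∈ RR p K y, beta g ≤ L) :
    OmF p K y M J' beta ≤ (L / ((M : ℝ) + 1 - J')) ^ J' := by
  classical
  unfold OmF
  have h1 := esymm_le (RR p K y) beta hb J'
  have hS : 0 ≤ ∑ g ∈ RR p K y, beta g := Finset.sum_nonneg hb
  have h2 : (∑ g ∈ RR p K y, beta g) ^ J' ≤ L ^ J' := pow_le_pow_left₀ hS hL J'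
  have hL0 : 0 ≤ L := hS.trans hL
  have hf : (0 : ℝ) < (Nat.factorial J' : ℝ) := by exact_mod_cast Nat.factorial_pos J'
  have hc : (0 : ℝ) < (Nat.choose M J' : ℝ) := by exact_mod_cast Nat.choose_pos hJ
  have hd0 : (0 : ℝ) < (M : ℝ) + 1 - J' := by
    have : (J' : ℝ) ≤ M := by exact_mod_cast hJ
    linarith
  have hcast : (((M + 1 - J' : ℕ)) : ℝ) = (M : ℝ) + 1 - J' := by
    rw [Nat.cast_sub (by omega)]; push_cast; ring
  have h3 : ((M : ℝ) + 1 - J') ^ J' ≤ (Nat.factorial J' : ℝ) * (Nat.choose M J' : ℝ) := by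
    have h4 := Nat.pow_sub_le_descFactorial M J'
    rw [Nat.descFactorial_eq_factorial_mul_choose] at h4
    rw [← hcast]
    exact_mod_cast h4
  calc (∑ G ∈ (RR p K y).powersetCard J', ∏ g ∈ G, beta g) / (Nat.choose M J' : ℝ)
      ≤ (L ^ J' / (Nat.factorial J' : ℝ)) / (Nat.choose M J' : ℝ) := by
        refine div_le_div_of_nonneg_right (h1.trans ?_) hc.le
        exact div_le_div_of_nonneg_right h2 hf.le
    _ = L ^ J' / ((Nat.factorial J' : ℝ) * (Nat.choose M J' : ℝ)) := by rw [div_div]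
    _ ≤ L ^ J' / ((M : ℝ) + 1 - J') ^ J' :=
        div_le_div_of_nonneg_left (pow_nonneg hL0 _) (pow_pos hd0 _) h3
    _ = _ := by rw [div_pow]

theorem num2_exp (l : ℝ) (hl : 21 ≤ l) (M J' : ℕ) (hM : 4 / 3 * l < (M : ℝ) + 1)
    (hJ1 : (J' : ℝ) ≤ l / 6) (hJ2 : l / 6 < (J' : ℝ) + 1) :
    ((l + 3) / ((M : ℝ) + 1 - J')) ^ J' ≤ Real.exp (1 - l / 42) := by
  have hl0 : 0 < l := by linarith
  have hd : 7 / 6 * l ≤ (M : ℝ) + 1 - J' := by linarith
  have hr0 : 0 ≤ (l + 3) / ((M : ℝ) + 1 - J') := by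
    apply div_nonneg (by linarith)
    linarith
  have hr1 : (l + 3) / ((M : ℝ) + 1 - J') ≤ (6 / 7) * (1 + 3 / l) := by
    have h1 : (l + 3) / ((M : ℝ) + 1 - J') ≤ (l + 3) / (7 / 6 * l) :=
      div_le_div_of_nonneg_left (by linarith) (by positivity) hd
    refine h1.trans (le_of_eq ?_)
    field_simp
  have hr2 : (6 / 7) * (1 + 3 / l) ≤ Real.exp (-(1 / 7) + 3 / l) := by
    rw [Real.exp_add]
    have h2 : (6 / 7 : ℝ) ≤ Real.exp (-(1 / 7)) := by
      have := Real.add_one_le_exp (-(1 / 7) : ℝ)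
      linarith
    have h3 : 1 + 3 / l ≤ Real.exp (3 / l) := by
      have := Real.add_one_le_exp (3 / l)
      linarith
    exact mul_le_mul h2 h3 (by positivity) (Real.exp_pos _).le
  have h4 : ((l + 3) / ((M : ℝ) + 1 - J')) ^ J' ≤ Real.exp (-(1 / 7) + 3 / l) ^ J' :=
    pow_le_pow_left₀ hr0 (hr1.trans hr2) J'
  refine h4.trans ?_
  rw [← Real.exp_nat_mul]
  apply Real.exp_le_exp.2
  have h5 : 3 / l ≤ 1 / 7 := by
    rw [div_le_div_iff₀ hl0 (by norm_num)]
    linarith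
  have h6 : (J' : ℝ) * (-(1 / 7) + 3 / l) ≤ (l / 6 - 1) * (-(1 / 7) + 3 / l) :=
    mul_le_mul_of_nonpos_right (by linarith) (by linarith)
  refine h6.trans ?_
  have h7 : l * (3 / l) = 3 := by field_simp
  have h8 : 0 ≤ 3 / l := by positivity
  nlinarith

theorem num_om : ∃ k0 : ℕ, ∀ k : ℕ, k0 ≤ k → ∀ (p : ℕ) [Fact p.Prime], 3 ≤ p →
    OmF p (pK k) (pY k) (pM k) (pJ1 k) beta ≤ (k : ℝ) ^ (-(1 / 50) : ℝ) / 2 := by
  obtain ⟨k0, hk0⟩ := par_basic
  have hlog : ∀ᶠ k : ℕ in Filter.atTop, 2200 ≤ Real.log (k : ℝ) :=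
    (Real.tendsto_log_atTop.comp tendsto_natCast_atTop_atTop).eventually
      (Filter.eventually_ge_atTop 2200)
  obtain ⟨k1, hk1⟩ := Filter.eventually_atTop.1 hlog
  refine ⟨max k0 (max k1 1), fun k hk p hp hp3 => ?_⟩
  obtain ⟨h1, h2, h3, h4, h5, h6, h7, h8, h9, h10⟩ := hk0 k ((le_max_left _ _).trans hk)
  have hT := hk1 k ((le_max_left _ _).trans ((le_max_right _ _).trans hk))
  have hkpos : (0 : ℝ) < k := by
    exact_mod_cast (lt_of_lt_of_le one_pos ((le_max_right _ _).trans ((le_max_right _ _).trans hk)))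
  have hb : ∀ g ∈ RR p (pK k) (pY k), 0 ≤ beta g := fun g hg => (beta_le hp3 _ _ g hg).1.le
  have hL : ∑ g ∈ RR p (pK k) (pY k), beta g ≤ pL k + 3 := by
    have h := (abs_le.1 (lbd hp3 (pK k) (pY k) h1 h2)).2
    unfold pL
    linarith
  have hl : 21 ≤ pL k := by nlinarith
  have hom := num2_om_le (pK k) (pY k) (pM k) (pJ1 k) h4 (pL k + 3) hb hL
  refine hom.trans ?_
  have hM : 4 / 3 * pL k < (pM k : ℝ) + 1 := Nat.lt_floor_add_one _
  have hJ1 : (pJ1 k : ℝ) ≤ pL k / 6 := Nat.floor_le (by linarith)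
  have hJ2 : pL k / 6 < (pJ1 k : ℝ) + 1 := Nat.lt_floor_add_one _
  refine (num2_exp (pL k) hl (pM k) (pJ1 k) hM hJ1 hJ2).trans ?_
  have h11 : 1 - pL k / 42 ≤ -(1 / 50) * Real.log k + (-1) := by linarith
  refine (Real.exp_le_exp.2 h11).trans ?_
  rw [Real.exp_add, Real.rpow_def_of_pos hkpos, mul_comm (Real.log (k : ℝ))]
  have h12 : Real.exp (-1) ≤ 1 / 2 := by
    rw [Real.exp_neg, inv_le_comm₀ (Real.exp_pos _) (by norm_num)]
    have := Real.add_one_le_exp (1 : ℝ)
    linarith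
  have h13 := Real.exp_pos (-(1 / 50) * Real.log k)
  calc Real.exp (-(1 / 50) * Real.log k) * Real.exp (-1)
      ≤ Real.exp (-(1 / 50) * Real.log k) * (1 / 2) := mul_le_mul_of_nonneg_left h12 h13.le
    _ = _ := by ring

end Pool.H64.IR

end S_NUM2
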