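import Mathlib
import Pool.Agent.H64.IRL.L1
import Pool.Agent.H64.IRL.L2
import Pool.Agent.H64.IRL.L3
import Pool.Agent.H64.IRL.L4
import Pool.Agent.H64.IRL.L5

set_option autoImplicit false

/-! Characteristic polynomial of G(n,1/2), part L6: this file joins several modules to save build time. -/

section S_ONE

/-! MODULE ONE (project MP_a758cf_pr, IR; overview: team-store H64_a758cf.md)
One prime. D = p^(nk)/p^(k(k-1)/2), note (p^(nk)/p^(k(k+1)/2))/D = p^(-k).
(ii) lower bound: nc_zero_lower, (1-eps)^k >= 1 - k eps, k eps = 2 k sqrt(p)^n p^k/p^n <= exp(-c n) when k <= theta n, theta small.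
(i): split M = 0 (nc_zero_upper) and M /= 0: symmetric, rank r in [1,2k] (else NC = 0), NC C M/D <= (1+eps)^k HC C p^(-k) p^(4 k s)/p^(n s), s = (r+1)/2 >= r/2, so
p^(4ks - ns) <= p^(-(n-4k) r/2); sum over M of rank r by sigma (F = ZMod p, theta smaller): <= (1+eps)^k HC C p^(-k) p^((1-tau) n r/2 - (n-4k) r/2) =
(1+eps)^k HC C p^(-k) p^(-(tau n - 4k) r/2) <= (1+eps)^k HC C p^(-k) p^(-tau n r/4) for 8 k <= tau n; geometric sum over r.
-/

set_option autoImplicit false

namespace Pool.H64.IR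

open Finset Polynomial

private lemma one_grow (a b : ℝ) (ha : 0 ≤ a) (hb : 0 < b) :
    ∃ n0 : ℕ, ∀ n : ℕ, n0 ≤ n → a * ((n : ℝ) + 1) ≤ Real.exp (b * n) := by
  obtain ⟨N, hN⟩ := exists_nat_ge (4 * a / b ^ 2)
  refine ⟨N + 1, fun n hn => ?_⟩
  have h1 : (1 : ℝ) ≤ n := by exact_mod_cast (by omega : 1 ≤ n)
  have h2 : (N : ℝ) ≤ n := by exact_mod_cast (by omega : N ≤ n)
  have h3 : 4 * a ≤ n * b ^ 2 := by
    have := hN.trans h2
    rwa [div_le_iff₀ (by positivity)] at this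
  have h4 := Real.quadratic_le_exp_of_nonneg (x := b * n) (by positivity)
  have h5 : a * ((n : ℝ) + 1) ≤ (b * n) ^ 2 / 2 := by
    have h7 : a * ((n : ℝ) + 1) ≤ a * (2 * n) :=
      mul_le_mul_of_nonneg_left (by linarith) ha
    have h6 : 4 * a * n ≤ n * b ^ 2 * n := mul_le_mul_of_nonneg_right h3 (by linarith)
    have h8 : n * b ^ 2 * n = (b * n) ^ 2 := by ring
    linarith
  have : 0 ≤ b * n := by positivity
  linarith

private lemma one_pow (p m : ℕ) (hp : 1 < p) :
    (p : ℝ) ^ m = Real.exp (Real.log p * m) := by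
  have hp0 : (0 : ℝ) < p := by exact_mod_cast (by omega : 0 < p)
  rw [mul_comm, Real.exp_nat_mul, Real.exp_log hp0]

private lemma one_eps (p n k : ℕ) (hp : 1 < p) :
    eps p n k = 2 * Real.exp (Real.log p * (k - n / 2)) := by
  unfold eps
  have hp0 : (0 : ℝ) < p := by exact_mod_cast (by omega : 0 < p)
  have h1 : Real.sqrt p ^ n = Real.exp (Real.log p * (n / 2)) := by
    have h : Real.sqrt p = Real.exp (Real.log p / 2) := by
      rw [Real.sqrt_eq_rpow, Real.rpow_def_of_pos hp0]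
      ring_nf
    rw [h, ← Real.exp_nat_mul]
    ring_nf
  rw [h1, one_pow p k hp, one_pow p n hp, mul_assoc, ← Real.exp_add, mul_div_assoc, ← Real.exp_sub]
  congr 2
  ring

private lemma one_small (p : ℕ) (hp : 1 < p) :
    ∃ n0 : ℕ, ∀ n k : ℕ, n0 ≤ n → (k : ℝ) ≤ 1 / 8 * n →
      4 * k ≤ n ∧ ((k : ℝ) + 1) * eps p n k ≤ Real.exp (-(Real.log p / 4) * n) := by
  have hL : 0 < Real.log p := Real.log_pos (by exact_mod_cast hp)
  obtain ⟨n0, h0⟩ := one_grow 2 (Real.log p / 8) (by norm_num) (by positivity)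
  refine ⟨n0, fun n k hn hk => ⟨?_, ?_⟩⟩
  · have : ((4 * k : ℕ) : ℝ) ≤ n := by
      push_cast
      have : (0 : ℝ) ≤ n := Nat.cast_nonneg n
      linarith
    exact_mod_cast this
  · have hn0 : (0 : ℝ) ≤ n := Nat.cast_nonneg n
    have hk0 : (0 : ℝ) ≤ k := Nat.cast_nonneg k
    rw [one_eps p n k hp]
    have h1 : Real.exp (Real.log p * (k - n / 2)) ≤ Real.exp (-(3 / 8 * Real.log p * n)) := by
      apply Real.exp_le_exp.2
      have : (k : ℝ) - n / 2 ≤ -(3 / 8) * n := by linarith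
      have := mul_le_mul_of_nonneg_left this hL.le
      linarith
    calc ((k : ℝ) + 1) * (2 * Real.exp (Real.log p * (k - n / 2)))
        ≤ ((n : ℝ) + 1) * (2 * Real.exp (-(3 / 8 * Real.log p * n))) := by
          apply mul_le_mul
          · linarith
          · linarith
          · positivity
          · positivity
      _ = (2 * ((n : ℝ) + 1)) * Real.exp (-(3 / 8 * Real.log p * n)) := by ring
      _ ≤ Real.exp (Real.log p / 8 * n) * Real.exp (-(3 / 8 * Real.log p * n)) :=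
          mul_le_mul_of_nonneg_right (h0 n hn) (Real.exp_pos _).le
      _ = Real.exp (-(Real.log p / 4) * n) := by
          rw [← Real.exp_add]
          congr 1
          ring

private lemma one_HC_nonneg {p : ℕ} [Fact p.Prime] {k : ℕ} (C : Matrix (Fin k) (Fin k) (ZMod p)) :
    0 ≤ HC C := Finset.sum_nonneg fun _ _ => ind_nonneg _

private lemma one_D (p n k : ℕ) (hp : 1 < p) :
    (((p : ℝ) ^ n) ^ k / (p : ℝ) ^ (k * (k + 1) / 2)) =
      (((p : ℝ) ^ n) ^ k / (p : ℝ) ^ (k * (k - 1) / 2)) * (1 / (p : ℝ) ^ k) := by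
  have hp0 : (0 : ℝ) < p := by exact_mod_cast (by omega : 0 < p)
  have h : k * (k + 1) / 2 = k * (k - 1) / 2 + k := by
    have := Nat.triangle_succ k
    rw [Nat.add_sub_cancel] at this
    rw [mul_comm k (k + 1)]
    exact this
  rw [h, pow_add]
  field_simp

theorem one_lower {p : ℕ} [Fact p.Prime] (hp : p ≠ 2) :
    ∃ theta : ℝ, 0 < theta ∧ ∃ c : ℝ, 0 < c ∧ ∃ n0 : ℕ, ∀ n k : ℕ, n0 ≤ n → (k : ℝ) ≤ theta * n →
      ∀ C : Matrix (Fin k) (Fin k) (ZMod p),
      (1 - Real.exp (-c * n)) * (HC C / (p : ℝ) ^ k) ≤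
        NC C (0 : Matrix (Fin n) (Fin n) (ZMod p)) / (((p : ℝ) ^ n) ^ k / (p : ℝ) ^ (k * (k - 1) / 2)) := by
  have hp1 : 1 < p := (Fact.out : p.Prime).one_lt
  have hp0 : (0 : ℝ) < p := by exact_mod_cast (by omega : 0 < p)
  have hL : 0 < Real.log p := Real.log_pos (by exact_mod_cast hp1)
  obtain ⟨n0, h0⟩ := one_small p hp1
  refine ⟨1 / 8, by norm_num, Real.log p / 4, by positivity, n0, fun n k hn hk C => ?_⟩
  obtain ⟨h4, hs⟩ := h0 n k hn hk
  have he0 := eps_nonneg p n k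
  have hk0 : (0 : ℝ) ≤ k := Nat.cast_nonneg k
  have hexp1 : Real.exp (-(Real.log p / 4) * n) ≤ 1 := by
    rw [Real.exp_le_one_iff]
    have : 0 ≤ Real.log p / 4 * n := by positivity
    linarith
  have hke : (k : ℝ) * eps p n k ≤ Real.exp (-(Real.log p / 4) * n) := by nlinarith
  have he1 : eps p n k ≤ 1 := by nlinarith
  have hD : 0 < (((p : ℝ) ^ n) ^ k / (p : ℝ) ^ (k * (k - 1) / 2)) := by positivity
  have hH := one_HC_nonneg C
  have h := nc_zero_lower hp n k h4 he1 C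
  rw [le_div_iff₀ hD]
  refine le_trans ?_ h
  rw [one_D p n k hp1]
  have hb : 1 - Real.exp (-(Real.log p / 4) * n) ≤ (1 - eps p n k) ^ k := by
    have := one_add_mul_le_pow (a := -eps p n k) (by linarith) k
    rw [← sub_eq_add_neg] at this
    linarith
  have h1 : (1 - Real.exp (-(Real.log p / 4) * n)) * (HC C / (p : ℝ) ^ k) *
      (((p : ℝ) ^ n) ^ k / (p : ℝ) ^ (k * (k - 1) / 2)) =
      (1 - Real.exp (-(Real.log p / 4) * n)) * (HC C *
      ((((p : ℝ) ^ n) ^ k / (p : ℝ) ^ (k * (k - 1) / 2)) * (1 / (p : ℝ) ^ k))) := by ring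
  rw [h1, mul_assoc ((1 - eps p n k) ^ k)]
  exact mul_le_mul_of_nonneg_right hb (by positivity)

private lemma one_wt_zero (n p : ℕ) [Fact p.Prime] :
    wt (0 : Matrix (Fin n) (Fin n) (ZMod p)) = 0 := by
  unfold wt
  rw [Finset.card_eq_zero, Finset.filter_eq_empty_iff]
  intro e _ h
  exact h rfl

private lemma one_rank {p n : ℕ} [Fact p.Prime] (M : Matrix (Fin n) (Fin n) (ZMod p))
    (h : M.rank = 0) : M = 0 := by
  unfold Matrix.rank at h
  rw [Submodule.finrank_eq_zero, LinearMap.range_eq_bot] at h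
  apply Matrix.toLin'.injective
  rw [Matrix.toLin'_apply', h, map_zero]

/-- the pointwise bound -/
private lemma one_point {p : ℕ} [Fact p.Prime] (hp : p ≠ 2) (c1 : ℝ) (h0 : 0 < c1)
    (n k : ℕ) (hk : 4 * k ≤ n) (C : Matrix (Fin k) (Fin k) (ZMod p))
    (M : Matrix (Fin n) (Fin n) (ZMod p)) :
    c1 ^ wt M * (NC C M / (((p : ℝ) ^ n) ^ k / (p : ℝ) ^ (k * (k - 1) / 2))) ≤
      (1 + eps p n k) ^ k * (HC C / (p : ℝ) ^ k) *
        (ind (M = 0) + ∑ r ∈ Finset.Icc 1 (2 * k), (ind (M.IsSymm ∧ M.rank = r) * c1 ^ wt M) *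
          ((p : ℝ) ^ (4 * k * ((r + 1) / 2)) / ((p : ℝ) ^ n) ^ ((r + 1) / 2))) := by
  have hp1 : 1 < p := (Fact.out : p.Prime).one_lt
  have hp0 : (0 : ℝ) < p := by exact_mod_cast (by omega : 0 < p)
  have hH := one_HC_nonneg C
  have he0 := eps_nonneg p n k
  have hD : 0 < (((p : ℝ) ^ n) ^ k / (p : ℝ) ^ (k * (k - 1) / 2)) := by positivity
  have hterm : ∀ r ∈ Finset.Icc 1 (2 * k), 0 ≤ (ind (M.IsSymm ∧ M.rank = r) * c1 ^ wt M) *
      ((p : ℝ) ^ (4 * k * ((r + 1) / 2)) / ((p : ℝ) ^ n) ^ ((r + 1) / 2)) := by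
    intro r _
    have := ind_nonneg (M.IsSymm ∧ M.rank = r)
    positivity
  have hR0 : 0 ≤ (1 + eps p n k) ^ k * (HC C / (p : ℝ) ^ k) *
        (ind (M = 0) + ∑ r ∈ Finset.Icc 1 (2 * k), (ind (M.IsSymm ∧ M.rank = r) * c1 ^ wt M) *
          ((p : ℝ) ^ (4 * k * ((r + 1) / 2)) / ((p : ℝ) ^ n) ^ ((r + 1) / 2))) := by
    have h1 := ind_nonneg (M = 0)
    have h2 := Finset.sum_nonneg hterm
    have h3 : 0 ≤ 1 + eps p n k := by linarith
    positivity
  by_cases hM0 : M = 0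
  · have h := nc_zero_upper hp n k hk C
    have h1 : NC C M / (((p : ℝ) ^ n) ^ k / (p : ℝ) ^ (k * (k - 1) / 2)) ≤
        (1 + eps p n k) ^ k * (HC C / (p : ℝ) ^ k) := by
      rw [div_le_iff₀ hD, hM0]
      refine h.trans (le_of_eq ?_)
      rw [one_D p n k hp1]
      ring
    have h2 : c1 ^ wt M = 1 := by rw [hM0, one_wt_zero, pow_zero]
    refine (le_of_eq (by rw [h2, one_mul])).trans (h1.trans ?_)
    rw [ind_true hM0]
    have h3 := Finset.sum_nonneg hterm
    have h4 : 0 ≤ (1 + eps p n k) ^ k * (HC C / (p : ℝ) ^ k) := by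
      have h3 : 0 ≤ 1 + eps p n k := by linarith
      positivity
    calc (1 + eps p n k) ^ k * (HC C / (p : ℝ) ^ k)
        = (1 + eps p n k) ^ k * (HC C / (p : ℝ) ^ k) * 1 := (mul_one _).symm
      _ ≤ _ := mul_le_mul_of_nonneg_left (by linarith) h4
  by_cases hsymm : M.IsSymm
  swap
  · rw [nc_symm C M hsymm, zero_div, mul_zero]
    exact hR0
  by_cases hbig : 2 * k < M.rank
  · rw [nc_big C M hbig, zero_div, mul_zero]
    exact hR0
  have hr1 : 1 ≤ M.rank := by
    rw [Nat.one_le_iff_ne_zero]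
    intro h
    exact hM0 (one_rank M h)
  have h := nc_le hp n k hk C M hr1 (by omega)
  have h1 : NC C M / (((p : ℝ) ^ n) ^ k / (p : ℝ) ^ (k * (k - 1) / 2)) ≤
      (1 + eps p n k) ^ k * (HC C / (p : ℝ) ^ k) *
        ((p : ℝ) ^ (4 * k * ((M.rank + 1) / 2)) / ((p : ℝ) ^ n) ^ ((M.rank + 1) / 2)) := by
    rw [div_le_iff₀ hD]
    refine h.trans (le_of_eq ?_)
    rw [one_D p n k hp1]
    ring
  have hc : 0 < c1 ^ wt M := pow_pos h0 _
  have h2 : (ind (M.IsSymm ∧ M.rank = M.rank) * c1 ^ wt M) *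
      ((p : ℝ) ^ (4 * k * ((M.rank + 1) / 2)) / ((p : ℝ) ^ n) ^ ((M.rank + 1) / 2)) ≤
      ∑ r ∈ Finset.Icc 1 (2 * k), (ind (M.IsSymm ∧ M.rank = r) * c1 ^ wt M) *
          ((p : ℝ) ^ (4 * k * ((r + 1) / 2)) / ((p : ℝ) ^ n) ^ ((r + 1) / 2)) :=
    Finset.single_le_sum (f := fun r => (ind (M.IsSymm ∧ M.rank = r) * c1 ^ wt M) *
          ((p : ℝ) ^ (4 * k * ((r + 1) / 2)) / ((p : ℝ) ^ n) ^ ((r + 1) / 2))) hterm
      (Finset.mem_Icc.2 ⟨hr1, by omega⟩)
  rw [ind_true ⟨hsymm, rfl⟩, one_mul] at h2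
  have h4 : 0 ≤ (1 + eps p n k) ^ k * (HC C / (p : ℝ) ^ k) := by
    have h3 : 0 ≤ 1 + eps p n k := by linarith
    positivity
  calc c1 ^ wt M * (NC C M / (((p : ℝ) ^ n) ^ k / (p : ℝ) ^ (k * (k - 1) / 2)))
      ≤ c1 ^ wt M * ((1 + eps p n k) ^ k * (HC C / (p : ℝ) ^ k) *
        ((p : ℝ) ^ (4 * k * ((M.rank + 1) / 2)) / ((p : ℝ) ^ n) ^ ((M.rank + 1) / 2))) :=
        mul_le_mul_of_nonneg_left h1 hc.le
    _ = (1 + eps p n k) ^ k * (HC C / (p : ℝ) ^ k) * (c1 ^ wt M *
        ((p : ℝ) ^ (4 * k * ((M.rank + 1) / 2)) / ((p : ℝ) ^ n) ^ ((M.rank + 1) / 2))) := by ring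
    _ ≤ (1 + eps p n k) ^ k * (HC C / (p : ℝ) ^ k) * (ind (M = 0) +
        ∑ r ∈ Finset.Icc 1 (2 * k), (ind (M.IsSymm ∧ M.rank = r) * c1 ^ wt M) *
          ((p : ℝ) ^ (4 * k * ((r + 1) / 2)) / ((p : ℝ) ^ n) ^ ((r + 1) / 2))) := by
        refine mul_le_mul_of_nonneg_left ?_ h4
        have := ind_nonneg (M = 0)
        linarith

private lemma one_exp_le (x : ℝ) (h0 : 0 ≤ x) (h1 : x ≤ 1 / 2) : Real.exp x ≤ 1 + 2 * x := by
  have h2 := Real.add_one_le_exp (-x)
  have h3 : Real.exp x * Real.exp (-x) = 1 := by rw [← Real.exp_add]; simp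
  have h4 := Real.exp_pos x
  nlinarith

theorem one_upper {p : ℕ} [Fact p.Prime] (hp : p ≠ 2) (c1 : ℝ) (h0 : 0 < c1) (h1 : c1 < 1) :
    ∃ theta : ℝ, 0 < theta ∧ ∃ c : ℝ, 0 < c ∧ ∃ n0 : ℕ, ∀ n k : ℕ, n0 ≤ n → (k : ℝ) ≤ theta * n →
      ∀ C : Matrix (Fin k) (Fin k) (ZMod p),
      (∑ M : Matrix (Fin n) (Fin n) (ZMod p), c1 ^ wt M * (NC C M / (((p : ℝ) ^ n) ^ k / (p : ℝ) ^ (k * (k - 1) / 2)))) ≤
        (1 + Real.exp (-c * n)) * (HC C / (p : ℝ) ^ k) := by
  classical
  have hp1 : 1 < p := (Fact.out : p.Prime).one_lt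
  have hp0 : (0 : ℝ) < p := by exact_mod_cast (by omega : 0 < p)
  have hL : 0 < Real.log p := Real.log_pos (by exact_mod_cast hp1)
  obtain ⟨tau, ht0, ht1, th, hth, n1, hsig⟩ := sigma (F := ZMod p) c1 h0 h1
  obtain ⟨n2, hsmall⟩ := one_small p hp1
  obtain ⟨n3, hg3⟩ := one_grow 1 (Real.log p * tau / 8) (by norm_num) (by positivity)
  obtain ⟨n4, hg4⟩ := one_grow 5 (Real.log p * tau / 16) (by norm_num) (by positivity)
  obtain ⟨n5, hg5⟩ := one_grow 2 (Real.log p / 4) (by norm_num) (by positivity)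
  refine ⟨min (th / 2) (min (tau / 8) (1 / 8)), by positivity, Real.log p * tau / 16, by positivity,
    max (max n1 n2) (max n3 (max n4 n5)), fun n k hn hk C => ?_⟩
  have hn1 : n1 ≤ n := le_trans (le_trans (le_max_left _ _) (le_max_left _ _)) hn
  have hn2 : n2 ≤ n := le_trans (le_trans (le_max_right _ _) (le_max_left _ _)) hn
  have hn3 : n3 ≤ n := le_trans (le_trans (le_max_left _ _) (le_max_right _ _)) hn
  have hn4 : n4 ≤ n := le_trans (le_trans (le_trans (le_max_left _ _) (le_max_right _ _)) (le_max_right _ _)) hn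
  have hn5 : n5 ≤ n := le_trans (le_trans (le_trans (le_max_right _ _) (le_max_right _ _)) (le_max_right _ _)) hn
  have hnn : (0 : ℝ) ≤ n := Nat.cast_nonneg n
  have hkk : (0 : ℝ) ≤ k := Nat.cast_nonneg k
  have hk1 : (k : ℝ) ≤ th / 2 * n := hk.trans (mul_le_mul_of_nonneg_right (min_le_left _ _) hnn)
  have hk2 : (k : ℝ) ≤ tau / 8 * n :=
    hk.trans (mul_le_mul_of_nonneg_right ((min_le_right _ _).trans (min_le_left _ _)) hnn)
  have hk3 : (k : ℝ) ≤ 1 / 8 * n :=
    hk.trans (mul_le_mul_of_nonneg_right ((min_le_right _ _).trans (min_le_right _ _)) hnn)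
  obtain ⟨h4k, hs⟩ := hsmall n k hn2 hk3
  have he0 := eps_nonneg p n k
  have hH := one_HC_nonneg C
  have hA0 : 0 ≤ (1 + eps p n k) ^ k * (HC C / (p : ℝ) ^ k) := by
    have h3 : 0 ≤ 1 + eps p n k := by linarith
    positivity
  -- sum of the pointwise bounds
  have hsum : (∑ M : Matrix (Fin n) (Fin n) (ZMod p), c1 ^ wt M *
      (NC C M / (((p : ℝ) ^ n) ^ k / (p : ℝ) ^ (k * (k - 1) / 2)))) ≤
      (1 + eps p n k) ^ k * (HC C / (p : ℝ) ^ k) *
        (1 + ∑ r ∈ Finset.Icc 1 (2 * k), (∑ M : Matrix (Fin n) (Fin n) (ZMod p),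
          ind (M.IsSymm ∧ M.rank = r) * c1 ^ wt M) *
          ((p : ℝ) ^ (4 * k * ((r + 1) / 2)) / ((p : ℝ) ^ n) ^ ((r + 1) / 2))) := by
    refine (Finset.sum_le_sum fun M _ => one_point hp c1 h0 n k h4k C M).trans (le_of_eq ?_)
    rw [← Finset.mul_sum, Finset.sum_add_distrib, Finset.sum_comm]
    congr 2
    · have : ∀ M : Matrix (Fin n) (Fin n) (ZMod p), ind (M = 0) = if M = 0 then 1 else 0 := by
        intro M
        by_cases h : M = 0
        · rw [ind_true h, if_pos h]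
        · rw [ind_false h, if_neg h]
      rw [Finset.sum_congr rfl fun M _ => this M, Finset.sum_ite_eq' Finset.univ 0,
        if_pos (Finset.mem_univ _)]
    · refine Finset.sum_congr rfl fun r _ => ?_
      rw [Finset.sum_mul]
  -- the terms
  have hr : ∀ r ∈ Finset.Icc 1 (2 * k), (∑ M : Matrix (Fin n) (Fin n) (ZMod p),
      ind (M.IsSymm ∧ M.rank = r) * c1 ^ wt M) *
      ((p : ℝ) ^ (4 * k * ((r + 1) / 2)) / ((p : ℝ) ^ n) ^ ((r + 1) / 2)) ≤
      Real.exp (-(Real.log p * tau / 4) * n) := by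
    intro r hr
    rw [Finset.mem_Icc] at hr
    have hr1 : (1 : ℝ) ≤ r := by exact_mod_cast hr.1
    have hr2 : (r : ℝ) ≤ 2 * k := by exact_mod_cast hr.2
    have h := hsig n r hn1 hr.1 (by linarith)
    rw [ZMod.card] at h
    have hs2 : (r : ℝ) / 2 ≤ ((r + 1) / 2 : ℕ) := by
      have : r ≤ 2 * ((r + 1) / 2) := by omega
      have : (r : ℝ) ≤ 2 * ((r + 1) / 2 : ℕ) := by exact_mod_cast this
      linarith
    have hfrac : ((p : ℝ) ^ (4 * k * ((r + 1) / 2)) / ((p : ℝ) ^ n) ^ ((r + 1) / 2)) ≤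
        Real.exp (Real.log p * ((4 * k - n) * (r / 2))) := by
      rw [one_pow p _ hp1, ← pow_mul, one_pow p (n * _) hp1, ← Real.exp_sub]
      apply Real.exp_le_exp.2
      rw [← mul_sub]
      refine mul_le_mul_of_nonneg_left ?_ hL.le
      push_cast
      have h5 : (4 * (k : ℝ) - n) ≤ 0 := by
        have : ((4 * k : ℕ) : ℝ) ≤ n := by exact_mod_cast h4k
        push_cast at this
        linarith
      have h6 := mul_le_mul_of_nonpos_left hs2 h5
      linarith
    calc _ ≤ (p : ℝ) ^ ((1 - tau) * n * r / 2) * Real.exp (Real.log p * ((4 * k - n) * (r / 2))) :=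
          mul_le_mul h hfrac (by positivity) (by positivity)
      _ = Real.exp (Real.log p * ((4 * k - tau * n) * r / 2)) := by
          rw [Real.rpow_def_of_pos hp0, ← Real.exp_add]
          congr 1
          ring
      _ ≤ Real.exp (-(Real.log p * tau / 4) * n) := by
          apply Real.exp_le_exp.2
          have h7 : (4 * (k : ℝ) - tau * n) * r / 2 ≤ -(tau / 4 * n) := by
            have h8 : 4 * (k : ℝ) - tau * n ≤ -(tau / 2 * n) := by linarith
            have h9 : 0 ≤ tau / 2 * n := by positivity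
            nlinarith
          have := mul_le_mul_of_nonneg_left h7 hL.le
          linarith
  have hsumr : ∑ r ∈ Finset.Icc 1 (2 * k), (∑ M : Matrix (Fin n) (Fin n) (ZMod p),
      ind (M.IsSymm ∧ M.rank = r) * c1 ^ wt M) *
      ((p : ℝ) ^ (4 * k * ((r + 1) / 2)) / ((p : ℝ) ^ n) ^ ((r + 1) / 2)) ≤
      Real.exp (-(Real.log p * tau / 8) * n) := by
    refine (Finset.sum_le_sum hr).trans ?_
    rw [Finset.sum_const, Nat.card_Icc, Nat.add_sub_cancel, nsmul_eq_mul]
    push_cast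
    have h2k : 2 * (k : ℝ) ≤ 1 * ((n : ℝ) + 1) := by linarith
    calc 2 * (k : ℝ) * Real.exp (-(Real.log p * tau / 4) * n)
        ≤ Real.exp (Real.log p * tau / 8 * n) * Real.exp (-(Real.log p * tau / 4) * n) :=
          mul_le_mul_of_nonneg_right (h2k.trans (hg3 n hn3)) (Real.exp_pos _).le
      _ = Real.exp (-(Real.log p * tau / 8) * n) := by
          rw [← Real.exp_add]
          congr 1
          ring
  -- (1+eps)^k
  have ha : Real.exp (-(Real.log p / 4) * n) ≤ 1 / 2 := by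
    have h2 := hg5 n hn5
    have h3 : Real.exp (-(Real.log p / 4) * n) * Real.exp (Real.log p / 4 * n) = 1 := by
      rw [← Real.exp_add]
      have : -(Real.log p / 4) * n + Real.log p / 4 * n = 0 := by ring
      rw [this, Real.exp_zero]
    have h4 := Real.exp_pos (-(Real.log p / 4) * n)
    have h5 : 2 ≤ Real.exp (Real.log p / 4 * n) := by linarith
    nlinarith
  have hpow : (1 + eps p n k) ^ k ≤ 1 + 2 * Real.exp (-(Real.log p / 4) * n) := by
    have hke : (k : ℝ) * eps p n k ≤ Real.exp (-(Real.log p / 4) * n) := by nlinarith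
    have hke0 : 0 ≤ (k : ℝ) * eps p n k := by positivity
    have h2 : (1 + eps p n k) ^ k ≤ Real.exp (k * eps p n k) := by
      rw [Real.exp_nat_mul]
      refine pow_le_pow_left₀ (by linarith) ?_ k
      have := Real.add_one_le_exp (eps p n k)
      linarith
    have h3 := one_exp_le (k * eps p n k) hke0 (hke.trans ha)
    linarith
  have hab : Real.exp (-(Real.log p / 4) * n) ≤ Real.exp (-(Real.log p * tau / 8) * n) := by
    apply Real.exp_le_exp.2
    refine mul_le_mul_of_nonneg_right ?_ hnn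
    nlinarith
  have hb1 : Real.exp (-(Real.log p * tau / 8) * n) ≤ 1 := by
    rw [Real.exp_le_one_iff]
    have : 0 ≤ Real.log p * tau / 8 * n := by positivity
    linarith
  have hb5 : 5 * Real.exp (-(Real.log p * tau / 8) * n) ≤ Real.exp (-(Real.log p * tau / 16) * n) := by
    have h2 : 5 ≤ Real.exp (Real.log p * tau / 16 * n) := by
      have := hg4 n hn4
      linarith
    calc 5 * Real.exp (-(Real.log p * tau / 8) * n)
        ≤ Real.exp (Real.log p * tau / 16 * n) * Real.exp (-(Real.log p * tau / 8) * n) :=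
          mul_le_mul_of_nonneg_right h2 (Real.exp_pos _).le
      _ = Real.exp (-(Real.log p * tau / 16) * n) := by
          rw [← Real.exp_add]
          congr 1
          ring
  have hHp : 0 ≤ HC C / (p : ℝ) ^ k := by positivity
  have ha0 := Real.exp_pos (-(Real.log p / 4) * n)
  have hb0 := Real.exp_pos (-(Real.log p * tau / 8) * n)
  calc _ ≤ _ := hsum
    _ ≤ (1 + eps p n k) ^ k * (HC C / (p : ℝ) ^ k) * (1 + Real.exp (-(Real.log p * tau / 8) * n)) :=
        mul_le_mul_of_nonneg_left (by linarith) hA0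
    _ ≤ (1 + 2 * Real.exp (-(Real.log p / 4) * n)) * (HC C / (p : ℝ) ^ k) *
        (1 + Real.exp (-(Real.log p * tau / 8) * n)) := by
        refine mul_le_mul_of_nonneg_right ?_ (by linarith)
        exact mul_le_mul_of_nonneg_right hpow hHp
    _ = ((1 + 2 * Real.exp (-(Real.log p / 4) * n)) *
        (1 + Real.exp (-(Real.log p * tau / 8) * n))) * (HC C / (p : ℝ) ^ k) := by ring
    _ ≤ (1 + Real.exp (-(Real.log p * tau / 16) * n)) * (HC C / (p : ℝ) ^ k) := by
        refine mul_le_mul_of_nonneg_right ?_ hHp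
        nlinarith

end Pool.H64.IR

end S_ONE

section S_UNI

/-! MODULE UNI (project MP_a758cf_pr, IR; overview: team-store H64_a758cf.md)
Universality. uni: from main1, one_upper, one_lower (for each i, minimum of theta's and c's over the finite ι): with N_i = NC(C_i) 0/D_i, S_i the sum over M,
H_i = HC/p^k >= 0: (1-e^{-cn}) H_i <= N_i <= S_i <= (1+e^{-cn}) H_i, avg <= prod S_i and avg >= 2 prod N_i - prod S_i; (1+x)^t - 1 <= e^{-c' n} etc.
uni_gen: arbitrary finite index types κ_i with card κ_i <= theta n, by reindexing with κ_i ≃ Fin (card κ_i): XC and HC are invariant under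
Matrix.reindex (sum over V reindexed on columns).
-/

set_option autoImplicit false

namespace Pool.H64.IR

open Finset Polynomial

theorem uni_min {ι : Type} [Fintype ι] (f : ι → ℝ) (hf : ∀ i, 0 < f i) :
    ∃ m : ℝ, 0 < m ∧ ∀ i, m ≤ f i := by
  by_cases h : Nonempty ι
  · obtain ⟨i0, h0⟩ := Finite.exists_min f
    exact ⟨f i0, hf i0, h0⟩
  · exact ⟨1, one_pos, fun i => absurd ⟨i⟩ h⟩

theorem uni_pow_le (e : ℝ) (h0 : 0 ≤ e) (h1 : e ≤ 1) (t : ℕ) :
    (1 + e) ^ t ≤ 1 + ((2 : ℝ) ^ t - 1) * e := by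
  induction t with
  | zero => simp
  | succ t ih =>
    have h2 : (1 : ℝ) ≤ 2 ^ t := one_le_pow₀ (by norm_num)
    have h3 : 0 ≤ ((2 : ℝ) ^ t - 1) * e := mul_nonneg (by linarith) h0
    have h4 : ((2 : ℝ) ^ t - 1) * e * e ≤ ((2 : ℝ) ^ t - 1) * e := by
      calc ((2 : ℝ) ^ t - 1) * e * e ≤ ((2 : ℝ) ^ t - 1) * e * 1 := mul_le_mul_of_nonneg_left h1 h3
        _ = _ := mul_one _
    calc (1 + e) ^ (t + 1) = (1 + e) ^ t * (1 + e) := pow_succ _ _
      _ ≤ (1 + ((2 : ℝ) ^ t - 1) * e) * (1 + e) := mul_le_mul_of_nonneg_right ih (by linarith)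
      _ ≤ 1 + ((2 : ℝ) ^ (t + 1) - 1) * e := by
        rw [pow_succ]
        nlinarith

theorem uni_le_pow (e : ℝ) (h1 : e ≤ 1) (t : ℕ) : 1 - t * e ≤ (1 - e) ^ t := by
  have := one_add_mul_le_pow (a := -e) (by linarith) t
  calc 1 - t * e = 1 + t * -e := by ring
    _ ≤ (1 + -e) ^ t := this
    _ = (1 - e) ^ t := by ring

/-- the elementary part: products of numbers close to `H i` -/
theorem uni_prod {ι : Type} [Fintype ι] (N S H : ι → ℝ) (X e : ℝ) (h0 : 0 ≤ e) (h1 : e ≤ 1)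
    (hH : ∀ i, 0 ≤ H i) (hN : ∀ i, (1 - e) * H i ≤ N i) (hNS : ∀ i, N i ≤ S i)
    (hS : ∀ i, S i ≤ (1 + e) * H i)
    (hX : |X - ∏ i, N i| ≤ ∏ i, S i - ∏ i, N i) :
    |X - ∏ i, H i| ≤ (2 * Fintype.card ι + (2 : ℝ) ^ Fintype.card ι) * e * ∏ i, H i := by
  set t := Fintype.card ι with ht
  have hP : 0 ≤ ∏ i, H i := Finset.prod_nonneg fun i _ => hH i
  have hN0 : ∀ i, 0 ≤ N i := fun i =>
    le_trans (mul_nonneg (by linarith) (hH i)) (hN i)
  have hSP : ∏ i, S i ≤ (1 + e) ^ t * ∏ i, H i := by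
    calc ∏ i, S i ≤ ∏ i, ((1 + e) * H i) :=
          Finset.prod_le_prod (fun i _ => (hN0 i).trans (hNS i)) (fun i _ => hS i)
      _ = (1 + e) ^ t * ∏ i, H i := by
          rw [Finset.prod_mul_distrib, Finset.prod_const, Finset.card_univ]
  have hNP : (1 - e) ^ t * ∏ i, H i ≤ ∏ i, N i := by
    calc (1 - e) ^ t * ∏ i, H i = ∏ i, ((1 - e) * H i) := by
          rw [Finset.prod_mul_distrib, Finset.prod_const, Finset.card_univ]
      _ ≤ ∏ i, N i :=
          Finset.prod_le_prod (fun i _ => mul_nonneg (by linarith) (hH i)) (fun i _ => hN i)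
  have h2 := abs_le.1 hX
  have h3 := mul_le_mul_of_nonneg_right (uni_pow_le e h0 h1 t) hP
  have h4 := mul_le_mul_of_nonneg_right (uni_le_pow e h1 t) hP
  have h5 : 0 ≤ (2 * (t : ℝ)) * e * ∏ i, H i :=
    mul_nonneg (mul_nonneg (by positivity) h0) hP
  have h6 : 0 ≤ e * ∏ i, H i := mul_nonneg h0 hP
  rw [abs_le]
  constructor
  · nlinarith
  · nlinarith

theorem uni_NC_nonneg {n : ℕ} {κ : Type} [Fintype κ] [DecidableEq κ] {p : ℕ} [Fact p.Prime]
    (C : Matrix κ κ (ZMod p)) (M : Matrix (Fin n) (Fin n) (ZMod p)) : 0 ≤ NC C M :=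
  Finset.sum_nonneg fun _ _ => ind_nonneg _

theorem uni_HC_nonneg {κ : Type} [Fintype κ] [DecidableEq κ] {p : ℕ} [Fact p.Prime]
    (C : Matrix κ κ (ZMod p)) : 0 ≤ HC C :=
  Finset.sum_nonneg fun _ _ => ind_nonneg _

theorem uni {ι : Type} [Fintype ι] (p : ι → ℕ) [∀ i, Fact (p i).Prime] (hp : ∀ i, p i ≠ 2) (hinj : Function.Injective p) :
    ∃ theta : ℝ, 0 < theta ∧ ∃ c : ℝ, 0 < c ∧ ∃ n0 : ℕ, ∀ n : ℕ, n0 ≤ n → ∀ k : ι → ℕ, (∀ i, (k i : ℝ) ≤ theta * n) →
      ∀ C : ∀ i, Matrix (Fin (k i)) (Fin (k i)) (ZMod (p i)),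
      |avg (fun b : Edge n → Bool => ∏ i, XC (C i) (adj (ZMod (p i)) b)) - ∏ i, (HC (C i) / (p i : ℝ) ^ (k i))| ≤
        Real.exp (-c * n) * ∏ i, (HC (C i) / (p i : ℝ) ^ (k i)) := by
  obtain ⟨c1, hc0, hc1, hmain⟩ := main1 p hp hinj
  choose thU hthU cU hcU n0U hU using fun i => one_upper (p := p i) (hp i) c1 hc0 hc1
  choose thL hthL cL hcL n0L hL using fun i => one_lower (p := p i) (hp i)
  obtain ⟨th1, hth1, hth1'⟩ := uni_min thU hthU
  obtain ⟨th2, hth2, hth2'⟩ := uni_min thL hthL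
  obtain ⟨d1, hd1, hd1'⟩ := uni_min cU hcU
  obtain ⟨d2, hd2, hd2'⟩ := uni_min cL hcL
  set d := min d1 d2 with hd
  have hd0 : 0 < d := lt_min hd1 hd2
  set K : ℝ := 2 * Fintype.card ι + (2 : ℝ) ^ Fintype.card ι with hK
  have hK0 : 0 ≤ K := by positivity
  obtain ⟨n1, hn1⟩ := exists_nat_ge (2 * K / d)
  refine ⟨min th1 th2, lt_min hth1 hth2, d / 2, by positivity,
    max (max (univ.sup n0U) (univ.sup n0L)) n1, ?_⟩
  intro n hn k hk C
  have hnU : ∀ i, n0U i ≤ n := fun i =>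
    le_trans (Finset.le_sup (f := n0U) (mem_univ i))
      (le_trans (le_trans (le_max_left _ _) (le_max_left _ _)) hn)
  have hnL : ∀ i, n0L i ≤ n := fun i =>
    le_trans (Finset.le_sup (f := n0L) (mem_univ i))
      (le_trans (le_trans (le_max_right _ _) (le_max_left _ _)) hn)
  have hn1' : n1 ≤ n := le_trans (le_max_right _ _) hn
  have hnn : (0 : ℝ) ≤ n := Nat.cast_nonneg _
  set e : ℝ := Real.exp (-d * n) with he
  have he0 : 0 ≤ e := (Real.exp_pos _).le
  have he1 : e ≤ 1 := by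
    rw [he]
    exact Real.exp_le_one_iff.2 (by nlinarith)
  have hD : ∀ i, 0 < ((p i : ℝ) ^ n) ^ (k i) / (p i : ℝ) ^ (k i * (k i - 1) / 2) := by
    intro i
    have : (0 : ℝ) < p i := by exact_mod_cast (Fact.out : (p i).Prime).pos
    positivity
  have hH : ∀ i, 0 ≤ HC (C i) / (p i : ℝ) ^ (k i) := fun i =>
    div_nonneg (uni_HC_nonneg _) (by positivity)
  have hkU : ∀ i, (k i : ℝ) ≤ thU i * n := fun i =>
    (hk i).trans (mul_le_mul_of_nonneg_right ((min_le_left _ _).trans (hth1' i)) hnn)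
  have hkL : ∀ i, (k i : ℝ) ≤ thL i * n := fun i =>
    (hk i).trans (mul_le_mul_of_nonneg_right ((min_le_right _ _).trans (hth2' i)) hnn)
  have heU : ∀ i, Real.exp (-cU i * n) ≤ e := by
    intro i
    rw [he]
    apply Real.exp_le_exp.2
    have : d ≤ cU i := (min_le_left _ _).trans (hd1' i)
    nlinarith
  have heL : ∀ i, Real.exp (-cL i * n) ≤ e := by
    intro i
    rw [he]
    apply Real.exp_le_exp.2
    have : d ≤ cL i := (min_le_right _ _).trans (hd2' i)
    nlinarith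
  have key := uni_prod
    (fun i => NC (C i) (0 : Matrix (Fin n) (Fin n) (ZMod (p i))) /
      (((p i : ℝ) ^ n) ^ (k i) / (p i : ℝ) ^ (k i * (k i - 1) / 2)))
    (fun i => ∑ M : Matrix (Fin n) (Fin n) (ZMod (p i)), c1 ^ wt M * (NC (C i) M /
      (((p i : ℝ) ^ n) ^ (k i) / (p i : ℝ) ^ (k i * (k i - 1) / 2))))
    (fun i => HC (C i) / (p i : ℝ) ^ (k i))
    (avg (fun b : Edge n → Bool => ∏ i, XC (C i) (adj (ZMod (p i)) b))) e he0 he1 hH
    (fun i => by
      refine le_trans ?_ (hL i n (k i) (hnL i) (hkL i) (C i))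
      exact mul_le_mul_of_nonneg_right (by linarith [heL i]) (hH i))
    (fun i => by
      have h1 : ∀ M ∈ (univ : Finset (Matrix (Fin n) (Fin n) (ZMod (p i)))),
          0 ≤ c1 ^ wt M * (NC (C i) M /
            (((p i : ℝ) ^ n) ^ (k i) / (p i : ℝ) ^ (k i * (k i - 1) / 2))) := fun M _ =>
        mul_nonneg (pow_nonneg hc0.le _) (div_nonneg (uni_NC_nonneg _ _) (hD i).le)
      refine le_trans (le_of_eq ?_) (Finset.single_le_sum h1
        (mem_univ (0 : Matrix (Fin n) (Fin n) (ZMod (p i)))))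
      have h2 : wt (0 : Matrix (Fin n) (Fin n) (ZMod (p i))) = 0 := by
        unfold wt
        simp
      rw [h2, pow_zero, one_mul])
    (fun i => by
      refine le_trans (hU i n (k i) (hnU i) (hkU i) (C i)) ?_
      exact mul_le_mul_of_nonneg_right (by linarith [heU i]) (hH i))
    (hmain n k C)
  refine key.trans ?_
  refine mul_le_mul_of_nonneg_right ?_ (Finset.prod_nonneg fun i _ => hH i)
  have h7 : K ≤ Real.exp (d / 2 * n) := by
    have h8 : K ≤ d / 2 * n := by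
      have h9 : 2 * K / d ≤ n := hn1.trans (by exact_mod_cast hn1')
      rw [div_le_iff₀ hd0] at h9
      linarith
    exact h8.trans (le_trans (by linarith) (Real.add_one_le_exp (d / 2 * n)))
  calc K * e ≤ Real.exp (d / 2 * n) * e := mul_le_mul_of_nonneg_right h7 he0
    _ = Real.exp (-(d / 2) * n) := by
      rw [he, ← Real.exp_add]
      congr 1
      ring

theorem uni_XC_reindex {n : ℕ} {κ κ' : Type} [Fintype κ] [DecidableEq κ] [Fintype κ']
    [DecidableEq κ'] {p : ℕ} [Fact p.Prime] (e : κ ≃ κ') (C : Matrix κ κ (ZMod p))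
    (A : Matrix (Fin n) (Fin n) (ZMod p)) : XC (Matrix.reindex e e C) A = XC C A := by
  unfold XC
  symm
  refine Fintype.sum_equiv (Matrix.reindex (Equiv.refl (Fin n)) e) _ _ fun V => ind_congr ?_
  refine and_congr ?_ ?_
  · unfold FullRank
    have h := linearIndependent_equiv (R := ZMod p) e.symm
      (f := fun a : κ => fun i : Fin n => V i a)
    exact h.symm
  · have h1 : A * (Matrix.reindex (Equiv.refl (Fin n)) e V) =
        Matrix.reindex (Equiv.refl (Fin n)) e (A * V) := by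
      ext i j
      simp [Matrix.mul_apply]
    have h2 : (Matrix.reindex (Equiv.refl (Fin n)) e V) * (Matrix.reindex e e C) =
        Matrix.reindex (Equiv.refl (Fin n)) e (V * C) := by
      simp only [Matrix.reindex_apply, Matrix.submatrix_mul_equiv]
    rw [h1, h2]
    exact (Matrix.reindex (Equiv.refl (Fin n)) e).injective.eq_iff.symm

theorem uni_symm_reindex {κ κ' : Type} {F : Type} (e : κ ≃ κ') (S : Matrix κ κ F) :
    (Matrix.reindex e e S).IsSymm ↔ S.IsSymm := by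
  constructor
  · intro h
    ext i j
    have := h.apply (e i) (e j)
    simpa using this
  · intro h
    ext i j
    have := h.apply (e.symm i) (e.symm j)
    simpa using this

theorem uni_HC_reindex {κ κ' : Type} [Fintype κ] [DecidableEq κ] [Fintype κ']
    [DecidableEq κ'] {p : ℕ} [Fact p.Prime] (e : κ ≃ κ') (C : Matrix κ κ (ZMod p)) :
    HC (Matrix.reindex e e C) = HC C := by
  unfold HC
  symm
  refine Fintype.sum_equiv (Matrix.reindex e e) _ _ fun S => ind_congr ?_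
  have h2 : (Matrix.reindex e e S) * (Matrix.reindex e e C) = Matrix.reindex e e (S * C) := by
    simp only [Matrix.reindex_apply, Matrix.submatrix_mul_equiv]
  rw [h2, uni_symm_reindex, uni_symm_reindex]

theorem uni_gen {ι : Type} [Fintype ι] (p : ι → ℕ) [∀ i, Fact (p i).Prime] (hp : ∀ i, p i ≠ 2) (hinj : Function.Injective p) :
    ∃ theta : ℝ, 0 < theta ∧ ∃ c : ℝ, 0 < c ∧ ∃ n0 : ℕ, ∀ n : ℕ, n0 ≤ n → ∀ (κ : ι → Type) [∀ i, Fintype (κ i)] [∀ i, DecidableEq (κ i)],
      (∀ i, (Fintype.card (κ i) : ℝ) ≤ theta * n) →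
      ∀ C : ∀ i, Matrix (κ i) (κ i) (ZMod (p i)),
      |avg (fun b : Edge n → Bool => ∏ i, XC (C i) (adj (ZMod (p i)) b)) - ∏ i, (HC (C i) / (p i : ℝ) ^ Fintype.card (κ i))| ≤
        Real.exp (-c * n) * ∏ i, (HC (C i) / (p i : ℝ) ^ Fintype.card (κ i)) := by
  obtain ⟨theta, hth, c, hc, n0, h⟩ := uni p hp hinj
  refine ⟨theta, hth, c, hc, n0, ?_⟩
  intro n hn κ _ _ hk C
  have h1 := h n hn (fun i => Fintype.card (κ i)) hk
    (fun i => Matrix.reindex (Fintype.equivFin (κ i)) (Fintype.equivFin (κ i)) (C i))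
  simp only [uni_XC_reindex, uni_HC_reindex] at h1
  exact h1

end Pool.H64.IR

end S_UNI

section S_X1U

/-! MODULE X1U (project MP_a758cf_pr, IR; overview: team-store H64_a758cf.md)
Single prime: avg X1 f (adj b) <= 2 for every monic f of degree <= theta n (uni with one prime, cmp1, hcm1).
-/

set_option autoImplicit false

namespace Pool.H64.IR

open Finset Polynomial

theorem x1_avg {p : ℕ} [Fact p.Prime] (hp : p ≠ 2) :
    ∃ theta : ℝ, 0 < theta ∧ ∃ n0 : ℕ, ∀ n : ℕ, n0 ≤ n → ∀ f : (ZMod p)[X], f.Monic → (f.natDegree : ℝ) ≤ theta * n →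
      avg (fun b : Edge n → Bool => X1 f (adj (ZMod p) b)) ≤ 2 := by
  obtain ⟨theta, hth, c, hc, n0, h⟩ := uni_gen (ι := Unit) (fun _ => p) (fun _ => hp)
    (fun a b _ => Subsingleton.elim a b)
  refine ⟨theta, hth, n0, fun n hn f hf hdeg => ?_⟩
  have h1 := h n hn (fun _ => Fin f.natDegree) (fun _ => by rw [Fintype.card_fin]; exact hdeg)
    (fun _ => comp f)
  have hp0 : (0 : ℝ) < (p : ℝ) ^ f.natDegree :=
    pow_pos (by exact_mod_cast (Fact.out : p.Prime).pos) _
  simp only [Finset.univ_unique, Finset.prod_singleton, cmp1 f hf, hcm1 f hf, Fintype.card_fin,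
    div_self hp0.ne', mul_one] at h1
  have h2 : Real.exp (-c * n) ≤ 1 := by
    rw [Real.exp_le_one_iff]
    have : (0 : ℝ) ≤ n := Nat.cast_nonneg n
    nlinarith
  have h3 := (abs_le.1 h1).2
  linarith

end Pool.H64.IR

end S_X1U

section S_REE

/-! MODULE REE (project MP_a758cf_pr, IR; overview: team-store H64_a758cf.md)
The key estimate (RE). For families s_i of finite sets of monic irreducible polynomials over ZMod p_i with total degree <= theta n:
| avg prod_i prod_{g in s_i} BB g (adj b) - prod_i prod_{g in s_i} beta g | <= (2 sum_i sum_{g in s_i} beta g + e^{-cn}) prod prod beta.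
Proof. (1) uni_gen/uni with C_i = comp (prod s_i) (size = sum of degrees): XC = X1 (prod s_i) = prod (kerc - 1) (cmp1, x1_prod), HC/p^k = 1 (hcm1), so dividing by
prod (q_g - 1): avg prod prod ZZ g = (1 +- e^{-cn}) prod prod beta.
(2) for i0, g0 in s_i0: uni_gen with the i0 block replaced by fromBlocks (comp (prod s_i0)) 0 0 (comp g0) (size <= 2 theta n): by cmp2, hcm2
avg [prod prod ZZ * (kerc g0 - q0)] <= (1 + e^{-cn}) q0 prod prod beta   (HC/p^(k+d) <= p^d = q0).
(3) telescoping: 0 <= prod ZZ - prod BB <= sum_{i0,g0} (ZZ g0 - BB g0) prod_{others} ZZ <= sum prod_{all} ZZ (kerc g0 - q0)/(q0(q0-1)) (0 <= BB <= ZZ, BB <= 1; lemma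
prod z - prod b <= sum_a (z_a - b_a) prod_{others} z). Average: <= 2 sum beta g0 * prod beta (1+e^{-cn} <= 2).
-/

set_option autoImplicit false

namespace Pool.H64.IR

open Finset Polynomial

/-- `XC` is invariant under reindexing. -/
lemma ree_xc_reindex {n : ℕ} {κ κ' : Type} [Fintype κ] [DecidableEq κ] [Fintype κ'] [DecidableEq κ']
    {p : ℕ} [Fact p.Prime] (e : κ ≃ κ') (C : Matrix κ κ (ZMod p)) (A : Matrix (Fin n) (Fin n) (ZMod p)) :
    XC (C.submatrix e.symm e.symm) A = XC C A := by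
  unfold XC
  refine Fintype.sum_equiv (Matrix.reindex (Equiv.refl (Fin n)) e.symm) _ _ (fun V => ?_)
  apply ind_congr
  have h1 : FullRank (Matrix.reindex (Equiv.refl (Fin n)) e.symm V) ↔ FullRank V := by
    unfold FullRank
    have := linearIndependent_equiv (R := ZMod p) e (f := fun a : κ' => fun i : Fin n => V i a)
    rw [← this]
    rfl
  rw [h1]
  refine and_congr Iff.rfl ?_
  have h2 : V = (Matrix.reindex (Equiv.refl (Fin n)) e.symm V).submatrix id e.symm := by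
    ext i j; simp
  set W := Matrix.reindex (Equiv.refl (Fin n)) e.symm V with hW
  rw [h2]
  have h3 : A * W.submatrix id e.symm = (A * W).submatrix id e.symm := by
    ext i j; simp [Matrix.mul_apply]
  have h4 : W.submatrix id e.symm * C.submatrix e.symm e.symm = (W * C).submatrix id e.symm := by
    rw [← Matrix.submatrix_mul_equiv W C id e.symm e.symm]
  rw [h3, h4]
  constructor
  · intro h
    ext i j
    have := congrFun (congrFun h i) (e j)
    simpa using this
  · intro h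
    rw [h]

/-- `HC` is invariant under reindexing. -/
lemma ree_hc_reindex {κ κ' : Type} [Fintype κ] [DecidableEq κ] [Fintype κ'] [DecidableEq κ']
    {p : ℕ} [Fact p.Prime] (e : κ ≃ κ') (C : Matrix κ κ (ZMod p)) :
    HC (C.submatrix e.symm e.symm) = HC C := by
  unfold HC
  refine Fintype.sum_equiv (Matrix.reindex e.symm e.symm) _ _ (fun S => ?_)
  apply ind_congr
  have h2 : S = (Matrix.reindex e.symm e.symm S).submatrix e.symm e.symm := by
    ext i j; simp
  set W := Matrix.reindex e.symm e.symm S with hW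
  rw [h2]
  have hs : ∀ M : Matrix κ κ (ZMod p), (M.submatrix e.symm e.symm).IsSymm ↔ M.IsSymm := by
    intro M
    constructor
    · intro h
      ext i j
      have := congrFun (congrFun h (e i)) (e j)
      simpa [Matrix.IsSymm, Matrix.transpose] using this
    · intro h
      exact h.submatrix _
  rw [Matrix.submatrix_mul_equiv W C e.symm e.symm e.symm, hs, hs]

/-- telescoping inequality -/
lemma ree_tel {α : Type} [DecidableEq α] (T : Finset α) (z b : α → ℝ) (h0 : ∀ a ∈ T, 0 ≤ b a)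
    (h1 : ∀ a ∈ T, b a ≤ z a) :
    (∏ a ∈ T, z a) - ∏ a ∈ T, b a ≤ ∑ a ∈ T, (z a - b a) * ∏ x ∈ T.erase a, z x := by
  induction T using Finset.induction_on with
  | empty => simp
  | insert a T ha ih =>
    have h0' : ∀ x ∈ T, 0 ≤ b x := fun x hx => h0 x (Finset.mem_insert_of_mem hx)
    have h1' : ∀ x ∈ T, b x ≤ z x := fun x hx => h1 x (Finset.mem_insert_of_mem hx)
    have hb : 0 ≤ b a := h0 a (Finset.mem_insert_self _ _)
    have hz : b a ≤ z a := h1 a (Finset.mem_insert_self _ _)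
    have IH := ih h0' h1'
    rw [Finset.prod_insert ha, Finset.prod_insert ha, Finset.sum_insert ha, Finset.erase_insert ha]
    have hsum : ∑ x ∈ T, (z x - b x) * ∏ y ∈ (insert a T).erase x, z y =
        z a * ∑ x ∈ T, (z x - b x) * ∏ y ∈ T.erase x, z y := by
      rw [Finset.mul_sum]
      refine Finset.sum_congr rfl (fun x hx => ?_)
      have hne : a ≠ x := fun h => ha (h ▸ hx)
      rw [Finset.erase_insert_of_ne hne, Finset.prod_insert (fun h => ha (Finset.mem_of_mem_erase h))]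
      ring
    rw [hsum]
    have hS : 0 ≤ ∑ x ∈ T, (z x - b x) * ∏ y ∈ T.erase x, z y := by
      refine Finset.sum_nonneg (fun x hx => mul_nonneg (sub_nonneg.2 (h1' x hx)) ?_)
      exact Finset.prod_nonneg (fun y hy => le_trans (h0' y (Finset.mem_of_mem_erase hy)) (h1' y (Finset.mem_of_mem_erase hy)))
    have hBZ : ∏ x ∈ T, b x ≤ ∏ x ∈ T, z x := Finset.prod_le_prod h0' h1'
    have h5 : b a * ((∏ x ∈ T, z x) - ∏ x ∈ T, b x) ≤ z a * ∑ x ∈ T, (z x - b x) * ∏ y ∈ T.erase x, z y :=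
      mul_le_mul hz IH (sub_nonneg.2 hBZ) (le_trans hb hz)
    nlinarith [h5]

section aux

variable {p : ℕ} [Fact p.Prime]

/-- `q = p ^ deg g > 1` -/
lemma ree_q (g : (ZMod p)[X]) (hi : Irreducible g) : (1 : ℝ) < (p : ℝ) ^ g.natDegree := by
  have hp : (1 : ℝ) < p := by exact_mod_cast (Fact.out : p.Prime).one_lt
  exact one_lt_pow₀ hp (hi.natDegree_pos).ne'

lemma ree_beta_pos (g : (ZMod p)[X]) (hi : Irreducible g) : 0 < beta g := by
  unfold beta
  exact div_pos one_pos (sub_pos.2 (ree_q g hi))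

lemma ree_kerc (g : (ZMod p)[X]) (hi : Irreducible g) {n : ℕ} (A : Matrix (Fin n) (Fin n) (ZMod p)) :
    kerc g A - 1 = ZZ g A * ((p : ℝ) ^ g.natDegree - 1) := by
  unfold ZZ
  rw [div_mul_cancel₀]
  exact (sub_pos.2 (ree_q g hi)).ne'

/-- the product over a finite set in terms of `ZZ` -/
lemma ree_x1 (s : Finset (ZMod p)[X]) (hs : ∀ g ∈ s, g.Monic ∧ Irreducible g) {n : ℕ}
    (A : Matrix (Fin n) (Fin n) (ZMod p)) :
    X1 (∏ g ∈ s, g) A = (∏ g ∈ s, ZZ g A) * ∏ g ∈ s, ((p : ℝ) ^ g.natDegree - 1) := by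
  rw [x1_prod s hs A, ← Finset.prod_mul_distrib]
  exact Finset.prod_congr rfl (fun g hg => ree_kerc g (hs g hg).2 A)

lemma ree_monic (s : Finset (ZMod p)[X]) (hs : ∀ g ∈ s, g.Monic ∧ Irreducible g) : (∏ g ∈ s, g).Monic :=
  Polynomial.monic_prod_of_monic _ _ (fun g hg => (hs g hg).1)

lemma ree_deg (s : Finset (ZMod p)[X]) (hs : ∀ g ∈ s, g.Monic ∧ Irreducible g) :
    (∏ g ∈ s, g).natDegree = ∑ g ∈ s, g.natDegree :=
  Polynomial.natDegree_prod_of_monic _ _ (fun g hg => (hs g hg).1)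

/-- the block matrix used for the second moment -/
lemma ree_one_xc {n : ℕ} (f : (ZMod p)[X]) (A : Matrix (Fin n) (Fin n) (ZMod p)) :
    XC (Matrix.fromBlocks (comp f) 0 0 (comp (1 : (ZMod p)[X]))) A = XC (comp f) A := by
  have : IsEmpty (Fin (1 : (ZMod p)[X]).natDegree) := by rw [Polynomial.natDegree_one]; infer_instance
  rw [← ree_xc_reindex (Equiv.sumEmpty (Fin f.natDegree) (Fin (1 : (ZMod p)[X]).natDegree))
    (Matrix.fromBlocks (comp f) 0 0 (comp (1 : (ZMod p)[X]))) A]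
  congr 1

lemma ree_one_hc (f : (ZMod p)[X]) :
    HC (Matrix.fromBlocks (comp f) 0 0 (comp (1 : (ZMod p)[X]))) = HC (comp f) := by
  have : IsEmpty (Fin (1 : (ZMod p)[X]).natDegree) := by rw [Polynomial.natDegree_one]; infer_instance
  rw [← ree_hc_reindex (Equiv.sumEmpty (Fin f.natDegree) (Fin (1 : (ZMod p)[X]).natDegree))
    (Matrix.fromBlocks (comp f) 0 0 (comp (1 : (ZMod p)[X])))]
  congr 1

end aux

theorem ree {ι : Type} [Fintype ι] (p : ι → ℕ) [∀ i, Fact (p i).Prime] (hp : ∀ i, p i ≠ 2) (hinj : Function.Injective p) :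
    ∃ theta : ℝ, 0 < theta ∧ ∃ c : ℝ, 0 < c ∧ ∃ n0 : ℕ, ∀ n : ℕ, n0 ≤ n →
      ∀ s : ∀ i, Finset (ZMod (p i))[X], (∀ i, ∀ g ∈ s i, g.Monic ∧ Irreducible g) →
      (∀ i, ((∑ g ∈ s i, g.natDegree : ℕ) : ℝ) ≤ theta * n) →
      |avg (fun b : Edge n → Bool => ∏ i, ∏ g ∈ s i, BB g (adj (ZMod (p i)) b)) - ∏ i, ∏ g ∈ s i, beta g| ≤
        (2 * (∑ i, ∑ g ∈ s i, beta g) + Real.exp (-c * n)) * ∏ i, ∏ g ∈ s i, beta g := by
  classical
  obtain ⟨θ, hθ, c, hc, n0, H⟩ := uni_gen p hp hinj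
  refine ⟨θ / 2, by positivity, c, hc, n0, ?_⟩
  intro n hn s hs hdeg
  set E := Real.exp (-c * n) with hE
  have hE0 : 0 < E := Real.exp_pos _
  have hE1 : E ≤ 1 := by
    rw [hE]
    apply Real.exp_le_one_iff.2
    have : (0 : ℝ) ≤ n := Nat.cast_nonneg n
    nlinarith
  have hθn : 0 ≤ θ * n := by positivity
  have hf : ∀ i, (∏ g ∈ s i, g).Monic := fun i => ree_monic (s i) (hs i)
  have hfd : ∀ i, (∏ g ∈ s i, g).natDegree = ∑ g ∈ s i, g.natDegree := fun i => ree_deg (s i) (hs i)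
  have hq1 : ∀ i, ∀ g ∈ s i, (0 : ℝ) < (p i : ℝ) ^ g.natDegree - 1 := fun i g hg => sub_pos.2 (ree_q g (hs i g hg).2)
  set Q : ℝ := ∏ i, ∏ g ∈ s i, ((p i : ℝ) ^ g.natDegree - 1) with hQdef
  have hQ : 0 < Q := Finset.prod_pos (fun i _ => Finset.prod_pos (fun g hg => hq1 i g hg))
  set Bt : ℝ := ∏ i, ∏ g ∈ s i, beta g with hBt
  have hBtQ : Bt * Q = 1 := by
    rw [hBt, hQdef, ← Finset.prod_mul_distrib]
    refine Finset.prod_eq_one (fun i _ => ?_)
    rw [← Finset.prod_mul_distrib]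
    refine Finset.prod_eq_one (fun g hg => ?_)
    unfold beta
    exact div_mul_cancel₀ _ (hq1 i g hg).ne'
  have hBt0 : 0 < Bt := Finset.prod_pos (fun i _ => Finset.prod_pos (fun g hg => ree_beta_pos g (hs i g hg).2))
  have hHC1 : ∀ i, HC (comp (∏ g ∈ s i, g)) / (p i : ℝ) ^ (∏ g ∈ s i, g).natDegree = 1 := by
    intro i
    rw [hcm1 _ (hf i)]
    apply div_self
    have : (0 : ℝ) < p i := by exact_mod_cast (Fact.out : (p i).Prime).pos
    positivity
  set P : (Edge n → Bool) → ℝ := fun b => ∏ i, ∏ g ∈ s i, ZZ g (adj (ZMod (p i)) b) with hP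
  -- step 1
  have s1 : |avg P - Bt| ≤ E * Bt := by
    have h := H n hn (fun i => Fin (∏ g ∈ s i, g).natDegree) (by
      intro i
      rw [Fintype.card_fin, hfd i]
      refine (hdeg i).trans ?_
      linarith) (fun i => comp (∏ g ∈ s i, g))
    simp only [Fintype.card_fin, hHC1, Finset.prod_const_one] at h
    have e1 : (fun b : Edge n → Bool => ∏ i, XC (comp (∏ g ∈ s i, g)) (adj (ZMod (p i)) b)) = fun b => P b * Q := by
      funext b
      rw [hP, hQdef, ← Finset.prod_mul_distrib]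
      refine Finset.prod_congr rfl (fun i _ => ?_)
      rw [cmp1 _ (hf i), ree_x1 (s i) (hs i)]
    rw [e1, avg_mul_const] at h
    have e2 : avg P - Bt = (avg P * Q - 1) * Bt := by
      have : (avg P * Q - 1) * Bt = avg P * (Bt * Q) - Bt := by ring
      rw [this, hBtQ, mul_one]
    rw [e2, abs_mul, abs_of_pos hBt0]
    exact mul_le_mul_of_nonneg_right (by rw [mul_one] at h; exact h) hBt0.le
  -- step 2
  have s2 : ∀ i0 : ι, ∀ g0 ∈ s i0,
      avg (fun b : Edge n → Bool => P b * (kerc g0 (adj (ZMod (p i0)) b) - (p i0 : ℝ) ^ g0.natDegree)) ≤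
        2 * (p i0 : ℝ) ^ g0.natDegree * Bt := by
    intro i0 g0 hg0
    have hg0m := hs i0 g0 hg0
    have hq0 : (0 : ℝ) < (p i0 : ℝ) ^ g0.natDegree := by
      have := ree_q g0 hg0m.2
      linarith
    set h : ∀ i, (ZMod (p i))[X] := Function.update (fun i => (1 : (ZMod (p i))[X])) i0 g0 with hh
    have hh0 : h i0 = g0 := by rw [hh]; exact Function.update_self _ _ _
    have hh1 : ∀ i, i ≠ i0 → h i = 1 := by
      intro i hi
      rw [hh, Function.update_of_ne hi]
    have hmain := H n hn (fun i => Fin (∏ g ∈ s i, g).natDegree ⊕ Fin (h i).natDegree) (by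
      intro i
      have hle : (h i).natDegree ≤ ∑ g ∈ s i, g.natDegree := by
        by_cases hi : i = i0
        · subst hi
          rw [hh0]
          exact Finset.single_le_sum (f := fun g : (ZMod (p i))[X] => g.natDegree) (fun g _ => Nat.zero_le _) hg0
        · rw [hh1 i hi, Polynomial.natDegree_one]
          exact Nat.zero_le _
      rw [Fintype.card_sum, Fintype.card_fin, Fintype.card_fin, hfd i]
      have h2 := hdeg i
      have h3 : ((h i).natDegree : ℝ) ≤ ((∑ g ∈ s i, g.natDegree : ℕ) : ℝ) := by exact_mod_cast hle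
      rw [Nat.cast_add]
      linarith) (fun i => Matrix.fromBlocks (comp (∏ g ∈ s i, g)) 0 0 (comp (h i)))
    -- the main term
    have hHC : ∏ i, (HC (Matrix.fromBlocks (comp (∏ g ∈ s i, g)) 0 0 (comp (h i))) /
        (p i : ℝ) ^ Fintype.card (Fin (∏ g ∈ s i, g).natDegree ⊕ Fin (h i).natDegree)) ≤ (p i0 : ℝ) ^ g0.natDegree := by
      rw [← Finset.mul_prod_erase _ _ (Finset.mem_univ i0)]
      have e1 : ∏ i ∈ Finset.univ.erase i0, (HC (Matrix.fromBlocks (comp (∏ g ∈ s i, g)) 0 0 (comp (h i))) /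
        (p i : ℝ) ^ Fintype.card (Fin (∏ g ∈ s i, g).natDegree ⊕ Fin (h i).natDegree)) = 1 := by
        refine Finset.prod_eq_one (fun i hi => ?_)
        rw [hh1 i (Finset.ne_of_mem_erase hi), ree_one_hc, Fintype.card_sum, Fintype.card_fin, Fintype.card_fin,
          Polynomial.natDegree_one, add_zero]
        exact hHC1 i
      rw [e1, mul_one, hh0, Fintype.card_sum, Fintype.card_fin, Fintype.card_fin]
      have hpp : (0 : ℝ) < p i0 := by exact_mod_cast (Fact.out : (p i0).Prime).pos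
      rw [div_le_iff₀ (by positivity)]
      refine (hcm2 _ _ (hf i0) hg0m.1).trans (le_of_eq ?_)
      rw [← pow_add]
      congr 1
      ring
    have hXC : (fun b : Edge n → Bool => ∏ i, XC (Matrix.fromBlocks (comp (∏ g ∈ s i, g)) 0 0 (comp (h i))) (adj (ZMod (p i)) b)) =
        fun b => (P b * (kerc g0 (adj (ZMod (p i0)) b) - (p i0 : ℝ) ^ g0.natDegree)) * Q := by
      funext b
      have e1 : ∏ i, XC (Matrix.fromBlocks (comp (∏ g ∈ s i, g)) 0 0 (comp (h i))) (adj (ZMod (p i)) b) =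
          (∏ i, X1 (∏ g ∈ s i, g) (adj (ZMod (p i)) b)) * (kerc g0 (adj (ZMod (p i0)) b) - (p i0 : ℝ) ^ g0.natDegree) := by
        rw [← Finset.mul_prod_erase _ _ (Finset.mem_univ i0), ← Finset.mul_prod_erase _ (fun i => X1 (∏ g ∈ s i, g) (adj (ZMod (p i)) b)) (Finset.mem_univ i0)]
        rw [hh0, cmp2 (s i0) (hs i0) g0 hg0]
        have e2 : ∏ i ∈ Finset.univ.erase i0, XC (Matrix.fromBlocks (comp (∏ g ∈ s i, g)) 0 0 (comp (h i))) (adj (ZMod (p i)) b) =
            ∏ i ∈ Finset.univ.erase i0, X1 (∏ g ∈ s i, g) (adj (ZMod (p i)) b) := by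
          refine Finset.prod_congr rfl (fun i hi => ?_)
          rw [hh1 i (Finset.ne_of_mem_erase hi), ree_one_xc, cmp1 _ (hf i)]
        rw [e2]
        ring
      have e3 : ∏ i, X1 (∏ g ∈ s i, g) (adj (ZMod (p i)) b) = P b * Q := by
        rw [hP, hQdef, ← Finset.prod_mul_distrib]
        refine Finset.prod_congr rfl (fun i _ => ?_)
        rw [ree_x1 (s i) (hs i)]
      rw [e1, e3]
      ring
    rw [hXC, avg_mul_const] at hmain
    set M := ∏ i, (HC (Matrix.fromBlocks (comp (∏ g ∈ s i, g)) 0 0 (comp (h i))) /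
        (p i : ℝ) ^ Fintype.card (Fin (∏ g ∈ s i, g).natDegree ⊕ Fin (h i).natDegree)) with hM
    have hM0 : 0 ≤ M := by
      have : 0 ≤ E * M := le_trans (abs_nonneg _) hmain
      exact nonneg_of_mul_nonneg_right this hE0
    have h5 := (abs_le.1 hmain).2
    have h6 : avg (fun b : Edge n → Bool => P b * (kerc g0 (adj (ZMod (p i0)) b) - (p i0 : ℝ) ^ g0.natDegree)) * Q ≤
        2 * (p i0 : ℝ) ^ g0.natDegree := by nlinarith
    calc avg (fun b : Edge n → Bool => P b * (kerc g0 (adj (ZMod (p i0)) b) - (p i0 : ℝ) ^ g0.natDegree))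
        = (avg (fun b : Edge n → Bool => P b * (kerc g0 (adj (ZMod (p i0)) b) - (p i0 : ℝ) ^ g0.natDegree)) * Q) * Bt := by
          rw [mul_assoc, mul_comm Q Bt, hBtQ, mul_one]
      _ ≤ 2 * (p i0 : ℝ) ^ g0.natDegree * Bt := mul_le_mul_of_nonneg_right h6 hBt0.le
  -- step 3
  set T : Finset (Σ i, (ZMod (p i))[X]) := Finset.univ.sigma s with hT
  have hTmem : ∀ a ∈ T, a.2 ∈ s a.1 := fun a ha => (Finset.mem_sigma.1 ha).2
  have s3 : ∀ b : Edge n → Bool, P b - ∏ i, ∏ g ∈ s i, BB g (adj (ZMod (p i)) b) ≤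
      ∑ a ∈ T, (P b * (kerc a.2 (adj (ZMod (p a.1)) b) - (p a.1 : ℝ) ^ a.2.natDegree)) *
        (1 / ((p a.1 : ℝ) ^ a.2.natDegree * ((p a.1 : ℝ) ^ a.2.natDegree - 1))) := by
    intro b
    have hz : P b = ∏ a ∈ T, ZZ a.2 (adj (ZMod (p a.1)) b) := by
      rw [hP, hT, Finset.prod_sigma]
    have hbb : ∏ i, ∏ g ∈ s i, BB g (adj (ZMod (p i)) b) = ∏ a ∈ T, BB a.2 (adj (ZMod (p a.1)) b) := by
      rw [hT, Finset.prod_sigma]
    rw [hbb]
    have htel := ree_tel T (fun a => ZZ a.2 (adj (ZMod (p a.1)) b)) (fun a => BB a.2 (adj (ZMod (p a.1)) b))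
      (fun a _ => ind_nonneg _) (fun a ha => bb_le_zz a.2 (hs a.1 a.2 (hTmem a ha)).1 (hs a.1 a.2 (hTmem a ha)).2 _)
    rw [← hz] at htel
    refine htel.trans (Finset.sum_le_sum (fun a ha => ?_))
    have ham := hs a.1 a.2 (hTmem a ha)
    have hrest : 0 ≤ ∏ x ∈ T.erase a, ZZ x.2 (adj (ZMod (p x.1)) b) :=
      Finset.prod_nonneg (fun x hx => by
        have hxm := hs x.1 x.2 (hTmem x (Finset.mem_of_mem_erase hx))
        exact zz_nonneg x.2 hxm.1 hxm.2 _)
    refine (mul_le_mul_of_nonneg_right (zz_sub_bb a.2 ham.1 ham.2 (adj (ZMod (p a.1)) b)) hrest).trans (le_of_eq ?_)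
    rw [hz, ← Finset.mul_prod_erase _ _ ha]
    ring
  have s4 : 0 ≤ avg P - avg (fun b : Edge n → Bool => ∏ i, ∏ g ∈ s i, BB g (adj (ZMod (p i)) b)) := by
    refine sub_nonneg.2 (avg_mono (fun b => ?_))
    refine Finset.prod_le_prod (fun i _ => Finset.prod_nonneg (fun g _ => ind_nonneg _)) (fun i _ => ?_)
    refine Finset.prod_le_prod (fun g _ => ind_nonneg _) (fun g hg => ?_)
    exact bb_le_zz g (hs i g hg).1 (hs i g hg).2 _
  have s5 : avg P - avg (fun b : Edge n → Bool => ∏ i, ∏ g ∈ s i, BB g (adj (ZMod (p i)) b)) ≤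
      2 * (∑ i, ∑ g ∈ s i, beta g) * Bt := by
    rw [← avg_sub]
    refine (avg_mono s3).trans ?_
    rw [avg_sum]
    have e1 : 2 * (∑ i, ∑ g ∈ s i, beta g) * Bt = ∑ a ∈ T, 2 * beta a.2 * Bt := by
      rw [hT, Finset.sum_sigma, Finset.mul_sum, Finset.sum_mul]
      refine Finset.sum_congr rfl (fun i _ => ?_)
      rw [Finset.mul_sum, Finset.sum_mul]
    rw [e1]
    refine Finset.sum_le_sum (fun a ha => ?_)
    rw [avg_mul_const]
    have hq := hq1 a.1 a.2 (hTmem a ha)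
    have hq' : (0 : ℝ) < (p a.1 : ℝ) ^ a.2.natDegree := by linarith
    refine (mul_le_mul_of_nonneg_right (s2 a.1 a.2 (hTmem a ha)) (by positivity)).trans (le_of_eq ?_)
    unfold beta
    field_simp
  rw [abs_le] at s1 ⊢
  obtain ⟨s1a, s1b⟩ := s1
  have hS : 0 ≤ ∑ i, ∑ g ∈ s i, beta g :=
    Finset.sum_nonneg (fun i _ => Finset.sum_nonneg (fun g hg => (ree_beta_pos g (hs i g hg).2).le))
  have hS2 : 0 ≤ (∑ i, ∑ g ∈ s i, beta g) * Bt := mul_nonneg hS hBt0.le
  constructor <;> nlinarith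

end Pool.H64.IR

end S_REE

section S_SQF

/-! MODULE SQF (project MP_a758cf_pr, IR; overview: team-store H64_a758cf.md)
Square factors are rare: pr(g^2 | charpoly) <= 8/q^2, q = p^(deg g), 2 deg g <= theta n.
Deterministic: if g^2 | charpoly A then kerc g A >= q^2 or X1 (g^2) A >= q^2 - q. [If g(A) kills every vector killed by a power of g, then the g-primary
component, of dimension >= 2 deg g, is ker g(A), so kerc g A = p^dim >= q^2. Otherwise there is z with annihilator g^e, e >= 2, so z' = g^(e-2)(A) z has annihilator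
g^2, and h(A) z' has annihilator g^2 for all h of degree < 2 deg g not divisible by g: q^2 - q different vectors.]
Dimension of the g-primary component: it is deg g times the multiplicity of g in charpoly; it is enough to show: g^2 | charpoly and ker g(A)^n = ker g(A) imply
p^(2 deg g) <= kerc g A (e.g. via charpoly of the restriction to ker g(A)^n and to the range).
Then Markov: pr <= avg (kerc g - 1)/(q^2-1) + avg X1(g^2)/(q^2-q) <= 2/(q^2-1) + 2/(q^2-q) <= 8/q^2 (q >= 2... q >= 3), kerc g - 1 = X1 g.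
-/

set_option autoImplicit false

namespace Pool.H64.IR

open Finset Polynomial

open Module.Basis in
theorem sqf_charpoly {R V : Type*} [Field R] [AddCommGroup V] [Module R V] [Module.Finite R V]
    (W : Submodule R V) (e : V →ₗ[R] V) (he : W ≤ W.comap e) :
    e.charpoly = (e.restrict he).charpoly * (W.mapQ W e he).charpoly := by
  let m := Module.Free.ChooseBasisIndex R W
  let bW : Module.Basis m R W := Module.Free.chooseBasis R W
  let n := Module.Free.ChooseBasisIndex R (V ⧸ W)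
  let bQ : Module.Basis n R (V ⧸ W) := Module.Free.chooseBasis R (V ⧸ W)
  let b := sumQuot bW bQ
  let A : Matrix m m R := LinearMap.toMatrix bW bW (e.restrict he)
  let B : Matrix m n R := Matrix.of fun i l ↦
    ((sumQuot bW bQ).repr (e ((sumQuot bW bQ) (Sum.inr l)))) (Sum.inl i)
  let D : Matrix n n R := LinearMap.toMatrix bQ bQ (W.mapQ W e he)
  suffices LinearMap.toMatrix b b e = Matrix.fromBlocks A B 0 D by
    rw [← LinearMap.charpoly_toMatrix e b, this, ← LinearMap.charpoly_toMatrix _ bW,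
      ← LinearMap.charpoly_toMatrix _ bQ, Matrix.charpoly_fromBlocks_zero₂₁]
  ext u v
  cases u with
  | inl i =>
    cases v with
    | inl k =>
      simp only [b, sumQuot_inl, Matrix.fromBlocks_apply₁₁, A, LinearMap.toMatrix_apply]
      apply sumQuot_repr_inl_of_mem
    | inr l => simp [b, LinearMap.toMatrix_apply, Matrix.fromBlocks_apply₁₂, B]
  | inr j =>
    cases v with
    | inl k =>
      suffices W.mkQ (e (bW k)) = 0 by simp [LinearMap.toMatrix_apply, b, this]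
      rw [← LinearMap.mem_ker, Submodule.ker_mkQ]
      exact he (Submodule.coe_mem (bW k))
    | inr l =>
      simp only [LinearMap.toMatrix_apply, sumQuot_repr_inr,
        Matrix.fromBlocks_apply₂₂, b, D]
      rw [← sumQuot_inr bW bQ l, W.mapQ_apply]
      simp

theorem sqf_mapQ {R V : Type*} [Field R] [AddCommGroup V] [Module R V]
    (W : Submodule R V) (e : V →ₗ[R] V) (he : W ≤ W.comap e) (g : R[X]) (v : V) :
    (aeval (W.mapQ W e he) g) (W.mkQ v) = W.mkQ (aeval e g v) := by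
  induction g using Polynomial.induction_on' with
  | add a b ha hb => simp only [map_add, LinearMap.add_apply, ha, hb]
  | monomial n a =>
    have hn : ∀ v : V, ((W.mapQ W e he) ^ n) (W.mkQ v) = W.mkQ ((e ^ n) v) := by
      induction n with
      | zero => intro v; rfl
      | succ n ih =>
        intro v
        rw [pow_succ, pow_succ, Module.End.mul_apply, Module.End.mul_apply]
        have h1 : (W.mapQ W e he) (W.mkQ v) = W.mkQ (e v) := rfl
        rw [h1, ih]
    rw [aeval_monomial, aeval_monomial, Module.End.mul_apply, Module.End.mul_apply, hn,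
      Module.algebraMap_end_apply, Module.algebraMap_end_apply, map_smul]

theorem sqf_sum_card {n p : ℕ} [Fact p.Prime] (P : (Fin n → ZMod p) → Prop) :
    ∑ z : Fin n → ZMod p, ind (P z) = (Nat.card {z // P z} : ℝ) := by
  classical
  unfold ind
  rw [Finset.sum_boole, Nat.card_eq_fintype_card, Fintype.card_subtype]

section act
variable {p : ℕ} [Fact p.Prime] {n : ℕ} (A : Matrix (Fin n) (Fin n) (ZMod p))

theorem sqf_act_mul (a b : (ZMod p)[X]) (z : Fin n → ZMod p) :
    (aeval A (a * b)).mulVec z = (aeval A a).mulVec ((aeval A b).mulVec z) := by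
  rw [map_mul, Matrix.mulVec_mulVec]

theorem sqf_ann {g : (ZMod p)[X]} (hi : Irreducible g) {z : Fin n → ZMod p}
    (h1 : (aeval A (g ^ 2)).mulVec z = 0) (h2 : (aeval A g).mulVec z ≠ 0) : IsAnn A z (g ^ 2) := by
  have key : ∀ u : (ZMod p)[X], ¬ g ∣ u → (aeval A (u * g)).mulVec z ≠ 0 := by
    intro u hu h3
    obtain ⟨a, b, hab⟩ := (hi.coprime_iff_not_dvd).2 hu
    apply h2
    have h4 : g = a * g ^ 2 + b * (u * g) := by
      calc g = (a * g + b * u) * g := by rw [hab, one_mul]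
        _ = _ := by ring
    rw [h4, map_add, Matrix.add_mulVec, sqf_act_mul, h1, sqf_act_mul A b, h3]
    simp
  intro h
  constructor
  · intro hh
    by_cases hg : g ∣ h
    · obtain ⟨h', rfl⟩ := hg
      by_cases hg' : g ∣ h'
      · obtain ⟨h'', rfl⟩ := hg'
        exact ⟨h'', by ring⟩
      · exact absurd (by rw [mul_comm]; exact hh) (key h' hg')
    · exfalso
      apply key h hg
      rw [mul_comm, sqf_act_mul, hh, Matrix.mulVec_zero]
  · rintro ⟨h', rfl⟩
    rw [mul_comm, sqf_act_mul, h1, Matrix.mulVec_zero]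

theorem sqf_ann_mul {g : (ZMod p)[X]} (hi : Irreducible g) {z : Fin n → ZMod p}
    (h1 : IsAnn A z (g ^ 2)) {c : (ZMod p)[X]} (hc : ¬ g ∣ c) :
    IsAnn A ((aeval A c).mulVec z) (g ^ 2) := by
  intro h
  rw [← sqf_act_mul, h1]
  have h2 : IsCoprime (g ^ 2) c := ((hi.coprime_iff_not_dvd).2 hc).pow_left
  exact ⟨fun h3 => h2.dvd_of_dvd_mul_right h3, fun h3 => h3.mul_right c⟩

end act

/-- polynomials of degree less than `m` -/
noncomputable def sqfD (p m : ℕ) [Fact p.Prime] : Finset (ZMod p)[X] :=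
  (Finset.univ : Finset (Fin m → ZMod p)).image
    (fun c => (((degreeLTEquiv (ZMod p) m).symm c : degreeLT (ZMod p) m) : (ZMod p)[X]))

theorem sqfD_mem {p m : ℕ} [Fact p.Prime] (f : (ZMod p)[X]) : f ∈ sqfD p m ↔ f.degree < m := by
  unfold sqfD
  rw [Finset.mem_image]
  constructor
  · rintro ⟨c, _, rfl⟩
    exact mem_degreeLT.1 ((degreeLTEquiv (ZMod p) m).symm c).2
  · intro h
    refine ⟨degreeLTEquiv (ZMod p) m ⟨f, mem_degreeLT.2 h⟩, Finset.mem_univ _, ?_⟩
    rw [LinearEquiv.symm_apply_apply]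

theorem sqfD_card (p m : ℕ) [Fact p.Prime] : (sqfD p m).card = p ^ m := by
  unfold sqfD
  rw [Finset.card_image_of_injective]
  · simp
  · exact Subtype.val_injective.comp (LinearEquiv.injective _)

theorem sqf_count {p : ℕ} [Fact p.Prime] {n : ℕ} (A : Matrix (Fin n) (Fin n) (ZMod p))
    {g : (ZMod p)[X]} (hg : g.Monic) (hi : Irreducible g) {z : Fin n → ZMod p}
    (h1 : IsAnn A z (g ^ 2)) :
    ((p : ℝ) ^ g.natDegree) ^ 2 - (p : ℝ) ^ g.natDegree ≤ X1 (g ^ 2) A := by
  classical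
  set d := g.natDegree with hd
  have hdg : g.degree = d := degree_eq_natDegree hg.ne_zero
  have hg2 : (g ^ 2).degree = ((2 * d : ℕ) : WithBot ℕ) := by
    rw [degree_eq_natDegree (pow_ne_zero 2 hg.ne_zero), hg.natDegree_pow]
  set S := (sqfD p (2 * d)).filter (fun c => ¬ g ∣ c) with hS
  have hcard : p ^ (2 * d) ≤ S.card + p ^ d := by
    have h2 : (sqfD p (2 * d)).card = ((sqfD p (2 * d)).filter (fun c => g ∣ c)).card + S.card := by
      rw [hS, Finset.card_filter_add_card_filter_not]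
    have h3 : ((sqfD p (2 * d)).filter (fun c => g ∣ c)).card ≤ p ^ d := by
      rw [← sqfD_card p d]
      refine (Finset.card_le_card (t := (sqfD p d).image (fun c => g * c)) ?_).trans
        Finset.card_image_le
      intro f hf
      rw [Finset.mem_filter, sqfD_mem] at hf
      obtain ⟨hf1, c, rfl⟩ := hf
      rw [Finset.mem_image]
      refine ⟨c, ?_, rfl⟩
      rw [sqfD_mem]
      rcases eq_or_ne c 0 with h0 | h0
      · rw [h0, degree_zero]; exact WithBot.bot_lt_coe _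
      · rw [degree_mul, hdg, degree_eq_natDegree h0] at hf1
        rw [degree_eq_natDegree h0]
        have h4 : d + c.natDegree < 2 * d := by exact_mod_cast hf1
        have h5 : c.natDegree < d := by omega
        exact_mod_cast h5
    rw [sqfD_card] at h2
    omega
  have hX : (S.card : ℝ) ≤ X1 (g ^ 2) A := by
    unfold X1 ind
    rw [Finset.sum_boole]
    have h2 : S.card = (S.image (fun c => (aeval A c).mulVec z)).card := by
      rw [Finset.card_image_of_injOn]
      intro c hc c' hc' hcc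
      rw [hS, Finset.coe_filter] at hc hc'
      have hc1 := (sqfD_mem c).1 hc.1
      have hc2 := (sqfD_mem c').1 hc'.1
      have h3 : (aeval A (c - c')).mulVec z = 0 := by
        rw [map_sub, Matrix.sub_mulVec, sub_eq_zero]
        exact hcc
      have h4 := (h1 _).1 h3
      have h5 : (c - c').degree < (g ^ 2).degree := by
        rw [hg2]
        exact (degree_sub_le _ _).trans_lt (max_lt hc1 hc2)
      exact sub_eq_zero.1 (eq_zero_of_dvd_of_degree_lt h4 h5)
    rw [h2]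
    norm_cast
    refine Finset.card_le_card ?_
    intro y hy
    rw [Finset.mem_image] at hy
    obtain ⟨c, hc, rfl⟩ := hy
    rw [hS, Finset.mem_filter] at hc
    rw [Finset.mem_filter]
    exact ⟨Finset.mem_univ _, sqf_ann_mul A hi h1 hc.2⟩
  have h6 : ((p : ℝ) ^ d) ^ 2 ≤ S.card + (p : ℝ) ^ d := by
    rw [← pow_mul, mul_comm d 2]
    exact_mod_cast hcard
  linarith

theorem sqf_dim {p : ℕ} [Fact p.Prime] {n : ℕ} (A : Matrix (Fin n) (Fin n) (ZMod p))
    {g : (ZMod p)[X]} (hg : g.Monic) (hi : Irreducible g) (h : g ^ 2 ∣ A.charpoly)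
    (hk : ∀ z : Fin n → ZMod p, (aeval A (g ^ 2)).mulVec z = 0 → (aeval A g).mulVec z = 0) :
    ((p : ℝ) ^ g.natDegree) ^ 2 ≤ kerc g A := by
  classical
  set φ : (Fin n → ZMod p) →ₗ[ZMod p] (Fin n → ZMod p) := Matrix.toLinAlgEquiv' A with hφ
  have hφc : φ.charpoly = A.charpoly := by
    rw [hφ]
    exact Matrix.charpoly_toLin' A
  have hae : ∀ f : (ZMod p)[X], ∀ z, aeval φ f z = (aeval A f).mulVec z := by
    intro f z
    have h1 : aeval φ f = Matrix.toLinAlgEquiv' (aeval A f) := by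
      rw [hφ]
      exact aeval_algHom_apply (Matrix.toLinAlgEquiv' : Matrix (Fin n) (Fin n) (ZMod p) ≃ₐ[ZMod p] _).toAlgHom A f
    rw [h1]
    rfl
  set U : Submodule (ZMod p) (Fin n → ZMod p) := LinearMap.ker (aeval φ g) with hU
  have hUφ : U ≤ U.comap φ := by
    intro v hv
    rw [Submodule.mem_comap, hU, LinearMap.mem_ker]
    rw [hU, LinearMap.mem_ker] at hv
    have h1 : aeval φ g * φ = φ * aeval φ g := by
      have h2 : aeval φ (g * X) = aeval φ (X * g) := by rw [mul_comm]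
      rwa [map_mul, map_mul, aeval_X] at h2
    have h3 : (aeval φ g * φ) v = (φ * aeval φ g) v := by rw [h1]
    rw [Module.End.mul_apply, Module.End.mul_apply, hv, map_zero] at h3
    exact h3
  have hchar := sqf_charpoly U φ hUφ
  -- `g` does not divide the characteristic polynomial of the quotient
  have hQ : ¬ g ∣ (U.mapQ U φ hUφ).charpoly := by
    intro hdiv
    set ψ := U.mapQ U φ hUφ with hψ
    set bQ := Module.finBasis (ZMod p) ((Fin n → ZMod p) ⧸ U) with hbQ
    set D := LinearMap.toMatrix bQ bQ ψ with hD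
    have hDc : D.charpoly = ψ.charpoly := LinearMap.charpoly_toMatrix ψ bQ
    obtain ⟨m, hm1, hm2⟩ := ker_pow g hg hi D
    have hm0 : m ≠ 0 := fun h0 => (hm2.1 h0) (by rw [hDc]; exact hdiv)
    have hq : (1 : ℝ) < (p : ℝ) ^ g.natDegree := by
      refine one_lt_pow₀ ?_ hi.natDegree_pos.ne'
      exact_mod_cast (Fact.out : p.Prime).one_lt
    have hk1 : (1 : ℝ) < kerc g D := by
      rw [hm1]
      exact one_lt_pow₀ hq hm0
    have hex : ∃ w, w ≠ 0 ∧ (aeval D g).mulVec w = 0 := by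
      by_contra hne
      push Not at hne
      have h3 : kerc g D ≤ 1 := by
        unfold kerc
        calc ∑ z : Fin _ → ZMod p, ind ((aeval D g).mulVec z = 0) ≤
            ∑ z : Fin _ → ZMod p, (if z = 0 then (1 : ℝ) else 0) := by
              refine Finset.sum_le_sum fun z _ => ?_
              by_cases hz : z = 0
              · rw [if_pos hz]; exact ind_le_one _
              · rw [if_neg hz, ind_false (hne z hz)]
          _ = 1 := by simp
      linarith
    obtain ⟨w, hw0, hw⟩ := hex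
    have hDg : aeval D g = LinearMap.toMatrix bQ bQ (aeval ψ g) := by
      have := aeval_algHom_apply (LinearMap.toMatrixAlgEquiv bQ).toAlgHom ψ g
      exact this
    set y := bQ.equivFun.symm w with hy
    have hy0 : y ≠ 0 := by
      rw [hy]
      intro h0
      exact hw0 ((LinearEquiv.map_eq_zero_iff _).1 h0)
    have hgy : aeval ψ g y = 0 := by
      have h4 := LinearMap.toMatrix_mulVec_repr bQ bQ (aeval ψ g) y
      have h5 : (bQ.repr y : Fin _ → ZMod p) = w := by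
        have := bQ.equivFun.apply_symm_apply w
        rw [← hy] at this
        exact this
      rw [h5, ← hDg, hw] at h4
      have h6 : bQ.repr (aeval ψ g y) = 0 := by
        ext i
        exact (congrFun h4 i).symm
      exact bQ.repr.map_eq_zero_iff.1 h6
    obtain ⟨v, hv⟩ := U.mkQ_surjective y
    have h7 : U.mkQ (aeval φ g v) = 0 := by
      rw [← sqf_mapQ U φ hUφ g v, ← hψ, hv]
      exact hgy
    have h8 : aeval φ g v ∈ U := by
      rwa [← LinearMap.mem_ker, Submodule.ker_mkQ] at h7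
    have h9 : (aeval A (g ^ 2)).mulVec v = 0 := by
      rw [pow_two, sqf_act_mul, ← hae g v, ← hae g]
      exact h8
    have h10 := hk v h9
    have h11 : v ∈ U := by
      rw [hU, LinearMap.mem_ker, hae]
      exact h10
    apply hy0
    rw [← hv, ← LinearMap.mem_ker, Submodule.ker_mkQ]
    exact h11
  have hdvd : g ^ 2 ∣ (φ.restrict hUφ).charpoly := by
    rw [← hφc, hchar] at h
    have h2 : IsCoprime (g ^ 2) (U.mapQ U φ hUφ).charpoly :=
      ((hi.coprime_iff_not_dvd).2 hQ).pow_left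
    exact h2.dvd_of_dvd_mul_right h
  have hdeg : 2 * g.natDegree ≤ Module.finrank (ZMod p) U := by
    have h1 := natDegree_le_of_dvd hdvd (LinearMap.charpoly_monic _).ne_zero
    rwa [hg.natDegree_pow, LinearMap.charpoly_natDegree] at h1
  have hcard : kerc g A = (p : ℝ) ^ Module.finrank (ZMod p) U := by
    unfold kerc
    rw [sqf_sum_card]
    have h1 : Nat.card {z // (aeval A g).mulVec z = 0} = Nat.card U := by
      refine Nat.card_congr (Equiv.subtypeEquivRight fun z => ?_)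
      rw [hU, LinearMap.mem_ker, hae]
    rw [h1, Module.natCard_eq_pow_finrank (K := ZMod p), Nat.card_zmod]
    push_cast
    rfl
  rw [hcard, ← pow_mul, mul_comm]
  exact pow_le_pow_right₀ (by exact_mod_cast (Fact.out : p.Prime).one_lt.le) hdeg

theorem sqf_det {p : ℕ} [Fact p.Prime] {n : ℕ} (g : (ZMod p)[X]) (hg : g.Monic) (hi : Irreducible g)
    (A : Matrix (Fin n) (Fin n) (ZMod p)) (h : g ^ 2 ∣ A.charpoly) :
    ((p : ℝ) ^ g.natDegree) ^ 2 ≤ kerc g A ∨ ((p : ℝ) ^ g.natDegree) ^ 2 - (p : ℝ) ^ g.natDegree ≤ X1 (g ^ 2) A := by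
  by_cases hk : ∀ z : Fin n → ZMod p, (aeval A (g ^ 2)).mulVec z = 0 → (aeval A g).mulVec z = 0
  · exact Or.inl (sqf_dim A hg hi h hk)
  · push Not at hk
    obtain ⟨z, hz1, hz2⟩ := hk
    exact Or.inr (sqf_count A hg hi (sqf_ann A hi hz1 hz2))

theorem sqf_pr {p : ℕ} [Fact p.Prime] (hp : p ≠ 2) :
    ∃ theta : ℝ, 0 < theta ∧ ∃ n0 : ℕ, ∀ n : ℕ, n0 ≤ n → ∀ g : (ZMod p)[X], g.Monic → Irreducible g → (g.natDegree : ℝ) ≤ theta * n →
      pr (fun b : Edge n → Bool => g ^ 2 ∣ (adj (ZMod p) b).charpoly) ≤ 8 / ((p : ℝ) ^ g.natDegree) ^ 2 := by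
  obtain ⟨th, hth, n0, hx⟩ := x1_avg (p := p) hp
  refine ⟨th / 2, by positivity, n0, fun n hn g hg hi hdeg => ?_⟩
  set q : ℝ := (p : ℝ) ^ g.natDegree with hq
  have hp3 : (3 : ℝ) ≤ p := by
    have h1 := (Fact.out : p.Prime).two_le
    have h2 : 3 ≤ p := by omega
    exact_mod_cast h2
  have hq3 : 3 ≤ q := by
    rw [hq]
    calc (3 : ℝ) ≤ p := hp3
      _ = (p : ℝ) ^ 1 := (pow_one _).symm
      _ ≤ (p : ℝ) ^ g.natDegree := pow_le_pow_right₀ (by linarith) hi.natDegree_pos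
  have h1 := hx n hn g hg (hdeg.trans (by
    have : (0 : ℝ) ≤ n := Nat.cast_nonneg n
    nlinarith))
  have h2 := hx n hn (g ^ 2) (hg.pow 2) (by
    rw [hg.natDegree_pow]
    push_cast
    linarith)
  have hsub : ∀ b : Edge n → Bool, g ^ 2 ∣ (adj (ZMod p) b).charpoly →
      (q ^ 2 - 1 ≤ X1 g (adj (ZMod p) b) ∨ q ^ 2 - q ≤ X1 (g ^ 2) (adj (ZMod p) b)) := by
    intro b hb
    rcases sqf_det g hg hi _ hb with h | h
    · left
      have h3 := x1_prod ({g} : Finset (ZMod p)[X]) (fun f hf => by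
        rw [Finset.mem_singleton] at hf; subst hf; exact ⟨hg, hi⟩) (adj (ZMod p) b)
      rw [Finset.prod_singleton, Finset.prod_singleton] at h3
      rw [h3]
      linarith
    · right; exact h
  have hX0 : ∀ (f : (ZMod p)[X]) (A : Matrix (Fin n) (Fin n) (ZMod p)), 0 ≤ X1 f A :=
    fun f A => Finset.sum_nonneg fun z _ => ind_nonneg _
  have h4 : pr (fun b : Edge n → Bool => g ^ 2 ∣ (adj (ZMod p) b).charpoly) ≤
      2 / (q ^ 2 - 1) + 2 / (q ^ 2 - q) := by
    refine (pr_mono hsub).trans ((pr_or_le _ _).trans (add_le_add ?_ ?_))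
    · refine (pr_markov _ (fun b => X1 g (adj (ZMod p) b)) (fun b => hX0 _ _) (q ^ 2 - 1)
        (by nlinarith) (fun b hb => hb)).trans ?_
      exact div_le_div_of_nonneg_right h1 (by nlinarith)
    · refine (pr_markov _ (fun b => X1 (g ^ 2) (adj (ZMod p) b)) (fun b => hX0 _ _) (q ^ 2 - q)
        (by nlinarith) (fun b hb => hb)).trans ?_
      exact div_le_div_of_nonneg_right h2 (by nlinarith)
  refine h4.trans ?_
  have h5 : 2 / (q ^ 2 - 1) ≤ 4 / q ^ 2 := by
    rw [div_le_div_iff₀ (by nlinarith) (by positivity)]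
    nlinarith
  have h6 : 2 / (q ^ 2 - q) ≤ 4 / q ^ 2 := by
    rw [div_le_div_iff₀ (by nlinarith) (by positivity)]
    nlinarith
  have h7 : 4 / q ^ 2 + 4 / q ^ 2 = 8 / q ^ 2 := by ring
  linarith

end Pool.H64.IR

end S_SQF

section S_SM2

/-! MODULE SM2 (project MP_a758cf_pr, IR; overview: team-store H64_a758cf.md)
Probability that charpoly mod p has a K-smooth divisor of degree >= D := K^3: Markov with sm1, x1_avg:
<= 2 sum_{m <= D+K} card(Smo p K m)/p^D. Terms m <= D/2: <= 2 (D+1) p^(D/2)/p^D (card Smo <= p^m). Terms D/2 < m <= D+K: <= 2 p^K exp(11) exp(-D/(2K)) each (smc) =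
2 exp(11) exp(K log p - K^2/2). For K >= K0(p) everything is <= exp(-K).
-/

set_option autoImplicit false

namespace Pool.H64.IR

open Finset Polynomial

private theorem sm2_x1_nonneg {p : ℕ} [Fact p.Prime] {n : ℕ} (f : (ZMod p)[X]) (A : Matrix (Fin n) (Fin n) (ZMod p)) :
    0 ≤ X1 f A := by
  unfold X1
  exact Finset.sum_nonneg fun _ _ => ind_nonneg _

private theorem sm2_num (p K : ℕ) (hp : 3 ≤ p) (hK : p + 15 ≤ K) :
    ((K ^ 3 + K + 1 : ℕ) : ℝ) * (2 * (Real.exp 11 * ((p : ℝ) * Real.exp (-1 / (K : ℝ))) ^ (K ^ 3 + K))) / (p : ℝ) ^ (K ^ 3)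
      ≤ Real.exp (-(K : ℝ)) := by
  have hp0 : (0 : ℝ) < p := by positivity
  have hK0 : (0 : ℝ) < K := by
    have : 0 < K := by omega
    exact_mod_cast this
  have hpK : (p : ℝ) + 15 ≤ K := by exact_mod_cast hK
  have h1 : ((p : ℝ) * Real.exp (-1 / (K : ℝ))) ^ (K ^ 3 + K) = (p : ℝ) ^ (K ^ 3) * (p : ℝ) ^ K * Real.exp (-((K : ℝ) ^ 2 + 1)) := by
    rw [mul_pow, ← Real.exp_nat_mul, pow_add]
    congr 2
    push_cast
    field_simp
  rw [h1]
  have h2 : (p : ℝ) ^ K ≤ Real.exp (p * K) := by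
    have h3 : (p : ℝ) ≤ Real.exp p := (le_of_lt (lt_add_one _)).trans (Real.add_one_le_exp _)
    calc (p : ℝ) ^ K ≤ (Real.exp p) ^ K := pow_le_pow_left₀ hp0.le h3 K
      _ = Real.exp (p * K) := by rw [← Real.exp_nat_mul]; ring_nf
  have h4 : ((K ^ 3 + K + 1 : ℕ) : ℝ) ≤ Real.exp (3 * K) := by
    have h5 : (K : ℝ) + 1 ≤ Real.exp K := Real.add_one_le_exp _
    calc ((K ^ 3 + K + 1 : ℕ) : ℝ) ≤ ((K : ℝ) + 1) ^ 3 := by push_cast; nlinarith [sq_nonneg (K : ℝ)]
      _ ≤ (Real.exp K) ^ 3 := pow_le_pow_left₀ (by positivity) h5 3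
      _ = Real.exp (3 * K) := by rw [← Real.exp_nat_mul]; norm_num
  have h6 : (2 : ℝ) ≤ Real.exp 1 := by
    have := Real.add_one_le_exp (1 : ℝ); linarith
  calc ((K ^ 3 + K + 1 : ℕ) : ℝ) * (2 * (Real.exp 11 * ((p : ℝ) ^ (K ^ 3) * (p : ℝ) ^ K * Real.exp (-((K : ℝ) ^ 2 + 1))))) / (p : ℝ) ^ (K ^ 3)
      = ((K ^ 3 + K + 1 : ℕ) : ℝ) * (2 * (Real.exp 11 * ((p : ℝ) ^ K * Real.exp (-((K : ℝ) ^ 2 + 1))))) := by
        have h7 : (p : ℝ) ^ (K ^ 3) ≠ 0 := by positivity
        rw [div_eq_iff h7]; ring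
    _ ≤ Real.exp (3 * K) * (Real.exp 1 * (Real.exp 11 * (Real.exp (p * K) * Real.exp (-((K : ℝ) ^ 2 + 1))))) := by
        gcongr
    _ = Real.exp (3 * K + (1 + (11 + (p * K + (-((K : ℝ) ^ 2 + 1)))))) := by
        rw [Real.exp_add, Real.exp_add, Real.exp_add, Real.exp_add]
    _ ≤ Real.exp (-(K : ℝ)) := by
        apply Real.exp_le_exp.2
        nlinarith [mul_le_mul_of_nonneg_left hpK hK0.le]

theorem sm2 {p : ℕ} [Fact p.Prime] (hp : p ≠ 2) :
    ∃ theta : ℝ, 0 < theta ∧ ∃ n0 K0 : ℕ, ∀ n K : ℕ, n0 ≤ n → K0 ≤ K → ((K : ℝ) ^ 3 + K ≤ theta * n) →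
      pr (fun b : Edge n → Bool => ∃ S : (ZMod p)[X], S.Monic ∧ (∀ g : (ZMod p)[X], Irreducible g → g ∣ S → g.natDegree ≤ K) ∧
        K ^ 3 ≤ S.natDegree ∧ S ∣ (adj (ZMod p) b).charpoly) ≤ Real.exp (-(K : ℝ)) := by
  obtain ⟨θ, hθ, n0, h⟩ := x1_avg (p := p) hp
  refine ⟨θ, hθ, n0, p + 15, ?_⟩
  intro n K hn hK hKn
  have hp3 : 3 ≤ p := by
    have h1 : p.Prime := Fact.out
    have := h1.two_le
    omega
  have hp0 : (0 : ℝ) < p := by positivity
  have hK0 : (0 : ℝ) < K := by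
    have : 0 < K := by omega
    exact_mod_cast this
  have hK1 : (1 : ℝ) ≤ K := by
    have : 1 ≤ K := by omega
    exact_mod_cast this
  refine (pr_markov _ (fun b : Edge n → Bool => ∑ m ∈ Finset.range (K ^ 3 + K + 1), ∑ f ∈ Smo p K m, X1 f (adj (ZMod p) b))
    (fun b => Finset.sum_nonneg fun m _ => Finset.sum_nonneg fun f _ => sm2_x1_nonneg f _)
    ((p : ℝ) ^ (K ^ 3)) (by positivity) ?_).trans ?_
  · rintro b ⟨S, hS, hSK, hSD, hSd⟩
    exact sm1 (adj (ZMod p) b) K (K ^ 3) S hS hSK hSD hSd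
  refine le_trans ?_ (sm2_num p K hp3 hK)
  refine div_le_div_of_nonneg_right ?_ (by positivity)
  have h1 : avg (fun b : Edge n → Bool => ∑ m ∈ Finset.range (K ^ 3 + K + 1), ∑ f ∈ Smo p K m, X1 f (adj (ZMod p) b)) =
      ∑ m ∈ Finset.range (K ^ 3 + K + 1), ∑ f ∈ Smo p K m, avg (fun b : Edge n → Bool => X1 f (adj (ZMod p) b)) := by
    rw [avg_sum (Finset.range (K ^ 3 + K + 1)) (fun m (b : Edge n → Bool) => ∑ f ∈ Smo p K m, X1 f (adj (ZMod p) b))]
    refine Finset.sum_congr rfl fun m _ => ?_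
    exact avg_sum (Smo p K m) (fun f (b : Edge n → Bool) => X1 f (adj (ZMod p) b))
  rw [h1]
  have hr : (1 : ℝ) ≤ (p : ℝ) * Real.exp (-1 / (K : ℝ)) := by
    have h2 : Real.exp (-1) ≤ Real.exp (-1 / (K : ℝ)) := by
      apply Real.exp_le_exp.2
      rw [le_div_iff₀ hK0]; linarith
    have h3 : Real.exp (-1) * Real.exp 1 = 1 := by rw [← Real.exp_add]; norm_num
    have h4 : Real.exp 1 < 2.7182818286 := Real.exp_one_lt_d9
    have h5 : (3 : ℝ) ≤ p := by exact_mod_cast hp3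
    have h6 : 0 < Real.exp (-1) := Real.exp_pos _
    calc (1 : ℝ) = Real.exp 1 * Real.exp (-1) := by rw [mul_comm]; exact h3.symm
      _ ≤ p * Real.exp (-1 / (K : ℝ)) := mul_le_mul (by linarith) h2 h6.le hp0.le
  have hterm : ∀ m ∈ Finset.range (K ^ 3 + K + 1), ∑ f ∈ Smo p K m, avg (fun b : Edge n → Bool => X1 f (adj (ZMod p) b)) ≤
      2 * (Real.exp 11 * ((p : ℝ) * Real.exp (-1 / (K : ℝ))) ^ (K ^ 3 + K)) := by
    intro m hm
    rw [Finset.mem_range] at hm
    have h2 : ∀ f ∈ Smo p K m, avg (fun b : Edge n → Bool => X1 f (adj (ZMod p) b)) ≤ 2 := by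
      intro f hf
      rw [mem_smo] at hf
      refine h n hn f hf.1 ?_
      rw [hf.2.1]
      refine le_trans ?_ hKn
      have : m ≤ K ^ 3 + K := by omega
      exact_mod_cast this
    refine (Finset.sum_le_sum h2).trans ?_
    rw [Finset.sum_const, nsmul_eq_mul, mul_comm]
    refine mul_le_mul_of_nonneg_left ?_ (by norm_num)
    refine (smc p K m hp3 (by omega)).trans ?_
    have h3 : (p : ℝ) ^ m * Real.exp (-(m : ℝ) / K) = ((p : ℝ) * Real.exp (-1 / (K : ℝ))) ^ m := by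
      rw [mul_pow, ← Real.exp_nat_mul]
      congr 2
      ring
    rw [mul_assoc, h3]
    refine mul_le_mul_of_nonneg_left ?_ (Real.exp_pos _).le
    exact pow_le_pow_right₀ hr (by omega)
  refine (Finset.sum_le_sum hterm).trans ?_
  rw [Finset.sum_const, Finset.card_range, nsmul_eq_mul]

end Pool.H64.IR

end S_SM2

section S_EXPU

/-! MODULE EXPU (project MP_a758cf_pr, IR; overview: team-store H64_a758cf.md)
Linear combinations. For each i a finite index type τ i, coefficients co i t and finite sets H i t of monic irreducibles with total degree <= theta n. If for every choice t of indices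
2 sum_i sum_{g in H i (t i)} beta g + exp(-c n) <= eta then
|avg prod_i sum_t co i t prod_{g in H i t} BB g (adj b) - prod_i sum_t co i t prod beta g| <= eta prod_i sum_t |co i t| prod beta g.
Proof: expand the products over i (Finset.prod_univ_sum / Fintype.piFinset), apply ree to each family.
-/

set_option autoImplicit false

namespace Pool.H64.IR

open Finset Polynomial

theorem expu {ι : Type} [Fintype ι] [DecidableEq ι] (p : ι → ℕ) [∀ i, Fact (p i).Prime] (hp : ∀ i, p i ≠ 2) (hinj : Function.Injective p) :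
    ∃ theta : ℝ, 0 < theta ∧ ∃ c : ℝ, 0 < c ∧ ∃ n0 : ℕ, ∀ n : ℕ, n0 ≤ n →
      ∀ (τ : ι → Type) [∀ i, Fintype (τ i)] (co : ∀ i, τ i → ℝ) (H : ∀ i, τ i → Finset (ZMod (p i))[X]) (eta : ℝ),
      (∀ i t, ∀ g ∈ H i t, g.Monic ∧ Irreducible g) →
      (∀ i t, ((∑ g ∈ H i t, g.natDegree : ℕ) : ℝ) ≤ theta * n) →
      (∀ t : ∀ i, τ i, 2 * (∑ i, ∑ g ∈ H i (t i), beta g) + Real.exp (-c * n) ≤ eta) →
      |avg (fun b : Edge n → Bool => ∏ i, ∑ t, co i t * ∏ g ∈ H i t, BB g (adj (ZMod (p i)) b)) -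
          ∏ i, ∑ t, co i t * ∏ g ∈ H i t, beta g| ≤
        eta * ∏ i, ∑ t, |co i t| * ∏ g ∈ H i t, beta g := by
  classical
  obtain ⟨theta, hth, c, hc, n0, hree⟩ := ree p hp hinj
  refine ⟨theta, hth, c, hc, n0, ?_⟩
  intro n hn τ _ co H eta hH1 hH2 hH3
  -- beta is nonneg
  have hbeta : ∀ i t, ∀ g ∈ H i t, 0 ≤ beta g := by
    intro i t g hg
    unfold beta
    apply div_nonneg zero_le_one
    have h1 : (1 : ℝ) ≤ ((p i : ℕ) : ℝ) ^ g.natDegree := by
      apply one_le_pow₀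
      exact_mod_cast (Fact.out : (p i).Prime).one_lt.le
    linarith
  -- expansion
  have hexp : ∀ (F : ∀ i, τ i → ℝ), ∏ i, ∑ t, F i t = ∑ t : (∀ i, τ i), ∏ i, F i (t i) := by
    intro F
    rw [Finset.prod_univ_sum]
    rw [Fintype.piFinset_univ]
  rw [hexp (fun i t => co i t * ∏ g ∈ H i t, beta g), hexp (fun i t => |co i t| * ∏ g ∈ H i t, beta g)]
  have h1 : (fun b : Edge n → Bool => ∏ i, ∑ t, co i t * ∏ g ∈ H i t, BB g (adj (ZMod (p i)) b)) =
      fun b : Edge n → Bool => ∑ t : (∀ i, τ i), (∏ i, co i (t i)) * ∏ i, ∏ g ∈ H i (t i), BB g (adj (ZMod (p i)) b) := by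
    funext b
    rw [hexp (fun i t => co i t * ∏ g ∈ H i t, BB g (adj (ZMod (p i)) b))]
    refine Finset.sum_congr rfl fun t _ => ?_
    rw [Finset.prod_mul_distrib]
  rw [h1]
  have h2 : avg (fun b : Edge n → Bool => ∑ t : (∀ i, τ i), (∏ i, co i (t i)) * ∏ i, ∏ g ∈ H i (t i), BB g (adj (ZMod (p i)) b)) =
      ∑ t : (∀ i, τ i), (∏ i, co i (t i)) * avg (fun b : Edge n → Bool => ∏ i, ∏ g ∈ H i (t i), BB g (adj (ZMod (p i)) b)) := by
    rw [avg_sum]
    refine Finset.sum_congr rfl fun t _ => ?_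
    rw [avg_const_mul]
  rw [h2, ← Finset.sum_sub_distrib]
  refine (Finset.abs_sum_le_sum_abs _ _).trans ?_
  rw [Finset.mul_sum]
  refine Finset.sum_le_sum fun t _ => ?_
  rw [Finset.prod_mul_distrib, ← mul_sub, abs_mul, Finset.abs_prod]
  have h3 := hree n hn (fun i => H i (t i)) (fun i => hH1 i (t i)) (fun i => hH2 i (t i))
  have h4 : 0 ≤ ∏ i, ∏ g ∈ H i (t i), beta g :=
    Finset.prod_nonneg fun i _ => Finset.prod_nonneg fun g hg => hbeta i (t i) g hg
  have h5 := h3.trans (mul_le_mul_of_nonneg_right (hH3 t) h4)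
  have h6 : 0 ≤ ∏ i, |co i (t i)| := Finset.prod_nonneg fun i _ => abs_nonneg _
  rw [Finset.prod_mul_distrib]
  calc (∏ i, |co i (t i)|) * |avg (fun b : Edge n → Bool => ∏ i, ∏ g ∈ H i (t i), BB g (adj (ZMod (p i)) b)) - ∏ i, ∏ g ∈ H i (t i), beta g|
      ≤ (∏ i, |co i (t i)|) * (eta * ∏ i, ∏ g ∈ H i (t i), beta g) := mul_le_mul_of_nonneg_left h5 h6
    _ = eta * ((∏ i, |co i (t i)|) * ∏ i, ∏ g ∈ H i (t i), beta g) := by ring

end Pool.H64.IR

end S_EXPU
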