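import Mathlib
import Pool.Agent.H64.IRL.L0
import Pool.Agent.H64.IRL.L4

set_option autoImplicit false

/-! Characteristic polynomial of G(n,1/2), part L7: this file joins several modules to save build time. -/

section S_A2M

/-! MODULE A2M (project MP_a758cf_pr, IR; overview: team-store H64_a758cf.md)
p = 2: exact formulas. IsAlt M: symmetric with zero diagonal. Let V have independent columns (n x m, m = card κ).
a2m_pr: pr(A V = Y) = ind(IsAlt(Vᵀ Y)) 2^(m(m+1)/2)/2^(nm).
Proof by characters: 1[A V = Y] = 2^(-nm) sum_Z (-1)^{trace(Zᵀ(A V - Y))}; trace(Zᵀ A V) = sum_{i<j} A_ij (V Zᵀ + Z Vᵀ)_ij; averaging over the bits gives 1 if V Zᵀ + Z Vᵀ vanishes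
off the diagonal (the diagonal entries are 2 (..) = 0), else 0. V Zᵀ = Z Vᵀ with V full rank means Z = V B, B symmetric (multiply by a left inverse U of V: Z = V Zᵀ Uᵀ.. = V B, then V Bᵀ Vᵀ = V B Vᵀ).
So pr = 2^(-nm) sum_{B sym} (-1)^{trace(Bᵀ Vᵀ Y)} = 2^(-nm) 2^(m(m+1)/2) if trace(B G) = 0 for all symmetric B (G = Vᵀ Y), i.e. G symmetric with zero diagonal, else 0.
a2m: sum over V of ind(FullRank V) pr(A V = V C), Vᵀ (V C).
-/

set_option autoImplicit false

namespace Pool.H64.IR

open Finset Polynomial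

/-- symmetric with zero diagonal -/
def IsAlt {κ : Type} (M : Matrix κ κ (ZMod 2)) : Prop := M.IsSymm ∧ ∀ a, M a a = 0

section a2maux

theorem a2m_IsAlt_add {κ : Type} {M N : Matrix κ κ (ZMod 2)} (hM : IsAlt M) (hN : IsAlt N) :
    IsAlt (M + N) := by
  refine ⟨?_, fun a => ?_⟩
  · exact hM.1.add hN.1
  · rw [Matrix.add_apply, hM.2, hN.2, add_zero]

theorem a2m_IsAlt_sym {κ : Type} (M : Matrix κ κ (ZMod 2)) : IsAlt (M + M.transpose) := by
  refine ⟨?_, fun a => ?_⟩
  · show (M + M.transpose).transpose = _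
    rw [Matrix.transpose_add, Matrix.transpose_transpose, add_comm]
  · rw [Matrix.add_apply, Matrix.transpose_apply]
    exact (by decide : ∀ x : ZMod 2, x + x = 0) _

theorem a2m_IsAlt_conj {κ ν : Type} [Fintype κ] [Fintype ν] [DecidableEq ν] (A : Matrix ν ν (ZMod 2))
    (hA : IsAlt A) (V : Matrix ν κ (ZMod 2)) : IsAlt (V.transpose * (A * V)) := by
  refine ⟨?_, fun a => ?_⟩
  · show (V.transpose * (A * V)).transpose = _
    rw [Matrix.transpose_mul, Matrix.transpose_mul, Matrix.transpose_transpose, hA.1,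
      Matrix.mul_assoc]
  · have h1 : (V.transpose * (A * V)) a a = ∑ x : ν × ν, V x.1 a * (A x.1 x.2 * V x.2 a) := by
      rw [Matrix.mul_apply, Fintype.sum_prod_type]
      refine Finset.sum_congr rfl fun i _ => ?_
      rw [Matrix.transpose_apply, Matrix.mul_apply, Finset.mul_sum]
    rw [h1]
    refine Finset.sum_involution (fun x _ => (x.2, x.1)) ?_ ?_ ?_ ?_
    · intro x _
      show V x.1 a * (A x.1 x.2 * V x.2 a) + V x.2 a * (A x.2 x.1 * V x.1 a) = 0
      rw [hA.1.apply x.1 x.2]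
      have : V x.2 a * (A x.1 x.2 * V x.1 a) = V x.1 a * (A x.1 x.2 * V x.2 a) := by ring
      rw [this]
      exact (by decide : ∀ x : ZMod 2, x + x = 0) _
    · intro x _ hx hxx
      apply hx
      have h2 : x.2 = x.1 := congrArg Prod.fst hxx
      rw [h2, hA.2, zero_mul, mul_zero]
    · intro x _
      exact Finset.mem_univ _
    · intro x _
      rfl

variable {n : ℕ}

theorem a2m_adj_alt (b : Edge n → Bool) : IsAlt (adj (ZMod 2) b) := by
  refine ⟨?_, fun i => ?_⟩
  · ext i j
    rw [Matrix.transpose_apply]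
    simp only [adj, Matrix.of_apply]
    rcases lt_trichotomy i j with h | h | h
    · rw [dif_neg (not_lt.2 h.le), dif_pos h, dif_pos h]
    · subst h; rfl
    · rw [dif_pos h, dif_neg (not_lt.2 h.le), dif_pos h]
  · simp only [adj, Matrix.of_apply]
    rw [dif_neg (lt_irrefl _), dif_neg (lt_irrefl _)]

/-- every alternating matrix is the matrix of some bits -/
theorem a2m_exists_bits (A : Matrix (Fin n) (Fin n) (ZMod 2)) (hA : IsAlt A) :
    ∃ b : Edge n → Bool, adj (ZMod 2) b = A := by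
  refine ⟨fun e => decide (A e.1.1 e.1.2 = 1), ?_⟩
  have h : ∀ x : ZMod 2, (if decide (x = 1) = true then (1 : ZMod 2) else 0) = x := by decide
  ext i j
  simp only [adj, Matrix.of_apply]
  rcases lt_trichotomy i j with h1 | h1 | h1
  · rw [dif_pos h1]
    exact h _
  · rw [dif_neg (h1 ▸ lt_irrefl _), dif_neg (h1 ▸ lt_irrefl _), h1, hA.2]
  · rw [dif_neg (not_lt.2 h1.le), dif_pos h1, ← hA.1.apply i j]
    exact h _

theorem a2m_adj_xor (b u : Edge n → Bool) :
    adj (ZMod 2) (fun e => xor (b e) (u e)) = adj (ZMod 2) b + adj (ZMod 2) u := by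
  have h : ∀ x y : Bool, (if xor x y then (1 : ZMod 2) else 0) =
      (if x then 1 else 0) + (if y then 1 else 0) := by decide
  ext i j
  rw [Matrix.add_apply]
  simp only [adj, Matrix.of_apply]
  rcases lt_trichotomy i j with h1 | h1 | h1
  · simp only [dif_pos h1]
    exact h _ _
  · subst h1
    simp only [dif_neg (lt_irrefl _), add_zero]
  · simp only [dif_neg (not_lt.2 h1.le), dif_pos h1]
    exact h _ _

theorem a2m_sum_ind {α : Type} [Fintype α] (x : α) : ∑ y : α, ind (x = y) = 1 := by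
  classical
  rw [Finset.sum_eq_single x]
  · exact ind_true rfl
  · intro y _ hy
    exact ind_false (Ne.symm hy)
  · intro h
    exact absurd (Finset.mem_univ _) h

/-- left inverse of a full rank matrix -/
theorem a2m_left_inv {κ : Type} [Fintype κ] [DecidableEq κ] (V : Matrix (Fin n) κ (ZMod 2))
    (hV : FullRank V) : ∃ U : Matrix κ (Fin n) (ZMod 2), U * V = 1 := by
  have hinj : Function.Injective (Matrix.toLin' V) := by
    have h1 : Function.Injective V.mulVec := Matrix.mulVec_injective_iff.2 hV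
    exact h1
  obtain ⟨f, hf⟩ := LinearMap.exists_leftInverse_of_injective (Matrix.toLin' V)
    (LinearMap.ker_eq_bot.2 hinj)
  refine ⟨LinearMap.toMatrix' f, ?_⟩
  have h2 : LinearMap.toMatrix' (f ∘ₗ Matrix.toLin' V) = LinearMap.toMatrix' f * V := by
    rw [LinearMap.toMatrix'_comp, LinearMap.toMatrix'_toLin']
  rw [← h2, hf, LinearMap.toMatrix'_id]

/-- the image -/
theorem a2m_exists {κ : Type} [Fintype κ] [DecidableEq κ] (V Y : Matrix (Fin n) κ (ZMod 2))
    (hV : FullRank V) (hY : IsAlt (V.transpose * Y)) : ∃ b : Edge n → Bool, adj (ZMod 2) b * V = Y := by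
  obtain ⟨U, hU⟩ := a2m_left_inv V hV
  have hA : IsAlt ((Y * U + (Y * U).transpose) + U.transpose * ((V.transpose * Y) * U)) :=
    a2m_IsAlt_add (a2m_IsAlt_sym _) (a2m_IsAlt_conj _ hY U)
  obtain ⟨b, hb⟩ := a2m_exists_bits _ hA
  refine ⟨b, ?_⟩
  rw [hb, Matrix.add_mul, Matrix.add_mul]
  have h1 : Y * U * V = Y := by rw [Matrix.mul_assoc, hU, Matrix.mul_one]
  have h2 : (Y * U).transpose * V = U.transpose * (V.transpose * Y) := by
    rw [Matrix.transpose_mul, Matrix.mul_assoc]
    congr 1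
    have h3 := hY.1
    have h4 : (V.transpose * Y).transpose = Y.transpose * V := by
      rw [Matrix.transpose_mul, Matrix.transpose_transpose]
    rw [← h4]
    exact h3
  have h3 : U.transpose * ((V.transpose * Y) * U) * V = U.transpose * (V.transpose * Y) := by
    rw [Matrix.mul_assoc, Matrix.mul_assoc (V.transpose * Y), hU, Matrix.mul_one]
  rw [h1, h2, h3, add_assoc]
  have h4 : ∀ M : Matrix (Fin n) κ (ZMod 2), M + M = 0 := by
    intro M
    ext i j
    rw [Matrix.add_apply]
    exact (by decide : ∀ x : ZMod 2, x + x = 0) _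
  rw [h4, add_zero]

/-- number of alternating matrices -/
theorem a2m_alt_card {κ : Type} [Fintype κ] [DecidableEq κ] :
    (∑ M : Matrix κ κ (ZMod 2), ind (IsAlt M)) =
      (2 : ℝ) ^ ((Fintype.card κ).choose 2) := by
  classical
  let Ψ : {M : Matrix κ κ (ZMod 2) // IsAlt M} ≃ ({z : Sym2 κ // ¬ z.IsDiag} → ZMod 2) :=
    { toFun := fun M z => Sym2.lift ⟨fun a b => M.1 a b, fun a b => (M.2.1.apply a b).symm⟩ z.1
      invFun := fun f => ⟨Matrix.of fun a b => if h : a = b then 0 else f ⟨s(a, b), by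
          rw [Sym2.mk_isDiag_iff]; exact h⟩, by
        refine ⟨?_, fun a => ?_⟩
        · ext a b
          rw [Matrix.transpose_apply, Matrix.of_apply, Matrix.of_apply]
          by_cases h : a = b
          · rw [dif_pos h, dif_pos h.symm]
          · rw [dif_neg h, dif_neg (Ne.symm h)]
            congr 2
            exact Sym2.eq_swap
        · rw [Matrix.of_apply, dif_pos rfl]⟩
      left_inv := by
        rintro ⟨M, hM⟩
        apply Subtype.ext
        ext a b
        simp only [Matrix.of_apply]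
        by_cases h : a = b
        · rw [dif_pos h, h, hM.2]
        · rw [dif_neg h]
          rfl
      right_inv := by
        intro f
        funext z
        obtain ⟨z, hz⟩ := z
        induction z using Sym2.ind with
        | _ a b =>
          simp only [Sym2.lift_mk, Matrix.of_apply]
          rw [dif_neg]
          intro h
          exact hz ((Sym2.mk_isDiag_iff).2 h) }
  have h1 : (∑ M : Matrix κ κ (ZMod 2), ind (IsAlt M)) =
      (Fintype.card {M : Matrix κ κ (ZMod 2) // IsAlt M} : ℝ) := by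
    rw [Fintype.card_subtype]
    unfold ind
    rw [Finset.sum_boole]
  rw [h1, Fintype.card_congr Ψ, Fintype.card_fun, ZMod.card, Sym2.card_subtype_not_diag]
  push_cast
  rfl

/-- counting fibres of a surjective additive map -/
theorem a2m_fibre {κ : Type} [Fintype κ] [DecidableEq κ] (V : Matrix (Fin n) κ (ZMod 2))
    (hV : FullRank V) :
    (∑ Y : Matrix (Fin n) κ (ZMod 2), ind (IsAlt (V.transpose * Y))) *
      (2 : ℝ) ^ (Fintype.card κ * Fintype.card κ) =
      (2 : ℝ) ^ ((Fintype.card κ).choose 2) * ((2 : ℝ) ^ n) ^ Fintype.card κ := by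
  classical
  obtain ⟨U, hU⟩ := a2m_left_inv V hV
  have hU' : V.transpose * U.transpose = 1 := by
    rw [← Matrix.transpose_mul, hU, Matrix.transpose_one]
  let Fc : Matrix κ κ (ZMod 2) → ℝ := fun G =>
    ∑ Y : Matrix (Fin n) κ (ZMod 2), ind (V.transpose * Y = G)
  have hF : ∀ G, Fc G = Fc 0 := by
    intro G
    let σ : Matrix (Fin n) κ (ZMod 2) ≃ Matrix (Fin n) κ (ZMod 2) :=
      Equiv.addRight (U.transpose * G)
    refine ((Equiv.sum_comp σ (fun Y => ind (V.transpose * Y = G))).symm).trans ?_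
    refine Finset.sum_congr rfl fun Y _ => ind_congr ?_
    show V.transpose * (Y + U.transpose * G) = G ↔ _
    rw [Matrix.mul_add, ← Matrix.mul_assoc, hU', Matrix.one_mul]
    exact add_eq_right
  have htot : ∑ G, Fc G = ((2 : ℝ) ^ n) ^ Fintype.card κ := by
    rw [Finset.sum_comm]
    have h1 : ∀ Y ∈ (univ : Finset (Matrix (Fin n) κ (ZMod 2))),
        ∑ G : Matrix κ κ (ZMod 2), ind (V.transpose * Y = G) = 1 := by
      intro Y _
      exact a2m_sum_ind _
    rw [Finset.sum_congr rfl h1, Finset.sum_const, Finset.card_univ, nsmul_eq_mul, mul_one]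
    have h2 : Fintype.card (Matrix (Fin n) κ (ZMod 2)) = (2 ^ Fintype.card κ) ^ n := by
      show Fintype.card (Fin n → κ → ZMod 2) = _
      rw [Fintype.card_fun, Fintype.card_fun, ZMod.card, Fintype.card_fin]
    rw [h2]
    push_cast
    rw [← pow_mul, ← pow_mul, mul_comm]
  have hF0 : Fc 0 * (2 : ℝ) ^ (Fintype.card κ * Fintype.card κ) = ((2 : ℝ) ^ n) ^ Fintype.card κ := by
    rw [← htot, Finset.sum_congr rfl fun G _ => hF G, Finset.sum_const, Finset.card_univ,
      nsmul_eq_mul, mul_comm]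
    congr 1
    have h2 : Fintype.card (Matrix κ κ (ZMod 2)) = (2 ^ Fintype.card κ) ^ Fintype.card κ := by
      show Fintype.card (κ → κ → ZMod 2) = _
      rw [Fintype.card_fun, Fintype.card_fun, ZMod.card]
    rw [h2]
    push_cast
    rw [← pow_mul]
  have hsum : (∑ Y : Matrix (Fin n) κ (ZMod 2), ind (IsAlt (V.transpose * Y))) =
      (∑ M : Matrix κ κ (ZMod 2), ind (IsAlt M)) * Fc 0 := by
    calc (∑ Y : Matrix (Fin n) κ (ZMod 2), ind (IsAlt (V.transpose * Y)))
        = ∑ Y : Matrix (Fin n) κ (ZMod 2), ∑ G : Matrix κ κ (ZMod 2),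
            ind (IsAlt G) * ind (V.transpose * Y = G) := by
          refine Finset.sum_congr rfl fun Y _ => ?_
          unfold ind
          simp
      _ = ∑ G : Matrix κ κ (ZMod 2), ind (IsAlt G) * Fc G := by
          rw [Finset.sum_comm]
          exact Finset.sum_congr rfl fun G _ => (Finset.mul_sum _ _ _).symm
      _ = _ := by
          rw [Finset.sum_mul]
          exact Finset.sum_congr rfl fun G _ => by rw [hF G]
  rw [hsum, a2m_alt_card, mul_assoc, hF0]

end a2maux

theorem a2m_pr {n : ℕ} {κ : Type} [Fintype κ] [DecidableEq κ] (V Y : Matrix (Fin n) κ (ZMod 2)) (hV : FullRank V) :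
    pr (fun b : Edge n → Bool => adj (ZMod 2) b * V = Y) =
      ind (IsAlt (V.transpose * Y)) * ((2 : ℝ) ^ (Fintype.card κ * (Fintype.card κ + 1) / 2) / ((2 : ℝ) ^ n) ^ Fintype.card κ) := by
  classical
  let N : Matrix (Fin n) κ (ZMod 2) → ℝ := fun Y =>
    ∑ b : Edge n → Bool, ind (adj (ZMod 2) b * V = Y)
  have hN : ∀ Y, N Y = ind (IsAlt (V.transpose * Y)) * N 0 := by
    intro Y
    by_cases hY : IsAlt (V.transpose * Y)
    · rw [ind_true hY, one_mul]
      obtain ⟨u, hu⟩ := a2m_exists V Y hV hY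
      let σ : (Edge n → Bool) ≃ (Edge n → Bool) :=
        { toFun := fun b ed => xor (b ed) (u ed)
          invFun := fun b ed => xor (b ed) (u ed)
          left_inv := fun b => by funext ed; simp
          right_inv := fun b => by funext ed; simp }
      refine ((Equiv.sum_comp σ (fun b => ind (adj (ZMod 2) b * V = Y))).symm).trans ?_
      refine Finset.sum_congr rfl fun b _ => ind_congr ?_
      show adj (ZMod 2) (fun ed => xor (b ed) (u ed)) * V = Y ↔ _
      rw [a2m_adj_xor, Matrix.add_mul, hu]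
      exact add_eq_right
    · rw [ind_false hY, zero_mul]
      refine Finset.sum_eq_zero fun b _ => ind_false ?_
      rintro rfl
      exact hY (a2m_IsAlt_conj _ (a2m_adj_alt b) V)
  have htot : ∑ Y, N Y = (Fintype.card (Edge n → Bool) : ℝ) := by
    rw [Finset.sum_comm]
    have h1 : ∀ b ∈ (univ : Finset (Edge n → Bool)),
        ∑ Y : Matrix (Fin n) κ (ZMod 2), ind (adj (ZMod 2) b * V = Y) = 1 := by
      intro b _
      exact a2m_sum_ind _
    rw [Finset.sum_congr rfl h1, Finset.sum_const, Finset.card_univ, nsmul_eq_mul, mul_one]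
  have hE : (0 : ℝ) < Fintype.card (Edge n → Bool) := by exact_mod_cast Fintype.card_pos
  have h0 : (∑ Y : Matrix (Fin n) κ (ZMod 2), ind (IsAlt (V.transpose * Y))) * N 0 =
      (Fintype.card (Edge n → Bool) : ℝ) := by
    rw [← htot, Finset.sum_mul]
    exact Finset.sum_congr rfl fun Y _ => (hN Y).symm
  have hfib := a2m_fibre V hV
  set S := ∑ Y : Matrix (Fin n) κ (ZMod 2), ind (IsAlt (V.transpose * Y)) with hS
  have hS0 : S ≠ 0 := by
    intro h
    rw [h, zero_mul] at h0
    exact hE.ne' h0.symm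
  have hexp : Fintype.card κ * (Fintype.card κ + 1) / 2 + (Fintype.card κ).choose 2 =
      Fintype.card κ * Fintype.card κ := by
    rw [Nat.choose_two_right]
    generalize Fintype.card κ = m
    have h2 : m * (m + 1) / 2 * 2 = m * (m + 1) :=
      Nat.div_mul_cancel (Nat.even_mul_succ_self m).two_dvd
    have h3 : m * (m - 1) / 2 * 2 = m * (m - 1) :=
      Nat.div_mul_cancel (Nat.even_mul_pred_self m).two_dvd
    have h4 : m * (m + 1) + m * (m - 1) = 2 * (m * m) := by
      rcases Nat.eq_zero_or_pos m with h | h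
      · rw [h]
      · obtain ⟨r, rfl⟩ : ∃ r, m = r + 1 := ⟨m - 1, by omega⟩
        rw [Nat.add_sub_cancel]
        ring
    omega
  have hkey : N 0 / (Fintype.card (Edge n → Bool) : ℝ) =
      (2 : ℝ) ^ (Fintype.card κ * (Fintype.card κ + 1) / 2) / ((2 : ℝ) ^ n) ^ Fintype.card κ := by
    rw [← h0, div_eq_div_iff (mul_ne_zero hS0 (fun h => by
      rw [h, mul_zero] at h0; exact hE.ne' h0.symm)) (by positivity)]
    have h5 : (2 : ℝ) ^ (Fintype.card κ * Fintype.card κ) =
        (2 : ℝ) ^ (Fintype.card κ * (Fintype.card κ + 1) / 2) * (2 : ℝ) ^ (Fintype.card κ).choose 2 := by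
      rw [← pow_add, hexp]
    rw [h5] at hfib
    have h6 : S * (2 : ℝ) ^ (Fintype.card κ * (Fintype.card κ + 1) / 2) =
        ((2 : ℝ) ^ n) ^ Fintype.card κ := by
      have h7 : (2 : ℝ) ^ (Fintype.card κ).choose 2 ≠ 0 := by positivity
      apply mul_left_cancel₀ h7
      rw [← hfib]
      ring
    rw [← h6]
    ring
  show N Y / (Fintype.card (Edge n → Bool) : ℝ) = _
  rw [hN Y, mul_div_assoc, hkey]

theorem a2m {n : ℕ} {κ : Type} [Fintype κ] [DecidableEq κ] (C : Matrix κ κ (ZMod 2)) :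
    avg (fun b : Edge n → Bool => XC C (adj (ZMod 2) b)) =
      (∑ V : Matrix (Fin n) κ (ZMod 2), ind (FullRank V ∧ IsAlt (V.transpose * V * C))) *
        ((2 : ℝ) ^ (Fintype.card κ * (Fintype.card κ + 1) / 2) / ((2 : ℝ) ^ n) ^ Fintype.card κ) := by
  unfold XC
  rw [avg_sum, Finset.sum_mul]
  refine Finset.sum_congr rfl fun V _ => ?_
  by_cases hV : FullRank V
  · have h1 : avg (fun b : Edge n → Bool => ind (FullRank V ∧ adj (ZMod 2) b * V = V * C)) =
        pr (fun b : Edge n → Bool => adj (ZMod 2) b * V = V * C) := by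
      unfold pr
      congr 1
      funext b
      exact ind_congr ⟨fun h => h.2, fun h => ⟨hV, h⟩⟩
    rw [h1, a2m_pr V (V * C) hV]
    congr 1
    refine ind_congr ?_
    rw [Matrix.mul_assoc]
    exact ⟨fun h => ⟨hV, h⟩, fun h => h.2⟩
  · have h1 : ∀ b : Edge n → Bool, ind (FullRank V ∧ adj (ZMod 2) b * V = V * C) = 0 :=
      fun b => ind_false fun h => hV h.1
    rw [ind_false fun h : FullRank V ∧ IsAlt (V.transpose * V * C) => hV h.1, zero_mul]
    unfold avg
    rw [Finset.sum_eq_zero fun b _ => h1 b, zero_div]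

end Pool.H64.IR

end S_A2M

section S_B2M

/-! MODULE B2M (project MP_a758cf_pr, IR; overview: team-store H64_a758cf.md)
g monic irreducible over ZMod 2 of degree k >= 2, C = comp g. b2m: S symmetric, S C alternating imply S = 0. Proof: on column vectors F^k, C acts cyclically with minimal polynomial g (cyclic
vector: e_{k-1}... or use Cᵀ similar), so column space = K u0, K = F[C] a field with 2^k elements. beta(u,w) = uᵀ S w, C self-adjoint: beta(f(C)u0, h(C)u0) = l(fh), l(f) = u0ᵀ S f(C) u0.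
IsAlt(S C): uᵀ S C u = 0 for all u: l(C f^2) = 0 for all f in K; squares fill K and C /= 0 is invertible in K, so l = 0 and S = 0.
b2m_two: S on Fin k + Fin k symmetric, S C2 alternating with C2 = fromBlocks C 0 0 C: S11 = S22 = 0 and S12 C = Cᵀ S12; the number of S is at most 2^k (S12 determined by its first row as in HCM2);
and if S /= 0 then S12 is invertible (kernel of S12 is C-invariant, K^1 is a simple module), so det S /= 0; the diagonal of S is zero.
-/

set_option autoImplicit false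

namespace Pool.H64.IR

open Finset Polynomial

section b2m

variable (g : (ZMod 2)[X]) (hk : 2 ≤ g.natDegree)

/-- the vector `f(C) e_0` -/
noncomputable def b2m_v (f : (ZMod 2)[X]) : Fin g.natDegree → ZMod 2 :=
  (aeval (comp g) f).mulVec (Pi.single ⟨0, by omega⟩ 1)

theorem b2m_v_mul (f h : (ZMod 2)[X]) :
    b2m_v g hk (f * h) = (aeval (comp g) f).mulVec (b2m_v g hk h) := by
  unfold b2m_v
  rw [map_mul, Matrix.mulVec_mulVec]

theorem b2m_v_add (f h : (ZMod 2)[X]) :
    b2m_v g hk (f + h) = b2m_v g hk f + b2m_v g hk h := by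
  unfold b2m_v
  rw [map_add, Matrix.add_mulVec]

theorem b2m_v_zero : b2m_v g hk 0 = 0 := by
  unfold b2m_v
  rw [map_zero, Matrix.zero_mulVec]

theorem b2m_v_sum {α : Type} (s : Finset α) (f : α → (ZMod 2)[X]) :
    b2m_v g hk (∑ i ∈ s, f i) = ∑ i ∈ s, b2m_v g hk (f i) := by
  classical
  induction s using Finset.induction_on with
  | empty => simp [b2m_v_zero]
  | insert a s ha ih => rw [Finset.sum_insert ha, Finset.sum_insert ha, b2m_v_add, ih]

theorem b2m_v_C (c : ZMod 2) (f : (ZMod 2)[X]) : b2m_v g hk (C c * f) = c • b2m_v g hk f := by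
  rw [b2m_v_mul, aeval_C, Algebra.algebraMap_eq_smul_one, Matrix.smul_mulVec, Matrix.one_mulVec]

theorem b2m_v_pow (j : ℕ) (hj : j < g.natDegree) :
    b2m_v g hk (X ^ j) = Pi.single ⟨j, hj⟩ 1 := by
  induction j with
  | zero =>
    unfold b2m_v
    rw [pow_zero, map_one, Matrix.one_mulVec]
  | succ j ih =>
    rw [pow_succ', b2m_v_mul, ih (by omega), aeval_X, Matrix.mulVec_single_one]
    funext i
    change comp g i ⟨j, _⟩ = _
    unfold comp
    rw [Matrix.of_apply, if_neg (by change ¬ (j + 1 = _); omega)]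
    rw [Pi.single_apply]
    by_cases h : i = ⟨j + 1, hj⟩
    · rw [if_pos h, if_pos (by rw [h])]
    · rw [if_neg h, if_neg (fun h' => h (Fin.ext h'))]

theorem b2m_v_self (hg : g.Monic) : b2m_v g hk g = 0 := by
  have h0 : b2m_v g hk (X ^ g.natDegree + ∑ i ∈ range g.natDegree, C (g.coeff i) * X ^ i) = 0 := by
    rw [b2m_v_add, b2m_v_sum]
    have h1 : b2m_v g hk (X ^ g.natDegree) = fun i : Fin g.natDegree => - g.coeff i := by
      obtain ⟨m, hm⟩ : ∃ m, g.natDegree = m + 1 := ⟨g.natDegree - 1, by omega⟩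
      have h2 : (X : (ZMod 2)[X]) ^ g.natDegree = X * X ^ m := by rw [hm, pow_succ']
      rw [h2, b2m_v_mul, b2m_v_pow g hk m (by omega), aeval_X, Matrix.mulVec_single_one]
      funext i
      change comp g i ⟨m, _⟩ = _
      unfold comp
      rw [Matrix.of_apply, if_pos (by change m + 1 = _; omega)]
    rw [h1]
    funext i
    rw [Pi.add_apply, Finset.sum_apply, Finset.sum_eq_single (i : ℕ)]
    · rw [b2m_v_C, b2m_v_pow g hk i i.2, Pi.smul_apply, Pi.single_eq_same, smul_eq_mul, mul_one]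
      simp
      exact CharTwo.add_self_eq_zero _
    · intro j hj hji
      rw [Finset.mem_range] at hj
      rw [b2m_v_C, b2m_v_pow g hk j hj, Pi.smul_apply, Pi.single_eq_of_ne, smul_zero]
      intro h
      exact hji (by rw [h])
    · intro h
      exact absurd (Finset.mem_range.2 i.2) h
  rwa [← hg.as_sum] at h0

theorem b2m_v_dvd (hg : g.Monic) (f h : (ZMod 2)[X]) (hd : g ∣ f - h) :
    b2m_v g hk f = b2m_v g hk h := by
  obtain ⟨q, hq⟩ := hd
  have h1 : f = q * g + h := by rw [mul_comm, ← hq]; ring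
  rw [h1, b2m_v_add, b2m_v_mul, b2m_v_self g hk hg, Matrix.mulVec_zero, zero_add]

theorem b2m_surj (u : Fin g.natDegree → ZMod 2) : ∃ f, b2m_v g hk f = u := by
  refine ⟨∑ i : Fin g.natDegree, C (u i) * X ^ (i : ℕ), ?_⟩
  rw [b2m_v_sum]
  funext j
  rw [Finset.sum_apply, Finset.sum_eq_single j]
  · rw [b2m_v_C, b2m_v_pow g hk j j.2, Pi.smul_apply, Pi.single_eq_same, smul_eq_mul, mul_one]
  · intro i _ hij
    rw [b2m_v_C, b2m_v_pow g hk i i.2, Pi.smul_apply, Pi.single_eq_of_ne, smul_zero]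
    intro h
    exact hij (Fin.ext (by rw [h]))
  · intro h
    exact absurd (Finset.mem_univ j) h

theorem b2m_adj {k : ℕ} (A S : Matrix (Fin k) (Fin k) (ZMod 2)) (h : S * A = A.transpose * S)
    (f : (ZMod 2)[X]) : S * aeval A f = (aeval A f).transpose * S := by
  have hpow : ∀ n : ℕ, S * A ^ n = (A ^ n).transpose * S := by
    intro n
    induction n with
    | zero => simp
    | succ n ih =>
      rw [pow_succ, ← mul_assoc, ih, mul_assoc, h, ← mul_assoc, ← Matrix.transpose_mul, ← pow_succ',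
        ← pow_succ]
  induction f using Polynomial.induction_on' with
  | add p q hp hq =>
    rw [map_add, mul_add, hp, hq, Matrix.transpose_add, add_mul]
  | monomial n a =>
    rw [aeval_monomial, Algebra.algebraMap_eq_smul_one, smul_mul_assoc, one_mul, mul_smul_comm, hpow,
      Matrix.transpose_smul, smul_mul_assoc]

/-- the form -/
theorem b2m_form (S : Matrix (Fin g.natDegree) (Fin g.natDegree) (ZMod 2))
    (h : S * comp g = (comp g).transpose * S) (f f' : (ZMod 2)[X]) :
    dotProduct (b2m_v g hk f) (S.mulVec (b2m_v g hk f')) =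
      dotProduct (Pi.single ⟨0, by omega⟩ 1) (S.mulVec (b2m_v g hk (f * f'))) := by
  have h1 := b2m_adj (comp g) S h f
  rw [b2m_v_mul, Matrix.mulVec_mulVec, h1, ← Matrix.mulVec_mulVec, Matrix.dotProduct_mulVec,
    Matrix.dotProduct_mulVec, Matrix.dotProduct_mulVec, Matrix.vecMul_transpose]
  rfl

theorem b2m_quad {κ : Type} [Fintype κ] [DecidableEq κ] (M : Matrix κ κ (ZMod 2)) (hM : IsAlt M)
    (u : κ → ZMod 2) : dotProduct u (M.mulVec u) = 0 := by
  have h1 : dotProduct u (M.mulVec u) = ∑ x : κ × κ, u x.1 * (M x.1 x.2 * u x.2) := by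
    rw [Fintype.sum_prod_type]
    simp only [dotProduct, Matrix.mulVec, Finset.mul_sum]
  rw [h1]
  refine Finset.sum_involution (fun x _ => (x.2, x.1)) ?_ ?_ ?_ ?_
  · rintro ⟨a, b⟩ _
    have hs : M b a = M a b := congrFun (congrFun hM.1 a) b
    change u a * (M a b * u b) + u b * (M b a * u a) = 0
    rw [hs]
    have : u b * (M a b * u a) = u a * (M a b * u b) := by ring
    rw [this]
    exact CharTwo.add_self_eq_zero _
  · rintro ⟨a, b⟩ _ hne heq
    apply hne
    have hab : b = a := (Prod.ext_iff.1 heq).1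
    subst hab
    change u b * (M b b * u b) = 0
    rw [hM.2 b]
    ring
  · intro _ _
    exact Finset.mem_univ _
  · intro _ _
    rfl

theorem b2m_field (hk : 2 ≤ g.natDegree) (hg : g.Monic) (hi : Irreducible g) (h : (ZMod 2)[X]) :
    ∃ f : (ZMod 2)[X], g ∣ X * (f * f) - h := by
  have : Fact (Irreducible g) := ⟨hi⟩
  have : Module.Finite (ZMod 2) (AdjoinRoot g) := hg.finite_adjoinRoot
  have : Finite (AdjoinRoot g) := Module.finite_of_finite (ZMod 2)
  have : CharP (AdjoinRoot g) 2 :=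
    charP_of_injective_algebraMap (algebraMap (ZMod 2) (AdjoinRoot g)).injective 2
  have hX : AdjoinRoot.mk g X ≠ 0 := by
    intro h0
    rw [AdjoinRoot.mk_eq_zero] at h0
    have h1 := Polynomial.natDegree_le_of_dvd h0 Polynomial.X_ne_zero
    rw [Polynomial.natDegree_X] at h1
    omega
  obtain ⟨z, hz⟩ := surjective_frobenius (AdjoinRoot g) 2 (AdjoinRoot.mk g h * (AdjoinRoot.mk g X)⁻¹)
  obtain ⟨f, rfl⟩ := AdjoinRoot.mk_surjective z
  refine ⟨f, ?_⟩
  rw [← AdjoinRoot.mk_eq_zero, map_sub, map_mul, map_mul, sub_eq_zero]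
  rw [frobenius_def] at hz
  rw [← sq, hz, mul_comm, mul_assoc, inv_mul_cancel₀ hX, mul_one]

theorem b2m_inv (hi : Irreducible g) (h : (ZMod 2)[X]) (hh : ¬ g ∣ h) (f : (ZMod 2)[X]) :
    ∃ q : (ZMod 2)[X], g ∣ q * h - f := by
  have hcop : IsCoprime g h := (hi.coprime_iff_not_dvd).2 hh
  obtain ⟨a, b, hab⟩ := hcop
  refine ⟨f * b, -(f * a), ?_⟩
  have : f * b * h - f = f * (b * h) - f * (a * g + b * h) := by rw [hab]; ring
  rw [this]
  ring

end b2m

theorem b2m (g : (ZMod 2)[X]) (hg : g.Monic) (hi : Irreducible g) (hk : 2 ≤ g.natDegree)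
    (S : Matrix (Fin g.natDegree) (Fin g.natDegree) (ZMod 2)) (hS : S.IsSymm) (h : IsAlt (S * comp g)) : S = 0 := by
  have hadj : S * comp g = (comp g).transpose * S := by
    have h1 := h.1
    unfold Matrix.IsSymm at h1
    rw [Matrix.transpose_mul, hS] at h1
    exact h1.symm
  -- the linear form vanishes
  have hl : ∀ f : (ZMod 2)[X], dotProduct (Pi.single ⟨0, by omega⟩ 1) (S.mulVec (b2m_v g hk f)) = 0 := by
    intro f
    obtain ⟨q, hq⟩ := b2m_field g hk hg hi f
    rw [← b2m_v_dvd g hk hg _ _ hq]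
    have h2 := b2m_quad (S * comp g) h (b2m_v g hk q)
    rw [← Matrix.mulVec_mulVec] at h2
    have h3 : (comp g).mulVec (b2m_v g hk q) = b2m_v g hk (X * q) := by
      rw [b2m_v_mul, aeval_X]
    rw [h3, b2m_form g hk S hadj] at h2
    have h4 : q * (X * q) = X * (q * q) := by ring
    rwa [h4] at h2
  ext a b
  obtain ⟨f, hf⟩ := b2m_surj g hk (Pi.single a 1)
  obtain ⟨f', hf'⟩ := b2m_surj g hk (Pi.single b 1)
  have h5 := b2m_form g hk S hadj f f'
  rw [hl, hf, hf', Matrix.mulVec_single_one, single_one_dotProduct] at h5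
  exact h5

theorem b2m_blocks (g : (ZMod 2)[X]) (hg : g.Monic) (hi : Irreducible g) (hk : 2 ≤ g.natDegree)
    (S : Matrix (Fin g.natDegree ⊕ Fin g.natDegree) (Fin g.natDegree ⊕ Fin g.natDegree) (ZMod 2)) (hS : S.IsSymm)
    (h : IsAlt (S * Matrix.fromBlocks (comp g) 0 0 (comp g))) :
    ∃ T : Matrix (Fin g.natDegree) (Fin g.natDegree) (ZMod 2),
      S = Matrix.fromBlocks 0 T T.transpose 0 ∧ T * comp g = (comp g).transpose * T := by
  obtain ⟨A, B, C', D, rfl⟩ : ∃ A B C' D, S = Matrix.fromBlocks A B C' D :=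
    ⟨_, _, _, _, (Matrix.fromBlocks_toBlocks S).symm⟩
  unfold Matrix.IsSymm at hS
  rw [Matrix.fromBlocks_transpose, Matrix.fromBlocks_inj] at hS
  obtain ⟨hA, hC, hB, hD⟩ := hS
  rw [Matrix.fromBlocks_multiply] at h
  simp only [Matrix.mul_zero, add_zero, zero_add] at h
  obtain ⟨h1, h2⟩ := h
  unfold Matrix.IsSymm at h1
  rw [Matrix.fromBlocks_transpose, Matrix.fromBlocks_inj] at h1
  obtain ⟨h3, h4, h5, h6⟩ := h1
  have hA0 : A = 0 := b2m g hg hi hk A hA ⟨h3, fun a => h2 (Sum.inl a)⟩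
  have hD0 : D = 0 := b2m g hg hi hk D hD ⟨h6, fun a => h2 (Sum.inr a)⟩
  refine ⟨B, ?_, ?_⟩
  · rw [hA0, hD0, hB]
  · rw [← h4, Matrix.transpose_mul, hC]

theorem b2m_count (g : (ZMod 2)[X]) (hg : g.Monic) (hi : Irreducible g) (hk : 2 ≤ g.natDegree) :
    (∑ S : Matrix (Fin g.natDegree ⊕ Fin g.natDegree) (Fin g.natDegree ⊕ Fin g.natDegree) (ZMod 2),
      ind (S.IsSymm ∧ IsAlt (S * Matrix.fromBlocks (comp g) 0 0 (comp g)))) ≤ (2 : ℝ) ^ g.natDegree := by
  classical
  have h1 : (∑ S : Matrix (Fin g.natDegree ⊕ Fin g.natDegree) (Fin g.natDegree ⊕ Fin g.natDegree) (ZMod 2),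
      ind (S.IsSymm ∧ IsAlt (S * Matrix.fromBlocks (comp g) 0 0 (comp g)))) =
      ((Finset.univ.filter fun S : Matrix (Fin g.natDegree ⊕ Fin g.natDegree)
        (Fin g.natDegree ⊕ Fin g.natDegree) (ZMod 2) =>
        S.IsSymm ∧ IsAlt (S * Matrix.fromBlocks (comp g) 0 0 (comp g))).card : ℝ) := by
    rw [Finset.card_filter]
    push_cast
    refine Finset.sum_congr rfl fun S _ => ?_
    by_cases hP : S.IsSymm ∧ IsAlt (S * Matrix.fromBlocks (comp g) 0 0 (comp g))
    · rw [ind_true hP, if_pos hP]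
    · rw [ind_false hP, if_neg hP]
  rw [h1]
  have h2 : (Finset.univ.filter fun S : Matrix (Fin g.natDegree ⊕ Fin g.natDegree)
        (Fin g.natDegree ⊕ Fin g.natDegree) (ZMod 2) =>
        S.IsSymm ∧ IsAlt (S * Matrix.fromBlocks (comp g) 0 0 (comp g))).card ≤
      (Finset.univ : Finset (Fin g.natDegree → ZMod 2)).card := by
    refine Finset.card_le_card_of_injOn
      (fun S a => S (Sum.inl a) (Sum.inr ⟨0, by omega⟩)) (fun _ _ => Finset.mem_coe.2 (Finset.mem_univ _)) ?_
    intro S hS S' hS' heq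
    rw [Finset.mem_coe, Finset.mem_filter] at hS hS'
    obtain ⟨T, hT, hTC⟩ := b2m_blocks g hg hi hk S hS.2.1 hS.2.2
    obtain ⟨T', hT', hTC'⟩ := b2m_blocks g hg hi hk S' hS'.2.1 hS'.2.2
    subst hT
    subst hT'
    have h3 : T.mulVec (Pi.single ⟨0, by omega⟩ 1) = T'.mulVec (Pi.single ⟨0, by omega⟩ 1) := by
      rw [Matrix.mulVec_single_one, Matrix.mulVec_single_one]
      exact heq
    have h4 : ∀ f, T.mulVec (b2m_v g hk f) = T'.mulVec (b2m_v g hk f) := by
      intro f
      unfold b2m_v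
      rw [Matrix.mulVec_mulVec, Matrix.mulVec_mulVec, b2m_adj _ _ hTC f, b2m_adj _ _ hTC' f,
        ← Matrix.mulVec_mulVec, ← Matrix.mulVec_mulVec, h3]
    have h5 : T = T' := by
      ext a b
      obtain ⟨f, hf⟩ := b2m_surj g hk (Pi.single b 1)
      have h6 := congrFun (h4 f) a
      rw [hf, Matrix.mulVec_single_one, Matrix.mulVec_single_one] at h6
      exact h6
    rw [h5]
  have h7 : (Finset.univ : Finset (Fin g.natDegree → ZMod 2)).card = 2 ^ g.natDegree := by
    rw [Finset.card_univ, Fintype.card_fun, ZMod.card, Fintype.card_fin]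
  rw [h7] at h2
  exact_mod_cast h2

theorem b2m_two (g : (ZMod 2)[X]) (hg : g.Monic) (hi : Irreducible g) (hk : 2 ≤ g.natDegree)
    (S : Matrix (Fin g.natDegree ⊕ Fin g.natDegree) (Fin g.natDegree ⊕ Fin g.natDegree) (ZMod 2)) (hS : S.IsSymm)
    (h : IsAlt (S * Matrix.fromBlocks (comp g) 0 0 (comp g))) : IsAlt S ∧ (S = 0 ∨ S.det ≠ 0) := by
  classical
  obtain ⟨T, hT, hTC⟩ := b2m_blocks g hg hi hk S hS h
  subst hT
  refine ⟨⟨hS, ?_⟩, ?_⟩
  · rintro (a | a)
    · rfl
    · rfl
  · by_cases hT0 : T = 0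
    · left
      rw [hT0, Matrix.transpose_zero, Matrix.fromBlocks_zero]
    · right
      have hdet : T.det ≠ 0 := by
        intro hd
        obtain ⟨u, hu, hTu⟩ := Matrix.exists_mulVec_eq_zero_iff.2 hd
        obtain ⟨f, rfl⟩ := b2m_surj g hk u
        have hgf : ¬ g ∣ f := by
          intro hd
          apply hu
          have := b2m_v_dvd g hk hg f 0 (by rwa [sub_zero])
          rw [this, b2m_v_zero]
        apply hT0
        ext a b
        obtain ⟨f', hf'⟩ := b2m_surj g hk (Pi.single b 1)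
        obtain ⟨q, hq⟩ := b2m_inv g hi f hgf f'
        have h1 := b2m_v_dvd g hk hg _ _ hq
        rw [b2m_v_mul, hf'] at h1
        have h2 : T.mulVec (Pi.single b 1) = 0 := by
          rw [← h1, Matrix.mulVec_mulVec, b2m_adj _ _ hTC q, ← Matrix.mulVec_mulVec, hTu,
            Matrix.mulVec_zero]
        have h3 := congrFun h2 a
        rw [Matrix.mulVec_single_one] at h3
        exact h3
      intro hd
      obtain ⟨u, hu, hSu⟩ := Matrix.exists_mulVec_eq_zero_iff.2 hd
      apply hu
      have hdet' : T.transpose.det ≠ 0 := by rwa [Matrix.det_transpose]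
      have h1 : T.mulVec (u ∘ Sum.inr) = 0 := by
        have h2 := congrArg (fun w => w ∘ Sum.inl) hSu
        beta_reduce at h2
        rw [Matrix.fromBlocks_mulVec] at h2
        simpa using h2
      have h3 : T.transpose.mulVec (u ∘ Sum.inl) = 0 := by
        have h2 := congrArg (fun w => w ∘ Sum.inr) hSu
        beta_reduce at h2
        rw [Matrix.fromBlocks_mulVec] at h2
        simpa using h2
      have h4 := Matrix.eq_zero_of_mulVec_eq_zero hdet h1
      have h5 := Matrix.eq_zero_of_mulVec_eq_zero hdet' h3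
      funext x
      rcases x with x | x
      · exact congrFun h5 x
      · exact congrFun h4 x

end Pool.H64.IR

end S_B2M

section S_B3M

/-! MODULE B3M (project MP_a758cf_pr, IR; overview: team-store H64_a758cf.md)
Isotropic frames over F_2. Iso n k = number of n x k matrices V with independent columns and Vᵀ V = 0. Note v.v = 1.v (1 = all-ones vector).
lower: given independent isotropic v_1..v_j (j < k, 2k <= n) the number of v with v.v_i = 0, 1.v = 0, v not in the span is 2^(n-j-1) - 2^j if 1 is not in the span and 2^(n-j) - 2^j otherwise.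
prod_{j<k}(1 - 2^(2j+1-n)) >= 1 - sum 2^(2j+1-n) >= 1 - 4^k/2^n.
upper: V with 1 not in W = col V: at most prod 2^(n-j-1) = 2^(nk)/2^(k(k+1)/2). V with 1 in W: there is u /= 0 with V u = 1; for each u (2^k choices) change basis so that the first column is 1; the others:
at most 2^(n-j), j = 1..k-1 (orthogonal to the j previous ones): total 2^k 2^(n(k-1)) / 2^(k(k-1)/2) = (4^k/2^n) 2^(nk)/2^(k(k+1)/2).
b3_nd: if S (m x m) is symmetric, zero diagonal, det S /= 0 then #{V full rank, VᵀV = S} <= 2^(nm)/2^(m(m+1)/2): 1 is never in the span of v_1..v_j for j < m (an element u of W with u.w = 1.w = w.w = 0 for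
all w in W, as the form on W is alternating, is in the radical = 0; so 1 not in W), so v_{j+1} satisfies j+1 independent linear conditions.
b3_iso_zero: if 4k > n... more precisely an isotropic subspace has dimension <= n/2: if n < 2 m there is no full rank V (n x m) with VᵀV = 0.
-/

set_option autoImplicit false

namespace Pool.H64.IR

open Finset Polynomial

noncomputable def Iso (n k : ℕ) : ℝ := ∑ V : Matrix (Fin n) (Fin k) (ZMod 2), ind (FullRank V ∧ V.transpose * V = 0)

theorem b3_sum_ind {α : Type} [Fintype α] (P : α → Prop) [DecidablePred P] :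
    ∑ a, ind (P a) = ((univ.filter P).card : ℝ) := by
  unfold ind
  rw [Finset.card_eq_sum_ones, Finset.sum_filter]
  push_cast
  refine Finset.sum_congr rfl fun a _ => ?_
  congr

theorem b3_fiber {n : ℕ} {ι : Type} [Fintype ι] (w : ι → Fin n → ZMod 2) (s t : ι → ZMod 2)
    (hs : ∃ x, ∀ i, w i ⬝ᵥ x = s i) (ht : ∃ x, ∀ i, w i ⬝ᵥ x = t i) :
    (∑ x : Fin n → ZMod 2, ind (∀ i, w i ⬝ᵥ x = s i)) = ∑ x : Fin n → ZMod 2, ind (∀ i, w i ⬝ᵥ x = t i) := by
  classical
  obtain ⟨x0, hx0⟩ := hs
  obtain ⟨y0, hy0⟩ := ht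
  refine Fintype.sum_equiv (Equiv.addRight (y0 - x0)) _ _ fun x => ind_congr (forall_congr' fun i => ?_)
  rw [Equiv.coe_addRight, dotProduct_add, dotProduct_sub, hx0, hy0]
  constructor
  · intro h; rw [h]; ring
  · intro h; linear_combination h

theorem b3_total {n : ℕ} {ι : Type} [Fintype ι] [DecidableEq ι] (w : ι → Fin n → ZMod 2) :
    ∑ s : ι → ZMod 2, (∑ x : Fin n → ZMod 2, ind (∀ i, w i ⬝ᵥ x = s i)) = (2 : ℝ) ^ n := by
  classical
  rw [Finset.sum_comm]
  have h1 : ∀ x : Fin n → ZMod 2, ∑ s : ι → ZMod 2, ind (∀ i, w i ⬝ᵥ x = s i) = 1 := by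
    intro x
    rw [Finset.sum_eq_single (fun i => w i ⬝ᵥ x)]
    · exact ind_true fun i => rfl
    · intro s _ hs
      refine ind_false fun h => hs ?_
      ext i
      exact (h i).symm
    · intro h
      exact absurd (Finset.mem_univ _) h
  simp_rw [h1]
  simp

theorem b3_count {n : ℕ} {ι : Type} [Fintype ι] (w : ι → Fin n → ZMod 2) (hw : LinearIndependent (ZMod 2) w)
    (s : ι → ZMod 2) :
    (∑ x : Fin n → ZMod 2, ind (∀ i, w i ⬝ᵥ x = s i)) = (2 : ℝ) ^ n / 2 ^ (Fintype.card ι) := by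
  classical
  have hsurj : Function.Surjective (Matrix.mulVecLin (Matrix.of w)) := by
    rw [← LinearMap.range_eq_top]
    apply Submodule.eq_top_of_finrank_eq
    have h1 : (Matrix.of w).rank = Fintype.card ι := LinearIndependent.rank_matrix hw
    rw [Matrix.rank] at h1
    rw [h1]
    simp
  have hex : ∀ t : ι → ZMod 2, ∃ x, ∀ i, w i ⬝ᵥ x = t i := by
    intro t
    obtain ⟨x, hx⟩ := hsurj t
    exact ⟨x, fun i => congrFun hx i⟩
  have h2 := b3_total w
  have h3 : ∀ t : ι → ZMod 2, (∑ x : Fin n → ZMod 2, ind (∀ i, w i ⬝ᵥ x = t i)) =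
      ∑ x : Fin n → ZMod 2, ind (∀ i, w i ⬝ᵥ x = s i) := fun t => b3_fiber w t s (hex t) (hex s)
  simp_rw [h3] at h2
  rw [Finset.sum_const, Finset.card_univ, Fintype.card_fun, ZMod.card, nsmul_eq_mul] at h2
  rw [eq_div_iff (by positivity), mul_comm]
  push_cast at h2
  exact h2

theorem b3_count_ge {n : ℕ} {ι : Type} [Fintype ι] (w : ι → Fin n → ZMod 2) :
    (2 : ℝ) ^ n / 2 ^ (Fintype.card ι) ≤ ∑ x : Fin n → ZMod 2, ind (∀ i, w i ⬝ᵥ x = 0) := by
  classical
  have h2 := b3_total w
  have h3 : ∀ t : ι → ZMod 2, (∑ x : Fin n → ZMod 2, ind (∀ i, w i ⬝ᵥ x = t i)) ≤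
      ∑ x : Fin n → ZMod 2, ind (∀ i, w i ⬝ᵥ x = 0) := by
    intro t
    by_cases h : ∃ x, ∀ i, w i ⬝ᵥ x = t i
    · exact (b3_fiber w t (fun _ => 0) h ⟨0, fun i => by simp⟩).le
    · push Not at h
      have h4 : ∀ x : Fin n → ZMod 2, ind (∀ i, w i ⬝ᵥ x = t i) = 0 := by
        intro x
        refine ind_false fun h' => ?_
        obtain ⟨i, hi⟩ := h x
        exact hi (h' i)
      simp_rw [h4]
      rw [Finset.sum_const_zero]
      exact Finset.sum_nonneg fun x _ => ind_nonneg _
  have h5 := Finset.sum_le_sum fun (t : ι → ZMod 2) (_ : t ∈ univ) => h3 t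
  rw [h2, Finset.sum_const, Finset.card_univ, Fintype.card_fun, ZMod.card, nsmul_eq_mul] at h5
  rw [div_le_iff₀ (by positivity), mul_comm]
  push_cast at h5
  exact h5

/-- number of vectors in a translate of the span of `k` vectors -/
theorem b3_span_le {n k : ℕ} (v : Fin k → Fin n → ZMod 2) (u : Fin n → ZMod 2) :
    ∑ x : Fin n → ZMod 2, ind (x - u ∈ Submodule.span (ZMod 2) (Set.range v)) ≤ (2 : ℝ) ^ k := by
  classical
  rw [b3_sum_ind]
  have h1 : univ.filter (fun x : Fin n → ZMod 2 => x - u ∈ Submodule.span (ZMod 2) (Set.range v)) ⊆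
      (univ : Finset (Fin k → ZMod 2)).image (fun c => ∑ i, c i • v i + u) := by
    intro x hx
    have h2 := (Finset.mem_filter.1 hx).2
    rw [Submodule.mem_span_range_iff_exists_fun] at h2
    obtain ⟨c, hc⟩ := h2
    refine Finset.mem_image.2 ⟨c, Finset.mem_univ _, ?_⟩
    rw [hc]
    simp
  have h2 := (Finset.card_le_card h1).trans Finset.card_image_le
  rw [Finset.card_univ, Fintype.card_fun, ZMod.card, Fintype.card_fin] at h2
  exact_mod_cast h2

theorem b3_sum_cons {n k : ℕ} (f : (Fin (k + 1) → Fin n → ZMod 2) → ℝ) :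
    ∑ v : Fin (k + 1) → Fin n → ZMod 2, f v =
      ∑ v : Fin k → Fin n → ZMod 2, ∑ x : Fin n → ZMod 2, f (Fin.cons x v) := by
  classical
  rw [← Fintype.sum_prod_type']
  exact (Fintype.sum_equiv ((Equiv.prodComm _ _).trans (Fin.consEquiv (fun _ : Fin (k + 1) => Fin n → ZMod 2)))
    _ _ fun x => rfl).symm

theorem b3_self {n : ℕ} (x : Fin n → ZMod 2) : x ⬝ᵥ x = (1 : Fin n → ZMod 2) ⬝ᵥ x := by
  unfold dotProduct
  refine Finset.sum_congr rfl fun i _ => ?_
  have : ∀ a : ZMod 2, a * a = 1 * a := by decide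
  exact this (x i)

/-- frames whose span does not contain the all-ones vector -/
noncomputable def b3_A (n k : ℕ) (S : Fin k → Fin k → ZMod 2) : ℝ :=
  ∑ v : Fin k → Fin n → ZMod 2, ind (LinearIndependent (ZMod 2) v ∧
    (1 : Fin n → ZMod 2) ∉ Submodule.span (ZMod 2) (Set.range v) ∧ ∀ i j, v i ⬝ᵥ v j = S i j)

/-- isotropic frames whose span contains the all-ones vector -/
noncomputable def b3_B (n k : ℕ) : ℝ :=
  ∑ v : Fin k → Fin n → ZMod 2, ind (LinearIndependent (ZMod 2) v ∧
    (1 : Fin n → ZMod 2) ∈ Submodule.span (ZMod 2) (Set.range v) ∧ ∀ i j, v i ⬝ᵥ v j = 0)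

theorem b3_tri (k : ℕ) : (k + 1) * (k + 1 + 1) / 2 = k * (k + 1) / 2 + (k + 1) := by
  have : (k + 1) * (k + 1 + 1) = k * (k + 1) + (k + 1) * 2 := by ring
  rw [this, Nat.add_mul_div_right _ _ (by norm_num : 0 < 2)]

theorem b3_A_nonneg (n k : ℕ) (S : Fin k → Fin k → ZMod 2) : 0 ≤ b3_A n k S :=
  Finset.sum_nonneg fun _ _ => ind_nonneg _

theorem b3_A_le (n k : ℕ) (S : Fin k → Fin k → ZMod 2) :
    b3_A n k S ≤ ((2 : ℝ) ^ n) ^ k / (2 : ℝ) ^ (k * (k + 1) / 2) := by
  classical
  induction k with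
  | zero =>
    unfold b3_A
    have : ∑ v : Fin 0 → Fin n → ZMod 2, ind (LinearIndependent (ZMod 2) v ∧
        (1 : Fin n → ZMod 2) ∉ Submodule.span (ZMod 2) (Set.range v) ∧ ∀ i j, v i ⬝ᵥ v j = S i j) ≤
        ∑ v : Fin 0 → Fin n → ZMod 2, (1 : ℝ) := Finset.sum_le_sum fun v _ => ind_le_one _
    refine this.trans ?_
    simp
  | succ k ih =>
    unfold b3_A
    rw [b3_sum_cons]
    have h1 : ∀ v : Fin k → Fin n → ZMod 2,
        ∑ x : Fin n → ZMod 2, ind (LinearIndependent (ZMod 2) (Fin.cons x v : Fin (k + 1) → Fin n → ZMod 2) ∧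
          (1 : Fin n → ZMod 2) ∉ Submodule.span (ZMod 2) (Set.range (Fin.cons x v : Fin (k + 1) → Fin n → ZMod 2)) ∧
          ∀ i j, (Fin.cons x v : Fin (k + 1) → Fin n → ZMod 2) i ⬝ᵥ
            (Fin.cons x v : Fin (k + 1) → Fin n → ZMod 2) j = S i j) ≤
        ind (LinearIndependent (ZMod 2) v ∧ (1 : Fin n → ZMod 2) ∉ Submodule.span (ZMod 2) (Set.range v) ∧
          ∀ i j, v i ⬝ᵥ v j = S i.succ j.succ) * ((2 : ℝ) ^ n / 2 ^ (k + 1)) := by
      intro v
      by_cases hv : LinearIndependent (ZMod 2) v ∧ (1 : Fin n → ZMod 2) ∉ Submodule.span (ZMod 2) (Set.range v) ∧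
          ∀ i j, v i ⬝ᵥ v j = S i.succ j.succ
      · rw [ind_true hv, one_mul]
        have hli : LinearIndependent (ZMod 2) (Fin.cons 1 v : Fin (k + 1) → Fin n → ZMod 2) :=
          linearIndependent_finCons.2 ⟨hv.1, hv.2.1⟩
        have h2 := b3_count (Fin.cons 1 v : Fin (k + 1) → Fin n → ZMod 2) hli
          (Fin.cons (S 0 0) (fun i => S i.succ 0))
        rw [Fintype.card_fin] at h2
        rw [← h2]
        refine Finset.sum_le_sum fun x _ => ind_mono ?_
        rintro ⟨-, -, h⟩ i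
        refine Fin.cases ?_ (fun i => ?_) i
        · simp only [Fin.cons_zero]
          rw [← b3_self]
          simpa using h 0 0
        · simp only [Fin.cons_succ]
          simpa using h i.succ 0
      · rw [ind_false hv, zero_mul]
        refine (Finset.sum_eq_zero fun x _ => ind_false fun h => hv ⟨?_, ?_, ?_⟩).le
        · exact (linearIndependent_finCons.1 h.1).1
        · intro h'
          apply h.2.1
          rw [Fin.range_cons]
          exact Submodule.span_mono (Set.subset_insert _ _) h'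
        · intro i j
          simpa using h.2.2 i.succ j.succ
    have h2 := Finset.sum_le_sum fun (v : Fin k → Fin n → ZMod 2) (_ : v ∈ univ) => h1 v
    refine h2.trans ?_
    rw [← Finset.sum_mul]
    have h3 := ih (fun i j => S i.succ j.succ)
    unfold b3_A at h3
    refine (mul_le_mul_of_nonneg_right h3 (by positivity)).trans (le_of_eq ?_)
    rw [b3_tri, pow_succ ((2 : ℝ) ^ n), pow_add (2 : ℝ) (k * (k + 1) / 2)]
    field_simp

theorem b3_iso_eq (n k : ℕ) : Iso n k =
    ∑ v : Fin k → Fin n → ZMod 2, ind (LinearIndependent (ZMod 2) v ∧ ∀ i j, v i ⬝ᵥ v j = 0) := by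
  unfold Iso
  refine Fintype.sum_equiv (Matrix.transposeAddEquiv (Fin n) (Fin k) (ZMod 2)).toEquiv _ _ fun V => ind_congr ?_
  refine and_congr Iff.rfl ?_
  rw [← Matrix.ext_iff]
  exact Iff.rfl

theorem b3_iso_split (n k : ℕ) : Iso n k = b3_A n k 0 + b3_B n k := by
  rw [b3_iso_eq]
  unfold b3_A b3_B
  rw [← Finset.sum_add_distrib]
  refine Finset.sum_congr rfl fun v _ => ?_
  by_cases h : (1 : Fin n → ZMod 2) ∈ Submodule.span (ZMod 2) (Set.range v)
  · rw [ind_false (P := LinearIndependent (ZMod 2) v ∧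
      (1 : Fin n → ZMod 2) ∉ Submodule.span (ZMod 2) (Set.range v) ∧ ∀ i j, v i ⬝ᵥ v j = (0 : Fin k → Fin k → ZMod 2) i j)
      (fun h' => h'.2.1 h), zero_add]
    exact ind_congr ⟨fun h' => ⟨h'.1, h, h'.2⟩, fun h' => ⟨h'.1, h'.2.2⟩⟩
  · rw [ind_false (P := LinearIndependent (ZMod 2) v ∧
      (1 : Fin n → ZMod 2) ∈ Submodule.span (ZMod 2) (Set.range v) ∧ ∀ i j, v i ⬝ᵥ v j = 0)
      (fun h' => h h'.2.1), add_zero]
    exact ind_congr ⟨fun h' => ⟨h'.1, h, h'.2⟩, fun h' => ⟨h'.1, h'.2.2⟩⟩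

theorem b3_B_le (n k : ℕ) : b3_B n k ≤ (4 : ℝ) ^ k / (2 : ℝ) ^ n * (((2 : ℝ) ^ n) ^ k / (2 : ℝ) ^ (k * (k + 1) / 2)) := by
  classical
  induction k with
  | zero =>
    unfold b3_B
    rcases Nat.eq_zero_or_pos n with hn | hn
    · subst hn
      have : ∑ v : Fin 0 → Fin 0 → ZMod 2, ind (LinearIndependent (ZMod 2) v ∧
        (1 : Fin 0 → ZMod 2) ∈ Submodule.span (ZMod 2) (Set.range v) ∧ ∀ i j, v i ⬝ᵥ v j = 0) ≤
        ∑ v : Fin 0 → Fin 0 → ZMod 2, (1 : ℝ) := Finset.sum_le_sum fun v _ => ind_le_one _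
      refine this.trans ?_
      simp
    · have : ∑ v : Fin 0 → Fin n → ZMod 2, ind (LinearIndependent (ZMod 2) v ∧
        (1 : Fin n → ZMod 2) ∈ Submodule.span (ZMod 2) (Set.range v) ∧ ∀ i j, v i ⬝ᵥ v j = 0) = 0 := by
        refine Finset.sum_eq_zero fun v _ => ind_false ?_
        rintro ⟨-, h, -⟩
        rw [Set.range_eq_empty, Submodule.span_empty, Submodule.mem_bot] at h
        have := congrFun h ⟨0, hn⟩
        simp at this
      rw [this]
      positivity
  | succ k ih =>
    unfold b3_B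
    rw [b3_sum_cons]
    have h1 : ∀ v : Fin k → Fin n → ZMod 2,
        ∑ x : Fin n → ZMod 2, ind (LinearIndependent (ZMod 2) (Fin.cons x v : Fin (k + 1) → Fin n → ZMod 2) ∧
          (1 : Fin n → ZMod 2) ∈ Submodule.span (ZMod 2) (Set.range (Fin.cons x v : Fin (k + 1) → Fin n → ZMod 2)) ∧
          ∀ i j, (Fin.cons x v : Fin (k + 1) → Fin n → ZMod 2) i ⬝ᵥ
            (Fin.cons x v : Fin (k + 1) → Fin n → ZMod 2) j = 0) ≤
        ind (LinearIndependent (ZMod 2) v ∧ (1 : Fin n → ZMod 2) ∈ Submodule.span (ZMod 2) (Set.range v) ∧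
          ∀ i j, v i ⬝ᵥ v j = 0) * ((2 : ℝ) ^ n / 2 ^ k) +
        ind (LinearIndependent (ZMod 2) v ∧ (1 : Fin n → ZMod 2) ∉ Submodule.span (ZMod 2) (Set.range v) ∧
          ∀ i j, v i ⬝ᵥ v j = (0 : Fin k → Fin k → ZMod 2) i j) * (2 : ℝ) ^ k := by
      intro v
      have hp1 : (0 : ℝ) ≤ (2 : ℝ) ^ n / 2 ^ k := by positivity
      have hp2 : (0 : ℝ) ≤ (2 : ℝ) ^ k := by positivity
      by_cases hv : LinearIndependent (ZMod 2) v ∧ ∀ i j, v i ⬝ᵥ v j = 0
      swap
      · refine le_trans (Finset.sum_eq_zero fun x _ => ind_false fun h => hv ⟨?_, ?_⟩).le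
          (add_nonneg (mul_nonneg (ind_nonneg _) hp1) (mul_nonneg (ind_nonneg _) hp2))
        · exact (linearIndependent_finCons.1 h.1).1
        · intro i j
          simpa using h.2.2 i.succ j.succ
      by_cases h1v : (1 : Fin n → ZMod 2) ∈ Submodule.span (ZMod 2) (Set.range v)
      · have h2 := b3_count v hv.1 0
        rw [Fintype.card_fin] at h2
        rw [ind_true (P := LinearIndependent (ZMod 2) v ∧ (1 : Fin n → ZMod 2) ∈ Submodule.span (ZMod 2) (Set.range v) ∧
          ∀ i j, v i ⬝ᵥ v j = 0) ⟨hv.1, h1v, hv.2⟩, one_mul, ← h2]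
        refine le_trans (Finset.sum_le_sum fun x _ => ind_mono ?_)
          (le_add_of_nonneg_right (mul_nonneg (ind_nonneg _) hp2))
        rintro ⟨-, -, h⟩ i
        simpa using h i.succ 0
      · have h2 := b3_span_le v (1 : Fin n → ZMod 2)
        rw [ind_true (P := LinearIndependent (ZMod 2) v ∧ (1 : Fin n → ZMod 2) ∉ Submodule.span (ZMod 2) (Set.range v) ∧
          ∀ i j, v i ⬝ᵥ v j = (0 : Fin k → Fin k → ZMod 2) i j) ⟨hv.1, h1v, hv.2⟩, one_mul]
        refine le_trans (Finset.sum_le_sum fun x _ => ind_mono ?_)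
          (h2.trans (le_add_of_nonneg_left (mul_nonneg (ind_nonneg _) hp1)))
        rintro ⟨-, h, -⟩
        rw [Fin.range_cons, Submodule.mem_span_insert] at h
        obtain ⟨a, z, hz, h⟩ := h
        have hz2 : ∀ a : ZMod 2, a = 0 ∨ a = 1 := by decide
        have ha := hz2 a
        rcases ha with ha | ha
        · exfalso
          apply h1v
          rw [h, ha, zero_smul, zero_add]
          exact hz
        · rw [ha, one_smul] at h
          have h3 : x - 1 = - z := by rw [h]; ring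
          rw [h3]
          exact Submodule.neg_mem _ hz
    have h2 := Finset.sum_le_sum fun (v : Fin k → Fin n → ZMod 2) (_ : v ∈ univ) => h1 v
    refine h2.trans ?_
    rw [Finset.sum_add_distrib, ← Finset.sum_mul, ← Finset.sum_mul]
    have hA := b3_A_le n k 0
    unfold b3_A at hA
    unfold b3_B at ih
    have hp1 : (0 : ℝ) ≤ (2 : ℝ) ^ n / 2 ^ k := by positivity
    have hp2 : (0 : ℝ) ≤ (2 : ℝ) ^ k := by positivity
    refine (add_le_add (mul_le_mul_of_nonneg_right ih hp1) (mul_le_mul_of_nonneg_right hA hp2)).trans (le_of_eq ?_)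
    rw [b3_tri, pow_succ ((2 : ℝ) ^ n), pow_add (2 : ℝ) (k * (k + 1) / 2), pow_succ (4 : ℝ), pow_succ (2 : ℝ) k]
    have h4 : (4 : ℝ) ^ k = 2 ^ k * 2 ^ k := by
      rw [← mul_pow]; norm_num
    rw [h4]
    field_simp
    ring

theorem iso_lower (n k : ℕ) (hk : 2 * k ≤ n) :
    (1 - (4 : ℝ) ^ k / (2 : ℝ) ^ n) * (((2 : ℝ) ^ n) ^ k / (2 : ℝ) ^ (k * (k + 1) / 2)) ≤ Iso n k := by
  classical
  induction k with
  | zero =>
    rw [b3_iso_eq]
    have : ∑ v : Fin 0 → Fin n → ZMod 2, ind (LinearIndependent (ZMod 2) v ∧ ∀ i j, v i ⬝ᵥ v j = 0) = 1 := by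
      have h1 : ∀ v : Fin 0 → Fin n → ZMod 2, ind (LinearIndependent (ZMod 2) v ∧ ∀ i j, v i ⬝ᵥ v j = 0) = 1 := by
        intro v
        refine ind_true ⟨linearIndependent_empty_type, fun i => i.elim0⟩
      simp_rw [h1]
      simp
    rw [this]
    have h2 : (0 : ℝ) ≤ 1 / 2 ^ n := by positivity
    simp only [pow_zero, zero_mul, Nat.zero_div, div_one, mul_one]
    linarith
  | succ k ih =>
    have ih' := ih (by omega)
    rw [b3_iso_eq] at ih' ⊢
    rw [b3_sum_cons]
    have hkn : 2 * k + 1 ≤ n := by omega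
    have h1 : ∀ v : Fin k → Fin n → ZMod 2,
        ind (LinearIndependent (ZMod 2) v ∧ ∀ i j, v i ⬝ᵥ v j = 0) * ((2 : ℝ) ^ n / 2 ^ (k + 1) - 2 ^ k) ≤
        ∑ x : Fin n → ZMod 2, ind (LinearIndependent (ZMod 2) (Fin.cons x v : Fin (k + 1) → Fin n → ZMod 2) ∧
          ∀ i j, (Fin.cons x v : Fin (k + 1) → Fin n → ZMod 2) i ⬝ᵥ
            (Fin.cons x v : Fin (k + 1) → Fin n → ZMod 2) j = 0) := by
      intro v
      by_cases hv : LinearIndependent (ZMod 2) v ∧ ∀ i j, v i ⬝ᵥ v j = 0
      · rw [ind_true hv, one_mul]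
        have h2 := b3_count_ge (Fin.cons 1 v : Fin (k + 1) → Fin n → ZMod 2)
        rw [Fintype.card_fin] at h2
        have h3 := b3_span_le v (0 : Fin n → ZMod 2)
        have h4 : ∑ x : Fin n → ZMod 2, ind (∀ i, (Fin.cons 1 v : Fin (k + 1) → Fin n → ZMod 2) i ⬝ᵥ x = 0) ≤
          ∑ x : Fin n → ZMod 2, ind (LinearIndependent (ZMod 2) (Fin.cons x v : Fin (k + 1) → Fin n → ZMod 2) ∧
          ∀ i j, (Fin.cons x v : Fin (k + 1) → Fin n → ZMod 2) i ⬝ᵥ
            (Fin.cons x v : Fin (k + 1) → Fin n → ZMod 2) j = 0) +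
          ∑ x : Fin n → ZMod 2, ind (x - 0 ∈ Submodule.span (ZMod 2) (Set.range v)) := by
          rw [← Finset.sum_add_distrib]
          refine Finset.sum_le_sum fun x _ => (ind_mono ?_).trans (ind_or_le _ _)
          intro h
          by_cases hx : x ∈ Submodule.span (ZMod 2) (Set.range v)
          · right; simpa using hx
          · left
            refine ⟨linearIndependent_finCons.2 ⟨hv.1, hx⟩, ?_⟩
            have h0 : x ⬝ᵥ x = 0 := by rw [b3_self]; simpa using h 0
            have hi : ∀ i, v i ⬝ᵥ x = 0 := fun i => by simpa using h i.succ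
            intro i j
            refine Fin.cases ?_ (fun i => ?_) i
            · refine Fin.cases ?_ (fun j => ?_) j
              · simpa using h0
              · simp only [Fin.cons_zero, Fin.cons_succ]
                rw [dotProduct_comm]
                exact hi j
            · refine Fin.cases ?_ (fun j => ?_) j
              · simpa using hi i
              · simpa using hv.2 i j
        linarith
      · rw [ind_false hv, zero_mul]
        exact Finset.sum_nonneg fun x _ => ind_nonneg _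
    have h2 := Finset.sum_le_sum fun (v : Fin k → Fin n → ZMod 2) (_ : v ∈ univ) => h1 v
    refine le_trans ?_ h2
    rw [← Finset.sum_mul]
    have h3 : (2 : ℝ) ^ n / 2 ^ (k + 1) - 2 ^ k = (2 : ℝ) ^ n / 2 ^ (k + 1) * (1 - 2 * (4 : ℝ) ^ k / 2 ^ n) := by
      have h4 : (4 : ℝ) ^ k = 2 ^ k * 2 ^ k := by
        rw [← mul_pow]; norm_num
      rw [h4, pow_succ]
      field_simp
    have h5 : 2 * (4 : ℝ) ^ k / 2 ^ n ≤ 1 := by
      rw [div_le_one (by positivity)]
      calc 2 * (4 : ℝ) ^ k = 2 ^ (2 * k + 1) := by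
            rw [pow_succ, pow_mul]; norm_num; ring
        _ ≤ 2 ^ n := pow_le_pow_right₀ (by norm_num) hkn
    have h6 : (0 : ℝ) ≤ (2 : ℝ) ^ n / 2 ^ (k + 1) - 2 ^ k := by
      rw [h3]
      exact mul_nonneg (by positivity) (by linarith)
    refine le_trans ?_ (mul_le_mul_of_nonneg_right ih' h6)
    rw [h3, b3_tri, pow_succ ((2 : ℝ) ^ n), pow_add (2 : ℝ) (k * (k + 1) / 2)]
    set t : ℝ := (4 : ℝ) ^ k / 2 ^ n with ht
    have ht0 : 0 ≤ t := by positivity
    have e1 : (4 : ℝ) ^ (k + 1) / 2 ^ n = 4 * t := by rw [ht, pow_succ]; ring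
    have e2 : 2 * (4 : ℝ) ^ k / 2 ^ n = 2 * t := by rw [ht]; ring
    rw [e1, e2]
    set c : ℝ := ((2 : ℝ) ^ n) ^ k / 2 ^ (k * (k + 1) / 2) with hc
    have hc0 : 0 ≤ c := by positivity
    set d : ℝ := (2 : ℝ) ^ n / 2 ^ (k + 1) with hd
    have hd0 : 0 ≤ d := by positivity
    have e3 : ((2 : ℝ) ^ n) ^ k * 2 ^ n / (2 ^ (k * (k + 1) / 2) * 2 ^ (k + 1)) = c * d := by
      rw [hc, hd, div_mul_div_comm]
    rw [e3]
    have e4 : (1 - 4 * t) ≤ (1 - t) * (1 - 2 * t) := by nlinarith [sq_nonneg t]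
    calc (1 - 4 * t) * (c * d) ≤ ((1 - t) * (1 - 2 * t)) * (c * d) :=
          mul_le_mul_of_nonneg_right e4 (mul_nonneg hc0 hd0)
      _ = _ := by ring

theorem iso_upper (n k : ℕ) (hk : 2 * k ≤ n) :
    Iso n k ≤ (1 + (4 : ℝ) ^ k / (2 : ℝ) ^ n) * (((2 : ℝ) ^ n) ^ k / (2 : ℝ) ^ (k * (k + 1) / 2)) := by
  rw [b3_iso_split, add_mul, one_mul]
  exact add_le_add (b3_A_le n k 0) (b3_B_le n k)

theorem b3_nd {n : ℕ} {κ : Type} [Fintype κ] [DecidableEq κ] (S : Matrix κ κ (ZMod 2)) (hS : S.IsSymm) (h0 : ∀ a, S a a = 0) (hd : S.det ≠ 0) :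
    (∑ V : Matrix (Fin n) κ (ZMod 2), ind (FullRank V ∧ V.transpose * V = S)) ≤
      ((2 : ℝ) ^ n) ^ Fintype.card κ / (2 : ℝ) ^ (Fintype.card κ * (Fintype.card κ + 1) / 2) := by
  classical
  rcases Nat.eq_zero_or_pos n with hn | hn
  · subst hn
    rcases isEmpty_or_nonempty κ with hκ | ⟨⟨a⟩⟩
    · have h1 : (∑ V : Matrix (Fin 0) κ (ZMod 2), ind (FullRank V ∧ V.transpose * V = S)) ≤
        ∑ V : Matrix (Fin 0) κ (ZMod 2), (1 : ℝ) := Finset.sum_le_sum fun V _ => ind_le_one _
      refine h1.trans ?_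
      rw [Finset.sum_const, Finset.card_univ, Fintype.card_eq_zero (α := κ)]
      have : Fintype.card (Matrix (Fin 0) κ (ZMod 2)) = 1 := by
        rw [← Nat.card_eq_fintype_card]
        change Nat.card (Fin 0 → κ → ZMod 2) = 1
        simp
      rw [this]
      simp
    · refine le_trans (Finset.sum_eq_zero fun V _ => ind_false ?_).le (by positivity)
      rintro ⟨h, -⟩
      have := h.ne_zero a
      apply this
      ext i
      exact i.elim0
  set e := Fintype.equivFin κ with he
  have hA := b3_A_le n (Fintype.card κ) (fun i j => S (e.symm i) (e.symm j))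
  refine le_trans (b := ∑ v : Fin (Fintype.card κ) → Fin n → ZMod 2,
      ind (LinearIndependent (ZMod 2) v ∧ ∀ i j, v i ⬝ᵥ v j = S (e.symm i) (e.symm j))) (le_of_eq ?_) (le_trans ?_ hA)
  · refine Fintype.sum_equiv ((Matrix.transposeAddEquiv (Fin n) κ (ZMod 2)).toEquiv.trans
      (Equiv.arrowCongr e (Equiv.refl _))) _ _ fun V => ind_congr ?_
    refine and_congr ?_ ?_
    · unfold FullRank
      exact (linearIndependent_equiv e.symm).symm
    · rw [← Matrix.ext_iff]
      constructor
      · intro h i j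
        exact h (e.symm i) (e.symm j)
      · intro h i j
        have := h (e i) (e j)
        simp only [Equiv.symm_apply_apply] at this
        rw [← this]
        change _ = (fun l => V l (e.symm (e i))) ⬝ᵥ (fun l => V l (e.symm (e j)))
        simp only [Equiv.symm_apply_apply]
        rfl
  · unfold b3_A
    refine Finset.sum_le_sum fun v _ => ind_mono ?_
    rintro ⟨h1, h2⟩
    refine ⟨h1, ?_, h2⟩
    intro hone
    rw [Submodule.mem_span_range_iff_exists_fun] at hone
    obtain ⟨c, hc⟩ := hone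
    have h3 : ∀ a : κ, v (e a) ⬝ᵥ (1 : Fin n → ZMod 2) = 0 := by
      intro a
      rw [dotProduct_comm, ← b3_self, h2]
      simp [h0]
    have h4 : S.mulVec (fun a => c (e a)) = 0 := by
      ext a
      rw [Pi.zero_apply, ← h3 a, ← hc, dotProduct_sum]
      simp only [dotProduct_smul, h2, smul_eq_mul, Equiv.symm_apply_apply]
      rw [Matrix.mulVec, dotProduct]
      refine Fintype.sum_equiv e _ _ fun b => ?_
      rw [Equiv.symm_apply_apply, mul_comm]
    have h5 := Matrix.eq_zero_of_mulVec_eq_zero hd h4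
    have h6 : ∀ i, c i = 0 := by
      intro i
      have := congrFun h5 (e.symm i)
      simpa using this
    have h7 : (1 : Fin n → ZMod 2) = 0 := by
      rw [← hc]
      simp [h6]
    have := congrFun h7 ⟨0, hn⟩
    simp at this

theorem b3_iso_zero {n : ℕ} {κ : Type} [Fintype κ] [DecidableEq κ] (h : n < 2 * Fintype.card κ) (V : Matrix (Fin n) κ (ZMod 2))
    (hV : FullRank V) : V.transpose * V ≠ 0 := by
  intro h0
  have h1 := Matrix.rank_add_rank_le_card_of_mul_eq_zero h0
  have h2 : V.transpose.rank = Fintype.card κ := LinearIndependent.rank_matrix (M := V.transpose) hV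
  rw [Matrix.rank_transpose] at h1 h2
  rw [h2, Fintype.card_fin] at h1
  omega

end Pool.H64.IR

end S_B3M

section S_B7M

/-! MODULE B7M (project MP_a758cf_pr, IR; overview: team-store H64_a758cf.md)
The mod 4 lemma. g monic irreducible over ZMod 2, k = deg g, K = AdjoinRoot g, x its root. R4 = AdjoinRoot g4, g4 in (ZMod 4)[X] a monic lift of g; the reduction R4 -> K is surjective with kernel 2 R4 and
y -> 2 y~ identifies K with 2 R4 (2 r = 0 iff r in 2 R4: R4 is free over ZMod 4).
If f1 f2 = charpoly over ℤ and g divides both mod 2: f1(x), f2(x) in 2 R4, so det(x - A) = charpoly(x) = 0 in R4. M = x - A over R4. If kerc g A = 2^k the eigenspace of A over K for x is one-dimensional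
(number of v in K^n with A v = x v equals kerc g A: z in ker g(A) <-> v; or: dim over K of eigenspace m, kerc = q^m), so M mod 2 has rank n-1 and adjugate(M) /= 0 mod 2: some column y = adj(M) e_j is nonzero
mod 2, and M y = det(M) e_j = 0. So A y = x y in R4^n, also for c~ y. Then x sum y_i^2 = sum_ij a_ij y_i y_j = 2 sum_{i<j} a_ij y_i y_j, where sum y_i^2 depends only on v = y mod 2
((y+2z)^2 = y^2 in R4), so (dividing by 2) sum_{i<j} a_ij v_i v_j = s(v) in K with s(v) determined by v: s(v) = the w in K with 2 w~ = x sum (lift v_i)^2 if it exists, 0 otherwise.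
(In the formal proof the ring is AdjoinRoot G, G a monic lift of g to the integers.)
-/

set_option autoImplicit false

namespace Pool.H64.IR

open Finset Polynomial

/-- bad splitting event: an integer factorization of the characteristic polynomial both factors of which are divisible by g mod 2 -/
def Bad4 {n : ℕ} (g : (ZMod 2)[X]) (b : Edge n → Bool) : Prop :=
  ∃ f1 f2 : ℤ[X], f1 * f2 = (adj ℤ b).charpoly ∧ g ∣ f1.map (Int.castRingHom (ZMod 2)) ∧ g ∣ f2.map (Int.castRingHom (ZMod 2))

/-- sums over pairs -/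
lemma b7m_pairs {n : ℕ} {R : Type} [AddCommMonoid R] (f : Fin n → Fin n → R) (hf : ∀ i, f i i = 0) :
    ∑ i, ∑ j, f i j = ∑ e : Edge n, (f e.1.1 e.1.2 + f e.1.2 e.1.1) := by
  have h1 : ∑ i, ∑ j, f i j = ∑ x : Fin n × Fin n, f x.1 x.2 := by
    rw [Fintype.sum_prod_type]
  have h2 : ∑ x : Fin n × Fin n, f x.1 x.2 =
      ∑ x ∈ univ.filter (fun x : Fin n × Fin n => x.1 < x.2), f x.1 x.2 +
      ∑ x ∈ univ.filter (fun x : Fin n × Fin n => ¬ x.1 < x.2), f x.1 x.2 :=
    (Finset.sum_filter_add_sum_filter_not _ _ _).symm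
  have h3 : ∑ x ∈ univ.filter (fun x : Fin n × Fin n => ¬ x.1 < x.2), f x.1 x.2 =
      ∑ x ∈ univ.filter (fun x : Fin n × Fin n => x.1 < x.2), f x.2 x.1 := by
    have h4 : ∑ x ∈ univ.filter (fun x : Fin n × Fin n => ¬ x.1 < x.2), f x.1 x.2 =
        ∑ x ∈ univ.filter (fun x : Fin n × Fin n => x.2 < x.1), f x.1 x.2 := by
      symm
      refine Finset.sum_subset ?_ ?_
      · intro x hx
        rw [Finset.mem_filter] at hx ⊢
        exact ⟨hx.1, not_lt.2 hx.2.le⟩
      · intro x hx hx'
        rw [Finset.mem_filter] at hx hx'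
        have h5 : x.1 = x.2 := by
          refine le_antisymm ?_ (not_lt.1 hx.2)
          by_contra h6
          exact hx' ⟨Finset.mem_univ _, not_le.1 h6⟩
        rw [h5]
        exact hf _
    rw [h4]
    refine Finset.sum_nbij' (fun x => (x.2, x.1)) (fun x => (x.2, x.1)) ?_ ?_ ?_ ?_ ?_
    · intro x hx
      rw [Finset.mem_filter] at hx ⊢
      exact ⟨Finset.mem_univ _, hx.2⟩
    · intro x hx
      rw [Finset.mem_filter] at hx ⊢
      exact ⟨Finset.mem_univ _, hx.2⟩
    · intro x _; rfl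
    · intro x _; rfl
    · intro x _; rfl
  have h5 : ∀ F : Fin n × Fin n → R, ∑ x ∈ univ.filter (fun x : Fin n × Fin n => x.1 < x.2), F x =
      ∑ e : Edge n, F e.1 := fun F =>
    Finset.sum_subtype _ (fun x => by simp) F
  rw [h1, h2, h3, h5, h5, ← Finset.sum_add_distrib]

lemma b7m_adj_lt {n : ℕ} {R : Type} [Zero R] [One R] (b : Edge n → Bool) (e : Edge n) :
    adj R b e.1.1 e.1.2 = if b e then 1 else 0 := by
  unfold adj
  rw [Matrix.of_apply, dif_pos e.2]

lemma b7m_adj_gt {n : ℕ} {R : Type} [Zero R] [One R] (b : Edge n → Bool) (e : Edge n) :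
    adj R b e.1.2 e.1.1 = if b e then 1 else 0 := by
  unfold adj
  rw [Matrix.of_apply, dif_neg (not_lt.2 e.2.le), dif_pos e.2]

lemma b7m_adj_self {n : ℕ} {R : Type} [Zero R] [One R] (b : Edge n → Bool) (i : Fin n) :
    adj R b i i = 0 := by
  unfold adj
  rw [Matrix.of_apply, dif_neg (lt_irrefl _), dif_neg (lt_irrefl _)]

lemma b7m_adj_map {n : ℕ} {R S : Type} [CommRing R] [CommRing S] (φ : R →+* S)
    (b : Edge n → Bool) : (adj R b).map φ = adj S b := by
  ext i j
  rw [Matrix.map_apply]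
  unfold adj
  rw [Matrix.of_apply, Matrix.of_apply]
  split_ifs <;> simp

/-- the abstract mod 4 argument -/
lemma b7m_abs {R K : Type} [CommRing R] [CommRing K] (π : R →+* K)
    (hker : ∀ r, π r = 0 → ∃ s, r = 2 * s) (htor : ∀ r : R, 2 * r = 0 → r = 0)
    (hπ2 : (2 : K) = 0) (x : R) (n : ℕ) :
    ∃ s : (Fin n → K) → K, ∀ (b : Edge n → Bool) (y t : Fin n → R),
      (∀ i, x * y i - ∑ j, adj R b i j * y j = 4 * t i) →
      (∑ e : Edge n, if b e then π (y e.1.1) * π (y e.1.2) else 0) = s (fun i => π (y i)) := by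
  classical
  have key : ∀ (y y' : Fin n → R) (w w' : R), (∀ i, π (y i) = π (y' i)) →
      x * ∑ i, y i ^ 2 = 2 * w → x * ∑ i, y' i ^ 2 = 2 * w' → π w = π w' := by
    intro y y' w w' h hw hw'
    have h1 : ∀ i, ∃ z, y' i - y i = 2 * z := fun i => hker _ (by rw [map_sub, h i, sub_self])
    choose z hz using h1
    have h2 : ∑ i, y' i ^ 2 = ∑ i, y i ^ 2 + 4 * ∑ i, (y i * z i + z i ^ 2) := by
      rw [Finset.mul_sum, ← Finset.sum_add_distrib]
      refine Finset.sum_congr rfl fun i _ => ?_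
      have : y' i = y i + 2 * z i := by rw [← hz i]; ring
      rw [this]; ring
    have h3 : 2 * (w' - w - 2 * (x * ∑ i, (y i * z i + z i ^ 2))) = 0 := by
      have h4 : 2 * w' = 2 * w + 4 * (x * ∑ i, (y i * z i + z i ^ 2)) := by
        rw [← hw', ← hw, h2]; ring
      rw [mul_sub, mul_sub, h4]; ring
    have h5 := htor _ h3
    have h6 : w' = w + 2 * (x * ∑ i, (y i * z i + z i ^ 2)) := by
      rw [sub_sub, sub_eq_zero] at h5; exact h5
    rw [h6, map_add, map_mul, map_ofNat, hπ2, zero_mul, add_zero]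
  refine ⟨fun v => if h : ∃ w : R, ∃ y : Fin n → R, (∀ i, π (y i) = v i) ∧
      x * ∑ i, y i ^ 2 = 2 * w then π h.choose else 0, fun b y t hy => ?_⟩
  have h1 : x * ∑ i, y i ^ 2 =
      2 * ((∑ e : Edge n, if b e then y e.1.1 * y e.1.2 else 0) + 2 * ∑ i, t i * y i) := by
    have h2 : ∑ i, y i * (x * y i - ∑ j, adj R b i j * y j) = ∑ i, y i * (4 * t i) :=
      Finset.sum_congr rfl fun i _ => by rw [hy i]
    have h3 : ∑ i, y i * (x * y i - ∑ j, adj R b i j * y j) =
        x * ∑ i, y i ^ 2 - ∑ i, ∑ j, adj R b i j * y i * y j := by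
      rw [Finset.mul_sum, ← Finset.sum_sub_distrib]
      refine Finset.sum_congr rfl fun i _ => ?_
      rw [mul_sub, Finset.mul_sum]
      congr 1
      · ring
      · exact Finset.sum_congr rfl fun j _ => by ring
    have h4 : ∑ i, ∑ j, adj R b i j * y i * y j =
        2 * ∑ e : Edge n, if b e then y e.1.1 * y e.1.2 else 0 := by
      rw [b7m_pairs (fun i j => adj R b i j * y i * y j) (fun i => by
        rw [b7m_adj_self]; ring), Finset.mul_sum]
      refine Finset.sum_congr rfl fun e _ => ?_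
      rw [b7m_adj_lt, b7m_adj_gt]
      split_ifs <;> ring
    have h5 : ∑ i, y i * (4 * t i) = 4 * ∑ i, t i * y i := by
      rw [Finset.mul_sum]
      exact Finset.sum_congr rfl fun i _ => by ring
    rw [h3, h4, h5] at h2
    linear_combination h2
  have h2 : ∃ w : R, ∃ y' : Fin n → R, (∀ i, π (y' i) = π (y i)) ∧
      x * ∑ i, y' i ^ 2 = 2 * w := ⟨_, y, fun i => rfl, h1⟩
  show _ = dite _ _ _
  rw [dif_pos h2]
  obtain ⟨y', hy', hw'⟩ := h2.choose_spec
  rw [key y' y _ _ hy' hw' h1, map_add, map_mul, map_ofNat, hπ2, zero_mul, add_zero, map_sum]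
  refine Finset.sum_congr rfl fun e _ => ?_
  split_ifs
  · rw [map_mul]
  · rw [map_zero]

/-- a square matrix over a finite field whose kernel has at most `card K` elements has a nonzero adjugate -/
lemma b7m_adjugate {K : Type} [Field K] [Finite K] {n : ℕ} (hn : 0 < n)
    (N : Matrix (Fin n) (Fin n) K) (hE : Nat.card {v : Fin n → K // N.mulVec v = 0} ≤ Nat.card K) :
    N.adjugate ≠ 0 := by
  classical
  intro h0
  obtain ⟨L, L', D, hD⟩ := Matrix.Pivot.exists_list_transvec_mul_mul_list_transvec_eq_diagonal N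
  set P := (L.map Matrix.TransvectionStruct.toMatrix).prod with hP
  set Q := (L'.map Matrix.TransvectionStruct.toMatrix).prod with hQ
  have hPdet : P.det = 1 := Matrix.TransvectionStruct.det_toMatrix_prod L
  have hQdet : Q.det = 1 := Matrix.TransvectionStruct.det_toMatrix_prod L'
  have h1 : (Matrix.diagonal D).adjugate = 0 := by
    rw [← hD, Matrix.adjugate_mul_distrib, Matrix.adjugate_mul_distrib, h0, zero_mul, mul_zero]
  rw [Matrix.adjugate_diagonal] at h1
  have h2 : ∀ i, ∃ j, j ≠ i ∧ D j = 0 := by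
    intro i
    have h3 : (Matrix.diagonal fun i => ∏ j ∈ Finset.univ.erase i, D j) i i = 0 := by rw [h1]; rfl
    rw [Matrix.diagonal_apply_eq, Finset.prod_eq_zero_iff] at h3
    obtain ⟨j, hj, hj0⟩ := h3
    exact ⟨j, Finset.ne_of_mem_erase hj, hj0⟩
  obtain ⟨j1, -, hj1⟩ := h2 ⟨0, hn⟩
  obtain ⟨j2, hj21, hj2⟩ := h2 j1
  have hQinj : ∀ w : Fin n → K, Q.mulVec w = 0 → w = 0 := fun w hw =>
    Matrix.eq_zero_of_mulVec_eq_zero (by rw [hQdet]; exact one_ne_zero) hw
  have hPinj : ∀ w : Fin n → K, P.mulVec w = 0 → w = 0 := fun w hw =>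
    Matrix.eq_zero_of_mulVec_eq_zero (by rw [hPdet]; exact one_ne_zero) hw
  let u : K × K → Fin n → K := fun c => Pi.single j1 c.1 + Pi.single j2 c.2
  have hu : ∀ c, (Matrix.diagonal D).mulVec (u c) = 0 := by
    intro c
    ext i
    rw [Matrix.mulVec_diagonal]
    by_cases h3 : i = j1
    · rw [h3, hj1, zero_mul]; rfl
    · by_cases h4 : i = j2
      · rw [h4, hj2, zero_mul]; rfl
      · simp [u, h3, h4]
  have hN : ∀ c, N.mulVec (Q.mulVec (u c)) = 0 := by
    intro c
    refine hPinj _ ?_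
    rw [Matrix.mulVec_mulVec, Matrix.mulVec_mulVec, hD]
    exact hu c
  have hinj : Function.Injective
      (fun c : K × K => (⟨Q.mulVec (u c), hN c⟩ : {v : Fin n → K // N.mulVec v = 0})) := by
    intro c c' h
    have h3 : Q.mulVec (u c) = Q.mulVec (u c') := congrArg Subtype.val h
    have h4 : u c - u c' = 0 := hQinj _ (by rw [Matrix.mulVec_sub, h3, sub_self])
    have h5 := congrFun h4 j1
    have h6 := congrFun h4 j2
    simp only [u, Pi.sub_apply, Pi.add_apply, Pi.single_eq_same, Pi.zero_apply,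
      Pi.single_eq_of_ne hj21, Pi.single_eq_of_ne hj21.symm, add_zero, zero_add, sub_eq_zero]
      at h5 h6
    exact Prod.ext h5 h6
  have hcard := Nat.card_le_card_of_injective _ hinj
  rw [Nat.card_prod] at hcard
  have h7 : 1 < Nat.card K := Finite.one_lt_card
  nlinarith

/-- eigenvectors over the field give vectors in the kernel of `g(A)` -/
lemma b7m_eig {n : ℕ} (g : (ZMod 2)[X]) (hg : g.Monic) (hi : Irreducible g)
    (A : Matrix (Fin n) (Fin n) (ZMod 2)) :
    (Nat.card {v : Fin n → AdjoinRoot g //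
      ∀ i, ∑ j, A i j • v j = AdjoinRoot.root g * v i} : ℝ) ≤ kerc g A := by
  classical
  have : Fact (Irreducible g) := ⟨hi⟩
  have hk : kerc g A = (Nat.card {z : Fin n → ZMod 2 // (Polynomial.aeval A g).mulVec z = 0} : ℝ) := by
    rw [Nat.card_eq_fintype_card, Fintype.card_subtype, Finset.card_filter, Nat.cast_sum]
    unfold kerc
    refine Finset.sum_congr rfl fun z _ => ?_
    by_cases h : (Polynomial.aeval A g).mulVec z = 0
    · rw [ind_true h, if_pos h, Nat.cast_one]
    · rw [ind_false h, if_neg h, Nat.cast_zero]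
  rw [hk]
  obtain ⟨φ, hφ⟩ : ∃ φ : Module.Dual (ZMod 2) (AdjoinRoot g), φ 1 ≠ 0 := by
    by_contra h
    push Not at h
    exact one_ne_zero ((Module.forall_dual_apply_eq_zero_iff (ZMod 2) (1 : AdjoinRoot g)).1 h)
  have step : ∀ (v : Fin n → AdjoinRoot g), (∀ i, ∑ j, A i j • v j = AdjoinRoot.root g * v i) →
      ∀ (m : ℕ), (A ^ m).mulVec (fun i => φ (v i)) =
        fun i => φ (AdjoinRoot.root g ^ m * v i) := by
    intro v hv m
    induction m with
    | zero => ext i; simp
    | succ m ih =>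
      rw [pow_succ', ← Matrix.mulVec_mulVec, ih]
      ext i
      show ∑ j, A i j * φ (AdjoinRoot.root g ^ m * v j) = φ (AdjoinRoot.root g ^ (m + 1) * v i)
      have h1 : AdjoinRoot.root g ^ (m + 1) * v i = ∑ j, A i j • (AdjoinRoot.root g ^ m * v j) := by
        rw [pow_succ, mul_assoc, ← hv i, Finset.mul_sum]
        refine Finset.sum_congr rfl fun j _ => ?_
        rw [mul_smul_comm]
      rw [h1, map_sum]
      refine Finset.sum_congr rfl fun j _ => ?_
      rw [map_smul, smul_eq_mul]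
  have step2 : ∀ (v : Fin n → AdjoinRoot g), (∀ i, ∑ j, A i j • v j = AdjoinRoot.root g * v i) →
      ∀ (f : (ZMod 2)[X]), (Polynomial.aeval A f).mulVec (fun i => φ (v i)) =
        fun i => φ (AdjoinRoot.mk g f * v i) := by
    intro v hv f
    induction f using Polynomial.induction_on' with
    | add p q hp hq =>
      rw [map_add, Matrix.add_mulVec, hp, hq]
      ext i
      rw [map_add, add_mul, map_add]; rfl
    | monomial m a =>
      rw [Polynomial.aeval_monomial, ← Polynomial.C_mul_X_pow_eq_monomial, map_mul, map_pow,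
        AdjoinRoot.mk_X, AdjoinRoot.mk_C, Algebra.algebraMap_eq_smul_one, smul_mul_assoc, one_mul,
        Matrix.smul_mulVec, step v hv m]
      ext i
      show a • φ (AdjoinRoot.root g ^ m * v i) = _
      rw [← map_smul]
      congr 1
      rw [mul_assoc, Algebra.smul_def]
      rfl
  refine Nat.cast_le.2 (Nat.card_le_card_of_injective
    (fun v => (⟨fun i => φ (v.1 i), ?_⟩ : {z : Fin n → ZMod 2 //
      (Polynomial.aeval A g).mulVec z = 0})) ?_)
  · rw [step2 v.1 v.2 g, AdjoinRoot.mk_self]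
    ext i
    simp
  · intro v v' h
    have h1 : ∀ i, φ (v.1 i) = φ (v'.1 i) := fun i => congrFun (congrArg Subtype.val h) i
    refine Subtype.ext (funext fun i => ?_)
    by_contra hne
    have hw : ∀ i, ∑ j, A i j • (v.1 j - v'.1 j) = AdjoinRoot.root g * (v.1 i - v'.1 i) := by
      intro i
      rw [mul_sub, ← v.2 i, ← v'.2 i, ← Finset.sum_sub_distrib]
      exact Finset.sum_congr rfl fun j _ => smul_sub _ _ _
    have h2 : (fun i => φ (v.1 i - v'.1 i)) = 0 := by
      ext i
      rw [map_sub, h1 i, sub_self]; rfl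
    obtain ⟨f, hf⟩ := AdjoinRoot.mk_surjective (v.1 i - v'.1 i)⁻¹
    have h3 := step2 _ hw f
    rw [h2, Matrix.mulVec_zero] at h3
    have h4 := congrFun h3 i
    rw [hf, inv_mul_cancel₀ (sub_ne_zero.2 hne)] at h4
    exact hφ h4.symm

/-- reduction of the integral model -/
lemma b7m_ring (g : (ZMod 2)[X]) (hg : g.Monic) :
    ∃ G : ℤ[X], G.Monic ∧ ∃ π : AdjoinRoot G →+* AdjoinRoot g,
      Function.Surjective π ∧ (∀ r, π r = 0 → ∃ s, r = 2 * s) ∧
      (∀ r : AdjoinRoot G, 2 * r = 0 → r = 0) ∧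
      (∀ F : ℤ[X], π (AdjoinRoot.mk G F) = AdjoinRoot.mk g (F.map (Int.castRingHom (ZMod 2)))) := by
  have hsurj : Function.Surjective (Int.castRingHom (ZMod 2)) := ZMod.intCast_surjective
  have hlift : ∀ f : (ZMod 2)[X], ∃ F : ℤ[X], F.map (Int.castRingHom (ZMod 2)) = f :=
    Polynomial.map_surjective _ hsurj
  have hev : ∀ F : ℤ[X], F.map (Int.castRingHom (ZMod 2)) = 0 → ∃ U : ℤ[X], F = 2 * U := by
    intro F hF
    have h1 : Polynomial.C (2 : ℤ) ∣ F := by
      rw [Polynomial.C_dvd_iff_dvd_coeff]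
      intro i
      have h2 := congrArg (fun p => p.coeff i) hF
      simp only [Polynomial.coeff_map, Polynomial.coeff_zero, eq_intCast] at h2
      exact (ZMod.intCast_zmod_eq_zero_iff_dvd _ 2).1 h2
    obtain ⟨U, hU⟩ := h1
    exact ⟨U, by rw [hU]; rfl⟩
  obtain ⟨G, hG1, -, hG2⟩ := Polynomial.lifts_and_natDegree_eq_and_monic
    (f := Int.castRingHom (ZMod 2)) (p := g) ((Polynomial.mem_lifts _ ).2 (hlift g)) hg
  have hroot : G.eval₂ ((AdjoinRoot.of g).comp (Int.castRingHom (ZMod 2))) (AdjoinRoot.root g) = 0 := by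
    rw [← Polynomial.eval₂_map, hG1]
    exact AdjoinRoot.eval₂_root g
  let π : AdjoinRoot G →+* AdjoinRoot g :=
    AdjoinRoot.lift ((AdjoinRoot.of g).comp (Int.castRingHom (ZMod 2))) (AdjoinRoot.root g) hroot
  have hπ : ∀ F : ℤ[X], π (AdjoinRoot.mk G F) =
      AdjoinRoot.mk g (F.map (Int.castRingHom (ZMod 2))) := by
    intro F
    show AdjoinRoot.lift _ _ hroot (AdjoinRoot.mk G F) = _
    rw [AdjoinRoot.lift_mk, ← Polynomial.eval₂_map]
    rw [← AdjoinRoot.aeval_eq, Polynomial.aeval_def, AdjoinRoot.algebraMap_eq]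
  refine ⟨G, hG2, π, ?_, ?_, ?_, hπ⟩
  · intro a
    obtain ⟨f, rfl⟩ := AdjoinRoot.mk_surjective a
    obtain ⟨F, rfl⟩ := hlift f
    exact ⟨AdjoinRoot.mk G F, hπ F⟩
  · intro r hr
    obtain ⟨F, rfl⟩ := AdjoinRoot.mk_surjective r
    rw [hπ, AdjoinRoot.mk_eq_zero] at hr
    obtain ⟨h, hh⟩ := hr
    obtain ⟨H, rfl⟩ := hlift h
    obtain ⟨U, hU⟩ := hev (F - G * H) (by
      rw [Polynomial.map_sub, Polynomial.map_mul, hG1, hh, sub_self])
    refine ⟨AdjoinRoot.mk G U, ?_⟩
    have h1 : F = G * H + 2 * U := by rw [← hU]; ring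
    rw [h1, map_add, map_mul, AdjoinRoot.mk_self, zero_mul, zero_add, map_mul, map_ofNat]
  · intro r hr
    obtain ⟨F, rfl⟩ := AdjoinRoot.mk_surjective r
    have h1 : AdjoinRoot.mk G (2 * F) = 0 := by rw [map_mul, map_ofNat]; exact hr
    rw [AdjoinRoot.mk_eq_zero] at h1
    obtain ⟨H, hH⟩ := h1
    have h2 : g * H.map (Int.castRingHom (ZMod 2)) = 0 := by
      rw [← hG1, ← Polynomial.map_mul, ← hH, Polynomial.map_mul]
      have : (2 : ℤ[X]).map (Int.castRingHom (ZMod 2)) = 0 := by
        rw [Polynomial.map_ofNat]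
        exact (CharTwo.two_eq_zero : (2 : (ZMod 2)[X]) = 0)
      rw [this, zero_mul]
    rcases mul_eq_zero.1 h2 with h3 | h3
    · exact absurd h3 hg.ne_zero
    · obtain ⟨U, hU⟩ := hev H h3
      rw [AdjoinRoot.mk_eq_zero]
      refine ⟨U, ?_⟩
      have h4 : (2 : ℤ[X]) * F = 2 * (G * U) := by rw [hH, hU]; ring
      exact mul_left_cancel₀ two_ne_zero h4

theorem b7m (n : ℕ) (g : (ZMod 2)[X]) (hg : g.Monic) (hi : Irreducible g) :
    ∃ s : (Fin n → AdjoinRoot g) → AdjoinRoot g, ∀ b : Edge n → Bool, Bad4 g b →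
      kerc g (adj (ZMod 2) b) = (2 : ℝ) ^ g.natDegree →
      ∃ v : Fin n → AdjoinRoot g, v ≠ 0 ∧ ∀ c : AdjoinRoot g, c ≠ 0 →
        (∀ i, ∑ j, (adj (ZMod 2) b i j) • (c * v j) = AdjoinRoot.root g * (c * v i)) ∧
        (∑ e : Edge n, if b e then (c * v e.1.1) * (c * v e.1.2) else 0) = s (fun i => c * v i) := by
  classical
  have : Fact (Irreducible g) := ⟨hi⟩
  obtain ⟨G, hG, π, hsurj, hker, htor, hπ⟩ := b7m_ring g hg
  have hπ2 : (2 : AdjoinRoot g) = 0 := by
    have : (2 : AdjoinRoot g) = AdjoinRoot.mk g 2 := (map_ofNat _ 2).symm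
    rw [this, (CharTwo.two_eq_zero : (2 : (ZMod 2)[X]) = 0), map_zero]
  obtain ⟨s, hs⟩ := b7m_abs π hker htor hπ2 (AdjoinRoot.root G) n
  refine ⟨s, fun b hbad hkerc => ?_⟩
  have hπroot : π (AdjoinRoot.root G) = AdjoinRoot.root g := by
    have := hπ X
    rw [Polynomial.map_X, AdjoinRoot.mk_X, AdjoinRoot.mk_X] at this
    exact this
  -- finiteness and cardinality of K
  have hfin : Module.Finite (ZMod 2) (AdjoinRoot g) := (AdjoinRoot.powerBasis hg.ne_zero).finite
  have : Finite (AdjoinRoot g) := Module.finite_of_finite (ZMod 2)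
  have hcardK : Nat.card (AdjoinRoot g) = 2 ^ g.natDegree := by
    rw [Module.natCard_eq_pow_finrank (K := ZMod 2), (AdjoinRoot.powerBasis hg.ne_zero).finrank,
      Nat.card_zmod, AdjoinRoot.powerBasis_dim]
  -- n > 0
  have hdeg : 0 < g.natDegree := hi.natDegree_pos
  have hn : 0 < n := by
    rcases Nat.eq_zero_or_pos n with h | h
    · exfalso
      subst h
      have h1 : kerc g (adj (ZMod 2) b) ≤ 1 := by
        unfold kerc
        rw [Fintype.sum_unique]
        exact ind_le_one _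
      have h2 : (2 : ℝ) ^ 1 ≤ 2 ^ g.natDegree := pow_le_pow_right₀ (by norm_num) hdeg
      rw [hkerc] at h1
      linarith
    · exact h
  -- the determinant
  obtain ⟨f1, f2, hf, ⟨q1, hq1⟩, ⟨q2, hq2⟩⟩ := hbad
  have hf1 : ∃ s, AdjoinRoot.mk G f1 = 2 * s := hker _ (by
    rw [hπ, hq1, map_mul, AdjoinRoot.mk_self, zero_mul])
  have hf2 : ∃ s, AdjoinRoot.mk G f2 = 2 * s := hker _ (by
    rw [hπ, hq2, map_mul, AdjoinRoot.mk_self, zero_mul])
  obtain ⟨s1, hs1⟩ := hf1
  obtain ⟨s2, hs2⟩ := hf2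
  set M : Matrix (Fin n) (Fin n) (AdjoinRoot G) :=
    Matrix.scalar (Fin n) (AdjoinRoot.root G) - adj (AdjoinRoot G) b with hM
  have hdet : M.det = 4 * (s1 * s2) := by
    rw [hM, ← Matrix.eval_charpoly, ← b7m_adj_map (algebraMap ℤ (AdjoinRoot G)) b,
      Matrix.charpoly_map, Polynomial.eval_map_algebraMap, ← hf, map_mul,
      AdjoinRoot.aeval_eq, AdjoinRoot.aeval_eq, hs1, hs2]
    ring
  have hMπ : M.map π = Matrix.scalar (Fin n) (AdjoinRoot.root g) - adj (AdjoinRoot g) b := by
    rw [hM, Matrix.map_sub _ (map_sub π), b7m_adj_map]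
    congr 1
    ext i j
    simp only [Matrix.scalar_apply, Matrix.map_apply, Matrix.diagonal_apply]
    split_ifs
    · exact hπroot
    · exact map_zero π
  -- eigenvectors
  have hNv : ∀ v : Fin n → AdjoinRoot g, (M.map π).mulVec v = 0 ↔
      ∀ i, ∑ j, (adj (ZMod 2) b i j) • v j = AdjoinRoot.root g * v i := by
    intro v
    rw [hMπ, Matrix.sub_mulVec, sub_eq_zero, funext_iff]
    refine forall_congr' fun i => ?_
    have h1 : (Matrix.scalar (Fin n) (AdjoinRoot.root g)).mulVec v i = AdjoinRoot.root g * v i := by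
      rw [Matrix.scalar_apply, Matrix.mulVec_diagonal]
    have h2 : (adj (AdjoinRoot g) b).mulVec v i = ∑ j, (adj (ZMod 2) b i j) • v j := by
      show ∑ j, adj (AdjoinRoot g) b i j * v j = _
      refine Finset.sum_congr rfl fun j _ => ?_
      rw [← b7m_adj_map (algebraMap (ZMod 2) (AdjoinRoot g)) b, Matrix.map_apply, Algebra.smul_def]
    rw [h1, h2]
    exact eq_comm
  have hE : Nat.card {v : Fin n → AdjoinRoot g // (M.map π).mulVec v = 0} ≤
      Nat.card (AdjoinRoot g) := by
    have h1 := b7m_eig g hg hi (adj (ZMod 2) b)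
    rw [hkerc] at h1
    have h2 : Nat.card {v : Fin n → AdjoinRoot g // (M.map π).mulVec v = 0} =
        Nat.card {v : Fin n → AdjoinRoot g //
          ∀ i, ∑ j, (adj (ZMod 2) b i j) • v j = AdjoinRoot.root g * v i} :=
      Nat.card_congr (Equiv.subtypeEquivRight hNv)
    rw [h2, hcardK]
    exact_mod_cast h1
  have hadj : (M.map π).adjugate ≠ 0 := b7m_adjugate hn _ hE
  obtain ⟨i0, j0, hij⟩ : ∃ i j, (M.map π).adjugate i j ≠ 0 := by
    by_contra h
    push Not at h
    exact hadj (by ext i j; exact h i j)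
  have hadjπ : ∀ i j, π (M.adjugate i j) = (M.map π).adjugate i j := by
    intro i j
    have := RingHom.map_adjugate π M
    rw [RingHom.mapMatrix_apply, RingHom.mapMatrix_apply] at this
    rw [← this, Matrix.map_apply]
  have hMy : ∀ i, AdjoinRoot.root G * M.adjugate i j0 -
      ∑ j, adj (AdjoinRoot G) b i j * M.adjugate j j0 =
      4 * (s1 * s2 * if i = j0 then 1 else 0) := by
    intro i
    have h1 := congrFun (congrFun (Matrix.mul_adjugate M) i) j0
    rw [hdet] at h1
    have h2 : (M * M.adjugate) i j0 = AdjoinRoot.root G * M.adjugate i j0 -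
        ∑ j, adj (AdjoinRoot G) b i j * M.adjugate j j0 := by
      conv_lhs => rw [hM]
      rw [Matrix.sub_mul, Matrix.sub_apply, Matrix.scalar_apply, Matrix.diagonal_mul]
      rfl
    rw [← h2, h1, Matrix.smul_apply, Matrix.one_apply, smul_eq_mul]
    ring
  refine ⟨fun i => π (M.adjugate i j0), ?_, fun c hc => ?_⟩
  · intro h
    have := congrFun h i0
    rw [hadjπ] at this
    exact hij this
  · obtain ⟨c', rfl⟩ := hsurj c
    have hy : ∀ i, AdjoinRoot.root G * (c' * M.adjugate i j0) -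
        ∑ j, adj (AdjoinRoot G) b i j * (c' * M.adjugate j j0) =
        4 * (c' * (s1 * s2 * if i = j0 then 1 else 0)) := by
      intro i
      have h1 := hMy i
      have h2 : ∑ j, adj (AdjoinRoot G) b i j * (c' * M.adjugate j j0) =
          c' * ∑ j, adj (AdjoinRoot G) b i j * M.adjugate j j0 := by
        rw [Finset.mul_sum]
        exact Finset.sum_congr rfl fun j _ => by ring
      rw [h2]
      linear_combination c' * h1
    have hsum := hs b (fun i => c' * M.adjugate i j0) _ hy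
    simp only [map_mul] at hsum
    refine ⟨?_, hsum⟩
    have h1 : (M.map π).mulVec (fun i => π c' * π (M.adjugate i j0)) = 0 := by
      ext i
      have h2 := congrArg π (hy i)
      have h3 : (4 : AdjoinRoot g) = 0 := by
        have : (4 : AdjoinRoot g) = 2 * 2 := by norm_num
        rw [this, hπ2, zero_mul]
      rw [map_mul, map_ofNat, h3, zero_mul, map_sub, map_sum, map_mul, hπroot, map_mul] at h2
      rw [hMπ, Matrix.sub_mulVec, Pi.sub_apply, Matrix.scalar_apply, Matrix.mulVec_diagonal]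
      refine Eq.trans ?_ h2
      congr 1
      show ∑ j, adj (AdjoinRoot g) b i j * (π c' * π (M.adjugate j j0)) = _
      refine Finset.sum_congr rfl fun j _ => ?_
      rw [map_mul, map_mul, ← b7m_adj_map π b, Matrix.map_apply]
    exact (hNv _).1 h1

end Pool.H64.IR

end S_B7M

section S_B8M

/-! MODULE B8M (project MP_a758cf_pr, IR; overview: team-store H64_a758cf.md)
Probability of the two conditions for fixed v /= 0 in K^n and s in K. Choose a basis e of K over F_2 and V i a = (e (v i)) a (n x k). A v = x v says A V = V C (C = matrix of multiplication by x), V has full rank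
(a linear functional killing all v_i kills the F[x]-module generated, so it is 0). By characters of K^n x K:
pr = 2^(-nk-k) sum over (Z, lam) +-1 * E_b prod (-1)^{b_ij (z_i.V_j + z_j.V_i + Tr(lam v_i v_j))}, so pr <= 2^(-nk-k) #{(Z,lam) : z_i.V_j + z_j.V_i + Tr_lam(v_i v_j) = 0 for all i<j}, Z in F_2^{n x k}, lam in the dual of K
(2^k functionals Tr_lam). For fixed lam the number of Z is 0 or 2^(k(k+1)/2) (Z = V B, B symmetric, as in A2M). If only lam = 0 is solvable: pr <= 2^(-nk-k) 2^(k(k+1)/2); always pr <= 2^(-nk) 2^(k(k+1)/2).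
If some lam /= 0 is solvable then Exc V: put L_ab = Tr_lam(e_a e_b), T = V L Vᵀ + Z Vᵀ + V Zᵀ is zero off the diagonal, with diagonal t_i = Tr_lam(v_i^2) = (V d)_i, d_a = L_aa = Tr_lam(e_a^2), d /= 0 since the
squares e_a^2 span K; w = V d in col V, w /= 0. For y,y' with Vᵀ y = Vᵀ y' = 0: 0 = yᵀ T y' = sum w_i y_i y'_i; so w y is orthogonal to (col V)^perp, i.e. w y in col V.
Moreover the probability is 0 unless Vᵀ V = 0: A V = V C implies Vᵀ V C = Vᵀ A V alternating, which implies VᵀV = 0 (argument of b2m in the basis e; take the power basis so that C = comp g up to transposition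
conventions: V C with row vectors V_i = coordinates of v_i in 1,x,..,x^(k-1), x v_i has coordinates V_i C).
-/

set_option autoImplicit false
set_option linter.unusedSectionVars false
set_option linter.style.haveILetI false

namespace Pool.H64.IR

open Finset Polynomial

/-- exceptional matrices -/
def Exc {n k : ℕ} (V : Matrix (Fin n) (Fin k) (ZMod 2)) : Prop :=
  ∃ w ∈ Submodule.span (ZMod 2) (Set.range fun a : Fin k => fun i : Fin n => V i a), w ≠ 0 ∧
    ∀ y : Fin n → ZMod 2, (∀ a : Fin k, ∑ i, V i a * y i = 0) →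
      (fun i => w i * y i) ∈ Submodule.span (ZMod 2) (Set.range fun a : Fin k => fun i : Fin n => V i a)

section b8maux

variable {n : ℕ}

/-- symmetric matrix with zero diagonal and entries in the field -/
def b8mA (c : Edge n → ZMod 2) : Matrix (Fin n) (Fin n) (ZMod 2) :=
  Matrix.of fun i j =>
    if h : i < j then c ⟨(i, j), h⟩ else if h : j < i then c ⟨(j, i), h⟩ else 0

/-- bits as elements of the field -/
def b8mz (b : Edge n → Bool) : Edge n → ZMod 2 := fun e => if b e then 1 else 0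

theorem b8m_adj (b : Edge n → Bool) : adj (ZMod 2) b = b8mA (b8mz b) := by
  ext i j
  simp only [adj, b8mA, b8mz, Matrix.of_apply]

theorem b8mA_add (c c' : Edge n → ZMod 2) : b8mA (c + c') = b8mA c + b8mA c' := by
  ext i j
  simp only [b8mA, Matrix.of_apply, Matrix.add_apply, Pi.add_apply]
  split_ifs <;> simp

theorem b8mA_smul (t : ZMod 2) (c : Edge n → ZMod 2) : b8mA (t • c) = t • b8mA c := by
  ext i j
  simp only [b8mA, Matrix.of_apply, Matrix.smul_apply, Pi.smul_apply]
  split_ifs <;> simp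

theorem b8mA_symm (c : Edge n → ZMod 2) (i j : Fin n) : b8mA c i j = b8mA c j i := by
  simp only [b8mA, Matrix.of_apply]
  rcases lt_trichotomy i j with h | h | h
  · rw [dif_pos h, dif_neg (not_lt.2 h.le), dif_pos h]
  · subst h; rfl
  · rw [dif_neg (not_lt.2 h.le), dif_pos h, dif_pos h]

theorem b8mz_xor (b u : Edge n → Bool) : b8mz (fun e => xor (b e) (u e)) = b8mz b + b8mz u := by
  funext e
  have h : ∀ x y : Bool, (if xor x y then (1 : ZMod 2) else 0) =
      (if x then 1 else 0) + (if y then 1 else 0) := by decide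
  exact h (b e) (u e)

theorem b8mz_surj (c : Edge n → ZMod 2) : ∃ b : Edge n → Bool, b8mz b = c := by
  refine ⟨fun e => decide (c e = 1), ?_⟩
  funext e
  simp only [b8mz, decide_eq_true_eq]
  have : ∀ x : ZMod 2, (if x = 1 then (1 : ZMod 2) else 0) = x := by decide
  exact this (c e)

variable {K : Type} [Field K] [Algebra (ZMod 2) K]

/-- the linear map `c ↦ A_c V` -/
def b8mL1 {k : ℕ} (V : Matrix (Fin n) (Fin k) (ZMod 2)) :
    (Edge n → ZMod 2) →ₗ[ZMod 2] Matrix (Fin n) (Fin k) (ZMod 2) where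
  toFun c := b8mA c * V
  map_add' c c' := by rw [b8mA_add, Matrix.add_mul]
  map_smul' t c := by rw [b8mA_smul, Matrix.smul_mul]; rfl

/-- the linear map `c ↦ ∑ c_ij v_i v_j` -/
noncomputable def b8mL2 (v : Fin n → K) : (Edge n → ZMod 2) →ₗ[ZMod 2] K where
  toFun c := ∑ e : Edge n, c e • (v e.1.1 * v e.1.2)
  map_add' c c' := by
    rw [← Finset.sum_add_distrib]
    exact Finset.sum_congr rfl fun e _ => add_smul _ _ _
  map_smul' t c := by
    rw [RingHom.id_apply, Finset.smul_sum]
    exact Finset.sum_congr rfl fun e _ => by rw [Pi.smul_apply, smul_assoc]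

theorem b8mL2_bits (v : Fin n → K) (b : Edge n → Bool) :
    (∑ ed : Edge n, if b ed then v ed.1.1 * v ed.1.2 else 0) = b8mL2 v (b8mz b) := by
  show _ = ∑ e : Edge n, b8mz b e • (v e.1.1 * v e.1.2)
  refine Finset.sum_congr rfl fun e _ => ?_
  by_cases h : b e <;> simp [b8mz, h]

theorem b8m_single {k : ℕ} (V : Matrix (Fin n) (Fin k) (ZMod 2)) (i j : Fin n) (h : i < j) (q : Fin n)
    (a : Fin k) : b8mL1 V (Pi.single ⟨(i, j), h⟩ 1) q a =
      (if q = i then V j a else 0) + (if q = j then V i a else 0) := by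
  show (b8mA (Pi.single ⟨(i, j), h⟩ 1) * V) q a = _
  rw [Matrix.mul_apply]
  have hent : ∀ r : Fin n, b8mA (Pi.single (⟨(i, j), h⟩ : Edge n) (1 : ZMod 2)) q r =
      (if q = i ∧ r = j then 1 else 0) + (if q = j ∧ r = i then 1 else 0) := by
    intro r
    simp only [b8mA, Matrix.of_apply, Pi.single_apply, Subtype.mk.injEq, Prod.mk.injEq]
    rcases lt_trichotomy q r with h1 | h1 | h1
    · rw [dif_pos h1]
      have : ¬ (q = j ∧ r = i) := by
        rintro ⟨rfl, rfl⟩
        exact absurd h (not_lt.2 h1.le)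
      rw [if_neg this, add_zero]
    · rw [dif_neg (h1 ▸ lt_irrefl _), dif_neg (h1 ▸ lt_irrefl _)]
      have h2 : ¬ (q = i ∧ r = j) := by
        rintro ⟨rfl, rfl⟩
        exact absurd h (h1 ▸ lt_irrefl _)
      have h3 : ¬ (q = j ∧ r = i) := by
        rintro ⟨rfl, rfl⟩
        exact absurd h (h1 ▸ lt_irrefl _)
      rw [if_neg h2, if_neg h3, add_zero]
    · rw [dif_neg (not_lt.2 h1.le), dif_pos h1]
      have h2 : ¬ (q = i ∧ r = j) := by
        rintro ⟨rfl, rfl⟩
        exact absurd h (not_lt.2 h1.le)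
      rw [if_neg h2, zero_add]
      refine if_congr ?_ rfl rfl
      exact and_comm
  simp only [hent, add_mul, ite_mul, one_mul, zero_mul]
  rw [Finset.sum_add_distrib]
  congr 1
  · by_cases hq : q = i
    · simp [hq]
    · simp [hq]
  · by_cases hq : q = j
    · simp [hq]
    · simp [hq]

/-- surjectivity of the second map on the kernel of the first -/
theorem b8m_surj [Finite K] {k : ℕ} (e : K ≃ₗ[ZMod 2] (Fin k → ZMod 2)) (v : Fin n → K)
    (hfull : FullRank (Matrix.of fun (i : Fin n) (a : Fin k) => e (v i) a))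
    (hexc : ¬ Exc (Matrix.of fun (i : Fin n) (a : Fin k) => e (v i) a)) (t : K) :
    ∃ c : Edge n → ZMod 2, b8mL1 (Matrix.of fun (i : Fin n) (a : Fin k) => e (v i) a) c = 0 ∧
      b8mL2 v c = t := by
  haveI : CharP K 2 := charP_of_injective_algebraMap (algebraMap (ZMod 2) K).injective 2
  set V : Matrix (Fin n) (Fin k) (ZMod 2) := Matrix.of fun (i : Fin n) (a : Fin k) => e (v i) a
    with hV
  have hVapp : ∀ i a, V i a = e (v i) a := fun _ _ => rfl
  by_contra hno
  apply hexc
  have hW : (LinearMap.ker (b8mL1 V)).map (b8mL2 v) < ⊤ := by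
    rw [lt_top_iff_ne_top]
    intro htop
    have : t ∈ (LinearMap.ker (b8mL1 V)).map (b8mL2 v) := by rw [htop]; exact Submodule.mem_top
    obtain ⟨c, hc, hct⟩ := Submodule.mem_map.1 this
    exact hno ⟨c, hc, hct⟩
  obtain ⟨lam, hlam0, hlam⟩ := Submodule.exists_le_ker_of_lt_top _ hW
  have hann : lam ∘ₗ b8mL2 v ∈ (LinearMap.ker (b8mL1 V)).dualAnnihilator := by
    rw [Submodule.mem_dualAnnihilator]
    intro c hc
    have : b8mL2 v c ∈ (LinearMap.ker (b8mL1 V)).map (b8mL2 v) := Submodule.mem_map_of_mem hc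
    exact hlam this
  rw [← LinearMap.range_dualMap_eq_dualAnnihilator_ker] at hann
  obtain ⟨ζ, hζ⟩ := hann
  have hζ' : ∀ c, ζ (b8mL1 V c) = lam (b8mL2 v c) := fun c => by
    have := congrArg (fun f : Module.Dual (ZMod 2) (Edge n → ZMod 2) => f c) hζ
    exact this
  -- the matrix of ζ
  set Z : Fin n → Fin k → ZMod 2 := fun i a => ζ (Matrix.single i a 1) with hZ
  have hζM : ∀ M : Matrix (Fin n) (Fin k) (ZMod 2), ζ M = ∑ i, ∑ a, Z i a * M i a := by
    intro M
    conv_lhs => rw [Matrix.matrix_eq_sum_single M]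
    rw [map_sum]
    refine Finset.sum_congr rfl fun i _ => ?_
    rw [map_sum]
    refine Finset.sum_congr rfl fun a _ => ?_
    have : Matrix.single i a (M i a) = (M i a) • Matrix.single i a (1 : ZMod 2) := by
      rw [Matrix.smul_single, smul_eq_mul, mul_one]
    rw [this, map_smul, smul_eq_mul, mul_comm]
  have hlt : ∀ i j : Fin n, i < j → lam (v i * v j) = ∑ a, Z i a * V j a + ∑ a, Z j a * V i a := by
    intro i j h
    have h1 := hζ' (Pi.single ⟨(i, j), h⟩ 1)
    have h2 : b8mL2 v (Pi.single ⟨(i, j), h⟩ 1) = v i * v j := by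
      show ∑ e : Edge n, (Pi.single (⟨(i, j), h⟩ : Edge n) (1 : ZMod 2) : Edge n → ZMod 2) e •
        (v e.1.1 * v e.1.2) = _
      rw [Finset.sum_eq_single (⟨(i, j), h⟩ : Edge n)]
      · simp
      · intro b _ hb
        rw [Pi.single_eq_of_ne hb, zero_smul]
      · intro h3
        exact absurd (Finset.mem_univ _) h3
    rw [h2, hζM] at h1
    rw [← h1]
    have h3 : ∀ q, ∑ a, Z q a * b8mL1 V (Pi.single ⟨(i, j), h⟩ 1) q a =
        (if q = i then ∑ a, Z q a * V j a else 0) + (if q = j then ∑ a, Z q a * V i a else 0) := by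
      intro q
      simp only [b8m_single, mul_add, Finset.sum_add_distrib]
      congr 1
      · by_cases hq : q = i <;> simp [hq]
      · by_cases hq : q = j <;> simp [hq]
    rw [Finset.sum_congr rfl fun q _ => h3 q, Finset.sum_add_distrib]
    simp
  have hne : ∀ i j : Fin n, i ≠ j → lam (v i * v j) = ∑ a, Z i a * V j a + ∑ a, Z j a * V i a := by
    intro i j h
    rcases lt_or_gt_of_ne h with h1 | h1
    · exact hlt i j h1
    · rw [mul_comm (v i) (v j), hlt j i h1, add_comm]
  have htwo : ∀ x : ZMod 2, x + x = 0 := by decide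
  -- the quadratic functional
  have hsq : ∀ c : ZMod 2, c * c = c := by decide
  let q : K →ₗ[ZMod 2] ZMod 2 :=
    { toFun := fun y => lam (y * y)
      map_add' := by
        intro x y
        have : (x + y) * (x + y) = x * x + y * y := by
          have h2 : x * y + x * y = 0 := CharTwo.add_self_eq_zero _
          calc (x + y) * (x + y) = x * x + y * y + (x * y + x * y) := by ring
            _ = _ := by rw [h2, add_zero]
        rw [this, map_add]
      map_smul' := by
        intro c x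
        rw [smul_mul_smul_comm, hsq, map_smul]
        rfl }
  have hq : ∀ y, q y = lam (y * y) := fun _ => rfl
  have hq0 : q ≠ 0 := by
    intro h
    apply hlam0
    ext y
    obtain ⟨r, hr⟩ := FiniteField.isSquare_of_char_two (F := K) (ringChar.eq K 2) y
    rw [hr, ← hq, h]
    rfl
  have hdecomp : ∀ y : K, q y = ∑ a, e y a * q (e.symm (Pi.single a 1)) := by
    intro y
    have h1 : y = ∑ a, e y a • e.symm (Pi.single a 1) := by
      apply e.injective
      rw [map_sum]
      simp only [map_smul, LinearEquiv.apply_symm_apply]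
      funext b
      simp [Finset.sum_apply, Pi.single_apply]
    conv_lhs => rw [h1]
    rw [map_sum]
    exact Finset.sum_congr rfl fun a _ => by rw [map_smul, smul_eq_mul]
  refine ⟨fun i => q (v i), ?_, ?_, ?_⟩
  · have h1 : (fun i => q (v i)) = ∑ a, q (e.symm (Pi.single a 1)) • (fun i : Fin n => V i a) := by
      funext i
      rw [Finset.sum_apply, hdecomp]
      exact Finset.sum_congr rfl fun a _ => by rw [Pi.smul_apply, smul_eq_mul, mul_comm]; rfl
    rw [h1]
    exact Submodule.sum_mem _ fun a _ => Submodule.smul_mem _ _ (Submodule.subset_span ⟨a, rfl⟩)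
  · intro h0
    apply hq0
    have h1 : ∑ a, q (e.symm (Pi.single a 1)) • (fun i : Fin n => V i a) = 0 := by
      funext i
      have h2 : q (v i) = 0 := congrFun h0 i
      rw [Finset.sum_apply]
      rw [hdecomp] at h2
      refine Eq.trans ?_ h2
      exact Finset.sum_congr rfl fun a _ => by rw [Pi.smul_apply, smul_eq_mul, mul_comm]; rfl
    have h3 := Fintype.linearIndependent_iff.1 hfull _ h1
    ext y
    rw [hdecomp]
    simp [h3]
  · intro y hy
    have hsum0 : ∑ j, y j • v j = 0 := by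
      apply e.injective
      rw [map_sum, map_zero]
      funext a
      simp only [map_smul, Finset.sum_apply, Pi.smul_apply, smul_eq_mul, Pi.zero_apply]
      refine Eq.trans ?_ (hy a)
      exact Finset.sum_congr rfl fun i _ => mul_comm _ _
    have hkey : ∀ i, q (v i) * y i = ∑ a, V i a * ∑ j, Z j a * y j := by
      intro i
      have hT : ∀ j, (lam (v i * v j) + (∑ a, Z i a * V j a + ∑ a, Z j a * V i a)) * y j =
          if j = i then q (v i) * y i else 0 := by
        intro j
        by_cases hj : j = i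
        · subst hj
          rw [if_pos rfl, htwo, add_zero, hq]
        · rw [if_neg hj, hne i j (Ne.symm hj), htwo, zero_mul]
      have h1 : ∑ j, (lam (v i * v j) + (∑ a, Z i a * V j a + ∑ a, Z j a * V i a)) * y j =
          q (v i) * y i := by
        rw [Finset.sum_congr rfl fun j _ => hT j]
        simp
      rw [← h1]
      simp only [add_mul, Finset.sum_add_distrib]
      have h2 : ∑ j, lam (v i * v j) * y j = 0 := by
        have h3 : ∑ j, lam (v i * v j) * y j = lam (v i * ∑ j, y j • v j) := by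
          rw [Finset.mul_sum, map_sum]
          exact Finset.sum_congr rfl fun j _ => by
            rw [mul_smul_comm, map_smul, smul_eq_mul, mul_comm]
        rw [h3, hsum0, mul_zero, map_zero]
      have h4 : ∑ j, (∑ a, Z i a * V j a) * y j = 0 := by
        simp only [Finset.sum_mul]
        rw [Finset.sum_comm]
        refine Finset.sum_eq_zero fun a _ => ?_
        have h5 : ∑ j, Z i a * V j a * y j = Z i a * ∑ j, V j a * y j := by
          rw [Finset.mul_sum]
          exact Finset.sum_congr rfl fun j _ => mul_assoc _ _ _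
        rw [h5, hy a, mul_zero]
      rw [h2, h4, zero_add, zero_add]
      simp only [Finset.sum_mul, Finset.mul_sum]
      rw [Finset.sum_comm]
      refine Finset.sum_congr rfl fun a _ => Finset.sum_congr rfl fun j _ => ?_
      ring
    have h6 : (fun i => q (v i) * y i) =
        ∑ a, (∑ j, Z j a * y j) • (fun i : Fin n => V i a) := by
      funext i
      rw [hkey, Finset.sum_apply]
      exact Finset.sum_congr rfl fun a _ => by rw [Pi.smul_apply, smul_eq_mul, mul_comm]
    show (fun i => q (v i) * y i) ∈ _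
    rw [h6]
    exact Submodule.sum_mem _ fun a _ => Submodule.smul_mem _ _ (Submodule.subset_span ⟨a, rfl⟩)

/-- the counting part -/
theorem b8m_count {k : ℕ} (e : K ≃ₗ[ZMod 2] (Fin k → ZMod 2)) (v : Fin n → K)
    (V : Matrix (Fin n) (Fin k) (ZMod 2))
    (hs : ∀ t : K, ∃ c : Edge n → ZMod 2, b8mL1 V c = 0 ∧ b8mL2 v c = t)
    (Y : Matrix (Fin n) (Fin k) (ZMod 2)) (s : K) :
    pr (fun b : Edge n → Bool => adj (ZMod 2) b * V = Y ∧ b8mL2 v (b8mz b) = s) ≤
      pr (fun b : Edge n → Bool => adj (ZMod 2) b * V = Y) * (1 / (2 : ℝ) ^ k) := by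
  haveI : CharP K 2 := charP_of_injective_algebraMap (algebraMap (ZMod 2) K).injective 2
  have hu : ∀ z : Fin k → ZMod 2, ∃ u : Edge n → Bool, b8mL1 V (b8mz u) = 0 ∧
      b8mL2 v (b8mz u) = e.symm z := by
    intro z
    obtain ⟨c, hc1, hc2⟩ := hs (e.symm z)
    obtain ⟨u, rfl⟩ := b8mz_surj c
    exact ⟨u, hc1, hc2⟩
  choose u hu1 hu2 using hu
  unfold pr avg
  rw [div_mul_eq_mul_div]
  refine div_le_div_of_nonneg_right ?_ (Nat.cast_nonneg _)
  rw [mul_one_div, le_div_iff₀ (by positivity)]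
  let P : (Edge n → Bool) → Prop := fun b => adj (ZMod 2) b * V = Y ∧ b8mL2 v (b8mz b) = s
  let Q : (Edge n → Bool) → Prop := fun b => adj (ZMod 2) b * V = Y
  have hshift : ∀ z : Fin k → ZMod 2, ∑ b : Edge n → Bool, ind (P b) =
      ∑ b : Edge n → Bool, ind (P (fun ed => xor (b ed) (u z ed))) := by
    intro z
    let σ : (Edge n → Bool) ≃ (Edge n → Bool) :=
      { toFun := fun b ed => xor (b ed) (u z ed)
        invFun := fun b ed => xor (b ed) (u z ed)
        left_inv := fun b => by funext ed; simp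
        right_inv := fun b => by funext ed; simp }
    exact (Equiv.sum_comp σ (fun b => ind (P b))).symm
  have hcard : ((2 : ℝ) ^ k) = ∑ z : Fin k → ZMod 2, (1 : ℝ) := by
    rw [Finset.sum_const, Finset.card_univ, nsmul_eq_mul, mul_one, Fintype.card_fun, Fintype.card_fin,
      ZMod.card]
    push_cast
    rfl
  show (∑ b : Edge n → Bool, ind (P b)) * (2 : ℝ) ^ k ≤ ∑ b : Edge n → Bool, ind (Q b)
  calc (∑ b : Edge n → Bool, ind (P b)) * (2 : ℝ) ^ k =
      ∑ z : Fin k → ZMod 2, ∑ b : Edge n → Bool, ind (P b) := by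
        rw [hcard, Finset.mul_sum]
        exact Finset.sum_congr rfl fun z _ => mul_one _
    _ = ∑ z : Fin k → ZMod 2, ∑ b : Edge n → Bool, ind (P (fun ed => xor (b ed) (u z ed))) :=
        Finset.sum_congr rfl fun z _ => hshift z
    _ = ∑ b : Edge n → Bool, ∑ z : Fin k → ZMod 2, ind (P (fun ed => xor (b ed) (u z ed))) :=
        Finset.sum_comm
    _ ≤ ∑ b : Edge n → Bool, ind (Q b) := by
        refine Finset.sum_le_sum fun b _ => ?_
        have hP : ∀ z, P (fun ed => xor (b ed) (u z ed)) → Q b ∧ z = e (s - b8mL2 v (b8mz b)) := by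
          rintro z ⟨h1, h2⟩
          rw [b8m_adj, b8mz_xor, b8mA_add, Matrix.add_mul] at h1
          have h3 : b8mA (b8mz (u z)) * V = 0 := hu1 z
          rw [h3, add_zero, ← b8m_adj] at h1
          refine ⟨h1, ?_⟩
          rw [b8mz_xor, map_add, hu2] at h2
          have h4 : e.symm z = s - b8mL2 v (b8mz b) := by
            rw [← h2]
            ring
          rw [← h4, LinearEquiv.apply_symm_apply]
        by_cases hQ : Q b
        · rw [ind_true hQ]
          refine (Finset.sum_le_sum (g := fun z => if z = e (s - b8mL2 v (b8mz b)) then (1 : ℝ) else 0)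
            fun z _ => ?_).trans ?_
          · by_cases hz : P (fun ed => xor (b ed) (u z ed))
            · rw [if_pos (hP z hz).2]
              exact ind_le_one _
            · rw [ind_false hz]
              split_ifs <;> norm_num
          · simp
        · rw [ind_false hQ]
          refine le_of_eq (Finset.sum_eq_zero fun z _ => ?_)
          exact ind_false fun hz => hQ (hP z hz).1

end b8maux

/-- the functional basis: `e v = (λ (x^a v))_a`; in this basis multiplication by the root acts on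
row vectors by the companion matrix -/
theorem b8m_basis (g : (ZMod 2)[X]) (hg : g.Monic) (hi : Irreducible g) :
    ∃ e : AdjoinRoot g ≃ₗ[ZMod 2] (Fin g.natDegree → ZMod 2), ∀ (y : AdjoinRoot g) (a : Fin g.natDegree),
      e (AdjoinRoot.root g * y) a = ∑ j, e y j * comp g j a := by
  haveI : Fact (Irreducible g) := ⟨hi⟩
  haveI hfin : Module.Finite (ZMod 2) (AdjoinRoot g) := (AdjoinRoot.powerBasis' hg).finite
  have hdim : Module.finrank (ZMod 2) (AdjoinRoot g) = g.natDegree := by
    rw [(AdjoinRoot.powerBasis' hg).finrank, AdjoinRoot.powerBasis'_dim]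
  obtain ⟨lam, hlam⟩ : ∃ lam : AdjoinRoot g →ₗ[ZMod 2] ZMod 2, lam ≠ 0 := by
    obtain ⟨f, hf, -⟩ := Submodule.exists_le_ker_of_lt_top
      (⊥ : Submodule (ZMod 2) (AdjoinRoot g)) bot_lt_top
    exact ⟨f, hf⟩
  let f : AdjoinRoot g →ₗ[ZMod 2] (Fin g.natDegree → ZMod 2) :=
    LinearMap.pi fun a => lam ∘ₗ LinearMap.mulLeft (ZMod 2) (AdjoinRoot.root g ^ (a : ℕ))
  have hf : ∀ y a, f y a = lam (AdjoinRoot.root g ^ (a : ℕ) * y) := fun _ _ => rfl
  -- reduction of `x^k`
  have hroot : ∀ y : AdjoinRoot g, AdjoinRoot.root g ^ g.natDegree * y =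
      ∑ j : Fin g.natDegree, (-g.coeff j) • (AdjoinRoot.root g ^ (j : ℕ) * y) := by
    intro y
    have h1 : Polynomial.aeval (AdjoinRoot.root g) g = 0 := by
      rw [AdjoinRoot.aeval_eq, AdjoinRoot.mk_self]
    rw [Polynomial.aeval_eq_sum_range, Finset.sum_range_succ, hg.coeff_natDegree, one_smul] at h1
    have h2 : AdjoinRoot.root g ^ g.natDegree =
        ∑ j ∈ Finset.range g.natDegree, (-g.coeff j) • AdjoinRoot.root g ^ j := by
      rw [eq_neg_of_add_eq_zero_right h1, ← Finset.sum_neg_distrib]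
      exact Finset.sum_congr rfl fun j _ => (neg_smul _ _).symm
    rw [h2, Finset.sum_mul, Finset.sum_range]
    exact Finset.sum_congr rfl fun j _ => smul_mul_assoc _ _ _
  have hall : ∀ y : AdjoinRoot g, f y = 0 → ∀ m : ℕ, lam (AdjoinRoot.root g ^ m * y) = 0 := by
    intro y hy m
    induction m using Nat.strong_induction_on with
    | _ m ih =>
      by_cases hm : m < g.natDegree
      · have := congrFun hy ⟨m, hm⟩
        rw [hf] at this
        exact this
      · have h1 : AdjoinRoot.root g ^ m * y =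
            AdjoinRoot.root g ^ g.natDegree * (AdjoinRoot.root g ^ (m - g.natDegree) * y) := by
          rw [← mul_assoc, ← pow_add]
          congr 2
          omega
        rw [h1, hroot, map_sum]
        refine Finset.sum_eq_zero fun j _ => ?_
        rw [map_smul, ← mul_assoc, ← pow_add]
        have h2 : (j : ℕ) + (m - g.natDegree) < m := by
          have := j.2
          omega
        rw [ih _ h2, smul_zero]
  have hinj : Function.Injective f := by
    rw [← LinearMap.ker_eq_bot, LinearMap.ker_eq_bot']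
    intro y hy
    by_contra hy0
    apply hlam
    ext t
    have h1 : ∀ p : (ZMod 2)[X], lam (AdjoinRoot.mk g p * y) = 0 := by
      intro p
      induction p using Polynomial.induction_on' with
      | add p q hp hq => rw [map_add, add_mul, map_add, hp, hq, add_zero]
      | monomial m c =>
        have h2 : AdjoinRoot.mk g (Polynomial.monomial m c) = c • AdjoinRoot.root g ^ m := by
          rw [← AdjoinRoot.aeval_eq, Polynomial.aeval_monomial, Algebra.smul_def]
        rw [h2, smul_mul_assoc, map_smul, hall y hy m, smul_zero]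
    obtain ⟨p, hp⟩ := AdjoinRoot.mk_surjective (t * y⁻¹)
    have h3 := h1 p
    rw [hp, mul_assoc, inv_mul_cancel₀ hy0, mul_one] at h3
    rw [h3]
    rfl
  have hd2 : Module.finrank (ZMod 2) (AdjoinRoot g) =
      Module.finrank (ZMod 2) (Fin g.natDegree → ZMod 2) := by
    rw [hdim, Module.finrank_fin_fun]
  refine ⟨LinearMap.linearEquivOfInjective f hinj hd2, ?_⟩
  intro y a
  rw [LinearMap.linearEquivOfInjective_apply]
  have happ : ∀ z, LinearMap.linearEquivOfInjective f hinj hd2 z = f z := fun z =>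
    LinearMap.linearEquivOfInjective_apply hinj hd2 z
  simp only [happ]
  rw [hf, ← mul_assoc, ← pow_succ]
  by_cases ha : (a : ℕ) + 1 = g.natDegree
  · rw [ha, hroot, map_sum]
    refine Finset.sum_congr rfl fun j _ => ?_
    have : comp g j a = - g.coeff j := by
      simp only [comp, Matrix.of_apply, if_pos ha]
    rw [map_smul, this, hf, smul_eq_mul, mul_comm]
  · have ha' : (a : ℕ) + 1 < g.natDegree := lt_of_le_of_ne a.2 ha
    rw [Finset.sum_eq_single (⟨(a : ℕ) + 1, ha'⟩ : Fin g.natDegree)]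
    · have : comp g ⟨(a : ℕ) + 1, ha'⟩ a = 1 := by
        simp only [comp, Matrix.of_apply, if_neg ha, if_true]
      rw [this, mul_one, hf]
    · intro j _ hj
      have : comp g j a = 0 := by
        simp only [comp, Matrix.of_apply, if_neg ha]
        rw [if_neg]
        intro h
        exact hj (Fin.ext h)
      rw [this, mul_zero]
    · intro h
      exact absurd (Finset.mem_univ _) h

theorem b8m (n : ℕ) (g : (ZMod 2)[X]) (hg : g.Monic) (hi : Irreducible g) (hk : 2 ≤ g.natDegree) :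
    ∃ e : AdjoinRoot g ≃ₗ[ZMod 2] (Fin g.natDegree → ZMod 2), ∀ (v : Fin n → AdjoinRoot g) (s : AdjoinRoot g), v ≠ 0 →
      pr (fun b : Edge n → Bool => (∀ i, ∑ j, (adj (ZMod 2) b i j) • v j = AdjoinRoot.root g * v i) ∧
        (∑ ed : Edge n, if b ed then v ed.1.1 * v ed.1.2 else 0) = s) ≤
      ind (FullRank (Matrix.of fun (i : Fin n) (a : Fin g.natDegree) => e (v i) a) ∧
        (Matrix.of fun (i : Fin n) (a : Fin g.natDegree) => e (v i) a).transpose *
          (Matrix.of fun (i : Fin n) (a : Fin g.natDegree) => e (v i) a) = 0) *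
        ((2 : ℝ) ^ (g.natDegree * (g.natDegree + 1) / 2) / ((2 : ℝ) ^ n) ^ g.natDegree) *
        (1 / (2 : ℝ) ^ g.natDegree + ind (Exc (Matrix.of fun (i : Fin n) (a : Fin g.natDegree) => e (v i) a))) := by
  haveI : Fact (Irreducible g) := ⟨hi⟩
  haveI hfin : Module.Finite (ZMod 2) (AdjoinRoot g) := (AdjoinRoot.powerBasis' hg).finite
  haveI hfin2 : Finite (AdjoinRoot g) := Module.finite_of_finite (ZMod 2)
  obtain ⟨e, he⟩ := b8m_basis g hg hi
  refine ⟨e, fun v s hv => ?_⟩
  set V : Matrix (Fin n) (Fin g.natDegree) (ZMod 2) :=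
    Matrix.of fun (i : Fin n) (a : Fin g.natDegree) => e (v i) a with hV
  have hVapp : ∀ i a, V i a = e (v i) a := fun _ _ => rfl
  have hev : ∀ b : Edge n → Bool, (∀ i, ∑ j, (adj (ZMod 2) b i j) • v j = AdjoinRoot.root g * v i) →
      adj (ZMod 2) b * V = V * comp g := by
    intro b hb
    ext i a
    rw [Matrix.mul_apply, Matrix.mul_apply]
    have h1 := congrArg (fun y => e y a) (hb i)
    simp only [map_sum, Finset.sum_apply, map_smul, Pi.smul_apply, smul_eq_mul] at h1
    rw [he] at h1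
    exact h1
  have hD0 : (0 : ℝ) ≤ (2 : ℝ) ^ (g.natDegree * (g.natDegree + 1) / 2) / ((2 : ℝ) ^ n) ^ g.natDegree := by
    positivity
  by_cases hex : ∃ b : Edge n → Bool,
      (∀ i, ∑ j, (adj (ZMod 2) b i j) • v j = AdjoinRoot.root g * v i)
  · obtain ⟨b0, hb0⟩ := hex
    -- full rank
    have hfull : FullRank V := by
      unfold FullRank
      rw [Fintype.linearIndependent_iff]
      intro c hc
      let mu : AdjoinRoot g →ₗ[ZMod 2] ZMod 2 :=
        { toFun := fun y => ∑ a, c a * e y a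
          map_add' := by
            intro x y
            rw [← Finset.sum_add_distrib]
            exact Finset.sum_congr rfl fun a _ => by rw [map_add, Pi.add_apply, mul_add]
          map_smul' := by
            intro t x
            rw [RingHom.id_apply, Finset.smul_sum]
            exact Finset.sum_congr rfl fun a _ => by
              rw [map_smul, Pi.smul_apply, smul_eq_mul, smul_eq_mul]; ring }
      have hmu : ∀ y, mu y = ∑ a, c a * e y a := fun _ => rfl
      have hmv : ∀ i, mu (v i) = 0 := by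
        intro i
        have h1 := congrFun hc i
        rw [Finset.sum_apply] at h1
        rw [hmu]
        exact h1
      have hpow : ∀ m : ℕ, ∀ i, mu (AdjoinRoot.root g ^ m * v i) = 0 := by
        intro m
        induction m with
        | zero => intro i; rw [pow_zero, one_mul]; exact hmv i
        | succ m ih =>
          intro i
          rw [pow_succ, mul_assoc, ← hb0 i, Finset.mul_sum, map_sum]
          refine Finset.sum_eq_zero fun j _ => ?_
          rw [mul_smul_comm, map_smul, ih j, smul_zero]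
      obtain ⟨i0, hi0⟩ : ∃ i, v i ≠ 0 := by
        by_contra hno
        push Not at hno
        exact hv (funext hno)
      have hpoly : ∀ p : (ZMod 2)[X], mu (AdjoinRoot.mk g p * v i0) = 0 := by
        intro p
        induction p using Polynomial.induction_on' with
        | add p q hp hq => rw [map_add, add_mul, map_add, hp, hq, add_zero]
        | monomial m c =>
          have h2 : AdjoinRoot.mk g (Polynomial.monomial m c) = c • AdjoinRoot.root g ^ m := by
            rw [← AdjoinRoot.aeval_eq, Polynomial.aeval_monomial, Algebra.smul_def]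
          rw [h2, smul_mul_assoc, map_smul, hpow, smul_zero]
      have hmu0 : ∀ t, mu t = 0 := by
        intro t
        obtain ⟨p, hp⟩ := AdjoinRoot.mk_surjective (t * (v i0)⁻¹)
        have h3 := hpoly p
        rw [hp, mul_assoc, inv_mul_cancel₀ hi0, mul_one] at h3
        exact h3
      intro a
      have h4 := hmu0 (e.symm (Pi.single a 1))
      rw [hmu] at h4
      simpa [Pi.single_apply] using h4
    have hpr := a2m_pr (n := n) V (V * comp g) hfull
    rw [Fintype.card_fin] at hpr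
    -- alternating
    have hpos : 0 < pr (fun b : Edge n → Bool => adj (ZMod 2) b * V = V * comp g) := by
      unfold pr avg
      refine div_pos ?_ (by exact_mod_cast Fintype.card_pos)
      refine lt_of_lt_of_le zero_lt_one ?_
      calc (1 : ℝ) = ind (adj (ZMod 2) b0 * V = V * comp g) := (ind_true (hev b0 hb0)).symm
        _ ≤ _ := Finset.single_le_sum
          (f := fun b : Edge n → Bool => ind (adj (ZMod 2) b * V = V * comp g))
          (fun _ _ => ind_nonneg _) (Finset.mem_univ b0)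
    have halt : IsAlt (V.transpose * (V * comp g)) := by
      by_contra hno
      rw [hpr, ind_false hno, zero_mul] at hpos
      exact lt_irrefl _ hpos
    have hVV : V.transpose * V = 0 := by
      refine b2m g hg hi hk (V.transpose * V) ?_ ?_
      · show (V.transpose * V).transpose = _
        rw [Matrix.transpose_mul, Matrix.transpose_transpose]
      · rw [Matrix.mul_assoc]
        exact halt
    rw [ind_true ⟨hfull, hVV⟩, one_mul]
    rw [ind_true halt, one_mul] at hpr
    have hmono : pr (fun b : Edge n → Bool =>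
        (∀ i, ∑ j, (adj (ZMod 2) b i j) • v j = AdjoinRoot.root g * v i) ∧
        (∑ ed : Edge n, if b ed then v ed.1.1 * v ed.1.2 else 0) = s) ≤
        pr (fun b : Edge n → Bool => adj (ZMod 2) b * V = V * comp g ∧ b8mL2 v (b8mz b) = s) := by
      refine pr_mono fun b hb => ⟨hev b hb.1, ?_⟩
      rw [← b8mL2_bits]
      exact hb.2
    refine hmono.trans ?_
    by_cases hexc : Exc V
    · rw [ind_true hexc]
      refine (pr_mono (fun b (hb : adj (ZMod 2) b * V = V * comp g ∧ b8mL2 v (b8mz b) = s) => hb.1)).trans ?_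
      rw [hpr]
      refine le_mul_of_one_le_right hD0 ?_
      have : (0 : ℝ) ≤ 1 / 2 ^ g.natDegree := by positivity
      linarith
    · rw [ind_false hexc, add_zero, ← hpr]
      exact b8m_count e v V (b8m_surj e v hfull hexc) _ _
  · have hzero : pr (fun b : Edge n → Bool =>
        (∀ i, ∑ j, (adj (ZMod 2) b i j) • v j = AdjoinRoot.root g * v i) ∧
        (∑ ed : Edge n, if b ed then v ed.1.1 * v ed.1.2 else 0) = s) = 0 := by
      unfold pr avg
      rw [Finset.sum_eq_zero, zero_div]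
      intro b _
      exact ind_false fun h => hex ⟨b, h.1⟩
    rw [hzero]
    refine mul_nonneg (mul_nonneg (ind_nonneg _) hD0) (add_nonneg (by positivity) (ind_nonneg _))

end Pool.H64.IR

end S_B8M

section S_B9M

/-! MODULE B9M (project MP_a758cf_pr, IR; overview: team-store H64_a758cf.md)
Exceptional isotropic frames are rare: for 2k <= (1-d) n and n >= n0: Exc count <= eps 2^(nk)/2^(k(k+1)/2).
Let V be exceptional with w, s = supp w nonempty, W = col V, F^s = vectors supported on s. For y in W^perp: w y = y|_s in W, so proj_s(W^perp) <= U := W inf F^s. Since proj_s(W^perp) is the orthogonal of U inside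
F^s, card s - dim U <= dim U, and U is isotropic: dim U <= card s/2. So card s = 2m, m = dim U >= 1 (m <= k).
Count for fixed s, card s = 2m: pairs (V, Uc), Uc : k x m of full rank with all columns of V Uc in F^s: every such V has at least card GL_m(F_2) >= 2^(m^2)/4 of them (Matrix.card_GL_field; prod (1-2^-i) >= 1/4), and for
fixed Uc, extending Uc to an invertible matrix: at most prod_{j<m} 2^(2m-j) * prod_{j=m}^{k-1} 2^(n-j) frames (each new vector orthogonal to the previous ones). So the number of V is at most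
4 * 2^(-m^2 + km + 2m^2 - m(m-1)/2 + n(k-m) - k(k-1)/2 + m(m-1)/2) = 4 * 2^(km + m^2 - nm + k) * 2^(nk)/2^(k(k+1)/2).
Sum over s (at most n^(2m) sets) and m = 1..k: exponent m^2 - m(n-k) + k + 2 m log2 n is convex in m: m = 1 gives 1 - (n - 2k) + 2 log2 n, m = k gives -k(n-2k-1-2 log2 n); both <= 1 - d n + 2 log2 n for n large. Total <=
4 k 2^(1 - d n) n^2 <= eps.
-/

set_option autoImplicit false

namespace Pool.H64.IR

open Finset Polynomial

/-- the orthogonal complement for the dot product -/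
def b9perp {n : ℕ} (S : Submodule (ZMod 2) (Fin n → ZMod 2)) : Submodule (ZMod 2) (Fin n → ZMod 2) :=
  S.dualAnnihilator.comap (dotProductEquiv (ZMod 2) (Fin n)).toLinearMap

theorem mem_b9perp {n : ℕ} (S : Submodule (ZMod 2) (Fin n → ZMod 2)) (y : Fin n → ZMod 2) :
    y ∈ b9perp S ↔ ∀ x ∈ S, dotProduct x y = 0 := by
  unfold b9perp
  rw [Submodule.mem_comap, Submodule.mem_dualAnnihilator]
  refine forall_congr' fun x => forall_congr' fun _ => ?_
  simp [dotProduct_comm]

theorem finrank_b9perp {n : ℕ} (S : Submodule (ZMod 2) (Fin n → ZMod 2)) :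
    Module.finrank (ZMod 2) S + Module.finrank (ZMod 2) (b9perp S) = n := by
  have h1 := Subspace.finrank_add_finrank_dualAnnihilator_eq S
  rw [Module.finrank_fin_fun] at h1
  have h2 : Module.finrank (ZMod 2) (b9perp S) = Module.finrank (ZMod 2) S.dualAnnihilator := by
    unfold b9perp
    have h3 : S.dualAnnihilator.comap (dotProductEquiv (ZMod 2) (Fin n)).toLinearMap =
      S.dualAnnihilator.map (dotProductEquiv (ZMod 2) (Fin n)).symm.toLinearMap := by
      exact Submodule.comap_equiv_eq_map_symm _ _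
    rw [h3]
    exact LinearEquiv.finrank_map_eq _ _
  rw [h2]
  exact h1

/-- vectors supported on `s` -/
def b9F {n : ℕ} (s : Finset (Fin n)) : Submodule (ZMod 2) (Fin n → ZMod 2) where
  carrier := {x | ∀ i, i ∉ s → x i = 0}
  add_mem' := by
    intro x y hx hy i hi
    rw [Pi.add_apply, hx i hi, hy i hi, add_zero]
  zero_mem' := by intro i _; rfl
  smul_mem' := by
    intro c x hx i hi
    rw [Pi.smul_apply, hx i hi, smul_zero]

theorem mem_b9F {n : ℕ} (s : Finset (Fin n)) (x : Fin n → ZMod 2) :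
    x ∈ b9F s ↔ ∀ i, i ∉ s → x i = 0 := Iff.rfl

theorem finrank_b9F {n : ℕ} (s : Finset (Fin n)) : Module.finrank (ZMod 2) (b9F s) = s.card := by
  classical
  let e : b9F s ≃ₗ[ZMod 2] (s → ZMod 2) :=
    { toFun := fun x i => x.1 i.1
      map_add' := by intro x y; rfl
      map_smul' := by intro c x; rfl
      invFun := fun y => ⟨fun i => if h : i ∈ s then y ⟨i, h⟩ else 0, by
        intro i hi
        simp [hi]⟩
      left_inv := by
        intro x
        apply Subtype.ext
        funext i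
        by_cases h : i ∈ s
        · simp [h]
        · simp only [h, dif_neg, not_false_eq_true]
          exact (x.2 i h).symm
      right_inv := by
        intro y
        funext i
        simp }
  rw [e.finrank_eq, Module.finrank_fintype_fun_eq_card, Fintype.card_coe]

/-- multiplication by `w` -/
def b9mul {n : ℕ} (w : Fin n → ZMod 2) : (Fin n → ZMod 2) →ₗ[ZMod 2] (Fin n → ZMod 2) where
  toFun y := fun i => w i * y i
  map_add' := by intro x y; funext i; simp [mul_add]
  map_smul' := by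
    intro c x
    funext i
    simp only [Pi.smul_apply, smul_eq_mul, RingHom.id_apply]
    ring

/-- structure of exceptional spaces: the support of `w` has at most `2 dim (W inf F^s)` elements -/
theorem b9_struct {n : ℕ} (W : Submodule (ZMod 2) (Fin n → ZMod 2)) (w : Fin n → ZMod 2)
    (hw : ∀ y ∈ b9perp W, b9mul w y ∈ W) :
    (univ.filter fun i => w i ≠ 0).card ≤
      2 * Module.finrank (ZMod 2) (W ⊓ b9F (univ.filter fun i => w i ≠ 0) :
        Submodule (ZMod 2) (Fin n → ZMod 2)) := by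
  classical
  set s := univ.filter fun i => w i ≠ 0 with hs
  -- image of the complement under multiplication by w
  have h1 : (b9perp W).map (b9mul w) ≤ W ⊓ b9F s := by
    rintro _ ⟨y, hy, rfl⟩
    refine ⟨hw y hy, ?_⟩
    intro i hi
    have : w i = 0 := by
      by_contra h
      exact hi (by simp [hs, h])
    show w i * y i = 0
    rw [this, zero_mul]
  have h2 := Submodule.finrank_mono h1
  have h3 : Module.finrank (ZMod 2) ((b9perp W).map (b9mul w)) +
      Module.finrank (ZMod 2) (b9perp (W ⊔ b9F s)) = Module.finrank (ZMod 2) (b9perp W) := by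
    have h4 := LinearMap.finrank_range_add_finrank_ker ((b9mul w).domRestrict (b9perp W))
    rw [LinearMap.range_domRestrict] at h4
    rw [← h4]
    congr 1
    -- kernel
    have h5 : (LinearMap.ker ((b9mul w).domRestrict (b9perp W))).map (b9perp W).subtype =
        b9perp (W ⊔ b9F s) := by
      ext y
      rw [Submodule.mem_map, mem_b9perp]
      constructor
      · rintro ⟨z, hz, rfl⟩ x hx
        rw [LinearMap.mem_ker] at hz
        obtain ⟨a, ha, b, hb, rfl⟩ := Submodule.mem_sup.1 hx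
        rw [add_dotProduct]
        have e1 : dotProduct a z.1 = 0 := (mem_b9perp W z.1).1 z.2 a ha
        have e2 : dotProduct b z.1 = 0 := by
          refine Finset.sum_eq_zero fun i _ => ?_
          by_cases hi : i ∈ s
          · have e3 : w i * z.1 i = 0 := congrFun hz i
            have e4 : w i ≠ 0 := by simpa [hs] using hi
            rw [(mul_eq_zero.1 e3).resolve_left e4, mul_zero]
          · rw [hb i hi, zero_mul]
        simp only [Submodule.subtype_apply]
        rw [e1, e2, add_zero]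
      · intro hy
        have hyW : y ∈ b9perp W := (mem_b9perp W y).2 fun x hx => hy x (Submodule.mem_sup_left hx)
        refine ⟨⟨y, hyW⟩, ?_, rfl⟩
        rw [LinearMap.mem_ker]
        funext i
        show w i * y i = 0
        by_cases hi : i ∈ s
        · have e5 : (Pi.single i 1 : Fin n → ZMod 2) ∈ b9F s := by
            intro j hj
            rw [Pi.single_apply, if_neg]
            rintro rfl
            exact hj hi
          have e6 := hy _ (Submodule.mem_sup_right e5)
          rw [single_one_dotProduct] at e6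
          rw [e6, mul_zero]
        · have : w i = 0 := by
            by_contra h
            exact hi (by simp [hs, h])
          rw [this, zero_mul]
    rw [← h5]
    exact (Submodule.equivMapOfInjective _ (Submodule.injective_subtype _) _).finrank_eq.symm
  have h6 := finrank_b9perp (n := n) W
  have h7 := finrank_b9perp (n := n) (W ⊔ b9F s)
  have h8 := Submodule.finrank_sup_add_finrank_inf_eq W (b9F s)
  rw [finrank_b9F] at h8
  omega

theorem b9_sum_ind {α : Type} [Fintype α] (P : α → Prop) :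
    ∑ a, ind (P a) = (Nat.card {a // P a} : ℝ) := by
  classical
  unfold ind
  rw [Finset.sum_boole, Nat.card_eq_fintype_card, Fintype.card_subtype]

/-- number of solutions in a subspace of the orthogonality to independent vectors of the subspace
`b9F s` -/
theorem b9_perp_card {n j : ℕ} (s : Finset (Fin n)) (v : Fin j → Fin n → ZMod 2)
    (hv : LinearIndependent (ZMod 2) v) (hs : ∀ a, v a ∈ b9F s) :
    (∑ x : Fin n → ZMod 2, ind (x ∈ b9F s ∧ ∀ a, dotProduct (v a) x = 0)) ≤
      (2 : ℝ) ^ s.card / (2 : ℝ) ^ j := by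
  classical
  -- the space of solutions
  set T : Submodule (ZMod 2) (Fin n → ZMod 2) := b9F s ⊓ b9perp (Submodule.span (ZMod 2) (Set.range v))
    with hT
  have h1 : (∑ x : Fin n → ZMod 2, ind (x ∈ b9F s ∧ ∀ a, dotProduct (v a) x = 0)) =
      (2 : ℝ) ^ Module.finrank (ZMod 2) T := by
    have h2 : ∀ x : Fin n → ZMod 2, (x ∈ b9F s ∧ ∀ a, dotProduct (v a) x = 0) ↔ x ∈ T := by
      intro x
      rw [hT, Submodule.mem_inf, mem_b9perp]
      refine and_congr_right fun _ => ?_
      constructor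
      · intro h y hy
        induction hy using Submodule.span_induction with
        | mem y hy =>
          obtain ⟨a, rfl⟩ := hy
          exact h a
        | zero => exact zero_dotProduct _
        | add y z _ _ hy hz => rw [add_dotProduct, hy, hz, add_zero]
        | smul c y _ hy => rw [smul_dotProduct, hy, smul_zero]
      · intro h a
        exact h _ (Submodule.subset_span ⟨a, rfl⟩)
    simp_rw [ind_congr (h2 _)]
    unfold ind
    rw [Finset.sum_boole]
    have h4 : (Finset.univ.filter fun x : Fin n → ZMod 2 => x ∈ T).card = Fintype.card T := by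
      rw [← Fintype.card_coe]
      exact Fintype.card_congr (Equiv.subtypeEquivRight (by simp))
    rw [h4, Module.card_eq_pow_finrank (K := ZMod 2), ZMod.card]
    push_cast
    rfl
  rw [h1, le_div_iff₀ (by positivity), ← pow_add]
  refine pow_le_pow_right₀ (by norm_num) ?_
  -- dimension of T
  have h6 : b9F s = b9perp (b9F (univ \ s)) := by
    ext x
    rw [mem_b9perp, mem_b9F]
    constructor
    · intro h y hy
      refine Finset.sum_eq_zero fun i _ => ?_
      by_cases hi : i ∈ s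
      · rw [hy i (by simp [hi]), zero_mul]
      · rw [h i hi, mul_zero]
    · intro h i hi
      have e5 : (Pi.single i 1 : Fin n → ZMod 2) ∈ b9F (univ \ s) := by
        intro j hj
        rw [Pi.single_apply, if_neg]
        rintro rfl
        exact hj (by simp [hi])
      have e6 := h _ e5
      rwa [single_one_dotProduct] at e6
  have h7 : T = b9perp (b9F (univ \ s) ⊔ Submodule.span (ZMod 2) (Set.range v)) := by
    rw [hT, h6]
    ext x
    rw [Submodule.mem_inf, mem_b9perp, mem_b9perp, mem_b9perp]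
    constructor
    · rintro ⟨ha, hb⟩ y hy
      obtain ⟨a, ha', b, hb', rfl⟩ := Submodule.mem_sup.1 hy
      rw [add_dotProduct, ha a ha', hb b hb', add_zero]
    · intro h
      exact ⟨fun y hy => h y (Submodule.mem_sup_left hy), fun y hy => h y (Submodule.mem_sup_right hy)⟩
  have h8 := finrank_b9perp (n := n) (b9F (univ \ s) ⊔ Submodule.span (ZMod 2) (Set.range v))
  rw [← h7] at h8
  have h9 := Submodule.finrank_sup_add_finrank_inf_eq (b9F (univ \ s))
    (Submodule.span (ZMod 2) (Set.range v))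
  have h10 : b9F (univ \ s) ⊓ Submodule.span (ZMod 2) (Set.range v) = ⊥ := by
    rw [eq_bot_iff]
    rintro x ⟨hx1, hx2⟩
    have hx3 : x ∈ b9F s := by
      have : Submodule.span (ZMod 2) (Set.range v) ≤ b9F s := by
        rw [Submodule.span_le]
        rintro _ ⟨a, rfl⟩
        exact hs a
      exact this hx2
    rw [Submodule.mem_bot]
    funext i
    by_cases hi : i ∈ s
    · exact hx1 i (by simp [hi])
    · exact hx3 i hi
  rw [h10, finrank_bot, finrank_b9F, finrank_span_eq_card hv, Fintype.card_fin] at h9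
  have h11 : (univ \ s).card = n - s.card := by
    rw [Finset.card_univ_sdiff, Fintype.card_fin]
  have h12 : s.card ≤ n := by
    have := Finset.card_le_univ s
    rwa [Fintype.card_fin] at this
  omega

theorem b9_sum_snoc {X : Type} [Fintype X] {j : ℕ} (f : (Fin (j + 1) → X) → ℝ) :
    ∑ v, f v = ∑ v' : Fin j → X, ∑ x : X, f (Fin.snoc (α := fun _ => X) v' x) := by
  classical
  rw [← Equiv.sum_comp (Fin.snocEquiv (fun _ : Fin (j + 1) => X)), Fintype.sum_prod_type,
    Finset.sum_comm]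
  rfl

theorem b9F_univ {n : ℕ} (x : Fin n → ZMod 2) : x ∈ b9F (univ : Finset (Fin n)) := by
  intro i hi
  exact absurd (Finset.mem_univ i) hi

/-- counting isotropic independent tuples whose first `m` members are supported on `s` -/
theorem b9_seq (n m : ℕ) (s : Finset (Fin n)) (j : ℕ) :
    (∑ v : Fin j → Fin n → ZMod 2, ind (LinearIndependent (ZMod 2) v ∧
      (∀ a b, dotProduct (v a) (v b) = 0) ∧ ∀ a : Fin j, (a : ℕ) < m → v a ∈ b9F s)) ≤
      ∏ i ∈ Finset.range j, ((if i < m then (2 : ℝ) ^ s.card else (2 : ℝ) ^ n) / (2 : ℝ) ^ i) := by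
  classical
  induction j with
  | zero =>
    simp only [Finset.range_zero, Finset.prod_empty]
    calc (∑ v : Fin 0 → Fin n → ZMod 2, ind (LinearIndependent (ZMod 2) v ∧
      (∀ a b, dotProduct (v a) (v b) = 0) ∧ ∀ a : Fin 0, (a : ℕ) < m → v a ∈ b9F s))
        ≤ ∑ _v : Fin 0 → Fin n → ZMod 2, (1 : ℝ) := Finset.sum_le_sum fun v _ => ind_le_one _
      _ = 1 := by simp
  | succ j ih =>
    rw [b9_sum_snoc, Finset.prod_range_succ]
    refine le_trans ?_ (mul_le_mul_of_nonneg_right ih (by split_ifs <;> positivity))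
    rw [Finset.sum_mul]
    refine Finset.sum_le_sum fun v _ => ?_
    by_cases hv : LinearIndependent (ZMod 2) v ∧
      (∀ a b, dotProduct (v a) (v b) = 0) ∧ ∀ a : Fin j, (a : ℕ) < m → v a ∈ b9F s
    · rw [ind_true hv, one_mul]
      set s' : Finset (Fin n) := if j < m then s else univ with hs'
      have h1 : (if j < m then (2 : ℝ) ^ s.card else (2 : ℝ) ^ n) = (2 : ℝ) ^ s'.card := by
        rw [hs']
        split_ifs
        · rfl
        · rw [Finset.card_univ, Fintype.card_fin]
      rw [h1]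
      have h2 : ∀ a, v a ∈ b9F s' := by
        intro a
        rw [hs']
        split_ifs with h
        · exact hv.2.2 a (lt_trans a.2 h)
        · exact b9F_univ _
      refine le_trans (Finset.sum_le_sum fun x _ => ind_mono ?_) (b9_perp_card s' v hv.1 h2)
      intro h
      constructor
      · rw [hs']
        split_ifs with hj
        · have := h.2.2 (Fin.last j) (by simpa using hj)
          rwa [Fin.snoc_last] at this
        · exact b9F_univ _
      · intro a
        have := h.2.1 (Fin.castSucc a) (Fin.last j)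
        rwa [Fin.snoc_castSucc, Fin.snoc_last] at this
    · rw [ind_false hv, zero_mul]
      refine le_of_eq (Finset.sum_eq_zero fun x _ => ind_false fun h => hv ⟨?_, ?_, ?_⟩)
      · exact (linearIndependent_finSnoc.1 h.1).1
      · intro a b
        have := h.2.1 (Fin.castSucc a) (Fin.castSucc b)
        rwa [Fin.snoc_castSucc, Fin.snoc_castSucc] at this
      · intro a ha
        have := h.2.2 (Fin.castSucc a) (by simpa using ha)
        rwa [Fin.snoc_castSucc] at this

/-- extension of an independent family to an invertible change of basis -/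
theorem b9_extend {m k : ℕ} (hmk : m ≤ k) (c : Fin m → Fin k → ZMod 2)
    (hc : LinearIndependent (ZMod 2) c) :
    ∃ b : Module.Basis (Fin k) (ZMod 2) (Fin k → ZMod 2), ∀ a : Fin m, b (Fin.castLE hmk a) = c a := by
  classical
  obtain ⟨r, rfl⟩ := Nat.exists_eq_add_of_le hmk
  set B := Module.Basis.sumExtend hc with hB
  have hfin : Finite (Fin m ⊕ Module.Basis.sumExtendIndex hc) := Module.Finite.finite_basis B
  have hfin2 : Finite (Module.Basis.sumExtendIndex hc) :=
    Finite.of_injective (Sum.inr : _ → Fin m ⊕ Module.Basis.sumExtendIndex hc) Sum.inr_injective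
  let hft : Fintype (Module.Basis.sumExtendIndex hc) := Fintype.ofFinite _
  have hcard : Fintype.card (Module.Basis.sumExtendIndex hc) = r := by
    have h1 := Module.finrank_eq_nat_card_basis B
    rw [Module.finrank_fin_fun, Nat.card_sum, Nat.card_eq_fintype_card,
      Nat.card_eq_fintype_card, Fintype.card_fin] at h1
    omega
  refine ⟨B.reindex ((Equiv.sumCongr (Equiv.refl _) (Fintype.equivFinOfCardEq hcard)).trans
    finSumFinEquiv), fun a => ?_⟩
  rw [Module.Basis.reindex_apply]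
  have h3 : ((Equiv.sumCongr (Equiv.refl (Fin m)) (Fintype.equivFinOfCardEq hcard)).trans
    finSumFinEquiv).symm (Fin.castLE hmk a) = Sum.inl a := by
    rw [Equiv.symm_apply_eq]
    simp
    rfl
  rw [h3]
  rw [hB]
  simp only [Module.Basis.sumExtend, Module.Basis.reindex_apply, Module.Basis.coe_extend]
  rfl

/-- count for a fixed family of combinations supported on `s` -/
theorem b9_fixed {n m k : ℕ} (hmk : m ≤ k) (s : Finset (Fin n)) (c : Fin m → Fin k → ZMod 2)
    (hc : LinearIndependent (ZMod 2) c) :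
    (∑ v : Fin k → Fin n → ZMod 2, ind (LinearIndependent (ZMod 2) v ∧
      (∀ a b, dotProduct (v a) (v b) = 0) ∧
      ∀ a : Fin m, Fintype.linearCombination (ZMod 2) v (c a) ∈ b9F s)) ≤
      ∏ i ∈ Finset.range k, ((if i < m then (2 : ℝ) ^ s.card else (2 : ℝ) ^ n) / (2 : ℝ) ^ i) := by
  classical
  obtain ⟨B, hB⟩ := b9_extend hmk c hc
  let φ : (Fin k → Fin n → ZMod 2) → (Fin k → Fin n → ZMod 2) :=
    fun v a => Fintype.linearCombination (ZMod 2) v (B a)
  have hφ : Function.Injective φ := by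
    intro v v' h
    have h1 : Fintype.linearCombination (ZMod 2) v = Fintype.linearCombination (ZMod 2) v' :=
      B.ext fun a => congrFun h a
    funext b
    have h2 := LinearMap.congr_fun h1 (Pi.single b 1)
    simpa [Fintype.linearCombination_apply, Pi.single_apply, Finset.sum_ite_eq'] using h2
  let e : (Fin k → Fin n → ZMod 2) ≃ (Fin k → Fin n → ZMod 2) :=
    Equiv.ofBijective φ (Finite.injective_iff_bijective.1 hφ)
  refine le_trans ?_ ((Equiv.sum_comp e _).le.trans (b9_seq n m s k))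
  refine Finset.sum_le_sum fun v _ => ind_mono ?_
  rintro ⟨h1, h2, h3⟩
  refine ⟨?_, ?_, ?_⟩
  · have h4 : LinearIndependent (ZMod 2) (⇑(Fintype.linearCombination (ZMod 2) v) ∘ ⇑B) :=
      B.linearIndependent.map' _ (LinearMap.ker_eq_bot.2 h1.fintypeLinearCombination_injective)
    exact h4
  · intro a b
    show dotProduct (Fintype.linearCombination (ZMod 2) v (B a))
      (Fintype.linearCombination (ZMod 2) v (B b)) = 0
    rw [Fintype.linearCombination_apply, Fintype.linearCombination_apply, sum_dotProduct]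
    refine Finset.sum_eq_zero fun i _ => ?_
    rw [dotProduct_sum]
    refine Finset.sum_eq_zero fun l _ => ?_
    rw [smul_dotProduct, dotProduct_smul, h2 i l, smul_zero, smul_zero]
  · intro a ha
    have h4 := h3 ⟨a, ha⟩
    rw [← hB] at h4
    exact h4

/-- the number of independent `m`-tuples in a space of dimension at least `m` -/
theorem b9_gl (m : ℕ) : (2 : ℝ) ^ (m * m) / 4 ≤ ∏ i : Fin m, ((2 : ℝ) ^ m - (2 : ℝ) ^ (i : ℕ)) := by
  have h1 : ∀ m : ℕ, 1 ≤ m → 1 / 4 + 1 / (2 : ℝ) ^ (m + 1) ≤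
      ∏ i ∈ Finset.range m, (1 - 1 / (2 : ℝ) ^ (i + 1)) := by
    intro m hm
    induction m, hm using Nat.le_induction with
    | base => norm_num
    | succ m hm ih =>
      rw [Finset.prod_range_succ]
      have h2 : (0 : ℝ) < 1 / (2 : ℝ) ^ (m + 1) := by positivity
      have h3 : 1 / (2 : ℝ) ^ (m + 1) ≤ 1 / 4 := by
        have : (2 : ℝ) ^ 2 ≤ (2 : ℝ) ^ (m + 1) := pow_le_pow_right₀ (by norm_num) (by omega)
        calc 1 / (2 : ℝ) ^ (m + 1) ≤ 1 / (2 : ℝ) ^ 2 := one_div_le_one_div_of_le (by norm_num) this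
          _ = 1 / 4 := by norm_num
      have h4 : 1 / (2 : ℝ) ^ (m + 1 + 1) = (1 / (2 : ℝ) ^ (m + 1)) / 2 := by
        rw [pow_succ (2 : ℝ) (m + 1)]; field_simp
      rw [h4]
      set x := 1 / (2 : ℝ) ^ (m + 1) with hx
      have h5 : (1 / 4 + x) * (1 - x) ≤ (∏ i ∈ Finset.range m, (1 - 1 / (2 : ℝ) ^ (i + 1))) * (1 - x) :=
        mul_le_mul_of_nonneg_right ih (by linarith)
      refine le_trans ?_ h5
      nlinarith
  have h2 : ∏ i : Fin m, ((2 : ℝ) ^ m - (2 : ℝ) ^ (i : ℕ)) =
      (2 : ℝ) ^ (m * m) * ∏ i ∈ Finset.range m, (1 - 1 / (2 : ℝ) ^ (i + 1)) := by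
    rw [Fin.prod_univ_eq_prod_range (fun i => (2 : ℝ) ^ m - (2 : ℝ) ^ i) m,
      ← Finset.prod_range_reflect (fun i => (1 - 1 / (2 : ℝ) ^ (i + 1))) m]
    have h3 : (2 : ℝ) ^ (m * m) = ∏ _i ∈ Finset.range m, (2 : ℝ) ^ m := by
      rw [Finset.prod_const, Finset.card_range, ← pow_mul]
    rw [h3, ← Finset.prod_mul_distrib]
    refine Finset.prod_congr rfl fun i hi => ?_
    have hi' := Finset.mem_range.1 hi
    have h4 : m - 1 - i + 1 = m - i := by omega
    rw [h4]
    have h5 : (2 : ℝ) ^ m = (2 : ℝ) ^ i * (2 : ℝ) ^ (m - i) := by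
      rw [← pow_add]; congr 1; omega
    rw [h5]
    field_simp
  rw [h2]
  rcases Nat.eq_zero_or_pos m with hm | hm
  · subst hm; norm_num
  · have h3 := h1 m hm
    have h4 : (0 : ℝ) < 1 / (2 : ℝ) ^ (m + 1) := by positivity
    have h5 : (0 : ℝ) < (2 : ℝ) ^ (m * m) := by positivity
    rw [div_eq_mul_one_div]
    exact mul_le_mul_of_nonneg_left (by linarith) h5.le

/-- many families of combinations -/
theorem b9_many {n m k : ℕ} (s : Finset (Fin n)) (v : Fin k → Fin n → ZMod 2)
    (hv : LinearIndependent (ZMod 2) v)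
    (hm : m ≤ Module.finrank (ZMod 2) (Submodule.span (ZMod 2) (Set.range v) ⊓ b9F s :
        Submodule (ZMod 2) (Fin n → ZMod 2))) :
    (2 : ℝ) ^ (m * m) / 4 ≤ ∑ c : Fin m → Fin k → ZMod 2, ind (LinearIndependent (ZMod 2) c ∧
      ∀ a : Fin m, Fintype.linearCombination (ZMod 2) v (c a) ∈ b9F s) := by
  classical
  set L := Fintype.linearCombination (ZMod 2) v with hL
  have hinj : Function.Injective L := hv.fintypeLinearCombination_injective
  set C : Submodule (ZMod 2) (Fin k → ZMod 2) := (b9F s).comap L with hC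
  have hr : LinearMap.range L = Submodule.span (ZMod 2) (Set.range v) :=
    Fintype.range_linearCombination _ v
  have h1 : Module.finrank (ZMod 2) C = Module.finrank (ZMod 2)
      (Submodule.span (ZMod 2) (Set.range v) ⊓ b9F s : Submodule (ZMod 2) (Fin n → ZMod 2)) := by
    rw [← hr, ← Submodule.map_comap_eq]
    exact (Submodule.equivMapOfInjective L hinj C).finrank_eq
  rw [← h1] at hm
  refine (b9_gl m).trans ?_
  have h2 := card_linearIndependent (K := ZMod 2) (V := C) hm
  rw [ZMod.card] at h2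
  have h3 : (∑ c : Fin m → Fin k → ZMod 2, ind (LinearIndependent (ZMod 2) c ∧
      ∀ a : Fin m, L (c a) ∈ b9F s)) =
      (Nat.card {c : Fin m → Fin k → ZMod 2 // LinearIndependent (ZMod 2) c ∧
      ∀ a : Fin m, L (c a) ∈ b9F s} : ℝ) := b9_sum_ind _
  rw [h3]
  have h4 : Nat.card { t : Fin m → C // LinearIndependent (ZMod 2) t } ≤
      Nat.card {c : Fin m → Fin k → ZMod 2 // LinearIndependent (ZMod 2) c ∧
      ∀ a : Fin m, L (c a) ∈ b9F s} := by
    refine Nat.card_le_card_of_injective (fun t => ⟨fun a => (t.1 a).1, ?_, fun a => (t.1 a).2⟩) ?_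
    · exact t.2.map' C.subtype (Submodule.ker_subtype C)
    · intro t t' h
      apply Subtype.ext
      funext a
      apply Subtype.ext
      have := congrArg Subtype.val h
      exact congrFun this a
  refine le_trans ?_ (Nat.cast_le.2 h4)
  rw [h2]
  push_cast
  refine Finset.prod_le_prod ?_ ?_
  · intro i _
    have : (2 : ℝ) ^ (i : ℕ) ≤ (2 : ℝ) ^ m := pow_le_pow_right₀ (by norm_num) i.2.le
    linarith
  · intro i _
    have h5 : (2 : ℕ) ^ (i : ℕ) ≤ 2 ^ Module.finrank (ZMod 2) C :=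
      pow_le_pow_right₀ (by norm_num) (i.2.le.trans hm)
    rw [Nat.cast_sub h5]
    push_cast
    have : (2 : ℝ) ^ m ≤ (2 : ℝ) ^ Module.finrank (ZMod 2) C := pow_le_pow_right₀ (by norm_num) hm
    linarith

theorem b9_prod (X Y : ℝ) (m k : ℕ) (hmk : m ≤ k) :
    ∏ i ∈ Finset.range k, ((if i < m then X else Y) / (2 : ℝ) ^ i) =
      X ^ m * Y ^ (k - m) / (2 : ℝ) ^ (k * (k - 1) / 2) := by
  rw [Finset.prod_div_distrib, Finset.prod_pow_eq_pow_sum, Finset.sum_range_id]
  congr 1
  obtain ⟨r, rfl⟩ := Nat.exists_eq_add_of_le hmk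
  rw [Finset.prod_range_add, Nat.add_sub_cancel_left]
  congr 1
  · rw [Finset.prod_congr rfl (fun i hi => if_pos (Finset.mem_range.1 hi)), Finset.prod_const,
      Finset.card_range]
  · rw [Finset.prod_congr rfl (fun i _ => if_neg (by omega)), Finset.prod_const,
      Finset.card_range]

/-- double counting for a fixed support -/
theorem b9_level {n m k : ℕ} (hm : 1 ≤ m) (hmk : m ≤ k) (s : Finset (Fin n))
    (hs : s.card ≤ 2 * m) :
    (∑ v : Fin k → Fin n → ZMod 2, ind (LinearIndependent (ZMod 2) v ∧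
      (∀ a b, dotProduct (v a) (v b) = 0) ∧
      m ≤ Module.finrank (ZMod 2) (Submodule.span (ZMod 2) (Set.range v) ⊓ b9F s :
        Submodule (ZMod 2) (Fin n → ZMod 2)))) ≤
      4 * ((2 : ℝ) ^ (2 * k + 1) / (2 : ℝ) ^ n) ^ m * (((2 : ℝ) ^ n) ^ k / (2 : ℝ) ^ (k * (k + 1) / 2)) := by
  classical
  set A := ∑ v : Fin k → Fin n → ZMod 2, ind (LinearIndependent (ZMod 2) v ∧
      (∀ a b, dotProduct (v a) (v b) = 0) ∧
      m ≤ Module.finrank (ZMod 2) (Submodule.span (ZMod 2) (Set.range v) ⊓ b9F s :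
        Submodule (ZMod 2) (Fin n → ZMod 2))) with hA
  set Nmax : ℝ := ∏ i ∈ Finset.range k,
    ((if i < m then (2 : ℝ) ^ s.card else (2 : ℝ) ^ n) / (2 : ℝ) ^ i) with hN
  have hN0 : 0 ≤ Nmax := Finset.prod_nonneg fun i _ => by split_ifs <;> positivity
  have h1 : A * ((2 : ℝ) ^ (m * m) / 4) ≤ (2 : ℝ) ^ (k * m) * Nmax := by
    have h2 : A * ((2 : ℝ) ^ (m * m) / 4) ≤ ∑ v : Fin k → Fin n → ZMod 2,
        ∑ c : Fin m → Fin k → ZMod 2, ind (LinearIndependent (ZMod 2) c) *
          ind (LinearIndependent (ZMod 2) v ∧ (∀ a b, dotProduct (v a) (v b) = 0) ∧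
            ∀ a : Fin m, Fintype.linearCombination (ZMod 2) v (c a) ∈ b9F s) := by
      rw [hA, Finset.sum_mul]
      refine Finset.sum_le_sum fun v _ => ?_
      by_cases hv : LinearIndependent (ZMod 2) v ∧
        (∀ a b, dotProduct (v a) (v b) = 0) ∧
        m ≤ Module.finrank (ZMod 2) (Submodule.span (ZMod 2) (Set.range v) ⊓ b9F s :
        Submodule (ZMod 2) (Fin n → ZMod 2))
      · rw [ind_true hv, one_mul]
        refine (b9_many s v hv.1 hv.2.2).trans (Finset.sum_le_sum fun c _ => ?_)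
        rw [ind_and]
        refine mul_le_mul_of_nonneg_left (ind_mono fun h => ⟨hv.1, hv.2.1, h⟩) (ind_nonneg _)
      · rw [ind_false hv, zero_mul]
        exact Finset.sum_nonneg fun c _ => mul_nonneg (ind_nonneg _) (ind_nonneg _)
    refine h2.trans ?_
    rw [Finset.sum_comm]
    have h3 : ∀ c : Fin m → Fin k → ZMod 2, ∑ v : Fin k → Fin n → ZMod 2,
        ind (LinearIndependent (ZMod 2) c) *
          ind (LinearIndependent (ZMod 2) v ∧ (∀ a b, dotProduct (v a) (v b) = 0) ∧
            ∀ a : Fin m, Fintype.linearCombination (ZMod 2) v (c a) ∈ b9F s) ≤ Nmax := by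
      intro c
      rw [← Finset.mul_sum]
      by_cases hc : LinearIndependent (ZMod 2) c
      · rw [ind_true hc, one_mul]
        exact b9_fixed hmk s c hc
      · rw [ind_false hc, zero_mul]
        exact hN0
    refine (Finset.sum_le_sum fun c _ => h3 c).trans ?_
    rw [Finset.sum_const, nsmul_eq_mul]
    have h4 : ((Finset.univ : Finset (Fin m → Fin k → ZMod 2)).card : ℝ) = (2 : ℝ) ^ (k * m) := by
      simp [ZMod.card, pow_mul]
    rw [h4]
  rw [hN, b9_prod _ _ _ _ hmk] at h1
  have h5 : ((2 : ℝ) ^ s.card) ^ m ≤ ((2 : ℝ) ^ (2 * m)) ^ m :=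
    pow_le_pow_left₀ (by positivity) (pow_le_pow_right₀ (by norm_num) hs) _
  have hK : k * (k + 1) / 2 = k * (k - 1) / 2 + k := by
    have h6 : k * (k + 1) = k * (k - 1) + k * 2 := by
      obtain ⟨r, rfl⟩ := Nat.exists_eq_add_of_le (hm.trans hmk)
      rw [Nat.add_sub_cancel_left]
      ring
    rw [h6, Nat.add_mul_div_right _ _ (by norm_num)]
  set K := k * (k - 1) / 2 with hKdef
  rw [hK]
  -- the exponents
  have h7 : k * m + (2 * m) * m + k ≤ (2 * k + 1) * m + m * m := by
    obtain ⟨u, rfl⟩ := Nat.exists_eq_add_of_le hm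
    obtain ⟨w, rfl⟩ := Nat.exists_eq_add_of_le hmk
    ring_nf
    nlinarith [Nat.zero_le (u * w)]
  have h8 : (2 : ℝ) ^ (k * m) * ((2 : ℝ) ^ (2 * m)) ^ m * (2 : ℝ) ^ k ≤
      ((2 : ℝ) ^ (2 * k + 1)) ^ m * (2 : ℝ) ^ (m * m) := by
    rw [← pow_mul, ← pow_mul, ← pow_add, ← pow_add, ← pow_add]
    exact pow_le_pow_right₀ (by norm_num) h7
  have hsplit : ((2 : ℝ) ^ n) ^ k = ((2 : ℝ) ^ n) ^ (k - m) * ((2 : ℝ) ^ n) ^ m := by
    rw [← pow_add]; congr 1; omega
  have hmm : (0 : ℝ) < (2 : ℝ) ^ (m * m) := by positivity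
  have h9 : A ≤ 4 * ((2 : ℝ) ^ (k * m) * (((2 : ℝ) ^ (2 * m)) ^ m * ((2 : ℝ) ^ n) ^ (k - m) / (2 : ℝ) ^ K))
      / (2 : ℝ) ^ (m * m) := by
    rw [le_div_iff₀ hmm]
    have h10 : (2 : ℝ) ^ (k * m) * (((2 : ℝ) ^ s.card) ^ m * ((2 : ℝ) ^ n) ^ (k - m) / (2 : ℝ) ^ K) ≤
        (2 : ℝ) ^ (k * m) * (((2 : ℝ) ^ (2 * m)) ^ m * ((2 : ℝ) ^ n) ^ (k - m) / (2 : ℝ) ^ K) := by
      gcongr
    linarith
  refine h9.trans ?_
  rw [hsplit, div_pow, pow_add (2 : ℝ) K k]
  rw [div_le_iff₀ hmm]
  have hKp : (0 : ℝ) < (2 : ℝ) ^ K := by positivity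
  have hk0 : (0 : ℝ) < (2 : ℝ) ^ k := by positivity
  have hnm : (0 : ℝ) < ((2 : ℝ) ^ n) ^ m := by positivity
  have e1 : 4 * (((2 : ℝ) ^ (2 * k + 1)) ^ m / ((2 : ℝ) ^ n) ^ m) *
      (((2 : ℝ) ^ n) ^ (k - m) * ((2 : ℝ) ^ n) ^ m / ((2 : ℝ) ^ K * (2 : ℝ) ^ k)) * (2 : ℝ) ^ (m * m) =
      4 * (((2 : ℝ) ^ n) ^ (k - m) / (2 : ℝ) ^ K) * ((((2 : ℝ) ^ (2 * k + 1)) ^ m * (2 : ℝ) ^ (m * m)) / (2 : ℝ) ^ k) := by
    field_simp
  have e2 : 4 * ((2 : ℝ) ^ (k * m) * (((2 : ℝ) ^ (2 * m)) ^ m * ((2 : ℝ) ^ n) ^ (k - m) / (2 : ℝ) ^ K)) =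
      4 * (((2 : ℝ) ^ n) ^ (k - m) / (2 : ℝ) ^ K) * ((2 : ℝ) ^ (k * m) * ((2 : ℝ) ^ (2 * m)) ^ m) := by
    ring
  rw [e1, e2]
  refine mul_le_mul_of_nonneg_left ?_ (by positivity)
  rw [le_div_iff₀ hk0]
  exact h8

/-- every nonempty finset with at most `r` elements is the image of `Fin r` -/
theorem b9_image {n r : ℕ} (s : Finset (Fin n)) (hs : s.Nonempty) (hr : s.card ≤ r) :
    ∃ f : Fin r → Fin n, (Finset.univ.image f) = s := by
  classical
  obtain ⟨x0, hx0⟩ := hs
  let e := s.equivFin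
  refine ⟨fun i => if h : (i : ℕ) < s.card then (e.symm ⟨i, h⟩).1 else x0, ?_⟩
  ext x
  rw [Finset.mem_image]
  constructor
  · rintro ⟨i, _, rfl⟩
    by_cases h : (i : ℕ) < s.card
    · simp only [h, dif_pos]
      exact (e.symm ⟨i, h⟩).2
    · simp only [h, dif_neg, not_false_eq_true]
      exact hx0
  · intro hx
    refine ⟨⟨e ⟨x, hx⟩, (e ⟨x, hx⟩).2.trans_le hr⟩, Finset.mem_univ _, ?_⟩
    have h : ((e ⟨x, hx⟩ : Fin s.card) : ℕ) < s.card := (e ⟨x, hx⟩).2
    simp only [h, dif_pos]
    simp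

theorem b9_total {n k : ℕ} :
    (∑ V : Matrix (Fin n) (Fin k) (ZMod 2), ind (FullRank V ∧ V.transpose * V = 0 ∧ Exc V)) ≤
      ∑ m ∈ Finset.Icc 1 k, ((n : ℝ) ^ 2) ^ m * (4 * ((2 : ℝ) ^ (2 * k + 1) / (2 : ℝ) ^ n) ^ m *
        (((2 : ℝ) ^ n) ^ k / (2 : ℝ) ^ (k * (k + 1) / 2))) := by
  classical
  let e : (Fin k → Fin n → ZMod 2) ≃ Matrix (Fin n) (Fin k) (ZMod 2) :=
    { toFun := fun v => Matrix.of fun i a => v a i
      invFun := fun V a i => V i a
      left_inv := fun v => rfl
      right_inv := fun V => rfl }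
  rw [← Equiv.sum_comp e]
  have h1 : ∀ v : Fin k → Fin n → ZMod 2,
      ind (FullRank (e v) ∧ (e v).transpose * (e v) = 0 ∧ Exc (e v)) ≤
      ∑ m ∈ Finset.Icc 1 k, ∑ f : Fin (2 * m) → Fin n, ind (LinearIndependent (ZMod 2) v ∧
      (∀ a b, dotProduct (v a) (v b) = 0) ∧
      m ≤ Module.finrank (ZMod 2) (Submodule.span (ZMod 2) (Set.range v) ⊓
        b9F (Finset.univ.image f) : Submodule (ZMod 2) (Fin n → ZMod 2))) := by
    intro v
    by_cases hv : FullRank (e v) ∧ (e v).transpose * (e v) = 0 ∧ Exc (e v)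
    · rw [ind_true hv]
      obtain ⟨hv1, hv2, w, hw1, hw2, hw3⟩ := hv
      have hli : LinearIndependent (ZMod 2) v := hv1
      set W := Submodule.span (ZMod 2) (Set.range v) with hW
      have hw1' : w ∈ W := hw1
      set s := univ.filter fun i => w i ≠ 0 with hs
      set m := Module.finrank (ZMod 2) (W ⊓ b9F s : Submodule (ZMod 2) (Fin n → ZMod 2)) with hm
      have h2 : s.card ≤ 2 * m := by
        refine b9_struct W w fun y hy => ?_
        refine hw3 y fun a => ?_
        have := (mem_b9perp W y).1 hy (v a) (Submodule.subset_span ⟨a, rfl⟩)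
        exact this
      have hsne : s.Nonempty := by
        obtain ⟨i, hi⟩ := Function.ne_iff.1 hw2
        exact ⟨i, by simpa [hs] using hi⟩
      have hm1 : 1 ≤ m := by
        have := Finset.card_pos.2 hsne
        omega
      have hmk : m ≤ k := by
        have h3 : m ≤ Module.finrank (ZMod 2) W := Submodule.finrank_mono inf_le_left
        rwa [hW, finrank_span_eq_card hli, Fintype.card_fin] at h3
      obtain ⟨f, hf⟩ := b9_image s hsne h2
      refine le_trans ?_ (Finset.single_le_sum (f := fun m => ∑ f : Fin (2 * m) → Fin n,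
        ind (LinearIndependent (ZMod 2) v ∧
      (∀ a b, dotProduct (v a) (v b) = 0) ∧
      m ≤ Module.finrank (ZMod 2) (W ⊓
        b9F (Finset.univ.image f) : Submodule (ZMod 2) (Fin n → ZMod 2))))
        (fun m _ => Finset.sum_nonneg fun f _ => ind_nonneg _) (Finset.mem_Icc.2 ⟨hm1, hmk⟩))
      refine le_trans ?_ (Finset.single_le_sum (f := fun f : Fin (2 * m) → Fin n =>
        ind (LinearIndependent (ZMod 2) v ∧
      (∀ a b, dotProduct (v a) (v b) = 0) ∧
      m ≤ Module.finrank (ZMod 2) (W ⊓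
        b9F (Finset.univ.image f) : Submodule (ZMod 2) (Fin n → ZMod 2))))
        (fun f _ => ind_nonneg _) (Finset.mem_univ f))
      have h4 : LinearIndependent (ZMod 2) v ∧
        (∀ a b, dotProduct (v a) (v b) = 0) ∧
        m ≤ Module.finrank (ZMod 2) (W ⊓
        b9F (Finset.univ.image f) : Submodule (ZMod 2) (Fin n → ZMod 2)) := by
        refine ⟨hli, fun a b => ?_, ?_⟩
        · have := congrFun (congrFun hv2 a) b
          exact this
        · rw [hf]
      rw [ind_true h4]
    · rw [ind_false hv]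
      exact Finset.sum_nonneg fun m _ => Finset.sum_nonneg fun f _ => ind_nonneg _
  refine (Finset.sum_le_sum fun v _ => h1 v).trans ?_
  rw [Finset.sum_comm]
  refine Finset.sum_le_sum fun m hm => ?_
  obtain ⟨hm1, hmk⟩ := Finset.mem_Icc.1 hm
  rw [Finset.sum_comm]
  have h5 : ∀ f : Fin (2 * m) → Fin n, ∑ v : Fin k → Fin n → ZMod 2,
      ind (LinearIndependent (ZMod 2) v ∧
      (∀ a b, dotProduct (v a) (v b) = 0) ∧
      m ≤ Module.finrank (ZMod 2) (Submodule.span (ZMod 2) (Set.range v) ⊓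
        b9F (Finset.univ.image f) : Submodule (ZMod 2) (Fin n → ZMod 2))) ≤
      4 * ((2 : ℝ) ^ (2 * k + 1) / (2 : ℝ) ^ n) ^ m *
        (((2 : ℝ) ^ n) ^ k / (2 : ℝ) ^ (k * (k + 1) / 2)) := by
    intro f
    refine b9_level hm1 hmk _ ?_
    refine Finset.card_image_le.trans ?_
    rw [Finset.card_univ, Fintype.card_fin]
  refine (Finset.sum_le_sum fun f _ => h5 f).trans ?_
  rw [Finset.sum_const, nsmul_eq_mul]
  refine le_of_eq ?_
  congr 1
  rw [Finset.card_univ, Fintype.card_fun, Fintype.card_fin, Fintype.card_fin, pow_mul]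
  push_cast
  rfl

theorem b9m (d e : ℝ) (hd : 0 < d) (he : 0 < e) : ∃ n0 : ℕ, ∀ n k : ℕ, n0 ≤ n → (2 * k : ℝ) ≤ (1 - d) * n →
    (∑ V : Matrix (Fin n) (Fin k) (ZMod 2), ind (FullRank V ∧ V.transpose * V = 0 ∧ Exc V)) ≤
      e * (((2 : ℝ) ^ n) ^ k / (2 : ℝ) ^ (k * (k + 1) / 2)) := by
  set r : ℝ := (2 : ℝ) ^ (-d) with hr
  have hr0 : 0 < r := Real.rpow_pos_of_pos (by norm_num) _
  have hr1 : r < 1 := Real.rpow_lt_one_of_one_lt_of_neg (by norm_num) (by linarith)
  have hlim := tendsto_pow_const_mul_const_pow_of_abs_lt_one 3 (r := r)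
    (by rw [abs_of_pos hr0]; exact hr1)
  have hmin : (0 : ℝ) < min (e / 8) (1 / 8) := by positivity
  obtain ⟨n0, hn0⟩ := Filter.eventually_atTop.1 (hlim.eventually_lt_const hmin)
  refine ⟨n0 + 1, fun n k hn hk => ?_⟩
  have h1 : (n : ℝ) ^ 3 * r ^ n < min (e / 8) (1 / 8) := hn0 n (by omega)
  have hn1 : (1 : ℝ) ≤ n := by exact_mod_cast (by omega : 1 ≤ n)
  have hkn : (k : ℝ) ≤ n := by
    have : (1 - d) * (n : ℝ) ≤ n := by nlinarith
    have hk0 : (0 : ℝ) ≤ k := Nat.cast_nonneg k
    linarith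
  -- the ratio
  have h2 : (2 : ℝ) ^ (2 * k + 1) / (2 : ℝ) ^ n ≤ 2 * r ^ n := by
    rw [div_le_iff₀ (by positivity), pow_succ]
    have e1 : (2 : ℝ) ^ (2 * k) = (2 : ℝ) ^ ((2 * k : ℝ)) := by
      rw [← Real.rpow_natCast]; push_cast; rfl
    have e2 : r ^ n * (2 : ℝ) ^ n = (2 : ℝ) ^ ((1 - d) * (n : ℝ)) := by
      rw [hr, ← Real.rpow_natCast, ← Real.rpow_natCast, ← Real.rpow_mul (by norm_num),
        ← Real.rpow_add (by norm_num)]
      congr 1
      ring
    have e3 : (2 : ℝ) ^ (2 * k) ≤ r ^ n * (2 : ℝ) ^ n := by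
      rw [e1, e2]
      exact Real.rpow_le_rpow_of_exponent_le (by norm_num) hk
    linarith
  set M := ((2 : ℝ) ^ n) ^ k / (2 : ℝ) ^ (k * (k + 1) / 2) with hM
  have hM0 : 0 ≤ M := by positivity
  refine b9_total.trans ?_
  have hrn : 0 < r ^ n := pow_pos hr0 n
  set x := (n : ℝ) ^ 2 * (2 * r ^ n) with hx
  have hx0 : 0 ≤ x := by positivity
  have hn23 : (n : ℝ) ^ 2 ≤ (n : ℝ) ^ 3 := pow_le_pow_right₀ hn1 (by norm_num)
  have hx1 : x ≤ 1 := by
    have h3 : (n : ℝ) ^ 3 * r ^ n < 1 / 8 := lt_of_lt_of_le h1 (min_le_right _ _)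
    have h4 : (n : ℝ) ^ 2 * r ^ n ≤ (n : ℝ) ^ 3 * r ^ n := mul_le_mul_of_nonneg_right hn23 hrn.le
    rw [hx]
    linarith
  have h3 : ∀ m ∈ Finset.Icc 1 k, ((n : ℝ) ^ 2) ^ m * (4 * ((2 : ℝ) ^ (2 * k + 1) / (2 : ℝ) ^ n) ^ m * M) ≤
      4 * x * M := by
    intro m hm
    have hm1 := (Finset.mem_Icc.1 hm).1
    have h4 : ((n : ℝ) ^ 2) ^ m * ((2 : ℝ) ^ (2 * k + 1) / (2 : ℝ) ^ n) ^ m ≤ x := by
      rw [← mul_pow]
      calc ((n : ℝ) ^ 2 * ((2 : ℝ) ^ (2 * k + 1) / (2 : ℝ) ^ n)) ^ m ≤ x ^ m := by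
            refine pow_le_pow_left₀ (by positivity) ?_ m
            rw [hx]
            exact mul_le_mul_of_nonneg_left h2 (by positivity)
        _ ≤ x ^ 1 := pow_le_pow_of_le_one hx0 hx1 hm1
        _ = x := pow_one x
    calc ((n : ℝ) ^ 2) ^ m * (4 * ((2 : ℝ) ^ (2 * k + 1) / (2 : ℝ) ^ n) ^ m * M)
        = 4 * (((n : ℝ) ^ 2) ^ m * ((2 : ℝ) ^ (2 * k + 1) / (2 : ℝ) ^ n) ^ m) * M := by ring
      _ ≤ 4 * x * M := by gcongr
  refine (Finset.sum_le_sum h3).trans ?_
  rw [Finset.sum_const, Nat.card_Icc, Nat.add_sub_cancel, nsmul_eq_mul]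
  have h5 : (k : ℝ) * (4 * x * M) ≤ n * (4 * x * M) :=
    mul_le_mul_of_nonneg_right hkn (by positivity)
  refine h5.trans ?_
  have h6 : (n : ℝ) * (4 * x) ≤ e := by
    have h7 : (n : ℝ) ^ 3 * r ^ n < e / 8 := lt_of_lt_of_le h1 (min_le_left _ _)
    rw [hx]
    have : (n : ℝ) * (4 * ((n : ℝ) ^ 2 * (2 * r ^ n))) = 8 * ((n : ℝ) ^ 3 * r ^ n) := by ring
    rw [this]
    linarith
  calc (n : ℝ) * (4 * x * M) = (n * (4 * x)) * M := by ring
    _ ≤ e * M := mul_le_mul_of_nonneg_right h6 hM0

end Pool.H64.IR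

end S_B9M

section S_BTM

/-! MODULE BTM (project MP_a758cf_pr, IR; overview: team-store H64_a758cf.md)
pr(Bad4 g and kerc g = q) <= e/q. By b7m the event implies that at least q-1 vectors v /= 0 satisfy the two conditions, so pr <= (1/(q-1)) sum_{v /= 0} pr(two conditions with s = s(v)) and by b8m (v <-> V bijection through e)
<= (1/(q-1)) (2^(k(k+1)/2)/2^(nk)) (Iso n k/2^k + number of exceptional isotropic frames) <= (1/(q-1)) (2/2^k + e') (iso_upper, b9m), k >= n/4.
-/

set_option autoImplicit false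

namespace Pool.H64.IR

open Finset Polynomial

theorem btm (d e : ℝ) (hd : 0 < d) (he : 0 < e) : ∃ n0 : ℕ, ∀ n : ℕ, n0 ≤ n → ∀ g : (ZMod 2)[X], g.Monic → Irreducible g →
    (2 * g.natDegree : ℝ) ≤ (1 - d) * n → n ≤ 4 * g.natDegree →
    pr (fun b : Edge n → Bool => Bad4 g b ∧ kerc g (adj (ZMod 2) b) = (2 : ℝ) ^ g.natDegree) ≤ e / (2 : ℝ) ^ g.natDegree := by
  classical
  obtain ⟨n1, hn1⟩ := b9m d (e / 2) hd (by positivity)
  obtain ⟨k0, hk0⟩ : ∃ k0 : ℕ, 4 / e + 2 < (2 : ℝ) ^ k0 := pow_unbounded_of_one_lt _ one_lt_two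
  refine ⟨max n1 (max 8 (4 * k0)), fun n hn g hg hi h2k h4k => ?_⟩
  have hn1' : n1 ≤ n := le_trans (le_max_left _ _) hn
  have hn8 : 8 ≤ n := le_trans (le_trans (le_max_left _ _) (le_max_right _ _)) hn
  have hnk0 : 4 * k0 ≤ n := le_trans (le_trans (le_max_right _ _) (le_max_right _ _)) hn
  have hk2 : 2 ≤ g.natDegree := by omega
  have hkk : k0 ≤ g.natDegree := by omega
  have h2kn : 2 * g.natDegree ≤ n := by
    have h1 : (2 * g.natDegree : ℝ) ≤ n := by
      have : (0 : ℝ) ≤ n := Nat.cast_nonneg _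
      nlinarith
    exact_mod_cast h1
  have hexc := hn1 n g.natDegree hn1' h2k
  have hiso := iso_upper n g.natDegree h2kn
  have : Fact (Irreducible g) := ⟨hi⟩
  have hfin : Module.Finite (ZMod 2) (AdjoinRoot g) := (AdjoinRoot.powerBasis' hg).finite
  have hfin2 : Finite (AdjoinRoot g) := Module.finite_of_finite (ZMod 2)
  let _ : Fintype (AdjoinRoot g) := Fintype.ofFinite _
  obtain ⟨s, hs⟩ := b7m n g hg hi
  obtain ⟨f, hf⟩ := b8m n g hg hi hk2
  have hcard : (Fintype.card (AdjoinRoot g) : ℝ) = (2 : ℝ) ^ g.natDegree := by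
    rw [Fintype.card_congr f.toEquiv, Fintype.card_fun, ZMod.card, Fintype.card_fin]
    push_cast
    rfl
  set q : ℝ := (2 : ℝ) ^ g.natDegree with hq
  have hq1 : 4 / e + 2 < q := lt_of_lt_of_le hk0 (pow_le_pow_right₀ (by norm_num) hkk)
  have hq2 : 2 < q := by
    have : 0 < 4 / e := by positivity
    linarith
  have hqpos : 0 < q := by linarith
  set c : ℝ := ((2 : ℝ) ^ n) ^ g.natDegree / (2 : ℝ) ^ (g.natDegree * (g.natDegree + 1) / 2) with hc
  have hcpos : 0 < c := by positivity
  -- the conditions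
  let P : (Fin n → AdjoinRoot g) → (Edge n → Bool) → Prop := fun v b =>
    (∀ i, ∑ j, (adj (ZMod 2) b i j) • v j = AdjoinRoot.root g * v i) ∧
        (∑ ed : Edge n, if b ed then v ed.1.1 * v ed.1.2 else 0) = s v
  -- many vectors
  have h1 : ∀ b : Edge n → Bool, ind (Bad4 g b ∧ kerc g (adj (ZMod 2) b) = (2 : ℝ) ^ g.natDegree) * (q - 1) ≤
      ∑ v ∈ univ.erase (0 : Fin n → AdjoinRoot g), ind (P v b) := by
    intro b
    by_cases hb : Bad4 g b ∧ kerc g (adj (ZMod 2) b) = (2 : ℝ) ^ g.natDegree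
    swap
    · rw [ind_false hb, zero_mul]
      exact Finset.sum_nonneg fun _ _ => ind_nonneg _
    rw [ind_true hb, one_mul]
    obtain ⟨v, hv0, hv⟩ := hs b hb.1 hb.2
    obtain ⟨i0, hi0⟩ : ∃ i, v i ≠ 0 := by
      by_contra hno
      push Not at hno
      exact hv0 (funext hno)
    have hinj : Function.Injective (fun c : AdjoinRoot g => (fun i => c * v i : Fin n → AdjoinRoot g)) := by
      intro x y hxy
      have := congrFun hxy i0
      exact mul_right_cancel₀ hi0 this
    have hsub : (univ.erase (0 : AdjoinRoot g)).image (fun c => (fun i => c * v i : Fin n → AdjoinRoot g)) ⊆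
        univ.erase (0 : Fin n → AdjoinRoot g) := by
      intro w hw
      obtain ⟨x, hx, rfl⟩ := Finset.mem_image.1 hw
      refine Finset.mem_erase.2 ⟨?_, Finset.mem_univ _⟩
      intro h0
      have := congrFun h0 i0
      rcases mul_eq_zero.1 this with h | h
      · exact (Finset.mem_erase.1 hx).1 h
      · exact hi0 h
    calc q - 1 = ∑ x ∈ univ.erase (0 : AdjoinRoot g), (1 : ℝ) := by
          rw [Finset.sum_const, Finset.card_erase_of_mem (Finset.mem_univ _), Finset.card_univ, nsmul_eq_mul,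
            mul_one, Nat.cast_sub (Fintype.card_pos), hcard]
          simp
      _ = ∑ x ∈ univ.erase (0 : AdjoinRoot g), ind (P (fun i => x * v i) b) := by
          refine Finset.sum_congr rfl fun x hx => (ind_true ?_).symm
          exact hv x (Finset.mem_erase.1 hx).1
      _ = ∑ w ∈ (univ.erase (0 : AdjoinRoot g)).image (fun c => (fun i => c * v i : Fin n → AdjoinRoot g)),
            ind (P w b) := by
          rw [Finset.sum_image (fun x _ y _ h => hinj h)]
      _ ≤ _ := Finset.sum_le_sum_of_subset_of_nonneg hsub fun _ _ _ => ind_nonneg _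
  have h2 : pr (fun b : Edge n → Bool => Bad4 g b ∧ kerc g (adj (ZMod 2) b) = (2 : ℝ) ^ g.natDegree) * (q - 1) ≤
      ∑ v ∈ univ.erase (0 : Fin n → AdjoinRoot g), pr (P v) := by
    unfold pr
    rw [← avg_mul_const, ← avg_sum]
    exact avg_mono h1
  -- the matrix of v
  let σ : (Fin n → AdjoinRoot g) ≃ Matrix (Fin n) (Fin g.natDegree) (ZMod 2) :=
    Equiv.arrowCongr (Equiv.refl _) f.toEquiv
  have h3 : ∑ v ∈ univ.erase (0 : Fin n → AdjoinRoot g), pr (P v) ≤
      ∑ V : Matrix (Fin n) (Fin g.natDegree) (ZMod 2),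
        (ind (FullRank V ∧ V.transpose * V = 0) * (1 / c) * (1 / q + ind (Exc V))) := by
    rw [← Equiv.sum_comp σ]
    refine le_trans (Finset.sum_le_sum fun v hv => ?_)
      (Finset.sum_le_sum_of_subset_of_nonneg (Finset.subset_univ _) fun v _ _ => ?_)
    · have h4 := hf v (s v) (Finset.mem_erase.1 hv).1
      refine h4.trans (le_of_eq ?_)
      rw [hc, one_div_div]
      rfl
    · have h5 := ind_nonneg (FullRank (σ v) ∧ (σ v).transpose * (σ v) = 0)
      have h6 := ind_nonneg (Exc (σ v))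
      positivity
  have h4 : ∑ V : Matrix (Fin n) (Fin g.natDegree) (ZMod 2),
        (ind (FullRank V ∧ V.transpose * V = 0) * (1 / c) * (1 / q + ind (Exc V))) =
      (1 / c) * (Iso n g.natDegree / q + ∑ V : Matrix (Fin n) (Fin g.natDegree) (ZMod 2),
        ind (FullRank V ∧ V.transpose * V = 0 ∧ Exc V)) := by
    unfold Iso
    rw [Finset.sum_div, ← Finset.sum_add_distrib, Finset.mul_sum]
    refine Finset.sum_congr rfl fun V _ => ?_
    have : ind (FullRank V ∧ V.transpose * V = 0 ∧ Exc V) =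
        ind (FullRank V ∧ V.transpose * V = 0) * ind (Exc V) := by
      rw [← ind_and]
      exact ind_congr and_assoc.symm
    rw [this]
    ring
  have h5 : Iso n g.natDegree ≤ 2 * c := by
    refine hiso.trans (mul_le_mul_of_nonneg_right ?_ hcpos.le)
    have : (4 : ℝ) ^ g.natDegree / 2 ^ n ≤ 1 := by
      rw [div_le_one (by positivity)]
      calc (4 : ℝ) ^ g.natDegree = 2 ^ (2 * g.natDegree) := by
            rw [pow_mul]; norm_num
        _ ≤ 2 ^ n := pow_le_pow_right₀ (by norm_num) h2kn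
    linarith
  have h6 : pr (fun b : Edge n → Bool => Bad4 g b ∧ kerc g (adj (ZMod 2) b) = (2 : ℝ) ^ g.natDegree) * (q - 1) ≤
      2 / q + e / 2 := by
    refine h2.trans (h3.trans ?_)
    rw [h4]
    have h7 : Iso n g.natDegree / q + ∑ V : Matrix (Fin n) (Fin g.natDegree) (ZMod 2),
        ind (FullRank V ∧ V.transpose * V = 0 ∧ Exc V) ≤ 2 * c / q + e / 2 * c :=
      add_le_add (div_le_div_of_nonneg_right h5 hqpos.le) hexc
    refine (mul_le_mul_of_nonneg_left h7 (by positivity)).trans (le_of_eq ?_)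
    field_simp
  have hq11 : 0 < q - 1 := by linarith
  have h8 : pr (fun b : Edge n → Bool => Bad4 g b ∧ kerc g (adj (ZMod 2) b) = (2 : ℝ) ^ g.natDegree) ≤
      (2 / q + e / 2) / (q - 1) := by
    rw [le_div_iff₀ hq11]
    exact h6
  refine h8.trans ?_
  rw [div_le_div_iff₀ hq11 hqpos]
  have h9 : (2 / q + e / 2) * q = 2 + e / 2 * q := by field_simp
  rw [h9]
  have h10 : 4 + 2 * e < e * q := by
    have := mul_lt_mul_of_pos_left hq1 he
    have h11 : e * (4 / e + 2) = 4 + 2 * e := by field_simp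
    linarith
  linarith

end Pool.H64.IR

end S_BTM

section S_B5M

/-! MODULE B5M (project MP_a758cf_pr, IR; overview: team-store H64_a758cf.md)
g monic irreducible over ZMod 2 of degree k >= 2, q = 2^k, n < 4k.
b5_two: avg XC(fromBlocks (comp g) 0 0 (comp g)) <= q: by a2m it is (number of full rank V with IsAlt(VᵀV C2)) 2^(m(m+1)/2)/2^(nm), m = 2k; group by S = VᵀV (b2m_two): S = 0 impossible (b3_iso_zero, n < 2m = 4k),
det S /= 0: b3_nd; number of S <= 2^k (b2m_count).
By cmp2 (s = {g}, prod = g) and x1_prod: XC = (kerc-1)(kerc-q); if kerc >= q^2 it is >= (q^2-1)(q^2-q): b5_pr2: pr(kerc >= q^2) <= q/((q^2-1)(q^2-q)) <= 2/q^3.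
b5_lower: avg ZZ g = avg X1 g/(q-1) = Iso n k 2^(k(k+1)/2)/2^(nk)/(q-1) >= (3/4)/(q-1) (a2m, b2m [VᵀVC alternating iff VᵀV = 0], iso_lower, 2k+2 <= n); avg(ZZ - BB) <= avg(ZZ(kerc-q))/(q(q-1)) = avg XC2/(q(q-1)^2) <= 1/(q-1)^2.
So pr(g | charpoly) >= (3/4)/(q-1) - 1/(q-1)^2 >= 1/(2q) for q >= 16.
-/

set_option autoImplicit false

namespace Pool.H64.IR

open Finset Polynomial

/-- the size of the blocks -/
theorem b5_card (k : ℕ) : Fintype.card (Fin k ⊕ Fin k) = 2 * k := by
  rw [Fintype.card_sum, Fintype.card_fin]; ring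

theorem b5_avg2 {n : ℕ} (g : (ZMod 2)[X]) (hg : g.Monic) (hi : Irreducible g) (hk : 2 ≤ g.natDegree) (hn : n < 4 * g.natDegree) :
    avg (fun b : Edge n → Bool => XC (Matrix.fromBlocks (comp g) 0 0 (comp g)) (adj (ZMod 2) b)) ≤ (2 : ℝ) ^ g.natDegree := by
  classical
  rw [a2m]
  set C2 : Matrix (Fin g.natDegree ⊕ Fin g.natDegree) (Fin g.natDegree ⊕ Fin g.natDegree) (ZMod 2) :=
    Matrix.fromBlocks (comp g) 0 0 (comp g) with hC2
  set m := Fintype.card (Fin g.natDegree ⊕ Fin g.natDegree) with hm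
  have hm2 : m = 2 * g.natDegree := b5_card _
  set B : ℝ := ((2 : ℝ) ^ n) ^ m / (2 : ℝ) ^ (m * (m + 1) / 2) with hB
  have hB0 : 0 ≤ B := by positivity
  -- group by S
  have h1 : ∀ V : Matrix (Fin n) (Fin g.natDegree ⊕ Fin g.natDegree) (ZMod 2),
      ind (FullRank V ∧ IsAlt (V.transpose * V * C2)) ≤
        ∑ S : Matrix (Fin g.natDegree ⊕ Fin g.natDegree) (Fin g.natDegree ⊕ Fin g.natDegree) (ZMod 2),
          ind (S.IsSymm ∧ IsAlt (S * C2)) * ind (FullRank V ∧ V.transpose * V = S) := by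
    intro V
    by_cases h : FullRank V ∧ IsAlt (V.transpose * V * C2)
    · rw [ind_true h]
      have h2 : ind ((V.transpose * V).IsSymm ∧ IsAlt (V.transpose * V * C2)) *
          ind (FullRank V ∧ V.transpose * V = V.transpose * V) = 1 := by
        have hs : (V.transpose * V).IsSymm := by
          rw [Matrix.IsSymm, Matrix.transpose_mul, Matrix.transpose_transpose]
        rw [ind_true ⟨hs, h.2⟩, ind_true ⟨h.1, rfl⟩, one_mul]
      rw [← h2]
      exact Finset.single_le_sum (f := fun S => ind (S.IsSymm ∧ IsAlt (S * C2)) *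
        ind (FullRank V ∧ V.transpose * V = S)) (fun S _ => mul_nonneg (ind_nonneg _) (ind_nonneg _))
        (Finset.mem_univ (V.transpose * V))
    · rw [ind_false h]
      exact Finset.sum_nonneg (fun S _ => mul_nonneg (ind_nonneg _) (ind_nonneg _))
  have h2 : ∀ S : Matrix (Fin g.natDegree ⊕ Fin g.natDegree) (Fin g.natDegree ⊕ Fin g.natDegree) (ZMod 2),
      ∑ V : Matrix (Fin n) (Fin g.natDegree ⊕ Fin g.natDegree) (ZMod 2),
        ind (S.IsSymm ∧ IsAlt (S * C2)) * ind (FullRank V ∧ V.transpose * V = S) ≤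
      ind (S.IsSymm ∧ IsAlt (S * C2)) * B := by
    intro S
    rw [← Finset.mul_sum]
    by_cases h : S.IsSymm ∧ IsAlt (S * C2)
    · refine mul_le_mul_of_nonneg_left ?_ (ind_nonneg _)
      obtain ⟨ha, h0 | hd⟩ := b2m_two g hg hi hk S h.1 h.2
      · refine le_trans (le_of_eq ?_) hB0
        refine Finset.sum_eq_zero (fun V _ => ind_false ?_)
        rintro ⟨hV, hS⟩
        exact b3_iso_zero (by rw [← hm, hm2]; omega) V hV (hS.trans h0)
      · exact b3_nd S h.1 ha.2 hd
    · rw [ind_false h, zero_mul, zero_mul]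
  have h3 : (∑ V : Matrix (Fin n) (Fin g.natDegree ⊕ Fin g.natDegree) (ZMod 2),
      ind (FullRank V ∧ IsAlt (V.transpose * V * C2))) ≤ (2 : ℝ) ^ g.natDegree * B := by
    refine (Finset.sum_le_sum (fun V _ => h1 V)).trans ?_
    rw [Finset.sum_comm]
    refine (Finset.sum_le_sum (fun S _ => h2 S)).trans ?_
    rw [← Finset.sum_mul]
    exact mul_le_mul_of_nonneg_right (b2m_count g hg hi hk) hB0
  have h4 : B * ((2 : ℝ) ^ (m * (m + 1) / 2) / ((2 : ℝ) ^ n) ^ m) = 1 := by
    rw [hB]
    field_simp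
  calc _ ≤ ((2 : ℝ) ^ g.natDegree * B) * ((2 : ℝ) ^ (m * (m + 1) / 2) / ((2 : ℝ) ^ n) ^ m) :=
        mul_le_mul_of_nonneg_right h3 (by positivity)
    _ = (2 : ℝ) ^ g.natDegree := by rw [mul_assoc, h4, mul_one]

theorem b5_x1 {n : ℕ} (g : (ZMod 2)[X]) (hg : g.Monic) (hi : Irreducible g)
    (A : Matrix (Fin n) (Fin n) (ZMod 2)) : X1 g A = kerc g A - 1 := by
  have h := x1_prod {g} (by
    intro h hh
    rw [Finset.mem_singleton] at hh
    rw [hh]; exact ⟨hg, hi⟩) A
  rw [Finset.prod_singleton, Finset.prod_singleton] at h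
  exact h

theorem b5_xc {n : ℕ} (g : (ZMod 2)[X]) (hg : g.Monic) (hi : Irreducible g)
    (A : Matrix (Fin n) (Fin n) (ZMod 2)) :
    XC (Matrix.fromBlocks (comp g) 0 0 (comp g)) A = (kerc g A - 1) * (kerc g A - (2 : ℝ) ^ g.natDegree) := by
  have h := cmp2 {g} (by
    intro h hh
    rw [Finset.mem_singleton] at hh
    rw [hh]; exact ⟨hg, hi⟩) g (Finset.mem_singleton_self g) A
  rw [Finset.prod_singleton, b5_x1 g hg hi] at h
  rw [h]
  norm_num

theorem b5_xc_nonneg {n : ℕ} {κ : Type} [Fintype κ] [DecidableEq κ] (C : Matrix κ κ (ZMod 2))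
    (A : Matrix (Fin n) (Fin n) (ZMod 2)) : 0 ≤ XC C A :=
  Finset.sum_nonneg (fun _ _ => ind_nonneg _)

theorem b5_pr2 {n : ℕ} (g : (ZMod 2)[X]) (hg : g.Monic) (hi : Irreducible g) (hk : 2 ≤ g.natDegree) (hn : n < 4 * g.natDegree) :
    pr (fun b : Edge n → Bool => ((2 : ℝ) ^ g.natDegree) ^ 2 ≤ kerc g (adj (ZMod 2) b)) ≤ 2 / ((2 : ℝ) ^ g.natDegree) ^ 3 := by
  set q : ℝ := (2 : ℝ) ^ g.natDegree with hq
  have hq4 : 4 ≤ q := by
    calc (4 : ℝ) = 2 ^ 2 := by norm_num
      _ ≤ q := pow_le_pow_right₀ (by norm_num) hk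
  have hc : 0 < (q ^ 2 - 1) * (q ^ 2 - q) := by
    apply mul_pos <;> nlinarith
  refine (pr_markov _ (fun b : Edge n → Bool =>
    XC (Matrix.fromBlocks (comp g) 0 0 (comp g)) (adj (ZMod 2) b)) (fun b => b5_xc_nonneg _ _) _ hc ?_).trans ?_
  · intro b hb
    rw [b5_xc g hg hi]
    rw [← hq]
    have h1 : 0 ≤ q ^ 2 - 1 := by nlinarith
    have h2 : 0 ≤ q ^ 2 - q := by nlinarith
    apply mul_le_mul <;> linarith
  · have h1 := b5_avg2 g hg hi hk hn
    rw [← hq] at h1
    rw [div_le_div_iff₀ hc (by positivity)]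
    calc _ ≤ q * q ^ 3 := mul_le_mul_of_nonneg_right h1 (by positivity)
      _ ≤ 2 * ((q ^ 2 - 1) * (q ^ 2 - q)) := by
        have h2 : 0 ≤ q ^ 3 * (q - 4) := by
          apply mul_nonneg (by positivity); linarith
        have h3 : 0 ≤ q ^ 2 * (q - 4) := by
          apply mul_nonneg (by positivity); linarith
        nlinarith

theorem b5_lower {n : ℕ} (g : (ZMod 2)[X]) (hg : g.Monic) (hi : Irreducible g) (hk : 4 ≤ g.natDegree) (hn : n < 4 * g.natDegree)
    (hn2 : 2 * g.natDegree + 2 ≤ n) :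
    1 / (2 * (2 : ℝ) ^ g.natDegree) ≤ pr (fun b : Edge n → Bool => g ∣ (adj (ZMod 2) b).charpoly) := by
  have h20 : (((2 : ℕ) : ℝ)) = 2 := by norm_num
  set q : ℝ := (2 : ℝ) ^ g.natDegree with hq
  have hq4 : 16 ≤ q := by
    calc (16 : ℝ) = 2 ^ 4 := by norm_num
      _ ≤ q := pow_le_pow_right₀ (by norm_num) hk
  -- first moment
  have h1 : 3 / 4 ≤ avg (fun b : Edge n → Bool => XC (comp g) (adj (ZMod 2) b)) := by
    rw [a2m]
    have e1 : (∑ V : Matrix (Fin n) (Fin g.natDegree) (ZMod 2), ind (FullRank V ∧ IsAlt (V.transpose * V * comp g))) =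
        Iso n g.natDegree := by
      unfold Iso
      refine Finset.sum_congr rfl (fun V _ => ind_congr ?_)
      constructor
      · rintro ⟨h, h'⟩
        refine ⟨h, b2m g hg hi (by omega) _ ?_ h'⟩
        rw [Matrix.IsSymm, Matrix.transpose_mul, Matrix.transpose_transpose]
      · rintro ⟨h, h'⟩
        refine ⟨h, ?_⟩
        rw [h', zero_mul]
        exact ⟨Matrix.transpose_zero, fun a => rfl⟩
    rw [e1, Fintype.card_fin]
    have e2 := iso_lower n g.natDegree (by omega)
    have e3 : (4 : ℝ) ^ g.natDegree / (2 : ℝ) ^ n ≤ 1 / 4 := by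
      rw [div_le_div_iff₀ (by positivity) (by norm_num)]
      calc (4 : ℝ) ^ g.natDegree * 4 = 2 ^ (2 * g.natDegree + 2) := by
            rw [pow_add, pow_mul]; norm_num
        _ ≤ 1 * 2 ^ n := by
            rw [one_mul]; exact pow_le_pow_right₀ (by norm_num) hn2
    calc (3 / 4 : ℝ) ≤ (1 - (4 : ℝ) ^ g.natDegree / (2 : ℝ) ^ n) := by linarith
      _ = (1 - (4 : ℝ) ^ g.natDegree / (2 : ℝ) ^ n) * (((2 : ℝ) ^ n) ^ g.natDegree / (2 : ℝ) ^ (g.natDegree * (g.natDegree + 1) / 2)) *
          ((2 : ℝ) ^ (g.natDegree * (g.natDegree + 1) / 2) / ((2 : ℝ) ^ n) ^ g.natDegree) := by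
            field_simp
      _ ≤ _ := mul_le_mul_of_nonneg_right e2 (by positivity)
  have h2 := b5_avg2 g hg hi (by omega) hn
  rw [← hq] at h2
  -- pointwise
  have h3 : ∀ b : Edge n → Bool, XC (comp g) (adj (ZMod 2) b) * (1 / (q - 1)) -
      XC (Matrix.fromBlocks (comp g) 0 0 (comp g)) (adj (ZMod 2) b) * (1 / (q * (q - 1) ^ 2)) ≤
        ind (g ∣ (adj (ZMod 2) b).charpoly) := by
    intro b
    have e1 := zz_sub_bb g hg hi (adj (ZMod 2) b)
    rw [cmp1 g hg, b5_x1 g hg hi, b5_xc g hg hi]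
    have e2 : BB g (adj (ZMod 2) b) = ind (g ∣ (adj (ZMod 2) b).charpoly) := rfl
    rw [← e2]
    unfold ZZ at e1
    rw [h20, ← hq] at e1
    rw [← hq]
    have hq1 : (0 : ℝ) < q - 1 := by linarith
    have e3 : (kerc g (adj (ZMod 2) b) - 1) / (q - 1) * (kerc g (adj (ZMod 2) b) - q) / (q * (q - 1)) =
        (kerc g (adj (ZMod 2) b) - 1) * (kerc g (adj (ZMod 2) b) - q) * (1 / (q * (q - 1) ^ 2)) := by
      field_simp
    rw [e3] at e1
    have e4 : (kerc g (adj (ZMod 2) b) - 1) / (q - 1) = (kerc g (adj (ZMod 2) b) - 1) * (1 / (q - 1)) := by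
      field_simp
    rw [e4] at e1
    linarith
  have h4 := avg_mono h3
  rw [avg_sub, avg_mul_const, avg_mul_const] at h4
  refine le_trans ?_ h4
  have hq1 : (0 : ℝ) < q - 1 := by linarith
  have h5 : 3 / 4 * (1 / (q - 1)) ≤ avg (fun b : Edge n → Bool => XC (comp g) (adj (ZMod 2) b)) * (1 / (q - 1)) :=
    mul_le_mul_of_nonneg_right h1 (by positivity)
  have h6 : avg (fun b : Edge n → Bool => XC (Matrix.fromBlocks (comp g) 0 0 (comp g)) (adj (ZMod 2) b)) * (1 / (q * (q - 1) ^ 2)) ≤
      q * (1 / (q * (q - 1) ^ 2)) := mul_le_mul_of_nonneg_right h2 (by positivity)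
  have h7 : 1 / (2 * q) ≤ 3 / 4 * (1 / (q - 1)) - q * (1 / (q * (q - 1) ^ 2)) := by
    have : 3 / 4 * (1 / (q - 1)) - q * (1 / (q * (q - 1) ^ 2)) - 1 / (2 * q) =
        (3 * q * (q - 1) - 4 * q - 2 * (q - 1) ^ 2) / (4 * q * (q - 1) ^ 2) := by
      field_simp
      ring
    have h8 : 0 ≤ (3 * q * (q - 1) - 4 * q - 2 * (q - 1) ^ 2) / (4 * q * (q - 1) ^ 2) := by
      apply div_nonneg
      · nlinarith
      · positivity
    linarith
  linarith

end Pool.H64.IR

end S_B5M

section S_SQ2

/-! MODULE SQ2 (project MP_a758cf_pr, IR; overview: team-store H64_a758cf.md)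
charpoly mod 2 of a symmetric zero-diagonal matrix is h^2 (n even) or X h^2 (n odd): in the Leibniz expansion of det(X - A) the terms of sigma and sigma^{-1} are equal and cancel in
characteristic 2 unless sigma is an involution; for an involution the term is X^(number of fixed points) times a product of squares of entries (0/1), and the number of fixed points has the parity of n.
So charpoly lies in F_2[X^2] or X F_2[X^2]; f(X^2) = f^2 over ZMod 2 (Polynomial.expand / frobenius: expand 2 f = f^2). Hence an irreducible g of degree >= 2 (not X) dividing charpoly has g^2 | charpoly.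
-/

set_option autoImplicit false

namespace Pool.H64.IR

open Finset Polynomial

/-- the skew symmetric integer lift -/
def sq2Lift {n : ℕ} (b : Edge n → Bool) : Matrix (Fin n) (Fin n) ℤ :=
  Matrix.of fun i j =>
    if h : i < j then (if b ⟨(i, j), h⟩ then 1 else 0)
    else if h : j < i then (if b ⟨(j, i), h⟩ then -1 else 0) else 0

theorem sq2_transpose {n : ℕ} (b : Edge n → Bool) : (sq2Lift b).transpose = - sq2Lift b := by
  ext i j
  simp only [sq2Lift, Matrix.transpose_apply, Matrix.neg_apply, Matrix.of_apply]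
  rcases lt_trichotomy i j with h | h | h
  · rw [dif_neg (not_lt.2 h.le), dif_pos h, dif_pos h]
    split_ifs <;> rfl
  · subst h
    simp
  · rw [dif_pos h, dif_neg (not_lt.2 h.le), dif_pos h]
    split_ifs <;> rfl

theorem sq2_map {n : ℕ} (b : Edge n → Bool) :
    (sq2Lift b).map (Int.castRingHom (ZMod 2)) = adj (ZMod 2) b := by
  ext i j
  simp only [sq2Lift, adj, Matrix.map_apply, Matrix.of_apply]
  rcases lt_trichotomy i j with h | h | h
  · rw [dif_pos h, dif_pos h]
    split_ifs <;> simp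
  · subst h
    simp
  · rw [dif_neg (not_lt.2 h.le), dif_pos h, dif_neg (not_lt.2 h.le), dif_pos h]
    split_ifs
    · simp
    · simp

theorem sq2_lift_coeff {n : ℕ} (b : Edge n → Bool) (k : ℕ) (hk : ¬ (2 ∣ n + k)) :
    (sq2Lift b).charpoly.coeff k = 0 := by
  have h1 : (sq2Lift b).charpoly = C ((-1) ^ n) * (sq2Lift b).charpoly.comp (C (-1) * X) := by
    apply Polynomial.funext
    intro t
    rw [eval_mul, eval_C, eval_comp, eval_mul, eval_C, eval_X, Matrix.eval_charpoly,
      Matrix.eval_charpoly]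
    have h2 : (Matrix.scalar (Fin n) t - sq2Lift b).transpose =
        - (Matrix.scalar (Fin n) (-1 * t) - sq2Lift b) := by
      rw [Matrix.transpose_sub, sq2_transpose]
      have h3 : (Matrix.scalar (Fin n) t).transpose = Matrix.scalar (Fin n) t := by
        simp
      have h4 : Matrix.scalar (Fin n) (-1 * t) = - Matrix.scalar (Fin n) t := by
        rw [neg_one_mul, map_neg]
      rw [h3, h4]
      abel
    rw [← Matrix.det_transpose, h2, Matrix.det_neg, Fintype.card_fin]
  have h2 := congrArg (fun f => f.coeff k) h1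
  simp only [coeff_C_mul, comp_C_mul_X_coeff] at h2
  have h3 : Odd (n + k) := by
    rw [← Nat.not_even_iff_odd, even_iff_two_dvd]
    exact hk
  have h4 : ((-1 : ℤ)) ^ n * (-1) ^ k = -1 := by
    rw [← pow_add]
    exact h3.neg_one_pow
  have h5 : (sq2Lift b).charpoly.coeff k = ((-1) ^ n * (-1) ^ k) * (sq2Lift b).charpoly.coeff k := by
    calc (sq2Lift b).charpoly.coeff k = _ := h2
      _ = _ := by ring
  rw [h4] at h5
  omega

theorem sq2_coeff {n : ℕ} (b : Edge n → Bool) (k : ℕ) (hk : ¬ (2 ∣ n + k)) :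
    (adj (ZMod 2) b).charpoly.coeff k = 0 := by
  rw [← sq2_map, Matrix.charpoly_map, coeff_map, sq2_lift_coeff b k hk, map_zero]

theorem sq2_sq (f : (ZMod 2)[X]) (hf : ∀ k, ¬ (2 ∣ k) → f.coeff k = 0) : ∃ h : (ZMod 2)[X], f = h ^ 2 := by
  refine ⟨contract 2 f, ?_⟩
  rw [← ZMod.expand_card]
  ext k
  rw [coeff_expand (by norm_num)]
  split_ifs with h
  · rw [coeff_contract (by norm_num), Nat.div_mul_cancel h]
  · exact hf k h

theorem sq2_form {n : ℕ} (b : Edge n → Bool) :
    ∃ h : (ZMod 2)[X], (adj (ZMod 2) b).charpoly = h ^ 2 ∨ (adj (ZMod 2) b).charpoly = X * h ^ 2 := by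
  by_cases hn : 2 ∣ n
  · obtain ⟨h, hh⟩ := sq2_sq (adj (ZMod 2) b).charpoly (fun k hk => sq2_coeff b k (by omega))
    exact ⟨h, Or.inl hh⟩
  · obtain ⟨h, hh⟩ := sq2_sq (divX (adj (ZMod 2) b).charpoly) (fun k hk => by
      rw [coeff_divX]
      exact sq2_coeff b (k + 1) (by omega))
    refine ⟨h, Or.inr ?_⟩
    have h1 := X_mul_divX_add (adj (ZMod 2) b).charpoly
    rw [sq2_coeff b 0 (by omega), C_0, add_zero] at h1
    rw [← hh, h1]

theorem sq2 {n : ℕ} (b : Edge n → Bool) (g : (ZMod 2)[X]) (hi : Irreducible g) (hk : 2 ≤ g.natDegree)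
    (h : g ∣ (adj (ZMod 2) b).charpoly) : g ^ 2 ∣ (adj (ZMod 2) b).charpoly := by
  obtain ⟨f, hf | hf⟩ := sq2_form b
  · rw [hf] at h ⊢
    exact pow_dvd_pow_of_dvd (hi.prime.dvd_of_dvd_pow h) 2
  · rw [hf] at h ⊢
    rcases hi.prime.dvd_or_dvd h with h1 | h1
    · have h2 := natDegree_le_of_dvd h1 X_ne_zero
      rw [natDegree_X] at h2
      omega
    · exact (pow_dvd_pow_of_dvd (hi.prime.dvd_of_dvd_pow h1) 2).mul_left X

end Pool.H64.IR

end S_SQ2
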