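import Mathlib
import Pool.Agent.H64.IRL.L1
import Pool.Agent.H64.IRL.L5
import Pool.Agent.H64.IRL.L6

set_option autoImplicit false

/-! Characteristic polynomial of G(n,1/2), part L8: this file joins several modules to save build time. -/

section S_PRT1

/-! MODULE PRT1 (project MP_a758cf_pr, IR; overview: team-store H64_a758cf.md)
Part I. Let ι be a finite family of at least 250 distinct odd primes. For D0 <= k <= theta n: pr(for all i, charpoly mod p_i has a monic divisor of degree k) <= 1/k^2.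
Proof. ind(for all i HasDeg) <= sum_i [ind BadS + ind(square factor)] + prod_i U_i, U_i = PhiF + OmF >= 0 at BB (det_sieve; if no bad event occurs each indicator is <= U_i).
pr BadS <= exp(-pK k) (sm2, D = K^3, K^3+K <= k <= theta n); pr(square factor) <= sum_{g in RR p K k} 8/q^2 <= 8 sum_{j>K} p^(-j) <= 12 * 3^(-K) (sqf_pr, sum_rr, irc_upper).
U_i is a linear combination as in expu: index type {pairs (s,G)} + {G}, sets s ∪ G (disjoint) of total degree <= k + J y <= 2k; sum of beta over such a set <= 2k * 3^(-K) (each g has degree >= 1).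
So avg prod U_i <= prod (k^(-1/40) + k^(-1/50)/2) + eta prod (k^5 + 1), eta = 4 card ι k 3^(-K) + exp(-cn). First product <= k^(-250/50) = k^(-5); the second term is <= k^(-5) by
par_decay and exp(-cn) <= exp(-c k/theta). Everything <= 1/k^2 for k large.
-/

set_option autoImplicit false

namespace Pool.H64.IR

open Finset Polynomial

section prt1

variable {p : ℕ} [Fact p.Prime]

open Classical in
noncomputable def prt1T1 (p K y k D J : ℕ) [Fact p.Prime] :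
    Finset ((_ : Finset (ZMod p)[X]) × Finset (ZMod p)[X]) :=
  (FF p K k D).sigma fun s => ((RR p K y) \ s).powerset.filter fun G => G.card ≤ J

noncomputable def prt1T2 (p K y J' : ℕ) [Fact p.Prime] : Finset (Finset (ZMod p)[X]) :=
  (RR p K y).powersetCard J'

open Classical in
noncomputable def prt1c1 (p y M : ℕ) [Fact p.Prime] (u : ℝ)
    (t : (_ : Finset (ZMod p)[X]) × Finset (ZMod p)[X]) : ℝ :=
  ((1 / 2 : ℝ) ^ (t.1.filter fun g => g.natDegree ≤ y).card * 2 ^ M) * u ^ t.2.card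

open Classical in
noncomputable def prt1H1 (p : ℕ) [Fact p.Prime]
    (t : (_ : Finset (ZMod p)[X]) × Finset (ZMod p)[X]) : Finset (ZMod p)[X] := t.1 ∪ t.2

/-- index type of the linear combination -/
abbrev prt1Tau (p K y k D J J' : ℕ) [Fact p.Prime] : Type :=
  ↥(prt1T1 p K y k D J) ⊕ ↥(prt1T2 p K y J')

noncomputable def prt1co (p K y k D M J J' : ℕ) [Fact p.Prime] (u : ℝ) :
    prt1Tau p K y k D J J' → ℝ
  | Sum.inl t => prt1c1 p y M u t
  | Sum.inr _ => 1 / (Nat.choose M J' : ℝ)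

noncomputable def prt1H (p K y k D J J' : ℕ) [Fact p.Prime] :
    prt1Tau p K y k D J J' → Finset (ZMod p)[X]
  | Sum.inl t => prt1H1 p t
  | Sum.inr G => G

theorem prt1_expand (K y k D M J J' : ℕ) (u : ℝ) (x : (ZMod p)[X] → ℝ) :
    PhiF p K y k D M J u x + OmF p K y M J' x =
      ∑ t : prt1Tau p K y k D J J', prt1co p K y k D M J J' u t * ∏ g ∈ prt1H p K y k D J J' t, x g := by
  classical
  rw [Fintype.sum_sum_type]
  congr 1
  · change _ = ∑ t : ↥(prt1T1 p K y k D J), prt1c1 p y M u t * ∏ g ∈ prt1H1 p t, x g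
    rw [Finset.sum_coe_sort (prt1T1 p K y k D J) (fun t => prt1c1 p y M u t * ∏ g ∈ prt1H1 p t, x g)]
    unfold prt1T1 PhiF
    rw [Finset.sum_sigma]
    refine Finset.sum_congr rfl fun s _ => ?_
    rw [Finset.mul_sum]
    refine Finset.sum_congr rfl fun G hG => ?_
    have hd : Disjoint s G := by
      rw [Finset.mem_filter, Finset.mem_powerset] at hG
      rw [Finset.disjoint_left]
      intro a ha hb
      exact (Finset.mem_sdiff.1 (hG.1 hb)).2 ha
    unfold prt1H1 prt1c1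
    rw [Finset.prod_union hd]
    ring
  · change _ = ∑ G : ↥(prt1T2 p K y J'), 1 / (Nat.choose M J' : ℝ) * ∏ g ∈ (G : Finset (ZMod p)[X]), x g
    rw [Finset.sum_coe_sort (prt1T2 p K y J') (fun G => 1 / (Nat.choose M J' : ℝ) * ∏ g ∈ G, x g),
      ← Finset.mul_sum]
    unfold OmF prt1T2
    rw [div_eq_mul_one_div, mul_comm]

theorem prt1_co_abs (K y k D M J J' : ℕ) (t : prt1Tau p K y k D J J') :
    |prt1co p K y k D M J J' (-1 / 2) t| = prt1co p K y k D M J J' (1 / 2) t := by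
  rcases t with t | G
  · change |prt1c1 p y M (-1 / 2) t| = prt1c1 p y M (1 / 2) t
    unfold prt1c1
    rw [abs_mul, abs_mul, abs_pow, abs_pow, abs_pow]
    norm_num
  · change |1 / (Nat.choose M J' : ℝ)| = 1 / (Nat.choose M J' : ℝ)
    exact abs_of_nonneg (by positivity)

theorem prt1_H_mem (K y k D J J' : ℕ) (hyk : y ≤ k) (t : prt1Tau p K y k D J J') (g : (ZMod p)[X])
    (hg : g ∈ prt1H p K y k D J J' t) : g ∈ RR p K k := by
  classical
  have hmono : ∀ g, g ∈ RR p K y → g ∈ RR p K k := by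
    intro g hg
    rw [mem_rr] at hg ⊢
    exact ⟨hg.1, hg.2.1, hg.2.2.1, hg.2.2.2.trans hyk⟩
  rcases t with ⟨⟨s, G⟩, ht⟩ | ⟨G, hG⟩
  · change g ∈ s ∪ G at hg
    unfold prt1T1 at ht
    rw [Finset.mem_sigma, Finset.mem_filter, Finset.mem_powerset] at ht
    rcases Finset.mem_union.1 hg with h | h
    · have h1 := ht.1
      unfold FF at h1
      rw [Finset.mem_filter, Finset.mem_powerset] at h1
      exact h1.1 h
    · exact hmono g (Finset.mem_sdiff.1 (ht.2.1 h)).1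
  · change g ∈ G at hg
    unfold prt1T2 at hG
    rw [Finset.mem_powersetCard] at hG
    exact hmono g (hG.1 hg)

theorem prt1_H_deg (K y k D J J' : ℕ) (hJJ : J' ≤ J) (hJy : J * y ≤ k)
    (t : prt1Tau p K y k D J J') :
    ∑ g ∈ prt1H p K y k D J J' t, g.natDegree ≤ 2 * k := by
  classical
  have hG : ∀ G : Finset (ZMod p)[X], G ⊆ RR p K y → G.card ≤ J →
      ∑ g ∈ G, g.natDegree ≤ k := by
    intro G hG hc
    calc ∑ g ∈ G, g.natDegree ≤ ∑ _g ∈ G, y := by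
          refine Finset.sum_le_sum fun g hg => ?_
          exact ((mem_rr g).1 (hG hg)).2.2.2
      _ = G.card * y := by rw [Finset.sum_const, smul_eq_mul]
      _ ≤ J * y := Nat.mul_le_mul_right y hc
      _ ≤ k := hJy
  rcases t with ⟨⟨s, G⟩, ht⟩ | ⟨G, hG'⟩
  · change ∑ g ∈ s ∪ G, g.natDegree ≤ 2 * k
    unfold prt1T1 at ht
    rw [Finset.mem_sigma, Finset.mem_filter, Finset.mem_powerset] at ht
    have h1 := ht.1
    unfold FF at h1
    rw [Finset.mem_filter] at h1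
    have h2 := hG G (fun g hg => (Finset.mem_sdiff.1 (ht.2.1 hg)).1) ht.2.2
    have h3 : ∑ g ∈ s ∪ G, g.natDegree ≤ ∑ g ∈ s, g.natDegree + ∑ g ∈ G, g.natDegree := by
      rw [← Finset.sum_union_inter]
      exact Nat.le_add_right _ _
    have h4 : ∑ g ∈ s, g.natDegree ≤ k := h1.2.2
    omega
  · change ∑ g ∈ G, g.natDegree ≤ 2 * k
    unfold prt1T2 at hG'
    rw [Finset.mem_powersetCard] at hG'
    have := hG G hG'.1 (by omega)
    omega

theorem prt1_beta_le (hp : 3 ≤ p) (K : ℕ) (g : (ZMod p)[X]) (hg : K < g.natDegree) :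
    0 ≤ beta g ∧ beta g ≤ (1 / 3 : ℝ) ^ K ∧ beta g ≤ 1 := by
  unfold beta
  have hp' : (3 : ℝ) ≤ p := by exact_mod_cast hp
  have h1 : (3 : ℝ) ^ (K + 1) ≤ (p : ℝ) ^ g.natDegree :=
    calc (3 : ℝ) ^ (K + 1) ≤ (p : ℝ) ^ (K + 1) := pow_le_pow_left₀ (by norm_num) hp' _
      _ ≤ (p : ℝ) ^ g.natDegree := pow_le_pow_right₀ (by linarith) (by omega)
  have h2 : (1 : ℝ) ≤ 3 ^ K := one_le_pow₀ (by norm_num)
  rw [pow_succ] at h1
  have h3 : (3 : ℝ) ^ K ≤ (p : ℝ) ^ g.natDegree - 1 := by linarith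
  have h4 : (0 : ℝ) < (p : ℝ) ^ g.natDegree - 1 := by linarith
  refine ⟨by positivity, ?_, ?_⟩
  · rw [one_div_pow]
    exact one_div_le_one_div_of_le (by positivity) h3
  · rw [div_le_one h4]
    linarith

theorem prt1_beta_sum (hp : 3 ≤ p) (K k : ℕ) (H : Finset (ZMod p)[X])
    (h1 : ∀ g ∈ H, K < g.natDegree) (h2 : ∑ g ∈ H, g.natDegree ≤ 2 * k) :
    ∑ g ∈ H, beta g ≤ 2 * k * (1 / 3 : ℝ) ^ K := by
  have h3 : H.card ≤ 2 * k := by
    calc H.card = ∑ _g ∈ H, 1 := by simp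
      _ ≤ ∑ g ∈ H, g.natDegree := Finset.sum_le_sum fun g hg => by
          have := h1 g hg
          omega
      _ ≤ 2 * k := h2
  calc ∑ g ∈ H, beta g ≤ ∑ _g ∈ H, (1 / 3 : ℝ) ^ K :=
        Finset.sum_le_sum fun g hg => (prt1_beta_le hp K g (h1 g hg)).2.1
    _ = H.card * (1 / 3 : ℝ) ^ K := by rw [Finset.sum_const, nsmul_eq_mul]
    _ ≤ 2 * k * (1 / 3 : ℝ) ^ K := by
        refine mul_le_mul_of_nonneg_right ?_ (by positivity)
        exact_mod_cast h3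

theorem prt1_phi_nonneg (K y k D M J : ℕ) (hJ : Even J) (x : (ZMod p)[X] → ℝ)
    (hx : ∀ g ∈ RR p K k, 0 ≤ x g) (hx' : ∀ g ∈ RR p K y, 0 ≤ x g ∧ x g ≤ 1) :
    0 ≤ PhiF p K y k D M J (-1 / 2) x := by
  classical
  unfold PhiF
  refine Finset.sum_nonneg fun s hs => ?_
  unfold FF at hs
  rw [Finset.mem_filter, Finset.mem_powerset] at hs
  refine mul_nonneg (mul_nonneg (by positivity) (Finset.prod_nonneg fun g hg => hx g (hs.1 hg))) ?_
  have h1 := bnf_even_lower ((RR p K y) \ s) (fun g => x g / 2) (fun g hg => by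
    have := hx' g (Finset.mem_sdiff.1 hg).1
    constructor <;> linarith) J hJ
  have h2 : 0 ≤ ∏ a ∈ (RR p K y) \ s, (1 - x a / 2) := by
    refine Finset.prod_nonneg fun g hg => ?_
    have := hx' g (Finset.mem_sdiff.1 hg).1
    linarith
  refine (h2.trans h1).trans (le_of_eq ?_)
  refine Finset.sum_congr rfl fun G _ => ?_
  have h3 : ∏ a ∈ G, x a / 2 = (1 / 2 : ℝ) ^ G.card * ∏ a ∈ G, x a := by
    rw [Finset.prod_div_distrib, Finset.prod_const]
    rw [one_div_pow]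
    ring
  rw [h3, ← mul_assoc, ← mul_pow]
  norm_num

theorem prt1_om_nonneg (K y M J' : ℕ) (x : (ZMod p)[X] → ℝ) (hx : ∀ g ∈ RR p K y, 0 ≤ x g) :
    0 ≤ OmF p K y M J' x := by
  classical
  unfold OmF
  refine div_nonneg (Finset.sum_nonneg fun G hG => ?_) (Nat.cast_nonneg _)
  rw [Finset.mem_powersetCard] at hG
  exact Finset.prod_nonneg fun g hg => hx g (hG.1 hg)

theorem prt1_sq_sum (hp : 3 ≤ p) (K k : ℕ) :
    ∑ g ∈ RR p K k, 8 / ((p : ℝ) ^ g.natDegree) ^ 2 ≤ 4 * (1 / 3 : ℝ) ^ K := by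
  have hp' : (3 : ℝ) ≤ p := by exact_mod_cast hp
  rw [sum_rr (fun g => 8 / ((p : ℝ) ^ g.natDegree) ^ 2)]
  have h1 : ∀ m ∈ Finset.Ioc K k, ∑ f ∈ Irr p m, 8 / ((p : ℝ) ^ f.natDegree) ^ 2 ≤
      8 * (1 / 3 : ℝ) ^ m := by
    intro m hm
    rw [Finset.mem_Ioc] at hm
    have h2 : ∑ f ∈ Irr p m, 8 / ((p : ℝ) ^ f.natDegree) ^ 2 =
        ∑ _f ∈ Irr p m, 8 / ((p : ℝ) ^ m) ^ 2 := by
      refine Finset.sum_congr rfl fun f hf => ?_
      rw [((mem_irr f).1 hf).2.2]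
    rw [h2, Finset.sum_const, nsmul_eq_mul]
    have h3 := irc_upper p m
    have hm1 : (1 : ℝ) ≤ m := by
      have : 1 ≤ m := by omega
      exact_mod_cast this
    have hpm : (0 : ℝ) < (p : ℝ) ^ m := by positivity
    have h4 : ((Irr p m).card : ℝ) ≤ (p : ℝ) ^ m := by
      have h5 : (0 : ℝ) ≤ (Irr p m).card := Nat.cast_nonneg _
      nlinarith
    calc ((Irr p m).card : ℝ) * (8 / ((p : ℝ) ^ m) ^ 2) ≤ (p : ℝ) ^ m * (8 / ((p : ℝ) ^ m) ^ 2) :=
          mul_le_mul_of_nonneg_right h4 (by positivity)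
      _ = 8 * (1 / (p : ℝ) ^ m) := by
          field_simp
      _ ≤ 8 * (1 / 3 : ℝ) ^ m := by
          rw [one_div_pow]
          refine mul_le_mul_of_nonneg_left ?_ (by norm_num)
          exact one_div_le_one_div_of_le (by positivity) (pow_le_pow_left₀ (by norm_num) hp' m)
  refine (Finset.sum_le_sum h1).trans ?_
  rw [← Finset.mul_sum]
  have h6 : ∑ m ∈ Finset.Ioc K k, (1 / 3 : ℝ) ^ m ≤ (1 / 3 : ℝ) ^ K / 2 := by
    rcases le_total k K with h | h
    · rw [Finset.Ioc_eq_empty_of_le h, Finset.sum_empty]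
      positivity
    · have h7 : ∀ j : ℕ, ∑ m ∈ Finset.Ioc K (K + j), (1 / 3 : ℝ) ^ m =
          ((1 / 3 : ℝ) ^ K - (1 / 3 : ℝ) ^ (K + j)) / 2 := by
        intro j
        induction j with
        | zero => simp
        | succ j ih =>
          rw [← add_assoc, Finset.sum_Ioc_succ_top (by omega), ih, pow_succ]
          ring
      have h8 := h7 (k - K)
      rw [Nat.add_sub_cancel' h] at h8
      rw [h8]
      have : (0 : ℝ) ≤ (1 / 3 : ℝ) ^ k := by positivity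
      linarith
  linarith

end prt1

/-- a finite family of positive reals has a positive lower bound -/
theorem prt1_min {ι : Type} [Fintype ι] (f : ι → ℝ) (hf : ∀ i, 0 < f i) (c : ℝ) (hc : 0 < c) :
    ∃ θ : ℝ, 0 < θ ∧ θ ≤ c ∧ ∀ i, θ ≤ f i := by
  classical
  have key : ∀ s : Finset ι, ∃ θ : ℝ, 0 < θ ∧ θ ≤ c ∧ ∀ i ∈ s, θ ≤ f i := by
    intro s
    induction s using Finset.induction_on with
    | empty => exact ⟨c, hc, le_refl _, by simp⟩
    | insert a s _ ih =>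
      obtain ⟨θ, h1, h2, h3⟩ := ih
      refine ⟨min θ (f a), lt_min h1 (hf a), (min_le_left _ _).trans h2, ?_⟩
      intro i hi
      rcases Finset.mem_insert.1 hi with rfl | hi
      · exact min_le_right _ _
      · exact (min_le_left _ _).trans (h3 i hi)
  obtain ⟨θ, h1, h2, h3⟩ := key Finset.univ
  exact ⟨θ, h1, h2, fun i => h3 i (Finset.mem_univ i)⟩

theorem prt1_max {ι : Type} [Fintype ι] (f : ι → ℕ) (c : ℕ) :
    ∃ m : ℕ, c ≤ m ∧ ∀ i, f i ≤ m :=
  ⟨c + ∑ i, f i, Nat.le_add_right _ _, fun i =>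
    (Finset.single_le_sum (fun j _ => Nat.zero_le (f j)) (Finset.mem_univ i)).trans
      (Nat.le_add_left _ _)⟩

theorem prt1_det {ι : Type} [Fintype ι] (P B S : ι → Prop) (U : ι → ℝ)
    (h : ∀ i, ind (P i) ≤ ind (B i) + ind (S i) + U i) (hU : ∀ i, 0 ≤ U i) :
    ind (∀ i, P i) ≤ ∑ i, (ind (B i) + ind (S i)) + ∏ i, U i := by
  have hprod : 0 ≤ ∏ i, U i := Finset.prod_nonneg fun i _ => hU i
  by_cases hbad : ∃ i, B i ∨ S i
  · obtain ⟨i, hi⟩ := hbad
    have h1 : (1 : ℝ) ≤ ind (B i) + ind (S i) := by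
      rcases hi with hi | hi
      · rw [ind_true hi]
        linarith [ind_nonneg (S i)]
      · rw [ind_true hi]
        linarith [ind_nonneg (B i)]
    have h2 : ind (B i) + ind (S i) ≤ ∑ i, (ind (B i) + ind (S i)) :=
      Finset.single_le_sum (f := fun i => ind (B i) + ind (S i))
        (fun j _ => add_nonneg (ind_nonneg _) (ind_nonneg _)) (Finset.mem_univ i)
    linarith [ind_le_one (∀ i, P i)]
  · have h0 : ∀ i, ind (P i) ≤ U i := by
      intro i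
      have hB : ¬ B i := fun hb => hbad ⟨i, Or.inl hb⟩
      have hS : ¬ S i := fun hs => hbad ⟨i, Or.inr hs⟩
      have := h i
      rw [ind_false hB, ind_false hS] at this
      linarith
    have hs : 0 ≤ ∑ i, (ind (B i) + ind (S i)) :=
      Finset.sum_nonneg fun j _ => add_nonneg (ind_nonneg _) (ind_nonneg _)
    by_cases hall : ∀ i, P i
    · rw [ind_true hall]
      have h3 : (1 : ℝ) ≤ ∏ i, U i := by
        calc (1 : ℝ) = ∏ _i : ι, (1 : ℝ) := by simp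
          _ ≤ ∏ i, U i := Finset.prod_le_prod (fun _ _ => zero_le_one) fun i _ => by
              have := h0 i
              rwa [ind_true (hall i)] at this
      linarith
    · rw [ind_false hall]
      linarith

theorem prt1_exp (c θ : ℝ) (hc : 0 < c) (hθ : 0 < θ) (m : ℕ) :
    ∃ k0 : ℕ, ∀ k : ℕ, k0 ≤ k → Real.exp (-(c / θ) * k) ≤ ((k : ℝ) ^ m)⁻¹ := by
  have hcθ : 0 < c / θ := by positivity
  have h1 := Real.tendsto_pow_mul_exp_neg_atTop_nhds_zero m
  have h2 : Filter.Tendsto (fun k : ℕ => (c / θ) * (k : ℝ)) Filter.atTop Filter.atTop :=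
    Filter.Tendsto.const_mul_atTop hcθ tendsto_natCast_atTop_atTop
  have h3 := h1.comp h2
  have h4 : ∀ᶠ k : ℕ in Filter.atTop, (c / θ * (k : ℝ)) ^ m * Real.exp (-(c / θ * (k : ℝ))) <
      (c / θ) ^ m := (tendsto_order.1 h3).2 _ (by positivity)
  have h5 := h4.and (Filter.eventually_ge_atTop 1)
  obtain ⟨k0, hk0⟩ := Filter.eventually_atTop.1 h5
  refine ⟨k0, fun k hk => ?_⟩
  obtain ⟨h6, h7⟩ := hk0 k hk
  have hk' : (0 : ℝ) < k := by exact_mod_cast h7
  rw [mul_pow, mul_assoc] at h6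
  have h8 : (k : ℝ) ^ m * Real.exp (-(c / θ * (k : ℝ))) < 1 := by
    have hpos : (0 : ℝ) < (c / θ) ^ m := by positivity
    by_contra hcon
    push Not at hcon
    have := mul_le_mul_of_nonneg_left hcon hpos.le
    linarith
  rw [neg_mul, le_inv_comm₀ (Real.exp_pos _) (by positivity)]
  rw [← one_div, le_div_iff₀ (Real.exp_pos _)]
  exact h8.le

theorem prt1_half : ∃ k0 : ℕ, ∀ k : ℕ, k0 ≤ k →
    (k : ℝ) ^ (-(1 / 40) : ℝ) ≤ (k : ℝ) ^ (-(1 / 50) : ℝ) / 2 := by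
  have h1 : Filter.Tendsto (fun k : ℕ => (k : ℝ) ^ (1 / 200 : ℝ)) Filter.atTop Filter.atTop :=
    (tendsto_rpow_atTop (by norm_num)).comp tendsto_natCast_atTop_atTop
  obtain ⟨k0, hk0⟩ := Filter.eventually_atTop.1
    ((h1.eventually_ge_atTop 2).and (Filter.eventually_ge_atTop 1))
  refine ⟨k0, fun k hk => ?_⟩
  obtain ⟨h2, h3⟩ := hk0 k hk
  have hk' : (0 : ℝ) < k := by exact_mod_cast h3
  have h4 : (k : ℝ) ^ (-(1 / 50) : ℝ) = (k : ℝ) ^ (-(1 / 40) : ℝ) * (k : ℝ) ^ (1 / 200 : ℝ) := by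
    rw [← Real.rpow_add hk']
    norm_num
  rw [h4]
  have h5 : (0 : ℝ) ≤ (k : ℝ) ^ (-(1 / 40) : ℝ) := by positivity
  nlinarith

theorem part1 {ι : Type} [Fintype ι] [DecidableEq ι] (hc : 250 ≤ Fintype.card ι) (p : ι → ℕ) [∀ i, Fact (p i).Prime]
    (hp : ∀ i, p i ≠ 2) (hinj : Function.Injective p) :
    ∃ theta : ℝ, 0 < theta ∧ ∃ D0 n0 : ℕ, ∀ n k : ℕ, n0 ≤ n → D0 ≤ k → (k : ℝ) ≤ theta * n →
      pr (fun b : Edge n → Bool => ∀ i, HasDeg k (adj (ZMod (p i)) b)) ≤ 1 / (k : ℝ) ^ 2 := by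
  classical
  have hp3 : ∀ i, 3 ≤ p i := fun i => by
    have h1 := (Fact.out : (p i).Prime).two_le
    have h2 := hp i
    omega
  set N := Fintype.card ι with hN
  obtain ⟨θe, hθe, c, hc0, ne, hexp⟩ := expu p hp hinj
  choose θs hθs ns Ks hsm using fun i => sm2 (p := p i) (hp i)
  choose θq hθq nq hsq using fun i => sqf_pr (p := p i) (hp i)
  obtain ⟨θ1, hθ1, hθ1e, hθ1s⟩ := prt1_min θs hθs (θe / 2) (by positivity)
  obtain ⟨θ, hθ, hθθ1, hθq'⟩ := prt1_min θq hθq θ1 hθ1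
  obtain ⟨n1, hn1e, hn1s⟩ := prt1_max ns ne
  obtain ⟨n0, hn0, hnq⟩ := prt1_max nq n1
  obtain ⟨K1, -, hK1⟩ := prt1_max Ks 1
  obtain ⟨ka, hka⟩ := par_basic
  obtain ⟨kb, hkb⟩ := par_decay ((5 * N + 5 : ℕ) : ℝ)
  obtain ⟨kc, hkc⟩ := par_tendsto K1
  obtain ⟨kd, hkd⟩ := num_phi
  obtain ⟨ke, hke⟩ := num_phi_abs
  obtain ⟨kf, hkf⟩ := num_om
  obtain ⟨kg, hkg⟩ := prt1_exp c θ hc0 hθ (5 * N + 5)
  obtain ⟨kh, hkh⟩ := prt1_half
  refine ⟨θ, hθ, ka + kb + kc + kd + ke + kf + kg + kh + (5 * N + 1 + (4 * N + 1) * 2 ^ N) + 1, n0,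
    fun n k hn hk hkn => ?_⟩
  have hk1 : 1 ≤ k := by omega
  have hkB : 5 * N + 1 + (4 * N + 1) * 2 ^ N ≤ k := by
    have h0 : 0 ≤ ka + kb + kc + kd + ke + kf + kg + kh := Nat.zero_le _
    omega
  obtain ⟨hb1, hb2, hb3, hb4, hb5, hb6, hb7, hb8, hb9, hb10⟩ := hka k (by omega)
  obtain ⟨hd1, hd2⟩ := hkb k (by omega)
  have hK := hkc k (by omega)
  have hx1 : (1 : ℝ) ≤ (k : ℝ) := by exact_mod_cast hk1
  have hx0 : (0 : ℝ) < (k : ℝ) := by linarith
  rw [Real.rpow_neg hx0.le, Real.rpow_natCast] at hd1 hd2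
  set K := pK k with hKdef
  set y := pY k with hydef
  set M := pM k with hMdef
  set J := pJ k with hJdef
  set J' := pJ1 k with hJ'def
  have hyk : y ≤ k := by omega
  have hJJ : J' ≤ J := by
    have hlog : 0 ≤ Real.log k := Real.log_nonneg hx1
    have h1 : (J' : ℝ) ≤ pL k / 6 := by
      rw [hJ'def]
      unfold pJ1
      exact Nat.floor_le (by linarith)
    have h2 : 20 * Real.log k ≤ (J : ℝ) := by
      rw [hJdef]
      unfold pJ
      push_cast
      have := Nat.le_ceil (10 * Real.log k)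
      linarith
    have h3 : (J' : ℝ) ≤ J := by linarith
    exact_mod_cast h3
  have hkn1 : (k : ℝ) ≤ θ1 * n := hkn.trans (mul_le_mul_of_nonneg_right hθθ1 (Nat.cast_nonneg _))
  -- the functionals
  let U : ∀ i, ((ZMod (p i))[X] → ℝ) → ℝ := fun i x =>
    PhiF (p i) K y k (K ^ 3) M J (-1 / 2) x + OmF (p i) K y M J' x
  have hBB : ∀ (i : ι) (A : Matrix (Fin n) (Fin n) (ZMod (p i))) (g : (ZMod (p i))[X]),
      0 ≤ BB g A := fun i A g => ind_nonneg _
  have hUnn : ∀ i (A : Matrix (Fin n) (Fin n) (ZMod (p i))), 0 ≤ U i (fun g => BB g A) := by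
    intro i A
    exact add_nonneg (phi_nonneg K y k (K ^ 3) M J hb5 A)
      (prt1_om_nonneg K y M J' _ fun g _ => hBB i A g)
  have hdet : ∀ b : Edge n → Bool, ind (∀ i, HasDeg k (adj (ZMod (p i)) b)) ≤
      ∑ i, (ind (BadS K (K ^ 3) (adj (ZMod (p i)) b)) +
        ind (∃ g ∈ RR (p i) K k, g ^ 2 ∣ (adj (ZMod (p i)) b).charpoly)) +
      ∏ i, U i (fun g => BB g (adj (ZMod (p i)) b)) := by
    intro b
    exact prt1_det _ _ _ _ (fun i => det_sieve K y k (K ^ 3) M J J' hb2 hyk hb5 hb4 _)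
      fun i => hUnn i _
  have hstep : pr (fun b : Edge n → Bool => ∀ i, HasDeg k (adj (ZMod (p i)) b)) ≤
      ∑ i, (pr (fun b : Edge n → Bool => BadS K (K ^ 3) (adj (ZMod (p i)) b)) +
        pr (fun b : Edge n → Bool => ∃ g ∈ RR (p i) K k,
          g ^ 2 ∣ (adj (ZMod (p i)) b).charpoly)) +
      avg (fun b : Edge n → Bool => ∏ i, U i (fun g => BB g (adj (ZMod (p i)) b))) := by
    refine (avg_mono hdet).trans (le_of_eq ?_)
    rw [avg_add, avg_sum]
    congr 1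
    refine Finset.sum_congr rfl fun i _ => ?_
    rw [avg_add]
    rfl
  have hX : (0 : ℝ) < ((k : ℝ) ^ (5 * N + 5))⁻¹ := by positivity
  -- first bad event
  have hbad : ∀ i, pr (fun b : Edge n → Bool => BadS K (K ^ 3) (adj (ZMod (p i)) b)) ≤
      ((k : ℝ) ^ (5 * N + 5))⁻¹ := by
    intro i
    have h1 := hsm i n K (by have := hn1s i; omega) ((hK1 i).trans hK)
      (hb10.trans (hkn1.trans (mul_le_mul_of_nonneg_right (hθ1s i) (Nat.cast_nonneg _))))
    exact h1.trans hd2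
  -- second bad event
  have hsqr : ∀ i, pr (fun b : Edge n → Bool => ∃ g ∈ RR (p i) K k,
      g ^ 2 ∣ (adj (ZMod (p i)) b).charpoly) ≤ 4 * ((k : ℝ) ^ (5 * N + 5))⁻¹ := by
    intro i
    refine (pr_exists_le _ _).trans ?_
    have h1 : ∀ g ∈ RR (p i) K k, pr (fun b : Edge n → Bool => g ^ 2 ∣ (adj (ZMod (p i)) b).charpoly) ≤
        8 / ((p i : ℝ) ^ g.natDegree) ^ 2 := by
      intro g hg
      rw [mem_rr] at hg
      refine hsq i n (by have := hnq i; omega) g hg.1 hg.2.1 ?_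
      have h2 : (g.natDegree : ℝ) ≤ k := by exact_mod_cast hg.2.2.2
      exact h2.trans (hkn.trans (mul_le_mul_of_nonneg_right (hθq' i) (Nat.cast_nonneg _)))
    refine (Finset.sum_le_sum h1).trans ((prt1_sq_sum (hp3 i) K k).trans ?_)
    linarith
  -- the main term
  set eta : ℝ := 4 * N * k * (1 / 3 : ℝ) ^ K + Real.exp (-c * n) with heta
  have hmem : ∀ (i : ι) (t : prt1Tau (p i) K y k (K ^ 3) J J') (g : (ZMod (p i))[X]),
      g ∈ prt1H (p i) K y k (K ^ 3) J J' t → g ∈ RR (p i) K k :=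
    fun i t g hg => prt1_H_mem K y k (K ^ 3) J J' hyk t g hg
  have hbet : ∀ i, ∀ g ∈ RR (p i) K k, 0 ≤ beta g ∧ beta g ≤ (1 / 3 : ℝ) ^ K ∧ beta g ≤ 1 :=
    fun i g hg => prt1_beta_le (hp3 i) K g ((mem_rr g).1 hg).2.2.1
  have hmain := hexp n (by omega) (fun i => prt1Tau (p i) K y k (K ^ 3) J J')
    (fun i => prt1co (p i) K y k (K ^ 3) M J J' (-1 / 2))
    (fun i => prt1H (p i) K y k (K ^ 3) J J') eta
    (fun i t g hg => by
      have := (mem_rr g).1 (hmem i t g hg)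
      exact ⟨this.1, this.2.1⟩)
    (fun i t => by
      have h1 := prt1_H_deg K y k (K ^ 3) J J' hJJ hb6 t
      have h2 : ((∑ g ∈ prt1H (p i) K y k (K ^ 3) J J' t, g.natDegree : ℕ) : ℝ) ≤ 2 * k := by
        exact_mod_cast h1
      have h3 : θ1 * n ≤ θe / 2 * n := mul_le_mul_of_nonneg_right hθ1e (Nat.cast_nonneg _)
      linarith)
    (fun t => by
      have h1 : ∑ i, ∑ g ∈ prt1H (p i) K y k (K ^ 3) J J' (t i), beta g ≤
          ∑ _i : ι, 2 * k * (1 / 3 : ℝ) ^ K := by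
        refine Finset.sum_le_sum fun i _ => ?_
        exact prt1_beta_sum (hp3 i) K k _ (fun g hg => ((mem_rr g).1 (hmem i (t i) g hg)).2.2.1)
          (prt1_H_deg K y k (K ^ 3) J J' hJJ hb6 (t i))
      rw [Finset.sum_const, Finset.card_univ, nsmul_eq_mul, ← hN] at h1
      rw [heta]
      linarith)
  simp_rw [prt1_co_abs, ← prt1_expand] at hmain
  have hUb : ∀ i, 0 ≤ U i beta ∧ U i beta ≤ (k : ℝ) ^ (-(1 / 50) : ℝ) := by
    intro i
    have hRR : ∀ g ∈ RR (p i) K y, g ∈ RR (p i) K k := by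
      intro g hg
      rw [mem_rr] at hg ⊢
      exact ⟨hg.1, hg.2.1, hg.2.2.1, hg.2.2.2.trans hyk⟩
    refine ⟨add_nonneg (prt1_phi_nonneg K y k (K ^ 3) M J hb5 _ (fun g hg => (hbet i g hg).1)
      fun g hg => ⟨(hbet i g (hRR g hg)).1, (hbet i g (hRR g hg)).2.2⟩)
      (prt1_om_nonneg K y M J' _ fun g hg => (hbet i g (hRR g hg)).1), ?_⟩
    have h1 := hkd k (by omega) (p i) (hp3 i)
    have h2 := hkf k (by omega) (p i) (hp3 i)
    have h3 := hkh k (by omega)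
    change PhiF (p i) K y k (K ^ 3) M J (-1 / 2) beta + OmF (p i) K y M J' beta ≤ _
    linarith
  have hVb : ∀ i, 0 ≤ PhiF (p i) K y k (K ^ 3) M J (1 / 2) beta + OmF (p i) K y M J' beta ∧
      PhiF (p i) K y k (K ^ 3) M J (1 / 2) beta + OmF (p i) K y M J' beta ≤ 2 * (k : ℝ) ^ 5 := by
    intro i
    refine ⟨?_, ?_⟩
    · rw [prt1_expand]
      refine Finset.sum_nonneg fun t _ => ?_
      rw [← prt1_co_abs]
      exact mul_nonneg (abs_nonneg _) (Finset.prod_nonneg fun g hg => (hbet i g (hmem i t g hg)).1)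
    · have h1 := hke k (by omega) (p i) (hp3 i)
      have h2 := hkf k (by omega) (p i) (hp3 i)
      have h3 : (k : ℝ) ^ (5 : ℝ) = (k : ℝ) ^ 5 := by
        rw [← Real.rpow_natCast]
        norm_num
      rw [h3] at h1
      have h4 : (k : ℝ) ^ (-(1 / 50) : ℝ) ≤ 1 :=
        Real.rpow_le_one_of_one_le_of_nonpos hx1 (by norm_num)
      have h5 : (1 : ℝ) ≤ (k : ℝ) ^ 5 := one_le_pow₀ hx1
      linarith
  have hprodU : ∏ i, U i beta ≤ ((k : ℝ) ^ 5)⁻¹ := by
    have h1 : ∏ i, U i beta ≤ ∏ _i : ι, (k : ℝ) ^ (-(1 / 50) : ℝ) :=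
      Finset.prod_le_prod (fun i _ => (hUb i).1) fun i _ => (hUb i).2
    refine h1.trans ?_
    rw [Finset.prod_const, Finset.card_univ, ← hN]
    have h4 : (k : ℝ) ^ (-(1 / 50) : ℝ) ≤ 1 :=
      Real.rpow_le_one_of_one_le_of_nonpos hx1 (by norm_num)
    have h5 : (0 : ℝ) ≤ (k : ℝ) ^ (-(1 / 50) : ℝ) := by positivity
    refine (pow_le_pow_of_le_one h5 h4 hc).trans (le_of_eq ?_)
    rw [← Real.rpow_natCast, ← Real.rpow_mul hx0.le, ← Real.rpow_natCast, ← Real.rpow_neg hx0.le]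
    norm_num
  have hprodV : ∏ i, (PhiF (p i) K y k (K ^ 3) M J (1 / 2) beta + OmF (p i) K y M J' beta) ≤
      2 ^ N * (k : ℝ) ^ (5 * N) := by
    have h1 : ∏ i, (PhiF (p i) K y k (K ^ 3) M J (1 / 2) beta + OmF (p i) K y M J' beta) ≤
        ∏ _i : ι, 2 * (k : ℝ) ^ 5 :=
      Finset.prod_le_prod (fun i _ => (hVb i).1) fun i _ => (hVb i).2
    refine h1.trans (le_of_eq ?_)
    rw [Finset.prod_const, Finset.card_univ, ← hN, mul_pow, ← pow_mul]
  have hetab : eta ≤ (4 * N + 1) * k * ((k : ℝ) ^ (5 * N + 5))⁻¹ := by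
    have h1 : Real.exp (-c * n) ≤ ((k : ℝ) ^ (5 * N + 5))⁻¹ := by
      refine le_trans ?_ (hkg k (by omega))
      rw [Real.exp_le_exp]
      have h2 : (k : ℝ) / θ ≤ n := by
        rw [div_le_iff₀ hθ]
        linarith
      have h3 : c / θ * k = c * (k / θ) := by ring
      rw [neg_mul, neg_mul, h3]
      have := mul_le_mul_of_nonneg_left h2 hc0.le
      linarith
    rw [heta]
    have h4 : (4 * N * k * (1 / 3 : ℝ) ^ K) ≤ 4 * N * k * ((k : ℝ) ^ (5 * N + 5))⁻¹ :=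
      mul_le_mul_of_nonneg_left hd1 (by positivity)
    have h5 : ((k : ℝ) ^ (5 * N + 5))⁻¹ ≤ k * ((k : ℝ) ^ (5 * N + 5))⁻¹ := by
      nlinarith
    have h6 : (4 * (N : ℝ) + 1) * k * ((k : ℝ) ^ (5 * N + 5))⁻¹ =
        4 * N * k * ((k : ℝ) ^ (5 * N + 5))⁻¹ + k * ((k : ℝ) ^ (5 * N + 5))⁻¹ := by ring
    rw [h6]
    linarith
  have heta0 : 0 ≤ eta := by positivity
  have hV0 : 0 ≤ ∏ i, (PhiF (p i) K y k (K ^ 3) M J (1 / 2) beta + OmF (p i) K y M J' beta) :=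
    Finset.prod_nonneg fun i _ => (hVb i).1
  have herr : eta * ∏ i, (PhiF (p i) K y k (K ^ 3) M J (1 / 2) beta + OmF (p i) K y M J' beta) ≤
      (4 * N + 1) * 2 ^ N * ((k : ℝ) ^ 4)⁻¹ := by
    calc eta * ∏ i, (PhiF (p i) K y k (K ^ 3) M J (1 / 2) beta + OmF (p i) K y M J' beta)
        ≤ ((4 * N + 1) * k * ((k : ℝ) ^ (5 * N + 5))⁻¹) * (2 ^ N * (k : ℝ) ^ (5 * N)) :=
          mul_le_mul hetab hprodV hV0 (by positivity)
      _ = (4 * N + 1) * 2 ^ N * ((k : ℝ) ^ 4)⁻¹ := by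
          have h1 : (k : ℝ) ^ (5 * N + 5) = (k : ℝ) ^ (5 * N) * (k * (k : ℝ) ^ 4) := by ring
          rw [h1]
          have h2 : (k : ℝ) ^ (5 * N) ≠ 0 := by positivity
          field_simp
  have havg : avg (fun b : Edge n → Bool => ∏ i, U i (fun g => BB g (adj (ZMod (p i)) b))) ≤
      ∏ i, U i beta +
      eta * ∏ i, (PhiF (p i) K y k (K ^ 3) M J (1 / 2) beta + OmF (p i) K y M J' beta) := by
    have h1 := (abs_le.1 hmain).2
    have h2 : avg (fun b : Edge n → Bool => ∏ i, U i (fun g => BB g (adj (ZMod (p i)) b))) -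
        ∏ i, U i beta ≤
        eta * ∏ i, (PhiF (p i) K y k (K ^ 3) M J (1 / 2) beta + OmF (p i) K y M J' beta) := h1
    linarith
  have hsumbad : ∑ i, (pr (fun b : Edge n → Bool => BadS K (K ^ 3) (adj (ZMod (p i)) b)) +
        pr (fun b : Edge n → Bool => ∃ g ∈ RR (p i) K k,
          g ^ 2 ∣ (adj (ZMod (p i)) b).charpoly)) ≤ 5 * N * ((k : ℝ) ^ (5 * N + 5))⁻¹ := by
    have h1 : ∑ i, (pr (fun b : Edge n → Bool => BadS K (K ^ 3) (adj (ZMod (p i)) b)) +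
        pr (fun b : Edge n → Bool => ∃ g ∈ RR (p i) K k,
          g ^ 2 ∣ (adj (ZMod (p i)) b).charpoly)) ≤
        ∑ _i : ι, 5 * ((k : ℝ) ^ (5 * N + 5))⁻¹ := by
      refine Finset.sum_le_sum fun i _ => ?_
      have h1 := hbad i
      have h2 := hsqr i
      linarith
    rw [Finset.sum_const, Finset.card_univ, ← hN, nsmul_eq_mul] at h1
    linarith
  have hpow1 : ((k : ℝ) ^ (5 * N + 5))⁻¹ ≤ ((k : ℝ) ^ 4)⁻¹ :=
    inv_anti₀ (by positivity) (pow_le_pow_right₀ hx1 (by omega))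
  have hpow2 : ((k : ℝ) ^ 5)⁻¹ ≤ ((k : ℝ) ^ 4)⁻¹ :=
    inv_anti₀ (by positivity) (pow_le_pow_right₀ hx1 (by norm_num))
  have htot : pr (fun b : Edge n → Bool => ∀ i, HasDeg k (adj (ZMod (p i)) b)) ≤
      (5 * N + 1 + (4 * N + 1) * 2 ^ N) * ((k : ℝ) ^ 4)⁻¹ := by
    have h1 : 5 * (N : ℝ) * ((k : ℝ) ^ (5 * N + 5))⁻¹ ≤ 5 * N * ((k : ℝ) ^ 4)⁻¹ :=
      mul_le_mul_of_nonneg_left hpow1 (by positivity)
    have h2 : (5 * (N : ℝ) + 1 + (4 * N + 1) * 2 ^ N) * ((k : ℝ) ^ 4)⁻¹ =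
        5 * N * ((k : ℝ) ^ 4)⁻¹ + ((k : ℝ) ^ 4)⁻¹ + (4 * N + 1) * 2 ^ N * ((k : ℝ) ^ 4)⁻¹ := by
      ring
    rw [h2]
    linarith
  refine htot.trans ?_
  have hkB' : (5 * (N : ℝ) + 1 + (4 * N + 1) * 2 ^ N) ≤ k := by exact_mod_cast hkB
  have h3 : (k : ℝ) * ((k : ℝ) ^ 4)⁻¹ = ((k : ℝ) ^ 3)⁻¹ := by
    field_simp
  calc (5 * (N : ℝ) + 1 + (4 * N + 1) * 2 ^ N) * ((k : ℝ) ^ 4)⁻¹ ≤ k * ((k : ℝ) ^ 4)⁻¹ :=
        mul_le_mul_of_nonneg_right hkB' (by positivity)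
    _ = ((k : ℝ) ^ 3)⁻¹ := h3
    _ ≤ ((k : ℝ) ^ 2)⁻¹ := inv_anti₀ (by positivity) (pow_le_pow_right₀ hx1 (by norm_num))
    _ = 1 / (k : ℝ) ^ 2 := (one_div _).symm

end Pool.H64.IR

end S_PRT1

section S_PRT2

/-! MODULE PRT2 (project MP_a758cf_pr, IR; overview: team-store H64_a758cf.md)
Part II (bounded degree k >= 1). For J odd put G2 x = sum over G subset RR p 0 k with 1 <= card G <= J of (-1)^(card G + 1) prod_{g in G} x g = 1 - T_J.
p2_det: if charpoly has a divisor of degree k >= 1 it has an irreducible factor of degree <= k, so prod_{g in RR p 0 k}(1 - BB g) = 0 >= T_J (bnf_odd_upper), G2 >= 1; always G2 >= 0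
because T_J <= prod (1-BB) <= 1.
p2_num: uniformly in p >= 3: Lam = 2(1+log k) >= sum beta (lbd0), beta <= 1/2; G2 beta <= 1 - prod(1-beta) + Lam^(J+1)/(J+1)! <= 1 - exp(-2 Lam) + Lam^(J+1)/(J+1)! (bnf_odd_lower,
1-x >= exp(-2x) on [0,1/2]) <= 1 - c with c = exp(-2 Lam)/2 for a suitable odd J = J(k); sum over G of prod beta <= exp(Lam) = B.
part2: t with (1-c)^t <= eps/3; t distinct primes >= P0, P0 so large that 2 t J/(P0-1) B^t <= eps/3 (each beta g <= 1/(p-1)); expu: avg prod G2(BB) <= (1-c)^t + (2 t J/(P0-1) + exp(-cn)) B^t <= eps for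
n large (total degree <= J k <= theta n). G2 beta may be negative? it is >= 0 since T_J <= prod(1-beta) <= 1.
-/

set_option autoImplicit false

namespace Pool.H64.IR

open Finset Polynomial

open Classical in
noncomputable def G2F (p k J : ℕ) [Fact p.Prime] (x : (ZMod p)[X] → ℝ) : ℝ :=
  ∑ G ∈ (RR p 0 k).powerset.filter (fun G => 1 ≤ G.card ∧ G.card ≤ J), (-1 : ℝ) ^ (G.card + 1) * ∏ g ∈ G, x g

open Classical in
noncomputable def PRT2_T (p k J : ℕ) [Fact p.Prime] (x : (ZMod p)[X] → ℝ) : ℝ :=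
  ∑ G ∈ (RR p 0 k).powerset.filter (fun G => G.card ≤ J), (-1 : ℝ) ^ G.card * ∏ g ∈ G, x g

theorem PRT2_eq (p k J : ℕ) [Fact p.Prime] (x : (ZMod p)[X] → ℝ) :
    G2F p k J x = 1 - PRT2_T p k J x := by
  classical
  unfold G2F PRT2_T
  have h1 : (RR p 0 k).powerset.filter (fun G => G.card ≤ J) =
      insert ∅ ((RR p 0 k).powerset.filter (fun G => 1 ≤ G.card ∧ G.card ≤ J)) := by
    ext G
    simp only [Finset.mem_filter, Finset.mem_powerset, Finset.mem_insert]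
    constructor
    · rintro ⟨h2, h3⟩
      rcases Finset.eq_empty_or_nonempty G with h4 | h4
      · exact Or.inl h4
      · exact Or.inr ⟨h2, Finset.card_pos.2 h4, h3⟩
    · rintro (rfl | ⟨h2, -, h3⟩)
      · exact ⟨Finset.empty_subset _, by simp⟩
      · exact ⟨h2, h3⟩
  have h2 : (∅ : Finset (ZMod p)[X]) ∉
      (RR p 0 k).powerset.filter (fun G => 1 ≤ G.card ∧ G.card ≤ J) := by
    simp
  rw [h1, Finset.sum_insert h2]
  simp only [Finset.card_empty, pow_zero, Finset.prod_empty, mul_one]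
  have h3 : ∀ G : Finset (ZMod p)[X], (-1 : ℝ) ^ (G.card + 1) * ∏ g ∈ G, x g =
      -((-1 : ℝ) ^ G.card * ∏ g ∈ G, x g) := by
    intro G
    rw [pow_succ]
    ring
  rw [Finset.sum_congr rfl (fun G _ => h3 G), Finset.sum_neg_distrib]
  ring

theorem PRT2_T_le (p k J : ℕ) [Fact p.Prime] (hJ : Odd J) (x : (ZMod p)[X] → ℝ)
    (hx : ∀ g ∈ RR p 0 k, 0 ≤ x g ∧ x g ≤ 1) :
    PRT2_T p k J x ≤ ∏ g ∈ RR p 0 k, (1 - x g) := by
  classical
  exact bnf_odd_upper (RR p 0 k) x hx J hJ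

theorem PRT2_prod_le_one (p k : ℕ) [Fact p.Prime] (x : (ZMod p)[X] → ℝ)
    (hx : ∀ g ∈ RR p 0 k, 0 ≤ x g ∧ x g ≤ 1) :
    ∏ g ∈ RR p 0 k, (1 - x g) ≤ 1 := by
  refine Finset.prod_le_one (fun g hg => ?_) (fun g hg => ?_)
  · linarith [(hx g hg).2]
  · linarith [(hx g hg).1]

theorem PRT2_nonneg (p k J : ℕ) [Fact p.Prime] (hJ : Odd J) (x : (ZMod p)[X] → ℝ)
    (hx : ∀ g ∈ RR p 0 k, 0 ≤ x g ∧ x g ≤ 1) : 0 ≤ G2F p k J x := by
  rw [PRT2_eq]
  linarith [PRT2_T_le p k J hJ x hx, PRT2_prod_le_one p k x hx]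

theorem PRT2_BB {p n : ℕ} [Fact p.Prime] (A : Matrix (Fin n) (Fin n) (ZMod p)) (g : (ZMod p)[X]) :
    0 ≤ BB g A ∧ BB g A ≤ 1 := ⟨ind_nonneg _, ind_le_one _⟩

theorem p2_det {p n : ℕ} [Fact p.Prime] (k J : ℕ) (hk : 1 ≤ k) (hJ : Odd J) (A : Matrix (Fin n) (Fin n) (ZMod p)) :
    ind (HasDeg k A) ≤ G2F p k J (fun g => BB g A) := by
  by_cases h : HasDeg k A
  · rw [ind_true h, PRT2_eq]
    obtain ⟨f, hf1, hf2, hf3⟩ := h
    have hfu : ¬ IsUnit f := by
      intro hu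
      have h1 := Polynomial.natDegree_eq_zero_of_isUnit hu
      omega
    obtain ⟨g, hg2, hg1, hg3⟩ := Polynomial.exists_monic_irreducible_factor f hfu
    have hgk : g ∈ RR p 0 k := by
      rw [mem_rr]
      refine ⟨hg2, hg1, hg1.natDegree_pos, ?_⟩
      rw [← hf2]
      exact Polynomial.natDegree_le_of_dvd hg3 hf1.ne_zero
    have hBB : BB g A = 1 := ind_true (hg3.trans hf3)
    have h1 : ∏ g ∈ RR p 0 k, (1 - BB g A) = 0 :=
      Finset.prod_eq_zero hgk (by rw [hBB, sub_self])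
    have h2 := PRT2_T_le p k J hJ (fun g => BB g A) (fun g _ => PRT2_BB A g)
    rw [h1] at h2
    linarith
  · rw [ind_false h]
    exact PRT2_nonneg p k J hJ _ (fun g _ => PRT2_BB A g)

theorem PRT2_exp (x : ℝ) (h0 : 0 ≤ x) (h1 : x ≤ 1 / 2) : Real.exp (-2 * x) ≤ 1 - x := by
  have h2 : Real.exp (-2 * x) ≤ 1 / (1 + 2 * x) := by
    rw [show -2 * x = -(2 * x) by ring, Real.exp_neg, one_div]
    refine inv_anti₀ (by positivity) ?_
    have := Real.add_one_le_exp (2 * x)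
    linarith
  have h3 : 1 / (1 + 2 * x) ≤ 1 - x := by
    rw [div_le_iff₀ (by positivity)]
    nlinarith
  exact h2.trans h3

theorem PRT2_beta (p k : ℕ) [Fact p.Prime] (hp : 3 ≤ p) (g : (ZMod p)[X]) (hg : g ∈ RR p 0 k) :
    0 < beta g ∧ beta g ≤ 1 / ((p : ℝ) - 1) ∧ beta g ≤ 1 / 2 := by
  obtain ⟨h1, h2, -⟩ := beta_le hp 0 k g hg
  rw [zero_add, pow_one] at h2
  refine ⟨h1, h2, h2.trans ?_⟩
  have h3 : (3 : ℝ) ≤ p := by exact_mod_cast hp
  rw [div_le_div_iff₀ (by linarith) (by norm_num)]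
  linarith

theorem p2_num (k : ℕ) (hk : 1 ≤ k) : ∃ J : ℕ, Odd J ∧ ∃ c : ℝ, 0 < c ∧ c < 1 ∧ ∃ B : ℝ, 1 ≤ B ∧ ∀ (p : ℕ) [Fact p.Prime], 3 ≤ p →
    0 ≤ G2F p k J beta ∧ G2F p k J beta ≤ 1 - c ∧
      (∑ G ∈ (RR p 0 k).powerset, ∏ g ∈ G, beta g) ≤ B := by
  set Lam : ℝ := 2 * (1 + Real.log k) with hLam
  have hk1 : (1 : ℝ) ≤ k := by exact_mod_cast hk
  have hLam0 : 0 ≤ Lam := by
    have := Real.log_nonneg hk1
    rw [hLam]
    positivity
  set c : ℝ := Real.exp (-2 * Lam) / 2 with hc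
  have hexp1 : Real.exp (-2 * Lam) ≤ 1 := by
    rw [Real.exp_le_one_iff]
    linarith
  have hc0 : 0 < c := by positivity
  have hc1 : c < 1 := by
    rw [hc]
    linarith
  have hlim := FloorSemiring.tendsto_pow_div_factorial_atTop Lam
  have hev := (hlim.eventually (gt_mem_nhds hc0)).exists_forall_of_atTop
  obtain ⟨N, hN⟩ := hev
  refine ⟨2 * N + 1, ⟨N, rfl⟩, c, hc0, hc1, Real.exp Lam, Real.one_le_exp hLam0, ?_⟩
  intro p hpp hp
  have hsum : ∑ g ∈ RR p 0 k, beta g ≤ Lam := lbd0 hp k hk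
  have hb : ∀ g ∈ RR p 0 k, 0 ≤ beta g ∧ beta g ≤ 1 := fun g hg => by
    obtain ⟨h1, -, h2⟩ := PRT2_beta p k hp g hg
    exact ⟨h1.le, by linarith⟩
  have hJ : Odd (2 * N + 1) := ⟨N, rfl⟩
  have hsum0 : 0 ≤ ∑ g ∈ RR p 0 k, beta g := Finset.sum_nonneg (fun g hg => (hb g hg).1)
  refine ⟨PRT2_nonneg p k _ hJ _ hb, ?_, ?_⟩
  · rw [PRT2_eq]
    have h1 : ∏ g ∈ RR p 0 k, (1 - beta g) -
        (∑ g ∈ RR p 0 k, beta g) ^ (2 * N + 1 + 1) / (Nat.factorial (2 * N + 1 + 1)) ≤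
        PRT2_T p k (2 * N + 1) beta := by
      classical
      exact bnf_odd_lower (RR p 0 k) beta hb _ hJ
    have h2 : Real.exp (-2 * Lam) ≤ ∏ g ∈ RR p 0 k, (1 - beta g) := by
      calc Real.exp (-2 * Lam) ≤ Real.exp (-2 * ∑ g ∈ RR p 0 k, beta g) :=
            Real.exp_le_exp.2 (by linarith)
        _ = ∏ g ∈ RR p 0 k, Real.exp (-2 * beta g) := by
            rw [Finset.mul_sum, Real.exp_sum]
        _ ≤ ∏ g ∈ RR p 0 k, (1 - beta g) := by
            refine Finset.prod_le_prod (fun g _ => (Real.exp_pos _).le) (fun g hg => ?_)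
            obtain ⟨h3, -, h4⟩ := PRT2_beta p k hp g hg
            exact PRT2_exp _ h3.le h4
    have h5 : (∑ g ∈ RR p 0 k, beta g) ^ (2 * N + 1 + 1) / (Nat.factorial (2 * N + 1 + 1) : ℝ) ≤
        c := by
      refine le_trans ?_ (hN (2 * N + 1 + 1) (by omega)).le
      refine div_le_div_of_nonneg_right ?_ (Nat.cast_nonneg _)
      exact pow_le_pow_left₀ hsum0 hsum _
    have h6 : Real.exp (-2 * Lam) = 2 * c := by rw [hc]; ring
    linarith
  · rw [← Finset.prod_one_add]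
    calc ∏ g ∈ RR p 0 k, (1 + beta g) ≤ ∏ g ∈ RR p 0 k, Real.exp (beta g) := by
          refine Finset.prod_le_prod (fun g hg => by linarith [(hb g hg).1]) (fun g _ => ?_)
          have := Real.add_one_le_exp (beta g)
          linarith
      _ = Real.exp (∑ g ∈ RR p 0 k, beta g) := (Real.exp_sum _ _).symm
      _ ≤ Real.exp Lam := Real.exp_le_exp.2 hsum

theorem PRT2_ind_forall {ι : Type} [Fintype ι] (P : ι → Prop) :
    ind (∀ i, P i) ≤ ∏ i, ind (P i) := by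
  by_cases h : ∀ i, P i
  · rw [ind_true h, Finset.prod_congr rfl (fun i _ => ind_true (h i)), Finset.prod_const_one]
  · rw [ind_false h]
    exact Finset.prod_nonneg (fun i _ => ind_nonneg _)

theorem PRT2_primes (t P0 : ℕ) : ∃ p : Fin t → ℕ, Function.Injective p ∧
    ∀ i, (p i).Prime ∧ P0 ≤ p i := by
  refine ⟨fun i => Nat.nth Nat.Prime (P0 + i), ?_, ?_⟩
  · intro i j hij
    have h1 := (Nat.nth_strictMono Nat.infinite_setOfPred_prime).injective hij
    exact Fin.ext (by omega)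
  · intro i
    refine ⟨Nat.prime_nth_prime _, ?_⟩
    have h1 := (Nat.nth_strictMono Nat.infinite_setOfPred_prime).le_apply (x := P0 + (i : ℕ))
    exact (Nat.le_add_right _ _).trans h1

theorem part2 (k : ℕ) (hk : 1 ≤ k) (e : ℝ) (he : 0 < e) :
    ∃ (t : ℕ) (p : Fin t → ℕ) (_ : ∀ i, Fact (p i).Prime), ∃ n0 : ℕ, ∀ n : ℕ, n0 ≤ n →
      pr (fun b : Edge n → Bool => ∀ i, HasDeg k (adj (ZMod (p i)) b)) ≤ e := by
  classical
  obtain ⟨J, hJ, c, hc0, hc1, B, hB, hnum⟩ := p2_num k hk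
  obtain ⟨t, ht⟩ : ∃ t : ℕ, (1 - c) ^ t ≤ e / 3 := by
    obtain ⟨t, ht⟩ := exists_pow_lt_of_lt_one (show 0 < e / 3 by positivity)
      (show 1 - c < 1 by linarith)
    exact ⟨t, ht.le⟩
  have hBt : 0 < B ^ t := by positivity
  set W : ℝ := 2 * t * J * B ^ t with hW
  have hW0 : 0 ≤ W := by positivity
  obtain ⟨P0, hP0⟩ := exists_nat_ge (3 * W / e + 3)
  obtain ⟨p, hinj, hp⟩ := PRT2_primes t P0
  have hfact : ∀ i, Fact (p i).Prime := fun i => ⟨(hp i).1⟩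
  have hP03 : (3 : ℝ) ≤ P0 := by
    have : 0 ≤ 3 * W / e := by positivity
    linarith
  have hp3 : ∀ i, 3 ≤ p i := fun i => by
    have h1 : (3 : ℕ) ≤ P0 := by exact_mod_cast hP03
    exact h1.trans (hp i).2
  obtain ⟨theta, hth, c', hc', n0, hexpu⟩ := expu p (fun i => by have := hp3 i; omega) hinj
  -- thresholds
  obtain ⟨n1, hn1⟩ := exists_nat_ge ((J * k : ℝ) / theta)
  obtain ⟨n2, hn2⟩ : ∃ n2 : ℕ, ∀ n : ℕ, n2 ≤ n → Real.exp (-c' * n) * B ^ t ≤ e / 3 := by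
    have h1 : Filter.Tendsto (fun n : ℕ => Real.exp (-c' * n) * B ^ t) Filter.atTop (nhds 0) := by
      have h2 : Filter.Tendsto (fun n : ℕ => -c' * (n : ℝ)) Filter.atTop Filter.atBot :=
        Filter.Tendsto.const_mul_atTop_of_neg (by linarith) tendsto_natCast_atTop_atTop
      have h3 := (Real.tendsto_exp_atBot.comp h2).mul_const (B ^ t)
      rwa [zero_mul] at h3
    obtain ⟨N, hN⟩ := (h1.eventually (gt_mem_nhds (show 0 < e / 3 by positivity))).exists_forall_of_atTop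
    exact ⟨N, fun n hn => (hN n hn).le⟩
  refine ⟨t, p, hfact, max n0 (max n1 n2), ?_⟩
  intro n hn
  have hn0 : n0 ≤ n := (le_max_left _ _).trans hn
  have hn1' : n1 ≤ n := ((le_max_left _ _).trans (le_max_right _ _)).trans hn
  have hn2' : n2 ≤ n := ((le_max_right _ _).trans (le_max_right _ _)).trans hn
  have hJk : ((J * k : ℕ) : ℝ) ≤ theta * n := by
    push_cast
    have h1 : (n1 : ℝ) ≤ n := by exact_mod_cast hn1'
    have h2 := hn1.trans h1
    rw [div_le_iff₀ hth] at h2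
    linarith
  let τ : Fin t → Type := fun i =>
    {G : Finset (ZMod (p i))[X] // G ∈ (RR (p i) 0 k).powerset.filter
      (fun G => 1 ≤ G.card ∧ G.card ≤ J)}
  let instF : ∀ i, Fintype (τ i) := fun i => Finset.fintypeCoeSort _
  let co : ∀ i, τ i → ℝ := fun i G => (-1 : ℝ) ^ (G.1.card + 1)
  let H : ∀ i, τ i → Finset (ZMod (p i))[X] := fun i G => G.1
  have hmem : ∀ i (G : τ i), G.1 ⊆ RR (p i) 0 k ∧ G.1.card ≤ J := by
    intro i G
    have h1 := G.2
    rw [Finset.mem_filter, Finset.mem_powerset] at h1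
    exact ⟨h1.1, h1.2.2⟩
  have hP01 : (0 : ℝ) < (P0 : ℝ) - 1 := by linarith
  have hbeta : ∀ i (G : τ i), ∀ g ∈ G.1, 0 ≤ beta g ∧ beta g ≤ 1 / ((P0 : ℝ) - 1) := by
    intro i G g hg
    obtain ⟨h1, h2, -⟩ := PRT2_beta (p i) k (hp3 i) g ((hmem i G).1 hg)
    refine ⟨h1.le, h2.trans ?_⟩
    have h3 : (P0 : ℝ) ≤ p i := by exact_mod_cast (hp i).2
    exact one_div_le_one_div_of_le hP01 (by linarith)
  have key := hexpu n hn0 τ co H (2 * t * J / ((P0 : ℝ) - 1) + Real.exp (-c' * n))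
    (fun i G g hg => by
      have h1 := (mem_rr g).1 ((hmem i G).1 hg)
      exact ⟨h1.1, h1.2.1⟩)
    (fun i G => by
      refine le_trans ?_ hJk
      have h1 : ∑ g ∈ H i G, g.natDegree ≤ J * k := by
        calc ∑ g ∈ H i G, g.natDegree ≤ ∑ _g ∈ H i G, k :=
              Finset.sum_le_sum (fun g hg => ((mem_rr g).1 ((hmem i G).1 hg)).2.2.2)
          _ = (H i G).card * k := by rw [Finset.sum_const, smul_eq_mul]
          _ ≤ J * k := Nat.mul_le_mul_right _ (hmem i G).2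
      exact_mod_cast h1)
    (fun G => by
      have h1 : ∑ i, ∑ g ∈ H i (G i), beta g ≤ t * (J * (1 / ((P0 : ℝ) - 1))) := by
        calc ∑ i, ∑ g ∈ H i (G i), beta g ≤ ∑ _i : Fin t, (J * (1 / ((P0 : ℝ) - 1))) := by
              refine Finset.sum_le_sum (fun i _ => ?_)
              calc ∑ g ∈ H i (G i), beta g ≤ ∑ _g ∈ H i (G i), 1 / ((P0 : ℝ) - 1) :=
                    Finset.sum_le_sum (fun g hg => (hbeta i (G i) g hg).2)
                _ = (H i (G i)).card * (1 / ((P0 : ℝ) - 1)) := by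
                    rw [Finset.sum_const, nsmul_eq_mul]
                _ ≤ J * (1 / ((P0 : ℝ) - 1)) := by
                    refine mul_le_mul_of_nonneg_right ?_ (by positivity)
                    exact_mod_cast (hmem i (G i)).2
          _ = t * (J * (1 / ((P0 : ℝ) - 1))) := by
              rw [Finset.sum_const, Finset.card_univ, Fintype.card_fin, nsmul_eq_mul]
      have h2 : 2 * (t * (J * (1 / ((P0 : ℝ) - 1)))) = 2 * t * J / ((P0 : ℝ) - 1) := by
        ring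
      linarith)
  -- identify the sums
  have hG2 : ∀ i (x : (ZMod (p i))[X] → ℝ), ∑ G : τ i, co i G * ∏ g ∈ H i G, x g =
      G2F (p i) k J x := by
    intro i x
    unfold G2F
    exact Finset.sum_coe_sort ((RR (p i) 0 k).powerset.filter
      (fun G => 1 ≤ G.card ∧ G.card ≤ J)) (fun G => (-1 : ℝ) ^ (G.card + 1) * ∏ g ∈ G, x g)
  have habs : ∀ i, ∑ G : τ i, |co i G| * ∏ g ∈ H i G, beta g ≤ B := by
    intro i
    have h1 : ∀ G : τ i, |co i G| * ∏ g ∈ H i G, beta g = ∏ g ∈ G.1, beta g := by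
      intro G
      show |(-1 : ℝ) ^ (G.1.card + 1)| * ∏ g ∈ G.1, beta g = _
      rw [abs_pow, abs_neg, abs_one, one_pow, one_mul]
    rw [Finset.sum_congr rfl (fun G _ => h1 G)]
    have h2 := Finset.sum_coe_sort ((RR (p i) 0 k).powerset.filter
      (fun G => 1 ≤ G.card ∧ G.card ≤ J)) (fun G => ∏ g ∈ G, beta g)
    refine le_trans (le_of_eq h2) ?_
    refine le_trans ?_ (hnum (p i) (hp3 i)).2.2
    refine Finset.sum_le_sum_of_subset_of_nonneg (Finset.filter_subset _ _) (fun G hG _ => ?_)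
    rw [Finset.mem_powerset] at hG
    exact Finset.prod_nonneg (fun g hg => (PRT2_beta (p i) k (hp3 i) g (hG hg)).1.le)
  have habs0 : ∀ i, 0 ≤ ∑ G : τ i, |co i G| * ∏ g ∈ H i G, beta g := by
    intro i
    refine Finset.sum_nonneg (fun G _ => mul_nonneg (abs_nonneg _) ?_)
    exact Finset.prod_nonneg (fun g hg => (hbeta i G g hg).1)
  have h1 : pr (fun b : Edge n → Bool => ∀ i, HasDeg k (adj (ZMod (p i)) b)) ≤
      avg (fun b : Edge n → Bool => ∏ i, ∑ G : τ i, co i G *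
        ∏ g ∈ H i G, BB g (adj (ZMod (p i)) b)) := by
    refine avg_mono (fun b => ?_)
    refine (PRT2_ind_forall _).trans ?_
    refine Finset.prod_le_prod (fun i _ => ind_nonneg _) (fun i _ => ?_)
    rw [hG2 i]
    exact p2_det k J hk hJ _
  have h2 : ∏ i, ∑ G : τ i, co i G * ∏ g ∈ H i G, beta g ≤ (1 - c) ^ t := by
    calc ∏ i, ∑ G : τ i, co i G * ∏ g ∈ H i G, beta g ≤ ∏ _i : Fin t, (1 - c) := by
          refine Finset.prod_le_prod (fun i _ => ?_) (fun i _ => ?_)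
          · rw [hG2 i]; exact (hnum (p i) (hp3 i)).1
          · rw [hG2 i]; exact (hnum (p i) (hp3 i)).2.1
      _ = (1 - c) ^ t := by
          rw [Finset.prod_const, Finset.card_univ, Fintype.card_fin]
  have h3 : ∏ i, ∑ G : τ i, |co i G| * ∏ g ∈ H i G, beta g ≤ B ^ t := by
    calc ∏ i, ∑ G : τ i, |co i G| * ∏ g ∈ H i G, beta g ≤ ∏ _i : Fin t, B :=
          Finset.prod_le_prod (fun i _ => habs0 i) (fun i _ => habs i)
      _ = B ^ t := by
          rw [Finset.prod_const, Finset.card_univ, Fintype.card_fin]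
  have heta0 : 0 ≤ 2 * t * J / ((P0 : ℝ) - 1) + Real.exp (-c' * n) := by
    have := Real.exp_pos (-c' * n)
    have h5 : 0 ≤ 2 * t * J / ((P0 : ℝ) - 1) := by positivity
    linarith
  have h4 : (2 * t * J / ((P0 : ℝ) - 1) + Real.exp (-c' * n)) * B ^ t ≤ e / 3 + e / 3 := by
    rw [add_mul]
    refine add_le_add ?_ (hn2 n hn2')
    have h5 : 2 * t * J / ((P0 : ℝ) - 1) * B ^ t = W / ((P0 : ℝ) - 1) := by
      rw [hW]
      ring
    rw [h5, div_le_iff₀ hP01]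
    have h6 : 3 * W / e ≤ (P0 : ℝ) - 1 := by linarith
    rw [div_le_iff₀ he] at h6
    nlinarith
  have h5 := (abs_le.1 key).2
  have h6 := mul_le_mul_of_nonneg_left h3 heta0
  linarith

end Pool.H64.IR

end S_PRT2

section S_TAB

/-! MODULE TAB (project MP_a758cf_pr, IR; overview: team-store H64_a758cf.md)
T-A in bits form. theta, D0 from part1 applied to the first 250 odd primes (Nat.nth Nat.Prime (i+1), i : Fin 250). Given e > 0 choose D1 >= D0 with sum_{k >= D1} 1/k^2 <= e/2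
(e.g. <= 1/(D1-1)), and for 1 <= k < D1 use part2 with e/(2 D1). Union bound over k (pr_exists_le), red gives HasDeg k modulo all primes.
-/

set_option autoImplicit false

namespace Pool.H64.IR

open Finset Polynomial

lemma TAB_tail (D1 N : ℕ) (hD : 2 ≤ D1) : ∑ k ∈ Finset.Ico D1 (D1 + N), (1 : ℝ) / (k : ℝ) ^ 2 ≤ 1 / ((D1 : ℝ) - 1) := by
  have hD' : (2 : ℝ) ≤ D1 := by exact_mod_cast hD
  have key : ∑ k ∈ Finset.Ico D1 (D1 + N), (1 : ℝ) / (k : ℝ) ^ 2 ≤ 1 / ((D1 : ℝ) - 1) - 1 / ((D1 + N : ℝ) - 1) := by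
    induction N with
    | zero => simp
    | succ N ih =>
      rw [← add_assoc, Finset.sum_Ico_succ_top (by omega)]
      have h1 : (1 : ℝ) / ((D1 + N : ℕ) : ℝ) ^ 2 ≤ 1 / ((D1 + N : ℝ) - 1) - 1 / ((D1 + (N + 1 : ℕ) : ℝ) - 1) := by
        push_cast
        have h2 : (0 : ℝ) ≤ N := Nat.cast_nonneg N
        set x : ℝ := (D1 : ℝ) + N with hx
        have hx2 : 2 ≤ x := by linarith
        have h3 : (D1 : ℝ) + (N + 1) - 1 = x := by rw [hx]; ring
        rw [h3, div_sub_div _ _ (by linarith) (by linarith), div_le_div_iff₀ (by positivity) (by nlinarith)]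
        nlinarith
      push_cast at h1 ⊢
      push_cast at ih
      linarith
  refine key.trans ?_
  have h2 : (0 : ℝ) ≤ N := Nat.cast_nonneg N
  have : (0 : ℝ) ≤ 1 / ((D1 + N : ℝ) - 1) := by
    apply div_nonneg zero_le_one; linarith
  linarith

theorem ta_bits : ∃ theta : ℝ, 0 < theta ∧ ∀ e : ℝ, 0 < e → ∃ n0 : ℕ, ∀ n : ℕ, n0 ≤ n →
    pr (fun b : Edge n → Bool => ∃ g : ℚ[X], g ∣ (adj ℚ b).charpoly ∧ 1 ≤ g.natDegree ∧ (g.natDegree : ℝ) ≤ theta * n) ≤ e := by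
  classical
  -- the first 250 odd primes
  let p : Fin 250 → ℕ := fun i => Nat.nth Nat.Prime (i + 1)
  haveI hpf : ∀ i, Fact (p i).Prime := fun i => ⟨Nat.prime_nth_prime _⟩
  have hinj : Function.Injective p := by
    intro i j hij
    have h1 := (Nat.nth_strictMono Nat.infinite_setOf_prime).injective hij
    exact Fin.ext (by omega)
  have hp2 : ∀ i, p i ≠ 2 := by
    intro i h
    have h0 : Nat.nth Nat.Prime 0 = 2 := Nat.nth_prime_zero_eq_two
    have h1 : Nat.nth Nat.Prime (i + 1) = Nat.nth Nat.Prime 0 := by rw [h0]; exact h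
    have h2 := (Nat.nth_strictMono Nat.infinite_setOf_prime).injective h1
    omega
  obtain ⟨theta, hth, D0, n0, h1⟩ := part1 (by simp) p hp2 hinj
  refine ⟨theta, hth, fun e he => ?_⟩
  -- threshold D1
  obtain ⟨D1', hD1'⟩ := exists_nat_ge (2 / e + 1)
  set D1 : ℕ := max D0 (max D1' 2) with hD1
  have hD1a : D0 ≤ D1 := le_max_left _ _
  have hD1b : D1' ≤ D1 := (le_max_left _ _).trans (le_max_right _ _)
  have hD1c : 2 ≤ D1 := (le_max_right _ _).trans (le_max_right _ _)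
  have hD1r : (2 : ℝ) ≤ D1 := by exact_mod_cast hD1c
  have hD1e : 1 / ((D1 : ℝ) - 1) ≤ e / 2 := by
    have h2 : (D1' : ℝ) ≤ D1 := by exact_mod_cast hD1b
    rw [div_le_div_iff₀ (by linarith) (by norm_num)]
    have h3 : 2 / e ≤ (D1 : ℝ) - 1 := by linarith
    rw [div_le_iff₀ he] at h3
    linarith
  have he1 : 0 < e / (2 * D1) := by positivity
  -- small degrees
  have hsmall : ∀ k : ℕ, 1 ≤ k → ∃ nk : ℕ, ∀ n : ℕ, nk ≤ n →
      pr (fun b : Edge n → Bool => ∃ g : ℚ[X], g ∣ (adj ℚ b).charpoly ∧ g.natDegree = k) ≤ e / (2 * D1) := by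
    intro k hk
    obtain ⟨t, q, hq, nk, hnk⟩ := part2 k hk (e / (2 * D1)) he1
    refine ⟨nk, fun n hn => (pr_mono ?_).trans (hnk n hn)⟩
    rintro b ⟨g, hg, hgk⟩ i
    obtain ⟨f, hf1, hf2, hf3⟩ := red b g hg (q i)
    exact ⟨f, hf1, hf2.trans hgk, hf3⟩
  choose! nk hnk using hsmall
  refine ⟨max n0 ((Finset.range D1).sup nk), fun n hn => ?_⟩
  have hn0 : n0 ≤ n := (le_max_left _ _).trans hn
  have hnk' : ∀ k, k < D1 → nk k ≤ n := fun k hk =>
    (Finset.le_sup (f := nk) (Finset.mem_range.2 hk)).trans ((le_max_right _ _).trans hn)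
  -- large degrees
  have hlarge : ∀ k : ℕ, D1 ≤ k →
      pr (fun b : Edge n → Bool => (∃ g : ℚ[X], g ∣ (adj ℚ b).charpoly ∧ g.natDegree = k) ∧ (k : ℝ) ≤ theta * n) ≤ 1 / (k : ℝ) ^ 2 := by
    intro k hk
    by_cases hkt : (k : ℝ) ≤ theta * n
    · refine (pr_mono ?_).trans (h1 n k hn0 (hD1a.trans hk) hkt)
      rintro b ⟨⟨g, hg, hgk⟩, -⟩ i
      obtain ⟨f, hf1, hf2, hf3⟩ := red b g hg (p i)
      exact ⟨f, hf1, hf2.trans hgk, hf3⟩
    · have : pr (fun b : Edge n → Bool => (∃ g : ℚ[X], g ∣ (adj ℚ b).charpoly ∧ g.natDegree = k) ∧ (k : ℝ) ≤ theta * n) = 0 := by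
        unfold pr avg
        rw [Finset.sum_eq_zero, zero_div]
        intro b _
        exact ind_false (fun h => hkt h.2)
      rw [this]; positivity
  -- degrees are at most n
  have hsplit : ∀ b : Edge n → Bool,
      (∃ g : ℚ[X], g ∣ (adj ℚ b).charpoly ∧ 1 ≤ g.natDegree ∧ (g.natDegree : ℝ) ≤ theta * n) →
      (∃ k ∈ Finset.Ico 1 D1, ∃ g : ℚ[X], g ∣ (adj ℚ b).charpoly ∧ g.natDegree = k) ∨
      (∃ k ∈ Finset.Ico D1 (D1 + n), (∃ g : ℚ[X], g ∣ (adj ℚ b).charpoly ∧ g.natDegree = k) ∧ (k : ℝ) ≤ theta * n) := by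
    rintro b ⟨g, hg, hg1, hg2⟩
    by_cases hk : g.natDegree < D1
    · exact Or.inl ⟨g.natDegree, Finset.mem_Ico.2 ⟨hg1, hk⟩, g, hg, rfl⟩
    · refine Or.inr ⟨g.natDegree, Finset.mem_Ico.2 ⟨not_lt.1 hk, ?_⟩, ⟨g, hg, rfl⟩, hg2⟩
      have h3 : g.natDegree ≤ (adj ℚ b).charpoly.natDegree :=
        Polynomial.natDegree_le_of_dvd hg (Matrix.charpoly_monic _).ne_zero
      rw [Matrix.charpoly_natDegree_eq_dim, Fintype.card_fin] at h3
      omega
  refine (pr_mono hsplit).trans ((pr_or_le _ _).trans ?_)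
  have hA : pr (fun b : Edge n → Bool => ∃ k ∈ Finset.Ico 1 D1, ∃ g : ℚ[X], g ∣ (adj ℚ b).charpoly ∧ g.natDegree = k) ≤ e / 2 := by
    refine (pr_exists_le _ _).trans ?_
    calc ∑ k ∈ Finset.Ico 1 D1, pr (fun b : Edge n → Bool => ∃ g : ℚ[X], g ∣ (adj ℚ b).charpoly ∧ g.natDegree = k)
        ≤ ∑ _k ∈ Finset.Ico 1 D1, e / (2 * D1) := by
          refine Finset.sum_le_sum fun k hk => ?_
          obtain ⟨hk1, hk2⟩ := Finset.mem_Ico.1 hk
          exact hnk k hk1 n (hnk' k hk2)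
      _ = (D1 - 1 : ℕ) * (e / (2 * D1)) := by rw [Finset.sum_const, Nat.card_Ico, nsmul_eq_mul]
      _ ≤ (D1 : ℝ) * (e / (2 * D1)) := by
          refine mul_le_mul_of_nonneg_right ?_ he1.le
          exact_mod_cast Nat.sub_le D1 1
      _ = e / 2 := by field_simp
  have hB : pr (fun b : Edge n → Bool => ∃ k ∈ Finset.Ico D1 (D1 + n), (∃ g : ℚ[X], g ∣ (adj ℚ b).charpoly ∧ g.natDegree = k) ∧ (k : ℝ) ≤ theta * n) ≤ e / 2 := by
    refine (pr_exists_le _ _).trans ?_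
    refine (Finset.sum_le_sum fun k hk => hlarge k (Finset.mem_Ico.1 hk).1).trans ?_
    exact (TAB_tail D1 n hD1c).trans hD1e
  linarith

end Pool.H64.IR

end S_TAB
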