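import Mathlib
import Pool.Agent.H64.IRL.L7
import Pool.Agent.H64.IRL.L8

set_option autoImplicit false

/-! Characteristic polynomial of G(n,1/2), part L9: this file joins several modules to save build time. -/

section S_TBB

/-! MODULE TBB (project MP_a758cf_pr, IR; overview: team-store H64_a758cf.md)
T-B in bits form. theta from ta_bits, t = min(theta,1/2). P = monic irreducible g over ZMod 2 with (1-t) n/2 < deg g = k <= (1-t/2) n/2 (RR 2 k1 k2), n large; so 4k > n, 2k+2 <= n.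
(i) the events g | charpoly, g in P, are disjoint: two of them would give g^2 g'^2 | charpoly (sq2), 2(k+k') <= n, but k + k' > (1-t) n >= n/2. So pr(some g in P divides) = sum pr(g | charpoly) >= sum_k card(Irr 2 k)/(2 2^k) (b5_lower)
>= sum_k (1/(2k))(1 - 2 2^(-k/2)) (irc_lower) >= t/16 =: 4c0 for n large (the number of k is >= t n/4 - 1 and 1/k >= 2/n).
(ii) pr(exists g in P with kerc g >= q^2) <= sum_k (2^k/k) 2/8^k -> 0 (b5_pr2, irc_upper); (iii) pr(exists g in P, Bad4 g and kerc g = q) <= sum_k (2^k/k) e/2^k <= e sum_{n/4<=k<=n/2} 1/k <= 2e (btm);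
(iv) pr(rational factor of degree in [1, theta n]) <= e (ta_bits).
If (i) holds and (ii)-(iv) fail then charpoly over ℚ is irreducible: otherwise it has a factor g1 with 1 <= deg < n; red_int: monic f1 | charpoly over ℤ, f2 = cofactor, both of degree >= 1; mod 2 g^2 | f1 f2 (sq2), kerc g = q^m with m >= 1, not >= q^2, so = q
(ker_pow). If g | f1 and g | f2 mod 2: Bad4. Otherwise g^2 divides one of them, whose degree is >= 2k > (1-t)n, and the other one has degree in [1, t n]: contradiction with (iv) (as a divisor over ℚ).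
-/

set_option autoImplicit false

namespace Pool.H64.IR

open Finset Polynomial

theorem tbb_adj {n : ℕ} (b : Edge n → Bool) (R : Type) [CommRing R] :
    adj R b = (adj ℤ b).map (Int.castRingHom R) := by
  ext i j
  simp only [adj, Matrix.map_apply, Matrix.of_apply]
  split_ifs <;> simp

theorem tbb_map {n : ℕ} (b : Edge n → Bool) (R : Type) [CommRing R] :
    (adj R b).charpoly = (adj ℤ b).charpoly.map (Int.castRingHom R) := by
  rw [tbb_adj b R, Matrix.charpoly_map]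

theorem tbb_side {n : ℕ} (b : Edge n → Bool) (t theta : ℝ) (ht : t ≤ theta) (g : (ZMod 2)[X])
    (hi : Irreducible g) (hlow : (1 - t) * n < 2 * g.natDegree)
    (hsq : g ^ 2 ∣ (adj (ZMod 2) b).charpoly) (f1 f2 : ℤ[X]) (hf1 : f1.Monic) (hf2 : f2.Monic)
    (hprod : f1 * f2 = (adj ℤ b).charpoly) (hd : f2.natDegree ≠ 0)
    (hnd : ¬ g ∣ f2.map (Int.castRingHom (ZMod 2))) :
    ∃ r : ℚ[X], r ∣ (adj ℚ b).charpoly ∧ 1 ≤ r.natDegree ∧ (r.natDegree : ℝ) ≤ theta * n := by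
  have hsum : f1.natDegree + f2.natDegree = n := by
    rw [← hf1.natDegree_mul hf2, hprod, Matrix.charpoly_natDegree_eq_dim, Fintype.card_fin]
  rw [tbb_map b (ZMod 2), ← hprod, Polynomial.map_mul] at hsq
  have hcop : IsCoprime (g ^ 2) (f2.map (Int.castRingHom (ZMod 2))) :=
    ((hi.coprime_iff_not_dvd).2 hnd).pow_left
  have h1 : g ^ 2 ∣ f1.map (Int.castRingHom (ZMod 2)) := hcop.dvd_of_dvd_mul_right hsq
  have h2 : 2 * g.natDegree ≤ f1.natDegree := by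
    have h3 := Polynomial.natDegree_le_of_dvd h1 (hf1.map _).ne_zero
    rw [hf1.natDegree_map, Polynomial.natDegree_pow] at h3
    exact h3
  have h2' : (2 * g.natDegree : ℝ) ≤ (f1.natDegree : ℝ) := by exact_mod_cast h2
  have hsum' : (f1.natDegree : ℝ) + (f2.natDegree : ℝ) = n := by exact_mod_cast hsum
  have hn0 : (0 : ℝ) ≤ n := Nat.cast_nonneg n
  refine ⟨f2.map (Int.castRingHom ℚ), ?_, ?_, ?_⟩
  · rw [tbb_map b ℚ, ← hprod, Polynomial.map_mul]
    exact Dvd.intro_left _ rfl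
  · rw [hf2.natDegree_map]
    omega
  · rw [hf2.natDegree_map]
    have h4 : t * n ≤ theta * n := mul_le_mul_of_nonneg_right ht hn0
    nlinarith

theorem tbb_det {n : ℕ} (b : Edge n → Bool) (t theta : ℝ) (ht : t ≤ theta) (hn : 1 ≤ n)
    (g : (ZMod 2)[X]) (hg : g.Monic) (hi : Irreducible g) (hk2 : 2 ≤ g.natDegree)
    (hlow : (1 - t) * n < 2 * g.natDegree) (h1 : g ∣ (adj (ZMod 2) b).charpoly)
    (h2 : ¬ ((2 : ℝ) ^ g.natDegree) ^ 2 ≤ kerc g (adj (ZMod 2) b))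
    (h3 : ¬ (Bad4 g b ∧ kerc g (adj (ZMod 2) b) = (2 : ℝ) ^ g.natDegree))
    (h4 : ¬ ∃ r : ℚ[X], r ∣ (adj ℚ b).charpoly ∧ 1 ≤ r.natDegree ∧ (r.natDegree : ℝ) ≤ theta * n) :
    Irreducible (adj ℚ b).charpoly := by
  by_contra hirr
  have hmon : (adj ℤ b).charpoly.Monic := Matrix.charpoly_monic _
  have hdeg : (adj ℤ b).charpoly.natDegree = n := by
    rw [Matrix.charpoly_natDegree_eq_dim, Fintype.card_fin]
  rw [tbb_map b ℚ, ← Polynomial.IsPrimitive.Int.irreducible_iff_irreducible_map_cast hmon.isPrimitive,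
    hmon.irreducible_iff_natDegree] at hirr
  push Not at hirr
  have hne1 : (adj ℤ b).charpoly ≠ 1 := by
    intro h
    rw [h, Polynomial.natDegree_one] at hdeg
    omega
  obtain ⟨f1, f2, hf1, hf2, hprod, hd1, hd2⟩ := hirr hne1
  have hsq := sq2 b g hi hk2 h1
  obtain ⟨m, hm, hm0⟩ := ker_pow g hg hi (adj (ZMod 2) b)
  rw [Nat.cast_ofNat] at hm
  have hm1 : m ≠ 0 := fun h => (hm0.1 h) h1
  have hq1 : (1 : ℝ) ≤ (2 : ℝ) ^ g.natDegree := one_le_pow₀ (by norm_num)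
  have hm2 : ¬ 2 ≤ m := by
    intro h
    apply h2
    rw [hm]
    exact pow_le_pow_right₀ hq1 h
  have hm3 : m = 1 := by omega
  rw [hm3, pow_one] at hm
  by_cases hA : g ∣ f2.map (Int.castRingHom (ZMod 2))
  · by_cases hB : g ∣ f1.map (Int.castRingHom (ZMod 2))
    · exact h3 ⟨⟨f1, f2, hprod, hB, hA⟩, hm⟩
    · exact h4 (tbb_side b t theta ht g hi hlow hsq f2 f1 hf2 hf1 (by rw [mul_comm]; exact hprod) hd1 hB)
  · exact h4 (tbb_side b t theta ht g hi hlow hsq f1 f2 hf1 hf2 hprod hd2 hA)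

/-- two large irreducible factors are impossible -/
theorem tbb_disj {n : ℕ} (b : Edge n → Bool) (g g' : (ZMod 2)[X]) (hg : g.Monic) (hg' : g'.Monic)
    (hi : Irreducible g) (hi' : Irreducible g') (hk : 2 ≤ g.natDegree) (hk' : 2 ≤ g'.natDegree)
    (hn : n < 4 * g.natDegree) (hn' : n < 4 * g'.natDegree)
    (h : g ∣ (adj (ZMod 2) b).charpoly) (h' : g' ∣ (adj (ZMod 2) b).charpoly) : g = g' := by
  by_contra hne
  have h1 : ¬ g ∣ g' := by
    intro hd
    exact hne (Polynomial.eq_of_monic_of_associated hg hg' (hi.associated_of_dvd hi' hd))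
  have h2 : IsCoprime (g ^ 2) (g' ^ 2) := ((hi.coprime_iff_not_dvd).2 h1).pow
  have h3 := h2.mul_dvd (sq2 b g hi hk h) (sq2 b g' hi' hk' h')
  have h4 := Polynomial.natDegree_le_of_dvd h3 (Matrix.charpoly_monic _).ne_zero
  rw [Matrix.charpoly_natDegree_eq_dim, Fintype.card_fin, (hg.pow 2).natDegree_mul (hg'.pow 2),
    Polynomial.natDegree_pow, Polynomial.natDegree_pow] at h4
  omega

theorem tbb_sqrt (m : ℕ) (hm : 4 ≤ m) : Real.sqrt 2 ^ m ≤ 2 ^ m / 4 := by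
  have h0 : (0 : ℝ) < Real.sqrt 2 := Real.sqrt_pos.2 (by norm_num)
  have h1 : Real.sqrt 2 ^ m * Real.sqrt 2 ^ m = 2 ^ m := by
    rw [← mul_pow, Real.mul_self_sqrt (by norm_num)]
  have h2 : (1 : ℝ) ≤ Real.sqrt 2 := by
    rw [Real.one_le_sqrt]; norm_num
  have h3 : Real.sqrt 2 ^ 4 ≤ Real.sqrt 2 ^ m := pow_le_pow_right₀ h2 hm
  have h4 : Real.sqrt 2 ^ 4 = 4 := by
    have : Real.sqrt 2 ^ 4 = (Real.sqrt 2 ^ 2) ^ 2 := by ring
    rw [this, Real.sq_sqrt (by norm_num)]; norm_num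
  rw [h4] at h3
  have h5 : 0 < Real.sqrt 2 ^ m := by positivity
  nlinarith

theorem tbb_irr_lower (m : ℕ) (hm : 4 ≤ m) :
    1 / (4 * (m : ℝ)) ≤ ((Irr 2 m).card : ℝ) * (1 / (2 * 2 ^ m)) := by
  have h1 := irc_lower 2 m (by omega)
  rw [Nat.cast_ofNat] at h1
  have h2 := tbb_sqrt m hm
  have hm0 : (0 : ℝ) < m := by
    have : 0 < m := by omega
    exact_mod_cast this
  have hp : (0 : ℝ) < 2 ^ m := by positivity
  rw [mul_one_div, div_le_div_iff₀ (by positivity) (by positivity)]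
  nlinarith

theorem tbb_irr_upper (m : ℕ) (hm : 1 ≤ m) : ((Irr 2 m).card : ℝ) ≤ 2 ^ m / m := by
  have h1 := irc_upper 2 m
  rw [Nat.cast_ofNat] at h1
  have hm0 : (0 : ℝ) < m := by exact_mod_cast hm
  rw [le_div_iff₀ hm0, mul_comm]
  exact h1

theorem tbb_sum (k1 k2 : ℕ) (φ : ℕ → ℝ) :
    ∑ g ∈ RR 2 k1 k2, φ g.natDegree = ∑ m ∈ Finset.Ioc k1 k2, ((Irr 2 m).card : ℝ) * φ m := by
  rw [sum_rr (fun g => φ g.natDegree)]
  refine Finset.sum_congr rfl fun m _ => ?_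
  rw [Finset.sum_congr rfl (fun g hg => by rw [((mem_irr g).1 hg).2.2] : ∀ g ∈ Irr 2 m, φ g.natDegree = φ m),
    Finset.sum_const, nsmul_eq_mul]

theorem tb_bits : ∃ c : ℝ, 0 < c ∧ ∃ n0 : ℕ, ∀ n : ℕ, n0 ≤ n →
    c ≤ pr (fun b : Edge n → Bool => Irreducible (adj ℚ b).charpoly) := by
  obtain ⟨theta, hth, hta⟩ := ta_bits
  obtain ⟨t, ht⟩ : ∃ t, t = min theta (1 / 2) := ⟨_, rfl⟩
  have ht0 : 0 < t := by rw [ht]; exact lt_min hth (by norm_num)
  have ht1 : t ≤ 1 / 2 := by rw [ht]; exact min_le_right _ _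
  have htt : t ≤ theta := by rw [ht]; exact min_le_left _ _
  obtain ⟨n1, hn1⟩ := hta (t / 128) (by positivity)
  obtain ⟨n2, hn2⟩ := btm (t / 2) (t / 256) (by positivity) (by positivity)
  obtain ⟨N3, hN3⟩ := exists_nat_ge (2048 / t)
  refine ⟨t / 32, by positivity, max n1 (max n2 (max N3 1)), fun n hn => ?_⟩
  have hnn1 : n1 ≤ n := (le_max_left _ _).trans hn
  have hnn2 : n2 ≤ n := (le_max_left _ _).trans ((le_max_right _ _).trans hn)
  have hnn3 : N3 ≤ n := (le_max_left _ _).trans ((le_max_right _ _).trans ((le_max_right _ _).trans hn))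
  have hnn4 : 1 ≤ n := (le_max_right _ _).trans ((le_max_right _ _).trans ((le_max_right _ _).trans hn))
  have hnr : 2048 / t ≤ (n : ℝ) := hN3.trans (by exact_mod_cast hnn3)
  have hn0 : (0 : ℝ) < n := by exact_mod_cast hnn4
  have htn : 2048 ≤ t * n := by
    rw [div_le_iff₀ ht0] at hnr
    linarith
  have hn2048 : 4096 ≤ (n : ℝ) := by nlinarith
  have ha0 : 0 ≤ (1 - t) * n / 2 := by
    have : 0 ≤ (1 - t) * (n : ℝ) := mul_nonneg (by linarith) hn0.le
    linarith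
  have hb0 : 0 ≤ (1 - t / 2) * n / 2 := by
    have : 0 ≤ (1 - t / 2) * (n : ℝ) := mul_nonneg (by linarith) hn0.le
    linarith
  obtain ⟨k1, hk1⟩ : ∃ k, k = ⌊(1 - t) * n / 2⌋₊ := ⟨_, rfl⟩
  obtain ⟨k2, hk2⟩ : ∃ k, k = ⌊(1 - t / 2) * n / 2⌋₊ := ⟨_, rfl⟩
  have hlow : ∀ m : ℕ, k1 < m → (1 - t) * n / 2 < m := by
    intro m hm
    rw [hk1] at hm
    exact (Nat.floor_lt ha0).1 hm
  have hupp : ∀ m : ℕ, m ≤ k2 → (m : ℝ) ≤ (1 - t / 2) * n / 2 := by
    intro m hm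
    rw [hk2] at hm
    exact (Nat.le_floor_iff hb0).1 hm
  have hm4 : ∀ m : ℕ, k1 < m → n < 4 * m := by
    intro m hm
    have h1 := hlow m hm
    have h2 : (n : ℝ) < 4 * m := by nlinarith
    exact_mod_cast h2
  have hm3 : ∀ m : ℕ, k1 < m → 4 ≤ m := by
    intro m hm
    have h1 : (n : ℝ) < 4 * m := by exact_mod_cast hm4 m hm
    have h2 : (4 : ℝ) ≤ m := by linarith
    exact_mod_cast h2
  have hmn : ∀ m : ℕ, m ≤ k2 → 2 * m + 2 ≤ n := by
    intro m hm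
    have h1 := hupp m hm
    have h2 : (2 * m + 2 : ℝ) ≤ n := by nlinarith
    exact_mod_cast h2
  have hcount1 : t * n / 8 ≤ ((k2 : ℝ) - k1) := by
    have h1 : (1 - t / 2) * n / 2 < k2 + 1 := by rw [hk2]; exact Nat.lt_floor_add_one _
    have h2 : (k1 : ℝ) ≤ (1 - t) * n / 2 := by rw [hk1]; exact Nat.floor_le ha0
    nlinarith
  have hcount2 : (k2 : ℝ) ≤ n / 2 := by
    have h1 := hupp k2 le_rfl
    nlinarith
  have hk12 : k1 ≤ k2 := by
    have h1 : (k1 : ℝ) ≤ k2 := by nlinarith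
    exact_mod_cast h1
  have hcardI : ((Finset.Ioc k1 k2).card : ℝ) = (k2 : ℝ) - k1 := by
    rw [Nat.card_Ioc, Nat.cast_sub hk12]
  -- membership facts
  have hP : ∀ g ∈ RR 2 k1 k2, g.Monic ∧ Irreducible g ∧ k1 < g.natDegree ∧ g.natDegree ≤ k2 :=
    fun g hg => (mem_rr g).1 hg
  -- probability that some g divides
  have hF : t / 16 ≤ pr (fun b : Edge n → Bool => ∃ g ∈ RR 2 k1 k2, g ∣ (adj (ZMod 2) b).charpoly) := by
    have h1 : ∑ g ∈ RR 2 k1 k2, pr (fun b : Edge n → Bool => g ∣ (adj (ZMod 2) b).charpoly) ≤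
        pr (fun b : Edge n → Bool => ∃ g ∈ RR 2 k1 k2, g ∣ (adj (ZMod 2) b).charpoly) := by
      unfold pr
      rw [← avg_sum]
      refine avg_mono fun b => ?_
      by_cases hex : ∃ g ∈ RR 2 k1 k2, g ∣ (adj (ZMod 2) b).charpoly
      · rw [ind_true hex]
        obtain ⟨g, hg, hgd⟩ := hex
        rw [Finset.sum_eq_single_of_mem g hg]
        · exact ind_le_one _
        · intro g' hg' hne
          refine ind_false fun hgd' => hne ?_
          obtain ⟨a1, a2, a3, _⟩ := hP g hg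
          obtain ⟨b1, b2, b3, _⟩ := hP g' hg'
          exact tbb_disj b g' g b1 a1 b2 a2 (by have := hm3 _ b3; omega) (by have := hm3 _ a3; omega)
            (hm4 _ b3) (hm4 _ a3) hgd' hgd
      · rw [ind_false hex]
        refine le_of_eq (Finset.sum_eq_zero fun g hg => ind_false fun hd => hex ⟨g, hg, hd⟩)
    refine le_trans ?_ h1
    have h2 : ∑ g ∈ RR 2 k1 k2, 1 / (2 * (2 : ℝ) ^ g.natDegree) ≤
        ∑ g ∈ RR 2 k1 k2, pr (fun b : Edge n → Bool => g ∣ (adj (ZMod 2) b).charpoly) := by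
      refine Finset.sum_le_sum fun g hg => ?_
      obtain ⟨a1, a2, a3, a4⟩ := hP g hg
      exact b5_lower g a1 a2 (hm3 _ a3) (hm4 _ a3) (hmn _ a4)
    refine le_trans ?_ h2
    rw [tbb_sum k1 k2 (fun m => 1 / (2 * (2 : ℝ) ^ m))]
    have h3 : ∑ m ∈ Finset.Ioc k1 k2, 1 / (2 * (n : ℝ)) ≤
        ∑ m ∈ Finset.Ioc k1 k2, ((Irr 2 m).card : ℝ) * (1 / (2 * 2 ^ m)) := by
      refine Finset.sum_le_sum fun m hm => ?_
      rw [Finset.mem_Ioc] at hm
      refine le_trans ?_ (tbb_irr_lower m (hm3 m hm.1))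
      have h4 : (m : ℝ) ≤ n / 2 := le_trans (by exact_mod_cast hm.2) hcount2
      have h5 : (0 : ℝ) < m := by
        have := hm3 m hm.1
        exact_mod_cast (by omega : 0 < m)
      exact one_div_le_one_div_of_le (by positivity) (by linarith)
    refine le_trans ?_ h3
    rw [Finset.sum_const, nsmul_eq_mul, hcardI, mul_one_div, div_le_div_iff₀ (by norm_num) (by positivity)]
    nlinarith
  -- bad events
  have hB2 : ∑ g ∈ RR 2 k1 k2, pr (fun b : Edge n → Bool => ((2 : ℝ) ^ g.natDegree) ^ 2 ≤ kerc g (adj (ZMod 2) b)) ≤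
      t / 64 := by
    have h1 : ∑ g ∈ RR 2 k1 k2, pr (fun b : Edge n → Bool => ((2 : ℝ) ^ g.natDegree) ^ 2 ≤ kerc g (adj (ZMod 2) b)) ≤
        ∑ g ∈ RR 2 k1 k2, 2 / ((2 : ℝ) ^ g.natDegree) ^ 3 := by
      refine Finset.sum_le_sum fun g hg => ?_
      obtain ⟨a1, a2, a3, a4⟩ := hP g hg
      exact b5_pr2 g a1 a2 (by have := hm3 _ a3; omega) (hm4 _ a3)
    refine h1.trans ?_
    rw [tbb_sum k1 k2 (fun m => 2 / ((2 : ℝ) ^ m) ^ 3)]
    have h2 : ∑ m ∈ Finset.Ioc k1 k2, ((Irr 2 m).card : ℝ) * (2 / ((2 : ℝ) ^ m) ^ 3) ≤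
        ∑ m ∈ Finset.Ioc k1 k2, 32 / (n : ℝ) ^ 2 := by
      refine Finset.sum_le_sum fun m hm => ?_
      rw [Finset.mem_Ioc] at hm
      have hm1 : 1 ≤ m := by have := hm3 m hm.1; omega
      have hm0 : (1 : ℝ) ≤ m := by exact_mod_cast hm1
      have h3 := tbb_irr_upper m hm1
      have h4 : (m : ℝ) ≤ 2 ^ m := by exact_mod_cast (Nat.lt_two_pow_self (n := m)).le
      have h5 : (n : ℝ) < 4 * m := by exact_mod_cast hm4 m hm.1
      have hp : (0 : ℝ) < 2 ^ m := by positivity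
      have h6 : ((Irr 2 m).card : ℝ) ≤ 2 ^ m := h3.trans (div_le_self hp.le hm0)
      calc ((Irr 2 m).card : ℝ) * (2 / ((2 : ℝ) ^ m) ^ 3) ≤ 2 ^ m * (2 / ((2 : ℝ) ^ m) ^ 3) :=
            mul_le_mul_of_nonneg_right h6 (by positivity)
        _ = 2 / ((2 : ℝ) ^ m) ^ 2 := by field_simp
        _ ≤ 2 / (m : ℝ) ^ 2 := by
            apply div_le_div_of_nonneg_left (by norm_num) (by positivity)
            exact pow_le_pow_left₀ (by linarith) h4 2
        _ ≤ 32 / (n : ℝ) ^ 2 := by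
            rw [div_le_div_iff₀ (by positivity) (by positivity)]
            nlinarith
    refine h2.trans ?_
    rw [Finset.sum_const, nsmul_eq_mul, hcardI]
    have h7 : (k2 : ℝ) - k1 ≤ n := by
      have : (0 : ℝ) ≤ k1 := Nat.cast_nonneg _
      linarith
    calc ((k2 : ℝ) - k1) * (32 / (n : ℝ) ^ 2) ≤ n * (32 / (n : ℝ) ^ 2) :=
          mul_le_mul_of_nonneg_right h7 (by positivity)
      _ = 32 / n := by field_simp
      _ ≤ t / 64 := by
          rw [div_le_div_iff₀ hn0 (by norm_num)]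
          linarith
  have hB3 : ∑ g ∈ RR 2 k1 k2, pr (fun b : Edge n → Bool => Bad4 g b ∧ kerc g (adj (ZMod 2) b) = (2 : ℝ) ^ g.natDegree) ≤
      t / 128 := by
    have h1 : ∑ g ∈ RR 2 k1 k2, pr (fun b : Edge n → Bool => Bad4 g b ∧ kerc g (adj (ZMod 2) b) = (2 : ℝ) ^ g.natDegree) ≤
        ∑ g ∈ RR 2 k1 k2, (t / 256) / (2 : ℝ) ^ g.natDegree := by
      refine Finset.sum_le_sum fun g hg => ?_
      obtain ⟨a1, a2, a3, a4⟩ := hP g hg
      refine hn2 n hnn2 g a1 a2 ?_ ?_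
      · have := hupp _ a4
        linarith
      · exact (hm4 _ a3).le
    refine h1.trans ?_
    rw [tbb_sum k1 k2 (fun m => (t / 256) / (2 : ℝ) ^ m)]
    have h2 : ∑ m ∈ Finset.Ioc k1 k2, ((Irr 2 m).card : ℝ) * ((t / 256) / (2 : ℝ) ^ m) ≤
        ∑ m ∈ Finset.Ioc k1 k2, (t / 256) * (4 / (n : ℝ)) := by
      refine Finset.sum_le_sum fun m hm => ?_
      rw [Finset.mem_Ioc] at hm
      have hm1 : 1 ≤ m := by have := hm3 m hm.1; omega
      have hm0 : (0 : ℝ) < m := by exact_mod_cast hm1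
      have h3 := tbb_irr_upper m hm1
      have h5 : (n : ℝ) < 4 * m := by exact_mod_cast hm4 m hm.1
      have hp : (0 : ℝ) < 2 ^ m := by positivity
      calc ((Irr 2 m).card : ℝ) * ((t / 256) / (2 : ℝ) ^ m) ≤ (2 ^ m / m) * ((t / 256) / (2 : ℝ) ^ m) :=
            mul_le_mul_of_nonneg_right h3 (by positivity)
        _ = (t / 256) * (1 / m) := by field_simp
        _ ≤ (t / 256) * (4 / (n : ℝ)) := by
            refine mul_le_mul_of_nonneg_left ?_ (by positivity)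
            rw [div_le_div_iff₀ hm0 hn0]
            linarith
    refine h2.trans ?_
    rw [Finset.sum_const, nsmul_eq_mul, hcardI]
    have h7 : (k2 : ℝ) - k1 ≤ n / 2 := by
      have : (0 : ℝ) ≤ k1 := Nat.cast_nonneg _
      linarith
    calc ((k2 : ℝ) - k1) * ((t / 256) * (4 / (n : ℝ))) ≤ (n / 2) * ((t / 256) * (4 / (n : ℝ))) :=
          mul_le_mul_of_nonneg_right h7 (by positivity)
      _ = t / 128 := by field_simp; norm_num
  have hB4 := hn1 n hnn1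
  -- conclusion
  have hmain : pr (fun b : Edge n → Bool => ∃ g ∈ RR 2 k1 k2, g ∣ (adj (ZMod 2) b).charpoly) ≤
      pr (fun b : Edge n → Bool => Irreducible (adj ℚ b).charpoly) +
      pr (fun b : Edge n → Bool => ∃ g ∈ RR 2 k1 k2, ((2 : ℝ) ^ g.natDegree) ^ 2 ≤ kerc g (adj (ZMod 2) b)) +
      pr (fun b : Edge n → Bool => ∃ g ∈ RR 2 k1 k2, Bad4 g b ∧ kerc g (adj (ZMod 2) b) = (2 : ℝ) ^ g.natDegree) +
      pr (fun b : Edge n → Bool => ∃ g : ℚ[X], g ∣ (adj ℚ b).charpoly ∧ 1 ≤ g.natDegree ∧ (g.natDegree : ℝ) ≤ theta * n) := by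
    unfold pr
    rw [← avg_add, ← avg_add, ← avg_add]
    refine avg_mono fun b => ?_
    have i1 := ind_nonneg (Irreducible (adj ℚ b).charpoly)
    have i2 := ind_nonneg (∃ g ∈ RR 2 k1 k2, ((2 : ℝ) ^ g.natDegree) ^ 2 ≤ kerc g (adj (ZMod 2) b))
    have i3 := ind_nonneg (∃ g ∈ RR 2 k1 k2, Bad4 g b ∧ kerc g (adj (ZMod 2) b) = (2 : ℝ) ^ g.natDegree)
    have i4 := ind_nonneg (∃ g : ℚ[X], g ∣ (adj ℚ b).charpoly ∧ 1 ≤ g.natDegree ∧ (g.natDegree : ℝ) ≤ theta * n)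
    by_cases hex : ∃ g ∈ RR 2 k1 k2, g ∣ (adj (ZMod 2) b).charpoly
    swap
    · rw [ind_false hex]; linarith
    rw [ind_true hex]
    obtain ⟨g, hg, hgd⟩ := hex
    obtain ⟨a1, a2, a3, a4⟩ := hP g hg
    by_cases c2 : ∃ g ∈ RR 2 k1 k2, ((2 : ℝ) ^ g.natDegree) ^ 2 ≤ kerc g (adj (ZMod 2) b)
    · rw [ind_true c2]; linarith
    by_cases c3 : ∃ g ∈ RR 2 k1 k2, Bad4 g b ∧ kerc g (adj (ZMod 2) b) = (2 : ℝ) ^ g.natDegree
    · rw [ind_true c3]; linarith
    by_cases c4 : ∃ g : ℚ[X], g ∣ (adj ℚ b).charpoly ∧ 1 ≤ g.natDegree ∧ (g.natDegree : ℝ) ≤ theta * n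
    · rw [ind_true c4]; linarith
    have hirr : Irreducible (adj ℚ b).charpoly := by
      refine tbb_det b t theta htt hnn4 g a1 a2 (by have := hm3 _ a3; omega) ?_ hgd
        (fun h => c2 ⟨g, hg, h⟩) (fun h => c3 ⟨g, hg, h⟩) c4
      have := hlow _ a3
      linarith
    rw [ind_true hirr]
    linarith
  have hu2 := (pr_exists_le (RR 2 k1 k2) (fun g (b : Edge n → Bool) =>
    ((2 : ℝ) ^ g.natDegree) ^ 2 ≤ kerc g (adj (ZMod 2) b))).trans hB2
  have hu3 := (pr_exists_le (RR 2 k1 k2) (fun g (b : Edge n → Bool) =>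
    Bad4 g b ∧ kerc g (adj (ZMod 2) b) = (2 : ℝ) ^ g.natDegree)).trans hB3
  linarith

end Pool.H64.IR

end S_TBB
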